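import Mathlib

/-!
Degree 2 models `y^2 + q(x,z) y = g(x,z)` of genus one curves, the group acting on them and the
Weierstrass equation of the Jacobian.
-/

namespace SelAvg

open WeierstrassCurve

variable {R S : Type*} [CommRing R] [CommRing S]

/-- The model `y^2 + (l x^2 + m x z + n z^2) y = a x^4 + b x^3 z + c x^2 z^2 + d x z^3 + e z^4`. -/
@[ext] structure Model (R : Type*) where
  l : R
  m : R
  n : R
  a : R
  b : R
  c : R
  d : R
  e : R

/-- A triple of weighted homogeneous coordinates (weights 1, 1, 2). -/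
@[ext] structure Pt (R : Type*) where
  x : R
  z : R
  y : R

namespace Pt

def map (φ : R →+* S) (Q : Pt R) : Pt S := ⟨φ Q.x, φ Q.z, φ Q.y⟩

/-- weighted scaling -/
def sc (t : R) (Q : Pt R) : Pt R := ⟨t * Q.x, t * Q.z, t ^ 2 * Q.y⟩

/-- the standard point `(1 : 0 : 0)` -/
def std : Pt R := ⟨1, 0, 0⟩

@[simp] lemma map_x (φ : R →+* S) (Q : Pt R) : (Q.map φ).x = φ Q.x := rfl
@[simp] lemma map_z (φ : R →+* S) (Q : Pt R) : (Q.map φ).z = φ Q.z := rfl
@[simp] lemma map_y (φ : R →+* S) (Q : Pt R) : (Q.map φ).y = φ Q.y := rfl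
@[simp] lemma sc_x (t : R) (Q : Pt R) : (Q.sc t).x = t * Q.x := rfl
@[simp] lemma sc_z (t : R) (Q : Pt R) : (Q.sc t).z = t * Q.z := rfl
@[simp] lemma sc_y (t : R) (Q : Pt R) : (Q.sc t).y = t ^ 2 * Q.y := rfl
@[simp] lemma std_x : (std : Pt R).x = 1 := rfl
@[simp] lemma std_z : (std : Pt R).z = 0 := rfl
@[simp] lemma std_y : (std : Pt R).y = 0 := rfl
@[simp] lemma map_std (φ : R →+* S) : (std : Pt R).map φ = std := by ext <;> simp

end Pt

/-- scaling of a Weierstrass equation by an arbitrary ring element -/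
def wsc (u : R) (W : WeierstrassCurve R) : WeierstrassCurve R :=
  ⟨u * W.a₁, u ^ 2 * W.a₂, u ^ 3 * W.a₃, u ^ 4 * W.a₄, u ^ 6 * W.a₆⟩

/-- the change of variables with `u = 1` -/
def wsh (r s t : R) : VariableChange R := ⟨1, r, s, t⟩

/-- the diagonal change of variables -/
def wdiag (u : Rˣ) : VariableChange R := ⟨u, 0, 0, 0⟩

lemma wsc_unit (u : Rˣ) (W : WeierstrassCurve R) : wsc (u : R) W = wdiag u⁻¹ • W := by
  ext <;> simp [wsc, wdiag, variableChange_def]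

lemma wsh_mul (r s t r' s' t' : R) :
    wsh r s t * wsh r' s' t' = wsh (r + r') (s + s') (t + r * s' + t') := by
  simp [wsh, VariableChange.mul_def]

lemma wsh_mul_wdiag (r s t : R) (u : Rˣ) :
    wsh r s t * wdiag u = wdiag u * wsh (u ^ 2 * r) (u * s) (u ^ 3 * t) := by
  simp [wsh, wdiag, VariableChange.mul_def, mul_comm]

lemma wdiag_mul (u u' : Rˣ) : wdiag u * wdiag u' = wdiag (u * u') := by
  simp [wdiag, VariableChange.mul_def]

namespace Model

def q (f : Model R) (x z : R) : R := f.l * x ^ 2 + f.m * x * z + f.n * z ^ 2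

def g (f : Model R) (x z : R) : R :=
  f.a * x ^ 4 + f.b * x ^ 3 * z + f.c * x ^ 2 * z ^ 2 + f.d * x * z ^ 3 + f.e * z ^ 4

/-- the defining equation -/
def F (f : Model R) (Q : Pt R) : R := Q.y ^ 2 + f.q Q.x Q.z * Q.y - f.g Q.x Q.z

/-- the derivative of the equation in `y` -/
def psi (f : Model R) (Q : Pt R) : R := 2 * Q.y + f.q Q.x Q.z

/-- the derivative of the equation in `x` -/
def Fx (f : Model R) (Q : Pt R) : R := (2 * f.l * Q.x + f.m * Q.z) * Q.y -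
  (4 * f.a * Q.x ^ 3 + 3 * f.b * Q.x ^ 2 * Q.z + 2 * f.c * Q.x * Q.z ^ 2 + f.d * Q.z ^ 3)

/-- the derivative of the equation in `z` -/
def Fz (f : Model R) (Q : Pt R) : R := (f.m * Q.x + 2 * f.n * Q.z) * Q.y -
  (f.b * Q.x ^ 3 + 2 * f.c * Q.x ^ 2 * Q.z + 3 * f.d * Q.x * Q.z ^ 2 + 4 * f.e * Q.z ^ 3)

/-- the hyperelliptic involution on points -/
def inv (f : Model R) (Q : Pt R) : Pt R := ⟨Q.x, Q.z, -Q.y - f.q Q.x Q.z⟩

/-- the Weierstrass equation of the Jacobian -/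
def jac (f : Model R) : WeierstrassCurve R where
  a₁ := f.m
  a₂ := f.c - f.l * f.n
  a₃ := f.l * f.d + f.n * f.b
  a₄ := -f.l ^ 2 * f.e - f.l * f.n * f.c - f.n ^ 2 * f.a - 4 * f.a * f.e + f.b * f.d
  a₆ := -f.l ^ 2 * f.c * f.e + f.l * f.m * f.b * f.e - f.l * f.n * f.b * f.d - f.m ^ 2 * f.a * f.e
    + f.m * f.n * f.a * f.d - f.n ^ 2 * f.a * f.c - 4 * f.a * f.c * f.e + f.a * f.d ^ 2
    + f.b ^ 2 * f.e

def map (φ : R →+* S) (f : Model R) : Model S :=
  ⟨φ f.l, φ f.m, φ f.n, φ f.a, φ f.b, φ f.c, φ f.d, φ f.e⟩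

@[simp] lemma map_l (φ : R →+* S) (f : Model R) : (f.map φ).l = φ f.l := rfl
@[simp] lemma map_m (φ : R →+* S) (f : Model R) : (f.map φ).m = φ f.m := rfl
@[simp] lemma map_n (φ : R →+* S) (f : Model R) : (f.map φ).n = φ f.n := rfl
@[simp] lemma map_a (φ : R →+* S) (f : Model R) : (f.map φ).a = φ f.a := rfl
@[simp] lemma map_b (φ : R →+* S) (f : Model R) : (f.map φ).b = φ f.b := rfl
@[simp] lemma map_c (φ : R →+* S) (f : Model R) : (f.map φ).c = φ f.c := rfl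
@[simp] lemma map_d (φ : R →+* S) (f : Model R) : (f.map φ).d = φ f.d := rfl
@[simp] lemma map_e (φ : R →+* S) (f : Model R) : (f.map φ).e = φ f.e := rfl

lemma map_map {T : Type*} [CommRing T] (φ : R →+* S) (ψ : S →+* T) (f : Model R) :
    (f.map φ).map ψ = f.map (ψ.comp φ) := rfl

lemma map_injective {φ : R →+* S} (h : Function.Injective φ) :
    Function.Injective (Model.map φ) := by
  intro f f' hf
  ext
  exacts [h (congrArg Model.l hf), h (congrArg Model.m hf), h (congrArg Model.n hf),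
    h (congrArg Model.a hf), h (congrArg Model.b hf), h (congrArg Model.c hf),
    h (congrArg Model.d hf), h (congrArg Model.e hf)]

lemma map_q (φ : R →+* S) (f : Model R) (x z : R) : (f.map φ).q (φ x) (φ z) = φ (f.q x z) := by
  simp [q]

lemma map_g (φ : R →+* S) (f : Model R) (x z : R) : (f.map φ).g (φ x) (φ z) = φ (f.g x z) := by
  simp [g]

lemma map_F (φ : R →+* S) (f : Model R) (Q : Pt R) : (f.map φ).F (Q.map φ) = φ (f.F Q) := by
  simp [F, q, g]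

lemma map_psi (φ : R →+* S) (f : Model R) (Q : Pt R) :
    (f.map φ).psi (Q.map φ) = φ (f.psi Q) := by
  simp [psi, q, map_ofNat]

lemma map_Fx (φ : R →+* S) (f : Model R) (Q : Pt R) : (f.map φ).Fx (Q.map φ) = φ (f.Fx Q) := by
  simp [Fx, map_ofNat]

lemma map_Fz (φ : R →+* S) (f : Model R) (Q : Pt R) : (f.map φ).Fz (Q.map φ) = φ (f.Fz Q) := by
  simp [Fz, map_ofNat]

lemma map_inv (φ : R →+* S) (f : Model R) (Q : Pt R) :
    (f.map φ).inv (Q.map φ) = (f.inv Q).map φ := by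
  ext <;> simp [inv, q]

lemma jac_map (φ : R →+* S) (f : Model R) : (f.map φ).jac = f.jac.map φ := by
  ext <;> simp [jac, map_ofNat]

lemma F_sc (f : Model R) (t : R) (Q : Pt R) : f.F (Q.sc t) = t ^ 4 * f.F Q := by
  simp [F, q, g]; ring

lemma psi_sc (f : Model R) (t : R) (Q : Pt R) : f.psi (Q.sc t) = t ^ 2 * f.psi Q := by
  simp [psi, q]; ring

lemma Fx_sc (f : Model R) (t : R) (Q : Pt R) : f.Fx (Q.sc t) = t ^ 3 * f.Fx Q := by
  simp [Fx]; ring

lemma Fz_sc (f : Model R) (t : R) (Q : Pt R) : f.Fz (Q.sc t) = t ^ 3 * f.Fz Q := by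
  simp [Fz]; ring

lemma inv_sc (f : Model R) (t : R) (Q : Pt R) : f.inv (Q.sc t) = (f.inv Q).sc t := by
  ext <;> simp [inv, q]; ring

lemma F_inv (f : Model R) (Q : Pt R) : f.F (f.inv Q) = f.F Q := by
  simp [F, inv]; ring

lemma inv_inv (f : Model R) (Q : Pt R) : f.inv (f.inv Q) = Q := by
  ext <;> simp [inv]

lemma euler (f : Model R) (Q : Pt R) :
    Q.x * f.Fx Q + Q.z * f.Fz Q + 2 * Q.y * f.psi Q = 4 * f.F Q := by
  simp [F, Fx, Fz, psi, q, g]; ring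

@[simp] lemma F_std (f : Model R) : f.F Pt.std = -f.a := by simp [F, q, g]
@[simp] lemma psi_std (f : Model R) : f.psi Pt.std = f.l := by simp [psi, q]
@[simp] lemma Fx_std (f : Model R) : f.Fx Pt.std = -(4 * f.a) := by simp [Fx]
@[simp] lemma Fz_std (f : Model R) : f.Fz Pt.std = -f.b := by simp [Fz]

/-- substitution `(x, z) ↦ (α x + γ z, β x + δ z)` -/
def subst (α β γ δ : R) (f : Model R) : Model R where
  l := f.l * α ^ 2 + f.m * α * β + f.n * β ^ 2
  m := 2 * f.l * α * γ + f.m * α * δ + f.m * β * γ + 2 * f.n * β * δ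
  n := f.l * γ ^ 2 + f.m * γ * δ + f.n * δ ^ 2
  a := f.a * α ^ 4 + f.b * α ^ 3 * β + f.c * α ^ 2 * β ^ 2 + f.d * α * β ^ 3 + f.e * β ^ 4
  b := 4 * f.a * α ^ 3 * γ + f.b * α ^ 3 * δ + 3 * f.b * α ^ 2 * β * γ + 2 * f.c * α ^ 2 * β * δ
    + 2 * f.c * α * β ^ 2 * γ + 3 * f.d * α * β ^ 2 * δ + f.d * β ^ 3 * γ + 4 * f.e * β ^ 3 * δ
  c := 6 * f.a * α ^ 2 * γ ^ 2 + 3 * f.b * α ^ 2 * γ * δ + 3 * f.b * α * β * γ ^ 2
    + f.c * α ^ 2 * δ ^ 2 + 4 * f.c * α * β * γ * δ + f.c * β ^ 2 * γ ^ 2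
    + 3 * f.d * α * β * δ ^ 2 + 3 * f.d * β ^ 2 * γ * δ + 6 * f.e * β ^ 2 * δ ^ 2
  d := 4 * f.a * α * γ ^ 3 + 3 * f.b * α * γ ^ 2 * δ + f.b * β * γ ^ 3 + 2 * f.c * α * γ * δ ^ 2
    + 2 * f.c * β * γ ^ 2 * δ + f.d * α * δ ^ 3 + 3 * f.d * β * γ * δ ^ 2 + 4 * f.e * β * δ ^ 3
  e := f.a * γ ^ 4 + f.b * γ ^ 3 * δ + f.c * γ ^ 2 * δ ^ 2 + f.d * γ * δ ^ 3 + f.e * δ ^ 4

/-- substitution `y ↦ y + r0 x^2 + r1 x z + r2 z^2` -/
def shift (r0 r1 r2 : R) (f : Model R) : Model R where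
  l := f.l + 2 * r0
  m := f.m + 2 * r1
  n := f.n + 2 * r2
  a := -f.l * r0 + f.a - r0 ^ 2
  b := -f.l * r1 - f.m * r0 + f.b - 2 * r0 * r1
  c := -f.l * r2 - f.m * r1 - f.n * r0 + f.c - 2 * r0 * r2 - r1 ^ 2
  d := -f.m * r2 - f.n * r1 + f.d - 2 * r1 * r2
  e := -f.n * r2 + f.e - r2 ^ 2

/-- `(q, g) ↦ (t q, t^2 g)` -/
def scale (t : R) (f : Model R) : Model R :=
  ⟨t * f.l, t * f.m, t * f.n, t ^ 2 * f.a, t ^ 2 * f.b, t ^ 2 * f.c, t ^ 2 * f.d, t ^ 2 * f.e⟩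

def subR (α β γ δ : R) (f : Model R) : R :=
  2 * f.a * α ^ 2 * γ ^ 2 + f.b * α ^ 2 * γ * δ + f.b * α * β * γ ^ 2 + 2 * f.c * α * β * γ * δ
    + f.d * α * β * δ ^ 2 + f.d * β ^ 2 * γ * δ + 2 * f.e * β ^ 2 * δ ^ 2

def subS (α β γ δ : R) (f : Model R) : R := f.l * α * γ + f.m * β * γ + f.n * β * δ

def subT (α β γ δ : R) (f : Model R) : R :=
  4 * f.l * f.a * α ^ 3 * γ ^ 3 + 2 * f.l * f.b * α ^ 3 * γ ^ 2 * δ
    + 2 * f.l * f.b * α ^ 2 * β * γ ^ 3 + f.l * f.c * α ^ 3 * γ * δ ^ 2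
    + 2 * f.l * f.c * α ^ 2 * β * γ ^ 2 * δ + f.l * f.c * α * β ^ 2 * γ ^ 3
    + 3 * f.l * f.d * α ^ 2 * β * γ * δ ^ 2 + f.l * f.d * β ^ 3 * γ ^ 3
    + 2 * f.l * f.e * α ^ 2 * β * δ ^ 3 + 2 * f.l * f.e * β ^ 3 * γ ^ 2 * δ
    + f.m * f.a * α ^ 3 * γ ^ 2 * δ + 3 * f.m * f.a * α ^ 2 * β * γ ^ 3
    + 3 * f.m * f.b * α ^ 2 * β * γ ^ 2 * δ + f.m * f.b * α * β ^ 2 * γ ^ 3
    + f.m * f.c * α ^ 2 * β * γ * δ ^ 2 + 3 * f.m * f.c * α * β ^ 2 * γ ^ 2 * δ
    + 3 * f.m * f.d * α * β ^ 2 * γ * δ ^ 2 + f.m * f.d * β ^ 3 * γ ^ 2 * δ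
    + f.m * f.e * α * β ^ 2 * δ ^ 3 + 3 * f.m * f.e * β ^ 3 * γ * δ ^ 2
    + 2 * f.n * f.a * α ^ 3 * γ * δ ^ 2 + 2 * f.n * f.a * α * β ^ 2 * γ ^ 3
    + 3 * f.n * f.b * α ^ 2 * β * γ * δ ^ 2 + f.n * f.b * β ^ 3 * γ ^ 3
    + f.n * f.c * α ^ 2 * β * δ ^ 3 + 2 * f.n * f.c * α * β ^ 2 * γ * δ ^ 2
    + f.n * f.c * β ^ 3 * γ ^ 2 * δ + 2 * f.n * f.d * α * β ^ 2 * δ ^ 3
    + 2 * f.n * f.d * β ^ 3 * γ * δ ^ 2 + 4 * f.n * f.e * β ^ 3 * δ ^ 3

def shR (r0 r2 : R) (f : Model R) : R := -f.l * r2 - f.n * r0 - 2 * r0 * r2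

def shT (r0 r1 r2 : R) (f : Model R) : R :=
  -f.l * f.n * r1 - 2 * f.l * r1 * r2 - f.m * r0 * r2 - 2 * f.n * r0 * r1 + f.b * r2 + f.d * r0
    - 4 * r0 * r1 * r2

lemma jac_subst (α β γ δ : R) (f : Model R) :
    (f.subst α β γ δ).jac =
      wsh (f.subR α β γ δ) (f.subS α β γ δ) (f.subT α β γ δ) • wsc (α * δ - β * γ) f.jac := by
  ext <;> simp [jac, subst, wsh, wsc, subR, subS, subT, variableChange_def] <;> ring

lemma jac_shift (r0 r1 r2 : R) (f : Model R) :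
    (f.shift r0 r1 r2).jac = wsh (f.shR r0 r2) r1 (f.shT r0 r1 r2) • f.jac := by
  ext <;> simp [jac, shift, wsh, shR, shT, variableChange_def] <;> ring

lemma jac_scale (t : R) (f : Model R) : (f.scale t).jac = wsc t f.jac := by
  ext <;> simp [jac, scale, wsc] <;> ring

lemma subst_subst (α β γ δ α' β' γ' δ' : R) (f : Model R) :
    (f.subst α' β' γ' δ').subst α β γ δ =
      f.subst (α * α' + β * γ') (α * β' + β * δ') (γ * α' + δ * γ') (γ * β' + δ * δ') := by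
  ext <;> simp [subst] <;> ring

lemma subst_shift (α β γ δ s0 s1 s2 : R) (f : Model R) :
    (f.shift s0 s1 s2).subst α β γ δ =
      (f.subst α β γ δ).shift (s0 * α ^ 2 + s1 * α * β + s2 * β ^ 2)
        (2 * s0 * α * γ + s1 * α * δ + s1 * β * γ + 2 * s2 * β * δ)
        (s0 * γ ^ 2 + s1 * γ * δ + s2 * δ ^ 2) := by
  ext <;> simp [subst, shift] <;> ring

lemma shift_shift (r0 r1 r2 s0 s1 s2 : R) (f : Model R) :
    (f.shift s0 s1 s2).shift r0 r1 r2 = f.shift (r0 + s0) (r1 + s1) (r2 + s2) := by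
  ext <;> simp [shift] <;> ring

lemma shift_scale (t r0 r1 r2 : R) (f : Model R) :
    (f.scale t).shift (t * r0) (t * r1) (t * r2) = (f.shift r0 r1 r2).scale t := by
  ext <;> simp [shift, scale] <;> ring

lemma subst_scale (t α β γ δ : R) (f : Model R) :
    (f.scale t).subst α β γ δ = (f.subst α β γ δ).scale t := by
  ext <;> simp [subst, scale] <;> ring

lemma scale_scale (t t' : R) (f : Model R) : (f.scale t').scale t = f.scale (t * t') := by
  ext <;> simp [scale] <;> ring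

@[simp] lemma scale_one (f : Model R) : f.scale 1 = f := by ext <;> simp [scale]
@[simp] lemma shift_zero (f : Model R) : f.shift 0 0 0 = f := by ext <;> simp [shift]
@[simp] lemma subst_one (f : Model R) : f.subst 1 0 0 1 = f := by ext <;> simp [subst]

lemma map_subst (φ : R →+* S) (α β γ δ : R) (f : Model R) :
    (f.subst α β γ δ).map φ = (f.map φ).subst (φ α) (φ β) (φ γ) (φ δ) := by
  ext <;> simp [subst, map_ofNat]

lemma map_shift (φ : R →+* S) (r0 r1 r2 : R) (f : Model R) :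
    (f.shift r0 r1 r2).map φ = (f.map φ).shift (φ r0) (φ r1) (φ r2) := by
  ext <;> simp [shift, map_ofNat]

lemma map_scale (φ : R →+* S) (t : R) (f : Model R) :
    (f.scale t).map φ = (f.map φ).scale (φ t) := by
  ext <;> simp [scale]

lemma T_subst_subst (α β γ δ α' β' γ' δ' : R) (f : Model R) :
    wsh (f.subR (α * α' + β * γ') (α * β' + β * δ') (γ * α' + δ * γ') (γ * β' + δ * δ'))
      (f.subS (α * α' + β * γ') (α * β' + β * δ') (γ * α' + δ * γ') (γ * β' + δ * δ'))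
      (f.subT (α * α' + β * γ') (α * β' + β * δ') (γ * α' + δ * γ') (γ * β' + δ * δ')) =
    wsh ((f.subst α' β' γ' δ').subR α β γ δ) ((f.subst α' β' γ' δ').subS α β γ δ)
      ((f.subst α' β' γ' δ').subT α β γ δ) *
    wsh ((α * δ - β * γ) ^ 2 * f.subR α' β' γ' δ') ((α * δ - β * γ) * f.subS α' β' γ' δ')
      ((α * δ - β * γ) ^ 3 * f.subT α' β' γ' δ') := by
  rw [wsh_mul]
  congr 1 <;> simp only [subR, subS, subT, subst] <;> ring

lemma T_subst_shift (α β γ δ s0 s1 s2 : R) (f : Model R) :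
    wsh ((f.shift s0 s1 s2).subR α β γ δ) ((f.shift s0 s1 s2).subS α β γ δ)
      ((f.shift s0 s1 s2).subT α β γ δ) *
    wsh ((α * δ - β * γ) ^ 2 * f.shR s0 s2) ((α * δ - β * γ) * s1)
      ((α * δ - β * γ) ^ 3 * f.shT s0 s1 s2) =
    wsh ((f.subst α β γ δ).shR (s0 * α ^ 2 + s1 * α * β + s2 * β ^ 2)
        (s0 * γ ^ 2 + s1 * γ * δ + s2 * δ ^ 2))
      (2 * s0 * α * γ + s1 * α * δ + s1 * β * γ + 2 * s2 * β * δ)
      ((f.subst α β γ δ).shT (s0 * α ^ 2 + s1 * α * β + s2 * β ^ 2)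
        (2 * s0 * α * γ + s1 * α * δ + s1 * β * γ + 2 * s2 * β * δ)
        (s0 * γ ^ 2 + s1 * γ * δ + s2 * δ ^ 2)) *
    wsh (f.subR α β γ δ) (f.subS α β γ δ) (f.subT α β γ δ) := by
  rw [wsh_mul, wsh_mul]
  congr 1 <;> simp only [subR, subS, subT, subst, shR, shT, shift] <;> ring

lemma T_shift_shift (r0 r1 r2 s0 s1 s2 : R) (f : Model R) :
    wsh (f.shR (r0 + s0) (r2 + s2)) (r1 + s1) (f.shT (r0 + s0) (r1 + s1) (r2 + s2)) =
    wsh ((f.shift s0 s1 s2).shR r0 r2) r1 ((f.shift s0 s1 s2).shT r0 r1 r2) *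
      wsh (f.shR s0 s2) s1 (f.shT s0 s1 s2) := by
  rw [wsh_mul]
  congr 1 <;> simp only [shR, shT, shift] <;> ring

lemma subR_scale (t α β γ δ : R) (f : Model R) :
    (f.scale t).subR α β γ δ = t ^ 2 * f.subR α β γ δ := by simp only [subR, scale]; ring
lemma subS_scale (t α β γ δ : R) (f : Model R) :
    (f.scale t).subS α β γ δ = t * f.subS α β γ δ := by simp only [subS, scale]; ring
lemma subT_scale (t α β γ δ : R) (f : Model R) :
    (f.scale t).subT α β γ δ = t ^ 3 * f.subT α β γ δ := by simp only [subT, scale]; ring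
lemma shR_scale (t r0 r2 : R) (f : Model R) :
    (f.scale t).shR (t * r0) (t * r2) = t ^ 2 * f.shR r0 r2 := by simp only [shR, scale]; ring
lemma shT_scale (t r0 r1 r2 : R) (f : Model R) :
    (f.scale t).shT (t * r0) (t * r1) (t * r2) = t ^ 3 * f.shT r0 r1 r2 := by
  simp only [shT, scale]; ring

end Model

end SelAvg

/-!
The group `G R` of substitutions `(x, z, y) ↦ ((x, z) M, μ y + r(x, z))`, its action on models,
the induced change of Weierstrass coordinates and the objects (model with an identification of the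
Jacobian).
-/

namespace SelAvg

open WeierstrassCurve

variable {R S : Type*} [CommRing R] [CommRing S]

@[ext] structure G (R : Type*) [CommRing R] where
  M : GL (Fin 2) R
  μ : Rˣ
  r0 : R
  r1 : R
  r2 : R

namespace G

def m11 (g : G R) : R := (g.M : Matrix (Fin 2) (Fin 2) R) 0 0
def m12 (g : G R) : R := (g.M : Matrix (Fin 2) (Fin 2) R) 0 1
def m21 (g : G R) : R := (g.M : Matrix (Fin 2) (Fin 2) R) 1 0
def m22 (g : G R) : R := (g.M : Matrix (Fin 2) (Fin 2) R) 1 1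

/-- the determinant as a unit -/
def det (g : G R) : Rˣ := Matrix.GeneralLinearGroup.det g.M

lemma det_val (g : G R) : (g.det : R) = g.m11 * g.m22 - g.m12 * g.m21 := by
  simp [det, m11, m12, m21, m22, Matrix.det_fin_two]

instance : One (G R) := ⟨⟨1, 1, 0, 0, 0⟩⟩

instance : Mul (G R) := ⟨fun g h => ⟨g.M * h.M, g.μ * h.μ,
  h.μ * g.r0 + (h.r0 * g.m11 ^ 2 + h.r1 * g.m11 * g.m12 + h.r2 * g.m12 ^ 2),
  h.μ * g.r1 + (2 * h.r0 * g.m11 * g.m21 + h.r1 * g.m11 * g.m22 + h.r1 * g.m12 * g.m21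
    + 2 * h.r2 * g.m12 * g.m22),
  h.μ * g.r2 + (h.r0 * g.m21 ^ 2 + h.r1 * g.m21 * g.m22 + h.r2 * g.m22 ^ 2)⟩⟩

/-- the pure matrix element -/
def ofM (M : GL (Fin 2) R) : G R := ⟨M, 1, 0, 0, 0⟩

/-- the pure shift -/
def ofShift (r0 r1 r2 : R) : G R := ⟨1, 1, r0, r1, r2⟩

/-- the pure scaling of `y` -/
def ofMu (μ : Rˣ) : G R := ⟨1, μ, 0, 0, 0⟩

instance : Inv (G R) := ⟨fun g => ofM g.M⁻¹ * ofShift (-g.r0) (-g.r1) (-g.r2) * ofMu g.μ⁻¹⟩

@[simp] lemma one_M : (1 : G R).M = 1 := rfl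
@[simp] lemma one_μ : (1 : G R).μ = 1 := rfl
@[simp] lemma one_r0 : (1 : G R).r0 = 0 := rfl
@[simp] lemma one_r1 : (1 : G R).r1 = 0 := rfl
@[simp] lemma one_r2 : (1 : G R).r2 = 0 := rfl
@[simp] lemma mul_M (g h : G R) : (g * h).M = g.M * h.M := rfl
@[simp] lemma mul_μ (g h : G R) : (g * h).μ = g.μ * h.μ := rfl
lemma mul_r0 (g h : G R) : (g * h).r0 =
  h.μ * g.r0 + (h.r0 * g.m11 ^ 2 + h.r1 * g.m11 * g.m12 + h.r2 * g.m12 ^ 2) := rfl
lemma mul_r1 (g h : G R) : (g * h).r1 =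
  h.μ * g.r1 + (2 * h.r0 * g.m11 * g.m21 + h.r1 * g.m11 * g.m22 + h.r1 * g.m12 * g.m21
    + 2 * h.r2 * g.m12 * g.m22) := rfl
lemma mul_r2 (g h : G R) : (g * h).r2 =
  h.μ * g.r2 + (h.r0 * g.m21 ^ 2 + h.r1 * g.m21 * g.m22 + h.r2 * g.m22 ^ 2) := rfl

lemma mul_m11 (g h : G R) : (g * h).m11 = g.m11 * h.m11 + g.m12 * h.m21 := by
  simp [m11, m12, m21, Matrix.mul_apply, Fin.sum_univ_two]
lemma mul_m12 (g h : G R) : (g * h).m12 = g.m11 * h.m12 + g.m12 * h.m22 := by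
  simp [m11, m12, m22, Matrix.mul_apply, Fin.sum_univ_two]
lemma mul_m21 (g h : G R) : (g * h).m21 = g.m21 * h.m11 + g.m22 * h.m21 := by
  simp [m11, m21, m22, Matrix.mul_apply, Fin.sum_univ_two]
lemma mul_m22 (g h : G R) : (g * h).m22 = g.m21 * h.m12 + g.m22 * h.m22 := by
  simp [m12, m21, m22, Matrix.mul_apply, Fin.sum_univ_two]

lemma m11_of_M_one {g : G R} (h : g.M = 1) : g.m11 = 1 := by simp [m11, h]
lemma m12_of_M_one {g : G R} (h : g.M = 1) : g.m12 = 0 := by simp [m12, h]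
lemma m21_of_M_one {g : G R} (h : g.M = 1) : g.m21 = 0 := by simp [m21, h]
lemma m22_of_M_one {g : G R} (h : g.M = 1) : g.m22 = 1 := by simp [m22, h]

@[simp] lemma one_m11 : (1 : G R).m11 = 1 := m11_of_M_one rfl
@[simp] lemma one_m12 : (1 : G R).m12 = 0 := m12_of_M_one rfl
@[simp] lemma one_m21 : (1 : G R).m21 = 0 := m21_of_M_one rfl
@[simp] lemma one_m22 : (1 : G R).m22 = 1 := m22_of_M_one rfl
@[simp] lemma ofShift_m11 (a b c : R) : (ofShift a b c).m11 = 1 := m11_of_M_one rfl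
@[simp] lemma ofShift_m12 (a b c : R) : (ofShift a b c).m12 = 0 := m12_of_M_one rfl
@[simp] lemma ofShift_m21 (a b c : R) : (ofShift a b c).m21 = 0 := m21_of_M_one rfl
@[simp] lemma ofShift_m22 (a b c : R) : (ofShift a b c).m22 = 1 := m22_of_M_one rfl
@[simp] lemma ofMu_m11 (μ : Rˣ) : (ofMu μ).m11 = 1 := m11_of_M_one rfl
@[simp] lemma ofMu_m12 (μ : Rˣ) : (ofMu μ).m12 = 0 := m12_of_M_one rfl
@[simp] lemma ofMu_m21 (μ : Rˣ) : (ofMu μ).m21 = 0 := m21_of_M_one rfl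
@[simp] lemma ofMu_m22 (μ : Rˣ) : (ofMu μ).m22 = 1 := m22_of_M_one rfl
@[simp] lemma ofM_M (M : GL (Fin 2) R) : (ofM M).M = M := rfl
@[simp] lemma ofM_μ (M : GL (Fin 2) R) : (ofM M).μ = 1 := rfl
@[simp] lemma ofM_r0 (M : GL (Fin 2) R) : (ofM M).r0 = 0 := rfl
@[simp] lemma ofM_r1 (M : GL (Fin 2) R) : (ofM M).r1 = 0 := rfl
@[simp] lemma ofM_r2 (M : GL (Fin 2) R) : (ofM M).r2 = 0 := rfl
@[simp] lemma ofShift_M (a b c : R) : (ofShift a b c).M = 1 := rfl
@[simp] lemma ofShift_μ (a b c : R) : (ofShift a b c).μ = 1 := rfl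
@[simp] lemma ofShift_r0 (a b c : R) : (ofShift a b c).r0 = a := rfl
@[simp] lemma ofShift_r1 (a b c : R) : (ofShift a b c).r1 = b := rfl
@[simp] lemma ofShift_r2 (a b c : R) : (ofShift a b c).r2 = c := rfl
@[simp] lemma ofMu_M (μ : Rˣ) : (ofMu μ).M = 1 := rfl
@[simp] lemma ofMu_μ (μ : Rˣ) : (ofMu μ).μ = μ := rfl
@[simp] lemma ofMu_r0 (μ : Rˣ) : (ofMu μ).r0 = 0 := rfl
@[simp] lemma ofMu_r1 (μ : Rˣ) : (ofMu μ).r1 = 0 := rfl
@[simp] lemma ofMu_r2 (μ : Rˣ) : (ofMu μ).r2 = 0 := rfl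

protected lemma mul_assoc (g h k : G R) : g * h * k = g * (h * k) := by
  refine G.ext (by simp [mul_assoc]) (by simp [mul_assoc]) ?_ ?_ ?_ <;>
    simp only [mul_r0, mul_r1, mul_r2, mul_m11, mul_m12, mul_m21, mul_m22, mul_μ,
      Units.val_mul] <;> ring

protected lemma one_mul (g : G R) : 1 * g = g := by
  refine G.ext (by simp) (by simp) ?_ ?_ ?_ <;> simp [mul_r0, mul_r1, mul_r2]

lemma decomp (g : G R) : g = ofMu g.μ * (ofShift g.r0 g.r1 g.r2 * ofM g.M) := by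
  refine G.ext (by simp) (by simp) ?_ ?_ ?_ <;> simp [mul_r0, mul_r1, mul_r2]

protected lemma inv_mul_cancel (g : G R) : g⁻¹ * g = 1 := by
  have h1 : ofMu g.μ⁻¹ * g = ofShift g.r0 g.r1 g.r2 * ofM g.M := by
    refine G.ext (by simp) (by simp) ?_ ?_ ?_ <;> simp [mul_r0, mul_r1, mul_r2]
  have h2 : ofShift (-g.r0) (-g.r1) (-g.r2) * (ofShift g.r0 g.r1 g.r2 * ofM g.M) = ofM g.M := by
    refine G.ext (by simp) (by simp) ?_ ?_ ?_ <;> simp [mul_r0, mul_r1, mul_r2]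
  have h3 : ofM g.M⁻¹ * ofM g.M = 1 := by
    refine G.ext (by simp) (by simp) ?_ ?_ ?_ <;> simp [mul_r0, mul_r1, mul_r2]
  change ofM g.M⁻¹ * ofShift (-g.r0) (-g.r1) (-g.r2) * ofMu g.μ⁻¹ * g = 1
  rw [G.mul_assoc, h1, G.mul_assoc, h2, h3]

instance : Group (G R) := Group.ofLeftAxioms G.mul_assoc G.one_mul G.inv_mul_cancel

@[simp] lemma inv_M (g : G R) : g⁻¹.M = g.M⁻¹ := by
  change (ofM g.M⁻¹ * ofShift (-g.r0) (-g.r1) (-g.r2) * ofMu g.μ⁻¹).M = _
  simp

@[simp] lemma inv_μ (g : G R) : g⁻¹.μ = g.μ⁻¹ := by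
  change (ofM g.M⁻¹ * ofShift (-g.r0) (-g.r1) (-g.r2) * ofMu g.μ⁻¹).μ = _
  simp

@[simp] lemma det_mul (g h : G R) : (g * h).det = g.det * h.det := by simp [det]
@[simp] lemma det_one : (1 : G R).det = 1 := by simp [det]
@[simp] lemma det_inv (g : G R) : g⁻¹.det = g.det⁻¹ := by simp [det]
@[simp] lemma det_ofShift (a b c : R) : (ofShift a b c).det = 1 := by simp [det]
@[simp] lemma det_ofMu (μ : Rˣ) : (ofMu μ).det = 1 := by simp [det]

/-- the scalar `t` as an invertible matrix -/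
def scM (t : Rˣ) : GL (Fin 2) R := Matrix.GeneralLinearGroup.scalar (Fin 2) t

/-- the scalars `(x, z, y) ↦ (t x, t z, t^2 y)`, which act trivially -/
def scalar (t : Rˣ) : G R := ⟨scM t, t ^ 2, 0, 0, 0⟩

@[simp] lemma scalar_M (t : Rˣ) : (scalar t).M = scM t := rfl
@[simp] lemma scalar_μ (t : Rˣ) : (scalar t).μ = t ^ 2 := rfl
@[simp] lemma scalar_r0 (t : Rˣ) : (scalar t).r0 = 0 := rfl
@[simp] lemma scalar_r1 (t : Rˣ) : (scalar t).r1 = 0 := rfl
@[simp] lemma scalar_r2 (t : Rˣ) : (scalar t).r2 = 0 := rfl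
@[simp] lemma scalar_m11 (t : Rˣ) : (scalar t).m11 = t := by simp [m11, scM]
@[simp] lemma scalar_m12 (t : Rˣ) : (scalar t).m12 = 0 := by simp [m12, scM]
@[simp] lemma scalar_m21 (t : Rˣ) : (scalar t).m21 = 0 := by simp [m21, scM]
@[simp] lemma scalar_m22 (t : Rˣ) : (scalar t).m22 = t := by simp [m22, scM]

lemma scM_mul (t t' : Rˣ) : scM (t * t') = scM t * scM t' := by simp [scM]
@[simp] lemma scM_one : scM (1 : Rˣ) = 1 := by simp [scM]
lemma scM_comm (t : Rˣ) (M : GL (Fin 2) R) : scM t * M = M * scM t := by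
  ext i j; simp [scM, mul_comm]

lemma scalar_mul (t t' : Rˣ) : scalar (t * t') = scalar t * scalar t' := by
  refine G.ext (by simp [scM_mul]) (by simp [mul_pow]) ?_ ?_ ?_ <;> simp [mul_r0, mul_r1, mul_r2]

@[simp] lemma scalar_one : scalar (1 : Rˣ) = 1 := by
  refine G.ext (by simp) (by simp) ?_ ?_ ?_ <;> simp

lemma scalar_comm (t : Rˣ) (g : G R) : scalar t * g = g * scalar t := by
  refine G.ext (by simp [scM_comm]) (by simp [mul_comm]) ?_ ?_ ?_ <;>
    simp [mul_r0, mul_r1, mul_r2] <;> ring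

lemma scalar_injective [Nontrivial R] : Function.Injective (scalar : Rˣ → G R) := by
  intro t t' h
  have := congrArg G.m11 h
  simpa [Units.ext_iff] using this

/-- base change of group elements -/
def map (φ : R →+* S) : G R →* G S where
  toFun g := ⟨Matrix.GeneralLinearGroup.map φ g.M, Units.map φ g.μ, φ g.r0, φ g.r1, φ g.r2⟩
  map_one' := by refine G.ext (by simp) (by simp) ?_ ?_ ?_ <;> simp
  map_mul' g h := by
    refine G.ext (by simp) (by simp) ?_ ?_ ?_ <;>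
      simp [mul_r0, mul_r1, mul_r2, m11, m12, m21, m22, map_ofNat]

@[simp] lemma map_M (φ : R →+* S) (g : G R) :
    (map φ g).M = Matrix.GeneralLinearGroup.map φ g.M := rfl
@[simp] lemma map_μ (φ : R →+* S) (g : G R) : (map φ g).μ = Units.map φ g.μ := rfl
@[simp] lemma map_r0 (φ : R →+* S) (g : G R) : (map φ g).r0 = φ g.r0 := rfl
@[simp] lemma map_r1 (φ : R →+* S) (g : G R) : (map φ g).r1 = φ g.r1 := rfl
@[simp] lemma map_r2 (φ : R →+* S) (g : G R) : (map φ g).r2 = φ g.r2 := rfl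
@[simp] lemma map_m11 (φ : R →+* S) (g : G R) : (map φ g).m11 = φ g.m11 := by simp [m11]
@[simp] lemma map_m12 (φ : R →+* S) (g : G R) : (map φ g).m12 = φ g.m12 := by simp [m12]
@[simp] lemma map_m21 (φ : R →+* S) (g : G R) : (map φ g).m21 = φ g.m21 := by simp [m21]
@[simp] lemma map_m22 (φ : R →+* S) (g : G R) : (map φ g).m22 = φ g.m22 := by simp [m22]
@[simp] lemma map_det (φ : R →+* S) (g : G R) : (map φ g).det = Units.map φ g.det := by
  ext; simp [det_val]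
@[simp] lemma map_scalar (φ : R →+* S) (t : Rˣ) :
    map φ (scalar t) = scalar (Units.map φ t) := by
  refine G.ext ?_ (by simp) ?_ ?_ ?_
  · ext i j; fin_cases i <;> fin_cases j <;> simp [scM]
  all_goals simp

lemma map_map {T : Type*} [CommRing T] (φ : R →+* S) (ψ : S →+* T) (g : G R) :
    map ψ (map φ g) = map (ψ.comp φ) g := by
  refine G.ext ?_ ?_ rfl rfl rfl
  · ext i j; simp
  · ext; simp

lemma map_injective {φ : R →+* S} (h : Function.Injective φ) : Function.Injective (map φ) := by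
  intro g g' hg
  refine G.ext ?_ ?_ (h (congrArg G.r0 hg)) (h (congrArg G.r1 hg)) (h (congrArg G.r2 hg))
  · ext i j
    apply h
    have := congrArg (fun g : G S => (g.M : Matrix (Fin 2) (Fin 2) S) i j) hg
    simpa using this
  · ext
    apply h
    have := congrArg (fun g : G S => (g.μ : S)) hg
    simpa using this

/-- the map on points: `g.pt` sends the curve of `g • f` to the curve of `f` -/
def pt (g : G R) (Q : Pt R) : Pt R :=
  ⟨Q.x * g.m11 + Q.z * g.m21, Q.x * g.m12 + Q.z * g.m22,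
    g.μ * Q.y + (g.r0 * Q.x ^ 2 + g.r1 * Q.x * Q.z + g.r2 * Q.z ^ 2)⟩

lemma mul_pt (g h : G R) (Q : Pt R) : (g * h).pt Q = h.pt (g.pt Q) := by
  ext <;> simp only [pt, mul_r0, mul_r1, mul_r2, mul_m11, mul_m12, mul_m21, mul_m22, mul_μ,
    Units.val_mul] <;> ring

@[simp] lemma one_pt (Q : Pt R) : (1 : G R).pt Q = Q := by ext <;> simp [pt]

@[simp] lemma inv_pt_pt (g : G R) (Q : Pt R) : g⁻¹.pt (g.pt Q) = Q := by
  rw [← mul_pt, mul_inv_cancel, one_pt]

@[simp] lemma pt_inv_pt (g : G R) (Q : Pt R) : g.pt (g⁻¹.pt Q) = Q := by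
  rw [← mul_pt, inv_mul_cancel, one_pt]

lemma pt_sc (g : G R) (t : R) (Q : Pt R) : g.pt (Q.sc t) = (g.pt Q).sc t := by
  ext <;> simp [pt] <;> ring

lemma scalar_pt (t : Rˣ) (Q : Pt R) : (scalar t).pt Q = Q.sc (t : R) := by
  ext <;> simp [pt, mul_comm]

lemma map_pt (φ : R →+* S) (g : G R) (Q : Pt R) : (map φ g).pt (Q.map φ) = (g.pt Q).map φ := by
  ext <;> simp [pt]

lemma pt_std (g : G R) : g.pt Pt.std = ⟨g.m11, g.m12, g.r0⟩ := by ext <;> simp [pt]

instance : SMul (G R) (Model R) :=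
  ⟨fun g f => ((f.subst g.m11 g.m12 g.m21 g.m22).shift g.r0 g.r1 g.r2).scale ((g.μ⁻¹ : Rˣ) : R)⟩

lemma smul_def (g : G R) (f : Model R) :
    g • f = ((f.subst g.m11 g.m12 g.m21 g.m22).shift g.r0 g.r1 g.r2).scale ((g.μ⁻¹ : Rˣ) : R) :=
  rfl

lemma shift_scale_inv (ν : Rˣ) (r0 r1 r2 : R) (f : Model R) :
    (f.scale ((ν⁻¹ : Rˣ) : R)).shift r0 r1 r2 =
      (f.shift (ν * r0) (ν * r1) (ν * r2)).scale ((ν⁻¹ : Rˣ) : R) := by
  rw [← Model.shift_scale]; simp

instance : MulAction (G R) (Model R) where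
  one_smul f := by simp [smul_def]
  mul_smul g h f := by
    simp only [smul_def, mul_r0, mul_r1, mul_r2, mul_m11, mul_m12, mul_m21, mul_m22, mul_μ,
      Model.subst_scale, shift_scale_inv, Model.scale_scale, Model.subst_shift, Model.shift_shift,
      Model.subst_subst, mul_inv, Units.val_mul]

lemma scale_smul (g : G R) (f : Model R) :
    (g • f).scale (g.μ : R) = (f.subst g.m11 g.m12 g.m21 g.m22).shift g.r0 g.r1 g.r2 := by
  rw [smul_def, Model.scale_scale]; simp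

lemma map_smul (φ : R →+* S) (g : G R) (f : Model R) : (g • f).map φ = map φ g • f.map φ := by
  simp [smul_def, Model.map_scale, Model.map_shift, Model.map_subst]

lemma scalar_smul (t : Rˣ) (f : Model R) : scalar t • f = f := by
  have h : f.subst (t : R) 0 0 t = f.scale ((t ^ 2 : Rˣ) : R) := by
    ext <;> simp [Model.subst, Model.scale] <;> ring
  simp only [smul_def, scalar_m11, scalar_m12, scalar_m21, scalar_m22, scalar_r0, scalar_r1,
    scalar_r2, scalar_μ, Model.shift_zero, h, Model.scale_scale, Units.inv_mul, Model.scale_one]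

lemma q_pt (g : G R) (f : Model R) (x z : R) :
    f.q (x * g.m11 + z * g.m21) (x * g.m12 + z * g.m22) + 2 * (g.r0 * x ^ 2 + g.r1 * x * z
      + g.r2 * z ^ 2) = g.μ * (g • f).q x z := by
  have h : ((g • f).scale (g.μ : R)).q x z = g.μ * (g • f).q x z := by
    simp only [Model.q, Model.scale]; ring
  rw [← h, scale_smul]
  simp only [Model.q, Model.shift, Model.subst]; ring

lemma g_pt (g : G R) (f : Model R) (x z : R) :
    f.g (x * g.m11 + z * g.m21) (x * g.m12 + z * g.m22)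
      - (g.r0 * x ^ 2 + g.r1 * x * z + g.r2 * z ^ 2) ^ 2
      - f.q (x * g.m11 + z * g.m21) (x * g.m12 + z * g.m22)
        * (g.r0 * x ^ 2 + g.r1 * x * z + g.r2 * z ^ 2) = g.μ ^ 2 * (g • f).g x z := by
  have h : ((g • f).scale (g.μ : R)).g x z = g.μ ^ 2 * (g • f).g x z := by
    simp only [Model.g, Model.scale]; ring
  rw [← h, scale_smul]
  simp only [Model.q, Model.g, Model.shift, Model.subst]; ring

lemma F_pt (g : G R) (f : Model R) (Q : Pt R) : f.F (g.pt Q) = g.μ ^ 2 * (g • f).F Q := by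
  have h1 := q_pt g f Q.x Q.z
  have h2 := g_pt g f Q.x Q.z
  simp only [Model.F, pt]
  linear_combination (g.μ * Q.y) * h1 - h2

lemma psi_pt (g : G R) (f : Model R) (Q : Pt R) : f.psi (g.pt Q) = g.μ * (g • f).psi Q := by
  have h1 := q_pt g f Q.x Q.z
  simp only [Model.psi, pt]
  linear_combination h1

lemma inv_pt (g : G R) (f : Model R) (Q : Pt R) : f.inv (g.pt Q) = g.pt ((g • f).inv Q) := by
  have h1 := q_pt g f Q.x Q.z
  ext
  · rfl
  · rfl
  · simp only [Model.inv, pt]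
    linear_combination -h1

lemma Fx_pt (g : G R) (f : Model R) (Q : Pt R) :
    g.μ ^ 2 * (g • f).Fx Q = g.m11 * f.Fx (g.pt Q) + g.m12 * f.Fz (g.pt Q)
      + (2 * g.r0 * Q.x + g.r1 * Q.z) * f.psi (g.pt Q) := by
  have h : ((g • f).scale (g.μ : R)).Fx ⟨Q.x, Q.z, g.μ * Q.y⟩ = g.μ ^ 2 * (g • f).Fx Q := by
    simp only [Model.Fx, Model.scale]; ring
  rw [← h, scale_smul]
  simp only [Model.Fx, Model.Fz, Model.psi, Model.q, pt, Model.shift, Model.subst]; ring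

lemma Fz_pt (g : G R) (f : Model R) (Q : Pt R) :
    g.μ ^ 2 * (g • f).Fz Q = g.m21 * f.Fx (g.pt Q) + g.m22 * f.Fz (g.pt Q)
      + (g.r1 * Q.x + 2 * g.r2 * Q.z) * f.psi (g.pt Q) := by
  have h : ((g • f).scale (g.μ : R)).Fz ⟨Q.x, Q.z, g.μ * Q.y⟩ = g.μ ^ 2 * (g • f).Fz Q := by
    simp only [Model.Fz, Model.scale]; ring
  rw [← h, scale_smul]
  simp only [Model.Fx, Model.Fz, Model.psi, Model.q, pt, Model.shift, Model.subst]; ring

/-- the change of Weierstrass coordinates induced by `g` at `f` -/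
def Gam (g : G R) (f : Model R) : VariableChange R :=
  wdiag g.μ * wsh ((f.subst g.m11 g.m12 g.m21 g.m22).shR g.r0 g.r2) g.r1
      ((f.subst g.m11 g.m12 g.m21 g.m22).shT g.r0 g.r1 g.r2) *
    wsh (f.subR g.m11 g.m12 g.m21 g.m22) (f.subS g.m11 g.m12 g.m21 g.m22)
      (f.subT g.m11 g.m12 g.m21 g.m22) * wdiag g.det⁻¹

lemma jac_smul (g : G R) (f : Model R) : (g • f).jac = g.Gam f • f.jac := by
  rw [smul_def, Model.jac_scale, wsc_unit, inv_inv, Model.jac_shift, Model.jac_subst, ← det_val,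
    wsc_unit, Gam]
  simp only [mul_smul]

lemma Gam_u (g : G R) (f : Model R) : (g.Gam f).u = g.μ * g.det⁻¹ := by
  simp [Gam, wdiag, wsh, VariableChange.mul_def]

lemma Gam_r (g : G R) (f : Model R) : (g.Gam f).r =
    ((f.subst g.m11 g.m12 g.m21 g.m22).shR g.r0 g.r2 + f.subR g.m11 g.m12 g.m21 g.m22)
      * ((g.det⁻¹ : Rˣ) : R) ^ 2 := by
  simp [Gam, wdiag, wsh, VariableChange.mul_def]

lemma Gam_s (g : G R) (f : Model R) : (g.Gam f).s =
    (g.r1 + f.subS g.m11 g.m12 g.m21 g.m22) * ((g.det⁻¹ : Rˣ) : R) := by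
  simp [Gam, wdiag, wsh, VariableChange.mul_def, mul_comm]

lemma Gam_t (g : G R) (f : Model R) : (g.Gam f).t =
    ((f.subst g.m11 g.m12 g.m21 g.m22).shT g.r0 g.r1 g.r2
      + (f.subst g.m11 g.m12 g.m21 g.m22).shR g.r0 g.r2 * f.subS g.m11 g.m12 g.m21 g.m22
      + f.subT g.m11 g.m12 g.m21 g.m22) * ((g.det⁻¹ : Rˣ) : R) ^ 3 := by
  simp [Gam, wdiag, wsh, VariableChange.mul_def]

lemma Gam_one (f : Model R) : (1 : G R).Gam f = 1 := by
  ext <;> simp [Gam_u, Gam_r, Gam_s, Gam_t, Model.shR, Model.subR, Model.subS, Model.shT,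
    Model.subT, VariableChange.one_def]

lemma wdiag_inv_mul_wsh (r s t : R) (u : Rˣ) :
    wdiag u⁻¹ * wsh r s t = wsh (u ^ 2 * r) (u * s) (u ^ 3 * t) * wdiag u⁻¹ := by
  rw [wsh_mul_wdiag]
  congr 2
  · rw [← mul_assoc, ← mul_pow, Units.inv_mul, one_pow, one_mul]
  · rw [← mul_assoc, Units.inv_mul, one_mul]
  · rw [← mul_assoc, ← mul_pow, Units.inv_mul, one_pow, one_mul]

lemma wsh_inv_mul_wdiag (r s t : R) (u : Rˣ) :
    wsh (((u⁻¹ : Rˣ) : R) ^ 2 * r) (((u⁻¹ : Rˣ) : R) * s) (((u⁻¹ : Rˣ) : R) ^ 3 * t) * wdiag u =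
      wdiag u * wsh r s t := by
  have := wdiag_inv_mul_wsh r s t u⁻¹
  rw [inv_inv] at this
  exact this.symm

lemma Gam_mul (g h : G R) (f : Model R) : (g * h).Gam f = g.Gam (h • f) * h.Gam f := by
  have e0 : g.r0 = ((h.μ⁻¹ : Rˣ) : R) * (h.μ * g.r0) := by simp
  have e1 : g.r1 = ((h.μ⁻¹ : Rˣ) : R) * (h.μ * g.r1) := by simp
  have e2 : g.r2 = ((h.μ⁻¹ : Rˣ) : R) * (h.μ * g.r2) := by simp
  have hc : wdiag g.det⁻¹ * wdiag h.μ = wdiag h.μ * wdiag g.det⁻¹ := by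
    rw [wdiag_mul, wdiag_mul, mul_comm]
  simp only [Gam, smul_def, mul_r0, mul_r1, mul_r2, mul_m11, mul_m12, mul_m21, mul_m22, mul_μ,
    det_mul, Model.subst_scale, Model.subR_scale, Model.subS_scale, Model.subT_scale]
  rw [Model.T_shift_shift, Model.T_subst_subst, ← Model.subst_subst, ← Model.subst_shift]
  conv_rhs => rw [e0, e1, e2, Model.shR_scale, Model.shT_scale]
  simp only [mul_assoc]
  rw [← mul_assoc (wdiag g.det⁻¹) (wdiag h.μ), hc, mul_assoc,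
    ← mul_assoc _ (wdiag h.μ), wsh_inv_mul_wdiag, mul_assoc,
    ← mul_assoc _ (wdiag h.μ), wsh_inv_mul_wdiag, mul_assoc,
    ← mul_assoc (wdiag g.det⁻¹), wdiag_inv_mul_wsh, mul_assoc,
    ← mul_assoc (wdiag g.det⁻¹), wdiag_inv_mul_wsh, mul_assoc, wdiag_mul, det_val,
    ← mul_assoc (wdiag g.μ), wdiag_mul, mul_inv]
  congr 2
  simp only [← mul_assoc]
  rw [Model.T_subst_shift]

lemma Gam_map (φ : R →+* S) (g : G R) (f : Model R) :
    (map φ g).Gam (f.map φ) = (g.Gam f).map φ := by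
  ext <;> simp [Gam_u, Gam_r, Gam_s, Gam_t, Model.shR, Model.subR, Model.subS, Model.shT,
    Model.subT, Model.subst, VariableChange.map, map_ofNat]

lemma Gam_scalar (t : Rˣ) (f : Model R) : (scalar t).Gam f = 1 := by
  have : (scalar t).det = t ^ 2 := by ext; simp [det_val, sq]
  ext <;> simp [Gam_u, Gam_r, Gam_s, Gam_t, Model.shR, Model.subR, Model.subS, Model.shT,
    Model.subT, VariableChange.one_def, this]

end G

/-- A model together with a change of coordinates; it lies over `W` if `jac f = γ • W`. -/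
@[ext] structure Obj (R : Type*) [CommRing R] where
  f : Model R
  γ : VariableChange R

namespace Obj

def Over (z : Obj R) (W : WeierstrassCurve R) : Prop := z.f.jac = z.γ • W

def map (φ : R →+* S) (z : Obj R) : Obj S := ⟨z.f.map φ, z.γ.map φ⟩

/-- change of the base curve: if `z` lies over `W` then `z.rmul C` lies over `C⁻¹ • W` -/
def rmul (z : Obj R) (C : VariableChange R) : Obj R := ⟨z.f, z.γ * C⟩

instance : SMul (G R) (Obj R) := ⟨fun g z => ⟨g • z.f, g.Gam z.f * z.γ⟩⟩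

@[simp] lemma smul_f (g : G R) (z : Obj R) : (g • z).f = g • z.f := rfl
@[simp] lemma smul_γ (g : G R) (z : Obj R) : (g • z).γ = g.Gam z.f * z.γ := rfl
@[simp] lemma map_f (φ : R →+* S) (z : Obj R) : (z.map φ).f = z.f.map φ := rfl
@[simp] lemma map_γ (φ : R →+* S) (z : Obj R) : (z.map φ).γ = z.γ.map φ := rfl
@[simp] lemma rmul_f (z : Obj R) (C : VariableChange R) : (z.rmul C).f = z.f := rfl
@[simp] lemma rmul_γ (z : Obj R) (C : VariableChange R) : (z.rmul C).γ = z.γ * C := rfl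

instance : MulAction (G R) (Obj R) where
  one_smul z := by ext1 <;> simp [G.Gam_one]
  mul_smul g h z := by ext1 <;> simp [mul_smul, G.Gam_mul, mul_assoc]

lemma Over.smul {z : Obj R} {W : WeierstrassCurve R} (h : z.Over W) (g : G R) :
    (g • z).Over W := by
  unfold Over at *
  rw [smul_f, smul_γ, G.jac_smul, h, mul_smul]

lemma over_smul_iff {z : Obj R} {W : WeierstrassCurve R} (g : G R) :
    (g • z).Over W ↔ z.Over W :=
  ⟨fun h => by simpa using h.smul g⁻¹, fun h => h.smul g⟩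

lemma Over.map {z : Obj R} {W : WeierstrassCurve R} (h : z.Over W) (φ : R →+* S) :
    (z.map φ).Over (W.map φ) := by
  unfold Over at *
  rw [map_f, map_γ, Model.jac_map, h, map_variableChange]

lemma Over.rmul {z : Obj R} {W : WeierstrassCurve R} {C : VariableChange R}
    (h : z.Over (C • W)) : (z.rmul C).Over W := by
  unfold Over at *
  rw [rmul_f, rmul_γ, h, mul_smul]

lemma vc_map_mul (φ : R →+* S) (C C' : VariableChange R) :
    (C * C').map φ = C.map φ * C'.map φ := (VariableChange.mapHom φ).map_mul C C'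

lemma map_smul (φ : R →+* S) (g : G R) (z : Obj R) : (g • z).map φ = G.map φ g • z.map φ := by
  ext1
  · simp [G.map_smul]
  · simp only [map_γ, smul_γ, map_f, G.Gam_map, vc_map_mul]

lemma map_map {T : Type*} [CommRing T] (φ : R →+* S) (ψ : S →+* T) (z : Obj R) :
    (z.map φ).map ψ = z.map (ψ.comp φ) := by
  ext1
  · rfl
  · simp only [map_γ, VariableChange.map_map]

lemma map_injective {φ : R →+* S} (h : Function.Injective φ) : Function.Injective (Obj.map φ) := by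
  intro z z' hz
  ext1
  · exact Model.map_injective h (congrArg Obj.f hz)
  · exact VariableChange.map_injective h (congrArg Obj.γ hz)

lemma smul_rmul (g : G R) (z : Obj R) (C : VariableChange R) :
    g • z.rmul C = (g • z).rmul C := by
  ext1 <;> simp [mul_assoc]

lemma rmul_rmul (z : Obj R) (C C' : VariableChange R) :
    (z.rmul C).rmul C' = z.rmul (C * C') := by
  ext1 <;> simp [mul_assoc]

@[simp] lemma rmul_one (z : Obj R) : z.rmul 1 = z := by ext1 <;> simp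

lemma map_rmul (φ : R →+* S) (z : Obj R) (C : VariableChange R) :
    (z.rmul C).map φ = (z.map φ).rmul (C.map φ) := by
  ext1
  · rfl
  · simp only [map_γ, rmul_γ, vc_map_mul]

lemma scalar_smul (t : Rˣ) (z : Obj R) : G.scalar t • z = z := by
  ext1 <;> simp [G.scalar_smul, G.Gam_scalar]

end Obj

end SelAvg

/-!
Ternary quadratic forms and the symmetric square.
-/

namespace SelAvg

open Matrix

variable {R S : Type*} [CommRing R] [CommRing S]

/-- the ternary form with coefficient vector `a` -/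
def tern (a : Fin 6 → R) (c : Fin 3 → R) : R :=
  a 0 * c 0 ^ 2 + a 1 * c 1 ^ 2 + a 2 * c 2 ^ 2 + a 3 * c 0 * c 1 + a 4 * c 0 * c 2
    + a 5 * c 1 * c 2

/-- the half discriminant -/
def hd (a : Fin 6 → R) : R :=
  4 * a 0 * a 1 * a 2 + a 3 * a 4 * a 5 - a 0 * a 5 ^ 2 - a 1 * a 4 ^ 2 - a 2 * a 3 ^ 2

/-- the polar form -/
def tpol (a : Fin 6 → R) (c c' : Fin 3 → R) : R := tern a (c + c') - tern a c - tern a c'

/-- the coefficients of `c ↦ tern a (c ᵥ* T)` -/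
def tcomp (a : Fin 6 → R) (T : Matrix (Fin 3) (Fin 3) R) : Fin 6 → R :=
  ![tern a (T 0), tern a (T 1), tern a (T 2), tpol a (T 0) (T 1), tpol a (T 0) (T 2),
    tpol a (T 1) (T 2)]

/-- the form `c₀ c₂ - c₁^2` -/
def tstd : Fin 6 → R := ![0, -1, 0, 0, 1, 0]

/-- the form has a nontrivial zero -/
def Isotropic (a : Fin 6 → R) : Prop := ∃ c : Fin 3 → R, c ≠ 0 ∧ tern a c = 0

lemma tern_tstd (c : Fin 3 → R) : tern tstd c = c 0 * c 2 - c 1 ^ 2 := by
  simp [tern, tstd]; ring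

lemma hd_tstd : hd (tstd : Fin 6 → R) = 1 := by
  simp [hd, tstd]

lemma tern_tcomp (a : Fin 6 → R) (T : Matrix (Fin 3) (Fin 3) R) (c : Fin 3 → R) :
    tern (tcomp a T) c = tern a (c ᵥ* T) := by
  simp only [tern, tcomp, tpol, vecMul, dotProduct, Fin.sum_univ_three, Pi.add_apply, cons_val]
  ring

lemma hd_tcomp (a : Fin 6 → R) (T : Matrix (Fin 3) (Fin 3) R) :
    hd (tcomp a T) = T.det ^ 2 * hd a := by
  simp only [hd, tern, tcomp, tpol, det_fin_three, Pi.add_apply, cons_val]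
  ring

lemma tern_ext {a b : Fin 6 → R} (h : ∀ c, tern a c = tern b c) : a = b := by
  have h0 := h ![1, 0, 0]
  have h1 := h ![0, 1, 0]
  have h2 := h ![0, 0, 1]
  have h3 := h ![1, 1, 0]
  have h4 := h ![1, 0, 1]
  have h5 := h ![0, 1, 1]
  simp only [tern, cons_val] at h0 h1 h2 h3 h4 h5
  funext i
  fin_cases i
  · show a 0 = b 0
    linear_combination h0
  · show a 1 = b 1
    linear_combination h1
  · show a 2 = b 2
    linear_combination h2
  · show a 3 = b 3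
    linear_combination h3 - h0 - h1
  · show a 4 = b 4
    linear_combination h4 - h0 - h2
  · show a 5 = b 5
    linear_combination h5 - h1 - h2

lemma tcomp_mul (a : Fin 6 → R) (T U : Matrix (Fin 3) (Fin 3) R) :
    tcomp a (T * U) = tcomp (tcomp a U) T := by
  refine tern_ext fun c => ?_
  rw [tern_tcomp, tern_tcomp, tern_tcomp, vecMul_vecMul]

lemma tcomp_one (a : Fin 6 → R) : tcomp a 1 = a := by
  refine tern_ext fun c => ?_
  rw [tern_tcomp, vecMul_one]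

lemma tern_map (φ : R →+* S) (a : Fin 6 → R) (c : Fin 3 → R) :
    tern (fun i => φ (a i)) (fun i => φ (c i)) = φ (tern a c) := by
  simp [tern]

lemma hd_map (φ : R →+* S) (a : Fin 6 → R) : hd (fun i => φ (a i)) = φ (hd a) := by
  simp [hd, map_ofNat]

lemma tcomp_map (φ : R →+* S) (a : Fin 6 → R) (T : Matrix (Fin 3) (Fin 3) R) :
    tcomp (fun i => φ (a i)) (T.map φ) = fun i => φ (tcomp a T i) := by
  funext i
  fin_cases i <;> simp [tcomp, tpol, tern]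

lemma tcomp_diagonal (a : Fin 6 → R) (u : Fin 3 → R) :
    tcomp a (diagonal u) = ![a 0 * u 0 ^ 2, a 1 * u 1 ^ 2, a 2 * u 2 ^ 2, a 3 * u 0 * u 1,
      a 4 * u 0 * u 2, a 5 * u 1 * u 2] := by
  refine tern_ext fun c => ?_
  rw [tern_tcomp]
  simp only [tern, vecMul_diagonal, cons_val]
  ring

variable {L : Type*} [Field L]

lemma isotropic_tcomp (a : Fin 6 → L) {T : Matrix (Fin 3) (Fin 3) L} (hT : T.det ≠ 0) :
    Isotropic (tcomp a T) ↔ Isotropic a := by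
  have hU : IsUnit T.det := hT.isUnit
  constructor
  · rintro ⟨c, hc, h⟩
    refine ⟨c ᵥ* T, fun h0 => hc ?_, by rwa [tern_tcomp] at h⟩
    have := congrArg (· ᵥ* T⁻¹) h0
    simpa only [vecMul_vecMul, mul_nonsing_inv T hU, vecMul_one, zero_vecMul] using this
  · rintro ⟨c, hc, h⟩
    have e : c ᵥ* T⁻¹ ᵥ* T = c := by rw [vecMul_vecMul, nonsing_inv_mul T hU, vecMul_one]
    refine ⟨c ᵥ* T⁻¹, fun h0 => hc ?_, by rw [tern_tcomp, e, h]⟩
    rw [← e, h0, zero_vecMul]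

lemma tern_partner {a : Fin 6 → L} (h : hd a ≠ 0) {c : Fin 3 → L} (hc : c ≠ 0)
    (hc0 : tern a c = 0) : ∃ e, tern a e = 0 ∧ tpol a c e = 1 := by
  have h1 : ∃ e, tpol a c e ≠ 0 := by
    by_contra hn
    push Not at hn
    have key : ∀ u v : Fin 3 → L, (of ![c, u, v]).det = 0 := fun u v => by
      have := hd_tcomp a (of ![c, u, v])
      have e : tcomp a (of ![c, u, v]) = ![0, tern a u, tern a v, 0, 0, tpol a u v] := by
        show ![tern a c, tern a u, tern a v, tpol a c u, tpol a c v, tpol a u v] = _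
        rw [hc0, hn, hn]
      rw [e] at this
      have h2 : (of ![c, u, v]).det ^ 2 * hd a = 0 := by
        rw [← this]; simp [hd]
      exact pow_eq_zero_iff two_ne_zero |>.1 ((mul_eq_zero.1 h2).resolve_right h)
    have k0 := key ![0, 1, 0] ![0, 0, 1]
    have k1 := key ![0, 0, 1] ![1, 0, 0]
    have k2 := key ![1, 0, 0] ![0, 1, 0]
    simp [det_fin_three] at k0 k1 k2
    refine hc (funext fun i => ?_)
    fin_cases i
    exacts [k0, k1, k2]
  obtain ⟨e, he⟩ := h1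
  set p := tpol a c e with hp
  refine ⟨p⁻¹ • e - (p⁻¹ ^ 2 * tern a e) • c, ?_, ?_⟩
  · have : ∀ s k : L, tern a (s • e - k • c) = s ^ 2 * tern a e
        - s * k * tpol a c e + k ^ 2 * tern a c := fun s k => by
      simp only [tpol, tern, Pi.add_apply, Pi.sub_apply, Pi.smul_apply, smul_eq_mul]
      ring
    rw [this, hc0, ← hp]
    field_simp
    ring
  · have : tpol a c (p⁻¹ • e - (p⁻¹ ^ 2 * tern a e) • c) = p⁻¹ * tpol a c e
        - 2 * (p⁻¹ ^ 2 * tern a e) * tern a c := by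
      generalize p⁻¹ ^ 2 * tern a e = k
      simp only [tpol, tern, Pi.add_apply, Pi.sub_apply, Pi.smul_apply, smul_eq_mul]
      ring
    rw [this, hc0, ← hp, inv_mul_cancel₀ he]
    ring

lemma tern_third {a : Fin 6 → R} {c e : Fin 3 → R} (hc : tern a c = 0)
    (h : tpol a c e = 1) : ∃ f, tpol a c f = 0 ∧ tpol a f e = 0 ∧ (of ![c, f, e]).det = 1 := by
  obtain ⟨u0, hu0⟩ : ∃ x, x = 2 * a 0 * c 0 + a 3 * c 1 + a 4 * c 2 := ⟨_, rfl⟩
  obtain ⟨u1, hu1⟩ : ∃ x, x = a 3 * c 0 + 2 * a 1 * c 1 + a 5 * c 2 := ⟨_, rfl⟩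
  obtain ⟨u2, hu2⟩ : ∃ x, x = a 4 * c 0 + a 5 * c 1 + 2 * a 2 * c 2 := ⟨_, rfl⟩
  obtain ⟨v0, hv0⟩ : ∃ x, x = 2 * a 0 * e 0 + a 3 * e 1 + a 4 * e 2 := ⟨_, rfl⟩
  obtain ⟨v1, hv1⟩ : ∃ x, x = a 3 * e 0 + 2 * a 1 * e 1 + a 5 * e 2 := ⟨_, rfl⟩
  obtain ⟨v2, hv2⟩ : ∃ x, x = a 4 * e 0 + a 5 * e 1 + 2 * a 2 * e 2 := ⟨_, rfl⟩
  have p1 : ∀ f : Fin 3 → R, tpol a c f = u0 * f 0 + u1 * f 1 + u2 * f 2 := fun f => by
    simp only [tpol, tern, Pi.add_apply, hu0, hu1, hu2]; ring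
  have p2 : ∀ f : Fin 3 → R, tpol a f e = v0 * f 0 + v1 * f 1 + v2 * f 2 := fun f => by
    simp only [tpol, tern, Pi.add_apply, hv0, hv1, hv2]; ring
  have q1 : u0 * c 0 + u1 * c 1 + u2 * c 2 = 0 := by
    simp only [tern] at hc
    rw [hu0, hu1, hu2]; linear_combination 2 * hc
  have q2 : u0 * e 0 + u1 * e 1 + u2 * e 2 = 1 := by rw [← p1, h]
  have q3 : v0 * c 0 + v1 * c 1 + v2 * c 2 = 1 := by rw [← p2, h]
  refine ⟨![u1 * v2 - u2 * v1, u2 * v0 - u0 * v2, u0 * v1 - u1 * v0], ?_, ?_, ?_⟩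
  · rw [p1]; simp only [cons_val]; ring
  · rw [p2]; simp only [cons_val]; ring
  · simp only [det_fin_three, of_apply, cons_val]
    linear_combination (v0 * c 0 + v1 * c 1 + v2 * c 2) * q2 + q3
      - (v0 * e 0 + v1 * e 1 + v2 * e 2) * q1

/-- Normal form of an isotropic form with square half discriminant.  First move the isotropic
vector to `e₀` (so `a 0 = 0`); `hd ≠ 0` gives `(a 3, a 4) ≠ 0`; swap so that `a 4 ≠ 0`, make
`a 4 = 1`, `a 2 = 0`, then `a 3 = a 5 = 0`; now `hd = -a 1` is a nonzero square; rescale `e₁`. -/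
theorem exists_tcomp_eq_tstd {a : Fin 6 → L} {δ : L} (hδ : δ ≠ 0) (h : hd a = δ ^ 2)
    (hi : Isotropic a) : ∃ T : Matrix (Fin 3) (Fin 3) L, T.det ≠ 0 ∧ tcomp a T = tstd := by
  obtain ⟨c, hc, hc0⟩ := hi
  obtain ⟨e, he0, he⟩ := tern_partner (by rw [h]; exact pow_ne_zero 2 hδ) hc hc0
  obtain ⟨f, hf1, hf2, hf3⟩ := tern_third hc0 he
  have e1 : tcomp a (of ![c, f, e]) = ![0, tern a f, 0, 0, 1, 0] := by
    show ![tern a c, tern a f, tern a e, tpol a c f, tpol a c e, tpol a f e] = _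
    rw [hc0, he0, he, hf1, hf2]
  have e2 : tern a f = -δ ^ 2 := by
    have := hd_tcomp a (of ![c, f, e])
    rw [e1, hf3, h] at this
    simp only [hd, cons_val] at this
    linear_combination -this
  refine ⟨diagonal ![1, δ⁻¹, 1] * of ![c, f, e], ?_, ?_⟩
  · rw [det_mul, hf3, det_diagonal, Fin.prod_univ_three]
    simpa using hδ
  · rw [tcomp_mul, e1, tcomp_diagonal, e2, tstd]
    simp only [cons_val]
    congr 2 <;> first | (field_simp; done) | simp

/-- Chevalley-Warning (`char_dvd_card_solutions`) -/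
theorem isotropic_of_finite [Finite L] (a : Fin 6 → L) : Isotropic a := by
  classical
  cases nonempty_fintype L
  obtain ⟨p, hp⟩ := CharP.exists L
  have hpp := CharP.char_is_prime L p
  let f : MvPolynomial (Fin 3) L := MvPolynomial.C (a 0) * (MvPolynomial.X 0 * MvPolynomial.X 0)
    + MvPolynomial.C (a 1) * (MvPolynomial.X 1 * MvPolynomial.X 1)
    + MvPolynomial.C (a 2) * (MvPolynomial.X 2 * MvPolynomial.X 2)
    + MvPolynomial.C (a 3) * (MvPolynomial.X 0 * MvPolynomial.X 1)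
    + MvPolynomial.C (a 4) * (MvPolynomial.X 0 * MvPolynomial.X 2)
    + MvPolynomial.C (a 5) * (MvPolynomial.X 1 * MvPolynomial.X 2)
  have hm : ∀ (r : L) (i j : Fin 3), (MvPolynomial.C r * (MvPolynomial.X i * MvPolynomial.X j) :
      MvPolynomial (Fin 3) L).IsHomogeneous 2 := fun r i j =>
    ((MvPolynomial.isHomogeneous_X L i).mul (MvPolynomial.isHomogeneous_X L j)).C_mul r
  have hf : f.IsHomogeneous 2 :=
    (((((hm _ _ _).add (hm _ _ _)).add (hm _ _ _)).add (hm _ _ _)).add (hm _ _ _)).add (hm _ _ _)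
  have hev : ∀ c, MvPolynomial.eval c f = tern a c := fun c => by
    simp only [f, tern, map_add, map_mul, MvPolynomial.eval_C, MvPolynomial.eval_X]; ring
  have hd := char_dvd_card_solutions p (f := f) (by simpa using Nat.lt_succ_of_le hf.totalDegree_le)
  by_contra hn
  have h1 : Fintype.card {x : Fin 3 → L // MvPolynomial.eval x f = 0} = 1 := by
    refine Fintype.card_eq_one_iff.2 ⟨⟨0, by rw [hev]; simp [tern]⟩, fun y => Subtype.ext ?_⟩
    by_contra hy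
    exact hn ⟨y.1, hy, by rw [← hev]; exact y.2⟩
  rw [h1] at hd
  exact hpp.not_dvd_one hd

/-- the symmetric square divided by the determinant; `(x^2, x z, z^2) ᵥ* rho M` is
`(x'^2, x' z', z'^2) / det M` for `(x', z') = (x, z) ᵥ* M` -/
def rho (M : GL (Fin 2) R) : Matrix (Fin 3) (Fin 3) R :=
  (((GeneralLinearGroup.det M)⁻¹ : Rˣ) : R) •
    !![M.1 0 0 ^ 2, M.1 0 0 * M.1 0 1, M.1 0 1 ^ 2;
      2 * M.1 0 0 * M.1 1 0, M.1 0 0 * M.1 1 1 + M.1 0 1 * M.1 1 0, 2 * M.1 0 1 * M.1 1 1;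
      M.1 1 0 ^ 2, M.1 1 0 * M.1 1 1, M.1 1 1 ^ 2]

lemma rho_mul (M N : GL (Fin 2) R) : rho (M * N) = rho M * rho N := by
  unfold rho
  rw [map_mul, mul_inv, Units.val_mul, smul_mul_smul_comm]
  congr 1
  ext i j
  fin_cases i <;> fin_cases j <;>
    simp [Matrix.mul_apply, Fin.sum_univ_two, Fin.sum_univ_three] <;> ring

lemma tern_inv_det (M : GL (Fin 2) R) : (((GeneralLinearGroup.det M)⁻¹ : Rˣ) : R) *
    (M.1 0 0 * M.1 1 1 - M.1 0 1 * M.1 1 0) = 1 := by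
  rw [← det_fin_two]
  exact Units.inv_mul (GeneralLinearGroup.det M)

lemma rho_scM (t : Rˣ) : rho (G.scM t) = 1 := by
  have hd := tern_inv_det (G.scM t)
  unfold rho
  generalize (((GeneralLinearGroup.det (G.scM t))⁻¹ : Rˣ) : R) = k at hd ⊢
  simp [G.scM] at hd
  ext i j
  fin_cases i <;> fin_cases j <;> simp [G.scM] <;> linear_combination hd

lemma rho_det (M : GL (Fin 2) R) : (rho M).det = 1 := by
  have hd := tern_inv_det M
  unfold rho
  generalize (((GeneralLinearGroup.det M)⁻¹ : Rˣ) : R) = k at hd ⊢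
  rw [det_smul, det_fin_three]
  simp only [of_apply, cons_val, Fintype.card_fin]
  have : (k * (M.1 0 0 * M.1 1 1 - M.1 0 1 * M.1 1 0)) ^ 3 = 1 := by rw [hd, one_pow]
  linear_combination this

lemma rho_map (φ : R →+* S) (M : GL (Fin 2) R) :
    rho (GeneralLinearGroup.map φ M) = (rho M).map φ := by
  have hd : (((GeneralLinearGroup.det (GeneralLinearGroup.map φ M))⁻¹ : Sˣ) : S) =
      φ (((GeneralLinearGroup.det M)⁻¹ : Rˣ) : R) := by
    rw [GeneralLinearGroup.map_det, ← map_inv]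
    rfl
  unfold rho
  rw [hd]
  ext i j
  fin_cases i <;> fin_cases j <;> simp [map_ofNat]

lemma tcomp_tstd_rho (M : GL (Fin 2) R) : tcomp tstd (rho M) = tstd := by
  have hd := tern_inv_det M
  refine tern_ext fun c => ?_
  rw [tern_tcomp, tern_tstd, tern_tstd]
  unfold rho
  generalize (((GeneralLinearGroup.det M)⁻¹ : Rˣ) : R) = k at hd ⊢
  simp only [vecMul, dotProduct, Fin.sum_univ_three, Matrix.smul_apply, of_apply, cons_val,
    smul_eq_mul]
  have : (k * (M.1 0 0 * M.1 1 1 - M.1 0 1 * M.1 1 0)) ^ 2 = 1 := by rw [hd, one_pow]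
  linear_combination (c 0 * c 2 - c 1 ^ 2) * this

lemma vecMul_rho (M : GL (Fin 2) R) (x z : R) :
    ![x ^ 2, x * z, z ^ 2] ᵥ* rho M = (((GeneralLinearGroup.det M)⁻¹ : Rˣ) : R) •
      ![(x * M.1 0 0 + z * M.1 1 0) ^ 2, (x * M.1 0 0 + z * M.1 1 0) * (x * M.1 0 1 + z * M.1 1 1),
        (x * M.1 0 1 + z * M.1 1 1) ^ 2] := by
  unfold rho
  generalize (((GeneralLinearGroup.det M)⁻¹ : Rˣ) : R) = k
  funext i
  fin_cases i <;> simp [vecMul, dotProduct, Fin.sum_univ_three] <;> ring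

/-- zeros of the standard form -/
lemma exists_param {w : Fin 3 → L} (hw : w ≠ 0) (h : tern tstd w = 0) :
    ∃ t x z : L, t ≠ 0 ∧ (x ≠ 0 ∨ z ≠ 0) ∧ w = t • ![x ^ 2, x * z, z ^ 2] := by
  rw [tern_tstd] at h
  by_cases h0 : w 0 = 0
  · have h1 : w 1 = 0 := by
      rw [h0, zero_mul, zero_sub, neg_eq_zero] at h
      exact pow_eq_zero_iff two_ne_zero |>.1 h
    have h2 : w 2 ≠ 0 := fun h2 => hw (funext fun i => by
      fin_cases i
      exacts [h0, h1, h2])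
    refine ⟨w 2, 0, 1, h2, Or.inr one_ne_zero, funext fun i => ?_⟩
    fin_cases i <;> simp [h0, h1]
  · refine ⟨(w 0)⁻¹, w 0, w 1, inv_ne_zero h0, Or.inl h0, funext fun i => ?_⟩
    fin_cases i
    · show w 0 = (w 0)⁻¹ * w 0 ^ 2
      field_simp
    · show w 1 = (w 0)⁻¹ * (w 0 * w 1)
      field_simp
    · show w 2 = (w 0)⁻¹ * w 1 ^ 2
      field_simp
      linear_combination h

end SelAvg

/-!
The Weierstrass equation and its derivatives.
-/

namespace SelAvg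

open WeierstrassCurve

section Alg

variable {R : Type*} [CommRing R]

/-- derivative of the Weierstrass equation in `x` -/
def dX (W : WeierstrassCurve R) (x y : R) : R := W.a₁ * y - (3 * x ^ 2 + 2 * W.a₂ * x + W.a₄)

/-- derivative of the Weierstrass equation in `y` -/
def dY (W : WeierstrassCurve R) (x y : R) : R := 2 * y + W.a₁ * x + W.a₃

/-- the Weierstrass equation -/
def wF (W : WeierstrassCurve R) (x y : R) : R :=
  y ^ 2 + W.a₁ * x * y + W.a₃ * y - (x ^ 3 + W.a₂ * x ^ 2 + W.a₄ * x + W.a₆)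

lemma equation_iff_wF (W : WeierstrassCurve R) (x y : R) :
    W.toAffine.Equation x y ↔ wF W x y = 0 := by
  rw [Affine.equation_iff', wF]

lemma wsh_a₃ (W : WeierstrassCurve R) (x y : R) : (wsh x 0 y • W).a₃ = dY W x y := by
  simp [wsh, dY, variableChange_def]
  ring

lemma wsh_a₄ (W : WeierstrassCurve R) (x y : R) : (wsh x 0 y • W).a₄ = -dX W x y := by
  simp [wsh, dX, variableChange_def]
  ring

lemma wsh_a₆ (W : WeierstrassCurve R) (x y : R) : (wsh x 0 y • W).a₆ = -wF W x y := by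
  simp [wsh, wF, variableChange_def]
  ring

lemma walg_sq_dvd (W : WeierstrassCurve R) {c : R} (h3 : c ∣ W.a₃) (h4 : c ∣ W.a₄)
    (h6 : c ^ 2 ∣ W.a₆) : c ^ 2 ∣ W.Δ := by
  obtain ⟨u, hu⟩ := h3
  obtain ⟨v, hv⟩ := h4
  obtain ⟨w, hw⟩ := h6
  refine ⟨-W.b₂ ^ 2 * (W.a₁ ^ 2 * w + 4 * W.a₂ * w - W.a₁ * u * v + W.a₂ * u ^ 2 - v ^ 2)
    - 8 * c * (2 * v + W.a₁ * u) ^ 3 - 27 * c ^ 2 * (u ^ 2 + 4 * w) ^ 2
    + 9 * W.b₂ * c * (2 * v + W.a₁ * u) * (u ^ 2 + 4 * w), ?_⟩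
  rw [Δ, b₄, b₆, b₈, hu, hv, hw]
  ring

/-- `Δ` is a quadratic form in `a₃, a₄` plus a multiple of `a₆`; translate `(x, y)` to the origin -/
lemma sq_dvd_Delta (W : WeierstrassCurve R) {x y c : R} (h1 : c ∣ dX W x y) (h2 : c ∣ dY W x y)
    (h3 : c ^ 2 ∣ wF W x y) : c ^ 2 ∣ W.Δ := by
  have h : (wsh x 0 y • W).Δ = W.Δ := by
    rw [variableChange_Δ]
    simp [wsh]
  rw [← h]
  refine walg_sq_dvd _ ?_ ?_ ?_
  · rwa [wsh_a₃]
  · rw [wsh_a₄]
    exact h1.neg_right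
  · rw [wsh_a₆]
    exact h3.neg_right

end Alg

end SelAvg
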