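import Pool.Agent.H38Sel.AlgB

/-!
Normal forms of pointed objects, uniqueness of isomorphisms, bijectivity of `D W z Q`.
-/

namespace SelAvg

open WeierstrassCurve
open scoped Classical

variable {L L' : Type*} [Field L] [Field L']

section NF

variable {R : Type*} [CommRing R]

/-- the object of the trivial class -/
def zO (W : WeierstrassCurve R) : Obj R := ⟨⟨0, W.a₁, W.a₃, 0, 1, W.a₂, W.a₄, W.a₆⟩, 1⟩

/-- the translation moving `-(x, y)` to the origin -/
def trA (W : WeierstrassCurve R) (x y : R) : VariableChange R :=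
  wsh x 0 (-y - W.a₁ * x - W.a₃)

/-- the object attached to the affine point `(x, y)` -/
def zA (W : WeierstrassCurve R) (x y : R) : Obj R :=
  ⟨⟨1, (trA W x y • W).a₁, -(trA W x y • W).a₂, 0, 0, 0, (trA W x y • W).a₃,
    -(trA W x y • W).a₄⟩, trA W x y⟩

lemma zO_over (W : WeierstrassCurve R) : (zO W).Over W := by
  unfold Obj.Over zO
  rw [one_smul]
  ext <;> simp [Model.jac]

/-- the curve equation gives `(trA W x y • W).a₆ = 0` -/
lemma zA_over {W : WeierstrassCurve R} {x y : R} (h : W.toAffine.Equation x y) :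
    (zA W x y).Over W := by
  unfold Obj.Over zA
  rw [Affine.equation_iff] at h
  ext
  · simp [Model.jac]
  · simp [Model.jac]
  · simp [Model.jac]
  · simp [Model.jac]
  · simp only [Model.jac, trA, wsh, variableChange_a₆, inv_one, Units.val_one]
    linear_combination h

lemma zO_map {S : Type*} [CommRing S] (φ : R →+* S) (W : WeierstrassCurve R) :
    (zO W).map φ = zO (W.map φ) := by
  ext <;> simp [zO, VariableChange.map, VariableChange.one_def]

lemma zA_map {S : Type*} [CommRing S] (φ : R →+* S) (W : WeierstrassCurve R) (x y : R) :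
    (zA W x y).map φ = zA (W.map φ) (φ x) (φ y) := by
  have h : (trA W x y).map φ = trA (W.map φ) (φ x) (φ y) := by
    ext <;> simp [trA, wsh, VariableChange.map]
  have h2 : trA (W.map φ) (φ x) (φ y) • W.map φ = (trA W x y • W).map φ := by
    rw [← h, map_variableChange]
  ext1
  · simp only [zA, Obj.map_f, h2]
    ext <;> simp
  · simp only [zA, Obj.map_γ, h]

end NF

/-- the normal form attached to a raw point -/
def zP (W : WeierstrassCurve L) : Option (L × L) → Obj L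
  | none => zO W
  | some p => zA W p.1 p.2

lemma zP_a (W : WeierstrassCurve L) (p : Option (L × L)) : (zP W p).f.a = 0 := by
  cases p <;> rfl

lemma zP_over {W : WeierstrassCurve L} {p : Option (L × L)} (hp : Valid W p) :
    (zP W p).Over W := by
  cases p with
  | none => exact zO_over W
  | some p => exact zA_over hp

lemma zP_map (φ : L →+* L') (W : WeierstrassCurve L) (p : Option (L × L)) :
    (zP W p).map φ = zP (W.map φ) (rawMap φ p) := by
  cases p with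
  | none => exact zO_map φ W
  | some p => exact zA_map φ W p.1 p.2

variable {W : WeierstrassCurve L} {z z' : Obj L}

/-- `toRaw_piP_std`; for `zA` one has `piStd = (0, -d)`. -/
lemma piP_zP (hW : W.Δ ≠ 0) (P : W.toAffine.Point) : piP W (zP W (toRaw P)) Pt.std = P := by
  apply toRaw_injective
  rw [toRaw_piP_std hW (zP_over (valid_toRaw P)) (zP_a _ _)]
  generalize toRaw P = p
  cases p with
  | none => simp [zP, zO, Model.piStd]
  | some p =>
    obtain ⟨x, y⟩ := p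
    simp only [zP, zA, Model.piStd, Model.PX, Model.PY, one_ne_zero, if_false, vcRaw_some, trA,
      wsh, variableChange_a₃, inv_one, Units.val_one, Option.some.injEq, Prod.mk.injEq]
    constructor <;> ring

/-- a lower triangular group element fixing the standard point -/
noncomputable def normal0_g (p δ : L) (hδ : δ ≠ 0) (μ : Lˣ) (r1 r2 : L) : G L :=
  ⟨Matrix.GeneralLinearGroup.mkOfDetNeZero !![1, 0; p, δ]
    (by simpa [Matrix.det_fin_two] using hδ), μ, 0, r1, r2⟩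

lemma normal0_m11 (p δ : L) (hδ : δ ≠ 0) (μ : Lˣ) (r1 r2 : L) :
    (normal0_g p δ hδ μ r1 r2).m11 = 1 := rfl
lemma normal0_m12 (p δ : L) (hδ : δ ≠ 0) (μ : Lˣ) (r1 r2 : L) :
    (normal0_g p δ hδ μ r1 r2).m12 = 0 := rfl
lemma normal0_m21 (p δ : L) (hδ : δ ≠ 0) (μ : Lˣ) (r1 r2 : L) :
    (normal0_g p δ hδ μ r1 r2).m21 = p := rfl
lemma normal0_m22 (p δ : L) (hδ : δ ≠ 0) (μ : Lˣ) (r1 r2 : L) :
    (normal0_g p δ hδ μ r1 r2).m22 = δ := rfl
lemma normal0_μ (p δ : L) (hδ : δ ≠ 0) (μ : Lˣ) (r1 r2 : L) :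
    (normal0_g p δ hδ μ r1 r2).μ = μ := rfl
lemma normal0_r0 (p δ : L) (hδ : δ ≠ 0) (μ : Lˣ) (r1 r2 : L) :
    (normal0_g p δ hδ μ r1 r2).r0 = 0 := rfl
lemma normal0_r1 (p δ : L) (hδ : δ ≠ 0) (μ : Lˣ) (r1 r2 : L) :
    (normal0_g p δ hδ μ r1 r2).r1 = r1 := rfl
lemma normal0_r2 (p δ : L) (hδ : δ ≠ 0) (μ : Lˣ) (r1 r2 : L) :
    (normal0_g p δ hδ μ r1 r2).r2 = r2 := rfl

lemma normal0_det (p δ : L) (hδ : δ ≠ 0) (μ : Lˣ) (r1 r2 : L) :
    ((normal0_g p δ hδ μ r1 r2).det : L) = δ := by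
  rw [G.det_val, normal0_m11, normal0_m12, normal0_m22]; ring

lemma normal0_pt (p δ : L) (hδ : δ ≠ 0) (μ : Lˣ) (r1 r2 : L) :
    (normal0_g p δ hδ μ r1 r2).pt Pt.std = Pt.std := by
  rw [G.pt_std]; rfl

/-- recognising `zO` -/
lemma normal0_O (hz : z.Over W) (ha : z.f.a = 0) (hl : z.f.l = 0) (hb : z.f.b = 1)
    (hγ : z.γ = 1) : z = zO W := by
  obtain ⟨⟨l, m, n, a, b, c, d, e⟩, γ⟩ := z
  simp only at ha hl hb hγ
  subst ha hl hb hγ
  unfold Obj.Over at hz
  rw [one_smul] at hz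
  subst hz
  ext <;> simp [zO, Model.jac]

/-- recognising `zA` -/
lemma normal0_A (hz : z.Over W) (ha : z.f.a = 0) (hl : z.f.l = 1) (hb : z.f.b = 0)
    (hc : z.f.c = 0) (hu : z.γ.u = 1) (hs : z.γ.s = 0) :
    z = zP W (vcRaw z.γ z.f.piStd) := by
  obtain ⟨⟨l, m, n, a, b, c, d, e⟩, ⟨u, r, s, t⟩⟩ := z
  simp only at ha hl hb hc hu hs
  subst ha hl hb hc hu hs
  unfold Obj.Over at hz
  have h1 := congrArg WeierstrassCurve.a₁ hz
  have h2 := congrArg WeierstrassCurve.a₂ hz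
  have h3 := congrArg WeierstrassCurve.a₃ hz
  have h4 := congrArg WeierstrassCurve.a₄ hz
  have h3' := h3
  simp only [Model.jac] at h1 h2 h3 h4
  simp only [Model.jac, variableChange_a₃, inv_one, Units.val_one] at h3'
  have hp : vcRaw (⟨1, r, 0, t⟩ : VariableChange L)
      (Model.piStd (⟨1, m, n, 0, 0, 0, d, e⟩ : Model L)) = some (r, t - d) := by
    simp only [Model.piStd, Model.PX, Model.PY, one_ne_zero, if_false, vcRaw_some,
      Units.val_one, Option.some.injEq, Prod.mk.injEq]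
    constructor <;> ring
  have ht : trA W r (t - d) = ⟨1, r, 0, t⟩ := by
    simp only [trA, wsh, VariableChange.mk.injEq, true_and]
    linear_combination h3'
  simp only [hp, zP, zA, ht, ← h1, ← h2, ← h3, ← h4]
  ext <;> simp

lemma normal0_stepO (ha : z.f.a = 0) (hl : z.f.l = 0) (hb : z.f.b ≠ 0) :
    ∃ g : G L, g.pt Pt.std = Pt.std ∧ (g • z).f.a = 0 ∧ (g • z).f.l = 0 ∧ (g • z).f.b = 1 ∧
      (g • z).γ = 1 := by
  obtain ⟨⟨l, m, n, a, b, c, d, e⟩, ⟨u, r, s, t⟩⟩ := z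
  simp only at ha hl hb
  subst ha hl
  have hu : (u : L) ≠ 0 := u.ne_zero
  have hδ : (u : L) ^ 2 * b ≠ 0 := mul_ne_zero (pow_ne_zero 2 hu) hb
  refine ⟨normal0_g (-r) (u ^ 2 * b) hδ (u * Units.mk0 b hb) (-s * u * b) (u * b * (r * s - t)),
    normal0_pt .., ?_, ?_, ?_, ?_⟩
  · simp [G.smul_def, Model.subst, Model.shift, Model.scale, normal0_m11, normal0_m12,
      normal0_r0]
  · simp [G.smul_def, Model.subst, Model.shift, Model.scale, normal0_m11, normal0_m12,
      normal0_r0]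
  · simp only [Obj.smul_f, G.smul_def, Model.subst, Model.shift, Model.scale, normal0_m11,
      normal0_m12, normal0_m21, normal0_m22, normal0_r0, normal0_r1, normal0_μ,
      Units.val_inv_eq_inv_val, Units.val_mul, Units.val_mk0]
    field_simp
    ring
  · ext
    all_goals simp only [Obj.smul_γ, VariableChange.mul_def, VariableChange.one_def, G.Gam_u,
      G.Gam_r, G.Gam_s, G.Gam_t, Model.subst, Model.shR, Model.shT, Model.subR, Model.subS,
      Model.subT, normal0_m11, normal0_m12, normal0_m21, normal0_m22, normal0_r0, normal0_r1,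
      normal0_r2, normal0_μ, normal0_det, Units.val_inv_eq_inv_val, Units.val_mul, Units.val_mk0,
      Units.val_one]
    all_goals field_simp
    all_goals ring

lemma normal0_stepA (ha : z.f.a = 0) (hl : z.f.l ≠ 0) :
    ∃ g : G L, g.pt Pt.std = Pt.std ∧ (g • z).f.a = 0 ∧ (g • z).f.l = 1 ∧ (g • z).f.b = 0 ∧
      (g • z).f.c = 0 ∧ (g • z).γ.u = 1 ∧ (g • z).γ.s = 0 := by
  obtain ⟨⟨l, m, n, a, b, c, d, e⟩, ⟨u, r, s, t⟩⟩ := z
  simp only at ha hl
  subst ha
  have hu : (u : L) ≠ 0 := u.ne_zero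
  have hδ : l * (u : L) ≠ 0 := mul_ne_zero hl hu
  refine ⟨normal0_g (-s - b * u / l) (l * u) hδ (Units.mk0 l hl) (b * u)
    ((3 * b * (-s - b * u / l) * (l * u) + c * (l * u) ^ 2
      - (2 * l * (-s - b * u / l) + m * (l * u)) * (b * u) - (b * u) ^ 2) / l),
    normal0_pt .., ?_, ?_, ?_, ?_, ?_, ?_⟩
  · simp [G.smul_def, Model.subst, Model.shift, Model.scale, normal0_m11, normal0_m12,
      normal0_r0]
  · simp only [Obj.smul_f, G.smul_def, Model.subst, Model.shift, Model.scale, normal0_m11,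
      normal0_m12, normal0_r0, normal0_μ, Units.val_inv_eq_inv_val, Units.val_mk0]
    field_simp
    ring
  · simp only [Obj.smul_f, G.smul_def, Model.subst, Model.shift, Model.scale, normal0_m11,
      normal0_m12, normal0_m21, normal0_m22, normal0_r0, normal0_r1, normal0_μ,
      Units.val_inv_eq_inv_val, Units.val_mk0]
    ring
  · simp only [Obj.smul_f, G.smul_def, Model.subst, Model.shift, Model.scale, normal0_m11,
      normal0_m12, normal0_m21, normal0_m22, normal0_r0, normal0_r1, normal0_r2, normal0_μ,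
      Units.val_inv_eq_inv_val, Units.val_mk0]
    field_simp
    ring
  · ext
    simp only [Obj.smul_γ, VariableChange.mul_def, G.Gam_u, normal0_μ, normal0_det,
      Units.val_inv_eq_inv_val, Units.val_mul, Units.val_mk0, Units.val_one]
    field_simp
  · simp only [Obj.smul_γ, VariableChange.mul_def, G.Gam_s, Model.subS, normal0_m11,
      normal0_m12, normal0_m21, normal0_m22, normal0_r1, normal0_det, Units.val_inv_eq_inv_val]
    field_simp
    ring

/-- Normal form.  If `l ≠ 0`: use `r1`, `r2` to make `b = c = 0`, `μ` to make `l = 1`, then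
`m22` to make `u = 1` and `m21` to make `s = 0` (redo the shifts afterwards, or solve for all
parameters at once); then `γ = wsh r 0 t` and `piStd = (0, -d)` force `r = x`, `t = -y - a₁x - a₃`
and `jac f = γ • W` determines `m, n, d, e`.  If `l = 0` then `b ≠ 0` (`Model.l_or_b`): make
`b = 1`, `u = 1`, then use `m21`, `r1`, `r2` to make `r = s = t = 0`.
It is convenient to do this in several steps, each step using `piP_smul`, and to multiply
the group elements (those with `m12 = 0`, `r0 = 0` are closed under products). -/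
theorem exists_normal (hW : W.Δ ≠ 0) (hz : z.Over W) (ha : z.f.a = 0) :
    ∃ g : G L, (g.pt Pt.std).Eqv Pt.std ∧ g • z = zP W (toRaw (piP W z Pt.std)) := by
  have key : ∀ g : G L, g.pt Pt.std = Pt.std → (g • z).f.a = 0 →
      toRaw (piP W z Pt.std) = vcRaw (g • z).γ (g • z).f.piStd := by
    intro g hg ha'
    rw [← toRaw_piP_std hW (hz.smul g) ha', piP_smul hW hz g (Model.on_std.2 ha'), hg]
  by_cases hl : z.f.l = 0
  · have hb : z.f.b ≠ 0 := (Model.l_or_b (hz.jac_Delta hW) ha).resolve_left (not_not.2 hl)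
    obtain ⟨g, hg, h1, h2, h3, h4⟩ := normal0_stepO ha hl hb
    refine ⟨g, by rw [hg]; exact Pt.Eqv.refl _, ?_⟩
    rw [key g hg h1, Model.piStd, if_pos h2, vcRaw_none]
    exact normal0_O (hz.smul g) h1 h2 h3 h4
  · obtain ⟨g, hg, h1, h2, h3, h4, h5, h6⟩ := normal0_stepA ha hl
    refine ⟨g, by rw [hg]; exact Pt.Eqv.refl _, ?_⟩
    rw [key g hg h1]
    exact normal0_A (hz.smul g) h1 h2 h3 h4 h5 h6

end SelAvg

/-!
Isomorphisms of pointed objects; bijectivity of the difference map.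
-/

namespace SelAvg

open WeierstrassCurve
open scoped Classical

variable {L L' : Type*} [Field L] [Field L']
variable {W : WeierstrassCurve L} {z z' : Obj L}

lemma normal_on_std {Q : Pt L} (hQ : z.f.On Q) : (mover Q • z).f.On Pt.std := by
  rw [Obj.smul_f, ← Model.on_pt, mover_pt hQ.prim]
  exact hQ

/-- move `Q` to the standard point and `z` to its normal form -/
lemma normal_reduce (hW : W.Δ ≠ 0) (hz : z.Over W) {Q : Pt L} (hQ : z.f.On Q) :
    ∃ k : G L, (k.pt Pt.std).Eqv Q ∧ k • z = zP W (toRaw (piP W z Q)) := by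
  have h1 := normal_on_std hQ
  obtain ⟨g, hg1, hg2⟩ := exists_normal hW (hz.smul (mover Q)) (Model.on_std.1 h1)
  refine ⟨g * mover Q, ?_, ?_⟩
  · rw [G.mul_pt]
    have := hg1.pt (mover Q)
    rwa [mover_pt hQ.prim] at this
  · rw [mul_smul, hg2, piP_smul hW hz _ h1, mover_pt hQ.prim]

lemma normal_scalar_std {f : Model L} (hΔ : f.jac.Δ ≠ 0) (ha : f.a = 0) {g : G L}
    (hg : g • f = f) (hG : g.Gam f = 1) (hQ : (g.pt Pt.std).Eqv Pt.std) :
    ∃ t : Lˣ, g = G.scalar t := by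
  obtain ⟨t, ht, hq⟩ := hQ
  rw [G.pt_std] at hq
  have hx := congrArg Pt.x hq
  have hz := congrArg Pt.z hq
  have hy := congrArg Pt.y hq
  simp only [Pt.std_x, Pt.std_z, Pt.std_y, Pt.sc_x, Pt.sc_z, Pt.sc_y] at hx hz hy
  have h11 : g.m11 ≠ 0 := by
    intro h
    rw [h, mul_zero] at hx
    exact one_ne_zero hx
  have h12 : g.m12 = 0 := (mul_eq_zero.1 hz.symm).resolve_left ht
  have h0 : g.r0 = 0 := (mul_eq_zero.1 hy.symm).resolve_left (pow_ne_zero 2 ht)
  have hdet : (g.det : L) = g.m11 * g.m22 := by rw [G.det_val, h12]; ring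
  have h22 : g.m22 ≠ 0 := by
    intro h
    rw [h, mul_zero] at hdet
    exact g.det.ne_zero hdet
  have hdi : ((g.det⁻¹ : Lˣ) : L) ≠ 0 := Units.ne_zero _
  have hu : (g.μ : L) = g.m11 * g.m22 := by
    have h := G.Gam_u g f
    rw [hG] at h
    have h' : g.μ = g.det := by
      have h2 : (1 : Lˣ) = g.μ * g.det⁻¹ := h
      exact mul_inv_eq_one.1 h2.symm
    rw [h', hdet]
  have hr : -f.l * g.m11 ^ 2 * g.r2 + f.b * g.m11 ^ 2 * g.m21 * g.m22 = 0 := by
    have h := G.Gam_r g f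
    rw [hG] at h
    have h2 := (mul_eq_zero.1 (show _ = (0 : L) from h.symm)).resolve_right (pow_ne_zero 2 hdi)
    simp only [Model.shR, Model.subR, Model.subst, h12, h0, ha] at h2
    linear_combination h2
  have hs : g.r1 + f.l * g.m11 * g.m21 = 0 := by
    have h := G.Gam_s g f
    rw [hG] at h
    have h2 := (mul_eq_zero.1 (show _ = (0 : L) from h.symm)).resolve_right hdi
    simp only [Model.subS, h12] at h2
    linear_combination h2
  have hsc := G.scale_smul g f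
  rw [hg] at hsc
  have hl : g.μ * f.l = f.l * g.m11 ^ 2 := by
    have h := congrArg Model.l hsc
    simp only [Model.scale, Model.shift, Model.subst, h12, h0] at h
    linear_combination h
  have hb : (g.μ : L) ^ 2 * f.b = -f.l * g.m11 ^ 2 * g.r1 + f.b * g.m11 ^ 3 * g.m22 := by
    have h := congrArg Model.b hsc
    simp only [Model.scale, Model.shift, Model.subst, h12, h0, ha] at h
    linear_combination h
  have key : g.m22 = g.m11 ∧ g.m21 = 0 ∧ g.r1 = 0 ∧ g.r2 = 0 := by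
    by_cases hl0 : f.l = 0
    · have hb0 : f.b ≠ 0 := (Model.l_or_b hΔ ha).resolve_left (not_not.2 hl0)
      have e1 : g.r1 = 0 := by rw [hl0] at hs; linear_combination hs
      have e2 : g.m21 = 0 := by
        have : f.b * g.m11 ^ 2 * g.m22 * g.m21 = 0 := by rw [hl0] at hr; linear_combination hr
        exact (mul_eq_zero.1 this).resolve_left
          (mul_ne_zero (mul_ne_zero hb0 (pow_ne_zero 2 h11)) h22)
      have e3 : g.m22 = g.m11 := by
        have : f.b * g.m11 ^ 2 * g.m22 * (g.m22 - g.m11) = 0 := by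
          rw [hl0, hu] at hb; linear_combination hb
        exact sub_eq_zero.1 ((mul_eq_zero.1 this).resolve_left
          (mul_ne_zero (mul_ne_zero hb0 (pow_ne_zero 2 h11)) h22))
      have e4 : g.r2 = 0 := by
        have h := G.Gam_t g f
        rw [hG] at h
        have h2 := (mul_eq_zero.1 (show _ = (0 : L) from h.symm)).resolve_right
          (pow_ne_zero 3 hdi)
        simp only [Model.shR, Model.shT, Model.subT, Model.subS, Model.subst, h12, h0, ha, hl0,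
          e1, e2] at h2
        have : f.b * g.m11 ^ 3 * g.m22 * g.r2 = 0 := by linear_combination h2
        exact (mul_eq_zero.1 this).resolve_left
          (mul_ne_zero (mul_ne_zero hb0 (pow_ne_zero 3 h11)) h22)
      exact ⟨e3, e2, e1, e4⟩
    · have e3 : g.m22 = g.m11 := by
        have : f.l * g.m11 * (g.m22 - g.m11) = 0 := by rw [hu] at hl; linear_combination hl
        exact sub_eq_zero.1 ((mul_eq_zero.1 this).resolve_left (mul_ne_zero hl0 h11))
      have e2 : g.m21 = 0 := by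
        have : f.l ^ 2 * g.m11 ^ 3 * g.m21 = 0 := by
          rw [hu, e3] at hb
          linear_combination -hb + f.l * g.m11 ^ 2 * hs
        exact (mul_eq_zero.1 this).resolve_left
          (mul_ne_zero (pow_ne_zero 2 hl0) (pow_ne_zero 3 h11))
      have e1 : g.r1 = 0 := by rw [e2] at hs; linear_combination hs
      have e4 : g.r2 = 0 := by
        have : f.l * g.m11 ^ 2 * g.r2 = 0 := by rw [e2] at hr; linear_combination -hr
        exact (mul_eq_zero.1 this).resolve_left (mul_ne_zero hl0 (pow_ne_zero 2 h11))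
      exact ⟨e3, e2, e1, e4⟩
  obtain ⟨e3, e2, e1, e4⟩ := key
  refine ⟨Units.mk0 g.m11 h11, G.ext ?_ ?_ h0 e1 e4⟩
  · have k11 := G.scalar_m11 (Units.mk0 g.m11 h11)
    have k12 := G.scalar_m12 (Units.mk0 g.m11 h11)
    have k21 := G.scalar_m21 (Units.mk0 g.m11 h11)
    have k22 := G.scalar_m22 (Units.mk0 g.m11 h11)
    ext i j
    fin_cases i <;> fin_cases j
    · exact k11.symm
    · exact h12.trans k12.symm
    · exact e2.trans k21.symm
    · exact e3.trans k22.symm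
  · ext
    rw [hu, e3]
    simp [sq]

lemma normal_rep {Q : Pt L} (h : Q.Prim) :
    (∃ x y, Q.Eqv ⟨x, 1, y⟩) ∨ ∃ y, Q.Eqv ⟨1, 0, y⟩ := by
  by_cases hz : Q.z = 0
  · have hx : Q.x ≠ 0 := h.resolve_right (not_not.2 hz)
    refine Or.inr ⟨Q.x⁻¹ ^ 2 * Q.y, Q.x⁻¹, inv_ne_zero hx, ?_⟩
    ext <;> simp [hz, hx]
  · refine Or.inl ⟨Q.z⁻¹ * Q.x, Q.z⁻¹ ^ 2 * Q.y, Q.z⁻¹, inv_ne_zero hz, ?_⟩
    ext <;> simp [hz]

/-- the two shapes of normal forms -/
def normal_NF (f : Model L) : Prop :=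
  f.a = 0 ∧ ((f.l = 0 ∧ f.b = 1) ∨ (f.l = 1 ∧ f.b = 0 ∧ f.c = 0))

lemma normal_NF_zP (W : WeierstrassCurve L) (p : Option (L × L)) : normal_NF (zP W p).f := by
  cases p
  · exact ⟨rfl, Or.inl ⟨rfl, rfl⟩⟩
  · exact ⟨rfl, Or.inr ⟨rfl, rfl, rfl⟩⟩

lemma normal_diffO {f : Model L} (hl : f.l = 0) (hb : f.b = 1) (x y : L) :
    f.stdDiff ⟨x, 1, y⟩ = some (x, y) := by
  simp [Model.stdDiff, Model.NX, Model.NY, hl, hb]

lemma normal_diffA {f : Model L} (hl : f.l = 1) (hb : f.b = 0) (hc : f.c = 0) (x y : L) :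
    f.stdDiff ⟨x, 1, y⟩ = some (y + f.q x 1, x * (y + f.q x 1)) := by
  simp [Model.stdDiff, Model.NX, Model.NY, hl, hb, hc]

lemma normal_diffA_inf {f : Model L} (hl : f.l = 1) (hb : f.b = 0) (hc : f.c = 0) :
    f.stdDiff ⟨1, 0, -1⟩ = some (0, -f.d) := by
  simp [Model.stdDiff, Model.piStd, Model.PX, Model.PY, hl, hb, hc]

lemma normal_diff_std (f : Model L) : f.stdDiff ⟨1, 0, 0⟩ = none := by
  simp [Model.stdDiff]

lemma normal_d_or_e {f : Model L} (hΔ : f.jac.Δ ≠ 0) (ha : f.a = 0) (hb : f.b = 0)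
    (hc : f.c = 0) (hd : f.d = 0) (he : f.e = 0) : False := by
  apply hΔ
  simp [WeierstrassCurve.Δ, WeierstrassCurve.b₂, WeierstrassCurve.b₄, WeierstrassCurve.b₆,
    WeierstrassCurve.b₈, Model.jac, ha, hb, hc, hd, he]

lemma normal_inf_cases {f : Model L} (hf : normal_NF f) {y : L} (h : f.On ⟨1, 0, y⟩) :
    y = 0 ∨ (y = -1 ∧ f.l = 1 ∧ f.b = 0 ∧ f.c = 0) := by
  obtain ⟨ha, hf⟩ := hf
  have h1 := h.eq
  simp only [Model.F, Model.q, Model.g, ha] at h1
  rcases hf with ⟨hl, hb⟩ | ⟨hl, hb, hc⟩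
  · left
    have : y ^ 2 = 0 := by rw [hl] at h1; linear_combination h1
    exact pow_eq_zero_iff (two_ne_zero) |>.1 this
  · have : y * (y + 1) = 0 := by rw [hl] at h1; linear_combination h1
    rcases mul_eq_zero.1 this with h2 | h2
    · exact Or.inl h2
    · exact Or.inr ⟨by linear_combination h2, hl, hb, hc⟩

lemma normal_d_ne {f : Model L} (hΔ : f.jac.Δ ≠ 0) (ha : f.a = 0) (hb : f.b = 0) (hc : f.c = 0)
    {x y : L} (h : f.On ⟨x, 1, y⟩) (hX : y + f.q x 1 = 0) : f.d ≠ 0 ∧ f.d * x + f.e = 0 := by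
  have h1 := h.eq
  simp only [Model.F, Model.g, ha, hb, hc] at h1
  have h2 : f.d * x + f.e = 0 := by linear_combination -h1 + y * hX
  refine ⟨fun hd => normal_d_or_e hΔ ha hb hc hd ?_, h2⟩
  rw [hd] at h2
  linear_combination h2

lemma normal_inj_aff {f : Model L} (hΔ : f.jac.Δ ≠ 0) (hf : normal_NF f) {x y x' y' : L}
    (h : f.On ⟨x, 1, y⟩) (h' : f.On ⟨x', 1, y'⟩)
    (e : f.stdDiff ⟨x, 1, y⟩ = f.stdDiff ⟨x', 1, y'⟩) : x = x' ∧ y = y' := by
  obtain ⟨ha, ⟨hl, hb⟩ | ⟨hl, hb, hc⟩⟩ := hf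
  · rw [normal_diffO hl hb, normal_diffO hl hb] at e
    simpa using e
  · rw [normal_diffA hl hb hc, normal_diffA hl hb hc] at e
    simp only [Option.some.injEq, Prod.mk.injEq] at e
    obtain ⟨e1, e2⟩ := e
    have hx : x = x' := by
      by_cases hX : y + f.q x 1 = 0
      · obtain ⟨hd, h1⟩ := normal_d_ne hΔ ha hb hc h hX
        obtain ⟨-, h2⟩ := normal_d_ne hΔ ha hb hc h' (e1 ▸ hX)
        exact mul_left_cancel₀ hd (by linear_combination h1 - h2)
      · rw [← e1] at e2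
        exact mul_right_cancel₀ hX e2
    subst hx
    exact ⟨rfl, add_right_cancel e1⟩

lemma normal_inj_mix {f : Model L} (hΔ : f.jac.Δ ≠ 0) (hf : normal_NF f) {x y y' : L}
    (h : f.On ⟨x, 1, y⟩) (h' : f.On ⟨1, 0, y'⟩)
    (e : f.stdDiff ⟨x, 1, y⟩ = f.stdDiff ⟨1, 0, y'⟩) : False := by
  rcases normal_inf_cases hf h' with rfl | ⟨rfl, hl, hb, hc⟩
  · rw [normal_diff_std] at e
    simp [Model.stdDiff] at e
  · rw [normal_diffA hl hb hc, normal_diffA_inf hl hb hc] at e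
    simp only [Option.some.injEq, Prod.mk.injEq] at e
    obtain ⟨e1, e2⟩ := e
    apply (normal_d_ne hΔ hf.1 hb hc h e1).1
    rw [e1] at e2
    linear_combination e2

lemma normal_inj_inf {f : Model L} (hf : normal_NF f) {y y' : L}
    (h : f.On ⟨1, 0, y⟩) (h' : f.On ⟨1, 0, y'⟩)
    (e : f.stdDiff ⟨1, 0, y⟩ = f.stdDiff ⟨1, 0, y'⟩) : y = y' := by
  rcases normal_inf_cases hf h with rfl | ⟨rfl, hl, hb, hc⟩ <;>
    rcases normal_inf_cases hf h' with rfl | ⟨rfl, hl', hb', hc'⟩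
  · rfl
  · rw [normal_diff_std, normal_diffA_inf hl' hb' hc'] at e
    simp at e
  · rw [normal_diff_std, normal_diffA_inf hl hb hc] at e
    simp at e
  · rfl

lemma normal_inj {f : Model L} (hΔ : f.jac.Δ ≠ 0) (hf : normal_NF f) {Q Q' : Pt L}
    (h : f.On Q) (h' : f.On Q') (e : f.stdDiff Q = f.stdDiff Q') : Q.Eqv Q' := by
  rcases normal_rep h.prim with ⟨x, y, e1⟩ | ⟨y, e1⟩ <;>
    rcases normal_rep h'.prim with ⟨x', y', e2⟩ | ⟨y', e2⟩ <;>
    rw [Model.stdDiff_eqv f e1, Model.stdDiff_eqv f e2] at e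
  · obtain ⟨rfl, rfl⟩ := normal_inj_aff hΔ hf (h.eqv e1) (h'.eqv e2) e
    exact e1.trans e2.symm
  · exact (normal_inj_mix hΔ hf (h.eqv e1) (h'.eqv e2) e).elim
  · exact (normal_inj_mix hΔ hf (h'.eqv e2) (h.eqv e1) e.symm).elim
  · obtain rfl := normal_inj_inf hf (h.eqv e1) (h'.eqv e2) e
    exact e1.trans e2.symm

lemma normal_surj {f : Model L} (hf : normal_NF f) {p : Option (L × L)} (hp : Valid f.jac p) :
    ∃ Q, f.On Q ∧ f.stdDiff Q = p := by
  obtain ⟨ha, hf⟩ := hf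
  rcases p with _ | ⟨X, Y⟩
  · exact ⟨Pt.std, Model.on_std.2 ha, normal_diff_std f⟩
  rw [valid_some, Affine.equation_iff] at hp
  rcases hf with ⟨hl, hb⟩ | ⟨hl, hb, hc⟩
  · refine ⟨⟨X, 1, Y⟩, ⟨Or.inr one_ne_zero, ?_⟩, normal_diffO hl hb X Y⟩
    simp only [Model.jac, ha, hl, hb] at hp
    simp only [Model.F, Model.q, Model.g, ha, hl, hb]
    linear_combination hp
  · simp only [Model.jac, ha, hl, hb, hc] at hp
    by_cases hX : X = 0
    · by_cases hY : Y = -f.d
      · refine ⟨⟨1, 0, -1⟩, ⟨Or.inl one_ne_zero, ?_⟩, ?_⟩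
        · simp [Model.F, Model.q, Model.g, ha, hl]
        · rw [normal_diffA_inf hl hb hc, hX, hY]
      · have h1 : Y * (Y + f.d) = 0 := by rw [hX] at hp; linear_combination hp
        have hY0 : Y = 0 :=
          (mul_eq_zero.1 h1).resolve_right (fun h => hY (by linear_combination h))
        have hd : f.d ≠ 0 := fun h => hY (by rw [h, hY0, neg_zero])
        refine ⟨⟨-f.e / f.d, 1, -f.q (-f.e / f.d) 1⟩, ⟨Or.inr one_ne_zero, ?_⟩, ?_⟩
        · have h2 : f.d * (-f.e / f.d) = -f.e := mul_div_cancel₀ _ hd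
          simp only [Model.F, Model.g, ha, hb, hc]
          linear_combination -h2
        · rw [normal_diffA hl hb hc, hX, hY0]
          simp
    · refine ⟨⟨Y / X, 1, X - f.q (Y / X) 1⟩, ⟨Or.inr one_ne_zero, ?_⟩, ?_⟩
      · obtain ⟨x, rfl⟩ : ∃ x, Y = x * X := ⟨Y / X, (div_mul_cancel₀ _ hX).symm⟩
        rw [mul_div_cancel_right₀ _ hX]
        apply mul_left_cancel₀ hX
        simp only [Model.F, Model.q, Model.g, ha, hl, hb, hc]
        linear_combination -hp
      · rw [normal_diffA hl hb hc]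
        simp [hX]

/-- pointed objects with the same image under the covering map are isomorphic -/
theorem exists_iso (hW : W.Δ ≠ 0) (hz : z.Over W) (hz' : z'.Over W) {Q Q' : Pt L}
    (hQ : z.f.On Q) (hQ' : z'.f.On Q') (h : piP W z Q = piP W z' Q') :
    ∃ g : G L, g • z' = z ∧ (g.pt Q).Eqv Q' := by
  obtain ⟨k, hk1, hk2⟩ := normal_reduce hW hz hQ
  obtain ⟨k', hk1', hk2'⟩ := normal_reduce hW hz' hQ'
  refine ⟨k⁻¹ * k', ?_, ?_⟩
  · rw [mul_smul, hk2', ← h, ← hk2, inv_smul_smul]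
  · rw [G.mul_pt]
    have h1 := (hk1.pt k⁻¹).symm
    rw [G.inv_pt_pt] at h1
    exact (h1.pt k').trans hk1'

/-- An automorphism fixing a point is a scalar.  Conjugate by `mover Q`, divide by the scalar
`m11`; then `Gam = 1` gives `μ = m22`, `l m21 + r1 = 0`, `b m21 m22 - l r2 = 0`, and the `t`
equation; compare also the coefficients `l` and `b` of `g • f = f`. -/
theorem eq_scalar_of_fix (hW : W.Δ ≠ 0) (hz : z.Over W) {Q : Pt L} (hQ : z.f.On Q) {g : G L}
    (hg : g • z = z) (hgQ : (g.pt Q).Eqv Q) : ∃ t : Lˣ, g = G.scalar t := by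
  have h1 := normal_on_std hQ
  have hz1 := hz.smul (mover Q)
  have hg1 : (mover Q * g * (mover Q)⁻¹) • (mover Q • z) = mover Q • z := by
    rw [mul_smul, inv_smul_smul, mul_smul, hg]
  have hpt : ((mover Q * g * (mover Q)⁻¹).pt Pt.std).Eqv Pt.std := by
    rw [G.mul_pt, G.mul_pt, mover_pt hQ.prim]
    have h2 := hgQ.pt (mover Q)⁻¹
    have h3 : (mover Q)⁻¹.pt Q = Pt.std := by
      have := G.inv_pt_pt (mover Q) Pt.std
      rwa [mover_pt hQ.prim] at this
    rwa [h3] at h2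
  have hG : (mover Q * g * (mover Q)⁻¹).Gam (mover Q • z).f = 1 := by
    have h2 := congrArg Obj.γ hg1
    rw [Obj.smul_γ] at h2
    exact mul_eq_right.1 h2
  obtain ⟨t, ht⟩ := normal_scalar_std (hz1.jac_Delta hW) (Model.on_std.1 h1)
    (congrArg Obj.f hg1) hG hpt
  refine ⟨t, ?_⟩
  have h4 : mover Q * g = mover Q * G.scalar t := by
    rw [← G.scalar_comm, ← ht, inv_mul_cancel_right]
  exact mul_left_cancel h4

theorem iso_unique (hW : W.Δ ≠ 0) (hz : z.Over W) {Q : Pt L} {g g' : G L}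
    (hQ : (g • z).f.On Q) (hg : g • z = g' • z) (hgQ : (g.pt Q).Eqv (g'.pt Q)) :
    ∃ t : Lˣ, g' = G.scalar t * g := by
  have h1 : (g' * g⁻¹) • (g • z) = g • z := by rw [mul_smul, inv_smul_smul, hg]
  have h2 : ((g' * g⁻¹).pt Q).Eqv Q := by
    rw [G.mul_pt]
    have := hgQ.symm.pt g⁻¹
    rwa [G.inv_pt_pt] at this
  obtain ⟨t, ht⟩ := eq_scalar_of_fix hW (hz.smul g) hQ h1 h2
  exact ⟨t, by rw [← ht, inv_mul_cancel_right]⟩

/-- Injectivity.  Reduce to the normal forms with `mover`, `exists_normal`, `D_smul`.  For `zO`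
the map is `(x, 1, y) ↦ (x, y)`.  For `zA` (`l = 1`, `a = b = c = 0`) it is
`(x, 1, y) ↦ (X, x X)` with `X = y + q(x, 1)`; if `X = 0` then `d x + e = 0`, and `d = e = 0`
is excluded by `Δ ≠ 0`; the conjugate of the standard point goes to `(0, -d)`. -/
theorem D_injective (hW : W.Δ ≠ 0) (hz : z.Over W) {Q Q' Q'' : Pt L} (hQ : z.f.On Q)
    (hQ' : z.f.On Q') (hQ'' : z.f.On Q'') (h : D W z Q Q' = D W z Q Q'') : Q'.Eqv Q'' := by
  obtain ⟨k, hk1, hk2⟩ := normal_reduce hW hz hQ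
  have h1 := congrArg toRaw h
  rw [toRaw_D hW hz hQ hQ' k hk1, toRaw_D hW hz hQ hQ'' k hk1] at h1
  have hNF : normal_NF (k • z).f := by rw [hk2]; exact normal_NF_zP W _
  have hon : ∀ R : Pt L, z.f.On R → (k • z).f.On (k⁻¹.pt R) := by
    intro R hR
    rw [Obj.smul_f, ← Model.on_pt, G.pt_inv_pt]
    exact hR
  have h2 := (normal_inj ((hz.smul k).jac_Delta hW) hNF (hon _ hQ') (hon _ hQ'')
    (vcRaw_injective _ h1)).pt k
  rwa [G.pt_inv_pt, G.pt_inv_pt] at h2

/-- Surjectivity.  For `zA`: a point `(X, Y)` of `jac f` with `X ≠ 0` comes from `x = Y / X`,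
`y = X - q(x, 1)`; `(0, -d)` comes from the conjugate of the standard point; `(0, 0)` with
`d ≠ 0` comes from `x = -e / d`, `y = -q(x, 1)`. -/
theorem D_surjective (hW : W.Δ ≠ 0) (hz : z.Over W) {Q : Pt L} (hQ : z.f.On Q)
    (P : W.toAffine.Point) : ∃ Q', z.f.On Q' ∧ D W z Q Q' = P := by
  obtain ⟨k, hk1, hk2⟩ := normal_reduce hW hz hQ
  have hNF : normal_NF (k • z).f := by rw [hk2]; exact normal_NF_zP W _
  have h1 : vcRaw (k • z).γ (vcRaw (k • z).γ⁻¹ (toRaw P)) = toRaw P := by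
    rw [← vcRaw_mul, inv_mul_cancel, vcRaw_one]
  have h2 : Valid (k • z).f.jac (vcRaw (k • z).γ⁻¹ (toRaw P)) := by
    rw [show (k • z).f.jac = (k • z).γ • W from hz.smul k, ← valid_vcRaw, h1]
    exact valid_toRaw P
  obtain ⟨R, hR1, hR2⟩ := normal_surj hNF h2
  have hR : z.f.On (k.pt R) := (Model.on_pt k z.f R).2 hR1
  refine ⟨k.pt R, hR, toRaw_injective ?_⟩
  rw [toRaw_D hW hz hQ hR k hk1, G.inv_pt_pt, hR2, h1]

end SelAvg

/-!
Additivity of the difference map.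
-/

namespace SelAvg

open WeierstrassCurve Polynomial
open scoped Classical

variable {L L' : Type*} [Field L] [Field L']

/-- the quartic `q(x, 1)^2 + 4 g(x, 1)`, the discriminant of the equation in `y` -/
noncomputable def Model.hpoly {R : Type*} [CommRing R] (f : Model R) : R[X] :=
  (C f.l * X ^ 2 + C f.m * X + C f.n) ^ 2
    + 4 * (C f.a * X ^ 4 + C f.b * X ^ 3 + C f.c * X ^ 2 + C f.d * X + C f.e)

lemma Model.eval_hpoly {R : Type*} [CommRing R] (f : Model R) (x : R) :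
    f.hpoly.eval x = f.q x 1 ^ 2 + 4 * f.g x 1 := by
  simp [Model.hpoly, Model.q, Model.g]

lemma Model.psi_sq {R : Type*} [CommRing R] (f : Model R) (Q : Pt R) :
    f.psi Q ^ 2 = f.q Q.x Q.z ^ 2 + 4 * f.g Q.x Q.z + 4 * f.F Q := by
  simp only [Model.psi, Model.F]; ring

lemma add0_hpoly_eq {R : Type*} [CommRing R] (f : Model R) :
    f.hpoly = C (f.l ^ 2 + 4 * f.a) * X ^ 4 + C (2 * f.l * f.m + 4 * f.b) * X ^ 3
      + C (f.m ^ 2 + 2 * f.l * f.n + 4 * f.c) * X ^ 2 + C (2 * f.m * f.n + 4 * f.d) * X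
      + C (f.n ^ 2 + 4 * f.e) := by
  simp only [Model.hpoly, map_add, map_mul, map_pow, map_ofNat]; ring

/-- If `2 = 0` then `hpoly = q^2`, so `l = m = n = 0` and `Δ = 0` (all of `b₂, b₄, b₆` vanish).
If `2 ≠ 0`, shift by `r = -(l, m, n) / 2` (`Model.jac_shift`): the shifted model is zero. -/
lemma Model.hpoly_ne_zero {f : Model L} (hΔ : f.jac.Δ ≠ 0) : f.hpoly ≠ 0 := by
  intro h
  rw [add0_hpoly_eq] at h
  have h4 : f.l ^ 2 + 4 * f.a = 0 := by
    simpa [coeff_X, coeff_C, coeff_X_pow, -map_add, -map_mul, -map_pow] using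
      congrArg (fun p => coeff p 4) h
  have h3 : 2 * f.l * f.m + 4 * f.b = 0 := by
    simpa [coeff_X, coeff_C, coeff_X_pow, -map_add, -map_mul, -map_pow] using
      congrArg (fun p => coeff p 3) h
  have h2 : f.m ^ 2 + 2 * f.l * f.n + 4 * f.c = 0 := by
    simpa [coeff_X, coeff_C, coeff_X_pow, -map_add, -map_mul, -map_pow] using
      congrArg (fun p => coeff p 2) h
  have h1 : 2 * f.m * f.n + 4 * f.d = 0 := by
    simpa [coeff_X, coeff_C, coeff_X_pow, -map_add, -map_mul, -map_pow] using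
      congrArg (fun p => coeff p 1) h
  have h0 : f.n ^ 2 + 4 * f.e = 0 := by
    simpa [coeff_X, coeff_C, coeff_X_pow, -map_add, -map_mul, -map_pow] using
      congrArg (fun p => coeff p 0) h
  apply hΔ
  by_cases h2' : (2 : L) = 0
  · have h4' : (4 : L) = 0 := by linear_combination 2 * h2'
    have hl : f.l = 0 := pow_eq_zero_iff (two_ne_zero) |>.1 (by linear_combination h4 - f.a * h4')
    have hn : f.n = 0 := pow_eq_zero_iff (two_ne_zero) |>.1 (by linear_combination h0 - f.e * h4')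
    have hm : f.m = 0 := pow_eq_zero_iff (two_ne_zero) |>.1
      (by linear_combination h2 - f.c * h4' - f.l * f.n * h2')
    have b2 : f.jac.b₂ = 0 := by
      simp only [b₂, Model.jac, hl, hm, hn, h4']; ring
    have b4 : f.jac.b₄ = 0 := by
      simp only [b₄, Model.jac, hl, hm, hn, h2']; ring
    have b6 : f.jac.b₆ = 0 := by
      simp only [b₆, Model.jac, hl, hm, hn, h4']; ring
    simp [Δ, b2, b4, b6]
  · have h4' : (4 : L) ≠ 0 := by
      have : (4 : L) = 2 * 2 := by norm_num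
      rw [this]; exact mul_ne_zero h2' h2'
    have hs : f.shift (-f.l / 2) (-f.m / 2) (-f.n / 2) = ⟨0, 0, 0, 0, 0, 0, 0, 0⟩ := by
      ext <;> simp only [Model.shift] <;> field_simp
      · ring
      · ring
      · ring
      · linear_combination h4
      · exact mul_left_cancel₀ h2' (by linear_combination h3)
      · linear_combination h2
      · exact mul_left_cancel₀ h2' (by linear_combination h1)
      · linear_combination h0
    have hj := Model.jac_shift (-f.l / 2) (-f.m / 2) (-f.n / 2) f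
    rw [hs] at hj
    by_contra hne
    refine (Delta_smul_ne_zero (W := f.jac) (wsh (f.shR (-f.l / 2) (-f.n / 2)) (-f.m / 2)
      (f.shT (-f.l / 2) (-f.m / 2) (-f.n / 2)))).2 hne ?_
    rw [← hj]
    simp [Model.jac, Δ, b₂, b₄, b₆, b₈]

lemma add0_add_raw {W : WeierstrassCurve L} {P₁ P₂ P₃ : W.toAffine.Point} {x₁ y₁ x₂ y₂ x₃ y₃ s : L}
    (h₁ : toRaw P₁ = some (x₁, y₁)) (h₂ : toRaw P₂ = some (x₂, y₂))
    (h₃ : toRaw P₃ = some (x₃, y₃)) (hx : x₁ ≠ x₂) (hs : y₁ - y₂ = s * (x₁ - x₂))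
    (hX : s ^ 2 + W.a₁ * s - W.a₂ - x₁ - x₂ = x₃)
    (hY : -(s * (x₃ - x₁) + y₁) - W.a₁ * x₃ - W.a₃ = y₃) : P₁ + P₂ = P₃ := by
  apply toRaw_injective
  rcases P₁ with _ | ⟨a₁, b₁, n₁⟩
  · simp [toRaw] at h₁
  rcases P₂ with _ | ⟨a₂, b₂, n₂⟩
  · simp [toRaw] at h₂
  simp only [toRaw_some, Option.some.injEq, Prod.mk.injEq] at h₁ h₂
  obtain ⟨rfl, rfl⟩ := h₁
  obtain ⟨rfl, rfl⟩ := h₂
  have hsl : W.toAffine.slope a₁ a₂ b₁ b₂ = s := by
    rw [Affine.slope_of_X_ne hx, hs, mul_div_cancel_right₀ _ (sub_ne_zero.2 hx)]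
  rw [Affine.Point.add_of_X_ne hx, toRaw_some, h₃, hsl]
  simp only [Affine.addY, Affine.negY, Affine.negAddY, Affine.addX]
  rw [hX, hY]

lemma add0_add_zero {W : WeierstrassCurve L} {P₁ P₂ : W.toAffine.Point} {x₁ y₁ x₂ y₂ : L}
    (h₁ : toRaw P₁ = some (x₁, y₁)) (h₂ : toRaw P₂ = some (x₂, y₂)) (hx : x₁ = x₂)
    (hy : y₁ = -y₂ - W.a₁ * x₂ - W.a₃) : P₁ + P₂ = 0 := by
  rcases P₁ with _ | ⟨a₁, b₁, n₁⟩
  · simp [toRaw] at h₁
  rcases P₂ with _ | ⟨a₂, b₂, n₂⟩
  · simp [toRaw] at h₂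
  simp only [toRaw_some, Option.some.injEq, Prod.mk.injEq] at h₁ h₂
  obtain ⟨rfl, rfl⟩ := h₁
  obtain ⟨rfl, rfl⟩ := h₂
  exact Affine.Point.add_of_Y_eq hx hy

lemma add0_x_ne {W : WeierstrassCurve L} {P₁ P₂ : W.toAffine.Point} {x₁ y₁ x₂ y₂ : L}
    (h₁ : toRaw P₁ = some (x₁, y₁)) (h₂ : toRaw P₂ = some (x₂, y₂)) (hne : P₁ ≠ P₂)
    (hne' : P₁ ≠ -P₂) : x₁ ≠ x₂ := by
  rcases P₁ with _ | ⟨a₁, b₁, n₁⟩
  · simp [toRaw] at h₁
  rcases P₂ with _ | ⟨a₂, b₂, n₂⟩
  · simp [toRaw] at h₂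
  simp only [toRaw_some, Option.some.injEq, Prod.mk.injEq] at h₁ h₂
  obtain ⟨rfl, rfl⟩ := h₁
  obtain ⟨rfl, rfl⟩ := h₂
  intro hx
  rcases (Affine.Point.X_eq_iff (h₁ := n₁) (h₂ := n₂)).1 hx with h | h
  · exact hne h
  · exact hne' h

lemma add0_over (f : Model L) : (⟨f, 1⟩ : Obj L).Over f.jac := by
  simp [Obj.Over]

lemma add0_norm {Q : Pt L} (hz : Q.z ≠ 0) :
    (⟨Q.x / Q.z, 1, Q.y / Q.z ^ 2⟩ : Pt L).Eqv Q := by
  refine ⟨Q.z, hz, ?_⟩
  ext <;> simp <;> field_simp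

lemma add0_stdDiff (f : Model L) (x y : L) :
    f.stdDiff ⟨x, 1, y⟩ = some (f.NX ⟨x, 1, y⟩, f.NY ⟨x, 1, y⟩) := by
  simp [Model.stdDiff]

lemma add0_inv_std {f : Model L} (hΔ : f.jac.Δ ≠ 0) (ha : f.a = 0) {x y : L}
    (hQ : f.On ⟨x, 1, y⟩) (hψ : f.psi ⟨x, 1, y⟩ ≠ 0) :
    D f.jac ⟨f, 1⟩ Pt.std ⟨x, 1, y⟩ + D f.jac ⟨f, 1⟩ Pt.std (f.inv ⟨x, 1, y⟩) =
      piP f.jac ⟨f, 1⟩ Pt.std := by
  have r1 := toRaw_D_std hΔ (add0_over f) ha hQ
  have r2 := toRaw_D_std hΔ (add0_over f) ha hQ.inv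
  have r3 := toRaw_piP_std hΔ (add0_over f) ha
  rw [vcRaw_one] at r1 r2 r3
  change _ = f.stdDiff ⟨x, 1, y⟩ at r1
  change _ = f.stdDiff ⟨x, 1, -y - f.q x 1⟩ at r2
  change _ = f.piStd at r3
  rw [add0_stdDiff] at r1 r2
  by_cases hl : f.l = 0
  · have : piP f.jac ⟨f, 1⟩ Pt.std = 0 := by
      rw [← toRaw_eq_none, r3, Model.piStd, if_pos hl]
    rw [this]
    refine add0_add_zero r1 r2 ?_ ?_
    · simp [Model.NX, hl]
    · simp only [Model.NX, Model.NY, Model.jac, Model.q, hl]; ring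
  · rw [Model.piStd, if_neg hl] at r3
    refine add0_add_raw (s := (f.l ^ 2 * x + f.b) / f.l) r1 r2 r3 ?_ ?_ ?_ ?_
    · intro h
      apply mul_ne_zero hl hψ
      simp only [Model.NX, Model.psi, Model.q] at h ⊢
      linear_combination h
    · simp only [Model.NX, Model.NY, Model.q]
      field_simp
      ring
    · simp only [Model.NX, Model.PX, Model.jac, Model.q]
      field_simp
      ring
    · simp only [Model.NX, Model.NY, Model.PX, Model.PY, Model.jac, Model.q]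
      field_simp
      ring

/-- the swap of the two coordinates -/
noncomputable def add0_swap : G L :=
  ⟨Matrix.GeneralLinearGroup.mkOfDetNeZero !![0, 1; 1, 0] (by simp [Matrix.det_fin_two]), 1, 0, 0, 0⟩

lemma add0_swap_m11 : (add0_swap : G L).m11 = 0 := by simp [add0_swap, G.m11]
lemma add0_swap_m12 : (add0_swap : G L).m12 = 1 := by simp [add0_swap, G.m12]
lemma add0_swap_m21 : (add0_swap : G L).m21 = 1 := by simp [add0_swap, G.m21]
lemma add0_swap_m22 : (add0_swap : G L).m22 = 0 := by simp [add0_swap, G.m22]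

lemma add0_swap_det : (add0_swap : G L).det = -1 := by
  ext; simp [G.det_val, add0_swap_m11, add0_swap_m12, add0_swap_m21, add0_swap_m22]

lemma add0_swap_pt (x z y : L) : (add0_swap : G L).pt ⟨x, z, y⟩ = ⟨z, x, y⟩ := by
  ext <;> simp only [G.pt, add0_swap_m11, add0_swap_m12, add0_swap_m21, add0_swap_m22] <;>
    simp [add0_swap]

lemma add0_swap_smul (f : Model L) :
    (add0_swap : G L) • f = ⟨f.n, f.m, f.l, f.e, f.d, f.c, f.b, f.a⟩ := by
  rw [G.smul_def, add0_swap_m11, add0_swap_m12, add0_swap_m21, add0_swap_m22]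
  ext <;> simp [add0_swap, Model.subst, Model.shift, Model.scale]

lemma add0_swap_Gam (f : Model L) :
    (add0_swap : G L).Gam f = ⟨-1, 0, -f.m, -(f.l * f.d + f.n * f.b)⟩ := by
  ext
  · rw [G.Gam_u, add0_swap_det]; simp [add0_swap]
  · rw [G.Gam_r, add0_swap_det, add0_swap_m11, add0_swap_m12, add0_swap_m21, add0_swap_m22]
    simp [add0_swap, Model.shR, Model.subR]
  · rw [G.Gam_s, add0_swap_det, add0_swap_m11, add0_swap_m12, add0_swap_m21, add0_swap_m22]
    simp [add0_swap, Model.subS]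
  · rw [G.Gam_t, add0_swap_det, add0_swap_m11, add0_swap_m12, add0_swap_m21, add0_swap_m22]
    simp [add0_swap, Model.shR, Model.shT, Model.subS, Model.subT]
    ring

lemma add0_generic_std {f : Model L} (hΔ : f.jac.Δ ≠ 0) (ha : f.a = 0) (he : f.e = 0) {x y : L}
    (hx : x ≠ 0) (hQ : f.On ⟨x, 1, y⟩)
    (hne : D f.jac ⟨f, 1⟩ ⟨0, 1, 0⟩ ⟨x, 1, y⟩ ≠ D f.jac ⟨f, 1⟩ Pt.std ⟨0, 1, 0⟩)
    (hne' : D f.jac ⟨f, 1⟩ ⟨0, 1, 0⟩ ⟨x, 1, y⟩ ≠ -D f.jac ⟨f, 1⟩ Pt.std ⟨0, 1, 0⟩) :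
    D f.jac ⟨f, 1⟩ Pt.std ⟨0, 1, 0⟩ + D f.jac ⟨f, 1⟩ ⟨0, 1, 0⟩ ⟨x, 1, y⟩ =
      D f.jac ⟨f, 1⟩ Pt.std ⟨x, 1, y⟩ := by
  have h2 : f.On ⟨0, 1, 0⟩ := ⟨Or.inr one_ne_zero, by simp [Model.F, Model.q, Model.g, he]⟩
  have hF := hQ.eq
  have r1 := toRaw_D_std hΔ (add0_over f) ha h2
  have r3 := toRaw_D_std hΔ (add0_over f) ha hQ
  have r2 := toRaw_D hΔ (add0_over f) h2 hQ add0_swap
    (by rw [show (Pt.std : Pt L) = ⟨1, 0, 0⟩ from rfl, add0_swap_pt]; exact Pt.Eqv.refl _)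
  rw [vcRaw_one] at r1 r3
  change _ = f.stdDiff ⟨0, 1, 0⟩ at r1
  change _ = f.stdDiff ⟨x, 1, y⟩ at r3
  rw [add0_stdDiff] at r1 r3
  have e1 : (add0_swap : G L)⁻¹.pt ⟨x, 1, y⟩ = ⟨1, x, y⟩ := by
    rw [← add0_swap_pt 1 x y, G.inv_pt_pt]
  rw [e1, Obj.smul_f, Obj.smul_γ, mul_one, add0_swap_smul, add0_swap_Gam, Model.stdDiff,
    if_neg hx, vcRaw_some] at r2
  have hxne := add0_x_ne r2 r1 hne hne'
  simp only [Model.F, Model.q, Model.g, ha, he] at hF
  refine add0_add_raw (s := -(y + f.q x 1) / x) r1 r2 r3 hxne.symm ?_ ?_ ?_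
  · simp only [Model.NX, Model.NY, Model.q, Units.val_neg, Units.val_one]
    field_simp
    linear_combination (-f.n) * hF
  · simp only [Model.NX, Model.jac, Model.q, Units.val_neg, Units.val_one]
    field_simp
    linear_combination hF
  · simp only [Model.NX, Model.NY, Model.jac, Model.q]
    field_simp
    linear_combination f.l * hF

variable {W : WeierstrassCurve L} {z : Obj L}

/-- reduction to `γ = 1` -/
lemma D_eq_vcPt (hW : W.Δ ≠ 0) (hz : z.Over W) {Q Q' : Pt L} (hQ : z.f.On Q) (hQ' : z.f.On Q') :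
    D W z Q Q' = vcPt z.γ hz (D z.f.jac ⟨z.f, 1⟩ Q Q') := by
  have hg : ((mover Q).pt Pt.std).Eqv Q := by rw [mover_pt hQ.prim]; exact Pt.Eqv.refl _
  apply toRaw_injective
  rw [toRaw_vcPt, toRaw_D hW hz hQ hQ' _ hg,
    toRaw_D (z := ⟨z.f, 1⟩) (hz.jac_Delta hW) (add0_over z.f) hQ hQ' _ hg]
  simp only [Obj.smul_f, Obj.smul_γ, mul_one, vcRaw_mul]

/-- Reduce to `Q = Pt.std`, `a = 0`, `γ = 1`, `Q' = (x, 1, y)`.  If `l = 0` the two points are
negatives of each other.  If `l ≠ 0` their `X`-coordinates differ by `l * psi`, the slope is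
`(l^2 x + b) / l` and `addX = PX / l^2`, `addY = PY / l^3` hold identically. -/
theorem D_add_D_inv (hW : W.Δ ≠ 0) (hz : z.Over W) {Q Q' : Pt L} (hQ : z.f.On Q)
    (hQ' : z.f.On Q') (hd : Q.delta Q' ≠ 0) (hψ : z.f.psi Q' ≠ 0) :
    D W z Q Q' + D W z Q (z.f.inv Q') = piP W z Q := by
  obtain ⟨g, rfl⟩ : ∃ g : G L, g.pt Pt.std = Q := ⟨mover Q, mover_pt hQ.prim⟩
  obtain ⟨Q', rfl⟩ : ∃ Q'' : Pt L, g.pt Q'' = Q' := ⟨g⁻¹.pt Q', G.pt_inv_pt _ _⟩
  have h0 : (g • z).f.On Pt.std := (Model.on_pt g z.f _).1 hQ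
  have h1 : (g • z).f.On Q' := (Model.on_pt g z.f _).1 hQ'
  have hz' := hz.smul g
  have hzz : Q'.z ≠ 0 := by
    intro h
    apply hd
    rw [Pt.delta_pt]
    simp [Pt.delta, h]
  have hψ' : (g • z).f.psi Q' ≠ 0 := by
    intro h
    apply hψ
    rw [G.psi_pt, ← Obj.smul_f, h, mul_zero]
  rw [G.inv_pt, ← Obj.smul_f, ← D_smul hW hz g h0 h1, ← D_smul hW hz g h0 h1.inv,
    ← piP_smul hW hz g h0]
  generalize g • z = w at h0 h1 hz' hψ' ⊢
  have e := add0_norm hzz
  have h2 := h1.eqv e.symm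
  have hψ2 : w.f.psi ⟨Q'.x / Q'.z, 1, Q'.y / Q'.z ^ 2⟩ ≠ 0 := by
    intro h
    obtain ⟨t, -, ht⟩ := e
    apply hψ'
    rw [ht, Model.psi_sc, h, mul_zero]
  rw [← D_eqv hW hz' h0 h2 (Pt.Eqv.refl _) e,
    ← D_eqv hW hz' h0 h2.inv (Pt.Eqv.refl _) (Model.inv_eqv e), piP,
    D_eq_vcPt hW hz' h0 h2, D_eq_vcPt hW hz' h0 h2.inv, D_eq_vcPt hW hz' h0 h0.inv, ← map_add]
  congr 1
  exact add0_inv_std (hz'.jac_Delta hW) (Model.on_std.1 h0) h2 hψ2

/-- Use `g` with matrix rows `(x₁, z₁)`, `(x₂, z₂)`, `μ = 1`, `r = (y₁, 0, y₂)` to reduce to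
`Q₁ = (1, 0, 0)`, `Q₂ = (0, 1, 0)`, `a = e = 0`, `γ = 1`, `Q = (x, 1, y)` with `x ≠ 0`.
Then `D Q₁ Q₂ = (l n, 0)`, `D Q₁ Q = (NX, NY)`, and `D Q₂ Q` (computed by `toRaw_D` with the swap
matrix, whose `Gam` is `⟨-1, 0, -m, -(l d + n b)⟩`) is `(X₂ / x^2, Y₂ / x^3)` with
`X₂ = l n x^2 + m n x + n^2 + n y + d x` and
`Y₂ = -(y + q(x,1)) (X₂ - l n x^2) + n F`.  The slope is `-(y + q(x,1)) / x`; then
`addX x^2 - NX x^2 = F` and `addY x - NY x = l F`.  The hypotheses `hne`, `hne'` say that the two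
summands have different `X`-coordinates (`Affine.Point.X_eq_iff`). -/
theorem D_add_generic (hW : W.Δ ≠ 0) (hz : z.Over W) {Q₁ Q₂ Q : Pt L} (h₁ : z.f.On Q₁)
    (h₂ : z.f.On Q₂) (hQ : z.f.On Q) (h12 : Q₁.delta Q₂ ≠ 0) (h1 : Q₁.delta Q ≠ 0)
    (h2 : Q₂.delta Q ≠ 0) (hne : D W z Q₂ Q ≠ D W z Q₁ Q₂) (hne' : D W z Q₂ Q ≠ -D W z Q₁ Q₂) :
    D W z Q₁ Q₂ + D W z Q₂ Q = D W z Q₁ Q := by
  obtain ⟨g, rfl, rfl⟩ : ∃ g : G L, g.pt Pt.std = Q₁ ∧ g.pt ⟨0, 1, 0⟩ = Q₂ := by
    refine ⟨⟨Matrix.GeneralLinearGroup.mkOfDetNeZero !![Q₁.x, Q₁.z; Q₂.x, Q₂.z] ?_, 1, Q₁.y, 0,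
      Q₂.y⟩, ?_, ?_⟩
    · rw [Matrix.det_fin_two_of]
      intro h
      apply h12
      simp only [Pt.delta]
      linear_combination h
    · ext <;> simp [G.pt, G.m11, G.m12, G.m21, G.m22]
    · ext <;> simp [G.pt, G.m11, G.m12, G.m21, G.m22]
  obtain ⟨Q, rfl⟩ : ∃ Q' : Pt L, g.pt Q' = Q := ⟨g⁻¹.pt Q, G.pt_inv_pt _ _⟩
  have k1 : (g • z).f.On Pt.std := (Model.on_pt g z.f _).1 h₁
  have k2 : (g • z).f.On ⟨0, 1, 0⟩ := (Model.on_pt g z.f _).1 h₂
  have k : (g • z).f.On Q := (Model.on_pt g z.f _).1 hQ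
  have hz' := hz.smul g
  have hzz : Q.z ≠ 0 := by
    intro h
    apply h1
    rw [Pt.delta_pt]
    simp [Pt.delta, h]
  have hxx : Q.x ≠ 0 := by
    intro h
    apply h2
    rw [Pt.delta_pt]
    simp [Pt.delta, h]
  rw [← D_smul hW hz g k1 k2, ← D_smul hW hz g k2 k] at hne hne' ⊢
  rw [← D_smul hW hz g k1 k]
  generalize g • z = w at k1 k2 k hz' hne hne' ⊢
  have e := add0_norm hzz
  have k' := k.eqv e.symm
  rw [← D_eqv hW hz' k2 k' (Pt.Eqv.refl _) e, D_eq_vcPt hW hz' k1 k2, D_eq_vcPt hW hz' k2 k']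
    at hne hne' ⊢
  rw [← D_eqv hW hz' k1 k' (Pt.Eqv.refl _) e, D_eq_vcPt hW hz' k1 k', ← map_add]
  congr 1
  refine add0_generic_std (hz'.jac_Delta hW) (Model.on_std.1 k1) ?_ (div_ne_zero hxx hzz) k'
    (fun h => hne (by rw [h])) (fun h => hne' (by rw [h, map_neg]))
  have := k2.eq
  simpa [Model.F, Model.q, Model.g] using this

end SelAvg

/-!
Additivity of the difference map, general case.
-/

namespace SelAvg

open WeierstrassCurve Polynomial
open scoped Classical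

variable {L L' : Type*} [Field L] [Field L']
variable {W : WeierstrassCurve L} {z : Obj L}

/-- Over an algebraically closed field there is a point `(x, 1, y)` with `x` outside any finite set
and `psi ≠ 0`. -/
lemma exists_generic [IsAlgClosed L] {f : Model L} (hΔ : f.jac.Δ ≠ 0) (s : Finset (Pt L))
    (hs : ∀ Q ∈ s, Q.Prim) : ∃ Q, f.On Q ∧ f.psi Q ≠ 0 ∧ ∀ Q' ∈ s, Q'.delta Q ≠ 0 := by
  have hp := Model.hpoly_ne_zero hΔ
  obtain ⟨x, hx⟩ := Infinite.exists_notMem_finset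
    (f.hpoly.roots.toFinset ∪ s.image (fun Q' => Q'.x / Q'.z))
  rw [Finset.mem_union, not_or] at hx
  obtain ⟨hx1, hx2⟩ := hx
  have hev : f.hpoly.eval x ≠ 0 := by
    intro h
    exact hx1 (Multiset.mem_toFinset.2 ((mem_roots hp).2 h))
  obtain ⟨y, hy⟩ := IsAlgClosed.exists_root
    (C 1 * X ^ 2 + C (f.q x 1) * X + C (-f.g x 1) : L[X])
    (by rw [degree_quadratic one_ne_zero]; norm_num)
  have hF : f.F ⟨x, 1, y⟩ = 0 := by
    have := hy.eq_zero
    simp only [eval_add, eval_mul, eval_C, eval_pow, eval_X] at this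
    simp only [Model.F]
    linear_combination this
  refine ⟨⟨x, 1, y⟩, ⟨Or.inr one_ne_zero, hF⟩, ?_, ?_⟩
  · intro h
    have h2 := f.psi_sq ⟨x, 1, y⟩
    rw [h, hF] at h2
    apply hev
    rw [f.eval_hpoly]
    linear_combination -h2
  · intro Q' hQ' h
    simp only [Pt.delta] at h
    by_cases hz : Q'.z = 0
    · rcases hs Q' hQ' with h1 | h1
      · apply h1
        rw [hz] at h
        linear_combination h
      · exact h1 hz
    · apply hx2
      refine Finset.mem_image.2 ⟨Q', hQ', ?_⟩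
      field_simp
      linear_combination h

lemma add_delta_of_eqv {Q Q' : Pt L} (e : Q.Eqv Q') : Q'.delta Q = 0 := by
  obtain ⟨t, _, rfl⟩ := e
  simp only [Pt.delta, Pt.sc_x, Pt.sc_z]
  ring

lemma add_pair (hW : W.Δ ≠ 0) (hz : z.Over W) {Q₁ Q₂ : Pt L} (h₁ : z.f.On Q₁)
    (h₂ : z.f.On Q₂) : ∃ s : Finset (Pt L), (∀ Q' ∈ s, Q'.Prim) ∧ ∀ Q, z.f.On Q →
      z.f.psi Q ≠ 0 → (∀ Q' ∈ s, Q'.delta Q ≠ 0) → D W z Q₁ Q₂ + D W z Q₂ Q = D W z Q₁ Q := by
  by_cases h12 : Q₁.delta Q₂ = 0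
  · rcases Model.eqv_or_eqv_inv h₁ h₂ h12 with e | e
    · refine ⟨∅, by simp, fun Q hQ _ _ => ?_⟩
      rw [(D_eq_zero_iff hW hz h₁ h₂).2 e, zero_add]
      exact (D_eqv hW hz h₁ hQ e (Pt.Eqv.refl Q)).symm
    · refine ⟨{Q₁}, by simpa using h₁.prim, fun Q hQ hψ hd => ?_⟩
      have e1 : D W z Q₁ Q₂ = piP W z Q₁ :=
        (D_eqv hW hz h₁ h₁.inv (Pt.Eqv.refl Q₁) e).symm
      have e2 : D W z Q₂ Q = -D W z Q₁ (z.f.inv Q) := by
        rw [← D_inv hW hz h₁ hQ.inv, Model.inv_inv]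
        exact (D_eqv hW hz h₁.inv hQ e (Pt.Eqv.refl Q)).symm
      rw [e1, e2, ← D_add_D_inv hW hz h₁ hQ (hd Q₁ (Finset.mem_singleton_self _)) hψ]
      abel
  · obtain ⟨A, hA, eA⟩ := D_surjective hW hz h₂ (D W z Q₁ Q₂)
    obtain ⟨B, hB, eB⟩ := D_surjective hW hz h₂ (-D W z Q₁ Q₂)
    refine ⟨{Q₁, Q₂, A, B}, ?_, fun Q hQ _ hd => ?_⟩
    · intro Q' hQ'
      simp only [Finset.mem_insert, Finset.mem_singleton] at hQ'
      rcases hQ' with rfl | rfl | rfl | rfl
      exacts [h₁.prim, h₂.prim, hA.prim, hB.prim]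
    · refine D_add_generic hW hz h₁ h₂ hQ h12 (hd _ (by simp)) (hd _ (by simp)) ?_ ?_
      · intro h
        exact hd A (by simp) (add_delta_of_eqv (D_injective hW hz h₂ hQ hA (h.trans eA.symm)))
      · intro h
        exact hd B (by simp) (add_delta_of_eqv (D_injective hW hz h₂ hQ hB (h.trans eB.symm)))

lemma add_closed [IsAlgClosed L] (hW : W.Δ ≠ 0) (hz : z.Over W) {Q₁ Q₂ Q₃ : Pt L}
    (h₁ : z.f.On Q₁) (h₂ : z.f.On Q₂) (h₃ : z.f.On Q₃) :
    D W z Q₁ Q₂ + D W z Q₂ Q₃ = D W z Q₁ Q₃ := by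
  obtain ⟨s₁, p₁, a₁⟩ := add_pair hW hz h₁ h₂
  obtain ⟨s₂, p₂, a₂⟩ := add_pair hW hz h₂ h₃
  obtain ⟨s₃, p₃, a₃⟩ := add_pair hW hz h₁ h₃
  obtain ⟨Q, hQ, hψ, hd⟩ := exists_generic (hz.jac_Delta hW) (s₁ ∪ s₂ ∪ s₃) (by
    intro Q hQ
    simp only [Finset.mem_union] at hQ
    rcases hQ with (h | h) | h
    exacts [p₁ Q h, p₂ Q h, p₃ Q h])
  have b₁ := a₁ Q hQ hψ fun Q' h => hd Q' (by simp [h])
  have b₂ := a₂ Q hQ hψ fun Q' h => hd Q' (by simp [h])
  have b₃ := a₃ Q hQ hψ fun Q' h => hd Q' (by simp [h])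
  apply add_right_cancel (b := D W z Q₃ Q)
  rw [add_assoc, b₂, b₁, b₃]

lemma add_pmap_D (φ : L →+* L') (hW : W.Δ ≠ 0) (hz : z.Over W) {Q Q' : Pt L} (hQ : z.f.On Q)
    (hQ' : z.f.On Q') : pmap φ (rfl : W.map φ = W.map φ) (D W z Q Q') =
      D (W.map φ) (z.map φ) (Q.map φ) (Q'.map φ) := by
  apply toRaw_injective
  rw [toRaw_pmap, toRaw_D_map φ hW hz hQ hQ']

/-- Additivity.  By `pmap` (injective) and `toRaw_D_map` reduce to an algebraically closed field.
First show: for any `Q₁`, `Q₂` there is a finite set of primitive points such that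
`D Q₁ Q₂ + D Q₂ Q = D Q₁ Q` whenever `psi Q ≠ 0` and `delta Q' Q ≠ 0` for `Q'` in the set
(cases: `delta Q₁ Q₂ ≠ 0`, where the set contains preimages of `± D Q₁ Q₂` under `D Q₂`;
`Q₂` equivalent to `Q₁`; `Q₂` equivalent to the conjugate of `Q₁`, use `D_inv`, `D_add_D_inv`).
Then apply this to the three pairs with one generic `Q`. -/
theorem D_add (hW : W.Δ ≠ 0) (hz : z.Over W) {Q₁ Q₂ Q₃ : Pt L} (h₁ : z.f.On Q₁)
    (h₂ : z.f.On Q₂) (h₃ : z.f.On Q₃) : D W z Q₁ Q₂ + D W z Q₂ Q₃ = D W z Q₁ Q₃ := by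
  let φ : L →+* AlgebraicClosure L := algebraMap L (AlgebraicClosure L)
  have hW' : (W.map φ).Δ ≠ 0 := by
    rw [map_Δ]
    exact (map_ne_zero φ).2 hW
  apply pmap_injective φ (rfl : W.map φ = W.map φ)
  rw [map_add, add_pmap_D φ hW hz h₁ h₂, add_pmap_D φ hW hz h₂ h₃, add_pmap_D φ hW hz h₁ h₃]
  exact add_closed hW' (hz.map φ) ((Model.on_map φ _ _).2 h₁) ((Model.on_map φ _ _).2 h₂)
    ((Model.on_map φ _ _).2 h₃)

lemma D_self (hW : W.Δ ≠ 0) (hz : z.Over W) {Q : Pt L} (hQ : z.f.On Q) : D W z Q Q = 0 :=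
  (D_eq_zero_iff hW hz hQ hQ).2 (Pt.Eqv.refl Q)

lemma D_symm (hW : W.Δ ≠ 0) (hz : z.Over W) {Q Q' : Pt L} (hQ : z.f.On Q) (hQ' : z.f.On Q') :
    D W z Q' Q = -D W z Q Q' := by
  rw [eq_neg_iff_add_eq_zero, D_add hW hz hQ' hQ hQ', D_self hW hz hQ']

theorem two_smul_D (hW : W.Δ ≠ 0) (hz : z.Over W) {Q Q' : Pt L} (hQ : z.f.On Q)
    (hQ' : z.f.On Q') : 2 • D W z Q Q' = piP W z Q - piP W z Q' := by
  have h1 := D_add hW hz hQ hQ' hQ'.inv
  have h2 := D_add hW hz hQ hQ.inv hQ'.inv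
  rw [D_inv hW hz hQ hQ'] at h2
  unfold piP
  rw [two_smul, eq_sub_iff_add_eq, add_assoc, h1, ← h2]
  abel

/-- An automorphism `g` moves every point by the same 2-torsion point. -/
theorem aut_translation (hW : W.Δ ≠ 0) (hz : z.Over W) {g : G L} (hg : g • z = z) {Q Q' : Pt L}
    (hQ : z.f.On Q) (hQ' : z.f.On Q') :
    D W z Q (g.pt Q) = D W z Q' (g.pt Q') ∧ 2 • D W z Q (g.pt Q) = 0 := by
  have hf : g • z.f = z.f := by rw [← Obj.smul_f, hg]
  have hgQ : z.f.On (g.pt Q) := (Model.on_pt g z.f Q).2 (by rw [hf]; exact hQ)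
  have hgQ' : z.f.On (g.pt Q') := (Model.on_pt g z.f Q').2 (by rw [hf]; exact hQ')
  have h1 := D_smul hW hz g (Q := Q) (Q' := Q') (by rw [hg]; exact hQ) (by rw [hg]; exact hQ')
  have h2 := piP_smul hW hz g (Q := Q) (by rw [hg]; exact hQ)
  rw [hg] at h1 h2
  refine ⟨?_, ?_⟩
  · have h3 := D_add hW hz hQ hgQ hgQ'
    have h4 := D_add hW hz hQ hQ' hgQ'
    rw [← h1, ← h4, add_comm] at h3
    exact add_left_cancel h3
  · rw [two_smul_D hW hz hQ hgQ, h2, sub_self]

end SelAvg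

/-!
Averages, densities and point counts.
-/

namespace SelAvg

open WeierstrassCurve
open scoped Classical

/-- the mean of `F` over `s` -/
noncomputable def avg {α : Type*} (s : Finset α) (F : α → ℝ) : ℝ := (∑ x ∈ s, F x) / s.card

/-- the proportion of elements of `s` with property `P` -/
noncomputable def dens {α : Type*} (s : Finset α) (P : α → Prop) : ℝ :=
  ((s.filter P).card : ℝ) / s.card

/-- the indicator of a proposition -/
noncomputable def ind (P : Prop) : ℝ := if P then 1 else 0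

section Basic

variable {α β : Type*}

lemma ind_nonneg (P : Prop) : 0 ≤ ind P := by unfold ind; split_ifs <;> norm_num
lemma ind_le_one (P : Prop) : ind P ≤ 1 := by unfold ind; split_ifs <;> norm_num
lemma ind_pos {P : Prop} (h : P) : ind P = 1 := if_pos h
lemma ind_neg {P : Prop} (h : ¬P) : ind P = 0 := if_neg h

lemma dens_eq_avg (s : Finset α) (P : α → Prop) : dens s P = avg s (fun x => ind (P x)) := by
  simp [dens, avg, ind, Finset.sum_boole]

lemma avg_mono {s : Finset α} {F G : α → ℝ} (h : ∀ x ∈ s, F x ≤ G x) : avg s F ≤ avg s G :=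
  div_le_div_of_nonneg_right (Finset.sum_le_sum h) (Nat.cast_nonneg _)

lemma avg_congr {s : Finset α} {F G : α → ℝ} (h : ∀ x ∈ s, F x = G x) : avg s F = avg s G := by
  unfold avg; rw [Finset.sum_congr rfl h]

lemma avg_nonneg {s : Finset α} {F : α → ℝ} (h : ∀ x ∈ s, 0 ≤ F x) : 0 ≤ avg s F :=
  div_nonneg (Finset.sum_nonneg h) (Nat.cast_nonneg _)

lemma avg_add (s : Finset α) (F G : α → ℝ) : avg s (fun x => F x + G x) = avg s F + avg s G := by
  simp [avg, Finset.sum_add_distrib, add_div]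

lemma avg_sub (s : Finset α) (F G : α → ℝ) : avg s (fun x => F x - G x) = avg s F - avg s G := by
  simp [avg, Finset.sum_sub_distrib, sub_div]

lemma avg_const_mul (s : Finset α) (c : ℝ) (F : α → ℝ) :
    avg s (fun x => c * F x) = c * avg s F := by
  simp [avg, ← Finset.mul_sum, mul_div_assoc]

lemma avg_sum (s : Finset α) (t : Finset β) (F : β → α → ℝ) :
    avg s (fun x => ∑ b ∈ t, F b x) = ∑ b ∈ t, avg s (F b) := by
  simp only [avg, Finset.sum_div]; exact Finset.sum_comm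

lemma avg_const {s : Finset α} (hs : s.Nonempty) (c : ℝ) : avg s (fun _ => c) = c := by
  have : (s.card : ℝ) ≠ 0 := by exact_mod_cast hs.card_pos.ne'
  simp [avg]; field_simp

lemma avg_le_of_le {s : Finset α} {F : α → ℝ} {c : ℝ} (hc : 0 ≤ c) (h : ∀ x ∈ s, F x ≤ c) :
    avg s F ≤ c := by
  rcases s.eq_empty_or_nonempty with rfl | hs
  · simpa [avg] using hc
  · exact (avg_mono h).trans (avg_const hs c).le

lemma dens_nonneg (s : Finset α) (P : α → Prop) : 0 ≤ dens s P := by unfold dens; positivity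

lemma dens_le_one (s : Finset α) (P : α → Prop) : dens s P ≤ 1 := by
  rw [dens_eq_avg]; exact avg_le_of_le zero_le_one fun x _ => ind_le_one _

lemma dens_mono {s : Finset α} {P Q : α → Prop} (h : ∀ x ∈ s, P x → Q x) :
    dens s P ≤ dens s Q := by
  rw [dens_eq_avg, dens_eq_avg]
  refine avg_mono fun x hx => ?_
  by_cases hp : P x
  · rw [ind_pos hp, ind_pos (h x hx hp)]
  · rw [ind_neg hp]; exact ind_nonneg _

lemma dens_congr {s : Finset α} {P Q : α → Prop} (h : ∀ x ∈ s, P x ↔ Q x) :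
    dens s P = dens s Q :=
  le_antisymm (dens_mono fun x hx => (h x hx).1) (dens_mono fun x hx => (h x hx).2)

lemma dens_or_le (s : Finset α) (P Q : α → Prop) :
    dens s (fun x => P x ∨ Q x) ≤ dens s P + dens s Q := by
  rw [dens_eq_avg, dens_eq_avg, dens_eq_avg, ← avg_add]
  refine avg_mono fun x _ => ?_
  by_cases hp : P x <;> by_cases hq : Q x <;> simp [ind, hp, hq]

lemma dens_exists_le (s : Finset α) (t : Finset β) (P : β → α → Prop) :
    dens s (fun x => ∃ b ∈ t, P b x) ≤ ∑ b ∈ t, dens s (P b) := by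
  simp only [dens_eq_avg]
  rw [← avg_sum]
  refine avg_mono fun x _ => ?_
  by_cases h : ∃ b ∈ t, P b x
  · obtain ⟨b, hb, hP⟩ := h
    rw [ind_pos ⟨b, hb, hP⟩, ← ind_pos hP]
    exact Finset.single_le_sum (f := fun b => ind (P b x)) (fun b _ => ind_nonneg _) hb
  · rw [ind_neg h]; exact Finset.sum_nonneg fun b _ => ind_nonneg _

lemma dens_not {s : Finset α} (hs : s.Nonempty) (P : α → Prop) :
    dens s (fun x => ¬P x) = 1 - dens s P := by
  rw [dens_eq_avg, dens_eq_avg, ← avg_const hs 1, ← avg_sub]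
  refine avg_congr fun x _ => ?_
  by_cases hp : P x <;> simp [ind, hp]

lemma avg_product (s : Finset α) (t : Finset β) (F : α × β → ℝ) :
    avg (s ×ˢ t) F = avg s (fun a => avg t (fun b => F (a, b))) := by
  simp only [avg, Finset.sum_product, Finset.card_product, Nat.cast_mul, ← Finset.sum_div]
  rw [div_div, mul_comm]

lemma avg_map (s : Finset α) (e : α ↪ β) (F : β → ℝ) : avg (s.map e) F = avg s (fun x => F (e x)) := by
  simp [avg]

lemma dens_map (s : Finset α) (e : α ↪ β) (P : β → Prop) :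
    dens (s.map e) P = dens s (fun x => P (e x)) := by
  rw [dens_eq_avg, dens_eq_avg, avg_map]

end Basic

section Vec

variable {R S : Type*}

def Model.equivVec : Model R ≃ (Fin 8 → R) where
  toFun f := ![f.l, f.m, f.n, f.a, f.b, f.c, f.d, f.e]
  invFun v := ⟨v 0, v 1, v 2, v 3, v 4, v 5, v 6, v 7⟩
  left_inv f := rfl
  right_inv v := by funext i; fin_cases i <;> rfl

def wEquivVec : WeierstrassCurve R ≃ (Fin 5 → R) where
  toFun W := ![W.a₁, W.a₂, W.a₃, W.a₄, W.a₆]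
  invFun v := ⟨v 0, v 1, v 2, v 3, v 4⟩
  left_inv W := rfl
  right_inv v := by funext i; fin_cases i <;> rfl

noncomputable instance instFintypeModel [Fintype R] : Fintype (Model R) :=
  Fintype.ofEquiv _ Model.equivVec.symm

noncomputable instance instFintypeW [Fintype R] : Fintype (WeierstrassCurve R) :=
  Fintype.ofEquiv _ wEquivVec.symm

lemma card_model [Fintype R] : Fintype.card (Model R) = Fintype.card R ^ 8 := by
  rw [Fintype.card_congr Model.equivVec]; simp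

lemma card_W [Fintype R] : Fintype.card (WeierstrassCurve R) = Fintype.card R ^ 5 := by
  rw [Fintype.card_congr wEquivVec]; simp

lemma Model.equivVec_symm_map [CommRing R] [CommRing S] (φ : R →+* S) (v : Fin 8 → R) :
    (Model.equivVec.symm v).map φ = Model.equivVec.symm (fun i => φ (v i)) := rfl

lemma wEquivVec_symm_map [CommRing R] [CommRing S] (φ : R →+* S) (v : Fin 5 → R) :
    (wEquivVec.symm v).map φ = wEquivVec.symm (fun i => φ (v i)) := rfl

end Vec

variable {κ R : Type*} [Field κ] [CommRing R]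

/-- normalised representatives of the points of weighted projective space -/
def npt : Option κ × κ → Pt κ
  | (none, y) => ⟨1, 0, y⟩
  | (some x, y) => ⟨x, 1, y⟩

/-- the number of smooth points -/
noncomputable def nSm (f : Model κ) : ℕ :=
  Nat.card {p : Option κ × κ // f.On (npt p) ∧ f.Smooth (npt p)}

/-- the number of affine solutions of a Weierstrass equation -/
noncomputable def nAff (W : WeierstrassCurve R) : ℕ :=
  Nat.card {p : R × R // W.toAffine.Equation p.1 p.2}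

/-- the weight of a model over a finite local ring `R` with residue map `θ` -/
noncomputable def phiR (θ : R →+* κ) (f : Model R) : ℝ :=
  (nSm (f.map θ) : ℝ) / (1 + (nAff f.jac : ℝ) * Nat.card κ / Nat.card R)

lemma phiR_nonneg (θ : R →+* κ) (f : Model R) : 0 ≤ phiR θ f := by unfold phiR; positivity

lemma npt_prim (p : Option κ × κ) : (npt p).Prim := by
  obtain ⟨_ | x, y⟩ := p
  · exact Or.inl one_ne_zero
  · exact Or.inr one_ne_zero

lemma exists_npt {Q : Pt κ} (h : Q.Prim) : ∃ p, Q.Eqv (npt p) := by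
  by_cases hz : Q.z = 0
  · have hx : Q.x ≠ 0 := h.resolve_right (not_not.2 hz)
    refine ⟨(none, Q.x⁻¹ ^ 2 * Q.y), Q.x⁻¹, inv_ne_zero hx, ?_⟩
    ext
    · simp [npt, hx]
    · simp [npt, hz]
    · simp [npt]
  · refine ⟨(some (Q.z⁻¹ * Q.x), Q.z⁻¹ ^ 2 * Q.y), Q.z⁻¹, inv_ne_zero hz, ?_⟩
    ext
    · simp [npt]
    · simp [npt, hz]
    · simp [npt]

lemma npt_inj {p p' : Option κ × κ} (h : (npt p).Eqv (npt p')) : p = p' := by
  obtain ⟨t, ht, e⟩ := h
  have ex := congrArg Pt.x e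
  have ez := congrArg Pt.z e
  have ey := congrArg Pt.y e
  obtain ⟨_ | x, y⟩ := p <;> obtain ⟨_ | x', y'⟩ := p' <;>
    simp only [npt, Pt.sc_x, Pt.sc_z, Pt.sc_y, mul_one, mul_zero] at ex ez ey
  · rw [← ex] at ey
    simp [ey]
  · exact absurd ez one_ne_zero
  · exact absurd ez.symm ht
  · rw [← ez] at ex ey
    simp [ex, ey]

lemma count_emb (g : G κ) (f : Model κ) :
    Nonempty ({p : Option κ × κ // (g • f).On (npt p) ∧ (g • f).Smooth (npt p)} ↪
      {p : Option κ × κ // f.On (npt p) ∧ f.Smooth (npt p)}) := by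
  choose n hn using fun p : Option κ × κ => exists_npt ((npt_prim p).pt g)
  refine ⟨⟨fun p => ⟨n p.1, ((Model.on_pt g f _).2 p.2.1).eqv (hn p.1),
    ((Model.smooth_pt g f _).2 p.2.2).eqv (hn p.1)⟩, ?_⟩⟩
  intro p p' h
  have h1 : n p.1 = n p'.1 := congrArg Subtype.val h
  have h2 : (g.pt (npt p.1)).Eqv (g.pt (npt p'.1)) := (hn p.1).trans (h1 ▸ (hn p'.1).symm)
  have h3 := h2.pt g⁻¹
  rw [G.inv_pt_pt, G.inv_pt_pt] at h3
  exact Subtype.ext (npt_inj h3)

lemma count_quad (b c : κ) (s : Finset κ) (hs : ∀ y ∈ s, y ^ 2 + b * y + c = 0) :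
    s.card ≤ 2 := by
  by_contra h
  obtain ⟨x, hx, y, hy, z, hz, hxy, hxz, hyz⟩ := Finset.two_lt_card.1 (not_le.1 h)
  have h1 : (x - y) * (x + y + b) = 0 := by linear_combination hs x hx - hs y hy
  have h2 : (x - z) * (x + z + b) = 0 := by linear_combination hs x hx - hs z hz
  have h3 := (mul_eq_zero.1 h1).resolve_left (sub_ne_zero.2 hxy)
  have h4 := (mul_eq_zero.1 h2).resolve_left (sub_ne_zero.2 hxz)
  exact hyz (by linear_combination h3 - h4)

lemma count_fibre [Finite κ] {ι : Type*} [Finite ι] (P : ι × κ → Prop) (T : Finset ι)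
    (b c : ι → κ) (h : ∀ p, P p → p.1 ∈ T ∧ p.2 ^ 2 + b p.1 * p.2 + c p.1 = 0) :
    Nat.card {p // P p} ≤ 2 * T.card := by
  have := Fintype.ofFinite κ
  have := Fintype.ofFinite ι
  rw [Nat.card_eq_fintype_card, Fintype.card_subtype]
  refine Finset.card_le_mul_card_image_of_maps_to (f := Prod.fst)
    (fun p hp => (h p (Finset.mem_filter.1 hp).2).1) 2 fun i _ => ?_
  rw [← Finset.card_image_of_injOn (f := Prod.snd)]
  · refine count_quad (b i) (c i) _ fun y hy => ?_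
    obtain ⟨p, hp, rfl⟩ := Finset.mem_image.1 hy
    rw [Finset.mem_filter, Finset.mem_filter] at hp
    rw [← hp.2]
    exact (h p hp.1.2).2
  · intro p hp p' hp' e
    rw [Finset.mem_coe, Finset.mem_filter] at hp hp'
    exact Prod.ext (hp.2.trans hp'.2.symm) e

/-- `p ↦` the normalised representative of `g.pt (npt p)` is injective; apply to `g` and `g⁻¹`
(or build an equivalence). -/
theorem nSm_smul (g : G κ) (f : Model κ) : nSm (g • f) = nSm f := by
  obtain ⟨e₁⟩ := count_emb g f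
  obtain ⟨e₂⟩ := count_emb g⁻¹ (g • f)
  rw [inv_smul_smul] at e₂
  obtain ⟨e⟩ := Function.Embedding.antisymm e₁ e₂
  exact Nat.card_congr e

/-- at most two points in each of the `q + 1` fibres -/
lemma nSm_le [Finite κ] (f : Model κ) : nSm f ≤ 2 * (Nat.card κ + 1) := by
  have := Fintype.ofFinite κ
  have h := count_fibre (fun p : Option κ × κ => f.On (npt p) ∧ f.Smooth (npt p)) Finset.univ
    (fun o => f.q (npt (o, (0 : κ))).x (npt (o, (0 : κ))).z)
    (fun o => -f.g (npt (o, (0 : κ))).x (npt (o, (0 : κ))).z) (by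
      rintro ⟨_ | x, y⟩ ⟨hp, -⟩
      all_goals
        refine ⟨Finset.mem_univ _, ?_⟩
        have := hp.eq
        simp only [Model.F, npt] at this ⊢
        linear_combination this)
  rw [Finset.card_univ, Fintype.card_option, ← Nat.card_eq_fintype_card] at h
  exact h

lemma phiR_le [Finite κ] (θ : R →+* κ) (f : Model R) : phiR θ f ≤ 2 * (Nat.card κ + 1) := by
  have h1 : (nSm (f.map θ) : ℝ) ≤ 2 * (Nat.card κ + 1) := by exact_mod_cast nSm_le (f.map θ)
  refine le_trans (div_le_self (Nat.cast_nonneg _) ?_) h1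
  exact le_add_of_nonneg_right (by positivity)

lemma count_vc_emb (C : VariableChange R) (W : WeierstrassCurve R) :
    Nonempty ({p : R × R // (C • W).toAffine.Equation p.1 p.2} ↪
      {p : R × R // W.toAffine.Equation p.1 p.2}) := by
  have hu : (C.u : R) * ((C.u⁻¹ : Rˣ) : R) = 1 := C.u.mul_inv
  refine ⟨⟨fun p => ⟨(C.u ^ 2 * p.1.1 + C.r, C.u ^ 3 * p.1.2 + C.u ^ 2 * C.s * p.1.1 + C.t), ?_⟩,
    ?_⟩⟩
  · obtain ⟨⟨x, y⟩, h⟩ := p
    rw [Affine.equation_iff] at h ⊢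
    have h1 : (C.u : R) * (C • W).a₁ = W.a₁ + 2 * C.s := by
      rw [variableChange_a₁, ← mul_assoc, hu, one_mul]
    have h2 : (C.u : R) ^ 2 * (C • W).a₂ = W.a₂ - C.s * W.a₁ + 3 * C.r - C.s ^ 2 := by
      rw [variableChange_a₂, ← mul_assoc, ← mul_pow, hu, one_pow, one_mul]
    have h3 : (C.u : R) ^ 3 * (C • W).a₃ = W.a₃ + C.r * W.a₁ + 2 * C.t := by
      rw [variableChange_a₃, ← mul_assoc, ← mul_pow, hu, one_pow, one_mul]
    have h4 : (C.u : R) ^ 4 * (C • W).a₄ = W.a₄ - C.s * W.a₃ + 2 * C.r * W.a₂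
        - (C.t + C.r * C.s) * W.a₁ + 3 * C.r ^ 2 - 2 * C.s * C.t := by
      rw [variableChange_a₄, ← mul_assoc, ← mul_pow, hu, one_pow, one_mul]
    have h6 : (C.u : R) ^ 6 * (C • W).a₆ = W.a₆ + C.r * W.a₄ + C.r ^ 2 * W.a₂ + C.r ^ 3
        - C.t * W.a₃ - C.t ^ 2 - C.r * C.t * W.a₁ := by
      rw [variableChange_a₆, ← mul_assoc, ← mul_pow, hu, one_pow, one_mul]
    dsimp only at h ⊢
    linear_combination (C.u : R) ^ 6 * h - (C.u : R) ^ 5 * x * y * h1 - (C.u : R) ^ 3 * y * h3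
      + (C.u : R) ^ 4 * x ^ 2 * h2 + (C.u : R) ^ 2 * x * h4 + h6
  · rintro ⟨⟨x, y⟩, h⟩ ⟨⟨x', y'⟩, h'⟩ e
    have e' := congrArg Subtype.val e
    simp only [Prod.mk.injEq, add_left_inj] at e'
    obtain ⟨e1, e2⟩ := e'
    have hx : x = x' := (C.u.isUnit.pow 2).mul_left_cancel e1
    subst hx
    have hy : y = y' := (C.u.isUnit.pow 3).mul_left_cancel (add_right_cancel e2)
    subst hy
    rfl

lemma count_point [Finite κ] (W : WeierstrassCurve κ) : Nat.card W.toAffine.Point =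
    Nat.card {p : κ × κ // W.toAffine.Nonsingular p.1 p.2} + 1 := by
  rw [Nat.card_congr W.toAffine.nonsingularPointEquiv]
  exact Finite.card_option

theorem nAff_smul (C : VariableChange R) (W : WeierstrassCurve R) : nAff (C • W) = nAff W := by
  obtain ⟨e₁⟩ := count_vc_emb C W
  obtain ⟨e₂⟩ := count_vc_emb C⁻¹ (C • W)
  rw [inv_smul_smul] at e₂
  obtain ⟨e⟩ := Function.Embedding.antisymm e₁ e₂
  exact Nat.card_congr e

/-- for a nonsingular curve the points are the affine solutions and the point at infinity -/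
lemma card_point_eq [Finite κ] {W : WeierstrassCurve κ} (hW : W.Δ ≠ 0) :
    Nat.card W.toAffine.Point = 1 + nAff W := by
  rw [count_point, add_comm, nAff]
  congr 1
  exact Nat.card_congr (Equiv.subtypeEquivRight fun p =>
    (Affine.equation_iff_nonsingular_of_Δ_ne_zero hW).symm)

lemma finite_point [Finite κ] (W : WeierstrassCurve κ) : Finite W.toAffine.Point := by
  have : Finite (WithZero {p : κ × κ // W.toAffine.Nonsingular p.1 p.2}) :=
    inferInstanceAs (Finite (Option _))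
  exact Finite.of_equiv _ W.toAffine.nonsingularPointEquiv.symm

lemma card_point_le [Finite κ] (W : WeierstrassCurve κ) :
    Nat.card W.toAffine.Point ≤ 2 * Nat.card κ + 1 := by
  have := Fintype.ofFinite κ
  have h := count_fibre (fun p : κ × κ => W.toAffine.Nonsingular p.1 p.2) Finset.univ
    (fun x => W.a₁ * x + W.a₃) (fun x => -(x ^ 3 + W.a₂ * x ^ 2 + W.a₄ * x + W.a₆)) (by
      rintro ⟨x, y⟩ hp
      refine ⟨Finset.mem_univ _, ?_⟩
      have := (Affine.equation_iff _ _).1 hp.1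
      dsimp only at this ⊢
      linear_combination this)
  rw [Finset.card_univ, ← Nat.card_eq_fintype_card] at h
  rw [count_point]
  omega

/-- if `(0, 0)` is a singular point then no nonsingular point has `x = 0` -/
lemma card_point_le_of_sing [Finite κ] {W : WeierstrassCurve κ} (h3 : W.a₃ = 0) (h4 : W.a₄ = 0)
    (h6 : W.a₆ = 0) : Nat.card W.toAffine.Point + 1 ≤ 2 * Nat.card κ := by
  have := Fintype.ofFinite κ
  have h := count_fibre (fun p : κ × κ => W.toAffine.Nonsingular p.1 p.2) (Finset.univ.erase 0)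
    (fun x => W.a₁ * x + W.a₃) (fun x => -(x ^ 3 + W.a₂ * x ^ 2 + W.a₄ * x + W.a₆)) (by
      rintro ⟨x, y⟩ hp
      have h0 := (Affine.equation_iff _ _).1 hp.1
      dsimp only at h0 hp ⊢
      refine ⟨Finset.mem_erase.2 ⟨?_, Finset.mem_univ _⟩, by linear_combination h0⟩
      rintro rfl
      have hy : y = 0 := by
        apply pow_eq_zero_iff (two_ne_zero) |>.1
        have e3 : W.toAffine.a₃ = 0 := h3
        have e6 : W.toAffine.a₆ = 0 := h6
        rw [e3, e6] at h0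
        linear_combination h0
      subst hy
      rcases (Affine.nonsingular_zero.1 hp).2 with h | h
      exacts [h h3, h h4])
  rw [Finset.card_erase_of_mem (Finset.mem_univ _), Finset.card_univ,
    ← Nat.card_eq_fintype_card] at h
  have hpos : 0 < Nat.card κ := Nat.card_pos
  rw [count_point]
  omega

lemma card_point_smul (C : VariableChange κ) (W : WeierstrassCurve κ) :
    Nat.card (C • W).toAffine.Point = Nat.card W.toAffine.Point :=
  Nat.card_congr (vcPt C rfl).toEquiv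

/-- a unit coordinate gives an integral group element moving the standard point -/
lemma exists_mover_ring {Q : Pt R} (h : IsUnit Q.x ∨ IsUnit Q.z) :
    ∃ g : G R, g.pt Pt.std = Q := by
  rcases h with h | h
  · refine ⟨⟨Matrix.GeneralLinearGroup.mk'' !![Q.x, Q.z; 0, 1]
      (by simpa [Matrix.det_fin_two] using h), 1, Q.y, 0, 0⟩, ?_⟩
    rw [G.pt_std]
    ext <;> simp [G.m11, G.m12]
  · refine ⟨⟨Matrix.GeneralLinearGroup.mk'' !![Q.x, Q.z; 1, 0]
      (by simpa [Matrix.det_fin_two] using h), 1, Q.y, 0, 0⟩, ?_⟩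
    rw [G.pt_std]
    ext <;> simp [G.m11, G.m12]

end SelAvg
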