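import Pool.Agent.H38Sel.Defs
import Pool.Agent.H38Sel.AlgC
import Pool.Agent.H38Sel.AlgA

/-!
The cohomology class of an object.
-/

namespace SelAvg

open WeierstrassCurve
open scoped Classical

universe u

variable {K : Type u} [Field K]

/-- the inclusion into the separable closure -/
noncomputable abbrev toSep (K : Type u) [Field K] : K →+* SeparableClosure K :=
  algebraMap K (SeparableClosure K)

/-- an element of the Galois group as a ring homomorphism -/
noncomputable abbrev galHom {K : Type u} [Field K] (σ : SeparableClosure K ≃ₐ[K] SeparableClosure K) :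
    SeparableClosure K →+* SeparableClosure K := σ.toRingEquiv.toRingHom

lemma toRaw_ptMap (W : WeierstrassCurve K) {L L' : Type u} [Field L] [Field L'] [Algebra K L]
    [Algebra K L'] (φ : L →ₐ[K] L') (P : Pts W L) :
    toRaw (W := W.map (algebraMap K L')) (ptMap W φ P) =
      rawMap φ.toRingHom (toRaw (W := W.map (algebraMap K L)) P) := by
  cases P <;> rfl

lemma toRaw_galAct (W : WeierstrassCurve K) (σ : SeparableClosure K ≃ₐ[K] SeparableClosure K)
    (P : Pts W (SeparableClosure K)) :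
    toRaw (W := W.map (toSep K)) (galAct W K σ P) =
      rawMap (galHom σ) (toRaw (W := W.map (toSep K)) P) := by
  cases P <;> rfl

lemma galHom_comp_toSep (σ : SeparableClosure K ≃ₐ[K] SeparableClosure K) :
    (galHom σ).comp (toSep K) = toSep K := by
  ext x; simp

/-- the trivial cocycle -/
noncomputable def trivCocycle (W : WeierstrassCurve K) (n : ℕ) : Cocycle W n where
  ξ _ := 0
  P := 0
  locConst := IsLocallyConstant.const 0
  cocycle := by simp
  bdry := by simp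

/-- the trivial class -/
noncomputable def trivClass (W : WeierstrassCurve K) (n : ℕ) : H1 W n :=
  Quot.mk _ (trivCocycle W n)

/-- the cocycle `c` is the one attached to the object `z` and a point over the separable closure -/
def Rep (W : WeierstrassCurve K) (z : Obj K) (c : Cocycle W 2) : Prop :=
  ∃ Q : Pt (SeparableClosure K), (z.map (toSep K)).f.On Q ∧
    c.P = piP (W.map (toSep K)) (z.map (toSep K)) Q ∧
    ∀ σ, c.ξ σ = D (W.map (toSep K)) (z.map (toSep K)) (Q.map (galHom σ)) Q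

/-- the class of an object -/
noncomputable def cl (W : WeierstrassCurve K) (z : Obj K) : H1 W 2 :=
  if h : ∃ c, Rep W z c then Quot.mk _ h.choose else trivClass W 2

variable {W : WeierstrassCurve K} {n : ℕ}

lemma cohomologous_equivalence : Equivalence (Cohomologous (W := W) (n := n)) := by
  refine ⟨fun c => ⟨0, by simp, by simp⟩, ?_, ?_⟩
  · rintro c c' ⟨R, h1, h2⟩
    refine ⟨-R, fun σ => ?_, ?_⟩
    · rw [h1, map_neg]
      abel
    · rw [h2, smul_neg, add_neg_cancel_right]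
  · rintro c c' c'' ⟨R, h1, h2⟩ ⟨R', h3, h4⟩
    refine ⟨R + R', fun σ => ?_, ?_⟩
    · rw [h3, h1, map_add]
      abel
    · rw [h4, h2, smul_add, add_assoc]

lemma mk_eq_mk_iff {c c' : Cocycle W n} :
    (Quot.mk _ c : H1 W n) = Quot.mk _ c' ↔ Cohomologous c c' := by
  exact Quot.eq.trans cohomologous_equivalence.eqvGen_iff

lemma isKummer_of_cohomologous {c c' : Cocycle W n} (h : Cohomologous c c') (L : Type u)
    [Field L] [Algebra K L] (hc : c.IsKummer L) : c'.IsKummer L := by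
  intro ι
  obtain ⟨R₀, h1, h2⟩ := h
  obtain ⟨S, R, h3, h4⟩ := hc ι
  refine ⟨S, R + ptMap W ι R₀, fun σ τ e => ?_, ?_⟩
  · have h5 : ptMap W ι (galAct W K τ R₀) = galAct W L σ (ptMap W ι R₀) := by
      rw [Affine.Point.map_map, Affine.Point.map_map]
      exact congrArg (fun φ => ptMap W φ R₀) (AlgHom.ext fun x => (e x).symm)
    rw [h1, map_add, map_sub, h3 σ τ e, h5, map_add]
    abel
  · rw [h2, map_add, h4, map_nsmul, smul_add, add_assoc]

lemma mk_mem_Sel_iff {c : Cocycle W n} :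
    (Quot.mk _ c : H1 W n) ∈ Sel W n ↔ ∀ v : Place K, c.IsKummer v.Compl := by
  refine ⟨?_, fun h => ⟨c, rfl, h⟩⟩
  rintro ⟨c', h1, h2⟩ v
  exact isKummer_of_cohomologous (mk_eq_mk_iff.1 h1) _ (h2 v)

lemma trivClass_mem_Sel : trivClass W n ∈ Sel W n := by
  refine ⟨_, rfl, fun v ι => ⟨0, 0, fun σ τ _ => ?_, ?_⟩⟩ <;> simp [trivCocycle]

/-- Galois equivariance of `D` (from `toRaw_D_map`, as `z` and `W` are defined over `K`) -/
lemma galAct_D (hW : W.Δ ≠ 0) {z : Obj K} (hz : z.Over W) {Q Q' : Pt (SeparableClosure K)}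
    (hQ : (z.map (toSep K)).f.On Q) (hQ' : (z.map (toSep K)).f.On Q')
    (σ : SeparableClosure K ≃ₐ[K] SeparableClosure K) :
    galAct W K σ (D (W.map (toSep K)) (z.map (toSep K)) Q Q') =
      D (W.map (toSep K)) (z.map (toSep K)) (Q.map (galHom σ)) (Q'.map (galHom σ)) := by
  have hW' : (W.map (toSep K)).Δ ≠ 0 := by
    rwa [map_Δ, _root_.map_ne_zero]
  have h := toRaw_D_map (galHom σ) hW' (hz.map (toSep K)) hQ hQ'
  rw [WeierstrassCurve.map_map, Obj.map_map, galHom_comp_toSep] at h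
  exact toRaw_injective (W := W.map (toSep K)) ((toRaw_galAct W σ _).trans h.symm)

/-- A primitive point whose class is fixed by the Galois group is equivalent to a rational point
(normalise a coordinate to `1`, `InfiniteGalois.mem_range_algebraMap_iff_fixed`). -/
lemma exists_rational_pt {Q : Pt (SeparableClosure K)} (hQ : Q.Prim)
    (h : ∀ σ : SeparableClosure K ≃ₐ[K] SeparableClosure K, Q.Eqv (Q.map (galHom σ))) :
    ∃ Q₀ : Pt K, Q.Eqv (Q₀.map (toSep K)) := by
  obtain ⟨t, ht, h1⟩ : ∃ t, t ≠ 0 ∧ (t * Q.x = 1 ∨ t * Q.z = 1) := by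
    rcases hQ with h0 | h0
    · exact ⟨_, inv_ne_zero h0, Or.inl (inv_mul_cancel₀ h0)⟩
    · exact ⟨_, inv_ne_zero h0, Or.inr (inv_mul_cancel₀ h0)⟩
  have e : Q.Eqv (Q.sc t) := ⟨t, ht, rfl⟩
  have h2 : ∀ σ : SeparableClosure K ≃ₐ[K] SeparableClosure K,
      (Q.sc t).map (galHom σ) = Q.sc t := by
    intro σ
    obtain ⟨s, -, hs⟩ := (e.symm.trans (h σ)).trans (e.map (galHom σ))
    have h3 : s = 1 := by
      rcases h1 with h1 | h1
      · have := congrArg Pt.x hs
        simp only [Pt.map_x, Pt.sc_x, h1, map_one, mul_one] at this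
        exact this.symm
      · have := congrArg Pt.z hs
        simp only [Pt.map_z, Pt.sc_z, h1, map_one, mul_one] at this
        exact this.symm
    rw [hs, h3]
    ext <;> simp
  obtain ⟨x, hx⟩ := (InfiniteGalois.mem_range_algebraMap_iff_fixed (k := K) (Q.sc t).x).2
    fun σ => congrArg Pt.x (h2 σ)
  obtain ⟨z, hz⟩ := (InfiniteGalois.mem_range_algebraMap_iff_fixed (k := K) (Q.sc t).z).2
    fun σ => congrArg Pt.z (h2 σ)
  obtain ⟨y, hy⟩ := (InfiniteGalois.mem_range_algebraMap_iff_fixed (k := K) (Q.sc t).y).2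
    fun σ => congrArg Pt.y (h2 σ)
  exact ⟨⟨x, z, y⟩, t, ht, Pt.ext hx hz hy⟩

/-- over a finite field with `q` elements `X^q - X + 1` is separable without roots -/
lemma infinite_of_isSepClosed (L : Type*) [Field L] [IsSepClosed L] : Infinite L := by
  by_contra h
  have : Finite L := not_infinite_iff_finite.1 h
  exact h inferInstance

/-- Choose `x` with `hpoly(x) ≠ 0` (a separably closed field is infinite) and a root `y` of the
separable polynomial `y^2 + q y - g`. -/
lemma exists_sep_point {f : Model K} (hΔ : f.jac.Δ ≠ 0) : (f.map (toSep K)).Soluble := by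
  have hΔ' : (f.map (toSep K)).jac.Δ ≠ 0 := by
    rwa [Model.jac_map, map_Δ, _root_.map_ne_zero]
  generalize f.map (toSep K) = F at hΔ' ⊢
  have := infinite_of_isSepClosed (SeparableClosure K)
  obtain ⟨x, hx⟩ : ∃ x, F.hpoly.eval x ≠ 0 := by
    by_contra h
    push Not at h
    exact Model.hpoly_ne_zero hΔ' (Polynomial.funext (by simpa using h))
  rw [Model.eval_hpoly] at hx
  by_cases h2 : (2 : SeparableClosure K) = 0
  · obtain ⟨y, hy⟩ := IsSepClosed.exists_root_C_mul_X_pow_add_C_mul_X_add_C (n := 2) 1 (F.q x 1)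
      (-F.g x 1) (by exact_mod_cast h2) le_rfl fun h => hx (by
        rw [h]
        linear_combination (2 * F.g x 1) * h2)
    refine ⟨⟨x, 1, y⟩, Or.inr one_ne_zero, ?_⟩
    simp only [Model.F]
    linear_combination hy
  · have : NeZero (2 : SeparableClosure K) := ⟨h2⟩
    obtain ⟨w, hw⟩ := IsSepClosed.exists_eq_mul_self (F.q x 1 ^ 2 + 4 * F.g x 1)
    refine ⟨⟨x, 1, (w - F.q x 1) / 2⟩, Or.inr one_ne_zero, ?_⟩
    simp only [Model.F]
    field_simp
    linear_combination -hw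

end SelAvg

/-!
The class of an object.
-/

namespace SelAvg

open WeierstrassCurve
open scoped Classical

universe u

variable {K : Type u} [Field K] {W : WeierstrassCurve K}

lemma cl_Delta (hW : W.Δ ≠ 0) : (W.map (toSep K)).Δ ≠ 0 := by
  rw [map_Δ]
  exact (map_ne_zero _).2 hW

lemma cl_f (z : Obj K) (σ : SeparableClosure K ≃ₐ[K] SeparableClosure K) :
    (z.map (toSep K)).f.map (galHom σ) = (z.map (toSep K)).f := by
  rw [Obj.map_f, Model.map_map, galHom_comp_toSep]

lemma cl_on {z : Obj K} {Q : Pt (SeparableClosure K)} (hQ : (z.map (toSep K)).f.On Q)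
    (σ : SeparableClosure K ≃ₐ[K] SeparableClosure K) :
    (z.map (toSep K)).f.On (Q.map (galHom σ)) := by
  have := (Model.on_map (galHom σ) _ Q).2 hQ
  rwa [cl_f] at this

lemma cl_piP (hW : W.Δ ≠ 0) {z : Obj K} (hz : z.Over W) {Q : Pt (SeparableClosure K)}
    (hQ : (z.map (toSep K)).f.On Q) (σ : SeparableClosure K ≃ₐ[K] SeparableClosure K) :
    galAct W K σ (piP (W.map (toSep K)) (z.map (toSep K)) Q) =
      piP (W.map (toSep K)) (z.map (toSep K)) (Q.map (galHom σ)) := by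
  unfold piP
  rw [galAct_D hW hz hQ hQ.inv, ← Model.map_inv, cl_f]

lemma cl_locConst (x : SeparableClosure K) :
    IsLocallyConstant fun σ : SeparableClosure K ≃ₐ[K] SeparableClosure K => σ x := by
  refine IsLocallyConstant.iff_isOpen_fiber_apply.2 fun σ => ?_
  convert (stabilizer_isOpen_of_isIntegral (K := K) x).preimage (continuous_const_mul σ⁻¹) using 1
  ext τ
  simp only [Set.mem_preimage, Set.mem_singleton_iff, SetLike.mem_coe, MulAction.mem_stabilizer_iff,
    mul_smul, inv_smul_eq_iff]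
  rfl

/-- the coboundary identity for two points -/
lemma cl_cob (hW : W.Δ ≠ 0) {z : Obj K} (hz : z.Over W) {Q Q' : Pt (SeparableClosure K)}
    (hQ : (z.map (toSep K)).f.On Q) (hQ' : (z.map (toSep K)).f.On Q')
    (σ : SeparableClosure K ≃ₐ[K] SeparableClosure K) :
    D (W.map (toSep K)) (z.map (toSep K)) (Q'.map (galHom σ)) Q' =
      D (W.map (toSep K)) (z.map (toSep K)) (Q.map (galHom σ)) Q +
        (D (W.map (toSep K)) (z.map (toSep K)) (Q'.map (galHom σ)) (Q.map (galHom σ)) -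
          D (W.map (toSep K)) (z.map (toSep K)) Q' Q) := by
  have h1 := D_add (cl_Delta hW) (hz.map _) (cl_on hQ' σ) (cl_on hQ σ) hQ
  have h2 := D_add (cl_Delta hW) (hz.map _) (cl_on hQ' σ) hQ' hQ
  rw [← add_sub_assoc, eq_sub_iff_add_eq, h2, add_comm, h1]

/-- Every point gives a cocycle.  It is locally constant since it only depends on the images of
the three coordinates, whose stabilisers are open (`stabilizer_isOpen_of_isIntegral`). -/
theorem exists_rep_of_point (hW : W.Δ ≠ 0) {z : Obj K} (hz : z.Over W)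
    {Q : Pt (SeparableClosure K)} (hQ : (z.map (toSep K)).f.On Q) :
    ∃ c : Cocycle W 2, c.P = piP (W.map (toSep K)) (z.map (toSep K)) Q ∧
      ∀ σ, c.ξ σ = D (W.map (toSep K)) (z.map (toSep K)) (Q.map (galHom σ)) Q := by
  refine ⟨⟨fun σ => D (W.map (toSep K)) (z.map (toSep K)) (Q.map (galHom σ)) Q,
    piP (W.map (toSep K)) (z.map (toSep K)) Q, ?_, fun σ τ => ?_, fun σ => ?_⟩, rfl, fun _ => rfl⟩
  · exact ((cl_locConst Q.x).prodMk ((cl_locConst Q.z).prodMk (cl_locConst Q.y))).comp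
      fun p => D (W.map (toSep K)) (z.map (toSep K)) ⟨p.1, p.2.1, p.2.2⟩ Q
  · rw [galAct_D hW hz (cl_on hQ τ) hQ, add_comm]
    exact (D_add (cl_Delta hW) (hz.map _) (cl_on (cl_on hQ τ) σ) (cl_on hQ σ) hQ).symm
  · rw [cl_piP hW hz hQ]
    exact two_smul_D (cl_Delta hW) (hz.map _) (cl_on hQ σ) hQ

theorem exists_rep (hW : W.Δ ≠ 0) {z : Obj K} (hz : z.Over W) : ∃ c, Rep W z c := by
  obtain ⟨Q, hQ⟩ := exists_sep_point (hz.jac_Delta hW)
  obtain ⟨c, hc⟩ := exists_rep_of_point hW hz (Q := Q) hQ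
  exact ⟨c, Q, hQ, hc⟩

/-- two points give cohomologous cocycles, with `R = D Q' Q` -/
theorem Rep.cohomologous (hW : W.Δ ≠ 0) {z : Obj K} (hz : z.Over W) {c c' : Cocycle W 2}
    (h : Rep W z c) (h' : Rep W z c') : Cohomologous c c' := by
  obtain ⟨Q, hQ, h1, h2⟩ := h
  obtain ⟨Q', hQ', h1', h2'⟩ := h'
  refine ⟨D (W.map (toSep K)) (z.map (toSep K)) Q' Q, fun σ => ?_, ?_⟩
  · rw [h2, h2', galAct_D hW hz hQ' hQ]
    exact cl_cob hW hz hQ hQ' σ
  · rw [h1, h1']
    exact eq_add_of_sub_eq' (two_smul_D (cl_Delta hW) (hz.map _) hQ' hQ).symm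

/-- conversely a cohomologous cocycle comes from another point (`D_surjective`) -/
theorem Rep.of_cohomologous (hW : W.Δ ≠ 0) {z : Obj K} (hz : z.Over W) {c c' : Cocycle W 2}
    (h : Rep W z c) (h' : Cohomologous c c') : Rep W z c' := by
  obtain ⟨Q, hQ, h1, h2⟩ := h
  obtain ⟨R, h3, h4⟩ := h'
  obtain ⟨Q', hQ', h5⟩ := D_surjective (cl_Delta hW) (hz.map _) hQ (-R)
  have h6 : D (W.map (toSep K)) (z.map (toSep K)) Q' Q = R := by
    rw [D_symm (cl_Delta hW) (hz.map _) hQ hQ', h5]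
    exact neg_neg _
  refine ⟨Q', hQ', ?_, fun σ => ?_⟩
  · rw [h4, h1, ← h6]
    exact (eq_add_of_sub_eq' (two_smul_D (cl_Delta hW) (hz.map _) hQ' hQ).symm).symm
  · rw [h3, h2, ← h6, galAct_D hW hz hQ' hQ]
    exact (cl_cob hW hz hQ hQ' σ).symm

theorem cl_eq_mk_iff (hW : W.Δ ≠ 0) {z : Obj K} (hz : z.Over W) {c : Cocycle W 2} :
    cl W z = Quot.mk _ c ↔ Rep W z c := by
  have h := exists_rep hW hz
  rw [cl, dif_pos h]
  exact mk_eq_mk_iff.trans
    ⟨h.choose_spec.of_cohomologous hW hz, h.choose_spec.cohomologous hW hz⟩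

theorem cl_smul (hW : W.Δ ≠ 0) {z : Obj K} (hz : z.Over W) (g : G K) :
    cl W (g • z) = cl W z := by
  obtain ⟨c, hc⟩ := exists_rep hW (hz.smul g)
  rw [(cl_eq_mk_iff hW (hz.smul g)).2 hc, eq_comm, cl_eq_mk_iff hW hz]
  obtain ⟨Q, hQ, h1, h2⟩ := hc
  have h3 := cl_on hQ
  rw [Obj.map_smul] at hQ h1 h2 h3
  refine ⟨(G.map (toSep K) g).pt Q, (Model.on_pt _ _ _).2 hQ, ?_, fun σ => ?_⟩
  · rw [h1, piP_smul (cl_Delta hW) (hz.map _) _ hQ]
  · rw [h2, D_smul (cl_Delta hW) (hz.map _) _ (h3 σ) hQ, ← G.map_pt, G.map_map,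
      galHom_comp_toSep]

theorem cl_eq_triv_iff (hW : W.Δ ≠ 0) {z : Obj K} (hz : z.Over W) :
    cl W z = trivClass W 2 ↔ z.f.Triv := by
  rw [trivClass, cl_eq_mk_iff hW hz]
  constructor
  · rintro ⟨Q, hQ, h1, h2⟩
    obtain ⟨Q₀, h3⟩ := exists_rational_pt hQ.prim fun σ =>
      ((D_eq_zero_iff (cl_Delta hW) (hz.map _) (cl_on hQ σ) hQ).1 (h2 σ).symm).symm
    refine ⟨Q₀, (Model.on_map (toSep K) _ _).1 (hQ.eqv h3), ?_⟩
    have h4 := (piP_eq_zero_iff (cl_Delta hW) (hz.map _) (hQ.eqv h3)).1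
      ((piP_eqv (cl_Delta hW) (hz.map _) hQ h3).symm.trans h1.symm)
    rwa [Obj.map_f, Model.map_psi, map_eq_zero] at h4
  · rintro ⟨Q, hQ, h1⟩
    have h2 : (z.map (toSep K)).f.On (Q.map (toSep K)) := (Model.on_map (toSep K) _ _).2 hQ
    refine ⟨Q.map (toSep K), h2, ((piP_eq_zero_iff (cl_Delta hW) (hz.map _) h2).2 ?_).symm,
      fun σ => ?_⟩
    · rw [Obj.map_f, Model.map_psi, h1, map_zero]
    · have h3 : (Q.map (toSep K)).map (galHom σ) = Q.map (toSep K) := by ext <;> simp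
      rw [h3]
      exact (D_self (cl_Delta hW) (hz.map _) h2).symm

end SelAvg

/-!
The class determines the object; the local condition is solubility.
-/

namespace SelAvg

open WeierstrassCurve
open scoped Classical

universe u

variable {K : Type u} [Field K] {W : WeierstrassCurve K}

lemma cl1_fixed_mem {x : SeparableClosure K}
    (h : ∀ σ : SeparableClosure K ≃ₐ[K] SeparableClosure K, σ x = x) : ∃ x₀ : K, toSep K x₀ = x :=
  (InfiniteGalois.mem_range_algebraMap_iff_fixed x).2 h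

lemma cl1_fixed_G {g : G (SeparableClosure K)}
    (h : ∀ σ : SeparableClosure K ≃ₐ[K] SeparableClosure K, G.map (galHom σ) g = g) :
    ∃ g₀ : G K, g = G.map (toSep K) g₀ := by
  have hM : ∀ i j, ∃ x₀ : K, toSep K x₀ = (g.M : Matrix (Fin 2) (Fin 2) _) i j := fun i j =>
    cl1_fixed_mem fun σ => by
      have := congrArg (fun g : G (SeparableClosure K) => g.M.val i j) (h σ)
      simpa using this
  choose M hM using hM
  obtain ⟨μ, hμ⟩ : ∃ x₀ : K, toSep K x₀ = g.μ := cl1_fixed_mem fun σ => by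
    have := congrArg (fun g : G (SeparableClosure K) => (g.μ : SeparableClosure K)) (h σ)
    simpa using this
  obtain ⟨r0, h0⟩ : ∃ x₀ : K, toSep K x₀ = g.r0 := cl1_fixed_mem fun σ => congrArg G.r0 (h σ)
  obtain ⟨r1, h1⟩ : ∃ x₀ : K, toSep K x₀ = g.r1 := cl1_fixed_mem fun σ => congrArg G.r1 (h σ)
  obtain ⟨r2, h2⟩ : ∃ x₀ : K, toSep K x₀ = g.r2 := cl1_fixed_mem fun σ => congrArg G.r2 (h σ)
  have hμ0 : μ ≠ 0 := by
    rintro rfl
    exact g.μ.ne_zero (by rw [← hμ, map_zero])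
  have hMM : (toSep K).mapMatrix (Matrix.of M) = (g.M : Matrix (Fin 2) (Fin 2) _) := by
    exact Matrix.ext fun i j => hM i j
  have hdet : (Matrix.of M).det ≠ 0 := by
    intro h0
    have h1 := (toSep K).map_det (Matrix.of M)
    rw [h0, map_zero, hMM] at h1
    exact g.M.det_ne_zero h1.symm
  refine ⟨⟨Matrix.GeneralLinearGroup.mkOfDetNeZero _ hdet, Units.mk0 μ hμ0, r0, r1, r2⟩, ?_⟩
  refine G.ext ?_ ?_ h0.symm h1.symm h2.symm
  · exact Units.ext (Matrix.ext fun i j => (hM i j).symm)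
  · exact Units.ext hμ.symm

lemma cl1_normalise {g : G (SeparableClosure K)}
    (h : ∀ σ : SeparableClosure K ≃ₐ[K] SeparableClosure K,
      ∃ t, G.map (galHom σ) g = G.scalar t * g) (s : (SeparableClosure K)ˣ)
    (hs : ∀ (σ : SeparableClosure K ≃ₐ[K] SeparableClosure K) t,
      G.map (galHom σ) g = G.scalar t * g → σ s = t.val * s.val) :
    ∃ (g₀ : G K) (t : (SeparableClosure K)ˣ), g = G.scalar t * G.map (toSep K) g₀ := by
  obtain ⟨g₀, hg₀⟩ := cl1_fixed_G (g := G.scalar s⁻¹ * g) fun σ => by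
    obtain ⟨t, ht⟩ := h σ
    have h1 := hs σ t ht
    rw [map_mul, ht, G.map_scalar, ← mul_assoc, ← G.scalar_mul]
    congr 2
    have h2 : Units.map (galHom σ : SeparableClosure K →* SeparableClosure K) s = t * s := by
      exact Units.ext h1
    rw [map_inv, h2, mul_inv_rev, inv_mul_cancel_right]
  exact ⟨g₀, s, by rw [← hg₀, ← mul_assoc, ← G.scalar_mul, mul_inv_cancel, G.scalar_one, one_mul]⟩

/-- A group element fixed by Galois up to scalars is rational up to a scalar: divide by a nonzero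
matrix entry. -/
lemma exists_rational_G {g : G (SeparableClosure K)}
    (h : ∀ σ : SeparableClosure K ≃ₐ[K] SeparableClosure K,
      ∃ t, G.map (galHom σ) g = G.scalar t * g) :
    ∃ (g₀ : G K) (t : (SeparableClosure K)ˣ), g = G.scalar t * G.map (toSep K) g₀ := by
  by_cases h11 : g.m11 = 0
  · have h12 : g.m12 ≠ 0 := by
      intro h12
      apply g.det.ne_zero
      rw [G.det_val, h11, h12]
      ring
    refine cl1_normalise h (Units.mk0 _ h12) fun σ t ht => ?_
    have := congrArg G.m12 ht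
    simpa [G.mul_m12] using this
  · refine cl1_normalise h (Units.mk0 _ h11) fun σ t ht => ?_
    have := congrArg G.m11 ht
    simpa [G.mul_m11] using this

lemma cl1_Delta (hW : W.Δ ≠ 0) {L : Type*} [Field L] (φ : K →+* L) : (W.map φ).Δ ≠ 0 := by
  rw [WeierstrassCurve.map_Δ]
  exact (map_ne_zero φ).2 hW

lemma cl1_obj_gal (z : Obj K) (σ : SeparableClosure K ≃ₐ[K] SeparableClosure K) :
    (z.map (toSep K)).map (galHom σ) = z.map (toSep K) := by
  rw [Obj.map_map, galHom_comp_toSep]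

lemma cl1_on_gal {z : Obj K} {Q : Pt (SeparableClosure K)} (hQ : (z.map (toSep K)).f.On Q)
    (σ : SeparableClosure K ≃ₐ[K] SeparableClosure K) :
    (z.map (toSep K)).f.On (Q.map (galHom σ)) := by
  have := (Model.on_map (galHom σ) _ Q).2 hQ
  rwa [← Obj.map_f, cl1_obj_gal] at this

/-- Both objects represent the same cocycle, with points `Q`, `Q'`.  Take `g` from `exists_iso`
over the separable closure.  Then `σ g` also maps `z'` to `z`, and
`(σ g).pt (σ Q)` is equivalent to `σ Q'`, which is equivalent to `g.pt (σ Q)` because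
`D (g.pt (σ Q)) Q' = D (σ Q) Q = ξ σ = D (σ Q') Q'`.  Use `iso_unique`, `exists_rational_G`. -/
theorem exists_smul_of_cl_eq (hW : W.Δ ≠ 0) {z z' : Obj K} (hz : z.Over W) (hz' : z'.Over W)
    (h : cl W z = cl W z') : ∃ g : G K, g • z' = z := by
  obtain ⟨c, hc⟩ := exists_rep hW hz
  have hc' : Rep W z' c := (cl_eq_mk_iff hW hz').1 (h.symm.trans ((cl_eq_mk_iff hW hz).2 hc))
  obtain ⟨Q, hQ, hP, hξ⟩ := hc
  obtain ⟨Q', hQ', hP', hξ'⟩ := hc'
  have hWs := cl1_Delta hW (toSep K)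
  have hzs := hz.map (toSep K)
  have hzs' := hz'.map (toSep K)
  obtain ⟨g, hg, hgQ⟩ := exists_iso hWs hzs hzs' hQ hQ' (hP.symm.trans hP')
  have key : ∀ σ : SeparableClosure K ≃ₐ[K] SeparableClosure K,
      ∃ t, G.map (galHom σ) g = G.scalar t * g := by
    intro σ
    have hσ : G.map (galHom σ) g • z'.map (toSep K) = z.map (toSep K) := by
      have := congrArg (Obj.map (galHom σ)) hg
      rwa [Obj.map_smul, cl1_obj_gal, cl1_obj_gal] at this
    have hσQ := cl1_on_gal hQ σ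
    have hσQ' := cl1_on_gal hQ' σ
    have h1 : (g • z'.map (toSep K)).f.On (Q.map (galHom σ)) := by rwa [hg]
    have h2 : (g • z'.map (toSep K)).f.On Q := by rwa [hg]
    have h3 : (z'.map (toSep K)).f.On (g.pt (Q.map (galHom σ))) := (Model.on_pt g _ _).2 h1
    have h4 : (z'.map (toSep K)).f.On (g.pt Q) := (Model.on_pt g _ _).2 h2
    have h5 : D (W.map (toSep K)) (z'.map (toSep K)) (g.pt (Q.map (galHom σ))) Q' =
        D (W.map (toSep K)) (z'.map (toSep K)) (Q'.map (galHom σ)) Q' := by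
      rw [← D_eqv hWs hzs' h3 h4 (Pt.Eqv.refl _) hgQ, ← D_smul hWs hzs' g h1 h2, hg]
      exact (hξ σ).symm.trans (hξ' σ)
    have h6 : (g.pt (Q.map (galHom σ))).Eqv (Q'.map (galHom σ)) := by
      apply D_injective hWs hzs' hQ' h3 hσQ'
      rw [D_symm hWs hzs' h3 hQ', D_symm hWs hzs' hσQ' hQ', h5]
    refine iso_unique hWs hzs' h1 (hg.trans hσ.symm) (h6.trans ?_)
    rw [G.map_pt]
    exact (hgQ.map (galHom σ)).symm
  obtain ⟨g₀, t, hg₀⟩ := exists_rational_G key
  refine ⟨g₀, Obj.map_injective (toSep K).injective ?_⟩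
  rw [Obj.map_smul, ← hg, hg₀, mul_smul, Obj.scalar_smul]

/-- every element of the Galois group of `L` restricts along `ι` -/
lemma exists_restrict {L : Type u} [Field L] [Algebra K L]
    (ι : SeparableClosure K →ₐ[K] SeparableClosure L)
    (σ : SeparableClosure L ≃ₐ[L] SeparableClosure L) :
    ∃ τ : SeparableClosure K ≃ₐ[K] SeparableClosure K, ∀ x, σ (ι x) = ι (τ x) := by
  let _ : Algebra (SeparableClosure K) (SeparableClosure L) := ι.toRingHom.toAlgebra
  have _ : IsScalarTower K (SeparableClosure K) (SeparableClosure L) :=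
    IsScalarTower.of_algebraMap_eq fun x => (ι.commutes x).symm
  exact ⟨(σ.restrictScalars K).restrictNormal (SeparableClosure K), fun x =>
    ((σ.restrictScalars K).restrictNormal_commutes (SeparableClosure K) x).symm⟩

lemma exists_embedding (L : Type u) [Field L] [Algebra K L] :
    Nonempty (SeparableClosure K →ₐ[K] SeparableClosure L) :=
  ⟨IsSepClosed.lift⟩

lemma cl1_toRaw_D_congr {L : Type*} [Field L] {W₁ W₂ : WeierstrassCurve L} {z₁ z₂ : Obj L}
    (hW : W₁ = W₂) (hz : z₁ = z₂) (Q Q' : Pt L) :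
    toRaw (D W₁ z₁ Q Q') = toRaw (D W₂ z₂ Q Q') := by
  subst hW hz
  rfl

lemma cl1_toRaw_piP_congr {L : Type*} [Field L] {W₁ W₂ : WeierstrassCurve L} {z₁ z₂ : Obj L}
    (hW : W₁ = W₂) (hz : z₁ = z₂) (Q : Pt L) :
    toRaw (piP W₁ z₁ Q) = toRaw (piP W₂ z₂ Q) := by
  subst hW hz
  rfl

section BaseChange

variable {L L' : Type u} [Field L] [Field L'] [Algebra K L] [Algebra K L']

lemma cl1_comp (φ : L →ₐ[K] L') : φ.toRingHom.comp (algebraMap K L) = algebraMap K L' := by
  ext x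
  simp

lemma cl1_obj_map (z : Obj K) (φ : L →ₐ[K] L') :
    (z.map (algebraMap K L)).map φ.toRingHom = z.map (algebraMap K L') := by
  rw [Obj.map_map, cl1_comp]

lemma cl1_W_map (W : WeierstrassCurve K) (φ : L →ₐ[K] L') :
    (W.map (algebraMap K L)).map φ.toRingHom = W.map (algebraMap K L') := by
  rw [WeierstrassCurve.map_map, cl1_comp]

lemma cl1_on_map {z : Obj K} (φ : L →ₐ[K] L') {Q : Pt L} :
    (z.map (algebraMap K L')).f.On (Q.map φ.toRingHom) ↔ (z.map (algebraMap K L)).f.On Q := by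
  rw [← cl1_obj_map z φ]
  exact Model.on_map _ _ _

lemma cl1_ptMap_D (hW : W.Δ ≠ 0) {z : Obj K} (hz : z.Over W) (φ : L →ₐ[K] L') {Q Q' : Pt L}
    (hQ : (z.map (algebraMap K L)).f.On Q) (hQ' : (z.map (algebraMap K L)).f.On Q') :
    ptMap W φ (D (W.map (algebraMap K L)) (z.map (algebraMap K L)) Q Q') =
      D (W.map (algebraMap K L')) (z.map (algebraMap K L')) (Q.map φ.toRingHom)
        (Q'.map φ.toRingHom) := by
  apply toRaw_injective (W := W.map (algebraMap K L'))
  rw [toRaw_ptMap, ← toRaw_D_map φ.toRingHom (cl1_Delta hW _) (hz.map _) hQ hQ']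
  exact cl1_toRaw_D_congr (cl1_W_map W φ) (cl1_obj_map z φ) _ _

lemma cl1_ptMap_piP (hW : W.Δ ≠ 0) {z : Obj K} (hz : z.Over W) (φ : L →ₐ[K] L') {Q : Pt L}
    (hQ : (z.map (algebraMap K L)).f.On Q) :
    ptMap W φ (piP (W.map (algebraMap K L)) (z.map (algebraMap K L)) Q) =
      piP (W.map (algebraMap K L')) (z.map (algebraMap K L')) (Q.map φ.toRingHom) := by
  apply toRaw_injective (W := W.map (algebraMap K L'))
  rw [toRaw_ptMap, ← toRaw_piP_map φ.toRingHom (cl1_Delta hW _) (hz.map _) hQ]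
  exact cl1_toRaw_piP_congr (cl1_W_map W φ) (cl1_obj_map z φ) _

end BaseChange

/-- If `Q₀` is an `L`-point take `R = D (ι Q) Q₀` up to sign and `S = piP Q₀`
(`two_smul_D`, `D_add`, `toRaw_D_map`).  Conversely take the point `Q₀` with the prescribed
difference to `ι Q`; it is fixed by the Galois group of `L` (`D_injective`), hence rational
(`exists_rational_pt` for `L`). -/
theorem isKummer_iff_soluble (hW : W.Δ ≠ 0) {z : Obj K} (hz : z.Over W) {c : Cocycle W 2}
    (h : Rep W z c) (L : Type u) [Field L] [Algebra K L] :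
    c.IsKummer L ↔ (z.f.map (algebraMap K L)).Soluble := by
  obtain ⟨Q, hQ, hP, hξ⟩ := h
  have hWs := cl1_Delta hW (algebraMap K (SeparableClosure L))
  have hzs := hz.map (algebraMap K (SeparableClosure L))
  have hι : ∀ (ι : SeparableClosure K →ₐ[K] SeparableClosure L)
      (σ : SeparableClosure L ≃ₐ[L] SeparableClosure L)
      (τ : SeparableClosure K ≃ₐ[K] SeparableClosure K), (∀ x, σ (ι x) = ι (τ x)) →
      ptMap W ι (c.ξ τ) = D (W.map (algebraMap K (SeparableClosure L)))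
        (z.map (algebraMap K (SeparableClosure L))) ((Q.map ι.toRingHom).map (galHom σ))
        (Q.map ι.toRingHom) := by
    intro ι σ τ hστ
    have e : (Q.map (galHom τ)).map ι.toRingHom = (Q.map ι.toRingHom).map (galHom σ) := by
      exact Pt.ext (hστ _).symm (hστ _).symm (hστ _).symm
    rw [hξ τ, ← e]
    exact cl1_ptMap_D hW hz ι (cl1_on_gal hQ τ) hQ
  have hon : ∀ (σ : SeparableClosure L ≃ₐ[L] SeparableClosure L) {Q₁ : Pt (SeparableClosure L)},
      (z.map (algebraMap K (SeparableClosure L))).f.On Q₁ →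
      (z.map (algebraMap K (SeparableClosure L))).f.On (Q₁.map (galHom σ)) := fun σ Q₁ h₁ =>
    (cl1_on_map ((σ : SeparableClosure L →ₐ[L] SeparableClosure L).restrictScalars K)).2 h₁
  have hgal : ∀ (σ : SeparableClosure L ≃ₐ[L] SeparableClosure L) {Q₁ Q₂ : Pt (SeparableClosure L)},
      (z.map (algebraMap K (SeparableClosure L))).f.On Q₁ →
      (z.map (algebraMap K (SeparableClosure L))).f.On Q₂ →
      galAct W L σ (D (W.map (algebraMap K (SeparableClosure L)))
        (z.map (algebraMap K (SeparableClosure L))) Q₁ Q₂) =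
      D (W.map (algebraMap K (SeparableClosure L))) (z.map (algebraMap K (SeparableClosure L)))
        (Q₁.map (galHom σ)) (Q₂.map (galHom σ)) := fun σ Q₁ Q₂ h₁ h₂ =>
    cl1_ptMap_D hW hz ((σ : SeparableClosure L →ₐ[L] SeparableClosure L).restrictScalars K) h₁ h₂
  constructor
  · intro hK
    obtain ⟨ι⟩ := exists_embedding (K := K) L
    obtain ⟨S, R, hR, -⟩ := hK ι
    have h₁ : (z.map (algebraMap K (SeparableClosure L))).f.On (Q.map ι.toRingHom) :=
      (cl1_on_map ι).2 hQ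
    obtain ⟨Q₂, h₂, hD⟩ := D_surjective hWs hzs h₁ R
    have hfix : ∀ σ : SeparableClosure L ≃ₐ[L] SeparableClosure L, Q₂.Eqv (Q₂.map (galHom σ)) := by
      intro σ
      obtain ⟨τ, hτ⟩ := exists_restrict ι σ
      have h3 := hR σ τ hτ
      rw [hι ι σ τ hτ, ← hD, hgal σ h₁ h₂] at h3
      apply D_injective hWs hzs (hon σ h₁) h₂ (hon σ h₂)
      rw [← D_add hWs hzs (hon σ h₁) h₁ h₂]
      exact eq_sub_iff_add_eq.1 h3
    obtain ⟨Q₀, hQ₀⟩ := exists_rational_pt h₂.prim hfix
    exact ⟨Q₀, (cl1_on_map (IsScalarTower.toAlgHom K L (SeparableClosure L))).1 (h₂.eqv hQ₀)⟩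
  · rintro ⟨Q₀, hQ₀⟩ ι
    have h₁ : (z.map (algebraMap K (SeparableClosure L))).f.On (Q.map ι.toRingHom) :=
      (cl1_on_map ι).2 hQ
    have h₀ : (z.map (algebraMap K (SeparableClosure L))).f.On (Q₀.map (toSep L)) :=
      (cl1_on_map (IsScalarTower.toAlgHom K L (SeparableClosure L))).2 hQ₀
    refine ⟨piP (W.map (algebraMap K L)) (z.map (algebraMap K L)) Q₀,
      D (W.map (algebraMap K (SeparableClosure L))) (z.map (algebraMap K (SeparableClosure L)))
        (Q.map ι.toRingHom) (Q₀.map (toSep L)), fun σ τ hτ => ?_, ?_⟩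
    · have e : (Q₀.map (toSep L)).map (galHom σ) = Q₀.map (toSep L) := by
        ext <;> simp
      rw [hι ι σ τ hτ, hgal σ h₁ h₀, e]
      exact eq_sub_iff_add_eq.2 (D_add hWs hzs (hon σ h₁) h₁ h₀)
    · rw [hP, cl1_ptMap_piP hW hz ι hQ,
        cl1_ptMap_piP hW hz (IsScalarTower.toAlgHom K L (SeparableClosure L)) hQ₀]
      exact (eq_sub_iff_add_eq'.1 (two_smul_D hWs hzs h₁ h₀)).symm

theorem cl_mem_Sel_iff (hW : W.Δ ≠ 0) {z : Obj K} (hz : z.Over W) :
    cl W z ∈ Sel W 2 ↔ ∀ v : Place K, (z.f.map (algebraMap K v.Compl)).Soluble := by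
  obtain ⟨c, hc⟩ := exists_rep hW hz
  rw [(cl_eq_mk_iff hW hz).2 hc]
  exact mk_mem_Sel_iff.trans (forall_congr' fun v => isKummer_iff_soluble hW hz hc v.Compl)

end SelAvg

/-!
Automorphisms of objects.
-/

namespace SelAvg

open WeierstrassCurve
open scoped Classical

universe u

variable {K : Type u} [Field K] {W : WeierstrassCurve K}

/-- no rational point of order 2 -/
def NoTwoTorsion (W : WeierstrassCurve K) : Prop :=
  ∀ x y : K, W.toAffine.Equation x y → 2 * y + W.a₁ * x + W.a₃ ≠ 0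

lemma cl2_smul (C : VariableChange K) {W : WeierstrassCurve K} (h : NoTwoTorsion W) :
    NoTwoTorsion (C • W) := by
  intro x y hxy h0
  refine h _ _ ((valid_vcRaw C W (some (x, y))).2 hxy) ?_
  rw [variableChange_a₁, variableChange_a₃] at h0
  have hu : (C.u : K) * ((C.u⁻¹ : Kˣ) : K) = 1 := C.u.mul_inv
  linear_combination (C.u : K) ^ 3 * h0 - ((C.u : K) ^ 2 * (W.a₁ + 2 * C.s) * x +
    (W.a₃ + C.r * W.a₁ + 2 * C.t) * (((C.u : K) * ((C.u⁻¹ : Kˣ) : K)) ^ 2 +
      (C.u : K) * ((C.u⁻¹ : Kˣ) : K) + 1)) * hu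

lemma noTwoTorsion_smul (C : VariableChange K) (W : WeierstrassCurve K) :
    NoTwoTorsion (C • W) ↔ NoTwoTorsion W := by
  exact ⟨fun h => by simpa using cl2_smul C⁻¹ h, cl2_smul C⟩

section
variable {L : Type*} [Field L] {V : WeierstrassCurve L} {w : Obj L}

lemma cl2_on {g : G L} (hg : g • w = w) {Q : Pt L} (hQ : w.f.On Q) : w.f.On (g.pt Q) := by
  rw [Model.on_pt, ← Obj.smul_f, hg]; exact hQ

lemma cl2_tors (hV : V.Δ ≠ 0) (hw : w.Over V) {g : G L} (hg : g • w = w) {Q : Pt L}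
    (hQ : w.f.On Q) {x y : L} (h : toRaw (D V w Q (g.pt Q)) = some (x, y)) :
    V.toAffine.Equation x y ∧ 2 * y + V.a₁ * x + V.a₃ = 0 := by
  have h2 := (aut_translation hV hw hg hQ hQ).2
  generalize D V w Q (g.pt Q) = P at h h2
  rcases P with _ | ⟨x', y', hn⟩
  · cases h
  · obtain ⟨rfl, rfl⟩ := Prod.mk.inj (Option.some.inj h)
    exact ⟨hn.1, (two_smul_eq_zero_iff hn).1 h2⟩

lemma cl2_card (hV : V.Δ ≠ 0) (hw : w.Over V) {Q : Pt L} (hQ : w.f.On Q) (s : Finset (G L))
    (hs : ∀ g ∈ s, g • w = w) (hs' : ∀ g ∈ s, ∀ g' ∈ s, ∀ t : Lˣ, g' = G.scalar t * g → g = g') :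
    s.card ≤ 4 := by
  rw [← Finset.card_image_of_injOn (f := fun g : G L => D V w Q (g.pt Q))]
  · refine two_torsion_le hV _ fun P hP => ?_
    obtain ⟨g, hg, rfl⟩ := Finset.mem_image.1 hP
    exact (aut_translation hV hw (hs g hg) hQ hQ).2
  · intro g hg g' hg' h
    obtain ⟨t, ht⟩ := iso_unique hV hw (Q := Q) (g := g) (g' := g') (by rw [hs g hg]; exact hQ)
      (by rw [hs g hg, hs g' hg'])
      (D_injective hV hw hQ (cl2_on (hs g hg) hQ) (cl2_on (hs g' hg') hQ) h)
    exact hs' g hg g' hg' t ht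

/-- scalars descend -/
lemma cl2_desc (φ : K →+* L) {g : G K} {t : Lˣ} (h : G.map φ g = G.scalar t) :
    ∃ t₀ : Kˣ, g = G.scalar t₀ := by
  have h1 : φ g.m11 = t := by simpa using congrArg G.m11 h
  have h0 : g.m11 ≠ 0 := fun e => t.ne_zero (by rw [← h1, e, map_zero])
  refine ⟨Units.mk0 _ h0, G.map_injective φ.injective ?_⟩
  rw [h, G.map_scalar]
  congr 1
  ext
  simpa using h1.symm

lemma cl2_Delta (φ : K →+* L) (hW : W.Δ ≠ 0) : (W.map φ).Δ ≠ 0 := by
  rw [map_Δ]; exact (map_ne_zero φ).2 hW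

end

/-- `D Q (g.pt Q)` over the separable closure is a Galois invariant 2-torsion point
(`aut_translation`), hence rational, hence zero; then `eq_scalar_of_fix`. -/
theorem aut_eq_scalar (hW : W.Δ ≠ 0) (h2 : NoTwoTorsion W) {z : Obj K} (hz : z.Over W) {g : G K}
    (hg : g • z = z) : ∃ t : Kˣ, g = G.scalar t := by
  obtain ⟨Q, hQ⟩ : ∃ Q, (z.map (toSep K)).f.On Q := exists_sep_point (hz.jac_Delta hW)
  have hV := cl2_Delta (toSep K) hW
  have hw := hz.map (toSep K)
  have hg' : G.map (toSep K) g • z.map (toSep K) = z.map (toSep K) := by rw [← Obj.map_smul, hg]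
  have hQ' := cl2_on hg' hQ
  rcases h : toRaw (D (W.map (toSep K)) (z.map (toSep K)) Q ((G.map (toSep K) g).pt Q)) with
    _ | ⟨x, y⟩
  · obtain ⟨t, ht⟩ := eq_scalar_of_fix hV hw hQ hg'
      ((D_eq_zero_iff hV hw hQ hQ').1 (toRaw_eq_none.1 h)).symm
    exact cl2_desc _ ht
  · exfalso
    obtain ⟨e1, e2⟩ := cl2_tors hV hw hg' hQ h
    have fix : ∀ σ : SeparableClosure K ≃ₐ[K] SeparableClosure K, σ x = x ∧ σ y = y := fun σ => by
      have hσ : (z.map (toSep K)).f.On (Q.map (galHom σ)) := by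
        have := (Model.on_map (galHom σ) (z.map (toSep K)).f Q).2 hQ
        rwa [← Obj.map_f, Obj.map_map, galHom_comp_toSep] at this
      have h1 := toRaw_D_map (galHom σ) hV hw hQ hQ'
      rw [← G.map_pt, G.map_map, Obj.map_map, map_map, galHom_comp_toSep,
        ← (aut_translation hV hw hg' hQ hσ).1, h] at h1
      obtain ⟨a, b⟩ := Prod.mk.inj (Option.some.inj h1)
      exact ⟨a.symm, b.symm⟩
    obtain ⟨x₀, rfl⟩ := (InfiniteGalois.mem_range_algebraMap_iff_fixed x).2 fun σ => (fix σ).1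
    obtain ⟨y₀, rfl⟩ := (InfiniteGalois.mem_range_algebraMap_iff_fixed y).2 fun σ => (fix σ).2
    refine h2 x₀ y₀ ((valid_rawMap (toSep K) W (some (x₀, y₀))).1 e1) ((toSep K).injective ?_)
    simpa [map_ofNat] using e2

/-- at most four automorphisms modulo scalars (`two_torsion_le`) -/
theorem aut_card_le (hW : W.Δ ≠ 0) {z : Obj K} (hz : z.Over W) (s : Finset (G K))
    (hs : ∀ g ∈ s, g • z = z) (hs' : ∀ g ∈ s, ∀ g' ∈ s, ∀ t : Kˣ, g' = G.scalar t * g → g = g') :
    s.card ≤ 4 := by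
  obtain ⟨Q, hQ⟩ : ∃ Q, (z.map (toSep K)).f.On Q := exists_sep_point (hz.jac_Delta hW)
  rw [← Finset.card_image_of_injective s (G.map_injective (toSep K).injective)]
  refine cl2_card (cl2_Delta (toSep K) hW) (hz.map (toSep K)) hQ _ (fun g hg => ?_)
    fun g hg g' hg' t ht => ?_
  · obtain ⟨a, ha, rfl⟩ := Finset.mem_image.1 hg
    rw [← Obj.map_smul, hs a ha]
  · obtain ⟨a, ha, rfl⟩ := Finset.mem_image.1 hg
    obtain ⟨b, hb, rfl⟩ := Finset.mem_image.1 hg'
    obtain ⟨t₀, h₀⟩ := cl2_desc (toSep K) (g := b * a⁻¹) (t := t)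
      (by rw [map_mul, map_inv, ht, mul_inv_cancel_right])
    rw [hs' a ha b hb t₀ (by rw [← h₀, inv_mul_cancel_right])]

end SelAvg

/-!
Hilbert 90 for `GL_n` and for the additive group, for possibly infinite Galois extensions.
-/

namespace SelAvg

open Matrix

variable {K Ω : Type*} [Field K] [Field Ω] [Algebra K Ω] [IsGalois K Ω]

/-- the fixed vectors of the twisted action span the whole space -/
lemma speiser_span {n : Type*} [Fintype n] [DecidableEq n] (A : (Ω ≃ₐ[K] Ω) → Matrix n n Ω)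
    (hA : ∀ σ τ, A (σ * τ) = (A τ).map σ * A σ) (N : IntermediateField K Ω)
    [FiniteDimensional K N] [Normal K N] (hN : ∀ σ ∈ N.fixingSubgroup, A σ = 1) :
    ⊤ ≤ Submodule.span Ω {w : n → Ω | ∀ σ : Ω ≃ₐ[K] Ω, (fun j => σ (w j)) ᵥ* A σ = w} := by
  classical
  choose l hl using AlgEquiv.restrictNormalHom_surjective (F := K) (K₁ := N) (E := Ω)
  have hdep : ∀ σ, A σ = A (l (AlgEquiv.restrictNormalHom N σ)) := by
    intro σ
    have hν : (l (AlgEquiv.restrictNormalHom N σ))⁻¹ * σ ∈ N.fixingSubgroup := by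
      rw [← IntermediateField.restrictNormalHom_ker, MonoidHom.mem_ker, map_mul, map_inv, hl,
        inv_mul_cancel]
    have h1 := hA (l (AlgEquiv.restrictNormalHom N σ)) ((l (AlgEquiv.restrictNormalHom N σ))⁻¹ * σ)
    rw [mul_inv_cancel_left, hN _ hν, Matrix.map_one _ (map_zero _) (map_one _), one_mul] at h1
    exact h1
  have hfix : ∀ (c : N) (i : n) (σ : Ω ≃ₐ[K] Ω),
      (fun j => σ ((∑ s : N ≃ₐ[K] N, ((s c : N) : Ω) • A (l s) i) j)) ᵥ* A σ =
        ∑ s : N ≃ₐ[K] N, ((s c : N) : Ω) • A (l s) i := by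
    intro c i σ
    have e1 : (fun j => σ ((∑ s : N ≃ₐ[K] N, ((s c : N) : Ω) • A (l s) i) j)) =
        ∑ s : N ≃ₐ[K] N, σ ((s c : N) : Ω) • ((A (l s)).map σ) i := by
      funext j
      simp [Finset.sum_apply, map_sum]
    rw [e1, Matrix.sum_vecMul]
    refine Fintype.sum_equiv (Equiv.mulLeft (AlgEquiv.restrictNormalHom N σ)) _ _ fun s => ?_
    have e2 : ((A (l s)).map σ) i ᵥ* A σ = A (l (AlgEquiv.restrictNormalHom N σ * s)) i := by
      have e3 : A (l (AlgEquiv.restrictNormalHom N σ * s)) = (A (l s)).map σ * A σ := by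
        rw [← hA, hdep (σ * l s), map_mul, hl]
      rw [e3]
      rfl
    rw [Matrix.smul_vecMul, e2, Equiv.coe_mulLeft, AlgEquiv.mul_apply,
      AlgEquiv.restrictNormalHom_apply]
  by_contra hlt
  obtain ⟨f, hf0, hf⟩ := Submodule.exists_le_ker_of_lt_top _ (lt_top_iff_ne_top.2 fun h =>
    hlt (h ▸ le_rfl))
  have hli : LinearIndependent Ω (fun s : N ≃ₐ[K] N => fun c : N => ((s c : N) : Ω)) := by
    refine (linearIndependent_monoidHom N Ω).comp
      (fun s : N ≃ₐ[K] N => ((N.val.comp s.toAlgHom : N →ₐ[K] Ω) : N →* Ω)) ?_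
    intro s t hst
    ext c
    exact DFunLike.congr_fun hst c
  have hrow : ∀ (i : n) (s : N ≃ₐ[K] N), f (A (l s) i) = 0 := by
    intro i
    refine Fintype.linearIndependent_iff.1 hli (fun s => f (A (l s) i)) ?_
    funext c
    have h1 : f (∑ s : N ≃ₐ[K] N, ((s c : N) : Ω) • A (l s) i) = 0 :=
      hf (Submodule.subset_span (hfix c i))
    rw [map_sum] at h1
    simp only [map_smul, smul_eq_mul] at h1
    simp only [Finset.sum_apply, Pi.smul_apply, smul_eq_mul, Pi.zero_apply]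
    rw [← h1]
    exact Finset.sum_congr rfl fun s _ => mul_comm _ _
  apply hf0
  refine (Pi.basisFun Ω n).ext fun i => ?_
  have h1 := hrow i 1
  have h2 : A (l 1) = 1 := by
    apply hN
    rw [← IntermediateField.restrictNormalHom_ker, MonoidHom.mem_ker, hl]
  rw [h2] at h1
  rw [LinearMap.zero_apply, ← h1]
  congr 1
  funext j
  simp [Matrix.one_apply, Pi.single_apply, eq_comm]

/-- Replace `E` by its normal closure `N` (finite Galois over `K`).  `A σ` only depends on the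
restriction of `σ` to `N` (`A (σ * ν) = A σ` for `ν` fixing `N`).  Choose lifts `s̃` of the elements
`s` of `Gal(N / K)` (`AlgEquiv.restrictNormalHom_surjective`).  For `c ∈ N` and an index `i` the
vector `∑ s, s c • (row i of A s̃)` is fixed by `w ↦ (σ w) ᵥ* A σ`.  If these vectors did not span,
a nonzero linear form kills them all, and `linearIndependent_algHom_toLinearMap` shows that it
kills the rows of `A 1 = 1`.  Finally extract a basis from the spanning set
(`exists_linearIndependent`, or `Basis.ofSpan`) and use it as the rows of `B`. -/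
theorem speiser {n : Type*} [Fintype n] [DecidableEq n] (A : (Ω ≃ₐ[K] Ω) → Matrix n n Ω)
    (hA : ∀ σ τ, A (σ * τ) = (A τ).map σ * A σ) (E : IntermediateField K Ω)
    [FiniteDimensional K E] (hE : ∀ σ ∈ E.fixingSubgroup, A σ = 1) :
    ∃ B : Matrix n n Ω, B.det ≠ 0 ∧ ∀ σ : Ω ≃ₐ[K] Ω, B.map σ * A σ = B := by
  have hs := speiser_span A hA (IntermediateField.normalClosure K E Ω) fun σ hσ =>
    hE σ (IntermediateField.fixingSubgroup_antitone E.le_normalClosure hσ)
  let b := (Module.Basis.ofSpan hs).reindex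
    ((Module.Basis.ofSpan hs).indexEquiv (Pi.basisFun Ω n))
  have hb : ∀ i, ∀ σ : Ω ≃ₐ[K] Ω, (fun j => σ (b i j)) ᵥ* A σ = b i := by
    intro i
    apply Module.Basis.ofSpan_subset hs
    exact ⟨_, (Module.Basis.reindex_apply _ _ i).symm⟩
  refine ⟨Matrix.of fun i => b i, ?_, fun σ => ?_⟩
  · have h1 : IsUnit (Matrix.of fun i => b i) :=
      Matrix.linearIndependent_rows_iff_isUnit.1 b.linearIndependent
    exact ((Matrix.isUnit_iff_isUnit_det _).1 h1).ne_zero
  · ext i j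
    exact congrFun (hb i σ) j

/-- Additive Hilbert 90: apply `speiser` to the matrices `!![1, 0; r σ, 1]`; some row of `B` has a
nonzero second entry, which is fixed by all `σ`. -/
theorem additive_h90 (r : (Ω ≃ₐ[K] Ω) → Ω) (hr : ∀ σ τ, r (σ * τ) = σ (r τ) + r σ)
    (E : IntermediateField K Ω) [FiniteDimensional K E] (hE : ∀ σ ∈ E.fixingSubgroup, r σ = 0) :
    ∃ w : Ω, ∀ σ, r σ = w - σ w := by
  obtain ⟨B, hB, hfix⟩ := speiser (fun σ => !![1, 0; r σ, 1]) (fun σ τ => by
    ext i j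
    fin_cases i <;> fin_cases j <;> simp [Matrix.mul_apply, Fin.sum_univ_two, hr]) E
    (fun σ hσ => by rw [hE σ hσ, Matrix.one_fin_two])
  have key : ∀ i : Fin 2, B i 1 ≠ 0 → ∃ w : Ω, ∀ σ, r σ = w - σ w := by
    intro i hi
    refine ⟨B i 0 / B i 1, fun σ => ?_⟩
    have h0 := congrFun (congrFun (hfix σ) i) 0
    have h1 := congrFun (congrFun (hfix σ) i) 1
    simp [Matrix.mul_apply, Fin.sum_univ_two] at h0 h1
    rw [map_div₀, h1]
    rw [h1] at h0
    field_simp
    linear_combination h0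
  by_cases h0 : B 0 1 = 0
  · refine key 1 fun h1 => hB ?_
    rw [Matrix.det_fin_two, h0, h1]
    ring
  · exact key 0 h0

end SelAvg

/-!
The conic attached to a projective cocycle.
-/

namespace SelAvg

open Matrix

universe u

variable {K : Type u} [Field K]

/-- a family of matrices which is a continuous cocycle modulo scalars -/
structure ProjCocycle (M : (SeparableClosure K ≃ₐ[K] SeparableClosure K) →
    GL (Fin 2) (SeparableClosure K)) : Prop where
  mul : ∀ σ τ, ∃ t, M (σ * τ) = G.scM t * (GeneralLinearGroup.map (galHom σ) (M τ) * M σ)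
  cont : ∃ E : IntermediateField K (SeparableClosure K), FiniteDimensional K E ∧
    ∀ σ ∈ E.fixingSubgroup, ∃ t, M σ = G.scM t

/-- the twisted action of the Galois group of `L` on the projective line has a fixed point -/
def HasFixedPoint (M : (SeparableClosure K ≃ₐ[K] SeparableClosure K) →
    GL (Fin 2) (SeparableClosure K)) (L : Type u) [Field L] [Algebra K L] : Prop :=
  ∃ (ι : SeparableClosure K →ₐ[K] SeparableClosure L) (x z : SeparableClosure L),
    (x ≠ 0 ∨ z ≠ 0) ∧ ∀ σ : SeparableClosure L ≃ₐ[L] SeparableClosure L,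
      ∃ (τ : SeparableClosure K ≃ₐ[K] SeparableClosure K) (t : SeparableClosure L),
        (∀ a, σ (ι a) = ι (τ a)) ∧ t ≠ 0 ∧
        σ x * ι ((M τ).1 0 0) + σ z * ι ((M τ).1 1 0) = t * x ∧
        σ x * ι ((M τ).1 0 1) + σ z * ι ((M τ).1 1 1) = t * z

variable {M : (SeparableClosure K ≃ₐ[K] SeparableClosure K) → GL (Fin 2) (SeparableClosure K)}

lemma desc1_fixed {x : SeparableClosure K}
    (h : ∀ σ : SeparableClosure K ≃ₐ[K] SeparableClosure K, σ x = x) : ∃ a, toSep K a = x :=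
  (InfiniteGalois.mem_range_algebraMap_iff_fixed x).2 h

lemma desc1_tstd {R S : Type*} [CommRing R] [CommRing S] (φ : R →+* S) :
    (fun i => φ (tstd i)) = tstd := by
  funext i
  fin_cases i <;> simp [tstd]

lemma desc1_tcomp {R S : Type*} [CommRing R] [CommRing S] (φ : R →+* S)
    (B : Matrix (Fin 3) (Fin 3) R) : tcomp tstd (B.map φ) = fun i => φ (tcomp tstd B i) := by
  rw [← tcomp_map, desc1_tstd]

lemma desc1_vecMul {R S : Type*} [CommRing R] [CommRing S] (φ : R →+* S) (c : Fin 3 → R)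
    (B : Matrix (Fin 3) (Fin 3) R) : (fun i => φ (c i)) ᵥ* B.map φ = fun i => φ ((c ᵥ* B) i) := by
  funext i
  simp [vecMul, dotProduct]

/-- Apply `speiser` to `rho (M σ)`.  The coefficients of `tcomp tstd B` and `det B` are fixed by
the Galois group (`tcomp_map`, `tcomp_mul`, `tcomp_tstd_rho`, `rho_det`). -/
theorem ProjCocycle.exists_conic (hM : ProjCocycle M) :
    ∃ (B : Matrix (Fin 3) (Fin 3) (SeparableClosure K)) (a : Fin 6 → K) (δ : K),
      δ ≠ 0 ∧ B.det = toSep K δ ∧ hd a = δ ^ 2 ∧ (∀ σ, B.map (galHom σ) * rho (M σ) = B) ∧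
      tcomp tstd B = fun i => toSep K (a i) := by
  obtain ⟨E, hE, hE'⟩ := hM.cont
  obtain ⟨B, hB, hfix⟩ := speiser (fun σ => rho (M σ)) (fun σ τ => by
    obtain ⟨t, ht⟩ := hM.mul σ τ
    rw [ht, rho_mul, rho_scM, one_mul, rho_mul, rho_map]
    rfl) E fun σ hσ => by
    obtain ⟨t, ht⟩ := hE' σ hσ
    rw [ht, rho_scM]
  have hfix' : ∀ σ, B.map (galHom σ) * rho (M σ) = B := hfix
  obtain ⟨δ, hδ⟩ := desc1_fixed (x := B.det) fun σ => by
    have := congrArg Matrix.det (hfix' σ)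
    rw [det_mul, rho_det, mul_one] at this
    exact ((galHom σ).map_det B).trans this
  have ha : ∀ i, ∃ a, toSep K a = tcomp tstd B i := fun i => desc1_fixed fun σ => by
    have := congrArg (tcomp tstd) (hfix' σ)
    rw [tcomp_mul, tcomp_tstd_rho, desc1_tcomp] at this
    exact congrFun this i
  choose a ha using ha
  refine ⟨B, a, δ, fun e => hB (by rw [← hδ, e, map_zero]), hδ.symm, (toSep K).injective ?_,
    hfix', funext fun i => (ha i).symm⟩
  rw [← hd_map, funext ha, hd_tcomp, hd_tstd, mul_one, map_pow, hδ]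

/-- Write `(x^2, x z, z^2) = c ᵥ* B.map ι`.  Then `σ c` is proportional to `c` for all `σ`
(`vecMul_rho`), so after dividing by a nonzero coordinate `c` is defined over `L`. -/
theorem isotropic_of_hasFixedPoint {B : Matrix (Fin 3) (Fin 3) (SeparableClosure K)}
    {a : Fin 6 → K} (hB : B.det ≠ 0) (hfix : ∀ σ, B.map (galHom σ) * rho (M σ) = B)
    (ha : tcomp tstd B = fun i => toSep K (a i)) (L : Type u) [Field L] [Algebra K L]
    (h : HasFixedPoint M L) : Isotropic (fun i => algebraMap K L (a i)) := by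
  obtain ⟨ι, x, z, hxz, h⟩ := h
  let φ : SeparableClosure K →+* SeparableClosure L := ι.toRingHom
  have hB' : IsUnit (B.map φ).det :=
    IsUnit.mk0 _ fun e => (map_ne_zero φ).2 hB ((φ.map_det B).trans e)
  obtain ⟨c, hc⟩ : ∃ c, c ᵥ* B.map φ = ![x ^ 2, x * z, z ^ 2] :=
    ⟨![x ^ 2, x * z, z ^ 2] ᵥ* (B.map φ)⁻¹, by rw [vecMul_vecMul, nonsing_inv_mul _ hB', vecMul_one]⟩
  have hinj : ∀ u v, u ᵥ* B.map φ = v ᵥ* B.map φ → u = v := fun u v e => by
    have := congrArg (· ᵥ* (B.map φ)⁻¹) e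
    simpa only [vecMul_vecMul, mul_nonsing_inv _ hB', vecMul_one] using this
  obtain ⟨i, hi⟩ : ∃ i, c i ≠ 0 := by
    by_contra hn
    have e : c = 0 := funext fun i => not_not.1 fun k => hn ⟨i, k⟩
    rw [e, zero_vecMul] at hc
    rcases hxz with k | k
    · exact pow_ne_zero 2 k (congrFun hc 0).symm
    · exact pow_ne_zero 2 k (congrFun hc 2).symm
  have hs : ∀ σ : SeparableClosure L ≃ₐ[L] SeparableClosure L, ∃ s, ∀ j, σ (c j) = s * c j := by
    intro σ
    obtain ⟨τ, t, h1, -, h2, h3⟩ := h σ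
    have e1 : (B.map φ).map (galHom σ) * rho (GeneralLinearGroup.map φ (M τ)) = B.map φ := by
      have e : (B.map φ).map (galHom σ) = (B.map (galHom τ)).map φ :=
        Matrix.ext fun i j => h1 _
      rw [e, rho_map, ← Matrix.map_mul, hfix]
    have e2 : (fun i => galHom σ (![x ^ 2, x * z, z ^ 2] i)) =
        ![σ x ^ 2, σ x * σ z, σ z ^ 2] := by
      funext i
      fin_cases i <;> simp
    have h2' : σ x * (GeneralLinearGroup.map φ (M τ)).1 0 0
      + σ z * (GeneralLinearGroup.map φ (M τ)).1 1 0 = t * x := h2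
    have h3' : σ x * (GeneralLinearGroup.map φ (M τ)).1 0 1
      + σ z * (GeneralLinearGroup.map φ (M τ)).1 1 1 = t * z := h3
    refine ⟨_, congrFun (hinj (fun j => galHom σ (c j))
      (((((GeneralLinearGroup.det (GeneralLinearGroup.map φ (M τ)))⁻¹ :
        (SeparableClosure L)ˣ) : SeparableClosure L) * t ^ 2) • c) ?_)⟩
    rw [smul_vecMul, hc, ← e1, ← vecMul_vecMul, desc1_vecMul, hc, e2, vecMul_rho, h2', h3',
      mul_smul]
    congr 1
    funext i
    fin_cases i <;> simp <;> ring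
  have hd : ∀ j, ∃ d, toSep L d = c j / c i := fun j => desc1_fixed fun σ => by
    obtain ⟨s, hs⟩ := hs σ
    have h0 : s ≠ 0 := fun e => (map_ne_zero σ).2 hi (by rw [hs, e, zero_mul])
    rw [map_div₀, hs, hs, mul_div_mul_left _ _ h0]
  choose d hd using hd
  refine ⟨d, fun e => ?_, (toSep L).injective ?_⟩
  · have := hd i
    rw [e, div_self hi] at this
    exact zero_ne_one ((map_zero _).symm.trans this)
  · have e1 : (fun j => toSep L (algebraMap K L (a j))) = tcomp tstd (B.map φ) := by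
      rw [desc1_tcomp, ha]
      funext j
      exact (IsScalarTower.algebraMap_apply K L (SeparableClosure L) _).symm.trans
        (ι.commutes _).symm
    have e2 : (fun j => toSep L (d j)) = (c i)⁻¹ • c := by
      funext j
      rw [hd, div_eq_inv_mul]
      rfl
    rw [← tern_map, e1, e2, tern_tcomp, smul_vecMul, hc, tern_tstd, map_zero]
    simp
    ring

lemma desc1_prop {L : Type*} [Field L] {x z X Z l s : L} (hxz : x ≠ 0 ∨ z ≠ 0) (hl : l ≠ 0)
    (h0 : s * X ^ 2 = l * x ^ 2) (h1 : s * (X * Z) = l * (x * z)) (h2 : s * Z ^ 2 = l * z ^ 2) :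
    ∃ α, α ≠ 0 ∧ X = α * x ∧ Z = α * z ∧ s * α ^ 2 = l := by
  rcases hxz with h | h
  · have hs : s * X ^ 2 ≠ 0 := h0 ▸ mul_ne_zero hl (pow_ne_zero 2 h)
    have hX : X ≠ 0 := fun e => hs (by rw [e]; ring)
    refine ⟨X / x, div_ne_zero hX h, by field_simp, ?_, ?_⟩
    · rw [div_mul_eq_mul_div, eq_div_iff h]
      exact mul_left_cancel₀ (mul_ne_zero (left_ne_zero_of_mul hs) hX)
        (by linear_combination x * h1 - z * h0)
    · rw [div_pow, ← mul_div_assoc, h0, mul_div_cancel_right₀ _ (pow_ne_zero 2 h)]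
  · have hs : s * Z ^ 2 ≠ 0 := h2 ▸ mul_ne_zero hl (pow_ne_zero 2 h)
    have hZ : Z ≠ 0 := fun e => hs (by rw [e]; ring)
    refine ⟨Z / z, div_ne_zero hZ h, ?_, by field_simp, ?_⟩
    · rw [div_mul_eq_mul_div, eq_div_iff h]
      exact mul_left_cancel₀ (mul_ne_zero (left_ne_zero_of_mul hs) hZ)
        (by linear_combination z * h1 - x * h2)
    · rw [div_pow, ← mul_div_assoc, h2, mul_div_cancel_right₀ _ (pow_ne_zero 2 h)]

/-- a fixed isotropic vector gives a fixed point of the projective line -/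
lemma desc1_row {L : Type*} [Field L] (φ : L →+* L) (N : GL (Fin 2) L) {x z l : L}
    (hxz : x ≠ 0 ∨ z ≠ 0) (hl : l ≠ 0)
    (h : (fun i => φ ((l • ![x ^ 2, x * z, z ^ 2]) i)) ᵥ* rho N = l • ![x ^ 2, x * z, z ^ 2]) :
    ∃ α, α ≠ 0 ∧ φ x * N.1 0 0 + φ z * N.1 1 0 = α * x ∧ φ x * N.1 0 1 + φ z * N.1 1 1 = α * z ∧
      φ l * α ^ 2 = l * (N.1 0 0 * N.1 1 1 - N.1 0 1 * N.1 1 0) := by
  have e : (fun i => φ ((l • ![x ^ 2, x * z, z ^ 2]) i)) =
      φ l • ![φ x ^ 2, φ x * φ z, φ z ^ 2] := by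
    funext i
    fin_cases i <;> simp
  rw [e, smul_vecMul, vecMul_rho, smul_smul] at h
  obtain ⟨α, h0, h1, h2, h3⟩ := desc1_prop hxz hl (congrFun h 0) (congrFun h 1) (congrFun h 2)
  refine ⟨α, h0, h1, h2, ?_⟩
  have hd : ((GeneralLinearGroup.det N : Lˣ) : L) = N.1 0 0 * N.1 1 1 - N.1 0 1 * N.1 1 0 := by
    simp [Matrix.det_fin_two]
  rw [← hd]
  linear_combination (-φ l * α ^ 2) * (GeneralLinearGroup.det N).inv_mul
    + ((GeneralLinearGroup.det N : Lˣ) : L) * h3

/-- Take `T` over `K` with `tcomp a T = tstd` (`exists_tcomp_eq_tstd`); the rows `0` and `2` of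
`T * B` are fixed isotropic vectors `λ (x^2, x z, z^2)`, `λ' (x'^2, x' z', z'^2)` with polar
product `λ λ' (x z' - x' z)^2 = 1`.  If `σ(x, z) M σ = α (x, z)` and `σ(x', z') M σ = α' (x', z')`
then `σ(λ) α^2 = λ det (M σ)` and `σ(D) det (M σ) = α α' D` for `D = x z' - x' z`.  Hence with
`β = λ D` the matrix `H` with rows `β (x, z)`, `(x', z')` satisfies `σ(H) M σ = α' H`. -/
theorem exists_split_of_isotropic {B : Matrix (Fin 3) (Fin 3) (SeparableClosure K)}
    {a : Fin 6 → K} {δ : K} (hδ : δ ≠ 0) (hhd : hd a = δ ^ 2)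
    (hfix : ∀ σ, B.map (galHom σ) * rho (M σ) = B)
    (ha : tcomp tstd B = fun i => toSep K (a i)) (h : Isotropic a) :
    ∃ H : GL (Fin 2) (SeparableClosure K),
      ∀ σ, ∃ t, GeneralLinearGroup.map (galHom σ) H * M σ = G.scM t * H := by
  obtain ⟨T, -, hT⟩ := exists_tcomp_eq_tstd hδ hhd h
  have hC : tcomp tstd (T.map (toSep K) * B) = tstd := by
    rw [tcomp_mul, ha, tcomp_map, hT, desc1_tstd]
  have hCf : ∀ σ, (T.map (toSep K) * B).map (galHom σ) * rho (M σ) = T.map (toSep K) * B := by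
    intro σ
    have e : (T.map (toSep K)).map (galHom σ) = T.map (toSep K) :=
      Matrix.ext fun i j => σ.commutes _
    rw [Matrix.map_mul, e, Matrix.mul_assoc, hfix]
  generalize T.map (toSep K) * B = C at hC hCf
  have hrow : ∀ σ i, (fun j => galHom σ (C i j)) ᵥ* rho (M σ) = C i := fun σ i =>
    congrFun (hCf σ) i
  have h0 : tern tstd (C 0) = 0 := congrFun hC 0
  have h2 : tern tstd (C 2) = 0 := congrFun hC 2
  have h4 : tpol tstd (C 0) (C 2) = 1 := congrFun hC 4
  obtain ⟨l, x, z, hl, hxz, e⟩ := exists_param (w := C 0) (fun e => by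
    rw [e] at h4
    simp [tpol, tern_tstd] at h4) h0
  obtain ⟨l', x', z', hl', hxz', e'⟩ := exists_param (w := C 2) (fun e => by
    rw [e] at h4
    simp [tpol, tern_tstd] at h4) h2
  have hD : x * z' - x' * z ≠ 0 := fun k => by
    rw [e, e'] at h4
    simp only [tpol, tern_tstd, Pi.add_apply, Pi.smul_apply, smul_eq_mul, cons_val_zero,
      cons_val_one, cons_val_two, tail_cons, head_cons] at h4
    exact zero_ne_one (by linear_combination h4 - l * l' * (x * z' - x' * z) * k)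
  refine ⟨GeneralLinearGroup.mkOfDetNeZero
    !![l * (x * z' - x' * z) * x, l * (x * z' - x' * z) * z; x', z'] ?_, fun σ => ?_⟩
  · rw [det_fin_two_of]
    exact fun k => mul_ne_zero (mul_ne_zero hl hD) hD (by linear_combination k)
  · obtain ⟨α, -, a1, a2, a3⟩ := desc1_row (galHom σ) (M σ) hxz hl (e ▸ hrow σ 0)
    obtain ⟨β, hβ, b1, b2, -⟩ := desc1_row (galHom σ) (M σ) hxz' hl' (e' ▸ hrow σ 2)
    have hd : (M σ).1 0 0 * (M σ).1 1 1 - (M σ).1 0 1 * (M σ).1 1 0 ≠ 0 := by
      rw [← Matrix.det_fin_two]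
      exact (M σ).det_ne_zero
    have key : galHom σ l * (galHom σ x * galHom σ z' - galHom σ x' * galHom σ z) * α =
        β * (l * (x * z' - x' * z)) := by
      refine mul_right_cancel₀ hd ?_
      have d : (galHom σ x * galHom σ z' - galHom σ x' * galHom σ z) *
          ((M σ).1 0 0 * (M σ).1 1 1 - (M σ).1 0 1 * (M σ).1 1 0) =
          (α * x) * (β * z') - (β * x') * (α * z) := by
        rw [← a1, ← a2, ← b1, ← b2]
        ring
      linear_combination (galHom σ l * α) * d + β * (x * z' - x' * z) * a3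
    refine ⟨Units.mk0 β hβ, Units.ext ?_⟩
    generalize galHom σ = φ at a1 a2 b1 b2 key
    refine Matrix.ext fun i j => ?_
    fin_cases i <;> fin_cases j <;>
      simp [G.scM, Matrix.mul_apply, GeneralLinearGroup.mkOfDetNeZero]
    · linear_combination (φ l * (φ x * φ z' - φ x' * φ z)) * a1 + x * key
    · linear_combination (φ l * (φ x * φ z' - φ x' * φ z)) * a2 + z * key
    · exact b1
    · exact b2

/-- the Hasse principle for conics with square half discriminant -/
def HasseConic (K : Type u) [Field K] : Prop :=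
  ∀ (a : Fin 6 → K) (δ : K), δ ≠ 0 → hd a = δ ^ 2 →
    (∀ v : Place K, Isotropic (fun i => algebraMap K v.Compl (a i))) → Isotropic a

end SelAvg

/-!
Descent: every cocycle whose conic has a point comes from an object.
-/

namespace SelAvg

open WeierstrassCurve Matrix
open scoped Classical

universe u

variable {K : Type u} [Field K] {W : WeierstrassCurve K}

/-- the normal form attached to the point `c.P` -/
noncomputable def Cocycle.zP (c : Cocycle W 2) : Obj (SeparableClosure K) :=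
  SelAvg.zP (W.map (toSep K)) (toRaw (W := W.map (toSep K)) c.P)

/-- descent data on the normal form -/
structure DescData (c : Cocycle W 2)
    (g : (SeparableClosure K ≃ₐ[K] SeparableClosure K) → G (SeparableClosure K)) : Prop where
  smul : ∀ σ, g σ • c.zP = c.zP.map (galHom σ)
  diff : ∀ σ, D (W.map (toSep K)) c.zP ((g σ).pt Pt.std) Pt.std = c.ξ σ

lemma desc2a_Delta (hW : W.Δ ≠ 0) : (W.map (toSep K)).Δ ≠ 0 := by
  rw [map_Δ]
  exact (map_ne_zero _).2 hW

lemma desc2a_over (c : Cocycle W 2) : c.zP.Over (W.map (toSep K)) :=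
  zP_over (valid_toRaw (W := W.map (toSep K)) c.P)

lemma desc2a_on (c : Cocycle W 2) : c.zP.f.On Pt.std := Model.on_std.2 (zP_a _ _)

lemma desc2a_mapW (σ : SeparableClosure K ≃ₐ[K] SeparableClosure K) :
    (W.map (toSep K)).map (galHom σ) = W.map (toSep K) := by
  rw [WeierstrassCurve.map_map, galHom_comp_toSep]

lemma desc2a_map (c : Cocycle W 2) (σ : SeparableClosure K ≃ₐ[K] SeparableClosure K) :
    c.zP.map (galHom σ) =
      zP (W.map (toSep K)) (toRaw (W := W.map (toSep K)) (galAct W K σ c.P)) := by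
  rw [Cocycle.zP, zP_map, desc2a_mapW, toRaw_galAct]

lemma desc2a_D_map {L L' : Type*} [Field L] [Field L'] (φ : L →+* L') {V : WeierstrassCurve L}
    {V' : WeierstrassCurve L'} (e : V.map φ = V') {z : Obj L} (hV : V.Δ ≠ 0) (hz : z.Over V)
    {Q Q' : Pt L} (hQ : z.f.On Q) (hQ' : z.f.On Q') :
    toRaw (D V' (z.map φ) (Q.map φ) (Q'.map φ)) = rawMap φ (toRaw (D V z Q Q')) := by
  subst e
  exact toRaw_D_map φ hV hz hQ hQ'

lemma desc2a_xi_one (c : Cocycle W 2) : c.ξ 1 = 0 := by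
  have h := c.cocycle 1 1
  have e : galAct W K 1 (c.ξ 1) = c.ξ 1 := by
    apply toRaw_injective (W := W.map (toSep K))
    rw [toRaw_galAct]
    cases toRaw (W := W.map (toSep K)) (c.ξ 1) <;> rfl
  rw [mul_one, e] at h
  exact left_eq_add.1 h

lemma desc2a_grp {A : Type*} [AddCommGroup A] {x p q r : A} (h1 : 2 • -x = p - q)
    (h2 : 2 • x = r - p) : q = r := by
  rw [smul_neg, h2, neg_sub] at h1
  exact (sub_right_injective h1).symm

/-- Take `T` with `D std T = -ξ σ`; then `piP T = P + 2 ξ σ = σ P` (`two_smul_D`), and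
`c.zP.map σ` is the normal form of `σ P` (`zP_map`); apply `exists_iso`. -/
theorem exists_descData (hW : W.Δ ≠ 0) (c : Cocycle W 2) : ∃ g, DescData c g := by
  have hW' := desc2a_Delta hW
  have hz := desc2a_over c
  have hs := desc2a_on c
  have key : ∀ σ : SeparableClosure K ≃ₐ[K] SeparableClosure K, ∃ g : G (SeparableClosure K),
      g • c.zP = c.zP.map (galHom σ) ∧
        D (W.map (toSep K)) c.zP (g.pt Pt.std) Pt.std = c.ξ σ := by
    intro σ
    obtain ⟨T, hT, hD⟩ := D_surjective hW' hz hs (-c.ξ σ)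
    have h1 := two_smul_D hW' hz hs hT
    have h2 : piP (W.map (toSep K)) c.zP Pt.std = c.P := piP_zP hW' c.P
    have h3 : piP (W.map (toSep K)) c.zP T = galAct W K σ c.P := by
      rw [hD, h2] at h1
      exact desc2a_grp (A := Pts W (SeparableClosure K)) h1 (c.bdry σ)
    obtain ⟨g, a, b⟩ := exists_iso hW'
      (zP_over (valid_toRaw (W := W.map (toSep K)) (galAct W K σ c.P))) hz
      (Model.on_std.2 (zP_a _ _)) hT ((piP_zP hW' (galAct W K σ c.P)).trans h3.symm)
    refine ⟨g, a.trans (desc2a_map c σ).symm, ?_⟩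
    rw [← D_eqv hW' hz hT hs b.symm (Pt.Eqv.refl _), D_symm hW' hz hs hT, hD]
    exact neg_neg _
  choose g h1 h2 using key
  exact ⟨g, h1, h2⟩

variable {c : Cocycle W 2}
  {g : (SeparableClosure K ≃ₐ[K] SeparableClosure K) → G (SeparableClosure K)}

lemma desc2a_on_smul (h : DescData c g) (σ) : (g σ • c.zP).f.On Pt.std := by
  rw [h.smul, desc2a_map]
  exact Model.on_std.2 (zP_a _ _)

lemma desc2a_on_pt (h : DescData c g) (σ) : c.zP.f.On ((g σ).pt Pt.std) :=
  (Model.on_pt _ _ _).2 (desc2a_on_smul h σ)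

/-- `iso_unique`, `D_add`, `D_smul`, `toRaw_D_map`, `D_injective` -/
theorem DescData.mul (hW : W.Δ ≠ 0) (h : DescData c g) (σ τ) :
    ∃ t, g (σ * τ) = G.scalar t * (G.map (galHom σ) (g τ) * g σ) := by
  have hW' := desc2a_Delta hW
  have hz := desc2a_over c
  have hs := desc2a_on c
  have e1 : (G.map (galHom σ) (g τ) * g σ) • c.zP = g (σ * τ) • c.zP := by
    rw [mul_smul, h.smul, ← Obj.map_smul, h.smul, h.smul, Obj.map_map]
    rfl
  have e2 : (G.map (galHom σ) (g τ) * g σ).pt Pt.std =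
      (g σ).pt (((g τ).pt Pt.std).map (galHom σ)) := by
    rw [G.mul_pt, ← G.map_pt, Pt.map_std]
  have hA : (g σ • c.zP).f.On (((g τ).pt Pt.std).map (galHom σ)) := by
    rw [h.smul]
    exact (Model.on_map _ _ _).2 (desc2a_on_pt h τ)
  have hB : c.zP.f.On ((g σ).pt (((g τ).pt Pt.std).map (galHom σ))) := (Model.on_pt _ _ _).2 hA
  have e3 : D (W.map (toSep K)) c.zP ((g σ).pt (((g τ).pt Pt.std).map (galHom σ)))
      ((g σ).pt Pt.std) = galAct W K σ (c.ξ τ) := by
    apply toRaw_injective (W := W.map (toSep K))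
    rw [← D_smul hW' hz _ hA (desc2a_on_smul h σ), h.smul, toRaw_galAct, ← h.diff τ,
      ← desc2a_D_map (galHom σ) (desc2a_mapW σ) hW' hz (desc2a_on_pt h τ) hs, Pt.map_std]
  refine iso_unique hW' hz (Q := Pt.std) (e1 ▸ desc2a_on_smul h (σ * τ)) e1 ?_
  rw [e2]
  refine D_injective hW' hz hs hB (desc2a_on_pt h (σ * τ)) ?_
  rw [D_symm hW' hz hB hs, D_symm hW' hz (desc2a_on_pt h (σ * τ)) hs,
    ← D_add hW' hz hB (desc2a_on_pt h σ) hs, e3, h.diff, h.diff, c.cocycle]
  exact congrArg Neg.neg (add_comm _ _)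

/-- `ξ 1 = 0`; use `krullTopology_mem_nhds_one_iff` for the set of `σ` with `ξ σ = 0` that fix the
coordinates of `P`, and `eq_scalar_of_fix`. -/
theorem DescData.cont (hW : W.Δ ≠ 0) (h : DescData c g) :
    ∃ E : IntermediateField K (SeparableClosure K), FiniteDimensional K E ∧
      ∀ σ ∈ E.fixingSubgroup, ∃ t, g σ = G.scalar t := by
  have hW' := desc2a_Delta hW
  have hz := desc2a_over c
  have hs := desc2a_on c
  obtain ⟨E, h1, h2⟩ := (krullTopology_mem_nhds_one_iff K (SeparableClosure K) _).1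
    ((c.locConst.isOpen_fiber 0).mem_nhds (desc2a_xi_one c))
  refine ⟨E, h1, fun σ hσ => ?_⟩
  have e : c.ξ σ = 0 := h2 hσ
  have e' : galAct W K σ c.P = c.P := by
    have h4 := c.bdry σ
    rw [e, smul_zero] at h4
    exact sub_eq_zero.1 h4.symm
  refine eq_scalar_of_fix hW' hz hs ?_
    ((D_eq_zero_iff hW' hz (desc2a_on_pt h σ) hs).1 ((h.diff σ).trans e))
  rw [h.smul, desc2a_map, e']
  rfl

theorem DescData.projCocycle (hW : W.Δ ≠ 0) (h : DescData c g) :
    ProjCocycle (fun σ => (g σ).M) := by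
  obtain ⟨E, h1, h2⟩ := h.cont hW
  exact ⟨fun σ τ => (h.mul hW σ τ).imp fun t e => congrArg G.M e,
    E, h1, fun σ hσ => (h2 σ hσ).imp fun t e => congrArg G.M e⟩

end SelAvg

/-!
Descent of objects.
-/

namespace SelAvg

open WeierstrassCurve Matrix
open scoped Classical

universe u

variable {K : Type u} [Field K] {W : WeierstrassCurve K} {c : Cocycle W 2}
  {g : (SeparableClosure K ≃ₐ[K] SeparableClosure K) → G (SeparableClosure K)}

lemma desc2_Delta {L : Type*} [Field L] (hW : W.Δ ≠ 0) (φ : K →+* L) : (W.map φ).Δ ≠ 0 := by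
  rw [map_Δ]; exact (map_ne_zero φ).2 hW

lemma desc2_zP_over (c : Cocycle W 2) : c.zP.Over (W.map (toSep K)) := zP_over (valid_toRaw _)

lemma desc2_D_map {L L' : Type*} [Field L] [Field L'] (φ : L →+* L') {V : WeierstrassCurve L}
    {V' : WeierstrassCurve L'} (e : V' = V.map φ) {z : Obj L} (hV : V.Δ ≠ 0) (hz : z.Over V)
    {Q Q' : Pt L} (hQ : z.f.On Q) (hQ' : z.f.On Q') :
    toRaw (D V' (z.map φ) (Q.map φ) (Q'.map φ)) = rawMap φ (toRaw (D V z Q Q')) := by
  subst e
  exact toRaw_D_map φ hV hz hQ hQ'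

lemma desc2_cancel {A : Type*} [AddCommGroup A] {a b x : A} (h : a - b + x = a) : b = x := by
  rw [sub_add_eq_add_sub, sub_eq_iff_eq_add, add_right_inj] at h
  exact h.symm

/-- Take the point `Q` on `c.zP.map ι` with `D Q std = -R`; then `(ι (g τ)).pt (σ Q)` is
equivalent to `Q`. -/
theorem DescData.hasFixedPoint (hW : W.Δ ≠ 0) (h : DescData c g) (L : Type u) [Field L]
    [Algebra K L] (hc : c.IsKummer L) : HasFixedPoint (fun σ => (g σ).M) L := by
  obtain ⟨ι⟩ := exists_embedding (K := K) L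
  obtain ⟨S, R, hR, -⟩ := hc ι
  have hWs := desc2_Delta hW (toSep K)
  have hWL := desc2_Delta hW (algebraMap K (SeparableClosure L))
  have eW : W.map (algebraMap K (SeparableClosure L)) = (W.map (toSep K)).map ι.toRingHom := by
    rw [WeierstrassCurve.map_map]
    congr 1
    ext x
    simp
  have hz := desc2_zP_over c
  have hzL : (c.zP.map ι.toRingHom).Over (W.map (algebraMap K (SeparableClosure L))) := by
    rw [eW]; exact hz.map _
  have hstd : c.zP.f.On Pt.std := Model.on_std.2 (zP_a _ _)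
  have hstdL : (c.zP.map ι.toRingHom).f.On Pt.std := by
    rw [← Pt.map_std ι.toRingHom]
    exact (Model.on_map _ _ _).2 hstd
  obtain ⟨Q, hQ, hQR⟩ := D_surjective hWL hzL hstdL R
  refine ⟨ι, Q.x, Q.z, hQ.prim, fun σ => ?_⟩
  obtain ⟨τ, hτ⟩ := exists_restrict ι σ
  have eσ : W.map (algebraMap K (SeparableClosure L)) =
      (W.map (algebraMap K (SeparableClosure L))).map (galHom σ) := by
    rw [WeierstrassCurve.map_map]
    congr 1
    refine RingHom.ext fun x => ?_
    rw [RingHom.comp_apply, IsScalarTower.algebraMap_apply K L (SeparableClosure L)]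
    exact (σ.commutes _).symm
  have hg : G.map ι.toRingHom (g τ) • c.zP.map ι.toRingHom =
      (c.zP.map ι.toRingHom).map (galHom σ) := by
    rw [← Obj.map_smul, h.smul, Obj.map_map, Obj.map_map]
    congr 1
    exact RingHom.ext fun x => (hτ x).symm
  have hσQ : (G.map ι.toRingHom (g τ) • c.zP.map ι.toRingHom).f.On (Q.map (galHom σ)) := by
    rw [hg]; exact (Model.on_map _ _ _).2 hQ
  have hσs : (G.map ι.toRingHom (g τ) • c.zP.map ι.toRingHom).f.On Pt.std := by
    rw [hg, ← Pt.map_std (galHom σ)]; exact (Model.on_map _ _ _).2 hstdL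
  have o1 := (Model.on_pt _ _ _).2 hσQ
  have o2 := (Model.on_pt _ _ _).2 hσs
  have d1 : D (W.map (algebraMap K (SeparableClosure L))) (c.zP.map ι.toRingHom)
      ((G.map ι.toRingHom (g τ)).pt Pt.std) ((G.map ι.toRingHom (g τ)).pt (Q.map (galHom σ))) =
      galAct W L σ R := by
    rw [← D_smul hWL hzL _ hσs hσQ, hg]
    apply toRaw_injective
    have := desc2_D_map (galHom σ) eσ hWL hzL hstdL hQ
    rw [Pt.map_std, hQR] at this
    exact this.trans (toRaw_ptMap W
      ((σ : SeparableClosure L →ₐ[L] SeparableClosure L).restrictScalars K) R).symm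
  have d2 : D (W.map (algebraMap K (SeparableClosure L))) (c.zP.map ι.toRingHom)
      ((G.map ι.toRingHom (g τ)).pt Pt.std) Pt.std = galAct W L σ R - R := by
    rw [← hR σ τ hτ]
    apply toRaw_injective
    have hgs : c.zP.f.On ((g τ).pt Pt.std) := by
      refine (Model.on_pt _ _ _).2 ?_
      rw [← Obj.smul_f, h.smul, ← Pt.map_std (galHom τ)]
      exact (Model.on_map _ _ _).2 hstd
    have := desc2_D_map ι.toRingHom eW hWs hz hgs hstd
    rw [← G.map_pt, Pt.map_std, h.diff] at this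
    exact this.trans (toRaw_ptMap W ι _).symm
  have d3 := D_add hWL hzL o2 hstdL o1
  rw [d1, d2] at d3
  have d4 : D (W.map (algebraMap K (SeparableClosure L))) (c.zP.map ι.toRingHom) Pt.std Q =
      D (W.map (algebraMap K (SeparableClosure L))) (c.zP.map ι.toRingHom) Pt.std
        ((G.map ι.toRingHom (g τ)).pt (Q.map (galHom σ))) := by
    rw [hQR]
    exact desc2_cancel d3
  obtain ⟨t, ht, e⟩ := D_injective hWL hzL hstdL hQ o1 d4
  refine ⟨τ, t, hτ, ht, ?_, ?_⟩
  · have := congrArg Pt.x e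
    simpa [G.pt, G.m11, G.m21] using this
  · have := congrArg Pt.z e
    simpa [G.pt, G.m12, G.m22] using this

lemma desc2_shift_mul {R : Type*} [CommRing R] (a b c a' b' c' : R) :
    G.ofShift a b c * G.ofShift a' b' c' = G.ofShift (a + a') (b + b') (c + c') := by
  refine G.ext (by simp) (by simp) ?_ ?_ ?_ <;> simp [G.mul_r0, G.mul_r1, G.mul_r2]

lemma desc2_shift_map {R S : Type*} [CommRing R] [CommRing S] (φ : R →+* S) (a b c : R) :
    G.map φ (G.ofShift a b c) = G.ofShift (φ a) (φ b) (φ c) := by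
  refine G.ext (by simp) (by simp) rfl rfl rfl

lemma desc2_shift_inj {R : Type*} [CommRing R] {t t' : Rˣ} {a b c a' b' c' : R}
    (h : G.scalar t * G.ofShift a b c = G.scalar t' * G.ofShift a' b' c') :
    a = a' ∧ b = b' ∧ c = c' := by
  have h1 : t = t' := by
    have := congrArg G.m11 h
    simpa [G.mul_m11, Units.ext_iff] using this
  subst h1
  have h2 := mul_left_cancel h
  exact ⟨congrArg G.r0 h2, congrArg G.r1 h2, congrArg G.r2 h2⟩

lemma desc2_is_shift {R S : Type*} [CommRing R] [CommRing S] (φ : S →+* R) {k : G R} {t : Rˣ}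
    (hM : k.M = G.scM t) {z : Obj R} {z' : Obj S} (hz : z.γ.u = 1) (hz' : z'.γ.u = 1)
    (h : k • z = z'.map φ) : ∃ a b c, k = G.scalar t * G.ofShift a b c := by
  have h1 : (G.scalar t⁻¹ * k) • z = z'.map φ := by rw [mul_smul, Obj.scalar_smul, h]
  have h2 : (G.scalar t⁻¹ * k).M = 1 := by
    rw [G.mul_M, G.scalar_M, hM, ← G.scM_mul, inv_mul_cancel, G.scM_one]
  have h3 : (G.scalar t⁻¹ * k).μ = 1 := by
    have h4 := congrArg (fun x : Obj R => x.γ.u) h1
    simp only [Obj.smul_γ, Obj.map_γ, VariableChange.mul_def, G.Gam_u, hz, VariableChange.map_u,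
      hz', map_one, mul_one] at h4
    rwa [G.det, h2, map_one, inv_one, mul_one] at h4
  refine ⟨(G.scalar t⁻¹ * k).r0, (G.scalar t⁻¹ * k).r1, (G.scalar t⁻¹ * k).r2, ?_⟩
  have h5 : G.ofShift (G.scalar t⁻¹ * k).r0 (G.scalar t⁻¹ * k).r1 (G.scalar t⁻¹ * k).r2 =
      G.scalar t⁻¹ * k := G.ext h2.symm h3.symm rfl rfl rfl
  rw [h5, ← mul_assoc, ← G.scalar_mul, mul_inv_cancel, G.scalar_one, one_mul]

lemma desc2_zP_u (c : Cocycle W 2) : c.zP.γ.u = 1 := by
  unfold Cocycle.zP
  cases toRaw (W := W.map (toSep K)) c.P <;> rfl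

lemma desc2_field (E : IntermediateField K (SeparableClosure K)) [FiniteDimensional K E]
    (H : GL (Fin 2) (SeparableClosure K)) :
    ∃ E' : IntermediateField K (SeparableClosure K), FiniteDimensional K E' ∧
      ∀ σ ∈ E'.fixingSubgroup, σ ∈ E.fixingSubgroup ∧
        GeneralLinearGroup.map (galHom σ) H = H := by
  let s : Set (SeparableClosure K) := Set.range fun p : Fin 2 × Fin 2 => H.1 p.1 p.2
  have hs : FiniteDimensional K (IntermediateField.adjoin K s) :=
    IntermediateField.finiteDimensional_adjoin fun x _ => Algebra.IsIntegral.isIntegral x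
  refine ⟨E ⊔ IntermediateField.adjoin K s, inferInstance, fun σ hσ => ⟨?_, ?_⟩⟩
  · rw [IntermediateField.mem_fixingSubgroup_iff] at hσ ⊢
    exact fun x hx => hσ x (le_sup_left (a := E) hx)
  · rw [IntermediateField.mem_fixingSubgroup_iff] at hσ
    refine Units.ext (Matrix.ext fun i j => ?_)
    exact hσ _ (le_sup_right (a := E) (IntermediateField.subset_adjoin K s ⟨(i, j), rfl⟩))

lemma desc2_split (hW : W.Δ ≠ 0) (h : DescData c g) {H : GL (Fin 2) (SeparableClosure K)}
    (hH : ∀ σ, ∃ t, GeneralLinearGroup.map (galHom σ) H * (g σ).M = G.scM t * H) :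
    ∃ h₂ : G (SeparableClosure K), ∀ σ, ∃ t, G.map (galHom σ) h₂ * g σ = G.scalar t * h₂ := by
  obtain ⟨h₁, hM, hμ, h0, h1, h2⟩ : ∃ h₁ : G (SeparableClosure K), h₁.M = H ∧ h₁.μ = h₁.det ∧
      h₁.r0 = 0 ∧ h₁.r1 = 0 ∧ h₁.r2 = 0 :=
    ⟨⟨H, GeneralLinearGroup.det H, 0, 0, 0⟩, rfl, rfl, rfl, rfl, rfl⟩
  have hu : (h₁ • c.zP).γ.u = 1 := by
    simp only [Obj.smul_γ, VariableChange.mul_def, G.Gam_u, desc2_zP_u, hμ, mul_inv_cancel, mul_one]
  have hk : ∀ σ, ∃ t a b d, G.map (galHom σ) h₁ * g σ * h₁⁻¹ = G.scalar t * G.ofShift a b d :=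
    fun σ => by
      obtain ⟨t, ht⟩ := hH σ
      refine ⟨t, desc2_is_shift (galHom σ) ?_ hu hu ?_⟩
      · rw [G.mul_M, G.mul_M, G.map_M, G.inv_M, hM, ht, mul_inv_cancel_right]
      · rw [mul_smul, inv_smul_smul, mul_smul, h.smul, Obj.map_smul]
  choose t a b d hk using hk
  have hco : ∀ σ τ, a (σ * τ) = σ (a τ) + a σ ∧ b (σ * τ) = σ (b τ) + b σ ∧
      d (σ * τ) = σ (d τ) + d σ := fun σ τ => by
    obtain ⟨s, hs⟩ := h.mul hW σ τ
    have e1 : G.map (galHom (σ * τ)) h₁ = G.map (galHom σ) (G.map (galHom τ) h₁) := by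
      rw [G.map_map]; rfl
    have e2 : G.map (galHom (σ * τ)) h₁ * g (σ * τ) * h₁⁻¹ =
        G.scalar s * (G.map (galHom σ) (G.map (galHom τ) h₁ * g τ * h₁⁻¹) *
          (G.map (galHom σ) h₁ * g σ * h₁⁻¹)) := by
      rw [e1, hs, ← mul_assoc _ (G.scalar s), ← G.scalar_comm, map_mul, map_mul, map_inv]
      group
    rw [hk, hk, hk, map_mul, G.map_scalar, desc2_shift_map, mul_assoc,
      ← mul_assoc (G.ofShift _ _ _), ← G.scalar_comm, mul_assoc, desc2_shift_mul, ← mul_assoc,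
      ← mul_assoc, ← G.scalar_mul, ← G.scalar_mul] at e2
    exact desc2_shift_inj e2
  obtain ⟨E, hE, hEg⟩ := h.cont hW
  obtain ⟨E', hE', hEH⟩ := desc2_field E H
  have hze : ∀ σ ∈ E'.fixingSubgroup, a σ = 0 ∧ b σ = 0 ∧ d σ = 0 := fun σ hσ => by
    obtain ⟨s, hs⟩ := hEg σ (hEH σ hσ).1
    have e0 : (G.map (galHom σ) h₁).M = h₁.M := by rw [G.map_M, hM, (hEH σ hσ).2]
    have e1 : G.map (galHom σ) h₁ = h₁ := by
      refine G.ext e0 ?_ (by simp [h0]) (by simp [h1]) (by simp [h2])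
      rw [G.map_μ, hμ, ← G.map_det, G.det, e0, G.det]
    have e2 := hk σ
    rw [e1, hs, ← G.scalar_comm, mul_inv_cancel_right] at e2
    have e3 : G.scalar (t σ) * G.ofShift (a σ) (b σ) (d σ) = G.scalar s * G.ofShift 0 0 0 := by
      rw [← e2]; exact (mul_one _).symm
    exact desc2_shift_inj e3
  obtain ⟨w0, hw0⟩ := additive_h90 a (fun σ τ => (hco σ τ).1) E' fun σ hσ => (hze σ hσ).1
  obtain ⟨w1, hw1⟩ := additive_h90 b (fun σ τ => (hco σ τ).2.1) E' fun σ hσ => (hze σ hσ).2.1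
  obtain ⟨w2, hw2⟩ := additive_h90 d (fun σ τ => (hco σ τ).2.2) E' fun σ hσ => (hze σ hσ).2.2
  refine ⟨G.ofShift w0 w1 w2 * h₁, fun σ => ⟨t σ, ?_⟩⟩
  have e1 : G.map (galHom σ) h₁ * g σ = G.scalar (t σ) * G.ofShift (a σ) (b σ) (d σ) * h₁ := by
    rw [← hk, inv_mul_cancel_right]
  have e2 : G.ofShift (galHom σ w0) (galHom σ w1) (galHom σ w2) * G.ofShift (a σ) (b σ) (d σ) =
      G.ofShift w0 w1 w2 := by
    rw [desc2_shift_mul, hw0, hw1, hw2]
    congr 1 <;> exact add_sub_cancel _ _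
  rw [map_mul, mul_assoc, e1, desc2_shift_map, ← mul_assoc, ← mul_assoc, ← G.scalar_comm,
    mul_assoc (G.scalar _), e2, mul_assoc]

lemma desc2_descend {z : Obj (SeparableClosure K)} (h : ∀ σ, z.map (galHom σ) = z) :
    ∃ z₀ : Obj K, z₀.map (toSep K) = z := by
  have key : ∀ x : SeparableClosure K, (∀ σ, galHom σ x = x) → ∃ y, toSep K y = x := fun x hx =>
    (InfiniteGalois.mem_range_algebraMap_iff_fixed x).2 hx
  obtain ⟨l, hl⟩ := key z.f.l fun σ => congrArg (fun x => x.f.l) (h σ)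
  obtain ⟨m, hm⟩ := key z.f.m fun σ => congrArg (fun x => x.f.m) (h σ)
  obtain ⟨n, hn⟩ := key z.f.n fun σ => congrArg (fun x => x.f.n) (h σ)
  obtain ⟨a, ha⟩ := key z.f.a fun σ => congrArg (fun x => x.f.a) (h σ)
  obtain ⟨b, hb⟩ := key z.f.b fun σ => congrArg (fun x => x.f.b) (h σ)
  obtain ⟨c, hc⟩ := key z.f.c fun σ => congrArg (fun x => x.f.c) (h σ)
  obtain ⟨d, hd⟩ := key z.f.d fun σ => congrArg (fun x => x.f.d) (h σ)
  obtain ⟨e, he⟩ := key z.f.e fun σ => congrArg (fun x => x.f.e) (h σ)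
  obtain ⟨u, hu⟩ := key z.γ.u fun σ => congrArg (fun x => (x.γ.u : SeparableClosure K)) (h σ)
  obtain ⟨r, hr⟩ := key z.γ.r fun σ => congrArg (fun x => x.γ.r) (h σ)
  obtain ⟨s, hs⟩ := key z.γ.s fun σ => congrArg (fun x => x.γ.s) (h σ)
  obtain ⟨t, ht⟩ := key z.γ.t fun σ => congrArg (fun x => x.γ.t) (h σ)
  have hu0 : u ≠ 0 := fun h0 => z.γ.u.ne_zero (by rw [← hu, h0, map_zero])
  exact ⟨⟨⟨l, m, n, a, b, c, d, e⟩, ⟨Units.mk0 u hu0, r, s, t⟩⟩,
    Obj.ext (Model.ext hl hm hn ha hb hc hd he) (VariableChange.ext (Units.ext hu) hr hs ht)⟩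

/-- Let `h₁ = ⟨H, det H, 0, 0, 0⟩` and `z₁ = h₁ • c.zP` (its `γ.u` is `1`).  Up to a scalar,
`σ(h₁) * g σ * h₁⁻¹` has matrix `1`, and `G.Gam_u` gives `μ = 1`; so it is a shift `ofShift (r σ)`,
uniquely determined, and `r` is an additive cocycle, trivial on the open subgroup that also fixes
the entries of `H`.  By `additive_h90` (three times) `r σ = w - σ w`.  Then
`h₂ = ofShift w * h₁` satisfies `σ(h₂) * g σ = scalar * h₂`, so `h₂ • c.zP` is Galois invariant
and descends to `K`; the point is `h₂⁻¹.pt std`. -/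
theorem DescData.exists_obj (hW : W.Δ ≠ 0) (h : DescData c g)
    {H : GL (Fin 2) (SeparableClosure K)}
    (hH : ∀ σ, ∃ t, GeneralLinearGroup.map (galHom σ) H * (g σ).M = G.scM t * H) :
    ∃ z : Obj K, z.Over W ∧ Rep W z c := by
  obtain ⟨h₂, hh⟩ := desc2_split hW h hH
  have hWs := desc2_Delta hW (toSep K)
  have hz := desc2_zP_over c
  have hstd : c.zP.f.On Pt.std := Model.on_std.2 (zP_a _ _)
  have hfix : ∀ σ, (h₂ • c.zP).map (galHom σ) = h₂ • c.zP := fun σ => by
    obtain ⟨t, ht⟩ := hh σ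
    rw [Obj.map_smul, ← h.smul, ← mul_smul, ht, mul_smul, Obj.scalar_smul]
  obtain ⟨z, hz0⟩ := desc2_descend hfix
  have hQ : (h₂ • c.zP).f.On (h₂⁻¹.pt Pt.std) := by
    refine (Model.on_pt _ _ _).1 ?_
    rwa [G.pt_inv_pt]
  refine ⟨z, ?_, h₂⁻¹.pt Pt.std, by rwa [hz0], ?_, fun σ => ?_⟩
  · have h1 : (z.map (toSep K)).Over (W.map (toSep K)) := by rw [hz0]; exact hz.smul h₂
    unfold Obj.Over at h1 ⊢
    rw [Obj.map_f, Obj.map_γ, Model.jac_map, map_variableChange] at h1
    exact WeierstrassCurve.map_injective (toSep K).injective h1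
  · rw [hz0, piP_smul hWs hz h₂ hQ, G.pt_inv_pt]
    exact (piP_zP hWs c.P).symm
  · obtain ⟨t, ht⟩ := hh σ
    have hσQ : (h₂ • c.zP).f.On ((h₂⁻¹.pt Pt.std).map (galHom σ)) := by
      rw [← hfix σ]; exact (Model.on_map _ _ _).2 hQ
    rw [hz0, D_smul hWs hz h₂ hσQ hQ, G.pt_inv_pt, ← h.diff]
    refine (D_eqv hWs hz ((Model.on_pt _ _ _).2 hσQ) hstd ⟨t, t.ne_zero, ?_⟩ (Pt.Eqv.refl _)).symm
    have e : g σ = G.scalar t * ((G.map (galHom σ) h₂)⁻¹ * h₂) := by
      rw [← mul_assoc, G.scalar_comm, mul_assoc, ← ht, inv_mul_cancel_left]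
    rw [e, G.mul_pt, G.scalar_pt, G.pt_sc, G.mul_pt, ← G.map_pt, map_inv, Pt.map_std]

theorem exists_obj_of_mem_Sel (hK : HasseConic K) (hW : W.Δ ≠ 0) {x : H1 W 2}
    (hx : x ∈ Sel W 2) : ∃ z : Obj K, z.Over W ∧ cl W z = x := by
  obtain ⟨c, rfl, hc⟩ := hx
  obtain ⟨g, hg⟩ := exists_descData hW c
  obtain ⟨B, a, δ, hδ, hB, hhd, hfix, ha⟩ := (hg.projCocycle hW).exists_conic
  have hB' : B.det ≠ 0 := by rw [hB]; exact (map_ne_zero _).2 hδ
  have hiso : Isotropic a := hK a δ hδ hhd fun v =>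
    isotropic_of_hasFixedPoint hB' hfix ha _ (hg.hasFixedPoint hW _ (hc v))
  obtain ⟨H, hH⟩ := exists_split_of_isotropic hδ hhd hfix ha hiso
  obtain ⟨z, hz, hrep⟩ := hg.exists_obj hW hH
  exact ⟨z, hz, (cl_eq_mk_iff hW hz).2 hrep⟩

end SelAvg
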