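import Pool.Agent.H38Sel.AlgA

/-!
Raw affine points, the group isomorphism induced by a change of variables, base change of points,
integrality of changes of variables and bounds for stabilisers.
-/

namespace SelAvg

open WeierstrassCurve
open scoped Classical

variable {L L' : Type*} [Field L] [Field L']

/-- coordinates of a point (`none` is the point at infinity) -/
def toRaw {W : WeierstrassCurve L} : W.toAffine.Point → Option (L × L)
  | .zero => none
  | .some x y _ => some (x, y)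

/-- the point with given coordinates (junk value `0`) -/
noncomputable def ofRaw (W : WeierstrassCurve L) : Option (L × L) → W.toAffine.Point
  | none => 0
  | some p => if h : W.toAffine.Nonsingular p.1 p.2 then .some p.1 p.2 h else 0

/-- the raw point lies on the curve -/
def Valid (W : WeierstrassCurve L) : Option (L × L) → Prop
  | none => True
  | some p => W.toAffine.Equation p.1 p.2

/-- the map from points of `C • W` to points of `W` -/
def vcRaw (C : VariableChange L) (p : Option (L × L)) : Option (L × L) :=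
  p.map fun p => (C.u ^ 2 * p.1 + C.r, C.u ^ 3 * p.2 + C.u ^ 2 * C.s * p.1 + C.t)

def rawMap (φ : L →+* L') (p : Option (L × L)) : Option (L' × L') :=
  p.map fun p => (φ p.1, φ p.2)

/-- the change of variables inducing `P ↦ -P` -/
def negC {R : Type*} [CommRing R] (W : WeierstrassCurve R) : VariableChange R :=
  ⟨-1, 0, -W.a₁, -W.a₃⟩

@[simp] lemma toRaw_zero {W : WeierstrassCurve L} : toRaw (0 : W.toAffine.Point) = none := rfl
@[simp] lemma toRaw_some {W : WeierstrassCurve L} {x y : L} (h : W.toAffine.Nonsingular x y) :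
    toRaw (Affine.Point.some x y h) = some (x, y) := rfl
@[simp] lemma ofRaw_none (W : WeierstrassCurve L) : ofRaw W none = 0 := rfl
@[simp] lemma vcRaw_none (C : VariableChange L) : vcRaw C none = none := rfl
@[simp] lemma vcRaw_some (C : VariableChange L) (x y : L) : vcRaw C (some (x, y)) =
    some (C.u ^ 2 * x + C.r, C.u ^ 3 * y + C.u ^ 2 * C.s * x + C.t) := rfl
@[simp] lemma rawMap_none (φ : L →+* L') : rawMap φ none = none := rfl
@[simp] lemma rawMap_some (φ : L →+* L') (x y : L) : rawMap φ (some (x, y)) = some (φ x, φ y) :=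
  rfl
@[simp] lemma valid_none (W : WeierstrassCurve L) : Valid W none := trivial
@[simp] lemma valid_some (W : WeierstrassCurve L) (x y : L) :
    Valid W (some (x, y)) ↔ W.toAffine.Equation x y := Iff.rfl

lemma toRaw_injective {W : WeierstrassCurve L} :
    Function.Injective (toRaw : W.toAffine.Point → Option (L × L)) := by
  rintro (_ | ⟨x, y, h⟩) (_ | ⟨x', y', h'⟩) e
  · rfl
  · cases e
  · cases e
  · cases e
    rfl

lemma toRaw_eq_none {W : WeierstrassCurve L} {P : W.toAffine.Point} : toRaw P = none ↔ P = 0 := by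
  exact toRaw_injective.eq_iff' toRaw_zero

lemma valid_toRaw {W : WeierstrassCurve L} (P : W.toAffine.Point) : Valid W (toRaw P) := by
  rcases P with _ | ⟨x, y, h⟩
  · trivial
  · exact h.1

lemma ofRaw_toRaw {W : WeierstrassCurve L} (P : W.toAffine.Point) : ofRaw W (toRaw P) = P := by
  rcases P with _ | ⟨x, y, h⟩
  · rfl
  · exact dif_pos h

/-- `Affine.equation_iff_nonsingular_of_Δ_ne_zero` -/
lemma toRaw_ofRaw {W : WeierstrassCurve L} (hW : W.Δ ≠ 0) {p : Option (L × L)} (hp : Valid W p) :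
    toRaw (ofRaw W p) = p := by
  rcases p with _ | ⟨x, y⟩
  · rfl
  · rw [ofRaw, dif_pos ((Affine.equation_iff_nonsingular_of_Δ_ne_zero hW).1 hp)]
    rfl

lemma toRaw_neg {W : WeierstrassCurve L} (P : W.toAffine.Point) :
    toRaw (-P) = vcRaw (negC W) (toRaw P) := by
  rcases P with _ | ⟨x, y, h⟩
  · rfl
  · rw [Affine.Point.neg_some, toRaw_some, toRaw_some, vcRaw_some]
    simp only [negC, Affine.negY, Units.val_neg, Units.val_one, Option.some.injEq, Prod.mk.injEq]
    constructor <;> ring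

lemma vcRaw_one (p : Option (L × L)) : vcRaw 1 p = p := by
  rcases p with _ | ⟨x, y⟩
  · rfl
  · simp [VariableChange.one_def]

lemma vcRaw_mul (C C' : VariableChange L) (p : Option (L × L)) :
    vcRaw (C * C') p = vcRaw C' (vcRaw C p) := by
  rcases p with _ | ⟨x, y⟩
  · rfl
  · simp only [vcRaw_some, VariableChange.mul_def, Units.val_mul, Option.some.injEq, Prod.mk.injEq]
    constructor <;> ring

lemma vcRaw_injective (C : VariableChange L) : Function.Injective (vcRaw C) := by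
  exact Function.LeftInverse.injective (g := vcRaw C⁻¹) fun p => by
    rw [← vcRaw_mul, mul_inv_cancel, vcRaw_one]

lemma valid_vcRaw (C : VariableChange L) (W : WeierstrassCurve L) (p : Option (L × L)) :
    Valid W (vcRaw C p) ↔ Valid (C • W) p := by
  rcases p with _ | ⟨x, y⟩
  · rfl
  · simp only [vcRaw_some, valid_some, Affine.equation_iff', variableChange_a₁, variableChange_a₂,
      variableChange_a₃, variableChange_a₄, variableChange_a₆, Units.val_inv_eq_inv_val]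
    have hu := C.u.ne_zero
    rw [← mul_eq_zero_iff_left (pow_ne_zero 6 (inv_ne_zero hu))]
    refine Eq.congr_left ?_
    field_simp
    ring

lemma rawMap_vcRaw (φ : L →+* L') (C : VariableChange L) (p : Option (L × L)) :
    rawMap φ (vcRaw C p) = vcRaw (C.map φ) (rawMap φ p) := by
  rcases p with _ | ⟨x, y⟩
  · rfl
  · simp [VariableChange.map]

lemma rawMap_injective (φ : L →+* L') : Function.Injective (rawMap φ) := by
  exact Option.map_injective (φ.injective.prodMap φ.injective)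

lemma valid_rawMap (φ : L →+* L') (W : WeierstrassCurve L) (p : Option (L × L)) :
    Valid (W.map φ) (rawMap φ p) ↔ Valid W p := by
  rcases p with _ | ⟨x, y⟩
  · rfl
  · exact Affine.map_equation _ φ.injective x y

lemma negC_smul {R : Type*} [CommRing R] (W : WeierstrassCurve R) : negC W • W = W := by
  ext
  all_goals
    simp only [negC, variableChange_a₁, variableChange_a₂, variableChange_a₃, variableChange_a₄,
      variableChange_a₆, inv_neg, inv_one, Units.val_neg, Units.val_one]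
    ring

lemma negC_ne_one {R : Type*} [CommRing R] [Nontrivial R] [NoZeroDivisors R]
    {W : WeierstrassCurve R} (hW : W.Δ ≠ 0) : negC W ≠ 1 := by
  intro h
  have h1 : (-1 : R) = 1 := congrArg (fun C : VariableChange R => (C.u : R)) h
  have h2 : -W.a₁ = 0 := congrArg VariableChange.s h
  have h3 : -W.a₃ = 0 := congrArg VariableChange.t h
  rw [neg_eq_zero] at h2 h3
  have b2 : W.b₂ = 0 := by
    rw [b₂, h2]
    linear_combination (-2 * W.a₂) * h1
  have b4 : W.b₄ = 0 := by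
    rw [b₄, h2]
    linear_combination (-W.a₄) * h1
  have b6 : W.b₆ = 0 := by
    rw [b₆, h3]
    linear_combination (-2 * W.a₆) * h1
  apply hW
  rw [Δ, b2, b4, b6]
  ring

lemma Delta_smul_ne_zero {R : Type*} [CommRing R] {W : WeierstrassCurve R}
    (C : VariableChange R) : (C • W).Δ ≠ 0 ↔ W.Δ ≠ 0 := by
  rw [variableChange_Δ, ne_eq, (C.u⁻¹.isUnit.pow 12).mul_right_eq_zero]

end SelAvg

/-!
Changes of variables and base change on points.
-/

namespace SelAvg

open WeierstrassCurve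
open scoped Classical

variable {L L' : Type*} [Field L] [Field L']

lemma vc_hom {W : WeierstrassCurve L} {W' : WeierstrassCurve L'} (X S : L → L') (Y : L → L → L')
    (hX : Function.Injective X) (hY : ∀ x, Function.Injective (Y x))
    (ns : ∀ x y, W.toAffine.Nonsingular x y → W'.toAffine.Nonsingular (X x) (Y x y))
    (ng : ∀ x y, W'.toAffine.negY (X x) (Y x y) = Y x (W.toAffine.negY x y))
    (sl : ∀ x₁ x₂ y₁ y₂, W.toAffine.Equation x₁ y₁ → W.toAffine.Equation x₂ y₂ →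
      ¬(x₁ = x₂ ∧ y₁ = W.toAffine.negY x₂ y₂) →
      W'.toAffine.slope (X x₁) (X x₂) (Y x₁ y₁) (Y x₂ y₂) = S (W.toAffine.slope x₁ x₂ y₁ y₂))
    (ax : ∀ x₁ x₂ l, W'.toAffine.addX (X x₁) (X x₂) (S l) = X (W.toAffine.addX x₁ x₂ l))
    (ay : ∀ x₁ x₂ y₁ l, W'.toAffine.negAddY (X x₁) (X x₂) (Y x₁ y₁) (S l) =
      Y (W.toAffine.addX x₁ x₂ l) (W.toAffine.negAddY x₁ x₂ y₁ l)) :
    ∃ e : W.toAffine.Point →+ W'.toAffine.Point,
      ∀ P, toRaw (e P) = (toRaw P).map fun p => (X p.1, Y p.1 p.2) := by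
  refine ⟨AddMonoidHom.mk' (fun P => match P with
    | .zero => 0
    | .some x y h => .some _ _ (ns x y h)) ?_, ?_⟩
  · rintro (_ | ⟨x₁, y₁, h₁⟩) (_ | ⟨x₂, y₂, h₂⟩)
    any_goals rfl
    by_cases hxy : x₁ = x₂ ∧ y₁ = W.toAffine.negY x₂ y₂
    · rw [Affine.Point.add_of_Y_eq hxy.1 hxy.2,
        Affine.Point.add_of_Y_eq (congrArg X hxy.1) (by rw [ng, hxy.1, hxy.2])]
    · rw [Affine.Point.add_some hxy, Affine.Point.add_some fun h => hxy ⟨hX h.1,
        hY x₂ (by rw [← ng, ← h.2, hX h.1])⟩]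
      simp only [sl _ _ _ _ h₁.1 h₂.1 hxy, Affine.addY, ax, ay, ng]
  · rintro (_ | _) <;> rfl

lemma vc_one (C : VariableChange L) (W : WeierstrassCurve L) :
    ∃ e : (C • W).toAffine.Point →+ W.toAffine.Point, ∀ P, toRaw (e P) = vcRaw C (toRaw P) := by
  have hu : (C.u : L) ≠ 0 := C.u.ne_zero
  have a1 : W.a₁ = C.u * (C • W).a₁ - 2 * C.s := by
    rw [variableChange_a₁, Units.val_inv_eq_inv_val]
    field_simp
    ring
  have a2 : W.a₂ = C.u ^ 2 * (C • W).a₂ + C.s * W.a₁ - 3 * C.r + C.s ^ 2 := by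
    rw [variableChange_a₂, Units.val_inv_eq_inv_val]
    field_simp
    ring
  have a3 : W.a₃ = C.u ^ 3 * (C • W).a₃ - C.r * W.a₁ - 2 * C.t := by
    rw [variableChange_a₃, Units.val_inv_eq_inv_val]
    field_simp
    ring
  have a4 : W.a₄ = C.u ^ 4 * (C • W).a₄ + C.s * W.a₃ - 2 * C.r * W.a₂ +
      (C.t + C.r * C.s) * W.a₁ - 3 * C.r ^ 2 + 2 * C.s * C.t := by
    rw [variableChange_a₄, Units.val_inv_eq_inv_val]
    field_simp
    ring
  have hv := valid_vcRaw C W
  generalize C • W = V at *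
  have hX : Function.Injective fun x => (C.u : L) ^ 2 * x + C.r := fun x x' h =>
    mul_left_cancel₀ (pow_ne_zero 2 hu) (add_right_cancel h)
  have py : ∀ x y, 2 * (C.u ^ 3 * y + C.u ^ 2 * C.s * x + C.t) + W.a₁ * (C.u ^ 2 * x + C.r) + W.a₃ =
      C.u ^ 3 * (2 * y + V.a₁ * x + V.a₃) := fun x y => by
    rw [a3, a1]
    ring
  have px : ∀ x y, W.a₁ * (C.u ^ 3 * y + C.u ^ 2 * C.s * x + C.t) -
      (3 * (C.u ^ 2 * x + C.r) ^ 2 + 2 * W.a₂ * (C.u ^ 2 * x + C.r) + W.a₄) =
      C.u ^ 4 * (V.a₁ * y - (3 * x ^ 2 + 2 * V.a₂ * x + V.a₄)) -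
        C.s * (C.u ^ 3 * (2 * y + V.a₁ * x + V.a₃)) := fun x y => by
    rw [a4, a3, a2, a1]
    ring
  have ng : ∀ x y, W.toAffine.negY (C.u ^ 2 * x + C.r) (C.u ^ 3 * y + C.u ^ 2 * C.s * x + C.t) =
      C.u ^ 3 * V.toAffine.negY x y + C.u ^ 2 * C.s * x + C.t := fun x y => by
    simp only [Affine.negY]
    linear_combination -py x y
  have ax : ∀ x₁ x₂ l, W.toAffine.addX (C.u ^ 2 * x₁ + C.r) (C.u ^ 2 * x₂ + C.r) (C.u * l + C.s) =
      C.u ^ 2 * V.toAffine.addX x₁ x₂ l + C.r := fun x₁ x₂ l => by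
    simp only [Affine.addX]
    rw [a2, a1]
    ring
  refine vc_hom (fun x => C.u ^ 2 * x + C.r) (fun l => C.u * l + C.s)
    (fun x y => C.u ^ 3 * y + C.u ^ 2 * C.s * x + C.t) hX (fun x y y' h =>
      mul_left_cancel₀ (pow_ne_zero 3 hu) (add_right_cancel (add_right_cancel h)))
    (fun x y h => ?_) ng (fun x₁ x₂ y₁ y₂ h₁ h₂ h => ?_) ax fun x₁ x₂ y₁ l => ?_
  · rw [Affine.nonsingular_iff'] at h ⊢
    refine ⟨(hv (some (x, y))).2 h.1, ?_⟩
    rw [px, py]
    by_cases e : 2 * y + V.a₁ * x + V.a₃ = 0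
    · rw [e, mul_zero, mul_zero, sub_zero]
      exact Or.inl (mul_ne_zero (pow_ne_zero 4 hu) (h.2.resolve_right fun k => k e))
    · exact Or.inr (mul_ne_zero (pow_ne_zero 3 hu) e)
  · by_cases hx : x₁ = x₂
    · have hy : y₁ ≠ V.toAffine.negY x₂ y₂ := fun k => h ⟨hx, k⟩
      obtain rfl := Affine.Y_eq_of_Y_ne h₁ h₂ hx hy
      subst hx
      have d : C.u ^ 3 * y₁ + C.u ^ 2 * C.s * x₁ + C.t - W.toAffine.negY (C.u ^ 2 * x₁ + C.r)
          (C.u ^ 3 * y₁ + C.u ^ 2 * C.s * x₁ + C.t) = C.u ^ 3 * (y₁ - V.toAffine.negY x₁ y₁) := by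
        rw [ng]
        ring
      have d' := mul_ne_zero (pow_ne_zero 3 hu) (sub_ne_zero.2 hy)
      rw [Affine.slope_of_Y_ne rfl hy, Affine.slope_of_Y_ne rfl (sub_ne_zero.1 (d ▸ d')), d,
        div_eq_iff d', add_mul, mul_mul_mul_comm, div_mul_cancel₀ _ (sub_ne_zero.2 hy), Affine.negY]
      linear_combination -px x₁ y₁
    · rw [Affine.slope_of_X_ne hx, Affine.slope_of_X_ne (hX.ne hx),
        div_eq_iff (sub_ne_zero.2 (hX.ne hx))]
      have := div_mul_cancel₀ (y₁ - y₂) (sub_ne_zero.2 hx)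
      linear_combination -C.u ^ 3 * this
  · simp only [Affine.negAddY, ax]
    ring

/-- A change of variables induces a group homomorphism on points.  Plan: nonsingularity is
transported (chain rule: the gradient at the image point is an invertible linear image of the
gradient); for the addition show `negY`, `slope`, `addX`, `addY` transform correctly:
the slope of the images is `u * slope + s`, then use `Affine.Point.add_of_Y_eq` and
`Affine.Point.add_some` as in the proof of `Affine.Point.map`. -/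
theorem exists_vcPt (C : VariableChange L) {W W' : WeierstrassCurve L} (h : W' = C • W) :
    ∃ e : W'.toAffine.Point ≃+ W.toAffine.Point, ∀ P, toRaw (e P) = vcRaw C (toRaw P) := by
  have k : ∀ (C : VariableChange L) {W W' : WeierstrassCurve L}, W' = C • W →
      ∃ e : W'.toAffine.Point →+ W.toAffine.Point, ∀ P, toRaw (e P) = vcRaw C (toRaw P) := by
    rintro C W _ rfl
    exact vc_one C W
  obtain ⟨e, he⟩ := k C h
  obtain ⟨e', he'⟩ := k C⁻¹ (W := W') (W' := W) (by rw [h, inv_smul_smul])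
  refine ⟨AddEquiv.ofBijective e ⟨fun P Q hP => toRaw_injective (vcRaw_injective C ?_),
    fun Q => ⟨e' Q, toRaw_injective ?_⟩⟩, he⟩
  · rw [← he, ← he, hP]
  · rw [he, he', ← vcRaw_mul, inv_mul_cancel, vcRaw_one]

/-- the isomorphism from the points of `C • W` to the points of `W` -/
noncomputable def vcPt (C : VariableChange L) {W W' : WeierstrassCurve L} (h : W' = C • W) :
    W'.toAffine.Point ≃+ W.toAffine.Point := (exists_vcPt C h).choose

lemma toRaw_vcPt (C : VariableChange L) {W W' : WeierstrassCurve L} (h : W' = C • W)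
    (P : W'.toAffine.Point) : toRaw (vcPt C h P) = vcRaw C (toRaw P) :=
  (exists_vcPt C h).choose_spec P

/-- Base change of points along a ring homomorphism (use `φ.toAlgebra` and `Affine.Point.map`,
or copy its proof with `map_addX`, `map_addY`, `map_slope`). -/
theorem exists_pmap (φ : L →+* L') {W : WeierstrassCurve L} {W' : WeierstrassCurve L'}
    (h : W' = W.map φ) :
    ∃ e : W.toAffine.Point →+ W'.toAffine.Point, ∀ P, toRaw (e P) = rawMap φ (toRaw P) := by
  subst h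
  exact vc_hom φ φ (fun _ => φ) φ.injective (fun _ => φ.injective)
    (fun x y => (W.toAffine.map_nonsingular φ.injective x y).2) (Affine.map_negY φ)
    (fun _ _ _ _ _ _ _ => Affine.map_slope φ _ _ _ _) (fun _ _ _ => Affine.map_addX φ _ _ _)
    fun _ _ _ _ => Affine.map_negAddY φ _ _ _ _

noncomputable def pmap (φ : L →+* L') {W : WeierstrassCurve L} {W' : WeierstrassCurve L'}
    (h : W' = W.map φ) : W.toAffine.Point →+ W'.toAffine.Point := (exists_pmap φ h).choose

lemma toRaw_pmap (φ : L →+* L') {W : WeierstrassCurve L} {W' : WeierstrassCurve L'}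
    (h : W' = W.map φ) (P : W.toAffine.Point) : toRaw (pmap φ h P) = rawMap φ (toRaw P) :=
  (exists_pmap φ h).choose_spec P

lemma pmap_injective (φ : L →+* L') {W : WeierstrassCurve L} {W' : WeierstrassCurve L'}
    (h : W' = W.map φ) : Function.Injective (pmap φ h) := by
  intro P P' hP
  apply toRaw_injective
  apply rawMap_injective φ
  rw [← toRaw_pmap φ h, ← toRaw_pmap φ h, hP]

/-- `2 P = 0` in coordinates. -/
lemma two_smul_eq_zero_iff {W : WeierstrassCurve L} {x y : L} (h : W.toAffine.Nonsingular x y) :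
    2 • Affine.Point.some x y h = 0 ↔ 2 * y + W.a₁ * x + W.a₃ = 0 := by
  rw [two_nsmul, add_eq_zero_iff_eq_neg, Affine.Point.neg_some, Affine.Point.some.injEq,
    Affine.negY]
  exact ⟨fun k => by linear_combination k.2, fun k => ⟨rfl, by linear_combination k⟩⟩

/-- At most four 2-torsion points: in characteristic 2 at most one `x` (if `a₁ = 0` then
`a₃ ≠ 0`) and `y^2` is determined; otherwise `x` is a root of `4x^3 + b₂x^2 + 2b₄x + b₆` and `y`
is determined by `x`. -/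
theorem two_torsion_le {W : WeierstrassCurve L} (hW : W.Δ ≠ 0)
    (s : Finset W.toAffine.Point) (hs : ∀ P ∈ s, 2 • P = 0) : s.card ≤ 4 := by
  have h0 : W.twoTorsionPolynomial.toPoly ≠ 0 := fun e => by
    rw [Cubic.toPoly_eq_zero_iff] at e
    have ha : (4 : L) = 0 := congrArg Cubic.a e
    have hb : W.b₂ = 0 := congrArg Cubic.b e
    have hd : W.b₆ = 0 := congrArg Cubic.d e
    refine hW ?_
    rw [Δ, hb, hd]
    linear_combination -2 * W.b₄ ^ 3 * ha
  have h1 := Finset.card_le_card_of_injOn (s := s)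
    (t := W.twoTorsionPolynomial.roots.toFinset.insertNone) (fun P => (toRaw P).map Prod.fst) ?_ ?_
  · rw [Finset.card_insertNone] at h1
    have := Cubic.card_roots_le (P := W.twoTorsionPolynomial)
    omega
  · rintro (_ | ⟨x, y, h⟩) hP
    · exact Finset.none_mem_insertNone
    · have k := (two_smul_eq_zero_iff h).1 (hs _ hP)
      have e := (Affine.equation_iff _ _).1 h.1
      refine Finset.some_mem_insertNone.2 (Multiset.mem_toFinset.2 ((Cubic.mem_roots_iff h0 x).2 ?_))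
      simp only [twoTorsionPolynomial, b₂, b₄, b₆]
      linear_combination (2 * y + W.a₁ * x + W.a₃) * k - 4 * e
  · rintro (_ | ⟨x, y, h⟩) hP (_ | ⟨x', y', h'⟩) hQ e
    · rfl
    · cases e
    · cases e
    · obtain rfl : x = x' := Option.some.inj e
      have k := (two_smul_eq_zero_iff h').1 (hs _ hQ)
      obtain rfl : y = y' := (Affine.Y_eq_of_X_eq h.1 h'.1 rfl).elim id fun m => by
        rw [m, Affine.negY]
        linear_combination -k
      rfl

end SelAvg

/-!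
Integrality of changes of variables and of group elements; stabilisers of Weierstrass equations.
-/

namespace SelAvg

open WeierstrassCurve

variable {R L : Type*} [CommRing R] [Field L]

/-- If `(1, r, s, t) • W = W'` then `r` satisfies a monic quartic equation over the coefficients:
from `b₆' = b₆ + 2 r b₄ + r^2 b₂ + 4 r^3` and `b₈' = b₈ + 3 r b₆ + 3 r^2 b₄ + r^3 b₂ + 3 r^4`. -/
lemma wsh_r_eq {W W' : WeierstrassCurve R} {r s t : R} (h : wsh r s t • W = W') :
    r ^ 4 - W.b₄ * r ^ 2 - (2 * W.b₆ + W'.b₆) * r + (W'.b₈ - W.b₈) = 0 := by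
  subst h
  simp only [wsh, variableChange_b₆, variableChange_b₈, inv_one, Units.val_one]
  ring

lemma wsh_s_eq {W W' : WeierstrassCurve R} {r s t : R} (h : wsh r s t • W = W') :
    s ^ 2 + W.a₁ * s + (W'.a₂ - W.a₂ - 3 * r) = 0 := by
  subst h
  simp only [wsh, variableChange_a₂, inv_one, Units.val_one]
  ring

lemma wsh_t_eq {W W' : WeierstrassCurve R} {r s t : R} (h : wsh r s t • W = W') :
    t ^ 2 + (W.a₃ + r * W.a₁) * t + (W'.a₆ - W.a₆ - r * W.a₄ - r ^ 2 * W.a₂ - r ^ 3) = 0 := by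
  subst h
  simp only [wsh, variableChange_a₆, inv_one, Units.val_one]
  ring

lemma vcint_quad [IsDomain R] [IsIntegrallyClosed R] [Algebra R L] [IsFractionRing R L]
    {a b : R} {x : L} (h : x ^ 2 + algebraMap R L a * x + algebraMap R L b = 0) :
    ∃ y, algebraMap R L y = x := by
  refine IsIntegrallyClosed.isIntegral_iff.mp
    ⟨Polynomial.X ^ 2 + Polynomial.C a * Polynomial.X + Polynomial.C b, by monicity!, ?_⟩
  simpa [Polynomial.eval₂_add, Polynomial.eval₂_mul, Polynomial.eval₂_pow] using h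

lemma vcint_quart [IsDomain R] [IsIntegrallyClosed R] [Algebra R L] [IsFractionRing R L]
    {a b c : R} {x : L}
    (h : x ^ 4 + algebraMap R L a * x ^ 2 + algebraMap R L b * x + algebraMap R L c = 0) :
    ∃ y, algebraMap R L y = x := by
  refine IsIntegrallyClosed.isIntegral_iff.mp
    ⟨Polynomial.X ^ 4 + Polynomial.C a * Polynomial.X ^ 2 + Polynomial.C b * Polynomial.X
      + Polynomial.C c, by monicity!, ?_⟩
  simpa [Polynomial.eval₂_add, Polynomial.eval₂_mul, Polynomial.eval₂_pow] using h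

lemma vcint_wsh_smul {W W' : WeierstrassCurve R} {C : VariableChange R} (h : C • W = W') :
    wsh C.r C.s C.t • W = wdiag C.u⁻¹ • W' := by
  rw [← h, ← mul_smul]
  congr 1
  ext <;> simp [wsh, wdiag, VariableChange.mul_def]

/-- Silverman VII.1.3: a change of variables with unit `u` between integral equations is integral.
Write `C = wdiag u * wsh r s t` and use the three monic equations with
`IsIntegrallyClosed.isIntegral_iff`. -/
theorem vc_integral [IsDomain R] [IsIntegrallyClosed R] [Algebra R L] [IsFractionRing R L]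
    {W W' : WeierstrassCurve R} {C : VariableChange L} (u : Rˣ)
    (hu : (C.u : L) = algebraMap R L u)
    (h : C • W.map (algebraMap R L) = W'.map (algebraMap R L)) :
    ∃ C₀ : VariableChange R, C₀.map (algebraMap R L) = C ∧ C₀ • W = W' := by
  have hinj : Function.Injective (algebraMap R L) := IsFractionRing.injective R L
  have hu' : Units.map (algebraMap R L : R →* L) u = C.u := Units.ext hu.symm
  have h1 : wsh C.r C.s C.t • W.map (algebraMap R L) =
      (wdiag u⁻¹ • W').map (algebraMap R L) := by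
    rw [vcint_wsh_smul h, ← map_variableChange, ← hu']
    simp [wdiag, VariableChange.map]
  obtain ⟨r, hr⟩ : ∃ y, algebraMap R L y = C.r := by
    have := wsh_r_eq h1
    simp only [map_b₄, map_b₆, map_b₈] at this
    refine vcint_quart (a := -W.b₄) (b := -(2 * W.b₆ + (wdiag u⁻¹ • W').b₆))
      (c := (wdiag u⁻¹ • W').b₈ - W.b₈) ?_
    simp only [map_neg, map_add, map_mul, map_sub, map_ofNat]
    linear_combination this
  obtain ⟨s, hs⟩ : ∃ y, algebraMap R L y = C.s := by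
    have := wsh_s_eq h1
    simp only [map_a₁, map_a₂, ← hr] at this
    refine vcint_quad (a := W.a₁) (b := (wdiag u⁻¹ • W').a₂ - W.a₂ - 3 * r) ?_
    simp only [map_mul, map_sub, map_ofNat]
    linear_combination this
  obtain ⟨t, ht⟩ : ∃ y, algebraMap R L y = C.t := by
    have := wsh_t_eq h1
    simp only [map_a₁, map_a₂, map_a₃, map_a₄, map_a₆, ← hr] at this
    refine vcint_quad (a := W.a₃ + r * W.a₁)
      (b := (wdiag u⁻¹ • W').a₆ - W.a₆ - r * W.a₄ - r ^ 2 * W.a₂ - r ^ 3) ?_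
    simp only [map_add, map_mul, map_sub, map_pow]
    linear_combination this
  have hC : (⟨u, r, s, t⟩ : VariableChange R).map (algebraMap R L) = C :=
    VariableChange.ext hu' hr hs ht
  refine ⟨⟨u, r, s, t⟩, hC, WeierstrassCurve.map_injective hinj ?_⟩
  change (_ • W).map _ = W'.map _
  rw [← map_variableChange, hC, h]

/-- A group element with integral matrix and unit `μ` between integral models is integral.
From `G.scale_smul`: with `f₁ = f.subst ..` integral, `r0^2 + f₁.l r0`, `r2^2 + f₁.n r2` and then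
`r1^2 + f₁.m r1` are integral. -/
theorem G_integral [IsDomain R] [IsIntegrallyClosed R] [Algebra R L] [IsFractionRing R L]
    {f f' : Model R} {g : G L} (M : GL (Fin 2) R) (μ : Rˣ)
    (hM : g.M = Matrix.GeneralLinearGroup.map (algebraMap R L) M)
    (hμ : (g.μ : L) = algebraMap R L μ)
    (h : g • f.map (algebraMap R L) = f'.map (algebraMap R L)) :
    ∃ g₀ : G R, G.map (algebraMap R L) g₀ = g ∧ g₀ • f = f' := by
  have hinj : Function.Injective (algebraMap R L) := IsFractionRing.injective R L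
  have hμ' : Units.map (algebraMap R L : R →* L) μ = g.μ := Units.ext hμ.symm
  have e11 : g.m11 = algebraMap R L (G.ofM M).m11 := by simp [G.m11, hM]
  have e12 : g.m12 = algebraMap R L (G.ofM M).m12 := by simp [G.m12, hM]
  have e21 : g.m21 = algebraMap R L (G.ofM M).m21 := by simp [G.m21, hM]
  have e22 : g.m22 = algebraMap R L (G.ofM M).m22 := by simp [G.m22, hM]
  have h1 := G.scale_smul g (f.map (algebraMap R L))
  rw [h, hμ, ← Model.map_scale, e11, e12, e21, e22, ← Model.map_subst] at h1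
  generalize f.subst (G.ofM M).m11 (G.ofM M).m12 (G.ofM M).m21 (G.ofM M).m22 = f₁ at h1
  generalize f'.scale (μ : R) = f₂ at h1
  have ha := congrArg Model.a h1
  have hc := congrArg Model.c h1
  have he := congrArg Model.e h1
  simp only [Model.shift, Model.map_a, Model.map_c, Model.map_e, Model.map_l, Model.map_m,
    Model.map_n] at ha hc he
  obtain ⟨r0, h0⟩ : ∃ y, algebraMap R L y = g.r0 := by
    refine vcint_quad (a := f₁.l) (b := f₂.a - f₁.a) ?_
    rw [map_sub]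
    linear_combination ha
  obtain ⟨r2, h2⟩ : ∃ y, algebraMap R L y = g.r2 := by
    refine vcint_quad (a := f₁.n) (b := f₂.e - f₁.e) ?_
    rw [map_sub]
    linear_combination he
  obtain ⟨r1, h1'⟩ : ∃ y, algebraMap R L y = g.r1 := by
    refine vcint_quad (a := f₁.m) (b := f₂.c - f₁.c + f₁.l * r2 + f₁.n * r0 + 2 * r0 * r2) ?_
    simp only [map_add, map_sub, map_mul, map_ofNat, h0, h2]
    linear_combination hc
  have hg : G.map (algebraMap R L) ⟨M, μ, r0, r1, r2⟩ = g := G.ext hM.symm hμ' h0 h1' h2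
  refine ⟨⟨M, μ, r0, r1, r2⟩, hg, Model.map_injective hinj ?_⟩
  rw [G.map_smul, hg, h]

lemma vcint_stab_one [IsDomain R] {W : WeierstrassCurve R} (h4 : W.c₄ ≠ 0)
    {C : VariableChange R} (hu : C.u = 1) (h : C • W = W) : C = 1 ∨ C = negC W := by
  obtain ⟨u, r, s, t⟩ := C
  subst hu
  have b2 := congrArg WeierstrassCurve.b₂ h
  have b4 := congrArg WeierstrassCurve.b₄ h
  have a1 := congrArg WeierstrassCurve.a₁ h
  have a2 := congrArg WeierstrassCurve.a₂ h
  have a3 := congrArg WeierstrassCurve.a₃ h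
  have a4 := congrArg WeierstrassCurve.a₄ h
  simp only [variableChange_b₂, variableChange_b₄, variableChange_a₁, variableChange_a₂,
    variableChange_a₃, variableChange_a₄, inv_one, Units.val_one, one_pow, one_mul]
    at b2 b4 a1 a2 a3 a4
  have hr : r = 0 := by
    refine (mul_eq_zero.mp (?_ : r * W.c₄ = 0)).resolve_right h4
    rw [WeierstrassCurve.c₄]
    linear_combination (W.b₂ - 6 * r) * b4 + (3 * r ^ 2 - 2 * W.b₄) * b2
  subst hr
  by_cases h2 : (2 : R) = 0
  · have ha1 : W.a₁ ≠ 0 := by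
      intro h0
      apply h4
      rw [WeierstrassCurve.c₄, WeierstrassCurve.b₂, h0]
      linear_combination (8 * W.a₂ ^ 2 - 12 * W.b₄) * h2
    have hs : s * (s + W.a₁) = 0 := by linear_combination -a2
    rcases mul_eq_zero.mp hs with hs | hs
    · left
      have ht : t * W.a₁ = 0 := by rw [hs] at a4; linear_combination -a4
      rw [hs, (mul_eq_zero.mp ht).resolve_right ha1, VariableChange.one_def]
    · right
      have hs' : s = -W.a₁ := by linear_combination hs
      have ht : (t + W.a₃) * W.a₁ = 0 := by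
        rw [hs'] at a4
        linear_combination -a4 + (W.a₁ * W.a₃ + W.a₁ * t) * h2
      have ht' : t = -W.a₃ := by linear_combination (mul_eq_zero.mp ht).resolve_right ha1
      have hu : (1 : Rˣ) = -1 := Units.ext (by simp only [Units.val_one, Units.val_neg]
                                               linear_combination h2)
      rw [hs', ht', negC, ← hu]
  · left
    have hs : s = 0 := mul_left_cancel₀ h2 (by linear_combination a1)
    have ht : t = 0 := mul_left_cancel₀ h2 (by linear_combination a3)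
    rw [hs, ht, VariableChange.one_def]

/-- If `c₄ c₆ ≠ 0` the only automorphisms are `± 1`.  From `variableChange_c₄`, `variableChange_c₆`
get `u^2 = 1`; after multiplying by `negC W` assume `u = 1`.  Then `12 r = 0` (from `b₂`),
`r b₂ + 6 r^2 = 0` (from `b₄`), `2 s = 0`, `r a₁ + 2 t = 0`, `3 r = s a₁ + s^2`, and the `a₄`
equation.  If `2 ≠ 0`: `s = 0`, `3 r = 0`, and if `3 = 0` then `c₄ = b₂^2`, so `r = 0`, `t = 0`.
If `2 = 0`: `c₄ = a₁^4`, so `r = 0`, `s = 0` or `s = a₁`, and `t a₁ = s a₃`; here `negC W` has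
`u = 1`. -/
theorem stab_generic [IsDomain R] {W : WeierstrassCurve R} (h4 : W.c₄ ≠ 0) (h6 : W.c₆ ≠ 0)
    {C : VariableChange R} (h : C • W = W) : C = 1 ∨ C = negC W := by
  have e4 := congrArg WeierstrassCurve.c₄ h
  have e6 := congrArg WeierstrassCurve.c₆ h
  rw [variableChange_c₄] at e4
  rw [variableChange_c₆] at e6
  have f4 : ((C.u⁻¹ : Rˣ) : R) ^ 4 = 1 := mul_right_cancel₀ h4 (by rw [e4, one_mul])
  have f6 : ((C.u⁻¹ : Rˣ) : R) ^ 6 = 1 := mul_right_cancel₀ h6 (by rw [e6, one_mul])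
  have f2 : ((C.u⁻¹ : Rˣ) : R) ^ 2 = 1 := by
    linear_combination f6 - ((C.u⁻¹ : Rˣ) : R) ^ 2 * f4
  rcases sq_eq_one_iff.mp f2 with hu | hu
  · exact vcint_stab_one h4 (inv_eq_one.mp (Units.ext hu)) h
  · have hu' : C.u = -1 := by
      have : C.u⁻¹ = -1 := Units.ext hu
      rw [← inv_inv C.u, this, inv_neg, inv_one]
    have hnn : negC W * negC W = 1 := by
      ext <;> simp [negC, VariableChange.mul_def, VariableChange.one_def]
      ring
    have h' : (C * negC W) • W = W := by rw [mul_smul, negC_smul, h]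
    have hu1 : (C * negC W).u = 1 := by simp [negC, VariableChange.mul_def, hu']
    rcases vcint_stab_one h4 hu1 h' with h1 | h1
    · right
      rw [← mul_one C, ← hnn, ← mul_assoc, h1, one_mul]
    · left
      exact mul_eq_right.mp h1

/-- At most 16 automorphisms with a given `u` (two of them differ by one with `u = 1`; then
`r`, `s`, `t` are roots of monic polynomials of degree 4, 2, 2). -/
theorem stab_card_le [IsDomain R] (W : WeierstrassCurve R) (u : Rˣ) (s : Finset (VariableChange R))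
    (hs : ∀ C ∈ s, C.u = u ∧ C • W = W) : s.card ≤ 16 := by
  classical
  set W' := wdiag u⁻¹ • W with hW'
  let P : Polynomial R := Polynomial.X ^ 4 + Polynomial.C (-W.b₄) * Polynomial.X ^ 2
    + Polynomial.C (-(2 * W.b₆ + W'.b₆)) * Polynomial.X + Polynomial.C (W'.b₈ - W.b₈)
  let Q : R → R → Polynomial R := fun a b =>
    Polynomial.X ^ 2 + Polynomial.C a * Polynomial.X + Polynomial.C b
  have hPm : P.Monic := by simp only [P]; monicity!
  have hPd : P.natDegree ≤ 4 := by simp only [P]; compute_degree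
  have hQm : ∀ a b, (Q a b).Monic := fun a b => by simp only [Q]; monicity!
  have hQd : ∀ a b, (Q a b).natDegree ≤ 2 := fun a b => by simp only [Q]; compute_degree
  have hQ : ∀ a b, (Q a b).roots.toFinset.card ≤ 2 := fun a b =>
    ((Multiset.toFinset_card_le _).trans (Polynomial.card_roots' _)).trans (hQd a b)
  have hP : P.roots.toFinset.card ≤ 4 :=
    ((Multiset.toFinset_card_le _).trans (Polynomial.card_roots' _)).trans hPd
  have hsub : s ⊆ P.roots.toFinset.biUnion fun r =>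
      ((Q W.a₁ (W'.a₂ - W.a₂ - 3 * r)).roots.toFinset ×ˢ
        (Q (W.a₃ + r * W.a₁) (W'.a₆ - W.a₆ - r * W.a₄ - r ^ 2 * W.a₂ - r ^ 3)).roots.toFinset).image
        fun p => (⟨u, r, p.1, p.2⟩ : VariableChange R) := by
    intro C hC
    obtain ⟨hu, hCW⟩ := hs C hC
    have h1 : wsh C.r C.s C.t • W = W' := by rw [vcint_wsh_smul hCW, hu]
    simp only [Finset.mem_biUnion, Finset.mem_image, Finset.mem_product, Multiset.mem_toFinset,
      Polynomial.mem_roots hPm.ne_zero, Polynomial.mem_roots (hQm _ _).ne_zero,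
      Polynomial.IsRoot.def]
    refine ⟨C.r, ?_, (C.s, C.t), ⟨?_, ?_⟩, by rw [← hu]⟩
    · simp only [P, Polynomial.eval_add, Polynomial.eval_mul, Polynomial.eval_pow,
        Polynomial.eval_C, Polynomial.eval_X]
      linear_combination wsh_r_eq h1
    · simp only [Q, Polynomial.eval_add, Polynomial.eval_mul, Polynomial.eval_pow,
        Polynomial.eval_C, Polynomial.eval_X]
      linear_combination wsh_s_eq h1
    · simp only [Q, Polynomial.eval_add, Polynomial.eval_mul, Polynomial.eval_pow,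
        Polynomial.eval_C, Polynomial.eval_X]
      linear_combination wsh_t_eq h1
  refine (Finset.card_le_card hsub).trans (Finset.card_biUnion_le_card_mul _ _ 4 ?_ |>.trans ?_)
  · intro r _
    refine Finset.card_image_le.trans ?_
    rw [Finset.card_product]
    exact Nat.mul_le_mul (hQ _ _) (hQ _ _)
  · omega

end SelAvg

/-!
The difference map `D W z Q Q'` (the point `Q' - Q` of the Jacobian) and the covering map `piP`.
-/

namespace SelAvg

open WeierstrassCurve
open scoped Classical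

variable {L L' : Type*} [Field L] [Field L']

namespace Pt

def Prim (Q : Pt L) : Prop := Q.x ≠ 0 ∨ Q.z ≠ 0

/-- the same point of weighted projective space -/
def Eqv (Q Q' : Pt L) : Prop := ∃ t : L, t ≠ 0 ∧ Q' = Q.sc t

/-- the determinant of the first two coordinates -/
def delta {R : Type*} [CommRing R] (Q Q' : Pt R) : R := Q.x * Q'.z - Q'.x * Q.z

lemma Eqv.refl (Q : Pt L) : Eqv Q Q := by
  exact ⟨1, one_ne_zero, by ext <;> simp⟩

lemma Eqv.symm {Q Q' : Pt L} (h : Eqv Q Q') : Eqv Q' Q := by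
  obtain ⟨t, ht, rfl⟩ := h
  refine ⟨t⁻¹, inv_ne_zero ht, ?_⟩
  ext <;> simp [ht]

lemma Eqv.trans {Q Q' Q'' : Pt L} (h : Eqv Q Q') (h' : Eqv Q' Q'') : Eqv Q Q'' := by
  obtain ⟨t, ht, rfl⟩ := h
  obtain ⟨s, hs, rfl⟩ := h'
  refine ⟨s * t, mul_ne_zero hs ht, ?_⟩
  ext <;> simp [mul_assoc, mul_pow]

lemma Eqv.pt {Q Q' : Pt L} (h : Eqv Q Q') (g : G L) : Eqv (g.pt Q) (g.pt Q') := by
  obtain ⟨t, ht, rfl⟩ := h
  exact ⟨t, ht, G.pt_sc g t Q⟩

lemma Eqv.map {Q Q' : Pt L} (h : Eqv Q Q') (φ : L →+* L') : Eqv (Q.map φ) (Q'.map φ) := by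
  obtain ⟨t, ht, rfl⟩ := h
  exact ⟨φ t, (map_ne_zero φ).2 ht, by ext <;> simp⟩

lemma Eqv.of_map {Q Q' : Pt L} (hQ : Q.Prim) (φ : L →+* L') (h : Eqv (Q.map φ) (Q'.map φ)) :
    Eqv Q Q' := by
  obtain ⟨t, ht, e⟩ := h
  have ex : φ Q'.x = t * φ Q.x := congrArg Pt.x e
  have ez : φ Q'.z = t * φ Q.z := congrArg Pt.z e
  have ey : φ Q'.y = t ^ 2 * φ Q.y := congrArg Pt.y e
  obtain ⟨s, rfl⟩ : ∃ s, φ s = t := by
    rcases hQ with h0 | h0
    · refine ⟨Q'.x / Q.x, ?_⟩
      rw [map_div₀, ex, mul_div_cancel_right₀ _ ((map_ne_zero φ).2 h0)]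
    · refine ⟨Q'.z / Q.z, ?_⟩
      rw [map_div₀, ez, mul_div_cancel_right₀ _ ((map_ne_zero φ).2 h0)]
  refine ⟨s, (map_ne_zero φ).1 ht, ?_⟩
  ext <;> apply φ.injective <;> simp [ex, ez, ey]

lemma Prim.pt {Q : Pt L} (h : Q.Prim) (g : G L) : (g.pt Q).Prim := by
  by_contra hn
  simp only [Prim, not_or, not_not, G.pt] at hn
  have hd : (g.det : L) ≠ 0 := g.det.ne_zero
  rw [G.det_val] at hd
  rcases h with h | h
  · exact mul_ne_zero h hd (by linear_combination g.m22 * hn.1 - g.m21 * hn.2)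
  · exact mul_ne_zero h hd (by linear_combination g.m11 * hn.2 - g.m12 * hn.1)

lemma prim_map {Q : Pt L} (φ : L →+* L') : (Q.map φ).Prim ↔ Q.Prim := by
  simp [Prim]

lemma prim_std : (std : Pt L).Prim := Or.inl one_ne_zero

lemma delta_pt (g : G L) (Q Q' : Pt L) : delta (g.pt Q) (g.pt Q') = g.det * delta Q Q' := by
  rw [G.det_val]
  simp only [delta, G.pt]
  ring

end Pt

namespace Model

/-- `Q` is a point of the curve -/
structure On (f : Model L) (Q : Pt L) : Prop where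
  prim : Q.Prim
  eq : f.F Q = 0

/-- `Q` is a smooth point -/
def Smooth (f : Model L) (Q : Pt L) : Prop := f.psi Q ≠ 0 ∨ f.Fx Q ≠ 0 ∨ f.Fz Q ≠ 0

/-- the curve has a rational point -/
def Soluble (f : Model L) : Prop := ∃ Q, f.On Q

/-- the curve has a rational point fixed by the involution -/
def Triv (f : Model L) : Prop := ∃ Q, f.On Q ∧ f.psi Q = 0

lemma on_pt (g : G L) (f : Model L) (Q : Pt L) : f.On (g.pt Q) ↔ (g • f).On Q := by
  constructor
  · rintro ⟨h1, h2⟩
    refine ⟨by simpa using h1.pt g⁻¹, ?_⟩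
    rw [G.F_pt] at h2
    exact (mul_eq_zero.1 h2).resolve_left (pow_ne_zero _ g.μ.ne_zero)
  · rintro ⟨h1, h2⟩
    exact ⟨h1.pt g, by rw [G.F_pt, h2, mul_zero]⟩

lemma On.eqv {f : Model L} {Q Q' : Pt L} (h : f.On Q) (e : Q.Eqv Q') : f.On Q' := by
  obtain ⟨t, ht, rfl⟩ := e
  exact ⟨h.prim.imp (mul_ne_zero ht) (mul_ne_zero ht), by rw [F_sc, h.eq, mul_zero]⟩

lemma On.inv {f : Model L} {Q : Pt L} (h : f.On Q) : f.On (f.inv Q) := by
  exact ⟨h.prim, by rw [F_inv, h.eq]⟩

lemma on_map (φ : L →+* L') (f : Model L) (Q : Pt L) : (f.map φ).On (Q.map φ) ↔ f.On Q := by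
  constructor
  · rintro ⟨h1, h2⟩
    rw [map_F] at h2
    exact ⟨(Pt.prim_map φ).1 h1, (map_eq_zero φ).1 h2⟩
  · rintro ⟨h1, h2⟩
    exact ⟨(Pt.prim_map φ).2 h1, by rw [map_F, h2, map_zero]⟩

lemma on_std {f : Model L} : f.On Pt.std ↔ f.a = 0 := by
  exact ⟨fun h => by simpa using h.eq, fun h => ⟨Pt.prim_std, by simp [h]⟩⟩

lemma smooth_std {f : Model L} (ha : f.a = 0) : f.Smooth Pt.std ↔ f.l ≠ 0 ∨ f.b ≠ 0 := by
  simp [Smooth, ha]

lemma diff0_smooth (g : G L) (f : Model L) (Q : Pt L) (h : (g • f).Smooth Q) :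
    f.Smooth (g.pt Q) := by
  by_contra hn
  simp only [Smooth, not_or, not_not] at hn
  have hμ : (g.μ : L) ≠ 0 := g.μ.ne_zero
  rcases h with h | h | h
  · exact mul_ne_zero hμ h (by rw [← G.psi_pt, hn.1])
  · exact mul_ne_zero (pow_ne_zero 2 hμ) h (by rw [G.Fx_pt, hn.1, hn.2.1, hn.2.2]; ring)
  · exact mul_ne_zero (pow_ne_zero 2 hμ) h (by rw [G.Fz_pt, hn.1, hn.2.1, hn.2.2]; ring)

/-- `G.psi_pt`, `G.Fx_pt`, `G.Fz_pt`; apply one implication to `g⁻¹` for the other. -/
lemma smooth_pt (g : G L) (f : Model L) (Q : Pt L) : f.Smooth (g.pt Q) ↔ (g • f).Smooth Q := by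
  refine ⟨fun h => ?_, diff0_smooth g f Q⟩
  have := diff0_smooth g⁻¹ (g • f) (g.pt Q) (by rwa [inv_smul_smul])
  rwa [G.inv_pt_pt] at this

lemma Smooth.eqv {f : Model L} {Q Q' : Pt L} (h : f.Smooth Q) (e : Q.Eqv Q') : f.Smooth Q' := by
  obtain ⟨t, ht, rfl⟩ := e
  unfold Smooth
  rw [psi_sc, Fx_sc, Fz_sc]
  exact h.imp (mul_ne_zero (pow_ne_zero _ ht))
    (Or.imp (mul_ne_zero (pow_ne_zero _ ht)) (mul_ne_zero (pow_ne_zero _ ht)))

lemma inv_eqv {f : Model L} {Q Q' : Pt L} (e : Q.Eqv Q') : (f.inv Q).Eqv (f.inv Q') := by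
  obtain ⟨t, ht, rfl⟩ := e
  exact ⟨t, ht, inv_sc f t Q⟩

/-- two points with `delta = 0` are equal or conjugate -/
lemma eqv_or_eqv_inv {f : Model L} {Q Q' : Pt L} (h : f.On Q) (h' : f.On Q')
    (hd : Q.delta Q' = 0) : Q.Eqv Q' ∨ (f.inv Q).Eqv Q' := by
  obtain ⟨t, hx, hz⟩ : ∃ t : L, Q'.x = t * Q.x ∧ Q'.z = t * Q.z := by
    unfold Pt.delta at hd
    rcases h.prim with h0 | h0
    · refine ⟨Q'.x / Q.x, by field_simp, ?_⟩
      field_simp
      linear_combination hd
    · refine ⟨Q'.z / Q.z, ?_, by field_simp⟩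
      field_simp
      linear_combination -hd
  have ht : t ≠ 0 := by
    rintro rfl
    rcases h'.prim with h0 | h0
    · exact h0 (by rw [hx, zero_mul])
    · exact h0 (by rw [hz, zero_mul])
  have e1 := h.eq
  have e2 := h'.eq
  simp only [F, hx, hz, q, g] at e1 e2
  have e : (Q'.y - t ^ 2 * Q.y) * (Q'.y - t ^ 2 * (-Q.y - f.q Q.x Q.z)) = 0 := by
    simp only [q]
    linear_combination e2 - t ^ 4 * e1
  rcases mul_eq_zero.1 e with e | e
  · exact Or.inl ⟨t, ht, Pt.ext hx hz (sub_eq_zero.1 e)⟩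
  · exact Or.inr ⟨t, ht, Pt.ext hx hz (sub_eq_zero.1 e)⟩

lemma eqv_inv_iff {f : Model L} {Q : Pt L} (h : f.On Q) : Q.Eqv (f.inv Q) ↔ f.psi Q = 0 := by
  constructor
  · rintro ⟨t, -, e⟩
    have ex : Q.x = t * Q.x := congrArg Pt.x e
    have ez : Q.z = t * Q.z := congrArg Pt.z e
    have ey : -Q.y - f.q Q.x Q.z = t ^ 2 * Q.y := congrArg Pt.y e
    have ht : t = 1 := by
      rcases h.prim with h0 | h0
      · exact mul_right_cancel₀ h0 (by rw [← ex, one_mul])
      · exact mul_right_cancel₀ h0 (by rw [← ez, one_mul])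
    rw [ht] at ey
    unfold psi
    linear_combination -ey
  · intro e
    refine ⟨1, one_ne_zero, Pt.ext (one_mul _).symm (one_mul _).symm ?_⟩
    unfold psi at e
    simp only [inv, Pt.sc_y]
    linear_combination -e

/-- if `a = l = b = 0` then `a₃ = a₄ = a₆ = 0` for the Jacobian -/
lemma l_or_b {f : Model L} (hΔ : f.jac.Δ ≠ 0) (ha : f.a = 0) : f.l ≠ 0 ∨ f.b ≠ 0 := by
  by_contra hn
  simp only [not_or, not_not] at hn
  apply hΔ
  simp [jac, WeierstrassCurve.Δ, WeierstrassCurve.b₂, WeierstrassCurve.b₄, WeierstrassCurve.b₆,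
    WeierstrassCurve.b₈, ha, hn.1, hn.2]

lemma soluble_smul (g : G L) (f : Model L) : (g • f).Soluble ↔ f.Soluble := by
  exact ⟨fun ⟨Q, h⟩ => ⟨_, (on_pt g f Q).2 h⟩,
    fun ⟨Q, h⟩ => ⟨g⁻¹.pt Q, (on_pt g f _).1 (by rwa [G.pt_inv_pt])⟩⟩

lemma triv_smul (g : G L) (f : Model L) : (g • f).Triv ↔ f.Triv := by
  constructor
  · rintro ⟨Q, h1, h2⟩
    exact ⟨_, (on_pt g f Q).2 h1, by rw [G.psi_pt, h2, mul_zero]⟩
  · rintro ⟨Q, h1, h2⟩
    refine ⟨g⁻¹.pt Q, (on_pt g f _).1 (by rwa [G.pt_inv_pt]), ?_⟩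
    have := G.psi_pt g f (g⁻¹.pt Q)
    rw [G.pt_inv_pt, h2] at this
    exact (mul_eq_zero.1 this.symm).resolve_left g.μ.ne_zero

end Model

end SelAvg

/-!
The isomorphism with the Jacobian in standard position.
-/

namespace SelAvg

open WeierstrassCurve
open scoped Classical

variable {L L' : Type*} [Field L] [Field L']

namespace Model

def NX {R : Type*} [CommRing R] (f : Model R) (Q : Pt R) : R :=
  f.l * (Q.y + f.q Q.x Q.z) + f.b * Q.x * Q.z

def NY {R : Type*} [CommRing R] (f : Model R) (Q : Pt R) : R :=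
  f.l ^ 2 * Q.x * (Q.y + f.q Q.x Q.z) + 2 * f.l * f.b * Q.x ^ 2 * Q.z + f.l * f.c * Q.x * Q.z ^ 2
    + f.b * Q.z * Q.y

def PX {R : Type*} [CommRing R] (f : Model R) : R := f.b ^ 2 + f.l * f.m * f.b - f.l ^ 2 * f.c

def PY {R : Type*} [CommRing R] (f : Model R) : R :=
  -f.b ^ 3 - 2 * f.l * f.m * f.b ^ 2 - f.l ^ 2 * f.m ^ 2 * f.b + f.l ^ 2 * f.b * f.c
    + f.l ^ 3 * f.m * f.c - f.l ^ 4 * f.d

/-- for `a = 0`: the image of the conjugate of the standard point -/
noncomputable def piStd (f : Model L) : Option (L × L) :=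
  if f.l = 0 then none else some (f.PX / f.l ^ 2, f.PY / f.l ^ 3)

/-- for `a = 0`: the isomorphism from the curve to its Jacobian sending the standard point
to the origin -/
noncomputable def stdDiff (f : Model L) (Q : Pt L) : Option (L × L) :=
  if Q.z = 0 then (if Q.y = 0 then none else f.piStd)
  else some (f.NX Q / Q.z ^ 2, f.NY Q / Q.z ^ 3)

lemma diff1_equation_div (W : WeierstrassCurve L) {X Y z : L} (hz : z ≠ 0)
    (h : Y ^ 2 + W.a₁ * X * Y * z + W.a₃ * Y * z ^ 3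
      = X ^ 3 + W.a₂ * X ^ 2 * z ^ 2 + W.a₄ * X * z ^ 4 + W.a₆ * z ^ 6) :
    W.toAffine.Equation (X / z ^ 2) (Y / z ^ 3) := by
  rw [Affine.equation_iff]
  field_simp
  linear_combination h

lemma diff1_P {R : Type*} [CommRing R] {f : Model R} (ha : f.a = 0) :
    f.PY ^ 2 + f.jac.a₁ * f.PX * f.PY * f.l + f.jac.a₃ * f.PY * f.l ^ 3
      = f.PX ^ 3 + f.jac.a₂ * f.PX ^ 2 * f.l ^ 2 + f.jac.a₄ * f.PX * f.l ^ 4
        + f.jac.a₆ * f.l ^ 6 := by
  simp only [jac, PX, PY, ha]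
  ring

lemma diff1_N {R : Type*} [CommRing R] {f : Model R} (ha : f.a = 0) {Q : Pt R}
    (hQ : f.F Q = 0) :
    f.NY Q ^ 2 + f.jac.a₁ * f.NX Q * f.NY Q * Q.z + f.jac.a₃ * f.NY Q * Q.z ^ 3
      = f.NX Q ^ 3 + f.jac.a₂ * f.NX Q ^ 2 * Q.z ^ 2 + f.jac.a₄ * f.NX Q * Q.z ^ 4
        + f.jac.a₆ * Q.z ^ 6 := by
  simp only [F, q, g, ha] at hQ
  simp only [jac, NX, NY, q, ha]
  linear_combination (-f.l ^ 4 * Q.x ^ 2 - f.l ^ 3 * f.m * Q.x * Q.z - f.l ^ 3 * f.n * Q.z ^ 2
    - f.l ^ 3 * Q.y - f.l ^ 2 * f.b * Q.x * Q.z - f.l ^ 2 * f.c * Q.z ^ 2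
    + f.l * f.m * f.b * Q.z ^ 2 + f.b ^ 2 * Q.z ^ 2) * hQ

lemma diff1_NX_sc {R : Type*} [CommRing R] (f : Model R) (t : R) (Q : Pt R) :
    f.NX (Q.sc t) = t ^ 2 * f.NX Q := by
  simp only [NX, q, Pt.sc]
  ring

lemma diff1_NY_sc {R : Type*} [CommRing R] (f : Model R) (t : R) (Q : Pt R) :
    f.NY (Q.sc t) = t ^ 3 * f.NY Q := by
  simp only [NY, q, Pt.sc]
  ring

lemma diff1_NX_scale {R : Type*} [CommRing R] (f : Model R) (t : R) (Q : Pt R) :
    (f.scale t).NX ⟨Q.x, Q.z, t * Q.y⟩ = t ^ 2 * f.NX Q := by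
  simp only [NX, q, scale]
  ring

lemma diff1_NY_scale {R : Type*} [CommRing R] (f : Model R) (t : R) (Q : Pt R) :
    (f.scale t).NY ⟨Q.x, Q.z, t * Q.y⟩ = t ^ 3 * f.NY Q := by
  simp only [NY, q, scale]
  ring

lemma diff1_PX_scale {R : Type*} [CommRing R] (f : Model R) (t : R) :
    (f.scale t).PX = t ^ 4 * f.PX := by
  simp only [PX, scale]
  ring

lemma diff1_PY_scale {R : Type*} [CommRing R] (f : Model R) (t : R) :
    (f.scale t).PY = t ^ 6 * f.PY := by
  simp only [PY, scale]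
  ring

section Ident

variable {R : Type*} [CommRing R] {f : Model R}

lemma diff1_id_NX (ha : f.a = 0) (α γ δ r1 r2 x z y : R) :
    α ^ 2 * f.NX ⟨x * α + z * γ, z * δ, y + (r1 * x * z + r2 * z ^ 2)⟩ =
      ((f.subst α 0 γ δ).shift 0 r1 r2).NX ⟨x, z, y⟩
        + ((f.subst α 0 γ δ).shR 0 r2 + f.subR α 0 γ δ) * z ^ 2 := by
  simp only [NX, q, subst, shift, shR, subR, ha]
  ring

lemma diff1_id_NY (ha : f.a = 0) (α γ δ r1 r2 x z y : R) :
    α ^ 3 * f.NY ⟨x * α + z * γ, z * δ, y + (r1 * x * z + r2 * z ^ 2)⟩ =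
      ((f.subst α 0 γ δ).shift 0 r1 r2).NY ⟨x, z, y⟩
        + (r1 + f.subS α 0 γ δ) * z * ((f.subst α 0 γ δ).shift 0 r1 r2).NX ⟨x, z, y⟩
        + ((f.subst α 0 γ δ).shT 0 r1 r2 + (f.subst α 0 γ δ).shR 0 r2 * f.subS α 0 γ δ
          + f.subT α 0 γ δ) * z ^ 3 := by
  simp only [NX, NY, q, subst, shift, shR, shT, subS, subT, ha]
  ring

lemma diff1_id_l (α γ δ r1 r2 : R) : ((f.subst α 0 γ δ).shift 0 r1 r2).l = f.l * α ^ 2 := by
  simp only [subst, shift]
  ring

lemma diff1_id_PX (ha : f.a = 0) (α γ δ r1 r2 : R) :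
    α ^ 6 * δ ^ 2 * f.PX = ((f.subst α 0 γ δ).shift 0 r1 r2).PX
      + ((f.subst α 0 γ δ).shR 0 r2 + f.subR α 0 γ δ) * (f.l * α ^ 2) ^ 2 := by
  simp only [PX, subst, shift, shR, subR, ha]
  ring

lemma diff1_id_PY (ha : f.a = 0) (α γ δ r1 r2 : R) :
    α ^ 9 * δ ^ 3 * f.PY = ((f.subst α 0 γ δ).shift 0 r1 r2).PY
      + (r1 + f.subS α 0 γ δ) * (f.l * α ^ 2) * ((f.subst α 0 γ δ).shift 0 r1 r2).PX
      + ((f.subst α 0 γ δ).shT 0 r1 r2 + (f.subst α 0 γ δ).shR 0 r2 * f.subS α 0 γ δ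
        + f.subT α 0 γ δ) * (f.l * α ^ 2) ^ 3 := by
  simp only [PX, PY, subst, shift, shR, shT, subS, subT, ha]
  ring

end Ident

lemma diff1_frac {α δ μ z X Y X' Y' ρ σ τ : L} (hα : α ≠ 0) (hδ : δ ≠ 0) (_hμ : μ ≠ 0)
    (hz : z ≠ 0) (hX : α ^ 2 * X' = μ ^ 2 * X + ρ * z ^ 2)
    (hY : α ^ 3 * Y' = μ ^ 3 * Y + σ * z * (μ ^ 2 * X) + τ * z ^ 3) :
    (μ * (α * δ)⁻¹) ^ 2 * (X / z ^ 2) + ρ * (α * δ)⁻¹ ^ 2 = X' / (z * δ) ^ 2 ∧
    (μ * (α * δ)⁻¹) ^ 3 * (Y / z ^ 3) + (μ * (α * δ)⁻¹) ^ 2 * (σ * (α * δ)⁻¹) * (X / z ^ 2)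
      + τ * (α * δ)⁻¹ ^ 3 = Y' / (z * δ) ^ 3 := by
  constructor
  · field_simp
    linear_combination -hX
  · field_simp
    linear_combination -hY

/-- `PY^2 + a₁ PX PY l + a₃ PY l^3 = PX^3 + a₂ PX^2 l^2 + a₄ PX l^4 + a₆ l^6` holds identically
when `a = 0`. -/
lemma valid_piStd {f : Model L} (ha : f.a = 0) : Valid f.jac f.piStd := by
  unfold piStd
  split_ifs with hl
  · trivial
  · exact diff1_equation_div _ hl (diff1_P ha)

/-- `NY^2 + a₁ NX NY z + a₃ NY z^3 - NX^3 - a₂ NX^2 z^2 - a₄ NX z^4 - a₆ z^6` equals `F` times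
`-l^4 x^2 - l^3 m x z - l^3 n z^2 - l^3 y - l^2 b x z - l^2 c z^2 + l m b z^2 + b^2 z^2`
when `a = 0`. -/
lemma valid_stdDiff {f : Model L} (ha : f.a = 0) {Q : Pt L} (hQ : f.On Q) :
    Valid f.jac (f.stdDiff Q) := by
  unfold stdDiff
  split_ifs with hz hy
  · trivial
  · exact valid_piStd ha
  · exact diff1_equation_div _ hz (diff1_N ha hQ.eq)

lemma stdDiff_eqv (f : Model L) {Q Q' : Pt L} (e : Q.Eqv Q') : f.stdDiff Q = f.stdDiff Q' := by
  obtain ⟨t, ht, rfl⟩ := e
  unfold stdDiff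
  rw [diff1_NX_sc, diff1_NY_sc]
  simp only [Pt.sc_z, Pt.sc_y, mul_eq_zero, ht, false_or, pow_eq_zero_iff, two_ne_zero, ne_eq,
    not_false_eq_true]
  split_ifs with hz hy
  · rfl
  · rfl
  · congr 2 <;> field_simp

lemma stdDiff_map (φ : L →+* L') (f : Model L) (Q : Pt L) :
    (f.map φ).stdDiff (Q.map φ) = rawMap φ (f.stdDiff Q) := by
  unfold stdDiff piStd
  simp only [Pt.map_z, Pt.map_y, map_l, map_eq_zero]
  split_ifs with hz hy hl
  · rfl
  · rfl
  · simp [PX, PY, map_ofNat]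
  · simp [NX, NY, q, map_ofNat]

/-- Equivariance under the stabiliser of the standard point.  With
`f₂ = (g • f).scale μ = (f.subst m11 0 m21 m22).shift 0 r1 r2`, `Q₂ = (x, z, μ y)` and
`ρ, σ, τ` the numerators in `G.Gam_r`, `G.Gam_s`, `G.Gam_t`, the following hold identically
(for `a = 0`): `m11^2 NX f (g.pt Q) = NX f₂ Q₂ + ρ z^2`,
`m11^3 NY f (g.pt Q) = NY f₂ Q₂ + σ z NX f₂ Q₂ + τ z^3`,
`m11^6 m22^2 PX f = PX f₂ + ρ f₂.l^2`, `m11^9 m22^3 PY f = PY f₂ + σ f₂.l PX f₂ + τ f₂.l^3`,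
`f₂.l = l m11^2`; here `det = m11 m22`. -/
theorem stdDiff_B {f : Model L} (ha : f.a = 0) {g : G L} (h12 : g.m12 = 0) (h0 : g.r0 = 0)
    (Q : Pt L) : vcRaw (g.Gam f) ((g • f).stdDiff Q) = f.stdDiff (g.pt Q) := by
  have hdet : (g.det : L) = g.m11 * g.m22 := by rw [G.det_val, h12]; ring
  have hd0 : g.m11 * g.m22 ≠ 0 := hdet ▸ g.det.ne_zero
  have h11 : g.m11 ≠ 0 := left_ne_zero_of_mul hd0
  have h22 : g.m22 ≠ 0 := right_ne_zero_of_mul hd0
  have hμ : (g.μ : L) ≠ 0 := g.μ.ne_zero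
  have hf : (g • f).scale (g.μ : L) = (f.subst g.m11 0 g.m21 g.m22).shift 0 g.r1 g.r2 := by
    rw [G.scale_smul, h12, h0]
  have hpt : g.pt Q = ⟨Q.x * g.m11 + Q.z * g.m21, Q.z * g.m22,
      g.μ * Q.y + (g.r1 * Q.x * Q.z + g.r2 * Q.z ^ 2)⟩ := by
    ext <;> simp [G.pt, h12, h0]
  have hu : ((g.Gam f).u : L) = g.μ * (g.m11 * g.m22)⁻¹ := by
    rw [G.Gam_u, Units.val_mul, Units.val_inv_eq_inv_val, hdet]
  have hr := G.Gam_r g f
  have hs := G.Gam_s g f
  have ht := G.Gam_t g f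
  rw [Units.val_inv_eq_inv_val, hdet, h12] at hr hs ht
  rw [h0] at hr ht
  have hl : (g.μ : L) * (g • f).l = f.l * g.m11 ^ 2 := by
    rw [← diff1_id_l g.m11 g.m21 g.m22 g.r1 g.r2, ← hf]
    rfl
  by_cases hz : Q.z = 0
  · have hz' : (g.pt Q).z = 0 := by simp [hpt, hz]
    have hy' : (g.pt Q).y = 0 ↔ Q.y = 0 := by simp [hpt, hz]
    simp only [stdDiff, hz, hz', hy', if_true]
    by_cases hy : Q.y = 0
    · simp [hy]
    · simp only [hy, if_false, piStd]
      have hl' : (g • f).l = 0 ↔ f.l = 0 := by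
        constructor
        · intro h
          rw [h, mul_zero] at hl
          exact (mul_eq_zero.1 hl.symm).resolve_right (pow_ne_zero _ h11)
        · intro h
          rw [h, zero_mul] at hl
          exact (mul_eq_zero.1 hl).resolve_left hμ
      by_cases hl0 : f.l = 0
      · simp [hl0, hl'.2 hl0]
      · have hl1 : (g • f).l ≠ 0 := fun h => hl0 (hl'.1 h)
        have hX := diff1_id_PX ha g.m11 g.m21 g.m22 g.r1 g.r2
        have hY := diff1_id_PY ha g.m11 g.m21 g.m22 g.r1 g.r2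
        rw [← hf, diff1_PX_scale, ← hl] at hX hY
        rw [diff1_PY_scale] at hY
        have key := diff1_frac (α := g.m11) (δ := g.m22) (μ := g.μ) (z := (g • f).l)
          (X := (g • f).PX) (Y := (g • f).PY)
          (X' := g.m11 ^ 4 * g.m22 ^ 2 * f.PX / g.μ ^ 2)
          (Y' := g.m11 ^ 6 * g.m22 ^ 3 * f.PY / g.μ ^ 3)
          (ρ := (f.subst g.m11 0 g.m21 g.m22).shR 0 g.r2 + f.subR g.m11 0 g.m21 g.m22)
          (σ := g.r1 + f.subS g.m11 0 g.m21 g.m22)
          (τ := (f.subst g.m11 0 g.m21 g.m22).shT 0 g.r1 g.r2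
            + (f.subst g.m11 0 g.m21 g.m22).shR 0 g.r2 * f.subS g.m11 0 g.m21 g.m22
            + f.subT g.m11 0 g.m21 g.m22) h11 h22 hμ hl1
          (by field_simp; linear_combination hX) (by field_simp; linear_combination hY)
        have hl2 : (g • f).l = f.l * g.m11 ^ 2 / g.μ := by
          rw [← hl]; field_simp
        rw [if_neg hl1, if_neg hl0, vcRaw_some, hu, hr, hs, ht, key.1, key.2, hl2]
        congr 2 <;> field_simp
  · have hz' : (g.pt Q).z ≠ 0 := by simp [hpt, hz, h22]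
    have hX := diff1_id_NX ha g.m11 g.m21 g.m22 g.r1 g.r2 Q.x Q.z (g.μ * Q.y)
    have hY := diff1_id_NY ha g.m11 g.m21 g.m22 g.r1 g.r2 Q.x Q.z (g.μ * Q.y)
    rw [← hf, diff1_NX_scale, ← hpt] at hX hY
    rw [diff1_NY_scale] at hY
    have key := diff1_frac h11 h22 hμ hz hX hY
    have hzz : (g.pt Q).z = Q.z * g.m22 := by rw [hpt]
    rw [stdDiff, stdDiff, if_neg hz, if_neg hz', vcRaw_some, hu, hr, hs, ht, key.1, key.2, hzz]

end Model

/-- a group element sending the standard point to `Q` -/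
noncomputable def mover (Q : Pt L) : G L :=
  if hx : Q.x ≠ 0 then
    ⟨Matrix.GeneralLinearGroup.mkOfDetNeZero !![Q.x, Q.z; 0, 1]
      (by simpa [Matrix.det_fin_two] using hx), 1, Q.y, 0, 0⟩
  else if hz : Q.z ≠ 0 then
    ⟨Matrix.GeneralLinearGroup.mkOfDetNeZero !![Q.x, Q.z; 1, 0]
      (by simpa [Matrix.det_fin_two] using hz), 1, Q.y, 0, 0⟩
  else 1

lemma mover_pt {Q : Pt L} (h : Q.Prim) : (mover Q).pt Pt.std = Q := by
  rw [G.pt_std]
  unfold mover
  split_ifs with hx hz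
  · ext <;> simp [G.m11, G.m12]
  · ext <;> simp [G.m11, G.m12]
  · exact absurd h (fun h => h.elim hx hz)

lemma mover_std : mover (Pt.std : Pt L) = 1 := by
  unfold mover
  rw [dif_pos (show (Pt.std : Pt L).x ≠ 0 from one_ne_zero)]
  refine G.ext ?_ rfl rfl rfl rfl
  ext i j
  fin_cases i <;> fin_cases j <;> simp

lemma mover_map (φ : L →+* L') (Q : Pt L) : mover (Q.map φ) = G.map φ (mover Q) := by
  unfold mover
  by_cases hx : Q.x ≠ 0
  · rw [dif_pos hx, dif_pos (show (Q.map φ).x ≠ 0 by simpa using hx)]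
    refine G.ext ?_ (by simp) (by simp) (by simp) (by simp)
    ext i j
    fin_cases i <;> fin_cases j <;> simp
  · rw [dif_neg hx, dif_neg (show ¬ (Q.map φ).x ≠ 0 by simpa using hx)]
    by_cases hz : Q.z ≠ 0
    · rw [dif_pos hz, dif_pos (show (Q.map φ).z ≠ 0 by simpa using hz)]
      refine G.ext ?_ (by simp) (by simp) (by simp) (by simp)
      ext i j
      fin_cases i <;> fin_cases j <;> simp
    · rw [dif_neg hz, dif_neg (show ¬ (Q.map φ).z ≠ 0 by simpa using hz), map_one]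

/-- the difference `Q' - Q` as a point of `W` -/
noncomputable def D (W : WeierstrassCurve L) (z : Obj L) (Q Q' : Pt L) : W.toAffine.Point :=
  ofRaw W (vcRaw (mover Q • z).γ ((mover Q • z).f.stdDiff ((mover Q)⁻¹.pt Q')))

/-- the covering map -/
noncomputable def piP (W : WeierstrassCurve L) (z : Obj L) (Q : Pt L) : W.toAffine.Point :=
  D W z Q (z.f.inv Q)

end SelAvg

/-!
The API of the difference map.
-/

namespace SelAvg

open WeierstrassCurve
open scoped Classical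

variable {L L' : Type*} [Field L] [Field L']

section API

variable {W : WeierstrassCurve L} {z : Obj L}

lemma Obj.Over.jac_Delta (hW : W.Δ ≠ 0) (hz : z.Over W) : z.f.jac.Δ ≠ 0 := by
  rw [show z.f.jac = z.γ • W from hz]
  exact (Delta_smul_ne_zero z.γ).2 hW

lemma diff_a {f : Model L} {Q : Pt L} (hQ : f.On Q) : (mover Q • f).a = 0 :=
  Model.on_std.1 ((Model.on_pt _ f _).1 ((mover_pt hQ.prim).symm ▸ hQ))

lemma diff_on (g : G L) {f : Model L} {Q : Pt L} (hQ : f.On Q) : (g • f).On (g⁻¹.pt Q) :=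
  (Model.on_pt g f _).1 (by rwa [G.pt_inv_pt])

lemma diff_raw (hW : W.Δ ≠ 0) (hz : z.Over W) {Q Q' : Pt L} (hQ : z.f.On Q) (hQ' : z.f.On Q') :
    toRaw (D W z Q Q') =
      vcRaw (mover Q • z).γ ((mover Q • z).f.stdDiff ((mover Q)⁻¹.pt Q')) := by
  refine toRaw_ofRaw hW ((valid_vcRaw _ _ _).2 ?_)
  rw [← show (mover Q • z).f.jac = (mover Q • z).γ • W from hz.smul (mover Q)]
  exact Model.valid_stdDiff (diff_a hQ) (diff_on _ hQ')

/-- any `g` sending the standard point to `Q` computes `D`: apply `stdDiff_B` to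
`g * (mover Q)⁻¹`, which has `m12 = 0` and `r0 = 0` (`G.pt_std`), and use `G.Gam_mul`,
`vcRaw_mul`. -/
theorem toRaw_D (hW : W.Δ ≠ 0) (hz : z.Over W) {Q Q' : Pt L} (hQ : z.f.On Q) (hQ' : z.f.On Q')
    (g : G L) (hg : (g.pt Pt.std).Eqv Q) :
    toRaw (D W z Q Q') = vcRaw (g • z).γ ((g • z).f.stdDiff (g⁻¹.pt Q')) := by
  obtain ⟨h, rfl⟩ : ∃ h, g = h * mover Q := ⟨g * (mover Q)⁻¹, by simp⟩
  have e := hg.pt (mover Q)⁻¹
  rw [G.mul_pt, G.inv_pt_pt] at e
  nth_rewrite 2 [← mover_pt hQ.prim] at e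
  rw [G.inv_pt_pt, G.pt_std] at e
  obtain ⟨t, ht, e⟩ := e
  have h12 : h.m12 = 0 := by simpa [ht] using congrArg Pt.z e
  have h0 : h.r0 = 0 := by simpa [ht] using congrArg Pt.y e
  have e2 : h.pt ((h * mover Q)⁻¹.pt Q') = (mover Q)⁻¹.pt Q' := by
    rw [← G.mul_pt]
    simp
  rw [diff_raw hW hz hQ hQ', mul_smul, Obj.smul_γ h, vcRaw_mul, Obj.smul_f h,
    Model.stdDiff_B (f := (mover Q • z).f) (diff_a hQ) h12 h0, e2]

lemma toRaw_D_std (hW : W.Δ ≠ 0) (hz : z.Over W) (ha : z.f.a = 0) {Q : Pt L} (hQ : z.f.On Q) :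
    toRaw (D W z Pt.std Q) = vcRaw z.γ (z.f.stdDiff Q) := by
  have := toRaw_D hW hz (Model.on_std.2 ha) hQ 1 (by rw [G.one_pt]; exact Pt.Eqv.refl _)
  rwa [one_smul, inv_one, G.one_pt] at this

lemma toRaw_piP_std (hW : W.Δ ≠ 0) (hz : z.Over W) (ha : z.f.a = 0) :
    toRaw (piP W z Pt.std) = vcRaw z.γ z.f.piStd := by
  rw [piP, toRaw_D_std hW hz ha (Model.on_std.2 ha).inv]
  congr 1
  by_cases hl : z.f.l = 0 <;> simp [Model.stdDiff, Model.inv, Model.q, Model.piStd, hl]

theorem D_smul (hW : W.Δ ≠ 0) (hz : z.Over W) (g : G L) {Q Q' : Pt L} (hQ : (g • z).f.On Q)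
    (hQ' : (g • z).f.On Q') : D W (g • z) Q Q' = D W z (g.pt Q) (g.pt Q') := by
  apply toRaw_injective
  have e : (mover Q * g)⁻¹.pt (g.pt Q') = (mover Q)⁻¹.pt Q' := by
    rw [← G.mul_pt]
    simp
  rw [diff_raw hW (hz.smul g) hQ hQ', toRaw_D hW hz ((Model.on_pt g _ _).2 hQ)
    ((Model.on_pt g _ _).2 hQ') (mover Q * g)
    (by rw [G.mul_pt, mover_pt hQ.prim]; exact Pt.Eqv.refl _), mul_smul, e]

theorem piP_smul (hW : W.Δ ≠ 0) (hz : z.Over W) (g : G L) {Q : Pt L} (hQ : (g • z).f.On Q) :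
    piP W (g • z) Q = piP W z (g.pt Q) := by
  rw [piP, piP, D_smul hW hz g hQ hQ.inv, G.inv_pt]
  rfl

lemma D_eqv (hW : W.Δ ≠ 0) (hz : z.Over W) {Q₁ Q₁' Q₂ Q₂' : Pt L} (h₁ : z.f.On Q₁)
    (h₂ : z.f.On Q₂) (e₁ : Q₁.Eqv Q₁') (e₂ : Q₂.Eqv Q₂') : D W z Q₁ Q₂ = D W z Q₁' Q₂' := by
  apply toRaw_injective
  rw [diff_raw hW hz h₁ h₂, toRaw_D hW hz (h₁.eqv e₁) (h₂.eqv e₂) (mover Q₁)
    (by rwa [mover_pt h₁.prim]), Model.stdDiff_eqv _ (e₂.pt _)]

lemma piP_eqv (hW : W.Δ ≠ 0) (hz : z.Over W) {Q Q' : Pt L} (h : z.f.On Q) (e : Q.Eqv Q') :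
    piP W z Q = piP W z Q' := by
  exact D_eqv hW hz h h.inv e (Model.inv_eqv e)

lemma diff_none {f : Model L} (ha : f.a = 0) {Q : Pt L} (hQ : f.On Q) :
    f.stdDiff Q = none ↔ (Pt.std : Pt L).Eqv Q := by
  constructor
  · intro h
    have hz : Q.z = 0 := by
      by_contra hz
      simp [Model.stdDiff, hz] at h
    have hx : Q.x ≠ 0 := hQ.prim.resolve_right (not_not.2 hz)
    have hy : Q.y = 0 := by
      by_contra hy
      have hl : f.l = 0 := by
        by_contra hl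
        simp [Model.stdDiff, Model.piStd, hz, hy, hl] at h
      have := hQ.eq
      simp [Model.F, Model.q, Model.g, hz, ha, hl, hy] at this
    exact ⟨Q.x, hx, by ext <;> simp [hz, hy]⟩
  · rintro ⟨t, -, rfl⟩
    simp [Model.stdDiff]

/-- `D = 0` exactly on the diagonal (for `z = 0`, `y ≠ 0` on a standard model, `l ≠ 0`) -/
lemma D_eq_zero_iff (hW : W.Δ ≠ 0) (hz : z.Over W) {Q Q' : Pt L} (hQ : z.f.On Q)
    (hQ' : z.f.On Q') : D W z Q Q' = 0 ↔ Q.Eqv Q' := by
  rw [← toRaw_eq_none, diff_raw hW hz hQ hQ', vcRaw, Option.map_eq_none_iff, Obj.smul_f,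
    diff_none (diff_a hQ) (diff_on _ hQ')]
  constructor
  · intro h
    have := h.pt (mover Q)
    rwa [mover_pt hQ.prim, G.pt_inv_pt] at this
  · intro h
    have := h.pt (mover Q)⁻¹
    nth_rewrite 2 [← mover_pt hQ.prim] at this
    rwa [G.inv_pt_pt] at this

lemma piP_eq_zero_iff (hW : W.Δ ≠ 0) (hz : z.Over W) {Q : Pt L} (hQ : z.f.On Q) :
    piP W z Q = 0 ↔ z.f.psi Q = 0 := by
  rw [piP, D_eq_zero_iff hW hz hQ hQ.inv, Model.eqv_inv_iff hQ]

theorem toRaw_D_map (φ : L →+* L') (hW : W.Δ ≠ 0) (hz : z.Over W) {Q Q' : Pt L} (hQ : z.f.On Q)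
    (hQ' : z.f.On Q') :
    toRaw (D (W.map φ) (z.map φ) (Q.map φ) (Q'.map φ)) = rawMap φ (toRaw (D W z Q Q')) := by
  have hW' : (W.map φ).Δ ≠ 0 := by
    rw [map_Δ]
    exact (map_ne_zero φ).2 hW
  rw [diff_raw hW' (hz.map φ) ((Model.on_map φ _ _).2 hQ) ((Model.on_map φ _ _).2 hQ'),
    diff_raw hW hz hQ hQ', mover_map, ← Obj.map_smul, ← map_inv, G.map_pt, Obj.map_f,
    Model.stdDiff_map, rawMap_vcRaw, Obj.map_γ]

theorem toRaw_piP_map (φ : L →+* L') (hW : W.Δ ≠ 0) (hz : z.Over W) {Q : Pt L} (hQ : z.f.On Q) :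
    toRaw (piP (W.map φ) (z.map φ) (Q.map φ)) = rawMap φ (toRaw (piP W z Q)) := by
  rw [piP, piP, Obj.map_f, Model.map_inv, toRaw_D_map φ hW hz hQ hQ.inv]

theorem toRaw_D_rmul (C : VariableChange L) (hW : W.Δ ≠ 0) (hz : z.Over (C • W)) {Q Q' : Pt L}
    (hQ : z.f.On Q) (hQ' : z.f.On Q') :
    toRaw (D W (z.rmul C) Q Q') = vcRaw C (toRaw (D (C • W) z Q Q')) := by
  rw [diff_raw hW hz.rmul hQ hQ', diff_raw ((Delta_smul_ne_zero C).2 hW) hz hQ hQ', Obj.smul_rmul,
    Obj.rmul_γ, vcRaw_mul, Obj.rmul_f]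

/-- the involution as a group element -/
def diff_iota (f : Model L) : G L := ⟨1, -1, -f.l, -f.m, -f.n⟩

lemma diff_m (f : Model L) : (diff_iota f).m11 = 1 ∧ (diff_iota f).m12 = 0 ∧
    (diff_iota f).m21 = 0 ∧ (diff_iota f).m22 = 1 :=
  ⟨G.m11_of_M_one rfl, G.m12_of_M_one rfl, G.m21_of_M_one rfl, G.m22_of_M_one rfl⟩

lemma diff_iota_pt (f : Model L) (Q : Pt L) : (diff_iota f).pt Q = f.inv Q := by
  obtain ⟨h1, h2, h3, h4⟩ := diff_m f
  rw [G.pt, h1, h2, h3, h4]
  ext <;> simp [diff_iota, Model.inv, Model.q]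
  ring

lemma diff_iota_smul (f : Model L) : diff_iota f • f = f := by
  obtain ⟨h1, h2, h3, h4⟩ := diff_m f
  rw [G.smul_def, h1, h2, h3, h4, Model.subst_one]
  ext <;> simp [diff_iota, Model.shift, Model.scale] <;> ring

lemma diff_iota_Gam (f : Model L) : (diff_iota f).Gam f = negC f.jac := by
  obtain ⟨h1, h2, h3, h4⟩ := diff_m f
  have hd : (diff_iota f).det = 1 := by simp [G.det, diff_iota]
  ext
  · rw [G.Gam_u, hd]
    simp [diff_iota, negC]
  · rw [G.Gam_r, h1, h2, h3, h4, hd, Model.subst_one]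
    simp [diff_iota, negC, Model.shR, Model.subR]
    ring
  · rw [G.Gam_s, h1, h2, h3, h4, hd]
    simp [diff_iota, negC, Model.subS, Model.jac]
  · rw [G.Gam_t, h1, h2, h3, h4, hd, Model.subst_one]
    simp [diff_iota, negC, Model.shR, Model.shT, Model.subS, Model.subT, Model.jac]
    ring

lemma diff_negC (γ : VariableChange L) (W : WeierstrassCurve L) :
    negC (γ • W) * γ = γ * negC W := by
  ext <;> simp [negC, VariableChange.mul_def, variableChange_a₁, variableChange_a₃] <;>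
    field_simp <;> ring

/-- The involution is `g.pt` for `g = ⟨1, -1, -l, -m, -n⟩`, which fixes `z.f` and has
`g.Gam z.f = negC z.f.jac`; moreover `negC (γ • W) * γ = γ * negC W`. -/
theorem D_inv (hW : W.Δ ≠ 0) (hz : z.Over W) {Q Q' : Pt L} (hQ : z.f.On Q) (hQ' : z.f.On Q') :
    D W z (z.f.inv Q) (z.f.inv Q') = -D W z Q Q' := by
  have e : diff_iota z.f • z = z.rmul (negC W) := by
    ext1
    · exact diff_iota_smul z.f
    · rw [Obj.smul_γ, diff_iota_Gam, show z.f.jac = z.γ • W from hz, diff_negC, Obj.rmul_γ]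
  rw [← diff_iota_pt, ← diff_iota_pt, ← D_smul hW hz _ (e ▸ hQ) (e ▸ hQ'), e]
  apply toRaw_injective
  rw [toRaw_D_rmul (negC W) hW (by rwa [negC_smul]) hQ hQ', negC_smul, toRaw_neg]

end API

end SelAvg
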