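import Pool.Agent.H38Sel.AlgA
import Pool.Agent.H38Sel.AlgC
import Pool.Agent.H38Sel.AlgB

/-!
Complete discretely valued fields: Hensel lemma, reduction maps, integral points.
-/

namespace SelAvg

open WeierstrassCurve WithZero Polynomial
open scoped Classical

/-- a complete discretely valued field with a uniformiser -/
structure LocalField (L : Type*) [Field L] where
  v : Valuation L ℤᵐ⁰
  ϖ : L
  v_ϖ : v ϖ = exp (-1)
  complete : ∀ a : ℕ → L, (∀ n, v (a (n + 1) - a n) ≤ exp (-(n : ℤ))) →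
    ∃ x, ∀ n, v (x - a n) ≤ exp (-(n : ℤ))

namespace LocalField

variable {L : Type*} [Field L] (V : LocalField L)

/-- the valuation ring -/
abbrev O : Type _ := V.v.valuationSubring

/-- the inclusion of the valuation ring -/
abbrev incl : V.O →+* L := algebraMap V.O L

/-- `ρ` is reduction modulo the `M`-th power of the maximal ideal -/
structure IsRed {R : Type*} [CommRing R] (ρ : V.O →+* R) (M : ℕ) : Prop where
  surj : Function.Surjective ρ
  ker : ∀ x : V.O, ρ x = 0 ↔ V.v (x : L) ≤ exp (-(M : ℤ))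

/-- primitive integral points -/
def IPrim (Q : Pt V.O) : Prop := IsUnit Q.x ∨ IsUnit Q.z

lemma incl_injective : Function.Injective V.incl := Subtype.val_injective

lemma v_le_one (x : V.O) : V.v (x : L) ≤ 1 := x.2

lemma isUnit_iff (x : V.O) : IsUnit x ↔ V.v (x : L) = 1 := by
  constructor
  · rintro ⟨u, rfl⟩
    have h1 : V.v ((u : V.O) : L) * V.v (((u⁻¹ : V.Oˣ) : V.O) : L) = 1 := by
      rw [← map_mul, ← Subring.coe_mul, Units.mul_inv]
      simp
    refine le_antisymm (V.v_le_one _) ?_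
    calc (1 : ℤᵐ⁰) = V.v ((u : V.O) : L) * V.v (((u⁻¹ : V.Oˣ) : V.O) : L) := h1.symm
      _ ≤ V.v ((u : V.O) : L) * 1 := mul_le_mul_right (V.v_le_one _) _
      _ = _ := mul_one _
  · intro h
    have hx : (x : L) ≠ 0 := by
      intro h0
      rw [h0, map_zero] at h
      exact zero_ne_one h
    have hy : (x : L)⁻¹ ∈ V.v.valuationSubring := by
      rw [Valuation.mem_valuationSubring_iff, map_inv₀, h, inv_one]
    refine IsUnit.of_mul_eq_one (⟨(x : L)⁻¹, hy⟩ : V.O) ?_
    apply Subtype.ext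
    exact mul_inv_cancel₀ hx

lemma locBasic0_lt_exp (γ : ℤᵐ⁰) (n : ℤ) : γ < exp n ↔ γ ≤ exp (n - 1) := by
  by_cases h : γ = 0
  · subst h
    simp
  · rw [← exp_log h, exp_lt_exp, exp_le_exp]
    omega

lemma lt_one_iff (γ : ℤᵐ⁰) : γ < 1 ↔ γ ≤ exp (-1) := by
  have h := locBasic0_lt_exp γ 0
  rwa [exp_zero, zero_sub] at h

lemma lt_exp_iff (γ : ℤᵐ⁰) (n : ℤ) : γ < exp n ↔ γ ≤ exp (n - 1) := locBasic0_lt_exp γ n

/-- an element of valuation at most `exp (-n)` for all `n` is zero -/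
lemma eq_zero_of_forall_le {x : L} (h : ∀ n : ℕ, V.v x ≤ exp (-(n : ℤ))) : x = 0 := by
  by_contra hx
  have h0 : V.v x ≠ 0 := (Valuation.ne_zero_iff _).2 hx
  have h1 := h ((log (V.v x)).natAbs + 1)
  rw [← exp_log h0, exp_le_exp, log_exp] at h1
  omega

/-- the uniformiser as an element of the valuation ring -/
noncomputable def unif : V.O := ⟨V.ϖ, by
  rw [Valuation.mem_valuationSubring_iff, V.v_ϖ, ← exp_zero, exp_le_exp]; norm_num⟩

lemma le_exp_iff_dvd (x : V.O) (n : ℕ) : V.v (x : L) ≤ exp (-(n : ℤ)) ↔ V.unif ^ n ∣ x := by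
  have hp : V.v (((V.unif ^ n : V.O)) : L) = exp (-(n : ℤ)) := by
    have : (((V.unif ^ n : V.O)) : L) = V.ϖ ^ n := by
      rw [SubmonoidClass.coe_pow]; rfl
    rw [this, map_pow, V.v_ϖ, ← exp_nsmul]
    congr 1
    simp
  constructor
  · intro h
    have hne : (((V.unif ^ n : V.O)) : L) ≠ 0 := by
      intro h0
      rw [h0, map_zero] at hp
      exact exp_ne_zero hp.symm
    have hy : (x : L) / (((V.unif ^ n : V.O)) : L) ∈ V.v.valuationSubring := by
      rw [Valuation.mem_valuationSubring_iff, map_div₀, hp]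
      exact div_le_one_of_le₀ h zero_le
    refine ⟨⟨_, hy⟩, Subtype.ext ?_⟩
    rw [Subring.coe_mul]
    exact (mul_div_cancel₀ _ hne).symm
  · rintro ⟨y, rfl⟩
    rw [Subring.coe_mul, map_mul, hp]
    calc exp (-(n : ℤ)) * V.v (y : L) ≤ exp (-(n : ℤ)) * 1 := mul_le_mul_right (V.v_le_one _) _
      _ = _ := mul_one _

/-- Banach fixed point theorem -/
theorem fixed_point (T : V.O → V.O)
    (hT : ∀ x y, V.v ((T x : L) - T y) ≤ exp (-1) * V.v ((x : L) - y)) : ∃ x, T x = x := by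
  have hstep : ∀ n : ℕ, V.v (((T^[n + 1] 0 : V.O) : L) - (T^[n] 0 : V.O)) ≤ exp (-(n : ℤ)) := by
    intro n
    induction n with
    | zero =>
      have := V.v_le_one (T^[0 + 1] 0 - T^[0] 0)
      simpa using this
    | succ n ih =>
      rw [Function.iterate_succ_apply' T (n + 1), Function.iterate_succ_apply' T n]
      refine (hT _ _).trans ?_
      rw [← Function.iterate_succ_apply' T n]
      calc exp (-1) * V.v (((T^[n + 1] 0 : V.O) : L) - (T^[n] 0 : V.O))
          ≤ exp (-1) * exp (-(n : ℤ)) := mul_le_mul_right ih _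
        _ = exp (-((n + 1 : ℕ) : ℤ)) := by
          rw [← exp_add]; congr 1; push_cast; ring
  obtain ⟨x, hx⟩ := V.complete (fun n => ((T^[n] 0 : V.O) : L)) hstep
  have hxO : x ∈ V.v.valuationSubring := by
    rw [Valuation.mem_valuationSubring_iff]
    simpa using hx 0
  refine ⟨⟨x, hxO⟩, Subtype.ext ?_⟩
  refine sub_eq_zero.1 (V.eq_zero_of_forall_le fun n => ?_)
  have e : ((T ⟨x, hxO⟩ : V.O) : L) - x =
      (((T ⟨x, hxO⟩ : V.O) : L) - (T (T^[n] 0) : V.O)) - (x - (T^[n + 1] 0 : V.O)) := by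
    rw [Function.iterate_succ_apply' T n]; ring
  show V.v (((T ⟨x, hxO⟩ : V.O) : L) - x) ≤ _
  rw [e]
  refine Valuation.map_sub_le _ ?_ ?_
  · refine (hT _ _).trans ?_
    calc exp (-1) * V.v (x - (T^[n] 0 : V.O)) ≤ 1 * exp (-(n : ℤ)) := by
          refine mul_le_mul' ?_ (hx n)
          rw [← exp_zero, exp_le_exp]; norm_num
      _ = _ := one_mul _
  · refine (hx (n + 1)).trans ?_
    rw [exp_le_exp]; push_cast; omega

/-- Hensel lemma (the polynomial need not be monic): apply `fixed_point` to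
`h ↦ -(p(x₀ + c h) - p'(x₀) c h) / (c p'(x₀))` with `c = p(x₀)`, or iterate Newton steps. -/
theorem hensel (p : V.O[X]) (x₀ : V.O) (h0 : V.v (p.eval x₀ : V.O) < 1)
    (h1 : IsUnit (p.derivative.eval x₀)) :
    ∃ x : V.O, p.eval x = 0 ∧ V.v ((x : L) - x₀) ≤ V.v (p.eval x₀ : V.O) := by
  obtain ⟨u, hu⟩ := h1
  set c : V.O := p.eval x₀ with hc
  set q : V.O[X] := (taylor x₀ p).divX.divX with hq
  have hexp : ∀ y : V.O, p.eval (y + x₀) = c + u * y + y ^ 2 * q.eval y := by
    intro y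
    have e1 := congrArg (eval y) (X_mul_divX_add (taylor x₀ p))
    have e2 := congrArg (eval y) (X_mul_divX_add (taylor x₀ p).divX)
    rw [eval_add, eval_mul, eval_X, eval_C] at e1 e2
    rw [taylor_coeff_zero, taylor_eval] at e1
    rw [coeff_divX, zero_add, taylor_coeff_one, ← hu] at e2
    rw [← e1, ← e2]
    ring
  set g : V.O[X] := X ^ 2 * q.comp (C c * X) with hg
  have hgev : ∀ y : V.O, g.eval y = y ^ 2 * q.eval (c * y) := by
    intro y
    simp [hg, eval_comp]
  obtain ⟨h, hh⟩ := V.fixed_point (fun y => -((u⁻¹ : V.Oˣ) * (1 + c * g.eval y))) (by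
    intro x y
    obtain ⟨k, hk⟩ := sub_dvd_eval_sub x y g
    have e : (-((u⁻¹ : V.Oˣ) * (1 + c * g.eval x)) : V.O) - -((u⁻¹ : V.Oˣ) * (1 + c * g.eval y)) =
        c * ((x - y) * -((u⁻¹ : V.Oˣ) * k)) := by
      linear_combination (-((u⁻¹ : V.Oˣ) : V.O) * c) * hk
    rw [← AddSubgroupClass.coe_sub, e, Subring.coe_mul, Subring.coe_mul, map_mul, map_mul,
      AddSubgroupClass.coe_sub]
    refine mul_le_mul' ((lt_one_iff _).1 h0) ?_
    calc V.v ((x : L) - y) * V.v ((-((u⁻¹ : V.Oˣ) * k) : V.O) : L)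
        ≤ V.v ((x : L) - y) * 1 := mul_le_mul_right (V.v_le_one _) _
      _ = _ := mul_one _)
  refine ⟨c * h + x₀, ?_, ?_⟩
  · rw [hexp]
    have hh' : -((u⁻¹ : V.Oˣ) * (1 + c * g.eval h) : V.O) = h := hh
    rw [hgev] at hh'
    have hu1 : (u : V.O) * (u⁻¹ : V.Oˣ) = 1 := u.mul_inv
    linear_combination (-(c * u)) * hh' - (c * (1 + c * (h ^ 2 * q.eval (c * h)))) * hu1
  · have e : (((c * h + x₀ : V.O)) : L) - x₀ = (c : L) * h := by
      push_cast; ring
    rw [e, map_mul]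
    calc V.v (c : L) * V.v (h : L) ≤ V.v (c : L) * 1 := mul_le_mul_right (V.v_le_one _) _
      _ = _ := mul_one _

/-- `p(x) - p(y) = (x - y) (p'(y) + (x - y) c)` and the second factor is a unit -/
theorem v_eval_sub (p : V.O[X]) {x y : V.O} (hxy : V.v ((x : L) - y) < 1)
    (h1 : IsUnit (p.derivative.eval y)) :
    V.v (((p.eval x : V.O) : L) - (p.eval y : V.O)) = V.v ((x : L) - y) := by
  obtain ⟨k, hk⟩ := p.binomExpansion y (x - y)
  rw [add_sub_cancel] at hk
  have e : p.eval x - p.eval y = (x - y) * (p.derivative.eval y + k * (x - y)) := by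
    rw [hk]; ring
  have h2 : V.v ((p.derivative.eval y + k * (x - y) : V.O) : L) = 1 := by
    have h3 := (V.isUnit_iff _).1 h1
    have h4 : V.v ((k * (x - y) : V.O) : L) < V.v ((p.derivative.eval y : V.O) : L) := by
      rw [h3, Subring.coe_mul, map_mul, AddSubgroupClass.coe_sub]
      calc V.v (k : L) * V.v ((x : L) - y) ≤ 1 * V.v ((x : L) - y) :=
            mul_le_mul_left (V.v_le_one _) _
        _ < 1 := by rwa [one_mul]
    rw [Subring.coe_add, Valuation.map_add_eq_of_lt_left _ h4, h3]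
  rw [← AddSubgroupClass.coe_sub, e, Subring.coe_mul, map_mul, h2, mul_one,
    AddSubgroupClass.coe_sub]

end LocalField

end SelAvg

/-!
Reduction maps and integral points.
-/

namespace SelAvg

open WeierstrassCurve WithZero Polynomial
open scoped Classical

namespace LocalField

variable {L : Type*} [Field L] (V : LocalField L)

variable {V}
variable {κ R : Type*} [Field κ] [CommRing R] {red : V.O →+* κ} {ρ : V.O →+* R} {M : ℕ}

lemma IsRed.red_eq_zero (h : V.IsRed red 1) (x : V.O) : red x = 0 ↔ V.v (x : L) < 1 := by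
  rw [h.ker, lt_one_iff]
  simp

lemma IsRed.isUnit_iff (h : V.IsRed red 1) (x : V.O) : IsUnit x ↔ red x ≠ 0 := by
  rw [V.isUnit_iff, Ne, h.red_eq_zero, not_lt]
  exact ⟨fun e => e.ge, fun e => le_antisymm (V.v_le_one x) e⟩

lemma IsRed.eq_iff (h : V.IsRed ρ M) (x y : V.O) :
    ρ x = ρ y ↔ V.v ((x : L) - y) ≤ exp (-(M : ℤ)) := by
  rw [← sub_eq_zero, ← map_sub, h.ker]
  rfl

lemma locBasic_unif_ne_zero (V : LocalField L) : V.unif ≠ 0 := by
  intro h
  have h1 : V.v (V.unif : L) = exp (-1) := V.v_ϖ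
  rw [h] at h1
  simp only [ZeroMemClass.coe_zero, map_zero] at h1
  exact exp_ne_zero h1.symm

/-- the multiples of the `n`-th power of the uniformiser -/
noncomputable def locBasic_I (V : LocalField L) (n : ℕ) : AddSubgroup V.O :=
  (Ideal.span {V.unif ^ n}).toAddSubgroup

lemma locBasic_mem_I {n : ℕ} {x : V.O} : x ∈ locBasic_I V n ↔ V.unif ^ n ∣ x := by
  unfold locBasic_I
  rw [Submodule.mem_toAddSubgroup, Ideal.mem_span_singleton]

lemma locBasic_ker (h : V.IsRed ρ M) : ρ.toAddMonoidHom.ker = locBasic_I V M := by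
  ext x
  rw [locBasic_mem_I, ← V.le_exp_iff_dvd, ← h.ker, AddMonoidHom.mem_ker]
  rfl

lemma locBasic_index_eq (h : V.IsRed ρ M) : (locBasic_I V M).index = Nat.card R := by
  rw [← locBasic_ker h, AddSubgroup.index_ker,
    AddMonoidHom.range_eq_top.2 (show Function.Surjective ρ.toAddMonoidHom from h.surj)]
  exact Nat.card_congr AddSubgroup.topEquiv.toEquiv

lemma locBasic_index (hred : V.IsRed red 1) (n : ℕ) :
    (locBasic_I V n).index = Nat.card κ ^ n := by
  induction n with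
  | zero =>
    rw [pow_zero, AddSubgroup.index_eq_one]
    ext x
    simp [locBasic_mem_I]
  | succ n ih =>
    have hle : locBasic_I V (n + 1) ≤ locBasic_I V n := fun x hx => by
      rw [locBasic_mem_I] at hx ⊢
      exact (pow_dvd_pow _ (Nat.le_succ n)).trans hx
    have hr : (AddMonoidHom.mulLeft (V.unif ^ n)).range = locBasic_I V n := by
      ext x
      rw [locBasic_mem_I, AddMonoidHom.mem_range]
      exact ⟨fun ⟨y, hy⟩ => ⟨y, hy.symm⟩, fun ⟨y, hy⟩ => ⟨y, hy.symm⟩⟩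
    have hc : (locBasic_I V (n + 1)).comap (AddMonoidHom.mulLeft (V.unif ^ n)) =
        locBasic_I V 1 := by
      ext x
      rw [AddSubgroup.mem_comap, locBasic_mem_I, locBasic_mem_I, AddMonoidHom.coe_mulLeft,
        pow_succ, pow_one]
      exact mul_dvd_mul_iff_left (pow_ne_zero n (locBasic_unif_ne_zero V))
    rw [← AddSubgroup.relIndex_mul_index hle, ih, ← hr, ← AddSubgroup.index_comap, hc,
      locBasic_index_eq hred, pow_succ']

/-- `x ↦ ϖ^M x` identifies `O / 𝔪` with `𝔪^M / 𝔪^(M+1)`; induct on `M` using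
`O ⧸ span {ϖ^M}` and transport to `R`. -/
theorem IsRed.card [Finite κ] (hred : V.IsRed red 1) (h : V.IsRed ρ M) :
    Finite R ∧ Nat.card R = Nat.card κ ^ M := by
  have e : Nat.card R = Nat.card κ ^ M := by rw [← locBasic_index_eq h, locBasic_index hred]
  refine ⟨Nat.finite_of_card_ne_zero ?_, e⟩
  rw [e]
  exact pow_ne_zero _ Nat.card_pos.ne'

theorem exists_isRed (V : LocalField L) (M : ℕ) :
    V.IsRed (Ideal.Quotient.mk (Ideal.span {V.unif ^ M})) M := by
  refine ⟨Ideal.Quotient.mk_surjective, fun x => ?_⟩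
  rw [Ideal.Quotient.eq_zero_iff_mem, Ideal.mem_span_singleton, V.le_exp_iff_dvd]

/-- the number of `x` in `O / 𝔪^M` divisible by `ϖ^j` -/
theorem IsRed.card_dvd [Finite κ] (hred : V.IsRed red 1) (h : V.IsRed ρ M) {j : ℕ} (hj : j ≤ M) :
    Nat.card {x : R // ρ V.unif ^ j ∣ x} = Nat.card κ ^ (M - j) := by
  set φ : V.O →+ R := ρ.toAddMonoidHom.comp (AddMonoidHom.mulLeft (V.unif ^ j)) with hφ
  have hφ' : ∀ x, φ x = ρ (V.unif ^ j * x) := fun x => rfl
  have hk : φ.ker = locBasic_I V (M - j) := by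
    ext x
    rw [AddMonoidHom.mem_ker, hφ', h.ker, V.le_exp_iff_dvd, locBasic_mem_I]
    conv_lhs => rw [← Nat.add_sub_cancel' hj, pow_add]
    exact mul_dvd_mul_iff_left (pow_ne_zero j (locBasic_unif_ne_zero V))
  rw [← locBasic_index hred, ← hk, AddSubgroup.index_ker]
  refine Nat.card_congr (Equiv.subtypeEquivRight fun x => ?_)
  rw [AddMonoidHom.mem_range]
  constructor
  · rintro ⟨y, rfl⟩
    obtain ⟨y, rfl⟩ := h.surj y
    exact ⟨y, by rw [hφ', map_mul, map_pow]⟩
  · rintro ⟨y, rfl⟩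
    exact ⟨ρ y, by rw [hφ', map_mul, map_pow]⟩

lemma IPrim.map_incl {Q : Pt V.O} (h : V.IPrim Q) : (Q.map V.incl).Prim := by
  rcases h with h | h
  · exact Or.inl (h.map V.incl).ne_zero
  · exact Or.inr (h.map V.incl).ne_zero

lemma IPrim.map_red (hred : V.IsRed red 1) {Q : Pt V.O} : V.IPrim Q ↔ (Q.map red).Prim := by
  unfold IPrim Pt.Prim
  rw [hred.isUnit_iff, hred.isUnit_iff]
  rfl

lemma IPrim.pt {Q : Pt V.O} (h : V.IPrim Q) (g : G V.O) : V.IPrim (g.pt Q) := by
  by_contra hn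
  unfold IPrim at hn
  rw [not_or, ← mem_nonunits_iff, ← mem_nonunits_iff, ← IsLocalRing.mem_maximalIdeal,
    ← IsLocalRing.mem_maximalIdeal] at hn
  obtain ⟨h1, h2⟩ := hn
  have hd := g.det_val
  have key : ∀ a : V.O, IsUnit a → a * g.det ∉ IsLocalRing.maximalIdeal V.O := fun a ha hm => by
    rw [IsLocalRing.mem_maximalIdeal, mem_nonunits_iff] at hm
    exact hm (ha.mul g.det.isUnit)
  rcases h with h | h
  · refine key _ h ?_
    have e : Q.x * g.det = (g.pt Q).x * g.m22 - (g.pt Q).z * g.m21 := by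
      rw [hd]; simp only [G.pt]; ring
    rw [e]
    exact Ideal.sub_mem _ (Ideal.mul_mem_right _ _ h1) (Ideal.mul_mem_right _ _ h2)
  · refine key _ h ?_
    have e : Q.z * g.det = (g.pt Q).z * g.m11 - (g.pt Q).x * g.m12 := by
      rw [hd]; simp only [G.pt]; ring
    rw [e]
    exact Ideal.sub_mem _ (Ideal.mul_mem_right _ _ h2) (Ideal.mul_mem_right _ _ h1)

/-- two equivalent primitive integral points differ by a unit -/
lemma IPrim.eqv_red (hred : V.IsRed red 1) {Q Q' : Pt V.O} (h : V.IPrim Q) (h' : V.IPrim Q')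
    (e : (Q.map V.incl).Eqv (Q'.map V.incl)) : (Q.map red).Eqv (Q'.map red) := by
  obtain ⟨t, ht, e⟩ := e
  have ex : (Q'.x : L) = t * Q.x := congrArg Pt.x e
  have ez : (Q'.z : L) = t * Q.z := congrArg Pt.z e
  have ey : (Q'.y : L) = t ^ 2 * Q.y := congrArg Pt.y e
  have hle : V.v t ≤ 1 := by
    rcases h with h | h
    · have := V.v_le_one Q'.x
      rwa [ex, map_mul, (V.isUnit_iff _).1 h, mul_one] at this
    · have := V.v_le_one Q'.z
      rwa [ez, map_mul, (V.isUnit_iff _).1 h, mul_one] at this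
  set t₀ : V.O := ⟨t, hle⟩ with ht₀
  have ex' : Q'.x = t₀ * Q.x := Subtype.ext ex
  have ez' : Q'.z = t₀ * Q.z := Subtype.ext ez
  have ey' : Q'.y = t₀ ^ 2 * Q.y := Subtype.ext ey
  have hu : IsUnit t₀ := by
    rcases h' with h' | h'
    · rw [ex'] at h'; exact isUnit_of_mul_isUnit_left h'
    · rw [ez'] at h'; exact isUnit_of_mul_isUnit_left h'
  refine ⟨red t₀, (hred.isUnit_iff _).1 hu, ?_⟩
  ext
  · simp [ex']
  · simp [ez']
  · simp [ey']

lemma locBasic_root_integral (q g : V.O) {y : L} (h : y ^ 2 + q * y - g = 0) : V.v y ≤ 1 := by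
  by_contra hy
  rw [not_le] at hy
  have hy0 : 0 < V.v y := lt_trans zero_lt_one hy
  have e : y ^ 2 = g - q * y := by linear_combination h
  have h1 : V.v (g : L) < V.v y ^ 2 :=
    lt_of_le_of_lt (V.v_le_one g) (one_lt_pow₀ hy two_ne_zero)
  have h2 : V.v ((q : L) * y) < V.v y ^ 2 := by
    rw [map_mul, sq]
    exact mul_lt_mul_of_pos_right (lt_of_le_of_lt (V.v_le_one q) hy) hy0
  have h3 := V.v.map_sub_lt h1 h2
  rw [← e, map_pow] at h3
  exact lt_irrefl _ h3

lemma locBasic_rep (f : Model V.O) {Q : Pt L} (hQ : (f.map V.incl).F Q = 0) {s : L} (hs : s ≠ 0)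
    (hx : V.v Q.x ≤ V.v s) (hz : V.v Q.z ≤ V.v s) (h : s = Q.x ∨ s = Q.z) :
    ∃ Q₀ : Pt V.O, V.IPrim Q₀ ∧ f.F Q₀ = 0 ∧ Q.Eqv (Q₀.map V.incl) := by
  have hv : 0 < V.v s := by rwa [Valuation.pos_iff]
  have key : ∀ a : L, V.v a ≤ V.v s → V.v (s⁻¹ * a) ≤ 1 := fun a ha => by
    rw [map_mul, map_inv₀, inv_mul_le_iff₀ hv, mul_one]
    exact ha
  set x₀ : V.O := ⟨s⁻¹ * Q.x, key _ hx⟩ with hx₀
  set z₀ : V.O := ⟨s⁻¹ * Q.z, key _ hz⟩ with hz₀
  have hF : (f.map V.incl).F (Q.sc s⁻¹) = 0 := by rw [Model.F_sc, hQ, mul_zero]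
  have hy : V.v (s⁻¹ ^ 2 * Q.y) ≤ 1 := by
    refine locBasic_root_integral (f.q x₀ z₀) (f.g x₀ z₀) ?_
    have e1 : ((f.q x₀ z₀ : V.O) : L) = (f.map V.incl).q (s⁻¹ * Q.x) (s⁻¹ * Q.z) :=
      (Model.map_q V.incl f x₀ z₀).symm
    have e2 : ((f.g x₀ z₀ : V.O) : L) = (f.map V.incl).g (s⁻¹ * Q.x) (s⁻¹ * Q.z) :=
      (Model.map_g V.incl f x₀ z₀).symm
    rw [e1, e2]
    exact hF
  have hm : (⟨x₀, z₀, ⟨s⁻¹ ^ 2 * Q.y, hy⟩⟩ : Pt V.O).map V.incl = Q.sc s⁻¹ := rfl
  refine ⟨⟨x₀, z₀, ⟨s⁻¹ ^ 2 * Q.y, hy⟩⟩, ?_, ?_, s⁻¹, inv_ne_zero hs, hm⟩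
  · rcases h with h | h
    · left
      have : x₀ = 1 := Subtype.ext (by
        change s⁻¹ * Q.x = 1
        rw [← h, inv_mul_cancel₀ hs])
      change IsUnit x₀
      rw [this]; exact isUnit_one
    · right
      have : z₀ = 1 := Subtype.ext (by
        change s⁻¹ * Q.z = 1
        rw [← h, inv_mul_cancel₀ hs])
      change IsUnit z₀
      rw [this]; exact isUnit_one
  · apply V.incl_injective
    rw [← Model.map_F, hm, hF, map_zero]

/-- scale so that `max (v x) (v z) = 1`; then `y` is a root of a monic integral quadratic -/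
theorem exists_integral_rep (f : Model V.O) {Q : Pt L} (hQ : (f.map V.incl).On Q) :
    ∃ Q₀ : Pt V.O, V.IPrim Q₀ ∧ f.F Q₀ = 0 ∧ Q.Eqv (Q₀.map V.incl) := by
  rcases le_total (V.v Q.z) (V.v Q.x) with h | h
  · refine locBasic_rep f hQ.eq (s := Q.x) ?_ le_rfl h (Or.inl rfl)
    intro h0
    rcases hQ.prim with h1 | h1
    · exact h1 h0
    · rw [h0, map_zero, le_zero_iff, map_eq_zero] at h
      exact h1 h
  · refine locBasic_rep f hQ.eq (s := Q.z) ?_ h le_rfl (Or.inr rfl)
    intro h0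
    rcases hQ.prim with h1 | h1
    · rw [h0, map_zero, le_zero_iff, map_eq_zero] at h
      exact h1 h
    · exact h1 h0

lemma locBasic_lift (hred : V.IsRed red 1) (p : V.O[X]) (x₀ : V.O) (h0 : red (p.eval x₀) = 0)
    (h1 : red (p.derivative.eval x₀) ≠ 0) : ∃ x : V.O, p.eval x = 0 ∧ red x = red x₀ := by
  have h0' := (hred.red_eq_zero _).1 h0
  obtain ⟨x, hx, hv⟩ := V.hensel p x₀ h0' ((hred.isUnit_iff _).2 h1)
  refine ⟨x, hx, ?_⟩
  rw [← sub_eq_zero, ← map_sub, hred.red_eq_zero]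
  exact lt_of_le_of_lt hv h0'

/-- smooth points lift: lift the coordinates and apply `hensel` to one coordinate with nonzero
derivative -/
theorem exists_lift (hred : V.IsRed red 1) (f : Model V.O) {Q : Pt κ} (hQ : (f.map red).On Q)
    (hs : (f.map red).Smooth Q) : ∃ Q₀ : Pt V.O, V.IPrim Q₀ ∧ f.F Q₀ = 0 ∧ Q₀.map red = Q := by
  suffices h : ∃ Q₀ : Pt V.O, f.F Q₀ = 0 ∧ Q₀.map red = Q by
    obtain ⟨Q₀, h1, h2⟩ := h
    exact ⟨Q₀, (IPrim.map_red hred).2 (h2 ▸ hQ.prim), h1, h2⟩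
  obtain ⟨x, hx⟩ := hred.surj Q.x
  obtain ⟨z, hz⟩ := hred.surj Q.z
  obtain ⟨y, hy⟩ := hred.surj Q.y
  have hm : (⟨x, z, y⟩ : Pt V.O).map red = Q := Pt.ext hx hz hy
  have hF : red (f.F ⟨x, z, y⟩) = 0 := by rw [← Model.map_F, hm]; exact hQ.eq
  rcases hs with hs | hs | hs
  · rw [← hm, Model.map_psi] at hs
    set p : V.O[X] := X ^ 2 + C (f.q x z) * X - C (f.g x z) with hp
    have e0 : ∀ t, p.eval t = f.F ⟨x, z, t⟩ := fun t => by simp [hp, Model.F]
    have e1 : p.derivative.eval y = f.psi ⟨x, z, y⟩ := by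
      simp only [hp, Model.psi, derivative_sub, derivative_add, derivative_X_pow, derivative_mul,
        derivative_C, derivative_X, eval_sub, eval_add, eval_mul, eval_C, eval_pow, eval_X,
        eval_zero, eval_one]
      push_cast
      ring
    obtain ⟨t, ht, hr⟩ := locBasic_lift hred p y (by rw [e0]; exact hF) (by rw [e1]; exact hs)
    exact ⟨⟨x, z, t⟩, by rw [← e0]; exact ht, Pt.ext hx hz (hr.trans hy)⟩
  · rw [← hm, Model.map_Fx] at hs
    set p : V.O[X] := C (-f.a) * X ^ 4 + C (-(f.b * z)) * X ^ 3 + C (f.l * y - f.c * z ^ 2) * X ^ 2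
      + C (f.m * z * y - f.d * z ^ 3) * X + C (y ^ 2 + f.n * z ^ 2 * y - f.e * z ^ 4) with hp
    have e0 : ∀ t, p.eval t = f.F ⟨t, z, y⟩ := fun t => by
      simp only [hp, Model.F, Model.q, Model.g, eval_add, eval_mul, eval_C, eval_pow, eval_X]
      ring
    have e1 : p.derivative.eval x = f.Fx ⟨x, z, y⟩ := by
      simp only [hp, Model.Fx, derivative_add, derivative_X_pow, derivative_mul,
        derivative_C, derivative_X, eval_add, eval_mul, eval_C, eval_pow, eval_X,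
        eval_zero, eval_one]
      push_cast
      ring
    obtain ⟨t, ht, hr⟩ := locBasic_lift hred p x (by rw [e0]; exact hF) (by rw [e1]; exact hs)
    exact ⟨⟨t, z, y⟩, by rw [← e0]; exact ht, Pt.ext (hr.trans hx) hz hy⟩
  · rw [← hm, Model.map_Fz] at hs
    set p : V.O[X] := C (-f.e) * X ^ 4 + C (-(f.d * x)) * X ^ 3 + C (f.n * y - f.c * x ^ 2) * X ^ 2
      + C (f.m * x * y - f.b * x ^ 3) * X + C (y ^ 2 + f.l * x ^ 2 * y - f.a * x ^ 4) with hp
    have e0 : ∀ t, p.eval t = f.F ⟨x, t, y⟩ := fun t => by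
      simp only [hp, Model.F, Model.q, Model.g, eval_add, eval_mul, eval_C, eval_pow, eval_X]
      ring
    have e1 : p.derivative.eval z = f.Fz ⟨x, z, y⟩ := by
      simp only [hp, Model.Fz, derivative_add, derivative_X_pow, derivative_mul,
        derivative_C, derivative_X, eval_add, eval_mul, eval_C, eval_pow, eval_X,
        eval_zero, eval_one]
      push_cast
      ring
    obtain ⟨t, ht, hr⟩ := locBasic_lift hred p z (by rw [e0]; exact hF) (by rw [e1]; exact hs)
    exact ⟨⟨x, t, y⟩, by rw [← e0]; exact ht, Pt.ext hx (hr.trans hz) hy⟩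

theorem soluble_of_nSm_pos (hred : V.IsRed red 1) (f : Model V.O) (h : 0 < nSm (f.map red)) :
    (f.map V.incl).Soluble := by
  obtain ⟨⟨p, hp, hs⟩⟩ := (Nat.card_pos_iff.1 h).1
  obtain ⟨Q₀, h1, h2, -⟩ := exists_lift hred f hp hs
  exact ⟨Q₀.map V.incl, h1.map_incl, by rw [Model.map_F, h2, map_zero]⟩

end LocalField

end SelAvg

/-!
Residue discs of smooth points are cosets of the kernel of reduction.
-/

namespace SelAvg

open WeierstrassCurve WithZero
open scoped Classical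

namespace LocalField

variable {L : Type*} [Field L] (V : LocalField L)

/-- the origin or a point with non-integral `x`-coordinate -/
def InE1 (p : Option (L × L)) : Prop := ∀ x y, p = some (x, y) → 1 < V.v x

variable {V}

lemma locDisc0_mul {a b : L} (ha : V.v a ≤ 1) (hb : V.v b ≤ 1) : V.v (a * b) ≤ 1 := by
  rw [map_mul]
  exact mul_le_one' ha hb

lemma locDisc0_mul_le {a b : L} (hb : V.v b ≤ 1) : V.v (a * b) ≤ V.v a := by
  rw [map_mul]
  exact mul_le_of_le_one_right' hb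

lemma locDisc0_add_lt {a b : L} (ha : V.v a = 1) (hb : V.v b < 1) : V.v (a + b) = 1 := by
  rw [V.v.map_add_eq_of_lt_left (ha ▸ hb), ha]

lemma locDisc0_div {a b : L} (hb : b ≠ 0) : 1 < V.v (a / b) ↔ V.v b < V.v a := by
  have h : 0 < V.v b := zero_lt_iff.2 ((Valuation.ne_zero_iff _).2 hb)
  rw [map_div₀, one_lt_div₀ h]

lemma locDisc0_some (x y : L) : V.InE1 (some (x, y)) ↔ 1 < V.v x :=
  ⟨fun h => h x y rfl, fun h x' y' e => by cases e; exact h⟩

lemma locDisc0_none : V.InE1 none := fun _ _ e => by cases e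

lemma locDisc0_not_unit (x : V.O) : ¬IsUnit x ↔ V.v (x : L) < 1 := by
  rw [V.isUnit_iff, lt_iff_le_and_ne]
  exact ⟨fun h => ⟨V.v_le_one x, h⟩, fun h => h.2⟩

/-- the computation for `z ≠ 0` -/
lemma locDisc0_main {x z y l b A B : V.O} (hs : IsUnit l ∨ IsUnit b) (hQ : IsUnit x ∨ IsUnit z)
    (hz : z ≠ 0) (hF : y * (y + l * x ^ 2 + z * A) = z * (b * x ^ 3 + z * B)) :
    V.v ((z : L) ^ 2) < V.v ((l * (y + l * x ^ 2 + z * A) + b * x * z : V.O) : L) ↔
      V.v (z : L) < 1 ∧ V.v (y : L) < 1 := by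
  have hz' : (z : L) ≠ 0 := fun h => hz (Subtype.ext h)
  have hdvd : ∀ N : V.O, V.v ((z : L) ^ 2) < V.v (N : L) ↔ ¬z ^ 2 ∣ N := by
    intro N
    rw [← not_le, not_iff_not]
    constructor
    · intro h
      have h2 : (z : L) ^ 2 ≠ 0 := pow_ne_zero 2 hz'
      refine ⟨⟨N / (z : L) ^ 2, ?_⟩, Subtype.ext ?_⟩
      · rw [Valuation.mem_valuationSubring_iff, ← not_lt, locDisc0_div h2, not_lt]
        exact h
      · change (N : L) = (z : L) ^ 2 * (N / (z : L) ^ 2)
        field_simp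
    · rintro ⟨k, rfl⟩
      exact locDisc0_mul_le (a := (z : L) ^ 2) (V.v_le_one k)
  rw [hdvd, ← locDisc0_not_unit, ← locDisc0_not_unit]
  have hmem : ∀ a : V.O, ¬IsUnit a ↔ a ∈ IsLocalRing.maximalIdeal V.O := fun a =>
    (IsLocalRing.mem_maximalIdeal a).symm
  constructor
  · intro h
    have hzu : ¬IsUnit z := fun hu => h (hu.pow 2).dvd
    refine ⟨hzu, fun hu => h ?_⟩
    rw [← hu.dvd_mul_left]
    obtain ⟨k, hk⟩ : z ∣ y + l * x ^ 2 + z * A := by
      rw [← hu.dvd_mul_left, hF]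
      exact dvd_mul_right _ _
    exact ⟨b * x * (k - A) + l * B, by linear_combination l * hF + z * b * x * hk⟩
  · rintro ⟨hzu, hyu⟩ ⟨k, hk⟩
    have hx : IsUnit x := hQ.resolve_right hzu
    rw [hmem] at hzu hyu
    by_cases hl : IsUnit l
    · refine (hmem _).2 ?_ ((hl.mul hx).pow 2)
      have e : (l * x) ^ 2 = z * (z * k - l * A - b * x) - y * l := by linear_combination hk
      rw [e]
      exact sub_mem (Ideal.mul_mem_right _ _ hzu) (Ideal.mul_mem_right _ _ hyu)
    · have hb : IsUnit b := hs.resolve_left hl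
      have hbx := hb.mul hx
      have hu : IsUnit (z * k - b * x) := by
        by_contra hu
        rw [hmem] at hu
        refine (hmem _).2 ?_ hbx
        have e : b * x = z * k - (z * k - b * x) := by ring
        rw [e]
        exact sub_mem (Ideal.mul_mem_right _ _ hzu) hu
      have h1 : l * (y + l * x ^ 2 + z * A) = z * (z * k - b * x) := by linear_combination hk
      have hw : y + l * x ^ 2 + z * A ≠ 0 := fun h0 => by
        rw [h0, mul_zero] at h1
        exact mul_ne_zero hz hu.ne_zero h1.symm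
      have h2 : l * (b * x ^ 3 + z * B) = y * (z * k - b * x) := by
        apply mul_left_cancel₀ hw
        linear_combination (b * x ^ 3 + z * B) * h1 - (z * k - b * x) * hF
      obtain ⟨j, hj⟩ : z ∣ y + l * x ^ 2 + z * A := by
        rw [← hbx.dvd_mul_left]
        exact ⟨y * k - l * B + b * x * A, by linear_combination h2⟩
      have h3 : l * j = z * k - b * x := by
        apply mul_left_cancel₀ hz
        linear_combination h1 - l * hj
      exact hl (isUnit_of_mul_isUnit_left (h3 ▸ hu))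

lemma inE1_vcRaw (C : VariableChange V.O) (p : Option (L × L)) :
    V.InE1 (vcRaw (C.map V.incl) p) ↔ V.InE1 p := by
  rcases p with _ | ⟨x, y⟩
  · rfl
  rw [vcRaw_some, locDisc0_some, locDisc0_some]
  have hu : V.v (((C.map V.incl).u : L) ^ 2 * x) = V.v x := by
    have : V.v ((C.map V.incl).u : L) = 1 := (V.isUnit_iff (C.u : V.O)).1 C.u.isUnit
    rw [map_mul, map_pow, this, one_pow, one_mul]
  have hr : V.v (C.map V.incl).r ≤ 1 := V.v_le_one C.r
  constructor
  · intro h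
    by_contra hx
    exact not_le.2 h (V.v.map_add_le (hu ▸ not_lt.1 hx) hr)
  · intro h
    rwa [V.v.map_add_eq_of_lt_left (hu ▸ hr.trans_lt h), hu]

/-- on an integral equation, an integral `x` forces an integral `y` -/
lemma y_integral (W : WeierstrassCurve V.O) {x y : L} (h : (W.map V.incl).toAffine.Equation x y)
    (hx : V.v x ≤ 1) : V.v y ≤ 1 := by
  by_contra hy
  rw [not_le] at hy
  rw [Affine.equation_iff] at h
  have h1 : V.v (W.map V.incl).a₁ ≤ 1 := V.v_le_one W.a₁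
  have h2 : V.v (W.map V.incl).a₂ ≤ 1 := V.v_le_one W.a₂
  have h3 : V.v (W.map V.incl).a₃ ≤ 1 := V.v_le_one W.a₃
  have h4 : V.v (W.map V.incl).a₄ ≤ 1 := V.v_le_one W.a₄
  have h6 : V.v (W.map V.incl).a₆ ≤ 1 := V.v_le_one W.a₆
  have e : y * (y + ((W.map V.incl).a₁ * x + (W.map V.incl).a₃)) =
      x * x * x + (W.map V.incl).a₂ * x * x + (W.map V.incl).a₄ * x + (W.map V.incl).a₆ := by
    linear_combination h
  have hR : V.v (x * x * x + (W.map V.incl).a₂ * x * x + (W.map V.incl).a₄ * x +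
      (W.map V.incl).a₆) ≤ 1 :=
    V.v.map_add_le (V.v.map_add_le (V.v.map_add_le (locDisc0_mul (locDisc0_mul hx hx) hx)
      (locDisc0_mul (locDisc0_mul h2 hx) hx)) (locDisc0_mul h4 hx)) h6
  rw [← e, map_mul, V.v.map_add_eq_of_lt_left
    ((V.v.map_add_le (locDisc0_mul h1 hx) h3).trans_lt hy)] at hR
  exact not_le.2 (one_lt_mul'' hy hy) hR

/-- `PX = b^2 + l (..)` -/
lemma inE1_piStd {f : Model V.O} (hs : IsUnit f.l ∨ IsUnit f.b) :
    V.InE1 (f.map V.incl).piStd ↔ ¬IsUnit f.l := by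
  unfold Model.piStd
  split_ifs with hl
  · have : f.l = 0 := Subtype.ext hl
    rw [this]
    exact iff_of_true locDisc0_none not_isUnit_zero
  · have e : (f.map V.incl).PX = ((f.PX : V.O) : L) := by simp [Model.PX]
    have e2 : (f.map V.incl).l = (f.l : L) := rfl
    rw [locDisc0_some, locDisc0_div (pow_ne_zero 2 hl), e, e2, map_pow]
    constructor
    · intro h hu
      rw [(V.isUnit_iff _).1 hu, one_pow] at h
      exact not_le.2 h (V.v_le_one _)
    · intro hu
      have hb := (V.isUnit_iff _).1 ((hs.resolve_left hu).pow 2)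
      rw [locDisc0_not_unit] at hu
      have e3 : ((f.PX : V.O) : L) =
          ((f.b ^ 2 : V.O) : L) + (f.l : L) * ((f.m * f.b - f.l * f.c : V.O) : L) := by
        simp only [Model.PX]
        push_cast
        ring
      rw [e3, locDisc0_add_lt hb ((locDisc0_mul_le (V.v_le_one _)).trans_lt hu)]
      exact pow_lt_one₀ zero_le hu two_ne_zero

/-- The disc of the standard point.  Write `w = y + q(x,z)`, so `y w = z B` with
`B = b x^3 + c x^2 z + d x z^2 + e z^3`, and `NX = l w + b x z`.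
Suppose `v z < 1`, `v y < 1` (so `x` is a unit).  If `z = 0` then `y = 0` or `y = -l x^2`, and in
the second case `l` is not a unit.  If `z ≠ 0` and `l` is a unit then `NX` is a unit.  If
`z ≠ 0`, `l` is not a unit, `b` is a unit: suppose `v NX ≤ (v z)^2`; then `v (l w) = v z`, hence
`v y = v l`; from `y NX = z (l B + b x y)` and `l B + b x y = b x (l x^2 + y) + l z (..)` get
`v (l x^2 + y) ≤ v l * v z`, so `v w ≤ v z`, so `v z = v l * v w ≤ v l * v z`, a contradiction.
Conversely, if `z` is a unit then `NX / z^2` is integral; if `v z < 1` and `y` is a unit then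
`v w ≤ v z`, `l` is a unit, and `l x^2 + y = w - z (m x + n z)` has valuation at most `v z`, so
`v NX ≤ (v z)^2`. -/
theorem disc_std {f : Model V.O} (ha : f.a = 0) (hs : IsUnit f.l ∨ IsUnit f.b) {Q : Pt V.O}
    (hQ : V.IPrim Q) (hF : f.F Q = 0) :
    V.InE1 ((f.map V.incl).stdDiff (Q.map V.incl)) ↔ V.v (Q.z : L) < 1 ∧ V.v (Q.y : L) < 1 := by
  simp only [Model.F, Model.q, Model.g, ha] at hF
  unfold Model.stdDiff
  split_ifs with hz hy
  · have hz' : (Q.z : L) = 0 := hz
    have hy' : (Q.y : L) = 0 := hy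
    rw [hz', hy', map_zero]
    exact iff_of_true locDisc0_none ⟨zero_lt_one, zero_lt_one⟩
  · have hz' : Q.z = 0 := Subtype.ext hz
    have hy' : Q.y ≠ 0 := fun h => hy (congrArg Subtype.val h)
    have hx : IsUnit Q.x := Or.resolve_right hQ (hz' ▸ not_isUnit_zero)
    have e : Q.y = f.l * -Q.x ^ 2 := by
      apply mul_left_cancel₀ hy'
      rw [hz'] at hF
      linear_combination hF
    rw [inE1_piStd hs, ← locDisc0_not_unit, ← locDisc0_not_unit, hz', e, IsUnit.mul_iff]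
    simp [(hx.pow 2).neg]
  · have hz' : Q.z ≠ 0 := fun h => hz (congrArg Subtype.val h)
    have e : (f.map V.incl).NX (Q.map V.incl) = ((f.l * (Q.y + f.l * Q.x ^ 2 +
        Q.z * (f.m * Q.x + f.n * Q.z)) + f.b * Q.x * Q.z : V.O) : L) := by
      simp [Model.NX, Model.q]
      left
      ring
    rw [locDisc0_some, locDisc0_div (pow_ne_zero 2 hz), e]
    exact locDisc0_main (B := f.c * Q.x ^ 2 + f.d * Q.x * Q.z + f.e * Q.z ^ 2) hs hQ hz'
      (by linear_combination hF)

end LocalField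

end SelAvg

/-!
Residue discs and the kernel of reduction.
-/

namespace SelAvg

open WeierstrassCurve WithZero
open scoped Classical

namespace LocalField

variable {L : Type*} [Field L] {V : LocalField L}

variable {κ : Type*} [Field κ] {red : V.O →+* κ}

lemma locDisc_Delta {W : WeierstrassCurve V.O} (hW : W.Δ ≠ 0) : (W.map V.incl).Δ ≠ 0 := by
  rw [map_Δ]
  exact fun h => hW (V.incl_injective (h.trans (map_zero _).symm))

lemma locDisc_on {f : Model V.O} {Q : Pt V.O} (hQ : V.IPrim Q) (hF : f.F Q = 0) :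
    (f.map V.incl).On (Q.map V.incl) :=
  ⟨hQ.map_incl, by rw [Model.map_F, hF, map_zero]⟩

lemma locDisc_F_smul {f : Model V.O} (g : G V.O) {Q : Pt V.O} (hF : f.F (g.pt Q) = 0) :
    (g • f).F Q = 0 := by
  rw [G.F_pt] at hF
  exact (mul_eq_zero.1 hF).resolve_left (pow_ne_zero _ g.μ.ne_zero)

lemma locDisc_isRed (V : LocalField L) : V.IsRed (IsLocalRing.residue V.O) 1 := by
  refine ⟨IsLocalRing.residue_surjective, fun x => ?_⟩
  rw [IsLocalRing.residue_eq_zero_iff, IsLocalRing.mem_maximalIdeal, mem_nonunits_iff,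
    V.isUnit_iff]
  have h := lt_one_iff (V.v (x : L))
  simp only [Nat.cast_one]
  rw [← h]
  exact ⟨fun e => lt_of_le_of_ne (V.v_le_one x) e, fun e => e.ne⟩

/-- Move `Q` to the standard point by `exists_mover_ring`, use `toRaw_D`, `inE1_vcRaw`,
`disc_std`, `Model.smooth_pt`, `Model.smooth_std`. -/
theorem disc (hred : V.IsRed red 1) {W : WeierstrassCurve V.O} (hW : W.Δ ≠ 0) {z : Obj V.O}
    (hz : z.Over W) {Q Q' : Pt V.O} (hQ : V.IPrim Q) (hF : z.f.F Q = 0)
    (hs : (z.f.map red).Smooth (Q.map red)) (hQ' : V.IPrim Q') (hF' : z.f.F Q' = 0) :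
    V.InE1 (toRaw (D (W.map V.incl) (z.map V.incl) (Q.map V.incl) (Q'.map V.incl))) ↔
      (Q.map red).Eqv (Q'.map red) := by
  obtain ⟨g, hg⟩ := exists_mover_ring hQ
  have hgL : ((G.map V.incl g).pt Pt.std).Eqv (Q.map V.incl) := by
    rw [← Pt.map_std V.incl, G.map_pt, hg]
    exact Pt.Eqv.refl _
  have hgr : (G.map red g).pt Pt.std = Q.map red := by
    rw [← Pt.map_std red, G.map_pt, hg]
  have ha : (g • z.f).a = 0 := by
    have := locDisc_F_smul g (Q := Pt.std) (by rw [hg]; exact hF)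
    rwa [Model.F_std, neg_eq_zero] at this
  have hs' : IsUnit (g • z.f).l ∨ IsUnit (g • z.f).b := by
    rw [← hgr, Model.smooth_pt, ← G.map_smul, Model.smooth_std (by rw [Model.map_a, ha, map_zero])]
      at hs
    rw [hred.isUnit_iff, hred.isUnit_iff]
    exact hs
  have hQ'' : V.IPrim (g⁻¹.pt Q') := hQ'.pt g⁻¹
  have hF'' : (g • z.f).F (g⁻¹.pt Q') = 0 := locDisc_F_smul g (by rw [G.pt_inv_pt]; exact hF')
  rw [toRaw_D (locDisc_Delta hW) (hz.map V.incl) (locDisc_on hQ hF) (locDisc_on hQ' hF') _ hgL,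
    ← Obj.map_smul, ← map_inv, G.map_pt, Obj.map_γ, Obj.map_f, inE1_vcRaw, Obj.smul_f,
    disc_std ha hs' hQ'' hF'', ← hred.red_eq_zero, ← hred.red_eq_zero]
  constructor
  · rintro ⟨h1, h2⟩
    have h3 : red (g⁻¹.pt Q').x ≠ 0 := by
      rcases (IPrim.map_red hred).1 hQ'' with h | h
      · exact h
      · exact absurd h1 h
    have h4 : (Pt.std : Pt κ).Eqv ((g⁻¹.pt Q').map red) := by
      refine ⟨_, h3, ?_⟩
      ext
      · simp
      · simpa using h1
      · simpa using h2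
    have h5 := h4.pt (G.map red g)
    rwa [hgr, G.map_pt, G.pt_inv_pt] at h5
  · intro h
    have h5 := h.pt (G.map red g⁻¹)
    rw [G.map_pt, G.map_pt, ← hg, G.inv_pt_pt, Pt.map_std] at h5
    obtain ⟨t, -, e⟩ := h5
    exact ⟨by simpa using congrArg Pt.z e, by simpa using congrArg Pt.y e⟩

/-- On `zO W` take `Q₁`, `Q₂` with `D std Q₁ = P₁`, `D Q₁ Q₂ = P₂` (`D_surjective`,
`exists_integral_rep`); by `disc` (for the residue map `IsLocalRing.residue`) they reduce to the
standard point, and `D std Q₂ = P₁ + P₂` by `D_add`. -/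
theorem inE1_add {W : WeierstrassCurve V.O} (hW : W.Δ ≠ 0)
    {P₁ P₂ : (W.map V.incl).toAffine.Point} (h₁ : V.InE1 (toRaw P₁)) (h₂ : V.InE1 (toRaw P₂)) :
    V.InE1 (toRaw (P₁ + P₂)) := by
  have hred := locDisc_isRed V
  have hz := zO_over W
  have hW' := locDisc_Delta hW
  have hz' := hz.map V.incl
  have hp0 : V.IPrim Pt.std := Or.inl isUnit_one
  have hF0 : (zO W).f.F Pt.std = 0 := by rw [Model.F_std, neg_eq_zero]; rfl
  have hs0 : ((zO W).f.map (IsLocalRing.residue V.O)).Smooth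
      (Pt.std.map (IsLocalRing.residue V.O)) := by
    rw [Pt.map_std, Model.smooth_std (by rw [Model.map_a]; exact map_zero _)]
    right
    rw [Model.map_b]
    exact (hred.isUnit_iff _).1 isUnit_one
  have ho0 := locDisc_on hp0 hF0
  obtain ⟨R₁, hR₁, e₁⟩ := D_surjective hW' hz' ho0 P₁
  obtain ⟨Q₁, hp1, hF1, hq1⟩ := exists_integral_rep (zO W).f hR₁
  have ho1 := locDisc_on hp1 hF1
  rw [D_eqv hW' hz' ho0 hR₁ (Pt.Eqv.refl _) hq1] at e₁
  obtain ⟨R₂, hR₂, e₂⟩ := D_surjective hW' hz' ho1 P₂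
  obtain ⟨Q₂, hp2, hF2, hq2⟩ := exists_integral_rep (zO W).f hR₂
  have ho2 := locDisc_on hp2 hF2
  rw [D_eqv hW' hz' ho1 hR₂ (Pt.Eqv.refl _) hq2] at e₂
  rw [← e₁, disc hred hW hz hp0 hF0 hs0 hp1 hF1] at h₁
  rw [← e₂, disc hred hW hz hp1 hF1 (hs0.eqv h₁) hp2 hF2] at h₂
  rw [← e₁, ← e₂, D_add hW' hz' ho0 ho1 ho2, disc hred hW hz hp0 hF0 hs0 hp2 hF2]
  exact h₁.trans h₂

lemma inE1_neg {W : WeierstrassCurve L} {P : W.toAffine.Point} (h : V.InE1 (toRaw P)) :
    V.InE1 (toRaw (-P)) := by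
  rw [toRaw_neg]
  intro x y e
  cases hP : toRaw P with
  | none => rw [hP] at e; simp at e
  | some p =>
    obtain ⟨x', y'⟩ := p
    rw [hP, vcRaw_some, Option.some.injEq, Prod.mk.injEq] at e
    have hx : x = x' := by rw [← e.1]; simp [negC]
    rw [hx]
    exact h x' y' hP

variable (V) in
/-- the kernel of reduction -/
noncomputable def E1 (W : WeierstrassCurve V.O) : AddSubgroup (W.map V.incl).toAffine.Point :=
  AddSubgroup.closure {P | V.InE1 (toRaw P)}

theorem mem_E1 {W : WeierstrassCurve V.O} (hW : W.Δ ≠ 0) (P : (W.map V.incl).toAffine.Point) :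
    P ∈ V.E1 W ↔ V.InE1 (toRaw P) := by
  refine ⟨fun h => ?_, fun h => AddSubgroup.subset_closure h⟩
  induction h using AddSubgroup.closure_induction with
  | mem _ h => exact h
  | zero => intro x y e; simp at e
  | add _ _ _ _ h1 h2 => exact inE1_add hW h1 h2
  | neg _ _ h => exact inE1_neg h

variable (V) in
/-- the index of the kernel of reduction -/
noncomputable def Nloc (W : WeierstrassCurve V.O) : ℕ := (V.E1 W).index

/-- `vcPt` maps `E1` onto `E1`; use `AddSubgroup.index_map_of_bijective` or `index_comap_of_surjective` -/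
theorem Nloc_smul (C : VariableChange V.O) {W : WeierstrassCurve V.O} (hW : W.Δ ≠ 0) :
    V.Nloc (C • W) = V.Nloc W := by
  have h : (C • W).map V.incl = C.map V.incl • W.map V.incl := (map_variableChange _ _ _).symm
  have e : V.E1 (C • W) = (V.E1 W).comap (vcPt (C.map V.incl) h).toAddMonoidHom := by
    ext P
    rw [AddSubgroup.mem_comap, mem_E1 hW, mem_E1 ((Delta_smul_ne_zero C).2 hW)]
    change _ ↔ V.InE1 (toRaw (vcPt (C.map V.incl) h P))
    rw [toRaw_vcPt, inE1_vcRaw]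
  unfold Nloc
  rw [e]
  exact AddSubgroup.index_comap_of_surjective _ (vcPt (C.map V.incl) h).surjective

end LocalField

end SelAvg

/-!
The index of the kernel of reduction is determined by the number of solutions modulo a power of
the maximal ideal.
-/

namespace SelAvg

open WeierstrassCurve WithZero
open scoped Classical

namespace LocalField

variable {L : Type*} [Field L] {V : LocalField L}

/-- valuations of the slope -/
lemma locCount0_slope (v : Valuation L ℤᵐ⁰) {X Y a₁ a₂ a₃ a₄ l : L} (hX : v X ≤ 1)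
    (h₁ : v a₁ ≤ 1) (h₂ : v a₂ ≤ 1) (hne : X ≠ 0 ∨ Y ≠ 0) (e₁ : X * l = Y + a₃)
    (e₂ : Y * l = X ^ 2 + a₂ * X + a₄ - a₁ * Y) :
    1 < v l ↔ v X < max (v a₄) (v a₃) ∧ v Y < max (v a₄) (v a₃) := by
  have mul_le : ∀ {a b : L} {μ : ℤᵐ⁰}, v a ≤ 1 → v b ≤ μ → v (a * b) ≤ μ := by
    intro a b μ ha hb
    rw [map_mul]
    calc v a * v b ≤ 1 * μ := mul_le_mul' ha hb
      _ = μ := one_mul _
  constructor
  · intro hl
    by_contra hcon
    have hε : max (v a₄) (v a₃) ≤ max (v X) (v Y) := by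
      rcases not_and_or.mp hcon with h | h
      · exact (not_lt.mp h).trans (le_max_left _ _)
      · exact (not_lt.mp h).trans (le_max_right _ _)
    have h4 : v a₄ ≤ max (v X) (v Y) := (le_max_left _ _).trans hε
    have h3 : v a₃ ≤ max (v X) (v Y) := (le_max_right _ _).trans hε
    rcases le_total (v Y) (v X) with h | h
    · rw [max_eq_left h] at h3 h4
      have hX0 : v X ≠ 0 := by
        intro h0
        have hX' : X = 0 := (Valuation.zero_iff v).mp h0
        have hY' : Y = 0 := (Valuation.zero_iff v).mp (le_antisymm (h0 ▸ h) zero_le)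
        rcases hne with h | h
        · exact h hX'
        · exact h hY'
      have : v (X * l) ≤ v X := by
        rw [e₁]
        exact v.map_add_le h h3
      rw [map_mul] at this
      have h' : v X * 1 < v X * v l := mul_lt_mul_of_pos_left hl (zero_lt_iff.mpr hX0)
      rw [mul_one] at h'
      exact absurd this (not_le.mpr h')
    · rw [max_eq_right h] at h3 h4
      have hY0 : v Y ≠ 0 := by
        intro h0
        have hY' : Y = 0 := (Valuation.zero_iff v).mp h0
        have hX' : X = 0 := (Valuation.zero_iff v).mp (le_antisymm (h0 ▸ h) zero_le)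
        rcases hne with h | h
        · exact h hX'
        · exact h hY'
      have : v (Y * l) ≤ v Y := by
        rw [e₂, sq]
        exact v.map_sub_le (v.map_add_le (v.map_add_le (mul_le hX h) (mul_le h₂ h)) h4)
          (mul_le h₁ le_rfl)
      rw [map_mul] at this
      have h' : v Y * 1 < v Y * v l := mul_lt_mul_of_pos_left hl (zero_lt_iff.mpr hY0)
      rw [mul_one] at h'
      exact absurd this (not_le.mpr h')
  · rintro ⟨hx, hy⟩
    by_contra hcon
    have hl : v l ≤ 1 := not_lt.mp hcon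
    have hX' : v X ≤ max (v X) (v Y) := le_max_left _ _
    have hY' : v Y ≤ max (v X) (v Y) := le_max_right _ _
    have h3 : v a₃ ≤ max (v X) (v Y) := by
      have : a₃ = l * X - Y := by linear_combination -e₁
      rw [this]
      exact v.map_sub_le (mul_le hl hX') hY'
    have h4 : v a₄ ≤ max (v X) (v Y) := by
      have : a₄ = l * Y - X * X - a₂ * X + a₁ * Y := by linear_combination -e₂
      rw [this]
      exact v.map_add_le (v.map_sub_le (v.map_sub_le (mul_le hl hY') (mul_le hX hX'))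
        (mul_le h₂ hX')) (mul_le h₁ hY')
    exact absurd (max_le h4 h3) (not_le.mpr (max_lt hx hy))

/-- the `x`-coordinate of a sum of integral points is integral iff the slope is -/
lemma locCount0_addX (v : Valuation L ℤᵐ⁰) {l a₁ a₂ x x₀ : L} (h₁ : v a₁ ≤ 1) (h₂ : v a₂ ≤ 1)
    (hx : v x ≤ 1) (hx₀ : v x₀ ≤ 1) : 1 < v (l ^ 2 + a₁ * l - a₂ - x - x₀) ↔ 1 < v l := by
  constructor
  · intro h
    by_contra hcon
    have hl : v l ≤ 1 := not_lt.mp hcon
    have h2 : v (l ^ 2) ≤ 1 := by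
      rw [map_pow]
      exact pow_le_one' hl 2
    have h3 : v (a₁ * l) ≤ 1 := by
      rw [map_mul]
      exact mul_le_one' h₁ hl
    exact absurd (v.map_sub_le (v.map_sub_le (v.map_sub_le (v.map_add_le h2 h3) h₂) hx) hx₀)
      (not_le.mpr h)
  · intro hl
    have hl0 : 0 < v l := zero_lt_one.trans hl
    have h2 : v l < v (l ^ 2) := by
      rw [map_pow, sq]
      calc v l = v l * 1 := (mul_one _).symm
        _ < v l * v l := mul_lt_mul_of_pos_left hl hl0
    have h3 : v (a₁ * l) ≤ v l := by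
      rw [map_mul]
      calc v a₁ * v l ≤ 1 * v l := mul_le_mul' h₁ le_rfl
        _ = v l := one_mul _
    have h4 : v (a₁ * l - a₂ - x - x₀) ≤ v l :=
      v.map_sub_le (v.map_sub_le (v.map_sub_le h3 (h₂.trans hl.le)) (hx.trans hl.le))
        (hx₀.trans hl.le)
    have h5 : l ^ 2 + a₁ * l - a₂ - x - x₀ = l ^ 2 + (a₁ * l - a₂ - x - x₀) := by ring
    rw [h5, v.map_add_eq_of_lt_left (h4.trans_lt h2)]
    exact hl.trans h2

/-- the two equations for the slope of the line through `(x, y)` and `-(x₀, y₀)` -/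
lemma locCount0_eqs (W : WeierstrassCurve L) {x y x₀ y₀ : L} (h : W.toAffine.Equation x y)
    (h₀ : W.toAffine.Equation x₀ y₀) (hne : ¬(x = x₀ ∧ y = y₀)) :
    (x - x₀) * W.toAffine.slope x x₀ y (W.toAffine.negY x₀ y₀) = (y - y₀) + dY W x₀ y₀ ∧
    (y - y₀) * W.toAffine.slope x x₀ y (W.toAffine.negY x₀ y₀) =
      (x - x₀) ^ 2 + (W.a₂ + 3 * x₀) * (x - x₀) + -dX W x₀ y₀ - W.a₁ * (y - y₀) := by
  by_cases hx : x = x₀
  · subst hx
    have hy : y ≠ y₀ := fun hy => hne ⟨rfl, hy⟩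
    have hy' : y = W.toAffine.negY x y₀ := (Affine.Y_eq_of_X_eq h h₀ rfl).resolve_left hy
    have hn : W.toAffine.negY x y = y₀ := by rw [hy', Affine.negY_negY]
    have hy2 : y ≠ W.toAffine.negY x (W.toAffine.negY x y₀) := by
      rw [Affine.negY_negY]
      exact hy
    rw [Affine.slope_of_Y_ne rfl hy2, hn]
    have hd : y - y₀ ≠ 0 := sub_ne_zero.mpr hy
    refine ⟨?_, ?_⟩
    · rw [sub_self, zero_mul]
      simp only [Affine.negY] at hy'
      simp only [dY]
      linear_combination -hy'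
    · rw [mul_div_cancel₀ _ hd]
      simp only [dX]
      ring
  · have hd : x - x₀ ≠ 0 := sub_ne_zero.mpr hx
    rw [Affine.slope_of_X_ne hx]
    rw [Affine.equation_iff] at h h₀
    refine ⟨?_, ?_⟩
    · rw [mul_div_cancel₀ _ hd]
      simp only [Affine.negY, dY]
      ring
    · rw [← mul_div_assoc, div_eq_iff hd]
      simp only [Affine.negY, dX]
      linear_combination h - h₀

lemma locCount0_dX (W : WeierstrassCurve V.O) (x y : V.O) :
    ((dX W x y : V.O) : L) = dX (W.map V.incl) (x : L) (y : L) := by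
  change V.incl (dX W x y) = dX (W.map V.incl) (V.incl x) (V.incl y)
  simp only [dX, map_sub, map_add, map_mul, map_pow, map_ofNat, map_a₁, map_a₂, map_a₄]

lemma locCount0_dY (W : WeierstrassCurve V.O) (x y : V.O) :
    ((dY W x y : V.O) : L) = dY (W.map V.incl) (x : L) (y : L) := by
  change V.incl (dY W x y) = dY (W.map V.incl) (V.incl x) (V.incl y)
  simp only [dY, map_add, map_mul, map_ofNat, map_a₁, map_a₃]

lemma locCount0_wF (W : WeierstrassCurve V.O) (x y : V.O) :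
    ((wF W x y : V.O) : L) = wF (W.map V.incl) (x : L) (y : L) := by
  change V.incl (wF W x y) = wF (W.map V.incl) (V.incl x) (V.incl y)
  simp only [wF, map_sub, map_add, map_mul, map_pow, map_a₁, map_a₂, map_a₃, map_a₄, map_a₆]

lemma locCount0_inE1_some {x y : L} : V.InE1 (some (x, y)) ↔ 1 < V.v x := by
  constructor
  · intro h
    exact h x y rfl
  · intro h x' y' e
    obtain ⟨rfl, rfl⟩ : x = x' ∧ y = y' := by simpa using e
    exact h

/-- The coset of an integral point.  Translate `P` to `(0, 0)` by `vcPt (wsh x₀ 0 y₀)` (so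
`a₆ = 0`, `max (v a₃) (v a₄) = ε`).  For `P' = (x, y) ≠ P` the slope of the line through `P'` and
`-P = (0, -a₃)` satisfies `x λ = y + a₃` and `y λ = x^2 + a₂ x + a₄ - a₁ y` (also in the tangent
case `P' = -P`), and the `x`-coordinate of `P' - P` is `λ^2 + a₁ λ - a₂ - x`.  If `P'` is
integral this is non-integral iff `1 < v λ`.  Put `μ = max (v x) (v y)`.  If `μ < ε`: from the
equation `v (a₃ y - a₄ x) ≤ μ^2`; if `v a₃ = ε` then `v x = μ` and `v λ = ε / μ`; if `v a₄ = ε`
then `v y = μ` and `v λ = ε / μ`.  If `ε ≤ μ` one of the two formulas gives `v λ ≤ 1`.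
If `P'` is in `E1` then `P' - P` is not (`mem_E1`, as `P` is not). -/
theorem coset_integral {W : WeierstrassCurve V.O} (hW : W.Δ ≠ 0) {x₀ y₀ : V.O}
    {P P' : (W.map V.incl).toAffine.Point} (hP : toRaw P = some ((x₀ : L), (y₀ : L))) :
    P' - P ∈ V.E1 W ↔ ∃ x y : V.O, toRaw P' = some ((x : L), (y : L)) ∧
      V.v ((x : L) - x₀) < max (V.v (dX W x₀ y₀ : V.O)) (V.v (dY W x₀ y₀ : V.O)) ∧
      V.v ((y : L) - y₀) < max (V.v (dX W x₀ y₀ : V.O)) (V.v (dY W x₀ y₀ : V.O)) := by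
  rcases P with _ | ⟨x₁, y₁, h₀⟩
  · exact absurd hP (by simp [toRaw])
  obtain ⟨rfl, rfl⟩ : x₁ = (x₀ : L) ∧ y₁ = (y₀ : L) := by simpa using hP
  have hPn : Affine.Point.some _ _ h₀ ∉ V.E1 W := by
    rw [mem_E1 hW, toRaw_some, locCount0_inE1_some, not_lt]
    exact V.v_le_one x₀
  have hcase : P' ∈ V.E1 W → (P' - Affine.Point.some _ _ h₀ ∈ V.E1 W ↔ ∃ x y : V.O,
      toRaw P' = some ((x : L), (y : L)) ∧
      V.v ((x : L) - x₀) < max (V.v (dX W x₀ y₀ : V.O)) (V.v (dY W x₀ y₀ : V.O)) ∧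
      V.v ((y : L) - y₀) < max (V.v (dX W x₀ y₀ : V.O)) (V.v (dY W x₀ y₀ : V.O))) := by
    intro hP'
    constructor
    · intro h
      have := (V.E1 W).sub_mem hP' h
      rw [sub_sub_cancel] at this
      exact absurd this hPn
    · rintro ⟨x, y, e, -⟩
      rw [mem_E1 hW, e, locCount0_inE1_some] at hP'
      exact absurd (V.v_le_one x) (not_le.mpr hP')
  rcases P' with _ | ⟨x₁, y₁, h⟩
  · exact hcase (V.E1 W).zero_mem
  by_cases hx₁ : 1 < V.v x₁
  · apply hcase
    rw [mem_E1 hW, toRaw_some, locCount0_inE1_some]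
    exact hx₁
  have hx : V.v x₁ ≤ 1 := not_lt.mp hx₁
  have hy : V.v y₁ ≤ 1 := y_integral W h.1 hx
  have key : (Affine.Point.some _ _ h - Affine.Point.some _ _ h₀ ∈ V.E1 W) ↔
      V.v (x₁ - x₀) < max (V.v (dX W x₀ y₀ : V.O)) (V.v (dY W x₀ y₀ : V.O)) ∧
      V.v (y₁ - y₀) < max (V.v (dX W x₀ y₀ : V.O)) (V.v (dY W x₀ y₀ : V.O)) := by
    rw [locCount0_dX, locCount0_dY]
    by_cases hne : x₁ = (x₀ : L) ∧ y₁ = (y₀ : L)
    · obtain ⟨rfl, rfl⟩ := hne
      have hpos : 0 < max (V.v (dX (W.map V.incl) (x₀ : L) (y₀ : L)))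
          (V.v (dY (W.map V.incl) (x₀ : L) (y₀ : L))) := by
        rcases ((Affine.nonsingular_iff' _ _).mp h₀).2 with h' | h'
        · exact lt_max_of_lt_left (zero_lt_iff.mpr ((Valuation.ne_zero_iff _).mpr h'))
        · exact lt_max_of_lt_right (zero_lt_iff.mpr ((Valuation.ne_zero_iff _).mpr h'))
      simp only [sub_self, map_zero, and_self]
      exact iff_of_true (V.E1 W).zero_mem hpos
    · have hne' : ¬(x₁ = (x₀ : L) ∧ y₁ = (W.map V.incl).toAffine.negY (x₀ : L)
          ((W.map V.incl).toAffine.negY (x₀ : L) (y₀ : L))) := by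
        rw [Affine.negY_negY]
        exact hne
      obtain ⟨e₁, e₂⟩ := locCount0_eqs (W.map V.incl) h.1 h₀.1 hne
      have ha₁ : V.v (W.map V.incl).a₁ ≤ 1 := V.v_le_one W.a₁
      have ha₂ : V.v (W.map V.incl).a₂ ≤ 1 := V.v_le_one W.a₂
      have h3 : V.v (3 : L) ≤ 1 := by
        have := V.v_le_one (3 : V.O)
        exact this
      have ha₂' : V.v ((W.map V.incl).a₂ + 3 * (x₀ : L)) ≤ 1 := by
        refine V.v.map_add_le ha₂ ?_
        rw [map_mul]
        exact mul_le_one' h3 (V.v_le_one x₀)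
      have hX : V.v (x₁ - x₀) ≤ 1 := V.v.map_sub_le hx (V.v_le_one x₀)
      have hne2 : x₁ - x₀ ≠ 0 ∨ y₁ - y₀ ≠ 0 := by
        rw [sub_ne_zero, sub_ne_zero]
        exact not_and_or.mp hne
      have hs := locCount0_slope V.v hX ha₁ ha₂' hne2 e₁ e₂
      rw [Valuation.map_neg] at hs
      rw [← hs, sub_eq_add_neg, Affine.Point.neg_some, Affine.Point.add_some hne', mem_E1 hW,
        toRaw_some, locCount0_inE1_some, Affine.addX]
      exact locCount0_addX V.v ha₁ ha₂ hx (V.v_le_one x₀)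
  rw [key]
  constructor
  · intro h'
    exact ⟨⟨x₁, hx⟩, ⟨y₁, hy⟩, rfl, h'⟩
  · rintro ⟨x, y, e, h'⟩
    obtain ⟨rfl, rfl⟩ : x₁ = (x : L) ∧ y₁ = (y : L) := by simpa using e
    exact h'

/-- a point outside `E1` has integral coordinates -/
lemma exists_coords_of_not_mem_E1 {W : WeierstrassCurve V.O} (hW : W.Δ ≠ 0)
    {P : (W.map V.incl).toAffine.Point} (hP : P ∉ V.E1 W) :
    ∃ x y : V.O, toRaw P = some ((x : L), (y : L)) ∧ wF W x y = 0 := by
  rcases P with _ | ⟨x, y, h⟩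
  · exact absurd (V.E1 W).zero_mem hP
  rw [mem_E1 hW, toRaw_some, locCount0_inE1_some, not_lt] at hP
  have hy : V.v y ≤ 1 := y_integral W h.1 hP
  refine ⟨⟨x, hP⟩, ⟨y, hy⟩, rfl, ?_⟩
  apply Subtype.val_injective
  have := (equation_iff_wF (W.map V.incl) x y).mp h.1
  exact (locCount0_wF W ⟨x, hP⟩ ⟨y, hy⟩).trans this

end LocalField

end SelAvg

/-!
Solutions near an exact solution.
-/

namespace SelAvg

open WeierstrassCurve WithZero
open scoped Classical

namespace LocalField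

variable {L : Type*} [Field L] {V : LocalField L}

lemma locCount1_v_unif_mul (c : V.O) : V.v ((V.unif * c : V.O) : L) < 1 := by
  rw [lt_one_iff]
  have := (V.le_exp_iff_dvd (V.unif * c) 1).2 (by rw [pow_one]; exact dvd_mul_right _ _)
  simpa using this

lemma locCount1_unif_ne : V.unif ≠ 0 := by
  intro h
  have h1 : V.ϖ = 0 := congrArg Subtype.val h
  have h2 := V.v_ϖ
  rw [h1, map_zero] at h2
  exact exp_ne_zero h2.symm

lemma locCount1_unit {u : V.O} (hu : IsUnit u) (c : V.O) : IsUnit (u + V.unif * c) := by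
  rw [V.isUnit_iff] at hu ⊢
  have h := locCount1_v_unif_mul (V := V) c
  rw [← hu] at h
  rw [← hu]
  exact Valuation.map_add_eq_of_lt_left V.v h

lemma locCount1_root {c₁ : V.O} (h : IsUnit c₁) (c₀ c₂ c₃ : V.O) :
    ∃ r : V.O, c₀ + c₁ * r + V.unif * (c₂ * r ^ 2 + c₃ * r ^ 3) = 0 := by
  obtain ⟨d, hd⟩ := h.exists_right_inv
  obtain ⟨r, hr, -⟩ := V.hensel (Polynomial.C c₀ + Polynomial.C c₁ * Polynomial.X +
    Polynomial.C (V.unif * c₂) * Polynomial.X ^ 2 + Polynomial.C (V.unif * c₃) * Polynomial.X ^ 3)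
    (-(d * c₀)) (by
      have e : (Polynomial.C c₀ + Polynomial.C c₁ * Polynomial.X +
          Polynomial.C (V.unif * c₂) * Polynomial.X ^ 2 +
          Polynomial.C (V.unif * c₃) * Polynomial.X ^ 3).eval (-(d * c₀)) =
          V.unif * (c₂ * (d * c₀) ^ 2 - c₃ * (d * c₀) ^ 3) := by
        simp only [Polynomial.eval_add, Polynomial.eval_mul, Polynomial.eval_C, Polynomial.eval_X,
          Polynomial.eval_pow]
        linear_combination (-c₀) * hd
      rw [e]
      exact locCount1_v_unif_mul _)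
    (by
      have e : (Polynomial.C c₀ + Polynomial.C c₁ * Polynomial.X +
          Polynomial.C (V.unif * c₂) * Polynomial.X ^ 2 +
          Polynomial.C (V.unif * c₃) * Polynomial.X ^ 3).derivative.eval (-(d * c₀)) =
          c₁ + V.unif * (-(2 * c₂ * (d * c₀)) + 3 * c₃ * (d * c₀) ^ 2) := by
        simp only [Polynomial.derivative_add, Polynomial.derivative_C, Polynomial.derivative_C_mul,
          Polynomial.derivative_X, Polynomial.derivative_X_pow, Polynomial.eval_add,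
          Polynomial.eval_mul, Polynomial.eval_C, Polynomial.eval_X, Polynomial.eval_pow,
          Polynomial.eval_zero, Polynomial.eval_one]
        push_cast
        ring
      rw [e]
      exact locCount1_unit h _)
  refine ⟨r, ?_⟩
  simp only [Polynomial.eval_add, Polynomial.eval_mul, Polynomial.eval_C, Polynomial.eval_X,
    Polynomial.eval_pow] at hr
  linear_combination hr

lemma locCount1_v_pow (n : ℕ) : V.v ((V.unif ^ n : V.O) : L) = exp (-(n : ℤ)) := by
  have : ((V.unif ^ n : V.O) : L) = V.ϖ ^ n := rfl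
  rw [this, map_pow, V.v_ϖ, ← exp_nsmul]
  congr 1
  simp

/-- both derivatives are divisible by the `e`-th power of the uniformiser, one of them exactly -/
lemma locCount1_split {s t : V.O} {e : ℕ}
    (he : max (V.v (s : L)) (V.v (t : L)) = exp (-(e : ℤ))) :
    ∃ α β : V.O, s = V.unif ^ e * α ∧ t = V.unif ^ e * β ∧ (IsUnit α ∨ IsUnit β) := by
  obtain ⟨α, hα⟩ := (V.le_exp_iff_dvd s e).1 (he ▸ le_max_left _ _)
  obtain ⟨β, hβ⟩ := (V.le_exp_iff_dvd t e).1 (he ▸ le_max_right _ _)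
  have key : ∀ {s α : V.O}, s = V.unif ^ e * α → V.v (s : L) = exp (-(e : ℤ)) → IsUnit α := by
    intro s α h1 h2
    rw [V.isUnit_iff]
    have h3 : (s : L) = ((V.unif ^ e : V.O) : L) * α := by rw [h1]; rfl
    rw [h3, map_mul, locCount1_v_pow] at h2
    exact (mul_eq_left₀ exp_ne_zero).1 h2
  refine ⟨α, β, hα, hβ, ?_⟩
  rcases max_choice (V.v (s : L)) (V.v (t : L)) with h | h
  · exact Or.inl (key hα (h ▸ he))
  · exact Or.inr (key hβ (h ▸ he))

lemma locCount1_taylor (W : WeierstrassCurve V.O) {x₀ y₀ α β γ : V.O} {e : ℕ}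
    (hα : dX W x₀ y₀ = V.unif ^ e * α) (hβ : dY W x₀ y₀ = V.unif ^ e * β)
    (hγ : wF W x₀ y₀ = V.unif ^ (2 * e + 1) * γ) (a b : V.O) :
    wF W (x₀ + V.unif ^ (e + 1) * a) (y₀ + V.unif ^ (e + 1) * b) =
      V.unif ^ (2 * e + 1) * (γ + α * a + β * b + V.unif * (b ^ 2 + W.a₁ * a * b -
        (3 * x₀ + W.a₂) * a ^ 2 - V.unif ^ (e + 1) * a ^ 3)) := by
  have h2 : V.unif ^ (2 * e + 1) = V.unif ^ e * V.unif ^ e * V.unif := by ring
  rw [h2] at hγ ⊢
  rw [pow_succ]
  generalize V.unif ^ e = c at *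
  simp only [wF, dX, dY] at *
  linear_combination hγ + (c * V.unif * a) * hα + (c * V.unif * b) * hβ

lemma locCount1_near (x₀ a : V.O) (e : ℕ) :
    V.v (((x₀ + V.unif ^ (e + 1) * a : V.O) : L) - x₀) < exp (-(e : ℤ)) := by
  have h1 : ((x₀ + V.unif ^ (e + 1) * a : V.O) : L) - x₀ = (V.unif ^ (e + 1) * a : V.O) := by
    push_cast
    ring
  rw [h1]
  refine lt_of_le_of_lt ((V.le_exp_iff_dvd _ (e + 1)).2 (dvd_mul_right _ _)) ?_
  rw [exp_lt_exp]
  push_cast
  omega

/-- Hensel with a derivative of valuation `exp (-e)`: substitute `y = y₀ + ϖ^e h` (or the same for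
`x`), divide by `ϖ^(2e)` and apply `hensel`. -/
theorem hensel_wF (W : WeierstrassCurve V.O) {x₀ y₀ : V.O} {e : ℕ}
    (he : max (V.v (dX W x₀ y₀ : V.O)) (V.v (dY W x₀ y₀ : V.O)) = exp (-(e : ℤ)))
    (hF : V.v (wF W x₀ y₀ : V.O) < exp (-(2 * e : ℤ))) :
    ∃ x y : V.O, wF W x y = 0 ∧ V.v ((x : L) - x₀) < exp (-(e : ℤ)) ∧
      V.v ((y : L) - y₀) < exp (-(e : ℤ)) := by
  obtain ⟨α, β, hα, hβ, hu⟩ := locCount1_split he
  obtain ⟨γ, hγ⟩ := (V.le_exp_iff_dvd (wF W x₀ y₀) (2 * e + 1)).1 (by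
    rw [lt_exp_iff] at hF
    refine hF.trans (le_of_eq ?_)
    congr 1
    push_cast
    ring)
  rcases hu with hu | hu
  · obtain ⟨r, hr⟩ := locCount1_root hu γ (-(3 * x₀ + W.a₂)) (-V.unif ^ (e + 1))
    refine ⟨_, _, ?_, locCount1_near x₀ r e, locCount1_near y₀ 0 e⟩
    rw [locCount1_taylor W hα hβ hγ]
    exact mul_eq_zero_of_right _ (by linear_combination hr)
  · obtain ⟨r, hr⟩ := locCount1_root hu γ 1 0
    refine ⟨_, _, ?_, locCount1_near x₀ 0 e, locCount1_near y₀ r e⟩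
    rw [locCount1_taylor W hα hβ hγ]
    exact mul_eq_zero_of_right _ (by linear_combination hr)

variable {κ R : Type*} [Field κ] [CommRing R] {red : V.O →+* κ} {ρ : V.O →+* R}

lemma locCount1_count [Finite κ] (hred : V.IsRed red 1) {M : ℕ} (hρ : V.IsRed ρ M) {e : ℕ}
    (hM : 2 * e < M) (P : R → R → Prop) (x₀ y₀ : V.O) (r : V.O → V.O)
    (hP : ∀ a b : V.O, P (ρ (x₀ + V.unif ^ (e + 1) * a)) (ρ (y₀ + V.unif ^ (e + 1) * b)) ↔
      V.unif ^ (M - (2 * e + 1)) ∣ b - r a) :
    Nat.card {p : R × R // P p.1 p.2 ∧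
      ρ V.unif ^ (e + 1) ∣ p.1 - ρ x₀ ∧ ρ V.unif ^ (e + 1) ∣ p.2 - ρ y₀} =
      Nat.card κ ^ (M - 1) := by
  have hex : ∀ u : R, ∃ a : V.O, ρ V.unif ^ (e + 1) ∣ u → u = ρ (V.unif ^ (e + 1) * a) := by
    intro u
    by_cases h : ρ V.unif ^ (e + 1) ∣ u
    · obtain ⟨c, hc⟩ := h
      obtain ⟨a, rfl⟩ := hρ.surj c
      exact ⟨a, fun _ => by rw [hc, map_mul, map_pow]⟩
    · exact ⟨0, fun h' => absurd h' h⟩
  choose A hA using hex
  have hpow : V.unif ^ (M - e) = V.unif ^ (e + 1) * V.unif ^ (M - (2 * e + 1)) := by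
    rw [← pow_add]
    congr 1
    omega
  have key : ∀ x y : R, ρ V.unif ^ (e + 1) ∣ x - ρ x₀ →
      ((P x y ∧ ρ V.unif ^ (e + 1) ∣ y - ρ y₀) ↔
        ρ V.unif ^ (M - e) ∣ y - ρ (y₀ + V.unif ^ (e + 1) * r (A (x - ρ x₀)))) := by
    intro x y hx
    have hx' : x = ρ (x₀ + V.unif ^ (e + 1) * A (x - ρ x₀)) := by
      rw [map_add, ← hA _ hx]
      ring
    generalize A (x - ρ x₀) = a at hx'
    subst hx'
    constructor
    · rintro ⟨h1, h2⟩
      have hy' : y = ρ (y₀ + V.unif ^ (e + 1) * A (y - ρ y₀)) := by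
        rw [map_add, ← hA _ h2]
        ring
      generalize A (y - ρ y₀) = b at hy'
      subst hy'
      obtain ⟨c, hc⟩ := (hP a b).1 h1
      refine ⟨ρ c, ?_⟩
      rw [← map_pow, ← map_mul, ← map_sub, hpow]
      congr 1
      linear_combination (V.unif ^ (e + 1)) * hc
    · rintro ⟨c, hc⟩
      obtain ⟨c, rfl⟩ := hρ.surj c
      have hy' : y = ρ (y₀ + V.unif ^ (e + 1) * (r a + V.unif ^ (M - (2 * e + 1)) * c)) := by
        rw [← map_pow, ← map_mul, sub_eq_iff_eq_add, ← map_add, hpow] at hc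
        rw [hc]
        congr 1
        ring
      subst hy'
      refine ⟨(hP a _).2 ⟨c, by ring⟩, ρ (r a + V.unif ^ (M - (2 * e + 1)) * c), ?_⟩
      rw [← map_pow, ← map_mul, ← map_sub]
      congr 1
      ring
  let E : {p : R × R // P p.1 p.2 ∧
      ρ V.unif ^ (e + 1) ∣ p.1 - ρ x₀ ∧ ρ V.unif ^ (e + 1) ∣ p.2 - ρ y₀} ≃
      {u : R // ρ V.unif ^ (e + 1) ∣ u} × {w : R // ρ V.unif ^ (M - e) ∣ w} :=
    { toFun := fun p => (⟨p.1.1 - ρ x₀, p.2.2.1⟩,
        ⟨p.1.2 - ρ (y₀ + V.unif ^ (e + 1) * r (A (p.1.1 - ρ x₀))),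
          (key _ _ p.2.2.1).1 ⟨p.2.1, p.2.2.2⟩⟩)
      invFun := fun q => ⟨(q.1.1 + ρ x₀, q.2.1 + ρ (y₀ + V.unif ^ (e + 1) * r (A q.1.1))), by
        have h1 : ρ V.unif ^ (e + 1) ∣ q.1.1 + ρ x₀ - ρ x₀ := by
          rw [add_sub_cancel_right]
          exact q.1.2
        have h2 := (key _ (q.2.1 + ρ (y₀ + V.unif ^ (e + 1) * r (A q.1.1))) h1).2 (by
          rw [add_sub_cancel_right, add_sub_cancel_right]
          exact q.2.2)
        exact ⟨h2.1, h1, h2.2⟩⟩
      left_inv := fun p => by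
        apply Subtype.ext
        apply Prod.ext
        · exact sub_add_cancel _ _
        · exact sub_add_cancel _ _
      right_inv := fun q => by
        apply Prod.ext
        · exact Subtype.ext (add_sub_cancel_right _ _)
        · apply Subtype.ext
          simp only [add_sub_cancel_right] }
  rw [Nat.card_congr E, Nat.card_prod, hred.card_dvd hρ (by omega : e + 1 ≤ M),
    hred.card_dvd hρ (Nat.sub_le M e), ← pow_add]
  congr 1
  omega

lemma locCount1_eqn {M : ℕ} (hρ : V.IsRed ρ M) (W : WeierstrassCurve V.O) {e : ℕ}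
    (hM : 2 * e < M) {x y d u : V.O} (hu : IsUnit u)
    (h : wF W x y = V.unif ^ (2 * e + 1) * (d * u)) :
    (W.map ρ).toAffine.Equation (ρ x) (ρ y) ↔ V.unif ^ (M - (2 * e + 1)) ∣ d := by
  have h1 : wF (W.map ρ) (ρ x) (ρ y) = ρ (wF W x y) := by
    simp [wF]
  have h2 : V.unif ^ M = V.unif ^ (2 * e + 1) * V.unif ^ (M - (2 * e + 1)) := by
    rw [← pow_add]
    congr 1
    omega
  rw [equation_iff_wF, h1, hρ.ker, V.le_exp_iff_dvd, h, h2,
    mul_dvd_mul_iff_left (pow_ne_zero _ locCount1_unif_ne), hu.dvd_mul_right]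

/-- Solutions modulo `𝔪^M` near an exact solution.  Translate to the origin and write
`x = ϖ^(e+1) x'`, `y = ϖ^(e+1) y'`; the equation becomes `ϖ^(2e+1) H(x', y')` where `H` has a unit
derivative in `y'` (or in `x'`) everywhere.  For each `x` (there are `q^(M-e-1)`) there is an exact
root `y'₀` (`hensel`) and `v (H(x', y')) = v (y' - y'₀)` (`v_eval_sub`), so the solutions are the
`y` congruent to `ϖ^(e+1) y'₀` modulo `ϖ^(M-e)`; there are `q^e` of them (`IsRed.card_dvd`). -/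
theorem card_near [Finite κ] (hred : V.IsRed red 1) {M : ℕ} (hρ : V.IsRed ρ M)
    (W : WeierstrassCurve V.O) {x₀ y₀ : V.O} (hF : wF W x₀ y₀ = 0) {e : ℕ}
    (he : max (V.v (dX W x₀ y₀ : V.O)) (V.v (dY W x₀ y₀ : V.O)) = exp (-(e : ℤ)))
    (hM : 2 * e < M) :
    Nat.card {p : R × R // (W.map ρ).toAffine.Equation p.1 p.2 ∧
      ρ V.unif ^ (e + 1) ∣ p.1 - ρ x₀ ∧ ρ V.unif ^ (e + 1) ∣ p.2 - ρ y₀} =
      Nat.card κ ^ (M - 1) := by
  obtain ⟨α, β, hα, hβ, hu⟩ := locCount1_split he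
  have hγ : wF W x₀ y₀ = V.unif ^ (2 * e + 1) * 0 := by rw [hF, mul_zero]
  rcases hu with hu | hu
  · have hex := fun b : V.O => locCount1_root (locCount1_unit hu (W.a₁ * b))
      (β * b + V.unif * b ^ 2) (-(3 * x₀ + W.a₂)) (-V.unif ^ (e + 1))
    choose r hr using hex
    rw [← locCount1_count hred hρ hM (fun y x => (W.map ρ).toAffine.Equation x y) y₀ x₀ r ?_]
    · exact Nat.card_congr ((Equiv.prodComm R R).subtypeEquiv fun p =>
        ⟨fun h => ⟨h.1, h.2.2, h.2.1⟩, fun h => ⟨h.1, h.2.2, h.2.1⟩⟩)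
    · intro b a
      refine locCount1_eqn hρ W hM (locCount1_unit hu (W.a₁ * b - (3 * x₀ + W.a₂) * (a + r b) -
        V.unif ^ (e + 1) * (a ^ 2 + a * r b + r b ^ 2))) ?_
      rw [locCount1_taylor W hα hβ hγ]
      congr 1
      linear_combination hr b
  · have hex := fun a : V.O => locCount1_root (locCount1_unit hu (W.a₁ * a))
      (α * a - V.unif * ((3 * x₀ + W.a₂) * a ^ 2 + V.unif ^ (e + 1) * a ^ 3)) 1 0
    choose r hr using hex
    refine locCount1_count hred hρ hM (fun x y => (W.map ρ).toAffine.Equation x y) x₀ y₀ r ?_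
    intro a b
    refine locCount1_eqn hρ W hM (locCount1_unit hu (W.a₁ * a + b + r a)) ?_
    rw [locCount1_taylor W hα hβ hγ]
    congr 1
    linear_combination hr a

end LocalField

end SelAvg

/-!
Counting solutions modulo a power of the maximal ideal.
-/

namespace SelAvg

open WeierstrassCurve WithZero
open scoped Classical

namespace LocalField

variable {L : Type*} [Field L] {V : LocalField L}
variable {κ R : Type*} [Field κ] [CommRing R] {red : V.O →+* κ} {ρ : V.O →+* R}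

lemma locCount_count {S Q : Type*} [Finite S] (f : S → Q) (c₀ : Q) {n : ℕ} (hn : 0 < n)
    (h0 : ∀ s, f s ≠ c₀) (h : ∀ c, c ≠ c₀ → Nat.card {s // f s = c} = n) :
    0 < Nat.card Q ∧ Nat.card S = (Nat.card Q - 1) * n := by
  have hfin : Finite Q := by
    refine Finite.of_surjective (fun o : Option S => o.elim c₀ f) fun c => ?_
    by_cases hc : c = c₀
    · exact ⟨none, hc.symm⟩
    · have h1 : 0 < Nat.card {s // f s = c} := by rw [h c hc]; exact hn
      obtain ⟨⟨s, hs⟩⟩ := (Nat.card_pos_iff.1 h1).1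
      exact ⟨some s, hs⟩
  have := Fintype.ofFinite Q
  have : Nonempty Q := ⟨c₀⟩
  refine ⟨Nat.card_pos, ?_⟩
  rw [← Nat.card_congr (Equiv.sigmaFiberEquiv f), Nat.card_sigma,
    ← Finset.add_sum_erase _ _ (Finset.mem_univ c₀)]
  have hz : Nat.card {s // f s = c₀} = 0 := by
    have : IsEmpty {s // f s = c₀} := ⟨fun s => h0 s.1 s.2⟩
    exact Nat.card_of_isEmpty
  rw [hz, zero_add, Finset.sum_congr rfl (fun c hc => h c (Finset.ne_of_mem_erase hc)),
    Finset.sum_const, smul_eq_mul, Finset.card_erase_of_mem (Finset.mem_univ _),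
    Finset.card_univ, Nat.card_eq_fintype_card]

/-- the valuation of the gradient -/
noncomputable def locCount_g (W : WeierstrassCurve V.O) (x y : V.O) : ℤᵐ⁰ :=
  max (V.v (dX W x y : V.O)) (V.v (dY W x y : V.O))

lemma locCount_grad {j : ℕ} (hρ : V.IsRed ρ (2 * j)) {W : WeierstrassCurve V.O}
    (hΔ : ρ W.Δ ≠ 0) {x y : V.O} (hF : ρ (wF W x y) = 0) :
    ∃ e : ℕ, e < j ∧ locCount_g W x y = exp (-(e : ℤ)) := by
  have hlt : exp (-(j : ℤ)) < locCount_g W x y := by
    by_contra hcon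
    push Not at hcon
    have h1 := (V.le_exp_iff_dvd _ j).1 ((le_max_left _ _).trans hcon)
    have h2 := (V.le_exp_iff_dvd _ j).1 ((le_max_right _ _).trans hcon)
    have h3 := (V.le_exp_iff_dvd _ (2 * j)).1 ((hρ.ker _).1 hF)
    rw [mul_comm, pow_mul] at h3
    have h4 := sq_dvd_Delta W h1 h2 h3
    rw [← pow_mul, mul_comm] at h4
    exact hΔ ((hρ.ker _).2 ((V.le_exp_iff_dvd _ (2 * j)).2 h4))
  have hle : locCount_g W x y ≤ 1 := max_le (V.v_le_one _) (V.v_le_one _)
  have hne : locCount_g W x y ≠ 0 := (lt_of_le_of_lt zero_le hlt).ne'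
  rw [← exp_log hne] at hlt hle ⊢
  rw [exp_lt_exp] at hlt
  rw [← exp_zero, exp_le_exp] at hle
  refine ⟨(-log (locCount_g W x y)).toNat, by omega, ?_⟩
  congr 1
  omega

lemma locCount_lin {γ : ℤᵐ⁰} {x x₀ y y₀ : V.O} (a b : V.O) (hx : V.v ((x : L) - x₀) < γ)
    (hy : V.v ((y : L) - y₀) < γ) : V.v ((a : L) * (x - x₀) + b * (y - y₀)) < γ := by
  refine V.v.map_add_lt ?_ ?_
  · rw [map_mul]; exact lt_of_le_of_lt (mul_le_of_le_one_left' (V.v_le_one a)) hx
  · rw [map_mul]; exact lt_of_le_of_lt (mul_le_of_le_one_left' (V.v_le_one b)) hy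

lemma locCount_stable (W : WeierstrassCurve V.O) {x y x₀ y₀ : V.O}
    (hx : V.v ((x : L) - x₀) < locCount_g W x₀ y₀) (hy : V.v ((y : L) - y₀) < locCount_g W x₀ y₀) :
    locCount_g W x y = locCount_g W x₀ y₀ := by
  have h1 : V.v (((dX W x y : V.O) : L) - (dX W x₀ y₀ : V.O)) < locCount_g W x₀ y₀ := by
    have e : dX W x y - dX W x₀ y₀ = (-(3 * (x + x₀) + 2 * W.a₂)) * (x - x₀) + W.a₁ * (y - y₀) := by
      unfold dX; ring
    have e' := congrArg (fun t : V.O => (t : L)) e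
    simp only [AddSubgroupClass.coe_sub, MulMemClass.coe_mul, AddMemClass.coe_add] at e'
    rw [e']
    exact locCount_lin _ _ hx hy
  have h2 : V.v (((dY W x y : V.O) : L) - (dY W x₀ y₀ : V.O)) < locCount_g W x₀ y₀ := by
    have e : dY W x y - dY W x₀ y₀ = W.a₁ * (x - x₀) + 2 * (y - y₀) := by
      unfold dY; ring
    have e' := congrArg (fun t : V.O => (t : L)) e
    simp only [AddSubgroupClass.coe_sub, MulMemClass.coe_mul, AddMemClass.coe_add] at e'
    rw [e']
    exact locCount_lin _ _ hx hy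
  have key : ∀ a b : L, V.v (a - b) < locCount_g W x₀ y₀ → V.v b ≤ locCount_g W x₀ y₀ →
      V.v a ≤ locCount_g W x₀ y₀ := by
    intro a b hab hb
    have : a = (a - b) + b := by ring
    rw [this]
    exact V.v.map_add_le hab.le hb
  apply le_antisymm
  · exact max_le (key _ _ h1 (le_max_left _ _)) (key _ _ h2 (le_max_right _ _))
  · rcases max_choice (V.v (dX W x₀ y₀ : V.O)) (V.v (dY W x₀ y₀ : V.O)) with h | h
    · have h' : locCount_g W x₀ y₀ = V.v (dX W x₀ y₀ : V.O) := h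
      rw [h'] at h1 ⊢
      rw [← V.v.map_eq_of_sub_lt h1]
      exact le_max_left _ _
    · have h' : locCount_g W x₀ y₀ = V.v (dY W x₀ y₀ : V.O) := h
      rw [h'] at h2 ⊢
      rw [← V.v.map_eq_of_sub_lt h2]
      exact le_max_right _ _

lemma locCount_dvd {M : ℕ} (hρ : V.IsRed ρ M) {e : ℕ} (he : e + 1 ≤ M) (x x₀ : V.O) :
    ρ V.unif ^ (e + 1) ∣ ρ x - ρ x₀ ↔ V.v ((x : L) - x₀) < exp (-(e : ℤ)) := by
  have h0 : V.v ((x : L) - x₀) < exp (-(e : ℤ)) ↔ V.unif ^ (e + 1) ∣ x - x₀ := by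
    rw [← V.le_exp_iff_dvd, lt_exp_iff, AddSubgroupClass.coe_sub]
    have : -(e : ℤ) - 1 = -((e + 1 : ℕ) : ℤ) := by push_cast; ring
    rw [this]
  rw [h0]
  constructor
  · rintro ⟨c, hc⟩
    obtain ⟨c', rfl⟩ := hρ.surj c
    have h1 : ρ (x - x₀ - V.unif ^ (e + 1) * c') = 0 := by
      rw [map_sub, map_sub, map_mul, map_pow, hc, sub_self]
    have h2 := (V.le_exp_iff_dvd _ M).1 ((hρ.ker _).1 h1)
    have h3 : V.unif ^ (e + 1) ∣ x - x₀ - V.unif ^ (e + 1) * c' := (pow_dvd_pow _ he).trans h2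
    have h4 := dvd_add h3 (dvd_mul_right (V.unif ^ (e + 1)) c')
    rwa [sub_add_cancel] at h4
  · intro h
    have := map_dvd ρ h
    rwa [map_pow, map_sub] at this

lemma locCount_wF_map {A B : Type*} [CommRing A] [CommRing B] (φ : A →+* B)
    (W : WeierstrassCurve A) (x y : A) : wF (W.map φ) (φ x) (φ y) = φ (wF W x y) := by
  simp [wF]

lemma locCount_tri {γ : ℤᵐ⁰} {a b c : L} (h1 : V.v (a - b) < γ) (h2 : V.v (b - c) < γ) :
    V.v (a - c) < γ := by
  have : a - c = (a - b) + (b - c) := by ring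
  rw [this]
  exact V.v.map_add_lt h1 h2

lemma locCount_near {j : ℕ} (hρ : V.IsRed ρ (2 * j)) {W : WeierstrassCurve V.O}
    (hΔ : ρ W.Δ ≠ 0) (p : {p : R × R // (W.map ρ).toAffine.Equation p.1 p.2}) :
    ∃ P : (W.map V.incl).toAffine.Point, ∃ x₀ y₀ x y : V.O, toRaw P = some ((x₀ : L), (y₀ : L)) ∧
      ρ x = p.1.1 ∧ ρ y = p.1.2 ∧ V.v ((x₀ : L) - x) < locCount_g W x y ∧
      V.v ((y₀ : L) - y) < locCount_g W x y := by
  obtain ⟨⟨a, b⟩, hp⟩ := p
  obtain ⟨x, rfl⟩ := hρ.surj a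
  obtain ⟨y, rfl⟩ := hρ.surj b
  have hF : ρ (wF W x y) = 0 := by
    rw [← locCount_wF_map]; exact (equation_iff_wF _ _ _).1 hp
  obtain ⟨e, hej, he⟩ := locCount_grad hρ hΔ hF
  have hF' : V.v (wF W x y : V.O) < exp (-(2 * e : ℤ)) := by
    refine lt_of_le_of_lt ((hρ.ker _).1 hF) ?_
    rw [exp_lt_exp]; push_cast; omega
  obtain ⟨x₀, y₀, h0, hx, hy⟩ := hensel_wF W he hF'
  have hW : W.Δ ≠ 0 := fun h => hΔ (by rw [h, map_zero])
  have hW' : (W.map V.incl).Δ ≠ 0 := by
    rw [map_Δ]; exact fun h => hW (V.incl_injective (by rw [h, map_zero]))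
  have hv : Valid (W.map V.incl) (some ((x₀ : L), (y₀ : L))) := by
    rw [valid_some, equation_iff_wF]
    exact (locCount_wF_map V.incl W x₀ y₀).trans (by rw [h0, map_zero])
  exact ⟨ofRaw _ (some ((x₀ : L), (y₀ : L))), x₀, y₀, x, y, toRaw_ofRaw hW' hv, rfl, rfl,
    he ▸ hx, he ▸ hy⟩

/-- The solutions modulo `𝔪^M` (`M = 2 j`) are partitioned by the nonzero cosets of `E1`.
For a solution, lifted to `(x, y)`, the derivatives are not both divisible by `ϖ^j`
(`sq_dvd_Delta`), so `hensel_wF` gives an exact point nearby; the valuation of the gradient is the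
same at both points; `coset_integral` shows that the coset is well defined and that the fibre over
the coset of `P` is the set counted by `card_near`.  Every nonzero coset has a nonempty fibre,
so the quotient is finite. -/
theorem nAff_eq [Finite κ] (hred : V.IsRed red 1) {j : ℕ} (hρ : V.IsRed ρ (2 * j))
    {W : WeierstrassCurve V.O} (hΔ : ρ W.Δ ≠ 0) :
    0 < V.Nloc W ∧ nAff (W.map ρ) = (V.Nloc W - 1) * Nat.card κ ^ (2 * j - 1) := by
  have hW : W.Δ ≠ 0 := fun h => hΔ (by rw [h, map_zero])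
  have : Finite R := (hred.card hρ).1
  choose P x₀ y₀ x y hP hx hy hx₀ hy₀ using locCount_near hρ hΔ
  have hq : 0 < Nat.card κ ^ (2 * j - 1) := pow_pos Nat.card_pos _
  refine locCount_count (fun p => (QuotientAddGroup.mk (P p) : _ ⧸ V.E1 W)) 0 hq ?_ ?_
  · intro p h
    have h1 := (mem_E1 hW _).1 ((QuotientAddGroup.eq_zero_iff _).1 h) _ _ (hP p)
    exact absurd (V.v_le_one (x₀ p)) (not_le.2 h1)
  · intro c hc
    obtain ⟨T, rfl⟩ := QuotientAddGroup.mk_surjective c
    have hT : T ∉ V.E1 W := fun h => hc ((QuotientAddGroup.eq_zero_iff _).2 h)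
    obtain ⟨a, b, hab, hF⟩ := exists_coords_of_not_mem_E1 hW hT
    obtain ⟨e, hej, he⟩ := locCount_grad hρ hΔ (x := a) (y := b) (by rw [hF, map_zero])
    rw [← card_near hred hρ W hF he (by omega)]
    refine Nat.card_congr ((Equiv.subtypeEquivRight fun p => ?_).trans
      (Equiv.subtypeSubtypeEquivSubtypeInter _ (fun p : R × R =>
        ρ V.unif ^ (e + 1) ∣ p.1 - ρ a ∧ ρ V.unif ^ (e + 1) ∣ p.2 - ρ b)))
    rw [QuotientAddGroup.eq_iff_sub_mem, coset_integral hW hab, ← hx p, ← hy p,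
      locCount_dvd hρ (by omega), locCount_dvd hρ (by omega), ← he]
    have hst := locCount_stable W (hx₀ p) (hy₀ p)
    constructor
    · rintro ⟨x', y', h', h1, h2⟩
      rw [hP p] at h'
      simp only [Option.some.injEq, Prod.mk.injEq] at h'
      rw [← h'.1] at h1
      rw [← h'.2] at h2
      have hst' : locCount_g W (x₀ p) (y₀ p) = locCount_g W a b := locCount_stable W h1 h2
      have k1 := hx₀ p
      have k2 := hy₀ p
      rw [← hst, hst', V.v.map_sub_swap] at k1 k2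
      exact ⟨locCount_tri k1 h1, locCount_tri k2 h2⟩
    · rintro ⟨h1, h2⟩
      have hst' : locCount_g W (x p) (y p) = locCount_g W a b := locCount_stable W h1 h2
      have k1 := hx₀ p
      have k2 := hy₀ p
      rw [hst'] at k1 k2
      exact ⟨x₀ p, y₀ p, hP p, locCount_tri k1 h1, locCount_tri k2 h2⟩

/-- choose `j` with `v Δ > exp (-2 j)` and use `exists_isRed` -/
theorem Nloc_pos [Finite κ] (hred : V.IsRed red 1) {W : WeierstrassCurve V.O} (hW : W.Δ ≠ 0) :
    0 < V.Nloc W := by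
  have h1 : ∃ n : ℕ, ¬V.v (W.Δ : L) ≤ exp (-(n : ℤ)) := by
    by_contra hcon
    push Not at hcon
    exact hW (V.incl_injective ((V.eq_zero_of_forall_le hcon).trans (map_zero _).symm))
  obtain ⟨n, hn⟩ := h1
  have hρ := exists_isRed V (2 * n)
  refine (nAff_eq hred hρ fun h => hn (((hρ.ker _).1 h).trans ?_)).1
  rw [exp_le_exp]; push_cast; omega

variable (V) in
/-- the local weight -/
noncomputable def phiL (red : V.O →+* κ) (f : Model V.O) : ℝ :=
  (nSm (f.map red) : ℝ) / V.Nloc f.jac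

theorem phiR_eq_phiL [Finite κ] (hred : V.IsRed red 1) {j : ℕ} (hρ : V.IsRed ρ (2 * j))
    (θ : R →+* κ) (hθ : θ.comp ρ = red) {f : Model V.O} (hΔ : ρ f.jac.Δ ≠ 0) :
    phiR θ (f.map ρ) = V.phiL red f := by
  obtain ⟨hpos, hN⟩ := nAff_eq hred hρ hΔ
  have hj : j ≠ 0 := by
    rintro rfl
    exact hΔ ((hρ.ker _).2 (by simpa using V.v_le_one _))
  have hR := (hred.card hρ).2
  unfold phiR phiL
  rw [Model.map_map, hθ, Model.jac_map, hN, hR]
  congr 1
  obtain ⟨N, hN'⟩ := Nat.exists_eq_succ_of_ne_zero hpos.ne'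
  have hq : (Nat.card κ : ℝ) ≠ 0 := by exact_mod_cast (Nat.card_pos (α := κ)).ne'
  have hp : (Nat.card κ : ℝ) ^ (2 * j) = (Nat.card κ : ℝ) ^ (2 * j - 1) * Nat.card κ := by
    rw [← pow_succ]; congr 1; omega
  rw [hN']
  push_cast [Nat.succ_sub_one]
  rw [hp]
  field_simp
  ring

end LocalField

end SelAvg
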