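import Mathlib

/-!
Selmer groups (in every characteristic), heights and averages for elliptic curves over a global
function field.
-/

namespace SelAvg

open WeierstrassCurve WithZero
open scoped Classical

universe u

variable {F : Type u} [Field F]

/-- (Only fixes which decidability instance the group law on points refers to.) -/
noncomputable instance decEqSep (L : Type u) [Field L] : DecidableEq (SeparableClosure L) :=
  fun a b => Classical.propDecidable (a = b)

/-- The group `A(L)` of `L`-points of the elliptic curve with Weierstrass equation `W`. -/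
abbrev Pts (W : WeierstrassCurve F) (L : Type u) [Field L] [Algebra F L] : Type u :=
  (W.toAffine.baseChange L).Point

/-- The map `A(L) → A(L')` induced by an `F`-algebra map `L → L'`. -/
noncomputable abbrev ptMap (W : WeierstrassCurve F) {L L' : Type u} [Field L] [Field L']
    [Algebra F L] [Algebra F L'] (φ : L →ₐ[F] L') : Pts W L →+ Pts W L' :=
  Affine.Point.map (W' := W.toAffine) φ

/-- The action of `σ ∈ Gal(L^sep / L)` on `A(L^sep)`, for an extension `L` of `F`. -/
noncomputable abbrev galAct (W : WeierstrassCurve F) (L : Type u) [Field L] [Algebra F L]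
    (σ : SeparableClosure L ≃ₐ[L] SeparableClosure L) :
    Pts W (SeparableClosure L) →+ Pts W (SeparableClosure L) :=
  ptMap W ((σ : SeparableClosure L →ₐ[L] SeparableClosure L).restrictScalars F)

/-- Continuous 1-cocycles of `Gal(F^sep / F)` with values in the complex
`A(F^sep) → A(F^sep)`, `P ↦ n P` (degrees 0 and 1).  Since `A` is smooth and multiplication by `n`
is fppf-surjective with kernel `A[n]`, the first cohomology of this complex is
`H^1_fppf(F, A[n])`. -/
structure Cocycle (W : WeierstrassCurve F) (n : ℕ) where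
  ξ : (SeparableClosure F ≃ₐ[F] SeparableClosure F) → Pts W (SeparableClosure F)
  P : Pts W (SeparableClosure F)
  locConst : IsLocallyConstant ξ
  cocycle : ∀ σ τ, ξ (σ * τ) = ξ σ + galAct W F σ (ξ τ)
  bdry : ∀ σ, n • ξ σ = galAct W F σ P - P

/-- Two cocycles differ by the coboundary `(σ ↦ σ R - R, n R)`. -/
def Cohomologous {W : WeierstrassCurve F} {n : ℕ} (c c' : Cocycle W n) : Prop :=
  ∃ R : Pts W (SeparableClosure F),
    (∀ σ, c'.ξ σ = c.ξ σ + (galAct W F σ R - R)) ∧ c'.P = c.P + n • R

/-- `H^1_fppf(F, A[n])`. -/
def H1 (W : WeierstrassCurve F) (n : ℕ) : Type u := Quot (Cohomologous (W := W) (n := n))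

/-- The restriction of the cocycle `c` to the extension `L` of `F` (along any embedding
`ι : F^sep → L^sep`) is cohomologous to a cocycle `(0, S)` with `S ∈ A(L)`, that is, it lies in the
image of the Kummer map `A(L) / n A(L) → H^1(L, A[n])`. -/
def Cocycle.IsKummer {W : WeierstrassCurve F} {n : ℕ} (c : Cocycle W n) (L : Type u) [Field L]
    [Algebra F L] : Prop :=
  ∀ ι : SeparableClosure F →ₐ[F] SeparableClosure L,
    ∃ (S : Pts W L) (R : Pts W (SeparableClosure L)),
      (∀ (σ : SeparableClosure L ≃ₐ[L] SeparableClosure L)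
        (τ : SeparableClosure F ≃ₐ[F] SeparableClosure F), (∀ x, σ (ι x) = ι (τ x)) →
          ptMap W ι (c.ξ τ) = galAct W L σ R - R) ∧
      ptMap W ι c.P = ptMap W (IsScalarTower.toAlgHom F L (SeparableClosure L)) S + n • R

/-- The places of a global function field: the normalised discrete valuations
(`v x = exp (-ord x)`). -/
def Place (F : Type u) [Field F] : Type u := {v : Valuation F ℤᵐ⁰ // Function.Surjective v}

/-- The completion `F_v`. -/
def Place.Compl (v : Place F) : Type u := v.1.Completion

noncomputable instance (v : Place F) : Field v.Compl := inferInstanceAs (Field v.1.Completion)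

noncomputable instance (v : Place F) : Algebra F v.Compl :=
  ((algebraMap (WithVal v.1) v.1.Completion).comp (WithVal.equiv v.1).symm.toRingHom).toAlgebra

/-- The `n`-Selmer group, as a subset of `H^1(F, A[n])`. -/
def Sel (W : WeierstrassCurve F) (n : ℕ) : Set (H1 W n) :=
  {x | ∃ c : Cocycle W n, Quot.mk _ c = x ∧ ∀ v : Place F, c.IsKummer v.Compl}

/-- The size of the residue field at `v`. -/
noncomputable def Place.q (v : Place F) : ℕ :=
  Nat.card (IsLocalRing.ResidueField v.1.valuationSubring)

/-- `e_v = min_i ⌊ord_v(a_i) / i⌋`, the largest integer `e` with `i e ≤ ord_v(a_i)` for all `i`. -/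
noncomputable def Place.e (v : Place F) (W : WeierstrassCurve F) : ℤ :=
  sSup {e : ℤ | v.1 W.a₁ ≤ exp (-(1 * e)) ∧ v.1 W.a₂ ≤ exp (-(2 * e)) ∧
    v.1 W.a₃ ≤ exp (-(3 * e)) ∧ v.1 W.a₄ ≤ exp (-(4 * e)) ∧ v.1 W.a₆ ≤ exp (-(6 * e))}

/-- `∏_v q_v^(-12 e_v)` for one Weierstrass model. -/
noncomputable def modelHeight (W : WeierstrassCurve F) : ℝ :=
  ∏ᶠ v : Place F, (v.q : ℝ) ^ (-12 * v.e W)

/-- The height of the curve: the least value of `modelHeight` over all models in characteristic
2 or 3, and over the short models `y^2 = x^3 + a x + b` otherwise. -/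
noncomputable def height (W : WeierstrassCurve F) : ℝ :=
  sInf {h : ℝ | ∃ C : VariableChange F,
    (ringChar F = 2 ∨ ringChar F = 3 ∨ ((C • W).a₁ = 0 ∧ (C • W).a₂ = 0 ∧ (C • W).a₃ = 0)) ∧
      h = modelHeight (C • W)}

/-- The `F`-isomorphism classes of elliptic curves over `F`. -/
def IsoClass (F : Type u) [Field F] : Type u :=
  Quot (fun W W' : {W : WeierstrassCurve F // W.IsElliptic} => ∃ C : VariableChange F, C • W.1 = W'.1)

/-- The isomorphism classes of height at most `X`. -/
def classesLE (F : Type u) [Field F] (X : ℝ) : Set (IsoClass F) := {c | height (Quot.out c).1 ≤ X}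

/-- The `n`-Selmer groups are finite, there are finitely many classes of bounded height, and the
average of `#Sel_n` over the classes ordered by height exists and equals `a`. -/
def SelmerAverage (F : Type u) [Field F] (n : ℕ) (a : ℝ) : Prop :=
  (∀ W : WeierstrassCurve F, W.IsElliptic → (Sel W n).Finite) ∧
  (∀ X : ℝ, (classesLE F X).Finite) ∧
  Filter.Tendsto (fun X : ℝ => (∑ᶠ c ∈ classesLE F X, ((Sel (Quot.out c).1 n).ncard : ℝ)) /
    ((classesLE F X).ncard : ℝ)) Filter.atTop (nhds a)

end SelAvg
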