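import Pool.Agent.H38Sel.AlgC
import Pool.Agent.H38Sel.Defs
import Pool.Agent.H38Sel.LocA

/-!
The local mass formula over a finite local ring.
-/

namespace SelAvg

open WeierstrassCurve
open scoped Classical

variable {R κ : Type*} [CommRing R] [Field κ] [Fintype R] [Fintype κ] {θ : R →+* κ}

/-- `θ` is the residue map of the local ring `R` -/
structure IsResidue (θ : R →+* κ) : Prop where
  surj : Function.Surjective θ
  unit : ∀ x, IsUnit x ↔ θ x ≠ 0

lemma IsResidue.card_ker (h : IsResidue θ) :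
    (Finset.univ.filter fun x : R => θ x = 0).card * Fintype.card κ = Fintype.card R := by
  symm
  rw [← Finset.card_univ (α := R), Finset.card_eq_sum_card_fiberwise (f := θ) (s := Finset.univ)
    (t := Finset.univ) (fun _ _ => Finset.mem_univ _), mul_comm, ← Finset.card_univ (α := κ)]
  refine Finset.sum_const_nat ?_
  intro y _
  obtain ⟨a, rfl⟩ := h.surj y
  refine Finset.card_nbij' (fun x => x - a) (fun x => x + a) ?_ ?_ ?_ ?_
  · intro x hx
    simp only [Finset.coe_filter, Finset.mem_univ, true_and, Set.mem_ofPred_eq] at hx ⊢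
    rw [map_sub, hx, sub_self]
  · intro x hx
    simp only [Finset.coe_filter, Finset.mem_univ, true_and, Set.mem_ofPred_eq] at hx ⊢
    rw [map_add, hx, zero_add]
  · exact fun x _ => sub_add_cancel x a
  · exact fun x _ => add_sub_cancel_right x a

omit [Fintype R] [Fintype κ] in
lemma mass0_mover (h : IsResidue θ) (p : Option κ × κ) :
    ∃ g : G R, (G.map θ g).pt Pt.std = npt p := by
  have key : ∀ Q : Pt R, IsUnit Q.x ∨ IsUnit Q.z → ∃ g : G R, (G.map θ g).pt Pt.std = Q.map θ :=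
    fun Q hQ => by
      obtain ⟨g, hg⟩ := exists_mover_ring hQ
      exact ⟨g, by rw [← hg, ← G.map_pt, Pt.map_std]⟩
  obtain ⟨_ | x, y⟩ := p
  · obtain ⟨b, rfl⟩ := h.surj y
    obtain ⟨g, hg⟩ := key ⟨1, 0, b⟩ (Or.inl isUnit_one)
    exact ⟨g, hg.trans (by ext <;> simp [npt])⟩
  · obtain ⟨a, rfl⟩ := h.surj x
    obtain ⟨b, rfl⟩ := h.surj y
    obtain ⟨g, hg⟩ := key ⟨a, 1, b⟩ (Or.inr isUnit_one)
    exact ⟨g, hg.trans (by ext <;> simp [npt])⟩

omit [Fintype κ] in
lemma mass0_point (h : IsResidue θ) (Ψ : WeierstrassCurve R → ℝ)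
    (hΨ : ∀ (C : VariableChange R) W, Ψ (C • W) = Ψ W) (p : Option κ × κ) :
    ∑ f : Model R, (if (f.map θ).On (npt p) ∧ (f.map θ).Smooth (npt p) then Ψ f.jac else 0) =
      ∑ f : Model R with θ f.a = 0 ∧ (θ f.l ≠ 0 ∨ θ f.b ≠ 0), Ψ f.jac := by
  obtain ⟨g, hg⟩ := mass0_mover h p
  rw [Finset.sum_filter, ← Equiv.sum_comp (MulAction.toPerm g)
    fun f : Model R => if θ f.a = 0 ∧ (θ f.l ≠ 0 ∨ θ f.b ≠ 0) then Ψ f.jac else 0]
  refine Finset.sum_congr rfl fun f _ => ?_
  rw [MulAction.toPerm_apply, G.jac_smul, hΨ]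
  refine if_congr ?_ rfl rfl
  rw [← hg, Model.on_pt, Model.smooth_pt, ← G.map_smul, Model.on_std]
  exact and_congr_right fun ha => Model.smooth_std ha

/-- For each normalised point `p` lift it to `R`, take `g` from `exists_mover_ring` and
substitute `f = g⁻¹ • f'` in the sum (`Equiv.sum_comp (MulAction.toPerm g)`). -/
theorem mass_step1 (h : IsResidue θ) (Ψ : WeierstrassCurve R → ℝ)
    (hΨ : ∀ (C : VariableChange R) W, Ψ (C • W) = Ψ W) :
    ∑ f : Model R, (nSm (f.map θ) : ℝ) * Ψ f.jac =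
      (Fintype.card κ + 1) * Fintype.card κ *
        ∑ f : Model R with θ f.a = 0 ∧ (θ f.l ≠ 0 ∨ θ f.b ≠ 0), Ψ f.jac := by
  have h1 : ∀ f : Model R, (nSm (f.map θ) : ℝ) * Ψ f.jac = ∑ p : Option κ × κ,
      if (f.map θ).On (npt p) ∧ (f.map θ).Smooth (npt p) then Ψ f.jac else 0 := fun f => by
    rw [nSm, Nat.card_eq_fintype_card, Fintype.card_subtype, ← Finset.sum_filter,
      Finset.sum_const, nsmul_eq_mul]
  simp only [h1]
  rw [Finset.sum_comm]
  simp only [mass0_point h Ψ hΨ]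
  rw [Finset.sum_const, Finset.card_univ, Fintype.card_prod, Fintype.card_option, nsmul_eq_mul]
  push_cast
  rfl

end SelAvg

/-!
The mass formula, steps 2 and 3.
-/

namespace SelAvg

open WeierstrassCurve
open scoped Classical

variable {R κ : Type*} [CommRing R] [Field κ] [Fintype R] [Fintype κ] {θ : R →+* κ}

/-- the parametrisation of the models with `l` a unit and `a` in the maximal ideal -/
def mass1_par (p : (R × R) × (R × R) × WeierstrassCurve R) : Model R :=
  ((⟨1, p.2.2.a₁, -p.2.2.a₂, 0, 0, 0, p.2.2.a₃, -p.2.2.a₄⟩ : Model R).scale p.1.2).shift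
    p.1.1 p.2.1.1 p.2.1.2

omit [Fintype R] [Fintype κ] in
lemma mass1_quad_inj (h : IsResidue θ) {L r s : R} (hL : θ L ≠ 0) (hr : θ r = 0) (hs : θ s = 0)
    (e : r ^ 2 - L * r = s ^ 2 - L * s) : r = s := by
  have hu : IsUnit (r + s - L) := (h.unit _).2 (by simpa [hr, hs] using hL)
  have h0 : (r + s - L) * (r - s) = 0 := by linear_combination e
  exact sub_eq_zero.1 (hu.mul_right_eq_zero.1 h0)

omit [Fintype κ] in
lemma mass1_quad_surj (h : IsResidue θ) {L a : R} (hL : θ L ≠ 0) (ha : θ a = 0) :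
    ∃ r, θ r = 0 ∧ r ^ 2 - L * r = a := by
  let F : {x : R // θ x = 0} → {x : R // θ x = 0} :=
    fun x => ⟨x.1 ^ 2 - L * x.1, by simp [x.2]⟩
  have hF : Function.Injective F := fun x y hxy =>
    Subtype.ext (mass1_quad_inj h hL x.2 y.2 (congrArg Subtype.val hxy))
  obtain ⟨x, hx⟩ := Finite.surjective_of_injective hF ⟨a, ha⟩
  exact ⟨x.1, x.2, congrArg Subtype.val hx⟩

omit [Fintype R] [Fintype κ] in
lemma mass1_par_jac (h : IsResidue θ) (Ψ : WeierstrassCurve R → ℝ)
    (hΨ : ∀ (C : VariableChange R) W, Ψ (C • W) = Ψ W)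
    (p : (R × R) × (R × R) × WeierstrassCurve R) (hl : θ p.1.2 ≠ 0) (h6 : p.2.2.a₆ = 0) :
    Ψ (mass1_par p).jac = Ψ p.2.2 := by
  obtain ⟨u, hu⟩ := (h.unit _).2 hl
  unfold mass1_par
  rw [Model.jac_shift, hΨ, Model.jac_scale, ← hu, wsc_unit, hΨ]
  congr 1
  ext <;> simp [Model.jac, h6]

omit [Fintype R] [Fintype κ] in
lemma mass1_par_inj (h : IsResidue θ) {p p' : (R × R) × (R × R) × WeierstrassCurve R}
    (h0 : θ p.1.1 = 0) (hl : θ p.1.2 ≠ 0) (h6 : p.2.2.a₆ = 0) (h0' : θ p'.1.1 = 0)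
    (h6' : p'.2.2.a₆ = 0) (e : mass1_par p = mass1_par p') : p = p' := by
  obtain ⟨⟨r0, l⟩, ⟨r1, r2⟩, ⟨a1, a2, a3, a4, a6⟩⟩ := p
  obtain ⟨⟨r0', l'⟩, ⟨r1', r2'⟩, ⟨a1', a2', a3', a4', a6'⟩⟩ := p'
  simp only at h0 hl h6 h0' h6'
  simp only [mass1_par, Model.shift, Model.scale, Model.mk.injEq] at e
  obtain ⟨el, em, en, ea, eb, ec, ed, ee⟩ := e
  have hu : IsUnit l := (h.unit _).2 hl
  have hL : θ (l + 2 * r0) ≠ 0 := by simpa [h0] using hl
  have e0 : r0 = r0' := mass1_quad_inj h hL h0 h0' (by linear_combination ea + r0' * el)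
  subst e0
  have e1 : l = l' := by linear_combination el
  subst e1
  have e2 : r1 = r1' := hu.mul_left_cancel (by linear_combination -eb - r0 * em)
  subst e2
  have e3 : a1 = a1' := hu.mul_left_cancel (by linear_combination em)
  subst e3
  have e4 : r2 = r2' := hu.mul_left_cancel (by linear_combination -ec - r0 * en)
  subst e4
  have e5 : a2 = a2' := hu.mul_left_cancel (by linear_combination -en)
  subst e5
  have e6 : a3 = a3' := (hu.pow 2).mul_left_cancel (by linear_combination ed)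
  have e7 : a4 = a4' := (hu.pow 2).mul_left_cancel (by linear_combination -ee)
  rw [e6, e7, h6, h6']

omit [Fintype κ] in
lemma mass1_par_surj (h : IsResidue θ) {f : Model R} (ha : θ f.a = 0) (hl : θ f.l ≠ 0) :
    ∃ p : (R × R) × (R × R) × WeierstrassCurve R,
      θ p.1.1 = 0 ∧ θ p.1.2 ≠ 0 ∧ p.2.2.a₆ = 0 ∧ mass1_par p = f := by
  obtain ⟨r0, hr0, e0⟩ := mass1_quad_surj h hl ha
  have hL : θ (f.l - 2 * r0) ≠ 0 := by simpa [hr0] using hl
  obtain ⟨v, hv⟩ := ((h.unit _).2 hL).exists_right_inv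
  obtain ⟨r1, hr1⟩ : ∃ r1, (f.l - 2 * r0) * r1 = -f.b - f.m * r0 :=
    ⟨v * (-f.b - f.m * r0), by linear_combination (-f.b - f.m * r0) * hv⟩
  obtain ⟨r2, hr2⟩ : ∃ r2, (f.l - 2 * r0) * r2 = -f.c - f.n * r0 - f.m * r1 + r1 ^ 2 :=
    ⟨v * (-f.c - f.n * r0 - f.m * r1 + r1 ^ 2),
      by linear_combination (-f.c - f.n * r0 - f.m * r1 + r1 ^ 2) * hv⟩
  have hv2 : (f.l - 2 * r0) ^ 2 * v ^ 2 = 1 := by rw [← mul_pow, hv, one_pow]
  refine ⟨((r0, f.l - 2 * r0), (r1, r2), ⟨v * (f.m - 2 * r1), -(v * (f.n - 2 * r2)),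
    v ^ 2 * (f.d + f.m * r2 + f.n * r1 - 2 * r1 * r2), -(v ^ 2 * (f.e + f.n * r2 - r2 ^ 2)), 0⟩),
    hr0, hL, rfl, ?_⟩
  ext <;> simp only [mass1_par, Model.shift, Model.scale]
  · ring
  · linear_combination (f.m - 2 * r1) * hv
  · linear_combination (f.n - 2 * r2) * hv
  · linear_combination e0
  · linear_combination -hr1 - r0 * (f.m - 2 * r1) * hv
  · linear_combination -hr2 - (r1 * (f.m - 2 * r1) + r0 * (f.n - 2 * r2)) * hv
  · linear_combination (f.d + f.m * r2 + f.n * r1 - 2 * r1 * r2) * hv2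
      - (r2 * (f.m - 2 * r1) + r1 * (f.n - 2 * r2)) * hv
  · linear_combination (f.e + f.n * r2 - r2 ^ 2) * hv2 - r2 * (f.n - 2 * r2) * hv

/-- The case `l` a unit.  Every such `f` is uniquely `(⟨l, m, n, 0, 0, 0, d, e⟩).shift r0 r1 r2`
with `θ r0 = 0` (the map `r ↦ r^2 + l r` is injective on the maximal ideal, hence bijective);
then scale `l` to `1`: `jac ⟨1, m, n, 0, 0, 0, d, e⟩ = (m, -n, d, -e, 0)`. -/
theorem mass_step2 (h : IsResidue θ) (Ψ : WeierstrassCurve R → ℝ)
    (hΨ : ∀ (C : VariableChange R) W, Ψ (C • W) = Ψ W) :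
    ∑ f : Model R with θ f.a = 0 ∧ θ f.l ≠ 0, Ψ f.jac =
      (Fintype.card R / Fintype.card κ) * (Fintype.card R - Fintype.card R / Fintype.card κ) *
        (Fintype.card R : ℝ) ^ 2 * ∑ W : WeierstrassCurve R with W.a₆ = 0, Ψ W := by
  have hk : (Fintype.card κ : ℝ) ≠ 0 := by exact_mod_cast Fintype.card_ne_zero
  have hker : ((Finset.univ.filter fun x : R => θ x = 0).card : ℝ) =
      Fintype.card R / Fintype.card κ := by
    rw [eq_div_iff hk]; exact_mod_cast h.card_ker
  have hun : ((Finset.univ.filter fun x : R => θ x ≠ 0).card : ℝ) =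
      Fintype.card R - Fintype.card R / Fintype.card κ := by
    rw [← hker, eq_sub_iff_add_eq, add_comm]
    exact_mod_cast Finset.card_filter_add_card_filter_not (s := Finset.univ)
      (fun x : R => θ x = 0)
  have key : ∑ p ∈ ((Finset.univ.filter fun x : R => θ x = 0) ×ˢ
        (Finset.univ.filter fun x : R => θ x ≠ 0)) ×ˢ ((Finset.univ : Finset (R × R)) ×ˢ
        (Finset.univ.filter fun W : WeierstrassCurve R => W.a₆ = 0)), Ψ p.2.2 =
      ∑ f : Model R with θ f.a = 0 ∧ θ f.l ≠ 0, Ψ f.jac := by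
    refine Finset.sum_bij (fun p _ => mass1_par p) ?_ ?_ ?_ ?_
    · intro p hp
      simp only [Finset.mem_product, Finset.mem_filter, Finset.mem_univ, true_and] at hp ⊢
      obtain ⟨⟨h0, hl⟩, -⟩ := hp
      simp [mass1_par, Model.shift, Model.scale, h0, hl]
    · intro p hp p' hp' e
      simp only [Finset.mem_product, Finset.mem_filter, Finset.mem_univ, true_and] at hp hp'
      exact mass1_par_inj h hp.1.1 hp.1.2 hp.2 hp'.1.1 hp'.2 e
    · intro f hf
      simp only [Finset.mem_filter, Finset.mem_univ, true_and] at hf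
      obtain ⟨p, h0, hl, h6, e⟩ := mass1_par_surj h hf.1 hf.2
      exact ⟨p, by simp [h0, hl, h6], e⟩
    · intro p hp
      simp only [Finset.mem_product, Finset.mem_filter, Finset.mem_univ, true_and] at hp
      exact (mass1_par_jac h Ψ hΨ p hp.1.2 hp.2).symm
  rw [← key, Finset.sum_product]
  simp only [Finset.sum_product (Finset.univ : Finset (R × R)), Finset.sum_const,
    Finset.card_product, nsmul_eq_mul, Nat.cast_mul, hker, hun, Finset.card_univ,
    Fintype.card_prod]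
  ring

/-- pairs (curve, affine point): translate the point to the origin -/
theorem mass_step3 (Ψ : WeierstrassCurve R → ℝ)
    (hΨ : ∀ (C : VariableChange R) W, Ψ (C • W) = Ψ W) :
    ∑ W : WeierstrassCurve R, (nAff W : ℝ) * Ψ W =
      (Fintype.card R : ℝ) ^ 2 * ∑ W : WeierstrassCurve R with W.a₆ = 0, Ψ W := by
  have h1 : ∀ W : WeierstrassCurve R, (nAff W : ℝ) * Ψ W =
      ∑ p : R × R, if W.toAffine.Equation p.1 p.2 then Ψ W else 0 := by
    intro W
    rw [← Finset.sum_filter, Finset.sum_const, nsmul_eq_mul, nAff, Nat.card_eq_fintype_card,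
      Fintype.card_subtype]
  have h2 : ∀ p : R × R, (∑ W : WeierstrassCurve R,
      if W.toAffine.Equation p.1 p.2 then Ψ W else 0) =
      ∑ W : WeierstrassCurve R with W.a₆ = 0, Ψ W := by
    intro p
    rw [Finset.sum_filter]
    refine Fintype.sum_equiv (MulAction.toPerm (⟨1, p.1, 0, p.2⟩ : VariableChange R)) _ _ ?_
    intro W
    have e := Affine.equation_iff_variableChange (W := W.toAffine) p.1 p.2
    rw [Affine.equation_zero] at e
    simp only [MulAction.toPerm_apply, hΨ]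
    exact if_congr e rfl rfl
  simp only [h1]
  rw [Finset.sum_comm]
  simp only [h2, Finset.sum_const, nsmul_eq_mul, Finset.card_univ, Fintype.card_prod,
    Nat.cast_mul]
  ring

end SelAvg

/-!
The mass formula, step 4 and conclusion.
-/

namespace SelAvg

open WeierstrassCurve
open scoped Classical

variable {R κ : Type*} [CommRing R] [Field κ] [Fintype R] [Fintype κ] {θ : R →+* κ}

/-- For fixed `l, a` in the maximal ideal and `b` a unit, `(m, n, c, d, e) ↦ jac f` is injective: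
the ideal `I` generated by the differences satisfies `I ≤ 𝔪 I`
(`Submodule.eq_bot_of_le_smul_of_le_jacobson_bot`, or iterate using that `𝔪` is nilpotent). -/
theorem jac_injective_of_b_unit (h : IsResidue θ) {f f' : Model R} (hl : θ f.l = 0)
    (ha : θ f.a = 0) (hb : θ f.b ≠ 0) (el : f.l = f'.l) (ea : f.a = f'.a) (eb : f.b = f'.b)
    (e : f.jac = f'.jac) : f = f' := by
  obtain ⟨l, m, n, a, b, c, d, e0⟩ := f
  obtain ⟨l', m', n', a', b', c', d', e0'⟩ := f'
  simp only at hl ha hb el ea eb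
  subst el ea eb
  have e1 := congrArg WeierstrassCurve.a₁ e
  have e2 := congrArg WeierstrassCurve.a₂ e
  have e3 := congrArg WeierstrassCurve.a₃ e
  have e4 := congrArg WeierstrassCurve.a₄ e
  have e6 := congrArg WeierstrassCurve.a₆ e
  simp only [Model.jac] at e1 e2 e3 e4 e6
  subst e1
  have hu : IsUnit b := (h.unit b).2 hb
  set I : Ideal R := Ideal.span {n - n', c - c', d - d', e0 - e0'} with hI
  set M : Ideal R := RingHom.ker θ with hM
  have hn : n - n' ∈ I := Ideal.subset_span (by simp)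
  have hc : c - c' ∈ I := Ideal.subset_span (by simp)
  have hd : d - d' ∈ I := Ideal.subset_span (by simp)
  have he : e0 - e0' ∈ I := Ideal.subset_span (by simp)
  have hlM : l ∈ M := hl
  have haM : a ∈ M := ha
  have key : ∀ x1 x2 x3 x4 : R,
      x1 * (n - n') + x2 * (c - c') + x3 * (d - d') + x4 * (e0 - e0') ∈ I := fun x1 x2 x3 x4 =>
    I.add_mem (I.add_mem (I.add_mem (I.mul_mem_left _ hn) (I.mul_mem_left _ hc))
      (I.mul_mem_left _ hd)) (I.mul_mem_left _ he)
  have key2 : ∀ x y z : R, y ∈ I → z ∈ I → x = l * y + a * z → x ∈ M • I := by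
    intro x y z hy hz hx
    rw [hx, Ideal.smul_eq_mul]
    exact Ideal.add_mem _ (Ideal.mul_mem_mul hlM hy) (Ideal.mul_mem_mul haM hz)
  have hle : I ≤ M • I := by
    rw [hI, Ideal.span_le]
    intro x hx
    simp only [Set.mem_insert_iff, Set.mem_singleton_iff] at hx
    rw [← hI]
    rcases hx with rfl | rfl | rfl | rfl
    · refine (Ideal.unit_mul_mem_iff_mem _ hu).1 ?_
      refine key2 _ _ _ (key 0 0 (-1) 0) (key 0 0 0 0) ?_
      linear_combination e3
    · refine key2 _ _ _ (key 1 0 0 0) (key 0 0 0 0) ?_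
      linear_combination e2
    · refine (Ideal.unit_mul_mem_iff_mem _ hu).1 ?_
      refine key2 _ _ _ (key c' n 0 l) (key (n + n') 0 0 4) ?_
      linear_combination e4
    · refine (Ideal.unit_mul_mem_iff_mem _ (hu.pow 2)).1 ?_
      refine key2 _ _ _ (key (b * d') (l * e0') (b * n) (l * c - m * b))
        (key (c' * (n + n') - m * d') (n ^ 2 + 4 * e0') (-(m * n) - (d + d')) (m ^ 2 + 4 * c)) ?_
      linear_combination e6
  have hjac : M ≤ Ideal.jacobson ⊥ := by
    intro x hx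
    rw [Ideal.mem_jacobson_bot]
    intro y
    rw [h.unit, map_add, map_mul, (RingHom.mem_ker.1 hx), zero_mul, zero_add, map_one]
    exact one_ne_zero
  have hfg : I.FG := Submodule.fg_span (Set.toFinite _)
  have hbot : I = ⊥ := Submodule.eq_bot_of_le_smul_of_le_jacobson_bot M I hfg hle hjac
  rw [hbot, Ideal.mem_bot, sub_eq_zero] at hn hc hd he
  subst hn hc hd he
  rfl

/-- splitting the coordinates of a model into `(a, l, b)` and the rest -/
def mass_split : (R × R × R) × (Fin 5 → R) ≃ Model R where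
  toFun p := ⟨p.1.2.1, p.2 0, p.2 1, p.1.1, p.1.2.2, p.2 2, p.2 3, p.2 4⟩
  invFun f := ((f.a, f.l, f.b), ![f.m, f.n, f.c, f.d, f.e])
  left_inv p := by
    obtain ⟨⟨a, l, b⟩, v⟩ := p
    refine Prod.ext rfl ?_
    funext i; fin_cases i <;> rfl
  right_inv f := rfl

lemma mass_fibre (h : IsResidue θ) (Ψ : WeierstrassCurve R → ℝ) {p : R × R × R}
    (hp : θ p.1 = 0 ∧ θ p.2.1 = 0 ∧ θ p.2.2 ≠ 0) :
    ∑ v : Fin 5 → R, Ψ (mass_split (p, v)).jac = ∑ W : WeierstrassCurve R, Ψ W := by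
  have hbij : Function.Bijective (fun v : Fin 5 → R => (mass_split (p, v)).jac) := by
    rw [Fintype.bijective_iff_injective_and_card]
    refine ⟨fun v v' hv => ?_, by rw [card_W]; simp⟩
    have := jac_injective_of_b_unit h (f := mass_split (p, v)) (f' := mass_split (p, v'))
      hp.2.1 hp.1 hp.2.2 rfl rfl rfl hv
    exact (Prod.ext_iff.1 (mass_split.injective this)).2
  exact hbij.sum_comp Ψ

lemma mass_card_ker (h : IsResidue θ) :
    ((Finset.univ.filter fun x : R => θ x = 0).card : ℝ) =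
      (Fintype.card R : ℝ) / Fintype.card κ := by
  have hq : (Fintype.card κ : ℝ) ≠ 0 := by exact_mod_cast Fintype.card_ne_zero
  rw [eq_div_iff hq]
  exact_mod_cast h.card_ker

lemma mass_card_unit (h : IsResidue θ) :
    ((Finset.univ.filter fun x : R => θ x ≠ 0).card : ℝ) =
      Fintype.card R - (Fintype.card R : ℝ) / Fintype.card κ := by
  rw [← mass_card_ker h, eq_sub_iff_add_eq, add_comm]
  have := Finset.card_filter_add_card_filter_not (s := (Finset.univ : Finset R))
    (fun x : R => θ x = 0)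
  rw [Finset.card_univ] at this
  exact_mod_cast this

lemma mass_card_triple (h : IsResidue θ) :
    ((Finset.univ.filter fun p : R × R × R => θ p.1 = 0 ∧ θ p.2.1 = 0 ∧ θ p.2.2 ≠ 0).card : ℝ) =
      ((Fintype.card R : ℝ) / Fintype.card κ) ^ 2 *
        (Fintype.card R - Fintype.card R / Fintype.card κ) := by
  have : (Finset.univ.filter fun p : R × R × R => θ p.1 = 0 ∧ θ p.2.1 = 0 ∧ θ p.2.2 ≠ 0) =
      (Finset.univ.filter fun x : R => θ x = 0) ×ˢ ((Finset.univ.filter fun x : R => θ x = 0) ×ˢ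
        (Finset.univ.filter fun x : R => θ x ≠ 0)) := by
    ext p; simp
  rw [this, Finset.card_product, Finset.card_product, Nat.cast_mul, Nat.cast_mul, mass_card_ker h,
    mass_card_unit h]
  ring

theorem mass_step4 (h : IsResidue θ) (Ψ : WeierstrassCurve R → ℝ) :
    ∑ f : Model R with θ f.a = 0 ∧ θ f.l = 0 ∧ θ f.b ≠ 0, Ψ f.jac =
      ((Fintype.card R : ℝ) / Fintype.card κ) ^ 2 *
        (Fintype.card R - Fintype.card R / Fintype.card κ) * ∑ W : WeierstrassCurve R, Ψ W := by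
  rw [← mass_card_triple h, Finset.sum_filter, ← mass_split.sum_comp, Fintype.sum_prod_type,
    ← nsmul_eq_mul, ← Finset.sum_const, Finset.sum_filter]
  refine Finset.sum_congr rfl fun p _ => ?_
  by_cases hp : θ p.1 = 0 ∧ θ p.2.1 = 0 ∧ θ p.2.2 ≠ 0
  · rw [if_pos hp, ← mass_fibre h Ψ hp]
    exact Finset.sum_congr rfl fun v _ => if_pos hp
  · rw [if_neg hp]
    exact Finset.sum_eq_zero fun v _ => if_neg hp

lemma mass_split_sum (F : Model R → ℝ) :
    ∑ f : Model R with θ f.a = 0 ∧ (θ f.l ≠ 0 ∨ θ f.b ≠ 0), F f =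
      ∑ f : Model R with θ f.a = 0 ∧ θ f.l ≠ 0, F f +
        ∑ f : Model R with θ f.a = 0 ∧ θ f.l = 0 ∧ θ f.b ≠ 0, F f := by
  simp only [Finset.sum_filter, ← Finset.sum_add_distrib]
  refine Finset.sum_congr rfl fun f _ => ?_
  by_cases h1 : θ f.a = 0 <;> by_cases h2 : θ f.l = 0 <;> by_cases h3 : θ f.b = 0 <;>
    simp [h1, h2, h3]

/-- apply the steps to `Ψ W = ψ W / (1 + nAff W * q / card R)` -/
theorem mass (h : IsResidue θ) (ψ : WeierstrassCurve R → ℝ)
    (hψ : ∀ (C : VariableChange R) W, ψ (C • W) = ψ W) :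
    avg Finset.univ (fun f : Model R => phiR θ f * ψ f.jac) =
      (1 - 1 / (Fintype.card κ : ℝ) ^ 2) * avg Finset.univ ψ := by
  have hq : (0 : ℝ) < Fintype.card κ := by exact_mod_cast Fintype.card_pos
  have hN : (0 : ℝ) < Fintype.card R := by exact_mod_cast Fintype.card_pos
  set Ψ : WeierstrassCurve R → ℝ :=
    fun W => ψ W / (1 + (nAff W : ℝ) * Fintype.card κ / Fintype.card R) with hΨdef
  have hΨ : ∀ (C : VariableChange R) W, Ψ (C • W) = Ψ W := by
    intro C W
    simp only [hΨdef, hψ, nAff_smul]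
  have h1 := mass_step1 h Ψ hΨ
  have h2 := mass_step2 h Ψ hΨ
  have h3 := mass_step3 Ψ hΨ
  have h4 := mass_step4 h Ψ
  have h5 : ∑ W : WeierstrassCurve R, ψ W = ∑ W : WeierstrassCurve R, Ψ W +
      (Fintype.card κ : ℝ) / Fintype.card R * ∑ W : WeierstrassCurve R, (nAff W : ℝ) * Ψ W := by
    rw [Finset.mul_sum, ← Finset.sum_add_distrib]
    refine Finset.sum_congr rfl fun W _ => ?_
    have hpos : (0 : ℝ) < 1 + (nAff W : ℝ) * Fintype.card κ / Fintype.card R := by positivity
    have : ψ W = (1 + (nAff W : ℝ) * Fintype.card κ / Fintype.card R) * Ψ W := by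
      simp only [hΨdef]
      rw [mul_div_cancel₀ _ hpos.ne']
    rw [this]
    ring
  have h6 : ∑ f : Model R, phiR θ f * ψ f.jac =
      ∑ f : Model R, (nSm (f.map θ) : ℝ) * Ψ f.jac := by
    refine Finset.sum_congr rfl fun f _ => ?_
    simp only [phiR, hΨdef, Nat.card_eq_fintype_card]
    ring
  unfold avg
  rw [h6, h1, mass_split_sum, h2, h4, h5, h3, Finset.card_univ, Finset.card_univ, card_model,
    card_W]
  push_cast
  field_simp
  ring

end SelAvg

/-!
The completion at a place is a complete discretely valued field.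
-/

namespace SelAvg

open WithZero

universe u

variable {F : Type u} [Field F]

/-- the valuation on the completion -/
noncomputable def Place.vc (v : Place F) : Valuation v.Compl ℤᵐ⁰ :=
  (Valued.v : Valuation v.1.Completion ℤᵐ⁰)

/-- a ball around a point of a valued field is a neighbourhood -/
lemma placeGen_ball {K : Type u} [Field K] [Valued K ℤᵐ⁰] (y z : K) (hz : Valued.v z ≠ (0 : ℤᵐ⁰)) :
    {w : K | Valued.v (w - y) < (Valued.v z : ℤᵐ⁰)} ∈ nhds y := by
  rw [Valued.mem_nhds]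
  have h' : (Valued.v : Valuation K ℤᵐ⁰).restrict z ≠ 0 := by
    rw [Ne, Valuation.restrict_eq_zero_iff]
    exact hz
  exact ⟨Units.mk0 _ h', fun w hw => (Valuation.restrict_lt_iff _).mp hw⟩

lemma placeGen_small (g : ℤᵐ⁰) (hg : g ≠ 0) : ∃ N : ℕ, exp (-(N : ℤ)) < g := by
  refine ⟨(log g).natAbs + 1, ?_⟩
  conv_rhs => rw [← exp_log hg]
  rw [exp_lt_exp]
  push_cast
  have := neg_abs_le (log g)
  omega

lemma placeGen_tele {K : Type u} [Field K] (v : Valuation K ℤᵐ⁰) (a : ℕ → K)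
    (h : ∀ n, v (a (n + 1) - a n) ≤ exp (-(n : ℤ))) (n m : ℕ) (hm : n ≤ m) :
    v (a m - a n) ≤ exp (-(n : ℤ)) := by
  induction m, hm using Nat.le_induction with
  | base => simp
  | succ m hm ih =>
    have e : a (m + 1) - a n = (a (m + 1) - a m) + (a m - a n) := by ring
    rw [e]
    refine (v.map_add _ _).trans (max_le ((h m).trans ?_) ih)
    rw [exp_le_exp]
    omega

lemma placeGen_complete {K : Type u} [Field K] [Valued K ℤᵐ⁰] [CompleteSpace K]
    (hs : Function.Surjective (Valued.v : Valuation K ℤᵐ⁰)) (a : ℕ → K)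
    (h : ∀ n, (Valued.v (a (n + 1) - a n) : ℤᵐ⁰) ≤ exp (-(n : ℤ))) :
    ∃ x, ∀ n, (Valued.v (x - a n) : ℤᵐ⁰) ≤ exp (-(n : ℤ)) := by
  have t := placeGen_tele (Valued.v : Valuation K ℤᵐ⁰) a h
  have hc : CauchySeq a := by
    rw [CauchySeq, Valued.cauchy_iff]
    refine ⟨Filter.map_neBot, fun γ => ?_⟩
    obtain ⟨N, hN⟩ := placeGen_small (MonoidWithZeroHom.ValueGroup₀.embedding γ.1)
      (by rw [Ne, map_eq_zero]; exact γ.ne_zero)
    refine ⟨a '' Set.Ici N, Filter.image_mem_map (Filter.Ici_mem_atTop N), ?_⟩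
    rintro _ ⟨m, hm, rfl⟩ _ ⟨n, hn, rfl⟩
    rw [Valuation.restrict_lt_iff_lt_embedding]
    have e : a n - a m = (a n - a N) - (a m - a N) := by ring
    rw [e]
    exact ((Valuation.map_sub _ _ _).trans (max_le (t N n hn) (t N m hm))).trans_lt hN
  obtain ⟨x, hx⟩ := cauchySeq_tendsto_of_complete hc
  refine ⟨x, fun n => ?_⟩
  obtain ⟨z, hz⟩ := hs (exp (-(n : ℤ)))
  have hb := placeGen_ball x z (by rw [hz]; exact exp_ne_zero)
  obtain ⟨m, h1, h2⟩ := ((hx.eventually hb).and (Filter.eventually_ge_atTop n)).exists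
  have e : x - a n = (a m - a n) - (a m - x) := by ring
  rw [e]
  refine (Valuation.map_sub _ _ _).trans (max_le (t n m h2) ?_)
  rw [← hz]
  exact le_of_lt h1

/-- `Valued.valuedCompletion_apply` -/
lemma Place.vc_algebraMap (v : Place F) (x : F) : v.vc (algebraMap F v.Compl x) = v.1 x := by
  exact Valued.valuedCompletion_apply (WithVal.toVal v.1 x)

/-- `UniformSpace.Completion.denseRange_coe` and `Valued.mem_nhds` -/
lemma Place.dense (v : Place F) (y : v.Compl) (N : ℕ) :
    ∃ x : F, v.vc (y - algebraMap F v.Compl x) ≤ exp (-(N : ℤ)) := by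
  obtain ⟨z, hz⟩ := v.2 (exp (-(N : ℤ)))
  have hz' : v.vc (algebraMap F v.Compl z) = exp (-(N : ℤ)) := by rw [v.vc_algebraMap, hz]
  have hb := placeGen_ball (K := v.1.Completion) y (algebraMap F v.Compl z)
    (fun h => exp_ne_zero (hz'.symm.trans h))
  obtain ⟨x, hx⟩ := (UniformSpace.Completion.denseRange_coe (α := WithVal v.1)).mem_nhds hb
  refine ⟨x.ofVal, ?_⟩
  rw [Valuation.map_sub_swap, ← hz']
  exact le_of_lt hx

/-- The sequence is Cauchy (`Valued.cauchy_iff` or `Valued.hasBasis_uniformity`), and closed balls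
are closed. -/
lemma Place.complete (v : Place F) (a : ℕ → v.Compl)
    (h : ∀ n, v.vc (a (n + 1) - a n) ≤ exp (-(n : ℤ))) :
    ∃ x, ∀ n, v.vc (x - a n) ≤ exp (-(n : ℤ)) := by
  refine placeGen_complete (K := v.1.Completion) (fun g => ?_) a h
  obtain ⟨z, hz⟩ := v.2 g
  exact ⟨algebraMap F v.Compl z, (v.vc_algebraMap z).trans hz⟩

/-- the completion as a `LocalField` -/
noncomputable def Place.loc (v : Place F) : LocalField v.Compl where
  v := v.vc
  ϖ := algebraMap F v.Compl (v.2 (exp (-1))).choose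
  v_ϖ := by rw [v.vc_algebraMap]; exact (v.2 (exp (-1))).choose_spec
  complete := v.complete

lemma Place.loc_v (v : Place F) (x : F) : v.loc.v (algebraMap F v.Compl x) = v.1 x :=
  v.vc_algebraMap x

/-- two equivalent surjective valuations with values in `ℤᵐ⁰` are equal -/
lemma Place.eq_of_isEquiv {v w : Place F} (h : v.1.IsEquiv w.1) : v = w := by
  obtain ⟨π, hπ⟩ := v.2 (exp (-1))
  have hπ0 : π ≠ 0 := by
    rintro rfl
    rw [map_zero] at hπ
    exact exp_ne_zero hπ.symm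
  have hw0 : w.1 π ≠ 0 := by
    rw [Ne, map_eq_zero]
    exact hπ0
  have key : ∀ x : F, x ≠ 0 → w.1 x = exp (-(log (v.1 x) * log (w.1 π))) := by
    intro x hx
    have hv : v.1 x ≠ 0 := by
      rw [Ne, map_eq_zero]
      exact hx
    have e1 : v.1 x = v.1 (π ^ (-log (v.1 x))) := by
      rw [map_zpow₀, hπ, ← exp_zsmul, smul_neg, neg_smul, neg_neg, smul_eq_mul, mul_one,
        exp_log hv]
    have e2 : w.1 x = w.1 (π ^ (-log (v.1 x))) := h.eq_iff.mp e1
    rw [e2, map_zpow₀, ← exp_log hw0, ← exp_zsmul, log_exp, smul_eq_mul, neg_mul]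
  have hlt : log (w.1 π) < 0 := by
    have h1 : v.1 π < 1 := by
      rw [hπ, ← exp_zero, exp_lt_exp]
      norm_num
    have h2 : w.1 π < 1 := h.lt_one_iff_lt_one.mp h1
    rwa [← exp_log hw0, ← exp_zero, exp_lt_exp] at h2
  have hone : log (w.1 π) = -1 := by
    obtain ⟨y, hy⟩ := w.2 (exp (-1))
    have hy0 : y ≠ 0 := by
      rintro rfl
      rw [map_zero] at hy
      exact exp_ne_zero hy.symm
    have h1 := key y hy0
    rw [hy, exp_inj, neg_inj] at h1
    rcases Int.eq_one_or_neg_one_of_mul_eq_one' h1.symm with h2 | h2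
    · omega
    · exact h2.2
  refine Subtype.ext (Valuation.ext fun x => ?_)
  by_cases hx : x = 0
  · rw [hx, map_zero, map_zero]
  · have hv : v.1 x ≠ 0 := by
      rw [Ne, map_eq_zero]
      exact hx
    rw [key x hx, hone, mul_neg, mul_one, neg_neg, exp_log hv]

end SelAvg
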