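import Pool.Agent.H38Sel.LocA
import Pool.Agent.H38Sel.AlgB
import Pool.Agent.H38Sel.AlgC

/-!
The integral models in a class and the identity: sum of the numbers of smooth points equals the
index of the kernel of reduction.
-/

namespace SelAvg

open WeierstrassCurve WithZero
open scoped Classical

namespace LocalField

variable {L : Type*} [Field L] (V : LocalField L)

/-- the two matrices define the same vertex of the tree -/
def MEq (M M' : GL (Fin 2) L) : Prop :=
  ∃ (t : Lˣ) (H : GL (Fin 2) V.O), M' = G.scM t * Matrix.GeneralLinearGroup.map V.incl H * M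

/-- an integral object together with an isomorphism to `z₀` -/
structure LocRep (z₀ : Obj L) where
  g : G L
  z : Obj V.O
  eq : g • z₀ = z.map V.incl

variable {V}

lemma MEq.refl (M : GL (Fin 2) L) : V.MEq M M := by
  exact ⟨1, 1, by simp⟩

lemma MEq.symm {M M' : GL (Fin 2) L} (h : V.MEq M M') : V.MEq M' M := by
  obtain ⟨t, H, rfl⟩ := h
  refine ⟨t⁻¹, H⁻¹, ?_⟩
  rw [map_inv, G.scM_comm t, ← mul_assoc, G.scM_comm t⁻¹, mul_assoc _ (G.scM t⁻¹),
    G.scM_comm t⁻¹, mul_assoc _ (G.scM t), ← G.scM_mul]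
  simp

lemma MEq.trans {M M' M'' : GL (Fin 2) L} (h : V.MEq M M') (h' : V.MEq M' M'') : V.MEq M M'' := by
  obtain ⟨t, H, rfl⟩ := h
  obtain ⟨t', H', rfl⟩ := h'
  refine ⟨t' * t, H' * H, ?_⟩
  rw [map_mul, G.scM_mul]
  simp only [mul_assoc]
  rw [← mul_assoc _ (G.scM t), ← G.scM_comm t, mul_assoc]

lemma MEq.mul_right {M M' : GL (Fin 2) L} (h : V.MEq M M') (N : GL (Fin 2) L) :
    V.MEq (M * N) (M' * N) := by
  obtain ⟨t, H, rfl⟩ := h
  exact ⟨t, H, by simp only [mul_assoc]⟩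

lemma LocRep.over {W : WeierstrassCurve V.O} {z₀ : Obj L} (hz : z₀.Over (W.map V.incl))
    (p : V.LocRep z₀) : p.z.Over W := by
  have h := hz.smul p.g
  rw [p.eq] at h
  unfold Obj.Over at h ⊢
  rw [Obj.map_f, Obj.map_γ, Model.jac_map, map_variableChange] at h
  exact WeierstrassCurve.map_injective V.incl_injective h

/-- Put `h = (scalar t)⁻¹ * p'.g * p.g⁻¹`; it has matrix `H`, maps `p.z` to `p'.z`, and
`G.Gam_u` shows that `h.μ` is a unit of `O`; apply `G_integral`. -/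
theorem equiv_lift {z₀ : Obj L} (p p' : V.LocRep z₀) (h : V.MEq p.g.M p'.g.M) :
    ∃ (t : Lˣ) (h : G V.O), p'.g = G.scalar t * G.map V.incl h * p.g ∧ p'.z = h • p.z := by
  obtain ⟨t, H, hM⟩ := h
  set k : G L := (G.scalar t)⁻¹ * p'.g * p.g⁻¹ with hk
  have hkM : k.M = Matrix.GeneralLinearGroup.map V.incl H := by
    rw [hk, G.mul_M, G.mul_M, G.inv_M, G.inv_M, G.scalar_M, hM]
    group
  have hkz : k • p.z.map V.incl = p'.z.map V.incl := by
    rw [← p.eq, ← p'.eq, hk, ← mul_smul, inv_mul_cancel_right, mul_smul, inv_smul_eq_iff,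
      Obj.scalar_smul]
  have hu : k.μ * k.det⁻¹ * Units.map V.incl p.z.γ.u = Units.map V.incl p'.z.γ.u := by
    have h1 := congrArg (fun z : Obj L => z.γ.u) hkz
    simpa [VariableChange.mul_def, G.Gam_u, VariableChange.map] using h1
  have hdet : k.det = Units.map V.incl (Matrix.GeneralLinearGroup.det H) := by
    rw [G.det, hkM]
    ext
    simp [Matrix.det_fin_two]
  have hμ : k.μ = Units.map V.incl
      (p'.z.γ.u * p.z.γ.u⁻¹ * Matrix.GeneralLinearGroup.det H) := by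
    rw [map_mul, map_mul, map_inv, ← hu, ← hdet]
    group
  obtain ⟨g₀, hg₀, -⟩ := G_integral (R := V.O) (L := L) (f := p.z.f) (f' := p'.z.f) (g := k) H
    (p'.z.γ.u * p.z.γ.u⁻¹ * Matrix.GeneralLinearGroup.det H) hkM (by rw [hμ]; rfl)
    (congrArg Obj.f hkz)
  refine ⟨t, g₀, ?_, ?_⟩
  · rw [hg₀, hk]
    group
  · apply Obj.map_injective V.incl_injective
    rw [Obj.map_smul, hg₀, hkz]

/-- the valuation theoretic core of `unique_std` -/
lemma locModel0_core {Γ : Type*} [LinearOrderedCommGroupWithZero Γ] (v : Valuation L Γ)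
    {l b e P l' m' n' b' c' d' e' P' β δ μ r1 r2 r s u : L}
    (hl : v l ≤ 1) (hb : v b ≤ 1) (he : v e ≤ 1) (hP : v P ≤ 1)
    (hl' : v l' ≤ 1) (hm' : v m' ≤ 1) (hn' : v n' ≤ 1) (hb' : v b' ≤ 1) (hc' : v c' ≤ 1)
    (hd' : v d' ≤ 1) (he' : v e' ≤ 1) (hP' : v P' ≤ 1)
    (hu : v u = 1) (hr : v r ≤ 1) (hs : v s ≤ 1) (hμ : μ = u * δ)
    (es : l' * β + r1 = δ * s) (er : b' * β * δ - l' * r2 = δ ^ 2 * r)
    (el : μ * l = l') (eb : μ ^ 2 * b = b' * δ - l' * r1)
    (eP : P' = u ^ 2 * μ ^ 2 * P + l' ^ 2 * r)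
    (ee : μ ^ 2 * e = -r2 ^ 2 - m' * β * δ * r2 - n' * δ ^ 2 * r2 + δ ^ 2 * r * β ^ 2
      + c' * β ^ 2 * δ ^ 2 + d' * β * δ ^ 3 + e' * δ ^ 4)
    (h1 : v l < 1 → v P = 1) (h2 : v l' < 1 → v b' = 1 ∧ v P' = 1) :
    v β ≤ 1 ∧ v δ = 1 := by
  have hμδ : v μ = v δ := by rw [hμ, map_mul, hu, one_mul]
  have hll : v μ * v l = v l' := by rw [← map_mul, el]
  have hQ : v (u ^ 2 * μ ^ 2 * P) = v μ ^ 2 * v P := by
    rw [map_mul, map_mul, map_pow, map_pow, hu, one_pow, one_mul]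
  have hR : v (l' ^ 2 * r) ≤ v l' ^ 2 := by
    rw [map_mul, map_pow]; exact mul_le_of_le_one_right' hr
  rcases hl'.eq_or_lt with hl1 | hl1
  · -- the coefficient l' is a unit
    have hμ1 : v μ = 1 := by
      rcases hl.eq_or_lt with hl0 | hl0
      · rw [hl0, mul_one, hl1] at hll; exact hll
      · exfalso
        have h3 : 1 < v μ := by
          by_contra h4
          have : v μ * v l < 1 := (mul_le_of_le_one_left' (not_lt.1 h4)).trans_lt hl0
          rw [hll, hl1] at this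
          exact lt_irrefl _ this
        have h5 : v (u ^ 2 * μ ^ 2 * P) ≤ 1 := by
          have : u ^ 2 * μ ^ 2 * P = P' - l' ^ 2 * r := by rw [eP]; ring
          rw [this]
          exact v.map_sub_le hP' (hR.trans (by rw [hl1, one_pow]))
        rw [hQ, h1 hl0, mul_one] at h5
        exact absurd h5 (not_le.2 (one_lt_pow' h3 two_ne_zero))
    have hδ1 : v δ = 1 := hμδ ▸ hμ1
    refine ⟨?_, hδ1⟩
    have h3 : v (l' * r1) ≤ 1 := by
      have : l' * r1 = b' * δ - μ ^ 2 * b := by rw [eb]; ring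
      rw [this]
      refine v.map_sub_le ?_ ?_
      · rw [map_mul, hδ1, mul_one]; exact hb'
      · rw [map_mul, map_pow, hμ1, one_pow, one_mul]; exact hb
    rw [map_mul, hl1, one_mul] at h3
    have h4 : v (l' * β) ≤ 1 := by
      have : l' * β = δ * s - r1 := by rw [← es]; ring
      rw [this]
      refine v.map_sub_le ?_ h3
      rw [map_mul, hδ1, one_mul]; exact hs
    rwa [map_mul, hl1, one_mul] at h4
  · obtain ⟨hb1, hP1⟩ := h2 hl1
    have hR1 : v (l' ^ 2 * r) < 1 := hR.trans_lt (pow_lt_one' hl1 two_ne_zero)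
    have hQ1 : v μ ^ 2 * v P = 1 := by
      have : u ^ 2 * μ ^ 2 * P = P' - l' ^ 2 * r := by rw [eP]; ring
      rw [← hQ, this, v.map_sub_eq_of_lt_left (by rw [hP1]; exact hR1), hP1]
    have hμ1 : v μ = 1 := by
      rcases hl.eq_or_lt with hl0 | hl0
      · exfalso
        rw [hl0, mul_one] at hll
        have h3 : v μ ^ 2 < 1 := pow_lt_one' (hll ▸ hl1) two_ne_zero
        have := mul_lt_one_of_lt_of_le h3 hP
        rw [hQ1] at this
        exact lt_irrefl _ this
      · rw [h1 hl0, mul_one] at hQ1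
        exact (pow_eq_one_iff_left two_ne_zero).1 hQ1
    have hδ1 : v δ = 1 := hμδ ▸ hμ1
    refine ⟨?_, hδ1⟩
    by_contra hβ
    rw [not_le] at hβ
    have h3 : v (l' * r2) = v β := by
      have e1 : l' * r2 = b' * β * δ - δ ^ 2 * r := by rw [← er]; ring
      have e2 : v (b' * β * δ) = v β := by rw [map_mul, map_mul, hb1, hδ1, one_mul, mul_one]
      rw [e1, v.map_sub_eq_of_lt_left, e2]
      rw [e2, map_mul, map_pow, hδ1, one_pow, one_mul]
      exact hr.trans_lt hβ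
    have h4 : v β < v r2 := by
      by_contra h5
      rw [not_lt] at h5
      have h6 : v l' * v r2 ≤ v l' * v β := mul_le_mul_right h5 _
      have h7 : v l' * v β < 1 * v β := mul_lt_mul_of_pos_right hl1 (zero_lt_one.trans hβ)
      rw [← map_mul, h3] at h6
      rw [one_mul] at h7
      exact lt_irrefl _ (h6.trans_lt h7)
    have h5 : 1 < v r2 := hβ.trans h4
    have h0 : 0 < v r2 := zero_lt_one.trans h5
    have h6 : v r2 < v r2 ^ 2 := by
      rw [sq]; exact lt_mul_of_one_lt_right h0 h5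
    have h7 : v β * v r2 < v r2 ^ 2 := by
      rw [sq]; exact mul_lt_mul_of_pos_right h4 h0
    have h8 : v β ^ 2 < v r2 ^ 2 := pow_lt_pow_left₀ h4 zero_le two_ne_zero
    have h9 : v (r2 ^ 2) < v r2 ^ 2 := by
      have : r2 ^ 2 = -(μ ^ 2 * e) - m' * β * δ * r2 - n' * δ ^ 2 * r2 + δ ^ 2 * r * β ^ 2
          + c' * β ^ 2 * δ ^ 2 + d' * β * δ ^ 3 + e' * δ ^ 4 := by rw [ee]; ring
      rw [this]
      refine v.map_add_lt (v.map_add_lt (v.map_add_lt (v.map_add_lt (v.map_sub_lt (v.map_sub_lt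
        ?_ ?_) ?_) ?_) ?_) ?_) ?_
      · rw [v.map_neg, map_mul, map_pow, hμ1, one_pow, one_mul]
        exact he.trans_lt (h5.trans h6)
      · rw [map_mul, map_mul, map_mul, hδ1, mul_one, mul_assoc]
        exact (mul_le_of_le_one_left' hm').trans_lt h7
      · rw [map_mul, map_mul, map_pow, hδ1, one_pow, mul_one]
        exact (mul_le_of_le_one_left' hn').trans_lt h6
      · rw [map_mul, map_mul, map_pow, map_pow, hδ1, one_pow, one_mul]
        exact (mul_le_of_le_one_left' hr).trans_lt h8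
      · rw [map_mul, map_mul, map_pow, map_pow, hδ1, one_pow, mul_one]
        exact (mul_le_of_le_one_left' hc').trans_lt h8
      · rw [map_mul, map_mul, map_pow, hδ1, one_pow, mul_one]
        exact (mul_le_of_le_one_left' hd').trans_lt (h4.trans h6)
      · rw [map_mul, map_pow, hδ1, one_pow, mul_one]
        exact he'.trans_lt (h5.trans h6)
    rw [map_pow] at h9
    exact lt_irrefl _ h9

lemma locModel0_PX {f : Model V.O} (hs : IsUnit f.l ∨ IsUnit f.b) (hl : V.v (f.l : L) < 1) :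
    V.v (f.b : L) = 1 ∧ V.v ((f.PX : V.O) : L) = 1 := by
  have hb : V.v (f.b : L) = 1 := by
    rcases hs with h | h
    · rw [(V.isUnit_iff _).1 h] at hl
      exact absurd hl (lt_irrefl _)
    · exact (V.isUnit_iff _).1 h
  refine ⟨hb, ?_⟩
  have e : ((f.PX : V.O) : L) = (f.b : L) ^ 2 + (f.l : L) * ((f.m * f.b - f.l * f.c : V.O) : L) := by
    simp only [Model.PX]; push_cast; ring
  have h2 : V.v ((f.b : L) ^ 2) = 1 := by rw [map_pow, hb, one_pow]
  rw [e, V.v.map_add_eq_of_lt_left, h2]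
  rw [h2, map_mul]
  exact mul_lt_one_of_lt_of_le hl (V.v_le_one _)

/-- `unique_std` after normalising `m11 = 1` -/
lemma locModel0_std {z z' : Obj V.O} (ha' : z'.f.a = 0)
    (hs : IsUnit z.f.l ∨ IsUnit z.f.b) (hs' : IsUnit z'.f.l ∨ IsUnit z'.f.b) {g : G L}
    (hg : g • z'.map V.incl = z.map V.incl) (h11 : g.m11 = 1) (h12 : g.m12 = 0)
    (h0 : g.r0 = 0) : V.v g.m21 ≤ 1 ∧ V.v g.m22 = 1 := by
  have hdet : (g.det : L) = g.m22 := by rw [G.det_val, h11, h12]; ring
  have hδ : g.m22 ≠ 0 := hdet ▸ g.det.ne_zero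
  have hdi : ((g.det⁻¹ : Lˣ) : L) = g.m22⁻¹ := by rw [Units.val_inv_eq_inv_val, hdet]
  set C : VariableChange V.O := z.γ * z'.γ⁻¹ with hC
  have hG : g.Gam (z'.f.map V.incl) = C.map V.incl := by
    have h1 : g.Gam (z'.f.map V.incl) * z'.γ.map V.incl = z.γ.map V.incl := congrArg Obj.γ hg
    have h2 : C.map V.incl * z'.γ.map V.incl = z.γ.map V.incl := by
      rw [← Obj.vc_map_mul, hC, inv_mul_cancel_right]
    exact mul_right_cancel (h1.trans h2.symm)
  have hf : ((z.f.map V.incl).scale (g.μ : L)) =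
      ((z'.f.map V.incl).subst 1 0 g.m21 g.m22).shift 0 g.r1 g.r2 := by
    have h1 : g • z'.f.map V.incl = z.f.map V.incl := congrArg Obj.f hg
    rw [← h1, G.scale_smul, h11, h12, h0]
  have ha0 : ((z'.f.a : V.O) : L) = 0 := by rw [ha']; rfl
  have eu : (g.μ : L) = ((C.u : V.O) : L) * g.m22 := by
    have h1 := congrArg (fun C : VariableChange L => (C.u : L)) hG
    simp only [G.Gam_u, Units.val_mul, hdi] at h1
    have h2 : ((C.map V.incl).u : L) = ((C.u : V.O) : L) := rfl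
    rw [← h2, ← h1]; field_simp
  have es : (z'.f.l : L) * g.m21 + g.r1 = g.m22 * (C.s : L) := by
    have h1 := congrArg VariableChange.s hG
    rw [G.Gam_s, hdi, h11, h12] at h1
    have h2 : (C.map V.incl).s = ((C.s : V.O) : L) := rfl
    rw [← h2, ← h1]
    simp only [Model.subS, Model.map_l, ValuationSubring.algebraMap_apply]
    field_simp
    ring
  have er : (z'.f.b : L) * g.m21 * g.m22 - (z'.f.l : L) * g.r2 = g.m22 ^ 2 * (C.r : L) := by
    have h1 := congrArg VariableChange.r hG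
    rw [G.Gam_r, hdi, h11, h12, h0] at h1
    have h2 : (C.map V.incl).r = ((C.r : V.O) : L) := rfl
    rw [← h2, ← h1]
    simp only [Model.subR, Model.shR, Model.subst, Model.map_l, Model.map_a, Model.map_b,
      ValuationSubring.algebraMap_apply, ha0]
    field_simp
    ring
  have el := congrArg Model.l hf
  have em := congrArg Model.m hf
  have eb := congrArg Model.b hf
  have ec := congrArg Model.c hf
  have ee := congrArg Model.e hf
  simp only [Model.scale, Model.shift, Model.subst, Model.map_l, Model.map_m, Model.map_n,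
    Model.map_a, Model.map_b, Model.map_c, Model.map_d, Model.map_e,
    ValuationSubring.algebraMap_apply, ha0] at el em eb ec ee
  have el1 : (g.μ : L) * (z.f.l : L) = (z'.f.l : L) := by linear_combination el
  have em1 : (g.μ : L) * (z.f.m : L) =
      2 * (z'.f.l : L) * g.m21 + (z'.f.m : L) * g.m22 + 2 * g.r1 := by linear_combination em
  have eb1 : (g.μ : L) ^ 2 * (z.f.b : L) = (z'.f.b : L) * g.m22 - (z'.f.l : L) * g.r1 := by
    linear_combination eb
  have ec1 : (g.μ : L) ^ 2 * (z.f.c : L) = -(z'.f.l : L) * g.r2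
      - (2 * (z'.f.l : L) * g.m21 + (z'.f.m : L) * g.m22) * g.r1
      + 3 * (z'.f.b : L) * g.m21 * g.m22 + (z'.f.c : L) * g.m22 ^ 2 - g.r1 ^ 2 := by
    linear_combination ec
  have eP : ((z'.f.PX : V.O) : L) = ((C.u : V.O) : L) ^ 2 * (g.μ : L) ^ 2 * ((z.f.PX : V.O) : L)
      + (z'.f.l : L) ^ 2 * (C.r : L) := by
    have h1 : (g.μ : L) ^ 4 * ((z.f.PX : V.O) : L) = ((g.μ : L) ^ 2 * (z.f.b : L)) ^ 2
        + ((g.μ : L) * (z.f.l : L)) * ((g.μ : L) * (z.f.m : L)) * ((g.μ : L) ^ 2 * (z.f.b : L))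
        - ((g.μ : L) * (z.f.l : L)) ^ 2 * ((g.μ : L) ^ 2 * (z.f.c : L)) := by
      simp only [Model.PX]; push_cast; ring
    rw [el1, em1, eb1, ec1] at h1
    have h2 : ((z'.f.PX : V.O) : L) = (z'.f.b : L) ^ 2 + (z'.f.l : L) * (z'.f.m : L) * (z'.f.b : L)
        - (z'.f.l : L) ^ 2 * (z'.f.c : L) := by
      simp only [Model.PX]; push_cast; ring
    apply mul_left_cancel₀ (pow_ne_zero 2 hδ)
    rw [h2]
    linear_combination (-1 : L) * h1 + (z'.f.l : L) ^ 2 * er
      + ((g.μ : L) + ((C.u : V.O) : L) * g.m22) * (g.μ : L) ^ 2 * ((z.f.PX : V.O) : L) * eu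
  refine locModel0_core V.v (V.v_le_one z.f.l) (V.v_le_one z.f.b) (V.v_le_one z.f.e)
    (V.v_le_one z.f.PX) (V.v_le_one z'.f.l) (V.v_le_one z'.f.m) (V.v_le_one z'.f.n)
    (V.v_le_one z'.f.b) (V.v_le_one z'.f.c) (V.v_le_one z'.f.d) (V.v_le_one z'.f.e)
    (V.v_le_one z'.f.PX) ((V.isUnit_iff _).1 C.u.isUnit) (V.v_le_one C.r) (V.v_le_one C.s) eu es er
    el1 eb1 eP ?_ (fun h => (locModel0_PX hs h).2) (fun h => locModel0_PX hs' h)
  linear_combination ee + g.m21 ^ 2 * er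

/-- Uniqueness in standard position.  Divide `g` by the scalar `m11`, so `m11 = 1`, `m12 = 0`,
`r0 = 0`; write `β = m21`, `δ = m22`.  `Gam g f'` is integral, so `μ / δ` is a unit and
`σ = l β + r1 ∈ δ O`, `ρ = b β δ - l r2 ∈ δ^2 O` (coefficients `l, m, ..` of `f'`).
The coefficients of `f` are `l / μ`, `(b δ - l r1) / μ^2`, and `μ^2 e_f =
-r2^2 - m β δ r2 - n δ^2 r2 + ρ β^2 + c β^2 δ^2 + d β δ^3 + e δ^4`.
By `Model.stdDiff_B` (at the conjugate of the standard point) and `inE1_piStd`, `inE1_vcRaw`: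
`l` is a unit iff `l / μ` is.  If both are units then `μ`, `δ` are units, `r1` and then `β` are
integral.  Otherwise `b` and `b_f` are units; if `l ≠ 0` compare the valuations of the
`X`-coordinates `PX / l^2` to get `v l = v (l / μ)`; if `l = 0` use `b_f = b δ / μ^2`.  So `μ`, `δ`
are units.  If `v β > 1` then `l ≠ 0`, `v r2 > v β`, and `r2^2` dominates in `μ^2 e_f`, which is
impossible. -/
theorem unique_std {z z' : Obj V.O} (ha : z.f.a = 0) (ha' : z'.f.a = 0)
    (hs : IsUnit z.f.l ∨ IsUnit z.f.b) (hs' : IsUnit z'.f.l ∨ IsUnit z'.f.b) {g : G L}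
    (hg : g • z'.map V.incl = z.map V.incl) (hQ : (g.pt Pt.std).Eqv Pt.std) : V.MEq 1 g.M := by
  obtain ⟨t, ht, hstd⟩ := hQ
  rw [G.pt_std] at hstd
  have e1 : t * g.m11 = 1 := (congrArg Pt.x hstd).symm
  have e2 : t * g.m12 = 0 := (congrArg Pt.z hstd).symm
  have e3 : t ^ 2 * g.r0 = 0 := (congrArg Pt.y hstd).symm
  set τ : Lˣ := Units.mk0 t ht with hτ
  set k : G L := G.scalar τ * g with hk
  have h11 : k.m11 = 1 := by simp [hk, G.mul_m11, hτ, e1]
  have h12 : k.m12 = 0 := by simp only [hk, G.mul_m12, hτ]; simp [e2]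
  have h0 : k.r0 = 0 := by
    simp only [hk, G.mul_r0, hτ]
    simp only [G.scalar_r0, G.scalar_m11, G.scalar_m12, Units.val_mk0]
    linear_combination e3
  have hkz : k • z'.map V.incl = z.map V.incl := by rw [hk, mul_smul, hg, Obj.scalar_smul]
  obtain ⟨hβ, hδ⟩ := locModel0_std ha' hs hs' hkz h11 h12 h0
  set β : V.O := ⟨k.m21, hβ⟩ with hβd
  set δ : V.O := ⟨k.m22, hδ.le⟩ with hδd
  have hδu : IsUnit δ := (V.isUnit_iff δ).2 hδ
  have hdet : IsUnit (!![1, 0; β, δ] : Matrix (Fin 2) (Fin 2) V.O).det := by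
    rw [Matrix.det_fin_two_of]; simpa using hδu
  refine ⟨τ⁻¹, Matrix.GeneralLinearGroup.mk'' _ hdet, ?_⟩
  have hM : Matrix.GeneralLinearGroup.map V.incl (Matrix.GeneralLinearGroup.mk'' _ hdet) = k.M := by
    ext i j
    fin_cases i <;> fin_cases j
    · exact h11.symm
    · exact h12.symm
    · rfl
    · rfl
  rw [hM, hk, G.mul_M, G.scalar_M, mul_one, ← mul_assoc, ← G.scM_mul]
  simp

variable {κ : Type*} [Field κ] {red : V.O →+* κ}

lemma locModel0_move (hred : V.IsRed red 1) {z : Obj V.O} {Q : Pt V.O} (hF : z.f.F Q = 0)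
    (hs : (z.f.map red).Smooth (Q.map red)) {k : G V.O} (hk : k.pt Pt.std = Q) :
    (k • z).f.a = 0 ∧ (IsUnit (k • z).f.l ∨ IsUnit (k • z).f.b) := by
  have ha : (k • z).f.a = 0 := by
    have h1 := G.F_pt k z.f Pt.std
    rw [hk, hF, Model.F_std] at h1
    have h2 : (k.μ : V.O) ^ 2 * (k • z.f).a = 0 := by linear_combination h1
    exact (k.μ.isUnit.pow 2).mul_right_eq_zero.1 h2
  refine ⟨ha, ?_⟩
  rw [← hk, ← G.map_pt, Pt.map_std, Model.smooth_pt, ← G.map_smul,
    Model.smooth_std (by rw [Model.map_a]; exact (congrArg red ha).trans (map_zero red))] at hs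
  rw [hred.isUnit_iff, hred.isUnit_iff]
  exact hs

/-- a point is smooth on at most one integral model; reduce to `unique_std` with
`exists_mover_ring` -/
theorem unique_smooth (hred : V.IsRed red 1) {z₀ : Obj L} (p p' : V.LocRep z₀) {Q Q' : Pt V.O}
    (hQ : V.IPrim Q) (hF : p.z.f.F Q = 0) (hs : (p.z.f.map red).Smooth (Q.map red))
    (hQ' : V.IPrim Q') (hF' : p'.z.f.F Q' = 0) (hs' : (p'.z.f.map red).Smooth (Q'.map red))
    (e : (p.g.pt (Q.map V.incl)).Eqv (p'.g.pt (Q'.map V.incl))) : V.MEq p.g.M p'.g.M := by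
  obtain ⟨k, hk⟩ := exists_mover_ring hQ
  obtain ⟨k', hk'⟩ := exists_mover_ring hQ'
  obtain ⟨ha, hu⟩ := locModel0_move hred hF hs hk
  obtain ⟨ha', hu'⟩ := locModel0_move hred hF' hs' hk'
  have hg : (G.map V.incl k * p.g * (G.map V.incl k' * p'.g)⁻¹) • (k' • p'.z).map V.incl =
      (k • p.z).map V.incl := by
    rw [Obj.map_smul, Obj.map_smul, ← p.eq, ← p'.eq, ← mul_smul (G.map V.incl k'), ← mul_smul,
      inv_mul_cancel_right, mul_smul]
  have hpt : ∀ (k : G V.O) (g : G L), (G.map V.incl k * g).pt Pt.std =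
      g.pt ((k.pt Pt.std).map V.incl) := by
    intro k g
    rw [G.mul_pt, ← G.map_pt, Pt.map_std]
  have hQe : ((G.map V.incl k * p.g * (G.map V.incl k' * p'.g)⁻¹).pt Pt.std).Eqv Pt.std := by
    have h1 := e.pt (G.map V.incl k' * p'.g)⁻¹
    rw [← hk', ← hpt k' p'.g, G.inv_pt_pt] at h1
    rw [G.mul_pt, hpt, hk]
    exact h1
  have h := (unique_std ha ha' hu hu' hg hQe).mul_right (G.map V.incl k' * p'.g).M
  rw [one_mul, ← G.mul_M, inv_mul_cancel_right] at h
  have h1 : V.MEq p.g.M (G.map V.incl k * p.g).M := ⟨1, k.M, by simp⟩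
  have h2 : V.MEq p'.g.M (G.map V.incl k' * p'.g).M := ⟨1, k'.M, by simp⟩
  exact h1.trans (h.symm.trans h2.symm)

end LocalField

end SelAvg

/-!
Integral normal forms.
-/

namespace SelAvg

open WeierstrassCurve WithZero
open scoped Classical

namespace LocalField

variable {L : Type*} [Field L] {V : LocalField L}

section Val

variable {Γ : Type*} [LinearOrderedCommGroupWithZero Γ] (v : Valuation L Γ)
  {a₁ a₂ a₃ a₄ a₆ x y : L}

lemma locModel1_mul_le {a b : L} (h : v a ≤ 1) : v (a * b) ≤ v b := by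
  rw [map_mul]
  exact mul_le_of_le_one_left' h

lemma locModel1_left (h1 : v a₁ ≤ 1) (h3 : v a₃ ≤ 1) (hx : v x < v y) (hy : 1 < v y) :
    v (y + (a₁ * x + a₃)) = v y :=
  v.map_add_eq_of_lt_left
    (v.map_add_lt ((locModel1_mul_le v h1).trans_lt hx) (h3.trans_lt hy))

lemma locModel1_int (h1 : v a₁ ≤ 1) (h2 : v a₂ ≤ 1) (h3 : v a₃ ≤ 1) (h4 : v a₄ ≤ 1)
    (h6 : v a₆ ≤ 1) (h : y ^ 2 + a₁ * x * y + a₃ * y = x ^ 3 + a₂ * x ^ 2 + a₄ * x + a₆)
    (hx : v x ≤ 1) : v y ≤ 1 := by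
  by_contra hy
  rw [not_le] at hy
  have e : y * (y + (a₁ * x + a₃)) = x ^ 3 + a₂ * x ^ 2 + a₄ * x + a₆ := by linear_combination h
  have h7 : v (x ^ 3 + a₂ * x ^ 2 + a₄ * x + a₆) ≤ 1 := by
    refine v.map_add_le (v.map_add_le (v.map_add_le ?_ ?_) ?_) h6
    · rw [map_pow]; exact pow_le_one' hx _
    · refine (locModel1_mul_le v h2).trans ?_
      rw [map_pow]; exact pow_le_one' hx _
    · exact (locModel1_mul_le v h4).trans hx
  rw [← e, map_mul, locModel1_left v h1 h3 (hx.trans_lt hy) hy] at h7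
  exact absurd h7 (not_le.2 (one_lt_mul'' hy hy))

lemma locModel1_pole (h1 : v a₁ ≤ 1) (h2 : v a₂ ≤ 1) (h3 : v a₃ ≤ 1) (h4 : v a₄ ≤ 1)
    (h6 : v a₆ ≤ 1) (h : y ^ 2 + a₁ * x * y + a₃ * y = x ^ 3 + a₂ * x ^ 2 + a₄ * x + a₆)
    (hx : 1 < v x) : v x < v y ∧ v y ^ 2 = v x ^ 3 := by
  have e : y * (y + (a₁ * x + a₃)) = x ^ 3 + (a₂ * x ^ 2 + a₄ * x + a₆) := by
    linear_combination h
  have p23 : v x ^ 2 < v x ^ 3 := pow_lt_pow_right₀ hx (by norm_num)
  have p13 : v x ^ 1 < v x ^ 3 := pow_lt_pow_right₀ hx (by norm_num)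
  have p03 : v x ^ 0 < v x ^ 3 := pow_lt_pow_right₀ hx (by norm_num)
  rw [pow_one] at p13
  rw [pow_zero] at p03
  have h7 : v (x ^ 3 + (a₂ * x ^ 2 + a₄ * x + a₆)) = v x ^ 3 := by
    rw [← map_pow]
    refine v.map_add_eq_of_lt_left ?_
    rw [map_pow]
    refine v.map_add_lt (v.map_add_lt ?_ ?_) (h6.trans_lt p03)
    · refine (locModel1_mul_le v h2).trans_lt ?_
      rwa [map_pow]
    · exact (locModel1_mul_le v h4).trans_lt p13
  rw [← e, map_mul] at h7
  have h8 : v x < v y := by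
    by_contra hy
    rw [not_lt] at hy
    have h9 : v (y + (a₁ * x + a₃)) ≤ v x :=
      v.map_add_le hy (v.map_add_le (locModel1_mul_le v h1) (h3.trans hx.le))
    have h10 := mul_le_mul' hy h9
    rw [h7, ← sq] at h10
    exact absurd h10 (not_le.2 p23)
  refine ⟨h8, ?_⟩
  rw [locModel1_left v h1 h3 h8 (hx.trans h8), ← sq] at h7
  exact h7

/-- the two integral parameters `l = 1 / λ` and `ξ = λ ^ 2 / x` -/
lemma locModel1_param (h1 : v a₁ ≤ 1) (hx : 1 < v x) (hxy : v x < v y)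
    (h : v y ^ 2 = v x ^ 3) :
    ∃ l ξ : L, v l ≤ 1 ∧ v ξ ≤ 1 ∧ ξ * l ^ 2 * x = 1 ∧ l * y = -(1 + a₁ * l) * x := by
  have hvx : v x ≠ 0 := (zero_lt_one.trans hx).ne'
  have hx0 : x ≠ 0 := fun h0 => hvx (by rw [h0, map_zero])
  have hw : v (y + a₁ * x) = v y :=
    v.map_add_eq_of_lt_left ((locModel1_mul_le v h1).trans_lt hxy)
  have hvy : v y ≠ 0 := (zero_lt_one.trans (hx.trans hxy)).ne'
  have hw0 : y + a₁ * x ≠ 0 := fun h0 => hvy (by rw [← hw, h0, map_zero])
  refine ⟨-x / (y + a₁ * x), (y + a₁ * x) ^ 2 / x ^ 3, ?_, ?_, ?_, ?_⟩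
  · rw [map_div₀, v.map_neg, hw]
    exact div_le_one_of_le₀ hxy.le zero_le
  · rw [map_div₀, map_pow, map_pow, hw, h, div_self (pow_ne_zero 3 hvx)]
  · field_simp
  · linear_combination div_mul_cancel₀ (-x) hw0

end Val

section Alg

variable {R : Type*} [CommRing R]

def locModel1_n (W : WeierstrassCurve R) (l ξ : R) : R :=
  W.a₃ * (1 + W.a₁ * l) * ξ + W.a₄ * ξ * l + W.a₆ * ξ ^ 2 * l ^ 3

def locModel1_c (W : WeierstrassCurve R) (l ξ : R) : R := W.a₂ + l * locModel1_n W l ξ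

def locModel1_d (W : WeierstrassCurve R) (l ξ : R) : R :=
  W.a₃ * locModel1_c W l ξ * ξ * l + W.a₄ * ξ + W.a₆ * ξ ^ 2 * l ^ 2

def locModel1_obj (W : WeierstrassCurve R) (l ξ : R) : Obj R :=
  ⟨⟨l, W.a₁, locModel1_n W l ξ, 0, 1, locModel1_c W l ξ, locModel1_d W l ξ,
    ξ * (W.a₆ - (locModel1_n W l ξ - W.a₃) * locModel1_n W l ξ
      + l * locModel1_n W l ξ * locModel1_d W l ξ)⟩, wsh 0 0 (locModel1_n W l ξ - W.a₃)⟩

lemma locModel1_ld {W : WeierstrassCurve R} {l ξ : R}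
    (hR : ξ * (1 + W.a₁ * l - l ^ 2 * locModel1_c W l ξ) = 1) :
    l * locModel1_d W l ξ = locModel1_n W l ξ - W.a₃ := by
  unfold locModel1_d
  generalize locModel1_c W l ξ = c at *
  unfold locModel1_n
  linear_combination (-W.a₃) * hR

lemma locModel1_a4 {a₁ a₃ a₄ a₆ l ξ c n d : R} (hR : ξ * (1 + a₁ * l - l ^ 2 * c) = 1)
    (hn : n = a₃ * (1 + a₁ * l) * ξ + a₄ * ξ * l + a₆ * ξ ^ 2 * l ^ 3)
    (hd : d = a₃ * c * ξ * l + a₄ * ξ + a₆ * ξ ^ 2 * l ^ 2) :
    -l ^ 2 * (ξ * (a₆ - (n - a₃) * n + l * n * d)) - l * n * c + d = a₄ - (n - a₃) * a₁ := by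
  have h1 : l * d = n - a₃ := by rw [hn, hd]; linear_combination (-a₃) * hR
  have h2 : a₆ - (n - a₃) * n + l * n * d = a₆ := by linear_combination n * h1
  rw [h2, hn, hd]
  linear_combination (a₄ + a₁ * a₃ + a₆ * ξ * l ^ 2) * hR

lemma locModel1_over {W : WeierstrassCurve R} {l ξ : R}
    (hR : ξ * (1 + W.a₁ * l - l ^ 2 * locModel1_c W l ξ) = 1) : (locModel1_obj W l ξ).Over W := by
  have h1 := locModel1_ld hR
  have h4 := locModel1_a4 (n := locModel1_n W l ξ) (d := locModel1_d W l ξ) hR rfl rfl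
  have hc : locModel1_c W l ξ = W.a₂ + l * locModel1_n W l ξ := rfl
  unfold Obj.Over locModel1_obj
  generalize locModel1_c W l ξ = c at *
  generalize locModel1_d W l ξ = d at *
  generalize locModel1_n W l ξ = n at *
  ext <;> simp only [Model.jac, wsh, variableChange_def, inv_one, Units.val_one]
  · ring
  · linear_combination hc
  · linear_combination h1
  · linear_combination h4
  · linear_combination (W.a₆ - (n - W.a₃) * n + l * n * d) * hR

lemma locModel1_map {S : Type*} [CommRing S] (φ : R →+* S) (W : WeierstrassCurve R) (l ξ : R) :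
    (locModel1_obj W l ξ).map φ = locModel1_obj (W.map φ) (φ l) (φ ξ) := by
  ext <;> simp [locModel1_obj, locModel1_n, locModel1_c, locModel1_d, wsh, VariableChange.map]

lemma locModel1_c_map {S : Type*} [CommRing S] (φ : R →+* S) (W : WeierstrassCurve R) (l ξ : R) :
    φ (locModel1_c W l ξ) = locModel1_c (W.map φ) (φ l) (φ ξ) := by
  simp [locModel1_n, locModel1_c]

lemma locModel1_rel {W : WeierstrassCurve R} {l ξ x y : R} (h : W.toAffine.Equation x y)
    (hX : ξ * l ^ 2 * x = 1) (hY : l * y = -(1 + W.a₁ * l) * x) :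
    ξ * (1 + W.a₁ * l - l ^ 2 * locModel1_c W l ξ) = 1 := by
  rw [Affine.equation_iff] at h
  have hY' : ξ * l ^ 3 * y = -(1 + W.a₁ * l) := by
    linear_combination (ξ * l ^ 2) * hY - (1 + W.a₁ * l) * hX
  have h' : (ξ * l ^ 3 * y) ^ 2 * ξ + W.a₁ * (ξ * l ^ 2 * x) * (ξ * l ^ 3 * y) * ξ * l
      + W.a₃ * (ξ * l ^ 3 * y) * ξ ^ 2 * l ^ 3 = (ξ * l ^ 2 * x) ^ 3
      + W.a₂ * (ξ * l ^ 2 * x) ^ 2 * ξ * l ^ 2 + W.a₄ * (ξ * l ^ 2 * x) * ξ ^ 2 * l ^ 4
      + W.a₆ * ξ ^ 3 * l ^ 6 := by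
    linear_combination (ξ ^ 3 * l ^ 6) * h
  rw [hX, hY'] at h'
  unfold locModel1_c locModel1_n
  linear_combination h'

end Alg

lemma locModel1_pi {W : WeierstrassCurve L} {l ξ x y : L} (h : W.toAffine.Equation x y)
    (hX : ξ * l ^ 2 * x = 1) (hY : l * y = -(1 + W.a₁ * l) * x) :
    vcRaw (locModel1_obj W l ξ).γ (locModel1_obj W l ξ).f.piStd = some (x, y) := by
  have hR := locModel1_rel h hX hY
  have h1 := locModel1_ld hR
  have hl : l ≠ 0 := by
    rintro rfl
    simp at hX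
  unfold locModel1_obj
  generalize locModel1_c W l ξ = c at *
  generalize locModel1_d W l ξ = d at *
  generalize locModel1_n W l ξ = n at *
  have hP : 1 + W.a₁ * l - l ^ 2 * c = l ^ 2 * x := by
    linear_combination (l ^ 2 * x) * hR - (1 + W.a₁ * l - l ^ 2 * c) * hX
  simp only [Model.piStd, hl, if_false, vcRaw_some, wsh, Units.val_one, Model.PX, Model.PY,
    Option.some.injEq, Prod.mk.injEq]
  constructor
  · field_simp
    linear_combination hP
  · field_simp
    linear_combination -(1 + W.a₁ * l) * hP - l ^ 3 * h1 - l ^ 2 * hY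

/-- Integral normal forms.  For `P = 0` use `zO W`, for integral `P` use `zA W x y`.  For
`P = (x, y)` with `1 < v x`: then `v y^2 = v x^3`; put `λ' = -y / x`, `λ = λ' - a₁`,
`ε = a₃ λ' / x + a₄ / x + a₆ / x^2` (so that `x = λ λ' - a₂ - ε` by the curve equation),
`t = λ ε - a₃`, `γ = wsh 0 0 t`, and `l = 1 / λ`, `m = a₁`, `n = a₃ + t`, `a = 0`, `b = 1`,
`c = a₂ + ε`, `d = λ t`, `e = λ^2 (d - l n c - (a₄ - t a₁))`.  Then `a₁, .., a₄` of `jac f` and
`γ • W` agree, `piStd f = (x, y - t)` lies on both curves, so `a₆` agrees.  Integrality: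
`v λ = v λ' > 1`, `v x = (v λ)^2`, `d = a₃ (a₂ + ε) λ / x + a₄ λ^2 / x + a₆ λ^2 / x^2`, and
`e (1 + l m - l^2 c) = a₆' + l n d`. -/
theorem exists_smooth {W : WeierstrassCurve V.O} (hW : W.Δ ≠ 0)
    (P : (W.map V.incl).toAffine.Point) :
    ∃ z : Obj V.O, z.Over W ∧ z.f.a = 0 ∧ (IsUnit z.f.l ∨ IsUnit z.f.b) ∧
      piP (W.map V.incl) (z.map V.incl) Pt.std = P := by
  have hW' : (W.map V.incl).Δ ≠ 0 := by
    rw [map_Δ]
    exact fun h => hW (V.incl_injective (h.trans (map_zero _).symm))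
  rcases P with _ | ⟨x, y, hP⟩
  · refine ⟨zO W, zO_over W, rfl, Or.inr isUnit_one, ?_⟩
    rw [zO_map]
    exact piP_zP hW' 0
  have heq := (Affine.equation_iff x y).1 hP.1
  by_cases hx : V.v x ≤ 1
  · have hy : V.v y ≤ 1 := locModel1_int V.v (V.v_le_one W.a₁) (V.v_le_one W.a₂)
      (V.v_le_one W.a₃) (V.v_le_one W.a₄) (V.v_le_one W.a₆) heq hx
    refine ⟨zA W ⟨x, hx⟩ ⟨y, hy⟩, zA_over ?_, rfl, Or.inl isUnit_one, ?_⟩
    · exact (Affine.map_equation (W := W.toAffine) V.incl_injective ⟨x, hx⟩ ⟨y, hy⟩).1 hP.1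
    · rw [zA_map]
      exact piP_zP hW' (.some x y hP)
  · rw [not_le] at hx
    obtain ⟨hxy, h23⟩ := locModel1_pole V.v (V.v_le_one W.a₁) (V.v_le_one W.a₂)
      (V.v_le_one W.a₃) (V.v_le_one W.a₄) (V.v_le_one W.a₆) heq hx
    obtain ⟨l, ξ, hl, hξ, hX, hY⟩ := locModel1_param V.v (V.v_le_one W.a₁) hx hxy h23
    have hR := locModel1_rel (W := W.map V.incl) hP.1 hX hY
    have hover : (locModel1_obj W ⟨l, hl⟩ ⟨ξ, hξ⟩).Over W := by
      apply locModel1_over
      apply V.incl_injective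
      simp only [map_mul, map_sub, map_add, map_one, map_pow, locModel1_c_map]
      exact hR
    refine ⟨locModel1_obj W ⟨l, hl⟩ ⟨ξ, hξ⟩, hover, rfl, Or.inr isUnit_one, toRaw_injective ?_⟩
    rw [toRaw_piP_std hW' (hover.map V.incl) (map_zero V.incl), locModel1_map]
    exact locModel1_pi hP.1 hX hY

end LocalField

end SelAvg

/-!
The sum of the numbers of smooth points over the integral models.
-/

namespace SelAvg

open WeierstrassCurve WithZero
open scoped Classical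

namespace LocalField

variable {L : Type*} [Field L] {V : LocalField L}
variable {κ : Type*} [Field κ] {red : V.O →+* κ}

lemma locModel_Delta {W : WeierstrassCurve V.O} (hW : W.Δ ≠ 0) : (W.map V.incl).Δ ≠ 0 := by
  rw [map_Δ]
  exact fun h => hW (V.incl_injective (h.trans (map_zero _).symm))

lemma locModel_on_int {f : Model V.O} {Q : Pt V.O} (hQ : V.IPrim Q) (hF : f.F Q = 0) :
    (f.map V.incl).On (Q.map V.incl) :=
  ⟨hQ.map_incl, by rw [Model.map_F, hF, map_zero]⟩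

lemma locModel_on_smul {z₀ : Obj L} (p : V.LocRep z₀) {Q : Pt V.O} (hQ : V.IPrim Q)
    (hF : p.z.f.F Q = 0) : (p.g • z₀).f.On (Q.map V.incl) := by
  rw [p.eq]
  exact locModel_on_int hQ hF

lemma locModel_on {z₀ : Obj L} (p : V.LocRep z₀) {Q : Pt V.O} (hQ : V.IPrim Q)
    (hF : p.z.f.F Q = 0) : z₀.f.On (p.g.pt (Q.map V.incl)) :=
  (Model.on_pt _ _ _).2 (locModel_on_smul p hQ hF)

/-- `disc` transported to `z₀` -/
lemma locModel_disc (hred : V.IsRed red 1) {W : WeierstrassCurve V.O} (hW : W.Δ ≠ 0)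
    {z₀ : Obj L} (hz : z₀.Over (W.map V.incl)) (p : V.LocRep z₀) {Q Q' : Pt V.O}
    (hQ : V.IPrim Q) (hF : p.z.f.F Q = 0) (hs : (p.z.f.map red).Smooth (Q.map red))
    (hQ' : V.IPrim Q') (hF' : p.z.f.F Q' = 0) :
    D (W.map V.incl) z₀ (p.g.pt (Q.map V.incl)) (p.g.pt (Q'.map V.incl)) ∈ V.E1 W ↔
      (Q.map red).Eqv (Q'.map red) := by
  rw [mem_E1 hW, ← D_smul (locModel_Delta hW) hz p.g (locModel_on_smul p hQ hF)
    (locModel_on_smul p hQ' hF'), p.eq]
  exact disc hred hW (LocRep.over hz p) hQ hF hs hQ' hF'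

/-- every point of `z₀` has an integral representative on every integral model -/
lemma locModel_rep {z₀ : Obj L} (p : V.LocRep z₀) {P : Pt L} (hP : z₀.f.On P) :
    ∃ Q : Pt V.O, V.IPrim Q ∧ p.z.f.F Q = 0 ∧ P.Eqv (p.g.pt (Q.map V.incl)) := by
  have h1 : (p.z.f.map V.incl).On (p.g⁻¹.pt P) := by
    have h2 : p.g • z₀.f = p.z.f.map V.incl := congrArg Obj.f p.eq
    rw [← h2, ← Model.on_pt, G.pt_inv_pt]
    exact hP
  obtain ⟨Q, hQ, hF, e⟩ := exists_integral_rep p.z.f h1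
  refine ⟨Q, hQ, hF, ?_⟩
  have := e.pt p.g
  rwa [G.pt_inv_pt] at this

lemma locModel_coset {W : WeierstrassCurve V.O} (hW : W.Δ ≠ 0) {z₀ : Obj L}
    (hz : z₀.Over (W.map V.incl)) {Q₁ P P' : Pt L} (h₁ : z₀.f.On Q₁) (hP : z₀.f.On P)
    (hP' : z₀.f.On P') :
    ((D (W.map V.incl) z₀ Q₁ P : (W.map V.incl).toAffine.Point) :
        (W.map V.incl).toAffine.Point ⧸ V.E1 W) =
      (D (W.map V.incl) z₀ Q₁ P' : (W.map V.incl).toAffine.Point) ↔
      D (W.map V.incl) z₀ P P' ∈ V.E1 W := by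
  rw [QuotientAddGroup.eq, ← D_symm (locModel_Delta hW) hz h₁ hP,
    D_add (locModel_Delta hW) hz hP h₁ hP']

lemma locModel_card [Finite κ] {z₀ : Obj L} {ι : Type*} (s : Finset ι) (p : ι → V.LocRep z₀) :
    Nat.card (Σ i : s, {q : Option κ × κ // ((p i).z.f.map red).On (npt q) ∧
      ((p i).z.f.map red).Smooth (npt q)}) = ∑ i ∈ s, nSm ((p i).z.f.map red) := by
  rw [Nat.card_sigma, ← Finset.sum_coe_sort s]
  rfl

/-- every point of `z₀` is smooth on some integral model -/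
lemma locModel_cover (hred : V.IsRed red 1) {W : WeierstrassCurve V.O} (hW : W.Δ ≠ 0)
    {z₀ : Obj L} (hz : z₀.Over (W.map V.incl)) {P : Pt L} (hP : z₀.f.On P) :
    ∃ (p : V.LocRep z₀) (Q : Pt V.O), V.IPrim Q ∧ p.z.f.F Q = 0 ∧
      (p.z.f.map red).Smooth (Q.map red) ∧ (p.g.pt (Q.map V.incl)).Eqv P := by
  obtain ⟨z, hzW, ha, hu, hπ⟩ := exists_smooth hW (piP (W.map V.incl) z₀ P)
  have hstd : (z.map V.incl).f.On Pt.std :=
    Model.on_std.2 (by rw [Obj.map_f, Model.map_a, ha, map_zero])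
  obtain ⟨g, hg, e⟩ := exists_iso (locModel_Delta hW) (hzW.map V.incl) hz hstd hP hπ
  refine ⟨⟨g, z, hg⟩, Pt.std, Or.inl isUnit_one, by rw [Model.F_std, ha, neg_zero], ?_, ?_⟩
  · rw [Pt.map_std, Model.smooth_std (by rw [Model.map_a, ha, map_zero])]
    rw [hred.isUnit_iff, hred.isUnit_iff] at hu
    exact hu
  · rw [Pt.map_std]
    exact e

/-- smooth points move to equivalent integral models -/
lemma locModel_transport {z₀ : Obj L} (p p' : V.LocRep z₀) (h : V.MEq p.g.M p'.g.M) {Q : Pt V.O}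
    (hQ : V.IPrim Q) (hF : p.z.f.F Q = 0) (hs : (p.z.f.map red).Smooth (Q.map red)) :
    ∃ Q' : Pt V.O, V.IPrim Q' ∧ p'.z.f.F Q' = 0 ∧ (p'.z.f.map red).Smooth (Q'.map red) ∧
      (p.g.pt (Q.map V.incl)).Eqv (p'.g.pt (Q'.map V.incl)) := by
  obtain ⟨t, k, hg, hz⟩ := equiv_lift p p' h
  refine ⟨k⁻¹.pt Q, hQ.pt _, ?_, ?_, ?_⟩
  · have h1 := G.F_pt k p.z.f (k⁻¹.pt Q)
    rw [G.pt_inv_pt, hF] at h1
    rw [hz, Obj.smul_f]
    exact (k.μ.isUnit.pow 2).mul_right_eq_zero.1 h1.symm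
  · rw [hz, Obj.smul_f, G.map_smul, ← Model.smooth_pt, G.map_pt, G.pt_inv_pt]
    exact hs
  · rw [hg, G.mul_pt, G.mul_pt, G.scalar_pt, G.pt_sc, G.map_pt, G.pt_inv_pt, G.pt_sc]
    exact ⟨t, t.ne_zero, rfl⟩

/-- If the sum is positive fix a point `Q₁` of `z₀`.  Send `(i, Q)` (a smooth point of the
reduction, lifted by `exists_lift`) to the coset of `D Q₁ ((p i).g.pt Q)`.  If two cosets agree,
transport the second point to the first model (`exists_integral_rep`), use `D_add`, `D_smul`,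
`disc` to see that it reduces to the same smooth point, `unique_smooth` to get `i = j`, and
`IPrim.eqv_red`, `npt_inj`. -/
theorem sum_nSm_le [Finite κ] (hred : V.IsRed red 1) {W : WeierstrassCurve V.O} (hW : W.Δ ≠ 0)
    {z₀ : Obj L} (hz : z₀.Over (W.map V.incl)) {ι : Type*} (s : Finset ι) (p : ι → V.LocRep z₀)
    (hp : ∀ i ∈ s, ∀ j ∈ s, V.MEq (p i).g.M (p j).g.M → i = j) :
    ∑ i ∈ s, nSm ((p i).z.f.map red) ≤ V.Nloc W := by
  rw [← locModel_card]
  set T := Σ i : s, {q : Option κ × κ // ((p i).z.f.map red).On (npt q) ∧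
      ((p i).z.f.map red).Smooth (npt q)} with hT
  have hlift : ∀ τ : T, ∃ Q : Pt V.O, V.IPrim Q ∧ (p τ.1).z.f.F Q = 0 ∧ Q.map red = npt τ.2.1 :=
    fun τ => exists_lift hred _ τ.2.2.1 τ.2.2.2
  choose lift hl1 hl2 hl3 using hlift
  rcases isEmpty_or_nonempty T with hE | ⟨⟨τ₁⟩⟩
  · simp
  have h₁ := locModel_on (p τ₁.1) (hl1 τ₁) (hl2 τ₁)
  have : Finite ((W.map V.incl).toAffine.Point ⧸ V.E1 W) :=
    Nat.finite_of_card_ne_zero (Nloc_pos hred hW).ne'
  refine Nat.card_le_card_of_injective (fun τ : T =>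
    ((D (W.map V.incl) z₀ ((p τ₁.1).g.pt ((lift τ₁).map V.incl))
      ((p τ.1).g.pt ((lift τ).map V.incl)) : (W.map V.incl).toAffine.Point) :
        (W.map V.incl).toAffine.Point ⧸ V.E1 W)) ?_
  intro τ τ' hττ
  have hP := locModel_on (p τ.1) (hl1 τ) (hl2 τ)
  have hP' := locModel_on (p τ'.1) (hl1 τ') (hl2 τ')
  have hsm : ∀ τ : T, ((p τ.1).z.f.map red).Smooth ((lift τ).map red) := fun τ => by
    rw [hl3]; exact τ.2.2.2
  have hE := (locModel_coset hW hz h₁ hP hP').1 hττ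
  obtain ⟨Q₀, hQ₀, hF₀, e₀⟩ := locModel_rep (p τ.1) hP'
  rw [D_eqv (locModel_Delta hW) hz hP hP' (Pt.Eqv.refl _) e₀,
    locModel_disc hred hW hz (p τ.1) (hl1 τ) (hl2 τ) (hsm τ) hQ₀ hF₀] at hE
  have hM := unique_smooth hred (p τ.1) (p τ'.1) hQ₀ hF₀ ((hsm τ).eqv hE) (hl1 τ') (hl2 τ')
    (hsm τ') e₀.symm
  obtain ⟨i, q⟩ := τ
  obtain ⟨j, q'⟩ := τ'
  have hij : i = j := Subtype.ext (hp i i.2 j j.2 hM)
  subst hij
  have e1 := e₀.pt (p i).g⁻¹
  rw [G.inv_pt_pt, G.inv_pt_pt] at e1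
  have e2 := IPrim.eqv_red hred (hl1 ⟨i, q'⟩) hQ₀ e1
  have e3 := hE.trans e2.symm
  rw [hl3, hl3] at e3
  have : q = q' := Subtype.ext (npt_inj e3)
  rw [this]

/-- For each coset choose `R`, a point `Q_R` with `D Q₁ Q_R = R`, the integral normal form of
`piP Q_R` (`exists_smooth`) and an isomorphism (`exists_iso`).  Choose one representative in
each `MEq` class; by `equiv_lift` the point `Q_R` becomes a smooth point on the representative,
and by `disc` its reduction determines the coset. -/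
theorem exists_sum_nSm_ge [Finite κ] (hred : V.IsRed red 1) {W : WeierstrassCurve V.O}
    (hW : W.Δ ≠ 0) {z₀ : Obj L} (hz : z₀.Over (W.map V.incl)) (hsol : z₀.f.Soluble) :
    ∃ s : Finset (V.LocRep z₀), (∀ p ∈ s, ∀ p' ∈ s, V.MEq p.g.M p'.g.M → p = p') ∧
      V.Nloc W ≤ ∑ p ∈ s, nSm (p.z.f.map red) := by
  obtain ⟨Q₁, h₁⟩ := hsol
  have hfin : Finite ((W.map V.incl).toAffine.Point ⧸ V.E1 W) :=
    Nat.finite_of_card_ne_zero (Nloc_pos hred hW).ne'
  have := Fintype.ofFinite ((W.map V.incl).toAffine.Point ⧸ V.E1 W)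
  let S : Setoid (V.LocRep z₀) :=
    ⟨fun p p' => V.MEq p.g.M p'.g.M, ⟨fun _ => MEq.refl _, MEq.symm, MEq.trans⟩⟩
  have hc : ∀ c : (W.map V.incl).toAffine.Point ⧸ V.E1 W, ∃ a : Quotient S, ∃ Q : Pt V.O,
      V.IPrim Q ∧ a.out.z.f.F Q = 0 ∧ (a.out.z.f.map red).Smooth (Q.map red) ∧
      ((D (W.map V.incl) z₀ Q₁ (a.out.g.pt (Q.map V.incl)) : (W.map V.incl).toAffine.Point) :
        (W.map V.incl).toAffine.Point ⧸ V.E1 W) = c := by
    intro c
    obtain ⟨R, rfl⟩ := QuotientAddGroup.mk_surjective c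
    obtain ⟨P, hP, rfl⟩ := D_surjective (locModel_Delta hW) hz h₁ R
    obtain ⟨p, Q, hQ, hF, hs, e⟩ := locModel_cover hred hW hz hP
    have hM : V.MEq p.g.M (Quotient.mk S p).out.g.M := MEq.symm (Quotient.mk_out (s := S) p)
    obtain ⟨Q', hQ', hF', hs', e'⟩ := locModel_transport p _ hM hQ hF hs
    refine ⟨Quotient.mk S p, Q', hQ', hF', hs', ?_⟩
    rw [D_eqv (locModel_Delta hW) hz h₁ hP (Pt.Eqv.refl _) (e.symm.trans e')]
  choose a Qc hc1 hc2 hc3 hc4 using hc
  refine ⟨Finset.univ.image fun c => (a c).out, ?_, ?_⟩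
  · intro p hp p' hp' hM
    obtain ⟨c, -, rfl⟩ := Finset.mem_image.1 hp
    obtain ⟨c', -, rfl⟩ := Finset.mem_image.1 hp'
    have h1 : Quotient.mk S (a c).out = Quotient.mk S (a c').out := Quotient.sound hM
    rw [Quotient.out_eq, Quotient.out_eq] at h1
    rw [h1]
  set s : Finset (V.LocRep z₀) := Finset.univ.image fun c => (a c).out with hs
  rw [← locModel_card (red := red) s fun x => x]
  set T := Σ i : s, {q : Option κ × κ // (i.1.z.f.map red).On (npt q) ∧
      (i.1.z.f.map red).Smooth (npt q)} with hT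
  have hlift : ∀ τ : T, ∃ Q : Pt V.O, V.IPrim Q ∧ τ.1.1.z.f.F Q = 0 ∧ Q.map red = npt τ.2.1 :=
    fun τ => exists_lift hred _ τ.2.2.1 τ.2.2.2
  choose lift hl1 hl2 hl3 using hlift
  refine Nat.card_le_card_of_surjective (fun τ : T =>
    ((D (W.map V.incl) z₀ Q₁ (τ.1.1.g.pt ((lift τ).map V.incl)) : (W.map V.incl).toAffine.Point) :
        (W.map V.incl).toAffine.Point ⧸ V.E1 W)) ?_
  intro c
  have hprim : ((Qc c).map red).Prim := (IPrim.map_red hred).1 (hc1 c)
  obtain ⟨q, hq⟩ := exists_npt hprim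
  have hon : ((a c).out.z.f.map red).On ((Qc c).map red) :=
    ⟨hprim, by rw [Model.map_F, hc2, map_zero]⟩
  let τ : T := ⟨⟨(a c).out, Finset.mem_image.2 ⟨c, Finset.mem_univ _, rfl⟩⟩,
    ⟨q, hon.eqv hq, (hc3 c).eqv hq⟩⟩
  refine ⟨τ, ?_⟩
  rw [← hc4 c]
  symm
  refine (locModel_coset hW hz h₁ (locModel_on _ (hc1 c) (hc2 c))
    (locModel_on (a c).out (hl1 τ) (hl2 τ))).2 ?_
  rw [locModel_disc hred hW hz (a c).out (hc1 c) (hc2 c) (hc3 c) (hl1 τ) (hl2 τ), hl3]
  exact hq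

theorem nSm_le_Nloc [Finite κ] (hred : V.IsRed red 1) {f : Model V.O} (hΔ : f.jac.Δ ≠ 0) :
    nSm (f.map red) ≤ V.Nloc f.jac := by
  have hz : (⟨f, 1⟩ : Obj V.O).Over f.jac := (one_smul _ _).symm
  have h := sum_nSm_le hred hΔ (hz.map V.incl) ({()} : Finset Unit)
    (fun _ => ⟨1, ⟨f, 1⟩, one_smul _ _⟩) (fun _ _ _ _ _ => rfl)
  simpa using h

lemma phiL_nonneg (red : V.O →+* κ) (f : Model V.O) : 0 ≤ V.phiL red f := by
  unfold phiL; positivity

theorem phiL_le_one [Finite κ] (hred : V.IsRed red 1) {f : Model V.O} (hΔ : f.jac.Δ ≠ 0) :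
    V.phiL red f ≤ 1 := by
  have h0 : (0 : ℝ) < V.Nloc f.jac := by exact_mod_cast Nloc_pos hred hΔ
  unfold phiL
  rw [div_le_one h0]
  exact_mod_cast nSm_le_Nloc hred hΔ

theorem phiL_smul (red : V.O →+* κ) (h : G V.O) {f : Model V.O} (hΔ : f.jac.Δ ≠ 0) :
    V.phiL red (h • f) = V.phiL red f := by
  unfold phiL
  rw [G.map_smul, nSm_smul, G.jac_smul, Nloc_smul _ hΔ]

end LocalField

end SelAvg

/-!
If the discriminant has valuation at most one, the local weight is one.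
-/

namespace SelAvg

open WeierstrassCurve WithZero
open scoped Classical

section Twist

variable {R : Type*} [CommRing R]

/-- the model `y^2 + q y = δ q^2 + (1 + 4 δ) g` -/
def Model.twist (δ : R) (f : Model R) : Model R :=
  ⟨f.l, f.m, f.n, δ * f.l ^ 2 + (1 + 4 * δ) * f.a, 2 * δ * f.l * f.m + (1 + 4 * δ) * f.b,
    δ * (f.m ^ 2 + 2 * f.l * f.n) + (1 + 4 * δ) * f.c, 2 * δ * f.m * f.n + (1 + 4 * δ) * f.d,
    δ * f.n ^ 2 + (1 + 4 * δ) * f.e⟩

lemma Model.twist_q (δ : R) (f : Model R) (x z : R) : (f.twist δ).q x z = f.q x z := rfl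

lemma Model.twist_g (δ : R) (f : Model R) (x z : R) :
    (f.twist δ).g x z = δ * f.q x z ^ 2 + (1 + 4 * δ) * f.g x z := by
  simp only [Model.twist, Model.g, Model.q]
  ring

lemma locGood0_b₂ (δ : R) (f : Model R) :
    (f.twist δ).jac.b₂ = (1 + 4 * δ) * f.jac.b₂ + 12 * (2 * δ * f.l * f.n) := by
  simp only [Model.twist, Model.jac, b₂]
  ring

lemma locGood0_b₄ (δ : R) (f : Model R) :
    (f.twist δ).jac.b₄ = (1 + 4 * δ) ^ 2 * f.jac.b₄
      + (2 * δ * f.l * f.n) * ((1 + 4 * δ) * f.jac.b₂) + 6 * (2 * δ * f.l * f.n) ^ 2 := by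
  simp only [Model.twist, Model.jac, b₂, b₄]
  ring

lemma locGood0_b₆ (δ : R) (f : Model R) :
    (f.twist δ).jac.b₆ = (1 + 4 * δ) ^ 3 * f.jac.b₆
      + 2 * (2 * δ * f.l * f.n) * ((1 + 4 * δ) ^ 2 * f.jac.b₄)
      + (2 * δ * f.l * f.n) ^ 2 * ((1 + 4 * δ) * f.jac.b₂) + 4 * (2 * δ * f.l * f.n) ^ 3 := by
  simp only [Model.twist, Model.jac, b₂, b₄, b₆]
  ring

lemma locGood0_b₈ (δ : R) (f : Model R) :
    (f.twist δ).jac.b₈ = (1 + 4 * δ) ^ 4 * f.jac.b₈
      + 3 * (2 * δ * f.l * f.n) * ((1 + 4 * δ) ^ 3 * f.jac.b₆)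
      + 3 * (2 * δ * f.l * f.n) ^ 2 * ((1 + 4 * δ) ^ 2 * f.jac.b₄)
      + (2 * δ * f.l * f.n) ^ 3 * ((1 + 4 * δ) * f.jac.b₂) + 3 * (2 * δ * f.l * f.n) ^ 4 := by
  simp only [Model.twist, Model.jac, b₂, b₄, b₆, b₈]
  ring

lemma Model.twist_Delta (δ : R) (f : Model R) :
    (f.twist δ).jac.Δ = (1 + 4 * δ) ^ 6 * f.jac.Δ := by
  have h := f.jac.b_relation
  simp only [Δ, locGood0_b₂, locGood0_b₄, locGood0_b₆, locGood0_b₈]
  generalize 2 * δ * f.l * f.n = r
  generalize 1 + 4 * δ = u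
  generalize f.jac.b₂ = B2 at *
  generalize f.jac.b₄ = B4 at *
  generalize f.jac.b₆ = B6 at *
  generalize f.jac.b₈ = B8 at *
  linear_combination (-6 * u ^ 5 * B2 * r - 36 * u ^ 4 * r ^ 2) * h

lemma Model.twist_map {S : Type*} [CommRing S] (φ : R →+* S) (δ : R) (f : Model R) :
    (f.twist δ).map φ = (f.map φ).twist (φ δ) := by
  ext <;> simp [Model.twist, map_ofNat]

lemma locGood0_twist_subst (δ α β γ ε : R) (f : Model R) :
    (f.subst α β γ ε).twist δ = (f.twist δ).subst α β γ ε := by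
  ext <;> simp only [Model.twist, Model.subst] <;> ring

lemma locGood0_twist_shift (δ r0 r1 r2 : R) (f : Model R) :
    (f.shift r0 r1 r2).twist δ = (f.twist δ).shift r0 r1 r2 := by
  ext <;> simp only [Model.twist, Model.shift] <;> ring

lemma locGood0_twist_scale (δ t : R) (f : Model R) :
    (f.scale t).twist δ = (f.twist δ).scale t := by
  ext <;> simp only [Model.twist, Model.scale] <;> ring

lemma Model.twist_smul (δ : R) (g : G R) (f : Model R) : (g • f).twist δ = g • f.twist δ := by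
  rw [G.smul_def, G.smul_def, locGood0_twist_scale, locGood0_twist_shift, locGood0_twist_subst]

lemma locGood0_dvd_Delta (W : WeierstrassCurve R) {c : R} (h3 : c ∣ W.a₃) (h4 : c ∣ W.a₄)
    (h6 : c ∣ W.a₆) : c ∣ W.Δ := by
  have h4' : c ∣ W.b₄ := by
    unfold b₄
    exact dvd_add (h4.mul_left _) (h3.mul_left _)
  have h6' : c ∣ W.b₆ := by
    unfold b₆
    exact dvd_add (dvd_pow h3 two_ne_zero) (h6.mul_left _)
  have h8' : c ∣ W.b₈ := by
    unfold b₈
    exact dvd_sub (dvd_add (dvd_sub (dvd_add (h6.mul_left _) (h6.mul_left _)) (h4.mul_left _))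
      ((dvd_pow h3 two_ne_zero).mul_left _)) (dvd_pow h4 two_ne_zero)
  unfold Δ
  exact dvd_add (dvd_sub (dvd_sub (h8'.mul_left _) ((dvd_pow h4' three_ne_zero).mul_left _))
    ((dvd_pow h6' two_ne_zero).mul_left _)) (h6'.mul_left _)

/-- if `l, n, a, b, d, e` lie in an ideal `I` then `a₃, a₄, a₆` and `Δ` lie in `I^2` -/
lemma Model.sq_dvd_Delta (f : Model R) {c : R} (hl : c ∣ f.l) (hn : c ∣ f.n) (ha : c ∣ f.a)
    (hb : c ∣ f.b) (hd : c ∣ f.d) (he : c ∣ f.e) : c ^ 2 ∣ f.jac.Δ := by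
  obtain ⟨l, hl⟩ := hl
  obtain ⟨n, hn⟩ := hn
  obtain ⟨a, ha⟩ := ha
  obtain ⟨b, hb⟩ := hb
  obtain ⟨d, hd⟩ := hd
  obtain ⟨e, he⟩ := he
  refine locGood0_dvd_Delta _ ⟨l * d + n * b, ?_⟩
    ⟨-c * l ^ 2 * e - l * n * f.c - c * n ^ 2 * a - 4 * a * e + b * d, ?_⟩
    ⟨-c * l ^ 2 * f.c * e + c * l * f.m * b * e - c ^ 2 * l * n * b * d - f.m ^ 2 * a * e
      + c * f.m * n * a * d - c * n ^ 2 * a * f.c - 4 * a * f.c * e + c * a * d ^ 2
      + c * b ^ 2 * e, ?_⟩ <;>
    simp only [Model.jac, hl, hn, ha, hb, hd, he] <;> ring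

end Twist

section FiniteField

variable {κ : Type*} [Field κ]

/-- `T ↦ T^2 + T` is not injective (`0`, `-1`), hence not surjective -/
lemma exists_nonsplit [Finite κ] : ∃ δ : κ, ∀ T : κ, T ^ 2 + T - δ ≠ 0 := by
  by_contra hcon
  have hs : Function.Surjective (fun T : κ => T ^ 2 + T) := by
    intro δ
    by_contra h
    exact hcon ⟨δ, fun T hT => h ⟨T, by linear_combination hT⟩⟩
  have hi := Finite.injective_iff_surjective.2 hs
  have h01 : (0 : κ) = -1 := hi (by ring)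
  exact one_ne_zero (α := κ) (by linear_combination h01)

lemma locGood0_nonsq (h2 : (2 : κ) ≠ 0) {α β : κ} (h : ∀ y : κ, y ^ 2 + α * y - β ≠ 0) :
    ¬IsSquare (α ^ 2 + 4 * β) := by
  rintro ⟨s, hs⟩
  apply h ((s - α) / 2)
  field_simp
  linear_combination -hs

lemma locGood0_sq_surj [Finite κ] (h2 : (2 : κ) = 0) :
    Function.Surjective (fun T : κ => T ^ 2) := by
  refine Finite.injective_iff_surjective.1 fun a b hab => ?_
  have h : (a - b) ^ 2 = 0 := by
    have hab' : a ^ 2 = b ^ 2 := hab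
    linear_combination hab' + (b ^ 2 - a * b) * h2
  exact sub_eq_zero.1 (pow_eq_zero_iff two_ne_zero |>.1 h)

lemma locGood0_add_mem [Finite κ] (h2 : (2 : κ) = 0) {δ ε : κ} (hδ : ∀ T : κ, T ^ 2 + T - δ ≠ 0)
    (hε : ∀ T : κ, T ^ 2 + T - ε ≠ 0) : ∃ T : κ, T ^ 2 + T = δ + ε := by
  let φ : κ →+ κ :=
    { toFun := fun T => T ^ 2 + T
      map_zero' := by ring
      map_add' := fun a b => by linear_combination (a * b) * h2 }
  have hker : Nat.card φ.ker = 2 := by
    have hset : (φ.ker : Set κ) = {0, 1} := by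
      ext T
      simp only [SetLike.mem_coe, AddMonoidHom.mem_ker, Set.mem_insert_iff, Set.mem_singleton_iff]
      change T ^ 2 + T = 0 ↔ _
      constructor
      · intro hT
        have : T * (T - 1) = 0 := by linear_combination hT - T * h2
        rcases mul_eq_zero.1 this with h | h
        · exact Or.inl h
        · exact Or.inr (sub_eq_zero.1 h)
      · rintro (rfl | rfl)
        · ring
        · linear_combination h2
    rw [← SetLike.coe_sort_coe, hset, Nat.card_coe_set_eq, Set.ncard_pair zero_ne_one]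
  have hidx : φ.range.index = 2 := by rw [AddSubgroup.index_range, hker]
  have hd : δ ∉ φ.range := by
    rintro ⟨T, hT⟩
    exact hδ T (sub_eq_zero.2 hT)
  have he : ε ∉ φ.range := by
    rintro ⟨T, hT⟩
    exact hε T (sub_eq_zero.2 hT)
  exact (AddSubgroup.add_mem_iff_of_index_two hidx).2 (iff_of_false hd he)

/-- If `2 ≠ 0`: `1 + 4 δ` and `α^2 + 4 β` are non-squares, so their product is a nonzero square
(`quadraticChar`).  If `2 = 0`: `α ≠ 0` (squaring is bijective), and the image of the additive map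
`T ↦ T^2 + T` has index 2. -/
lemma twist_splits [Finite κ] {δ : κ} (hδ : ∀ T : κ, T ^ 2 + T - δ ≠ 0) {α β : κ}
    (h : ∀ y : κ, y ^ 2 + α * y - β ≠ 0) :
    ∃ y y' : κ, y ≠ y' ∧ y ^ 2 + α * y - (δ * α ^ 2 + (1 + 4 * δ) * β) = 0 ∧
      y' ^ 2 + α * y' - (δ * α ^ 2 + (1 + 4 * δ) * β) = 0 := by
  by_cases h2 : (2 : κ) = 0
  · have hα : α ≠ 0 := by
      rintro rfl
      obtain ⟨y, hy⟩ := locGood0_sq_surj h2 β
      exact h y (by linear_combination (hy : y ^ 2 = β))
    have hε : ∀ T : κ, T ^ 2 + T - β / α ^ 2 ≠ 0 := by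
      intro T hT
      apply h (α * T)
      field_simp at hT
      linear_combination hT
    obtain ⟨T, hT⟩ := locGood0_add_mem h2 hδ hε
    have hT' : (α * T) ^ 2 + α * (α * T) = δ * α ^ 2 + β := by
      field_simp at hT
      linear_combination hT
    refine ⟨α * T, α * T + α, fun hh => hα (by linear_combination -hh), ?_, ?_⟩
    · linear_combination hT' - 2 * δ * β * h2
    · linear_combination hT' + (α ^ 2 * T + α ^ 2 - 2 * δ * β) * h2
  · have := Fintype.ofFinite κ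
    have h1 : ¬IsSquare (1 + 4 * δ) := by
      have := locGood0_nonsq h2 (α := 1) (β := δ) (fun y => by simpa using hδ y)
      simpa using this
    have h3 := locGood0_nonsq h2 h
    have hne : (1 + 4 * δ) * (α ^ 2 + 4 * β) ≠ 0 :=
      mul_ne_zero (fun h0 => h1 (h0 ▸ IsSquare.zero)) (fun h0 => h3 (h0 ▸ IsSquare.zero))
    have hsq : IsSquare ((1 + 4 * δ) * (α ^ 2 + 4 * β)) := by
      rw [← quadraticChar_one_iff_isSquare hne, map_mul,
        quadraticChar_neg_one_iff_not_isSquare.2 h1, quadraticChar_neg_one_iff_not_isSquare.2 h3]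
      norm_num
    obtain ⟨s, hs⟩ := hsq
    have hs0 : s ≠ 0 := by
      rintro rfl
      exact hne (by simpa using hs)
    refine ⟨(s - α) / 2, (-s - α) / 2, fun hh => ?_, ?_, ?_⟩
    · field_simp at hh
      exact mul_ne_zero h2 hs0 (by linear_combination hh)
    · field_simp
      linear_combination -hs
    · field_simp
      linear_combination -hs

lemma one_add_four_ne_zero {δ : κ} (hδ : ∀ T : κ, T ^ 2 + T - δ ≠ 0) : 1 + 4 * δ ≠ 0 := by
  intro h
  have h2 : (2 : κ) ≠ 0 := fun h2 => one_ne_zero (α := κ) (by linear_combination h - 2 * δ * h2)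
  apply hδ (-1 / 2)
  field_simp
  linear_combination -h

/-- `D Q` is injective -/
theorem nSm_le_card_point [Finite κ] {f : Model κ} (hΔ : f.jac.Δ ≠ 0) :
    nSm f ≤ Nat.card f.jac.toAffine.Point := by
  have := finite_point f.jac
  unfold nSm
  rcases isEmpty_or_nonempty {p : Option κ × κ // f.On (npt p) ∧ f.Smooth (npt p)} with hE | ⟨⟨p₀⟩⟩
  · simp
  have hz : (⟨f, 1⟩ : Obj κ).Over f.jac := (one_smul _ _).symm
  refine Nat.card_le_card_of_injective (fun p => D f.jac ⟨f, 1⟩ (npt p₀.1) (npt p.1)) ?_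
  intro p p' hpp
  exact Subtype.ext (npt_inj (D_injective hΔ hz p₀.2.1 p.2.1 p'.2.1 hpp))

lemma locGood0_card_le [Finite κ] {f : Model κ} {W : WeierstrassCurve κ}
    (back : Option κ × κ → Option (κ × κ))
    (h : ∀ P : W.toAffine.Point, ∃ p, (f.On (npt p) ∧ f.Smooth (npt p)) ∧ back p = toRaw P) :
    Nat.card W.toAffine.Point ≤ nSm f := by
  choose s hs hb using h
  unfold nSm
  refine Nat.card_le_card_of_injective
    (fun P => (⟨s P, hs P⟩ : {p : Option κ × κ // f.On (npt p) ∧ f.Smooth (npt p)})) ?_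
  intro P P' hPP
  apply toRaw_injective
  rw [← hb, ← hb, show s P = s P' from congrArg Subtype.val hPP]

lemma locGood0_case_l_zero [Finite κ] {f : Model κ} (ha : f.a = 0) (hl : f.l = 0)
    (hb : f.b ≠ 0) : Nat.card f.jac.toAffine.Point ≤ nSm f := by
  refine locGood0_card_le (fun p => p.1.map fun x => (f.b * x, f.b * p.2)) ?_
  rintro (_ | ⟨X, Y, hP⟩)
  · exact ⟨(none, 0), ⟨Model.on_std.2 ha, (Model.smooth_std ha).2 (Or.inr hb)⟩, rfl⟩
  · obtain ⟨hE, hN⟩ := (Affine.nonsingular_iff' _ _).1 hP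
    rw [Affine.equation_iff'] at hE
    simp only [Model.jac, ha, hl] at hE hN
    obtain ⟨x, rfl⟩ : ∃ x, X = f.b * x := ⟨X / f.b, by field_simp⟩
    obtain ⟨y, rfl⟩ : ∃ y, Y = f.b * y := ⟨Y / f.b, by field_simp⟩
    refine ⟨(some x, y), ⟨⟨Or.inr one_ne_zero, ?_⟩, ?_⟩, rfl⟩
    · apply mul_left_cancel₀ (pow_ne_zero 2 hb)
      simp only [npt, Model.F, Model.q, Model.g, ha, hl]
      linear_combination hE
    · by_contra hcon
      simp only [Model.Smooth, not_or, not_not, npt, Model.psi, Model.Fx, Model.q, ha, hl] at hcon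
      obtain ⟨h1, h2, -⟩ := hcon
      rcases hN with hN | hN
      · exact hN (by linear_combination f.b * h2)
      · exact hN (by linear_combination f.b * h1)

lemma locGood0_case_l_one [Finite κ] {f : Model κ} (ha : f.a = 0) (hl : f.l = 1)
    (hb : f.b = 0) (hc : f.c = 0) : Nat.card f.jac.toAffine.Point ≤ nSm f := by
  refine locGood0_card_le (fun p => match p with
    | (none, y) => if y = 0 then none else some (0, -f.d)
    | (some x, y) => some (y + f.q x 1, x * (y + f.q x 1))) ?_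
  rintro (_ | ⟨X, Y, hP⟩)
  · refine ⟨(none, 0), ⟨Model.on_std.2 ha, (Model.smooth_std ha).2 (Or.inl ?_)⟩, if_pos rfl⟩
    rw [hl]
    exact one_ne_zero
  · obtain ⟨hE, hN⟩ := (Affine.nonsingular_iff' _ _).1 hP
    rw [Affine.equation_iff'] at hE
    simp only [Model.jac, ha, hl, hb, hc] at hE hN
    by_cases hX : X = 0
    · subst hX
      by_cases hY : Y = -f.d
      · subst hY
        refine ⟨(none, -1), ⟨⟨Or.inl one_ne_zero, ?_⟩, Or.inl ?_⟩,
          if_neg (neg_ne_zero.2 one_ne_zero)⟩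
        · simp only [npt, Model.F, Model.q, Model.g, ha, hl]
          ring
        · simp only [npt, Model.psi, Model.q, hl]
          intro h
          exact one_ne_zero (α := κ) (by linear_combination -h)
      · have hY0 : Y = 0 := by
          have : Y * (Y + f.d) = 0 := by linear_combination hE
          rcases mul_eq_zero.1 this with h | h
          · exact h
          · exact absurd (by linear_combination h) hY
        subst hY0
        have hd : f.d ≠ 0 := fun h => hY (by rw [h, neg_zero])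
        obtain ⟨x, hx⟩ : ∃ x, f.d * x + f.e = 0 := ⟨-f.e / f.d, by field_simp; ring⟩
        refine ⟨(some x, -f.q x 1), ⟨⟨Or.inr one_ne_zero, ?_⟩, ?_⟩, by simp⟩
        · simp only [npt, Model.F, Model.g, ha, hb, hc]
          linear_combination -hx
        · by_contra hcon
          simp only [Model.Smooth, not_or, not_not, npt, Model.psi, Model.Fx, ha, hb, hc] at hcon
          obtain ⟨h1, h2, -⟩ := hcon
          exact hd (by linear_combination (2 * f.l * x + f.m) * h1 - h2)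
    · obtain ⟨x, rfl⟩ : ∃ x, Y = x * X := ⟨Y / X, by field_simp⟩
      have hH : X ^ 2 - X * (x ^ 2 + f.m * x + f.n) - f.d * x - f.e = 0 := by
        apply mul_left_cancel₀ hX
        linear_combination -hE
      refine ⟨(some x, X - f.q x 1), ⟨⟨Or.inr one_ne_zero, ?_⟩, ?_⟩, by simp⟩
      · simp only [npt, Model.F, Model.q, Model.g, ha, hl, hb, hc]
        linear_combination hH
      · by_contra hcon
        simp only [Model.Smooth, not_or, not_not, npt, Model.psi, Model.Fx, Model.q, ha, hl, hb,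
          hc] at hcon
        obtain ⟨h1, h2, -⟩ := hcon
        rcases hN with hN | hN
        · exact hN (by linear_combination -hH - X * h1 - x * ((2 * x + f.m) * h1 - h2))
        · exact hN (by linear_combination (2 * x + f.m) * h1 - h2)

lemma locGood0_reduce [Finite κ] (g : G κ) {f : Model κ}
    (h : Nat.card (g • f).jac.toAffine.Point ≤ nSm (g • f)) :
    Nat.card f.jac.toAffine.Point ≤ nSm f := by
  rwa [nSm_smul, G.jac_smul, card_point_smul] at h

lemma locGood0_case_std [Finite κ] {f : Model κ} (ha : f.a = 0) (hs : f.l ≠ 0 ∨ f.b ≠ 0) :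
    Nat.card f.jac.toAffine.Point ≤ nSm f := by
  by_cases hl : f.l = 0
  · exact locGood0_case_l_zero ha hl (hs.resolve_left (not_not.2 hl))
  · obtain ⟨r1, h1⟩ : ∃ r1, f.l * r1 = f.b := ⟨f.b / f.l, by field_simp⟩
    obtain ⟨r2, h2⟩ : ∃ r2, f.l * r2 = f.c - f.m * r1 - r1 ^ 2 :=
      ⟨(f.c - f.m * r1 - r1 ^ 2) / f.l, by field_simp⟩
    let g : G κ := ⟨1, Units.mk0 f.l hl, 0, r1, r2⟩
    have hg : g • f = (f.shift 0 r1 r2).scale f.l⁻¹ := by
      rw [G.smul_def, G.m11_of_M_one rfl, G.m12_of_M_one rfl, G.m21_of_M_one rfl,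
        G.m22_of_M_one rfl, Model.subst_one]
      simp [g]
    refine locGood0_reduce g (locGood0_case_l_one ?_ ?_ ?_ ?_) <;>
      simp only [hg, Model.scale, Model.shift]
    · rw [ha]
      ring
    · field_simp
      ring
    · linear_combination -f.l⁻¹ ^ 2 * h1
    · linear_combination -f.l⁻¹ ^ 2 * h2

/-- No assumption on `Δ`.  Move the smooth point to the standard point (`nSm_smul`,
`G.jac_smul`, `card_point_smul`).  If `l ≠ 0` shift and scale to `l = 1`, `a = b = c = 0`, where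
`jac f = (m, -n, d, -e, 0)`; send `0` to `(1, 0, 0)`, `(X, Y)` with `X ≠ 0` to
`(x, 1, X - q(x, 1))` with `x = Y / X`, `(0, -d)` to `(1, 0, -1)`, and `(0, 0)` (if `d ≠ 0`) to
`(-e / d, 1, -q)`.  If `l = 0` scale to `b = 1` and send `(X, Y)` to `(X, 1, Y)`. -/
theorem card_point_le_nSm [Finite κ] {f : Model κ} {Q : Pt κ} (hQ : f.On Q) (hs : f.Smooth Q) :
    Nat.card f.jac.toAffine.Point ≤ nSm f := by
  have h1 : (mover Q • f).On Pt.std := by
    rw [← Model.on_pt, mover_pt hQ.prim]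
    exact hQ
  have h2 : (mover Q • f).Smooth Pt.std := by
    rw [← Model.smooth_pt, mover_pt hQ.prim]
    exact hs
  have ha := Model.on_std.1 h1
  exact locGood0_reduce (mover Q) (locGood0_case_std ha ((Model.smooth_std ha).1 h2))

end FiniteField

end SelAvg

/-!
Discriminant of valuation at most one.
-/

namespace SelAvg

open WeierstrassCurve WithZero
open scoped Classical

namespace LocalField

variable {L : Type*} [Field L] {V : LocalField L} {κ : Type*} [Field κ] {red : V.O →+* κ}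

lemma locGood_red_eq_zero (hred : V.IsRed red 1) (x : V.O) : red x = 0 ↔ V.unif ∣ x := by
  rw [hred.ker, V.le_exp_iff_dvd, pow_one]

lemma locGood_ne_zero {x : V.O} (h : ¬V.unif ^ 2 ∣ x) : x ≠ 0 := by
  rintro rfl
  exact h (dvd_zero _)

lemma locGood_map_wF {R S : Type*} [CommRing R] [CommRing S] (φ : R →+* S)
    (W : WeierstrassCurve R) (x y : R) : wF (W.map φ) (φ x) (φ y) = φ (wF W x y) := by
  simp [wF]

lemma locGood_map_dX {R S : Type*} [CommRing R] [CommRing S] (φ : R →+* S)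
    (W : WeierstrassCurve R) (x y : R) : dX (W.map φ) (φ x) (φ y) = φ (dX W x y) := by
  simp [dX, map_ofNat]

lemma locGood_map_dY {R S : Type*} [CommRing R] [CommRing S] (φ : R →+* S)
    (W : WeierstrassCurve R) (x y : R) : dY (W.map φ) (φ x) (φ y) = φ (dY W x y) := by
  simp [dY, map_ofNat]

lemma locGood_nonsingular_iff (W : WeierstrassCurve V.O) (x y : V.O) :
    (W.map red).toAffine.Nonsingular (red x) (red y) ↔
      red (wF W x y) = 0 ∧ (red (dX W x y) ≠ 0 ∨ red (dY W x y) ≠ 0) := by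
  rw [Affine.nonsingular_iff', equation_iff_wF, ← locGood_map_wF, ← locGood_map_dX,
    ← locGood_map_dY]
  rfl

lemma locGood_grad (hred : V.IsRed red 1) {W : WeierstrassCurve V.O} (hΔ : ¬V.unif ^ 2 ∣ W.Δ)
    {x y : V.O} (h : wF W x y = 0) : red (dX W x y) ≠ 0 ∨ red (dY W x y) ≠ 0 := by
  by_contra hcon
  rw [not_or, not_not, not_not, locGood_red_eq_zero hred, locGood_red_eq_zero hred] at hcon
  exact hΔ (sq_dvd_Delta W hcon.1 hcon.2 (h ▸ dvd_zero _))

lemma locGood_max_eq_one (hred : V.IsRed red 1) {s t : V.O} (h : red s ≠ 0 ∨ red t ≠ 0) :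
    max (V.v (s : L)) (V.v (t : L)) = 1 := by
  refine le_antisymm (max_le (V.v_le_one _) (V.v_le_one _)) ?_
  rcases h with h | h
  · exact le_max_of_le_left ((V.isUnit_iff _).1 ((hred.isUnit_iff _).2 h)).ge
  · exact le_max_of_le_right ((V.isUnit_iff _).1 ((hred.isUnit_iff _).2 h)).ge

lemma locGood_red_eq_iff (hred : V.IsRed red 1) (x y : V.O) :
    red x = red y ↔ V.v ((x : L) - y) < 1 := by
  rw [← sub_eq_zero, ← map_sub, hred.red_eq_zero]
  rfl

lemma locGood_not_mem {W : WeierstrassCurve V.O} (hW : W.Δ ≠ 0)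
    {P : (W.map V.incl).toAffine.Point} {x y : V.O} (hP : toRaw P = some ((x : L), (y : L))) :
    P ∉ V.E1 W := by
  rw [mem_E1 hW]
  intro h
  exact absurd (h _ _ hP) (not_lt.2 (V.v_le_one x))

variable (red) in
/-- `p` is the reduction of `P` -/
def locGood_Rel (W : WeierstrassCurve V.O) (P : (W.map V.incl).toAffine.Point)
    (p : (W.map red).toAffine.Point) : Prop :=
  (P ∈ V.E1 W ∧ p = 0) ∨ ∃ x y : V.O, toRaw P = some ((x : L), (y : L)) ∧ wF W x y = 0 ∧
    toRaw p = some (red x, red y)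

lemma locGood_rel_exists (hred : V.IsRed red 1) {W : WeierstrassCurve V.O}
    (hΔ : ¬V.unif ^ 2 ∣ W.Δ) (P : (W.map V.incl).toAffine.Point) :
    ∃ p, locGood_Rel red W P p := by
  by_cases hP : P ∈ V.E1 W
  · exact ⟨0, Or.inl ⟨hP, rfl⟩⟩
  · obtain ⟨x, y, h1, h2⟩ := exists_coords_of_not_mem_E1 (locGood_ne_zero hΔ) hP
    have hn : (W.map red).toAffine.Nonsingular (red x) (red y) :=
      (locGood_nonsingular_iff W x y).2 ⟨by rw [h2, map_zero], locGood_grad hred hΔ h2⟩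
    exact ⟨.some _ _ hn, Or.inr ⟨x, y, h1, h2, rfl⟩⟩

lemma locGood_rel_surj (hred : V.IsRed red 1) {W : WeierstrassCurve V.O}
    (hΔ : ¬V.unif ^ 2 ∣ W.Δ) (p : (W.map red).toAffine.Point) :
    ∃ P, locGood_Rel red W P p := by
  rcases p with _ | ⟨a, b, hn⟩
  · exact ⟨0, Or.inl ⟨zero_mem _, rfl⟩⟩
  · obtain ⟨x₀, rfl⟩ := hred.surj a
    obtain ⟨y₀, rfl⟩ := hred.surj b
    obtain ⟨h1, h2⟩ := (locGood_nonsingular_iff W x₀ y₀).1 hn
    obtain ⟨x, y, hF, hx, hy⟩ := hensel_wF W (x₀ := x₀) (y₀ := y₀) (e := 0)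
      (by simpa using locGood_max_eq_one hred h2) (by simpa using (hred.red_eq_zero _).1 h1)
    have hW : (W.map V.incl).Δ ≠ 0 := by
      rw [map_Δ]
      exact fun h => locGood_ne_zero hΔ (V.incl_injective (by rw [h, map_zero]))
    have hv : Valid (W.map V.incl) (some (V.incl x, V.incl y)) := by
      rw [valid_some, equation_iff_wF, locGood_map_wF, hF, map_zero]
    refine ⟨ofRaw _ (some (V.incl x, V.incl y)), Or.inr ⟨x, y, toRaw_ofRaw hW hv, hF, ?_⟩⟩
    rw [(locGood_red_eq_iff hred x x₀).2 (by simpa using hx),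
      (locGood_red_eq_iff hred y y₀).2 (by simpa using hy)]
    rfl

lemma locGood_rel_iff (hred : V.IsRed red 1) {W : WeierstrassCurve V.O}
    (hΔ : ¬V.unif ^ 2 ∣ W.Δ) {P P' : (W.map V.incl).toAffine.Point}
    {p p' : (W.map red).toAffine.Point} (h : locGood_Rel red W P p)
    (h' : locGood_Rel red W P' p') : P' - P ∈ V.E1 W ↔ p = p' := by
  have hW := locGood_ne_zero hΔ
  rcases h with ⟨h1, rfl⟩ | ⟨x, y, h1, h2, h3⟩ <;>
    rcases h' with ⟨h1', rfl⟩ | ⟨x', y', h1', h2', h3'⟩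
  · exact iff_of_true (sub_mem h1' h1) rfl
  · refine iff_of_false (fun h => locGood_not_mem hW h1' ?_) ?_
    · simpa using add_mem h h1
    · rintro rfl
      exact absurd h3' (by simp)
  · refine iff_of_false (fun h => locGood_not_mem hW h1 ?_) ?_
    · simpa using sub_mem h1' h
    · rintro rfl
      exact absurd h3 (by simp)
  · rw [coset_integral hW h1, locGood_max_eq_one hred (locGood_grad hred hΔ h2),
      ← toRaw_injective.eq_iff, h3, h3']
    constructor
    · rintro ⟨x'', y'', e, hx, hy⟩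
      rw [h1', Option.some.injEq, Prod.mk.injEq] at e
      rw [← e.1] at hx
      rw [← e.2] at hy
      rw [(locGood_red_eq_iff hred _ _).2 hx, (locGood_red_eq_iff hred _ _).2 hy]
    · intro e
      rw [Option.some.injEq, Prod.mk.injEq] at e
      exact ⟨x', y', h1', (locGood_red_eq_iff hred _ _).1 e.1.symm,
        (locGood_red_eq_iff hred _ _).1 e.2.symm⟩

/-- Every integral point has a unit gradient (`sq_dvd_Delta`), so by `coset_integral` the nonzero
cosets correspond to the nonsingular affine points of the reduction (`hensel_wF` with `e = 0`). -/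
theorem Nloc_eq_card_point [Finite κ] (hred : V.IsRed red 1) {W : WeierstrassCurve V.O}
    (hΔ : ¬V.unif ^ 2 ∣ W.Δ) : V.Nloc W = Nat.card (W.map red).toAffine.Point := by
  choose r hr using locGood_rel_exists hred hΔ
  have key : ∀ P P' : (W.map V.incl).toAffine.Point,
      (QuotientAddGroup.mk P : _ ⧸ V.E1 W) = QuotientAddGroup.mk P' ↔ r P = r P' := by
    intro P P'
    rw [QuotientAddGroup.eq, neg_add_eq_sub]
    exact locGood_rel_iff hred hΔ (hr P) (hr P')
  refine Nat.card_eq_of_bijective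
    (fun c : (W.map V.incl).toAffine.Point ⧸ V.E1 W => r c.out) ⟨?_, ?_⟩
  · intro c c' h
    have := (key _ _).2 h
    rwa [QuotientAddGroup.out_eq', QuotientAddGroup.out_eq'] at this
  · intro p
    obtain ⟨P, hP⟩ := locGood_rel_surj hred hΔ p
    refine ⟨QuotientAddGroup.mk P, ?_⟩
    have h1 : r P = p := (locGood_rel_iff hred hΔ (hr P) hP).1 (by simp)
    rw [← h1]
    exact (key _ _).1 (QuotientAddGroup.out_eq' _)

/-- Lift the two points, move them to `(1, 0, ·)`, `(0, 1, ·)` by an integral element with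
`r = (y, 0, y')` and apply `Model.sq_dvd_Delta`. -/
theorem sq_dvd_of_two_sing (hred : V.IsRed red 1) (f : Model V.O) {Q Q' : Pt κ}
    (hQ : (f.map red).On Q) (hs : ¬(f.map red).Smooth Q) (hQ' : (f.map red).On Q')
    (hs' : ¬(f.map red).Smooth Q') (hd : Q.delta Q' ≠ 0) : V.unif ^ 2 ∣ f.jac.Δ := by
  obtain ⟨x₁, z₁, y₁⟩ := Q
  obtain ⟨x₂, z₂, y₂⟩ := Q'
  obtain ⟨x, rfl⟩ := hred.surj x₁
  obtain ⟨z, rfl⟩ := hred.surj z₁
  obtain ⟨y, rfl⟩ := hred.surj y₁
  obtain ⟨x', rfl⟩ := hred.surj x₂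
  obtain ⟨z', rfl⟩ := hred.surj z₂
  obtain ⟨y', rfl⟩ := hred.surj y₂
  have hu : IsUnit (Matrix.det !![x, z; x', z']) := by
    rw [hred.isUnit_iff, Matrix.det_fin_two_of, map_sub, map_mul, map_mul]
    intro h
    exact hd (by simp only [Pt.delta]; linear_combination h)
  let g : G V.O := ⟨Matrix.GeneralLinearGroup.mk'' _ hu, 1, y, 0, y'⟩
  have e11 : g.m11 = x := rfl
  have e12 : g.m12 = z := rfl
  have e21 : g.m21 = x' := rfl
  have e22 : g.m22 = z' := rfl
  have er0 : g.r0 = y := rfl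
  have er2 : g.r2 = y' := rfl
  have p1 : (G.map red g).pt ⟨1, 0, 0⟩ = ⟨red x, red z, red y⟩ := by
    ext <;> simp [G.pt, e11, e12, er0]
  have p2 : (G.map red g).pt ⟨0, 1, 0⟩ = ⟨red x', red z', red y'⟩ := by
    ext <;> simp [G.pt, e21, e22, er2]
  rw [← p1, Model.on_pt, ← G.map_smul] at hQ
  rw [← p1, Model.smooth_pt, ← G.map_smul] at hs
  rw [← p2, Model.on_pt, ← G.map_smul] at hQ'
  rw [← p2, Model.smooth_pt, ← G.map_smul] at hs'
  have hdvd : V.unif ^ 2 ∣ (g • f).jac.Δ := by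
    generalize g • f = f₁ at hQ hs hQ' hs'
    have ha := hQ.eq
    have he := hQ'.eq
    simp only [Model.Smooth, not_or, not_not] at hs hs'
    obtain ⟨hl, -, hb⟩ := hs
    obtain ⟨hn, hd', -⟩ := hs'
    simp only [Model.F, Model.psi, Model.Fx, Model.Fz, Model.q, Model.g, Model.map_l, Model.map_m,
      Model.map_n, Model.map_a, Model.map_b, Model.map_c, Model.map_d, Model.map_e]
      at ha he hl hb hn hd'
    refine Model.sq_dvd_Delta f₁ ?_ ?_ ?_ ?_ ?_ ?_ <;> rw [← locGood_red_eq_zero hred]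
    · linear_combination hl
    · linear_combination hn
    · linear_combination -ha
    · linear_combination -hb
    · linear_combination -hd'
    · linear_combination -he
  rw [G.jac_smul, variableChange_Δ, ← Units.val_pow_eq_pow_val] at hdvd
  exact (Units.dvd_mul_left).1 hdvd

/-- every fibre without a point carries two smooth points of the twist -/
lemma locGood_two_le [Finite κ] {δ : κ} (hδ : ∀ T : κ, T ^ 2 + T - δ ≠ 0) (f : Model κ)
    {ι : Type*} (o : ι → Option κ) (ho : Function.Injective o)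
    (h : ∀ i y, ¬f.On (npt (o i, y))) : Nat.card ι * 2 ≤ nSm (f.twist δ) := by
  have hx : ∀ (a : Option κ) (y : κ), (npt (a, y)).x = (npt (a, 0)).x := by
    rintro (_ | a) y <;> rfl
  have hz : ∀ (a : Option κ) (y : κ), (npt (a, y)).z = (npt (a, 0)).z := by
    rintro (_ | a) y <;> rfl
  have hy : ∀ (a : Option κ) (y : κ), (npt (a, y)).y = y := by
    rintro (_ | a) y <;> rfl
  have key : ∀ i, ∃ s : Bool → κ, Function.Injective s ∧
      ∀ b, (f.twist δ).On (npt (o i, s b)) ∧ (f.twist δ).Smooth (npt (o i, s b)) := by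
    intro i
    obtain ⟨y, y', hne, h1, h2⟩ := twist_splits hδ
      (α := f.q (npt (o i, 0)).x (npt (o i, 0)).z) (β := f.g (npt (o i, 0)).x (npt (o i, 0)).z)
      (fun y hy0 => h i y ⟨npt_prim _, by rw [Model.F, hx, hz, hy]; exact hy0⟩)
    have hsum : y + y' + f.q (npt (o i, 0)).x (npt (o i, 0)).z = 0 := by
      apply mul_left_cancel₀ (sub_ne_zero.2 hne)
      linear_combination h1 - h2
    refine ⟨fun b => cond b y y', ?_, ?_⟩
    · rintro (_ | _) (_ | _) hb
      · rfl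
      · exact absurd hb.symm hne
      · exact absurd hb hne
      · rfl
    · rintro (_ | _)
      · refine ⟨⟨npt_prim _, ?_⟩, Or.inl ?_⟩
        · rw [Model.F, hx, hz, hy, Model.twist_q, Model.twist_g]
          exact h2
        · rw [Model.psi, hx, hz, hy, Model.twist_q]
          intro h0
          change 2 * y' + _ = 0 at h0
          exact hne (by linear_combination hsum - h0)
      · refine ⟨⟨npt_prim _, ?_⟩, Or.inl ?_⟩
        · rw [Model.F, hx, hz, hy, Model.twist_q, Model.twist_g]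
          exact h1
        · rw [Model.psi, hx, hz, hy, Model.twist_q]
          intro h0
          change 2 * y + _ = 0 at h0
          exact hne (by linear_combination h0 - hsum)
  choose s hs hon using key
  have hc : Nat.card ι * 2 = Nat.card (ι × Bool) := by simp
  rw [hc]
  unfold nSm
  refine Nat.card_le_card_of_injective
    (fun p : ι × Bool => (⟨(o p.1, s p.1 p.2), hon p.1 p.2⟩ :
      {p : Option κ × κ // (f.twist δ).On (npt p) ∧ (f.twist δ).Smooth (npt p)})) ?_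
  rintro ⟨i, b⟩ ⟨j, c⟩ hij
  have e := congrArg Subtype.val hij
  simp only [Prod.mk.injEq] at e
  obtain rfl : i = j := ho e.1
  rw [hs i e.2]

/-- Suppose there is no smooth point.  Let `f'` be the twist by a lift of `δ`.  Every fibre
without a point of `f` carries two smooth points of `f'` (`psi ≠ 0`).  At most one fibre has a
point.  If none has, `nSm f' ≥ 2 q + 2`; if one has, `nSm f' ≥ 2 q` and (moving the singular point
to the standard point, `twist_smul`) `card_point_le_of_sing` applies.  Both contradict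
`nSm f' ≤ Nloc (jac f') = card of points` (`nSm_le_Nloc`, `Nloc_eq_card_point`,
`card_point_le`). -/
theorem exists_smooth_point [Finite κ] (hred : V.IsRed red 1) {f : Model V.O}
    (hΔ : ¬V.unif ^ 2 ∣ f.jac.Δ) : ∃ Q, (f.map red).On Q ∧ (f.map red).Smooth Q := by
  by_contra hcon
  have hns : ∀ Q, (f.map red).On Q → ¬(f.map red).Smooth Q := fun Q h1 h2 => hcon ⟨Q, h1, h2⟩
  obtain ⟨δ₀, hδ⟩ := exists_nonsplit (κ := κ)
  obtain ⟨δ, rfl⟩ := hred.surj δ₀
  have hu : IsUnit (1 + 4 * δ) := by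
    rw [hred.isUnit_iff, map_add, map_mul, map_one, map_ofNat]
    exact one_add_four_ne_zero hδ
  have hΔ' : ¬V.unif ^ 2 ∣ (f.twist δ).jac.Δ := by
    rw [Model.twist_Delta, (hu.pow 6).dvd_mul_left]
    exact hΔ
  have hle : nSm ((f.map red).twist (red δ)) ≤
      Nat.card ((f.map red).twist (red δ)).jac.toAffine.Point := by
    rw [← Model.twist_map, Model.jac_map, ← Nloc_eq_card_point hred hΔ']
    exact nSm_le_Nloc hred (locGood_ne_zero hΔ')
  by_cases hex : ∃ Q, (f.map red).On Q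
  · obtain ⟨Q, hQ⟩ := hex
    have hm := mover_pt hQ.prim
    have h1 : (mover Q • f.map red).On Pt.std := by
      rw [← Model.on_pt, hm]
      exact hQ
    have h2 : ¬(mover Q • f.map red).Smooth Pt.std := by
      rw [← Model.smooth_pt, hm]
      exact hns Q hQ
    have ha := Model.on_std.1 h1
    rw [Model.smooth_std ha, not_or, not_not, not_not] at h2
    obtain ⟨hl, hb⟩ := h2
    have h3 := locGood_two_le hδ (mover Q • f.map red) (some : κ → Option κ)
      (Option.some_injective κ) (fun x y hon => by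
        rw [← Model.on_pt] at hon
        refine hΔ (sq_dvd_of_two_sing hred f hQ (hns Q hQ) hon (hns _ hon) ?_)
        have hd := Pt.delta_pt (mover Q) Pt.std (npt (some x, y))
        rw [hm] at hd
        rw [hd]
        simp [Pt.delta, npt])
    have h4 := card_point_le_of_sing (W := ((mover Q • f.map red).twist (red δ)).jac)
      (by simp [Model.jac, Model.twist, hl, hb]) (by simp [Model.jac, Model.twist, ha, hl, hb])
      (by simp [Model.jac, Model.twist, ha, hl, hb])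
    rw [Model.twist_smul, nSm_smul] at h3
    rw [Model.twist_smul, G.jac_smul, card_point_smul] at h4
    omega
  · have h3 := locGood_two_le hδ (f.map red) (id : Option κ → Option κ) Function.injective_id
      (fun x y hon => hex ⟨_, hon⟩)
    have h4 := card_point_le ((f.map red).twist (red δ)).jac
    rw [Finite.card_option] at h3
    omega

theorem phiL_eq_one [Finite κ] (hred : V.IsRed red 1) {f : Model V.O}
    (hΔ : ¬V.unif ^ 2 ∣ f.jac.Δ) : V.phiL red f = 1 := by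
  obtain ⟨Q, hQ, hs⟩ := exists_smooth_point hred hΔ
  have h1 := card_point_le_nSm hQ hs
  rw [Model.jac_map, ← Nloc_eq_card_point hred hΔ] at h1
  have h2 := nSm_le_Nloc hred (locGood_ne_zero hΔ)
  have h3 := Nloc_pos hred (locGood_ne_zero hΔ)
  unfold phiL
  rw [le_antisymm h2 h1]
  exact div_self (by exact_mod_cast h3.ne')

end LocalField

end SelAvg

/-!
Normalising local representatives; the local weights sum to one.
-/

namespace SelAvg

open WeierstrassCurve WithZero Matrix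
open scoped Classical

namespace LocalField

variable {L : Type*} [Field L] {V : LocalField L}

/-- If `M = t H p.g.M` take `g₁ = scalar t * map (ofM H) * p.g`, which maps `z₀` to
`(ofM H • p.z).map incl`.  By `G.Gam_u`, `g₁.μ * (det M)⁻¹ * z₀.γ.u` is a unit of `O`, so
`g₁.μ = ε μ` with a unit `ε` of `O`; multiply on the left by `ofMu ε⁻¹`. -/
theorem LocRep.exists_norm {z₀ : Obj L} (p : V.LocRep z₀) {M : GL (Fin 2) L}
    (hM : V.MEq p.g.M M) {μ : Lˣ}
    (hμ : V.v ((μ * (GeneralLinearGroup.det M)⁻¹ * z₀.γ.u : Lˣ) : L) = 1) :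
    ∃ p' : V.LocRep z₀, p'.g.M = M ∧ p'.g.μ = μ := by
  obtain ⟨t, H, hM⟩ := hM
  obtain ⟨g, z, h1, h2⟩ : ∃ (g : G L) (z : Obj V.O), g.M = M ∧ g • z₀ = z.map V.incl :=
    ⟨G.scalar t * G.map V.incl (G.ofM H) * p.g, G.ofM H • p.z, hM.symm, by
      rw [mul_smul, mul_smul, Obj.scalar_smul, p.eq, Obj.map_smul]⟩
  have hu : g.μ * (GeneralLinearGroup.det M)⁻¹ * z₀.γ.u = Units.map V.incl z.γ.u := by
    have h3 := congrArg (fun z : Obj L => z.γ.u) h2
    rw [← h1]
    simpa [VariableChange.mul_def, G.Gam_u, VariableChange.map, G.det] using h3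
  obtain ⟨ε, hε⟩ := (V.isUnit_iff ⟨_, (Valuation.mem_valuationSubring_iff _ _).2 hμ.le⟩).2 hμ
  have h4 : Units.map V.incl ε = μ * (GeneralLinearGroup.det M)⁻¹ * z₀.γ.u :=
    Units.ext (congrArg Subtype.val hε)
  refine ⟨⟨G.map V.incl (G.ofMu (ε * z.γ.u⁻¹)) * g, G.ofMu (ε * z.γ.u⁻¹) • z, by
    rw [mul_smul, h2, Obj.map_smul]⟩, by simp [h1], ?_⟩
  show Units.map V.incl (ε * z.γ.u⁻¹) * g.μ = μ
  rw [map_mul, map_inv, h4, ← hu]
  group

/-- two group elements with the same matrix and the same `μ` differ by a shift -/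
lemma eq_ofShift_mul {g h : G L} (hM : g.M = h.M) (hμ : g.μ = h.μ) :
    g = G.ofShift ((g.r0 - h.r0) / h.μ) ((g.r1 - h.r1) / h.μ) ((g.r2 - h.r2) / h.μ) * h := by
  have h0 := h.μ.ne_zero
  refine G.ext (by simp [hM]) (by simp [hμ]) ?_ ?_ ?_
  · simp [G.mul_r0, mul_div_cancel₀ _ h0]
  · simp [G.mul_r1, mul_div_cancel₀ _ h0]
  · simp [G.mul_r2, mul_div_cancel₀ _ h0]

theorem LocRep.exists_integral {z₀ : Obj L} (p : V.LocRep z₀) {g : G L} (hM : g.M = p.g.M)
    (hμ : g.μ = p.g.μ) (h0 : V.v ((g.r0 - p.g.r0) / p.g.μ) ≤ 1)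
    (h1 : V.v ((g.r1 - p.g.r1) / p.g.μ) ≤ 1) (h2 : V.v ((g.r2 - p.g.r2) / p.g.μ) ≤ 1) :
    ∃ z : Obj V.O, g • z₀ = z.map V.incl := by
  refine ⟨G.ofShift (R := V.O) ⟨_, (Valuation.mem_valuationSubring_iff _ _).2 h0⟩
    ⟨_, (Valuation.mem_valuationSubring_iff _ _).2 h1⟩
    ⟨_, (Valuation.mem_valuationSubring_iff _ _).2 h2⟩ • p.z, ?_⟩
  rw [Obj.map_smul, ← p.eq, ← mul_smul]
  conv_lhs => rw [eq_ofShift_mul hM hμ]
  congr 2
  exact G.ext (by simp) (by simp) rfl rfl rfl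

variable {κ : Type*} [Field κ] {red : V.O →+* κ}

lemma LocRep.jac_Delta {W : WeierstrassCurve V.O} (hW : W.Δ ≠ 0) {z₀ : Obj L}
    (hz : z₀.Over (W.map V.incl)) (p : V.LocRep z₀) : p.z.f.jac.Δ ≠ 0 := by
  rw [show p.z.f.jac = p.z.γ • W from p.over hz, variableChange_Δ]
  exact mul_ne_zero (pow_ne_zero _ (Units.ne_zero _)) hW

/-- `LocRep.over`, `Nloc_smul` -/
lemma LocRep.phiL_eq {W : WeierstrassCurve V.O} (hW : W.Δ ≠ 0) {z₀ : Obj L}
    (hz : z₀.Over (W.map V.incl)) (p : V.LocRep z₀) :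
    V.phiL red p.z.f = (nSm (p.z.f.map red) : ℝ) / V.Nloc W := by
  rw [phiL, show p.z.f.jac = p.z.γ • W from p.over hz, Nloc_smul _ hW]

/-- `equiv_lift`, `phiL_smul` -/
theorem LocRep.phiL_eq_of_mEq {W : WeierstrassCurve V.O} (hW : W.Δ ≠ 0) {z₀ : Obj L}
    (hz : z₀.Over (W.map V.incl)) (p p' : V.LocRep z₀) (h : V.MEq p.g.M p'.g.M) :
    V.phiL red p.z.f = V.phiL red p'.z.f := by
  obtain ⟨-, k, -, e⟩ := equiv_lift p p' h
  rw [e, Obj.smul_f, phiL_smul red k (p.jac_Delta hW hz)]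

theorem sum_phiL_le_one [Finite κ] (hred : V.IsRed red 1) {W : WeierstrassCurve V.O}
    (hW : W.Δ ≠ 0) {z₀ : Obj L} (hz : z₀.Over (W.map V.incl)) {ι : Type*} (s : Finset ι)
    (p : ι → V.LocRep z₀) (hp : ∀ i ∈ s, ∀ j ∈ s, V.MEq (p i).g.M (p j).g.M → i = j) :
    ∑ i ∈ s, V.phiL red (p i).z.f ≤ 1 := by
  have h0 : (0 : ℝ) < V.Nloc W := by exact_mod_cast Nloc_pos hred hW
  simp only [LocRep.phiL_eq hW hz, ← Finset.sum_div]
  rw [div_le_one h0]
  exact_mod_cast sum_nSm_le hred hW hz s p hp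

theorem exists_sum_phiL_ge_one [Finite κ] (hred : V.IsRed red 1) {W : WeierstrassCurve V.O}
    (hW : W.Δ ≠ 0) {z₀ : Obj L} (hz : z₀.Over (W.map V.incl)) (hsol : z₀.f.Soluble) :
    ∃ s : Finset (V.LocRep z₀), (∀ p ∈ s, ∀ p' ∈ s, V.MEq p.g.M p'.g.M → p = p') ∧
      1 ≤ ∑ p ∈ s, V.phiL red p.z.f := by
  have h0 : (0 : ℝ) < V.Nloc W := by exact_mod_cast Nloc_pos hred hW
  obtain ⟨s, h1, h2⟩ := exists_sum_nSm_ge hred hW hz hsol
  refine ⟨s, h1, ?_⟩
  simp only [LocRep.phiL_eq hW hz, ← Finset.sum_div]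
  rw [one_le_div h0]
  exact_mod_cast h2

/-- two representatives of weight one are equivalent (`sum_phiL_le_one` with two indices) -/
theorem mEq_of_phiL_eq_one [Finite κ] (hred : V.IsRed red 1) {W : WeierstrassCurve V.O}
    (hW : W.Δ ≠ 0) {z₀ : Obj L} (hz : z₀.Over (W.map V.incl)) (p p' : V.LocRep z₀)
    (h : V.phiL red p.z.f = 1) (h' : V.phiL red p'.z.f = 1) : V.MEq p.g.M p'.g.M := by
  by_contra hn
  have h1 := sum_phiL_le_one hred hW hz Finset.univ (fun b : Bool => cond b p p') (by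
    rintro (_ | _) - (_ | _) - k
    exacts [rfl, absurd k.symm hn, absurd k hn, rfl])
  rw [Fintype.sum_bool] at h1
  simp only [cond_true, cond_false, h, h'] at h1
  norm_num at h1

end LocalField

end SelAvg
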