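import Mathlib

/-!
Selmer groups (in every characteristic), heights and averages for elliptic curves over a global
function field.
-/

namespace SelStmt

open WeierstrassCurve WithZero
open scoped Classical

universe u

variable {F : Type u} [Field F]

/-- The group `A(L)` of `L`-points of the elliptic curve with Weierstrass equation `W`. -/
abbrev Pts (W : WeierstrassCurve F) (L : Type u) [Field L] [Algebra F L] : Type u :=
  (W.toAffine.baseChange L).Point

/-- The map `A(L) → A(M)` induced by an `F`-algebra map `L → M`. -/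
noncomputable def ptMap (W : WeierstrassCurve F) {L M : Type u} [Field L] [Field M]
    [Algebra F L] [Algebra F M] (φ : L →ₐ[F] M) (P : Pts W L) : Pts W M :=
  Affine.Point.map (W' := W.toAffine) φ P

/-- Continuous 1-cocycles of `Gal(K / F)` with values in the complex `A(K) → A(K)`, `P ↦ n P`
(degrees 0 and 1); used for `K = F^sep`.  Since `A` is smooth and multiplication by `n` is
fppf-surjective with kernel `A[n]`, the first cohomology of this complex is `H^1_fppf(F, A[n])`. -/
structure Cocycle (W : WeierstrassCurve F) (n : ℕ) (K : Type u) [Field K] [Algebra F K] where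
  ξ : (K ≃ₐ[F] K) → Pts W K
  P : Pts W K
  locConst : IsLocallyConstant ξ
  cocycle : ∀ σ τ : K ≃ₐ[F] K, ξ (σ * τ) = ξ σ + ptMap W σ.toAlgHom (ξ τ)
  bdry : ∀ σ : K ≃ₐ[F] K, n • ξ σ = ptMap W σ.toAlgHom P - P

variable {W : WeierstrassCurve F} {n : ℕ} {K : Type u} [Field K] [Algebra F K]

/-- Two cocycles differ by the coboundary `(σ ↦ σ R - R, n R)`. -/
def Cohomologous (c c' : Cocycle W n K) : Prop :=
  ∃ R : Pts W K, (∀ σ : K ≃ₐ[F] K, c'.ξ σ = c.ξ σ + (ptMap W σ.toAlgHom R - R)) ∧
    c'.P = c.P + n • R

/-- The restriction of the cocycle `c` to `M / L` (used for `M = L^sep`), along any embedding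
`ι : K → M`, is cohomologous to a cocycle `(0, S)` with `S ∈ A(L)`, that is, it lies in the image
of the Kummer map `A(L) / n A(L) → H^1(L, A[n])`. -/
def Cocycle.IsKummer (c : Cocycle W n K) (L M : Type u) [Field L] [Field M] [Algebra F L]
    [Algebra F M] [Algebra L M] [IsScalarTower F L M] : Prop :=
  ∀ ι : K →ₐ[F] M, ∃ (S : Pts W L) (R : Pts W M),
    (∀ (σ : M ≃ₐ[L] M) (τ : K ≃ₐ[F] K), (∀ x, σ (ι x) = ι (τ x)) →
      ptMap W ι (c.ξ τ) = ptMap W (σ.toAlgHom.restrictScalars F) R - R) ∧
    ptMap W ι c.P = ptMap W (IsScalarTower.toAlgHom F L M) S + n • R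

/-- `IsKummer` for the extension `L` of `F` given by `f`, and its separable closure. -/
def Cocycle.IsKummerVia (c : Cocycle W n K) {L : Type u} [Field L] (f : F →+* L) : Prop :=
  letI := f.toAlgebra
  c.IsKummer L (SeparableClosure L)

/-- `IsKummer` over the completion of the valued field `E`, a copy (via `e`) of `F`. -/
structure Cocycle.IsKummerCompl (c : Cocycle W n K) {E : Type u} [Field E] [Valued E ℤᵐ⁰]
    (e : E ≃+* F) : Prop where
  out : c.IsKummerVia ((algebraMap E (UniformSpace.Completion E)).comp e.symm.toRingHom)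

/-- The places of a global function field: the normalised discrete valuations
(`v x = exp (-ord x)`). -/
structure Place (F : Type u) [Field F] where
  v : Valuation F ℤᵐ⁰
  surj : Function.Surjective v

/-- The cocycle is in the image of the Kummer map over every completion `F_p` (`WithVal p.v` is
`F` with the topology of `p`). -/
structure Cocycle.IsSelmer (c : Cocycle W n K) : Prop where
  out : ∀ p : Place F, c.IsKummerCompl (WithVal.equiv p.v)

/-- The first cohomology: cocycles modulo coboundaries.  For `K = F^sep` this is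
`H^1_fppf(F, A[n])`. -/
def H1 (W : WeierstrassCurve F) (n : ℕ) (K : Type u) [Field K] [Algebra F K] : Type u :=
  Quot (Cohomologous (W := W) (n := n) (K := K))

/-- The classes of the cocycles satisfying all local conditions. -/
def SelIn (W : WeierstrassCurve F) (n : ℕ) (K : Type u) [Field K] [Algebra F K] :
    Set (H1 W n K) :=
  {x | ∃ c : Cocycle W n K, Quot.mk _ c = x ∧ c.IsSelmer}

/-- The `n`-Selmer group, a subset of `H^1_fppf(F, A[n])`. -/
def Sel (W : WeierstrassCurve F) (n : ℕ) : Set (H1 W n (SeparableClosure F)) :=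
  SelIn W n (SeparableClosure F)

/-- The size of the residue field at `p`. -/
noncomputable def Place.q (p : Place F) : ℕ :=
  Nat.card (IsLocalRing.ResidueField p.v.valuationSubring)

/-- `ord_p x ≥ m`. -/
def Place.OrdGe (p : Place F) (x : F) (m : ℤ) : Prop := p.v x ≤ exp (-m)

/-- `e_p = min_i ⌊ord_p(a_i) / i⌋`, the largest integer `e` with `i e ≤ ord_p(a_i)` for all `i`. -/
noncomputable def Place.e (p : Place F) (W : WeierstrassCurve F) : ℤ :=
  sSup {e : ℤ | p.OrdGe W.a₁ (1 * e) ∧ p.OrdGe W.a₂ (2 * e) ∧ p.OrdGe W.a₃ (3 * e) ∧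
    p.OrdGe W.a₄ (4 * e) ∧ p.OrdGe W.a₆ (6 * e)}

/-- `∏_p q_p^(-12 e_p)` for one Weierstrass model. -/
noncomputable def modelHeight (W : WeierstrassCurve F) : ℝ :=
  ∏ᶠ p : Place F, (p.q : ℝ) ^ (-12 * p.e W)

/-- The height of the curve: the least value of `modelHeight` over all models in characteristic
2 or 3, and over the short models `y^2 = x^3 + a x + b` otherwise. -/
noncomputable def height (W : WeierstrassCurve F) : ℝ :=
  sInf {h : ℝ | ∃ C : VariableChange F,
    (ringChar F = 2 ∨ ringChar F = 3 ∨ ((C • W).a₁ = 0 ∧ (C • W).a₂ = 0 ∧ (C • W).a₃ = 0)) ∧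
      h = modelHeight (C • W)}

/-- The `F`-isomorphism classes of elliptic curves over `F`. -/
def IsoClass (F : Type u) [Field F] : Type u :=
  Quot (fun W W' : {W : WeierstrassCurve F // W.IsElliptic} => ∃ C : VariableChange F, C • W.1 = W'.1)

/-- A Weierstrass equation in the given class. -/
noncomputable def IsoClass.rep (c : IsoClass F) : WeierstrassCurve F := (Quot.out c).1

/-- The isomorphism classes of height at most `X`. -/
def classesLE (F : Type u) [Field F] (X : ℝ) : Set (IsoClass F) := {c | height c.rep ≤ X}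

/-- The `n`-Selmer groups are finite, there are finitely many classes of bounded height, and the
average of `#Sel_n` over the classes ordered by height exists and equals `a`. -/
structure SelmerAverage (F : Type u) [Field F] (n : ℕ) (a : ℝ) : Prop where
  sel_finite : ∀ W : WeierstrassCurve F, W.IsElliptic → (Sel W n).Finite
  classes_finite : ∀ X : ℝ, (classesLE F X).Finite
  average : Filter.Tendsto (fun X : ℝ => (∑ᶠ c ∈ classesLE F X, ((Sel c.rep n).ncard : ℝ)) /
    ((classesLE F X).ncard : ℝ)) Filter.atTop (nhds a)

end SelStmt
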