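import Pool.Agent.H38Sel.Defs
import Pool.Agent.H38Sel.Stmt

/-! The definitions of `Stmt` (used in statements) agree with those of `Defs` (used in proofs). -/

namespace SelAvg

open WeierstrassCurve WithZero
open scoped Classical

universe u

variable {F : Type u} [Field F]

/-- The two types of places. -/
def stmtPlaceEquiv (F : Type u) [Field F] : SelStmt.Place F ≃ Place F where
  toFun p := ⟨p.v, p.surj⟩
  invFun p := ⟨p.1, p.2⟩
  left_inv _ := rfl
  right_inv _ := rfl

/-- The two types of cocycles. -/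
def stmtCocEquiv (W : WeierstrassCurve F) (n : ℕ) :
    SelStmt.Cocycle W n (SeparableClosure F) ≃ Cocycle W n where
  toFun c := ⟨c.ξ, c.P, c.locConst, c.cocycle, c.bdry⟩
  invFun c := ⟨c.ξ, c.P, c.locConst, c.cocycle, c.bdry⟩
  left_inv _ := rfl
  right_inv _ := rfl

/-- The two cohomology sets. -/
def stmtH1Equiv (W : WeierstrassCurve F) (n : ℕ) :
    SelStmt.H1 W n (SeparableClosure F) ≃ H1 W n :=
  Quot.congr (stmtCocEquiv W n) (fun _ _ => Iff.rfl)

theorem stmt_isKummer_iff {W : WeierstrassCurve F} {n : ℕ}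
    (c : SelStmt.Cocycle W n (SeparableClosure F)) (L : Type u) [Field L] [Algebra F L] :
    c.IsKummer L (SeparableClosure L) ↔ (stmtCocEquiv W n c).IsKummer L := Iff.rfl

theorem stmt_isSelmer_iff {W : WeierstrassCurve F} {n : ℕ}
    (c : SelStmt.Cocycle W n (SeparableClosure F)) :
    c.IsSelmer ↔ ∀ v : Place F, (stmtCocEquiv W n c).IsKummer v.Compl := by
  constructor
  · intro h v
    exact (stmt_isKummer_iff c v.Compl).1 (h.out ⟨v.1, v.2⟩).out
  · intro h
    exact ⟨fun p => ⟨(stmt_isKummer_iff c (stmtPlaceEquiv F p).Compl).2 (h (stmtPlaceEquiv F p))⟩⟩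

theorem stmt_sel_image (W : WeierstrassCurve F) (n : ℕ) :
    stmtH1Equiv W n '' SelStmt.Sel W n = Sel W n := by
  ext x
  constructor
  · rintro ⟨y, ⟨c, rfl, hc⟩, rfl⟩
    exact ⟨stmtCocEquiv W n c, rfl, (stmt_isSelmer_iff c).1 hc⟩
  · rintro ⟨c, rfl, hc⟩
    obtain ⟨c, rfl⟩ := (stmtCocEquiv W n).surjective c
    exact ⟨Quot.mk _ c, ⟨c, rfl, (stmt_isSelmer_iff c).2 hc⟩, rfl⟩

theorem stmt_modelHeight (W : WeierstrassCurve F) : SelStmt.modelHeight W = modelHeight W :=
  finprod_comp_equiv (f := fun v : Place F => (v.q : ℝ) ^ (-12 * v.e W)) (stmtPlaceEquiv F)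

theorem stmt_height (W : WeierstrassCurve F) : SelStmt.height W = height W := by
  simp only [SelStmt.height, height, stmt_modelHeight]

theorem stmt_classesLE (X : ℝ) : SelStmt.classesLE F X = classesLE F X := by
  ext c
  simp only [SelStmt.classesLE, classesLE, Set.mem_ofPred_eq, stmt_height]
  rfl

theorem selmerAverage_bridge {n : ℕ} {a : ℝ} (h : SelmerAverage F n a) :
    SelStmt.SelmerAverage F n a := by
  have hc : ∀ W : WeierstrassCurve F, (SelStmt.Sel W n).ncard = (Sel W n).ncard := fun W => by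
    rw [← stmt_sel_image, Set.ncard_image_of_injective _ (stmtH1Equiv W n).injective]
  refine ⟨fun W hW => ?_, fun X => ?_, ?_⟩
  · have := h.1 W hW
    rw [← stmt_sel_image] at this
    exact this.of_finite_image (stmtH1Equiv W n).injective.injOn
  · rw [stmt_classesLE]; exact h.2.1 X
  · simp only [hc, stmt_classesLE]
    exact h.2.2

end SelAvg
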