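import Pool.Agent.H38Sel.LocC
import Pool.Agent.H38Sel.LocA
import Pool.Agent.H38Sel.Desc

/-!
The places of the rational function field over a finite field.
-/

namespace SelAvg

open WithZero Polynomial
open scoped Classical

universe u

variable {k : Type u} [Field k]

/-- monic irreducible polynomials -/
def Irr (k : Type u) [Field k] : Type u := {p : k[X] // p.Monic ∧ Irreducible p}

/-- the polynomial defining the residue field (`none` is the place at infinity, with
coordinate `1 / t`) -/
noncomputable def pol : Option (Irr k) → k[X]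
  | none => X
  | some p => p.1

lemma pol_monic (w : Option (Irr k)) : (pol w).Monic := by
  cases w with
  | none => exact monic_X
  | some p => exact p.2.1

lemma pol_irreducible (w : Option (Irr k)) : Irreducible (pol w) := by
  cases w with
  | none => exact irreducible_X
  | some p => exact p.2.2

instance instFactPol (w : Option (Irr k)) : Fact (Irreducible (pol w)) := ⟨pol_irreducible w⟩

/-- the height one prime generated by `p` -/
noncomputable def Irr.prime (p : Irr k) : IsDedekindDomain.HeightOneSpectrum k[X] where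
  asIdeal := Ideal.span {p.1}
  isPrime := (Ideal.span_singleton_prime p.2.2.ne_zero).2 p.2.2.prime
  ne_bot := by simpa using p.2.2.ne_zero

lemma infty_surjective : Function.Surjective (RatFunc.inftyValuation k) := by
  intro x
  by_cases hx : x = 0
  · exact ⟨0, by rw [hx, map_zero]⟩
  · exact ⟨RatFunc.X ^ log x, by rw [RatFunc.inftyValuation.X_zpow, exp_log hx]⟩

/-- the place attached to `w` -/
noncomputable def plc : Option (Irr k) → Place (RatFunc k)
  | none => ⟨RatFunc.inftyValuation k, infty_surjective⟩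
  | some p => ⟨p.prime.valuation (RatFunc k), p.prime.valuation_surjective (RatFunc k)⟩

/-- the inclusion of polynomials -/
noncomputable abbrev toK (k : Type u) [Field k] : k[X] →+* RatFunc k := algebraMap k[X] (RatFunc k)

/-- the embedding of `k[X]` adapted to the place -/
noncomputable def emb : Option (Irr k) → (k[X] →+* RatFunc k)
  | none => eval₂RingHom RatFunc.C RatFunc.X⁻¹
  | some _ => toK k

lemma emb_some (p : Irr k) : emb (some p) = toK k := rfl

lemma emb_reflect {a : k[X]} {D : ℕ} (h : a.natDegree ≤ D) :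
    emb none (reflect D a) = toK k a * (RatFunc.X⁻¹) ^ D := by
  have hX : (RatFunc.X : RatFunc k) ≠ 0 := RatFunc.X_ne_zero
  let := invertibleOfNonzero hX
  have h1 := eval₂_reflect_mul_pow (RatFunc.C : k →+* RatFunc k) RatFunc.X D a h
  have h2 : eval₂RingHom (RatFunc.C : k →+* RatFunc k) RatFunc.X = toK k :=
    Polynomial.ringHom_ext (fun c => by simp) (by simp)
  rw [invOf_eq_inv, ← coe_eval₂RingHom, ← coe_eval₂RingHom, h2] at h1
  rw [← h1, mul_assoc, ← mul_pow, mul_inv_cancel₀ hX, one_pow, mul_one]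
  rfl

lemma places0_emb (a : k[X]) :
    emb none a = toK k a.reverse * (RatFunc.X⁻¹) ^ a.natDegree := by
  rw [← emb_reflect a.reverse_natDegree_le, reverse, reflect_reflect]

lemma emb_injective (w : Option (Irr k)) : Function.Injective (emb w) := by
  cases w with
  | none =>
    refine (injective_iff_map_eq_zero _).2 fun a ha => ?_
    rw [places0_emb, mul_eq_zero] at ha
    rcases ha with ha | ha
    · exact reverse_eq_zero.1 ((map_eq_zero_iff _ (IsFractionRing.injective _ _)).1 ha)
    · exact absurd ha (pow_ne_zero _ (inv_ne_zero RatFunc.X_ne_zero))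
  | some p => exact IsFractionRing.injective _ _

lemma val_infty_toK {a : k[X]} (ha : a ≠ 0) : (plc none).1 (toK k a) = exp (a.natDegree : ℤ) := by
  exact RatFunc.inftyValuation.polynomial k ha

lemma val_infty_X : (plc (none : Option (Irr k))).1 RatFunc.X = exp 1 := by
  exact RatFunc.inftyValuation.X k

lemma val_infty_toK_le_iff (a : k[X]) (D : ℕ) :
    (plc none).1 (toK k a) ≤ exp ((D : ℤ) - 1) ↔ a.degree < D := by
  by_cases ha : a = 0
  · subst ha
    simp
  · rw [val_infty_toK ha, exp_le_exp, ← natDegree_lt_iff_degree_lt ha]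
    omega

lemma places0_val {a : k[X]} (ha : a ≠ 0) :
    (plc none).1 (emb none a) = exp (-(a.natTrailingDegree : ℤ)) := by
  have h := natDegree_eq_reverse_natDegree_add_natTrailingDegree a
  rw [places0_emb, map_mul, map_pow, map_inv₀, val_infty_X,
    val_infty_toK (reverse_eq_zero.not.2 ha), ← exp_neg, ← exp_nsmul, ← exp_add, exp_inj]
  simp only [nsmul_eq_mul]
  omega

theorem val_emb_le_iff (w : Option (Irr k)) (a : k[X]) (M : ℕ) :
    (plc w).1 (emb w a) ≤ exp (-(M : ℤ)) ↔ pol w ^ M ∣ a := by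
  cases w with
  | none =>
    by_cases ha : a = 0
    · subst ha
      simp
    · rw [places0_val ha, exp_le_exp, neg_le_neg_iff, Int.ofNat_le]
      exact ⟨fun h => X_pow_dvd_iff.2 fun d hd =>
          coeff_eq_zero_of_lt_natTrailingDegree (hd.trans_le h),
        fun h => le_natTrailingDegree ha (X_pow_dvd_iff.1 h)⟩
  | some p =>
    have h := p.prime.intValuation_le_pow_iff_mem a M
    rw [← p.prime.valuation_of_algebraMap (K := RatFunc k)] at h
    refine h.trans ?_
    change a ∈ Ideal.span {p.1} ^ M ↔ _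
    rw [Ideal.span_singleton_pow, Ideal.mem_span_singleton]
    rfl

lemma val_emb_le_one (w : Option (Irr k)) (a : k[X]) : (plc w).1 (emb w a) ≤ 1 := by
  simpa using (val_emb_le_iff w a 0).2 (by simp)

lemma val_emb_pol (w : Option (Irr k)) : (plc w).1 (emb w (pol w)) = exp (-1) := by
  cases w with
  | none =>
    have h := places0_val (X_ne_zero (R := k))
    rwa [natTrailingDegree_X] at h
  | some p =>
    exact (p.prime.valuation_of_algebraMap (K := RatFunc k) p.1).trans
      (p.prime.intValuation_singleton p.2.2.ne_zero rfl)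

lemma val_emb_eq_one_iff (w : Option (Irr k)) (a : k[X]) :
    (plc w).1 (emb w a) = 1 ↔ ¬pol w ∣ a := by
  have h := val_emb_le_iff w a 1
  rw [pow_one] at h
  rw [← h, not_le]
  constructor
  · intro e
    rw [e, ← exp_zero, exp_lt_exp]
    norm_num
  · intro e
    have h0 : (plc w).1 (emb w a) ≠ 0 := (zero_le.trans_lt e).ne'
    have h1 := val_emb_le_one w a
    rw [← exp_log h0, ← exp_zero, exp_le_exp] at h1
    rw [← exp_log h0, exp_lt_exp] at e
    rw [← exp_log h0, ← exp_zero, exp_inj]
    omega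

lemma places0_approx (w : Option (Irr k)) {n d : k[X]} (hd : ¬pol w ∣ d) (M : ℕ) :
    ∃ a : k[X], (plc w).1 (emb w n / emb w d - emb w a) ≤ exp (-(M : ℤ)) := by
  obtain ⟨s, t, h⟩ :=
    IsCoprime.pow_left (m := M) ((pol_irreducible w).coprime_iff_not_dvd.2 hd)
  have h1 := (val_emb_eq_one_iff w d).2 hd
  have h0 : emb w d ≠ 0 := fun e => by
    rw [e, map_zero] at h1
    exact zero_ne_one h1
  refine ⟨t * n, ?_⟩
  have e : emb w n / emb w d - emb w (t * n) = emb w (pol w ^ M * (s * n)) / emb w d := by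
    rw [eq_div_iff h0, sub_mul, div_mul_cancel₀ _ h0, ← map_mul, ← map_sub]
    congr 1
    linear_combination (-n) * h
  rw [e, map_div₀, h1, div_one, val_emb_le_iff]
  exact dvd_mul_right _ _

/-- For finite places: `HeightOneSpectrum.exists_valuation_sub_lt_of_integer`.  At infinity write
`x = a / b` with `deg a ≤ deg b = D`, so `x = emb (reflect D a) / emb (reflect D b)` and
`reflect D b` is invertible modulo `X^M`. -/
theorem exists_emb_approx (w : Option (Irr k)) {x : RatFunc k} (hx : (plc w).1 x ≤ 1) (M : ℕ) :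
    ∃ a : k[X], (plc w).1 (x - emb w a) ≤ exp (-(M : ℤ)) := by
  cases w with
  | none =>
    by_cases h0 : x = 0
    · exact ⟨0, by simp [h0]⟩
    have h1 : x.num.natDegree ≤ x.denom.natDegree := by
      have h2 : (plc none).1 x = exp x.intDegree := RatFunc.inftyValuation_of_nonzero k h0
      rw [h2, ← exp_zero, exp_le_exp, RatFunc.intDegree] at hx
      omega
    have h2 : ¬pol none ∣ reflect x.denom.natDegree x.denom := fun h => by
      have h3 := X_dvd_iff.1 h
      rw [coeff_reflect, revAt_zero, coeff_natDegree, (RatFunc.monic_denom x).leadingCoeff] at h3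
      exact one_ne_zero h3
    obtain ⟨a, ha⟩ := places0_approx none (n := reflect x.denom.natDegree x.num) h2 M
    rw [emb_reflect h1, emb_reflect le_rfl,
      mul_div_mul_right _ _ (pow_ne_zero _ (inv_ne_zero RatFunc.X_ne_zero)),
      RatFunc.num_div_denom] at ha
    exact ⟨a, ha⟩
  | some p =>
    obtain ⟨a, ha⟩ := p.prime.exists_valuation_sub_lt_of_integer hx
      (Units.mk0 (exp (-(M : ℤ))) exp_ne_zero)
    rw [Valuation.map_sub_swap] at ha
    exact ⟨a, ha.le⟩

theorem exists_toK_of_forall_le {x : RatFunc k} (h : ∀ p : Irr k, (plc (some p)).1 x ≤ 1) :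
    ∃ a : k[X], toK k a = x := by
  refine IsDedekindDomain.HeightOneSpectrum.mem_integers_of_valuation_le_one (RatFunc k) x
    fun v => ?_
  obtain ⟨g, hg⟩ := (IsPrincipalIdealRing.principal v.asIdeal).principal
  have hg' : v.asIdeal = Ideal.span {g} := hg
  have h0 : g ≠ 0 := fun e => v.ne_bot (by rw [hg', e, Ideal.span_singleton_eq_bot])
  have h1 : Prime g := (Ideal.span_singleton_prime h0).1 (hg' ▸ v.isPrime)
  have h2 : v = Irr.prime ⟨normalize g, monic_normalize h0,
      (associated_normalize g).irreducible h1.irreducible⟩ :=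
    IsDedekindDomain.HeightOneSpectrum.ext
      (hg'.trans (Ideal.span_singleton_eq_span_singleton.2 (associated_normalize g)))
  rw [h2]
  exact h _

theorem finite_val_ne_one {x : RatFunc k} (hx : x ≠ 0) :
    {p : Irr k | (plc (some p)).1 x ≠ 1}.Finite := by
  have h0 : x.num * x.denom ≠ 0 := mul_ne_zero (RatFunc.num_ne_zero hx) (RatFunc.denom_ne_zero x)
  refine ((UniqueFactorizationMonoid.normalizedFactors (x.num * x.denom)).finite_toSet.preimage
    (f := fun p : Irr k => p.1) Subtype.val_injective.injOn).subset fun p hp => ?_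
  refine (Polynomial.mem_normalizedFactors_iff h0).2 ⟨p.2.2, p.2.1, by_contra fun hn => hp ?_⟩
  have h1 := (val_emb_eq_one_iff (some p) x.num).2 fun h => hn (h.mul_right _)
  have h2 := (val_emb_eq_one_iff (some p) x.denom).2 fun h => hn (h.mul_left _)
  rw [emb_some] at h1 h2
  rw [← RatFunc.num_div_denom x, map_div₀, h1, h2, div_one]

/-- a polynomial which is a unit at all finite places is a unit -/
theorem isUnit_of_forall_val {a : k[X]} (h : ∀ p : Irr k, (plc (some p)).1 (toK k a) = 1) :
    IsUnit a := by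
  by_contra hn
  obtain ⟨g, h1, h2, h3⟩ := exists_monic_irreducible_factor a hn
  exact (val_emb_eq_one_iff (some ⟨g, h1, h2⟩) a).1 (h ⟨g, h1, h2⟩) h3

end SelAvg

/-!
All places; residue fields; finiteness.
-/

namespace SelAvg

open WithZero Polynomial
open scoped Classical

universe u

variable {k : Type u} [Field k]

lemma places_exp_lt : (exp (-1 : ℤ) : ℤᵐ⁰) < 1 := by
  rw [← exp_zero, exp_lt_exp]
  norm_num

lemma places_none_ne (p : Irr k) : plc (none : Option (Irr k)) ≠ plc (some p) := by
  intro h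
  have h1 := val_emb_le_one (some p) X
  rw [← h, emb_some, RatFunc.algebraMap_X, val_infty_X, ← exp_zero, exp_le_exp] at h1
  norm_num at h1

theorem plc_injective : Function.Injective (plc : Option (Irr k) → Place (RatFunc k)) := by
  rintro (_ | p) (_ | p') h
  · rfl
  · exact absurd h (places_none_ne p')
  · exact absurd h.symm (places_none_ne p)
  · have h1 := val_emb_pol (some p)
    rw [h] at h1
    have h2 : p'.1 ∣ p.1 := by
      by_contra hc
      exact places_exp_lt.ne (h1.symm.trans ((val_emb_eq_one_iff (some p') p.1).2 hc))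
    exact congrArg some (Subtype.ext (eq_of_monic_of_associated p.2.1 p'.2.1
      (p'.2.2.associated_of_dvd p.2.2 h2).symm))

lemma places_prime_surjective (u : IsDedekindDomain.HeightOneSpectrum k[X]) :
    ∃ p : Irr k, p.prime = u := by
  obtain ⟨g, hg⟩ := (IsPrincipalIdealRing.principal u.asIdeal).principal
  have hg' : u.asIdeal = Ideal.span {g} := hg
  have h0 : g ≠ 0 := by
    rintro rfl
    exact u.ne_bot (by simpa using hg')
  have hp : Prime g := (Ideal.span_singleton_prime h0).1 (hg' ▸ u.isPrime)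
  refine ⟨⟨normalize g, monic_normalize h0, (normalize_associated g).symm.irreducible
    hp.irreducible⟩, IsDedekindDomain.HeightOneSpectrum.ext ?_⟩
  rw [hg']
  exact Ideal.span_singleton_eq_span_singleton.2 (normalize_associated g)

/-- Ostrowski: `RatFunc.valuation_isEquiv_infty_or_adic`; the valuation is trivial on the finite
field `k`; every height one prime of `k[X]` is generated by a monic irreducible polynomial. -/
theorem plc_surjective [Finite k] :
    Function.Surjective (plc : Option (Irr k) → Place (RatFunc k)) := by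
  intro v
  have : v.1.IsNontrivial := by
    obtain ⟨x, hx⟩ := v.2 (exp (-1))
    exact ⟨x, hx ▸ exp_ne_zero, hx ▸ places_exp_lt.ne⟩
  rcases (RatFunc.valuation_isEquiv_infty_or_adic (v := v.1)).or with h | ⟨u, h, -⟩
  · exact ⟨none, (Place.eq_of_isEquiv (w := plc none) h).symm⟩
  · obtain ⟨p, rfl⟩ := places_prime_surjective u
    exact ⟨some p, (Place.eq_of_isEquiv (w := plc (some p)) h).symm⟩

instance instFiniteAdjoinRootPow [Finite k] (w : Option (Irr k)) (M : ℕ) :
    Finite (AdjoinRoot (pol w ^ M)) := by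
  have := (AdjoinRoot.powerBasis' ((pol_monic w).pow M)).finite
  exact Module.finite_of_finite k

instance instFiniteAdjoinRoot [Finite k] (w : Option (Irr k)) : Finite (AdjoinRoot (pol w)) := by
  have := (AdjoinRoot.powerBasis' (pol_monic w)).finite
  exact Module.finite_of_finite k

noncomputable instance instFintypeAdjoinRootPow [Finite k] (w : Option (Irr k)) (M : ℕ) :
    Fintype (AdjoinRoot (pol w ^ M)) := Fintype.ofFinite _

noncomputable instance instFintypeAdjoinRoot [Finite k] (w : Option (Irr k)) :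
    Fintype (AdjoinRoot (pol w)) := Fintype.ofFinite _

lemma card_adjoinRoot [Finite k] {P : k[X]} (hP : P.Monic) :
    Nat.card (AdjoinRoot P) = Nat.card k ^ P.natDegree := by
  have := (AdjoinRoot.powerBasis' hP).finite
  rw [Module.natCard_eq_pow_finrank (K := k), (AdjoinRoot.powerBasis' hP).finrank,
    AdjoinRoot.powerBasis'_dim]

lemma places_lt_one_iff {x : ℤᵐ⁰} : x < 1 ↔ x ≤ exp (-((1 : ℕ) : ℤ)) := by
  rcases eq_or_ne x 0 with rfl | hx
  · simp
  · rw [← exp_log hx, ← exp_zero, exp_lt_exp, exp_le_exp]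
    omega

/-- the residue field of the valuation ring is `AdjoinRoot (pol w)` -/
theorem q_plc [Finite k] (w : Option (Irr k)) : (plc w).q = Nat.card k ^ (pol w).natDegree := by
  let e : k[X] →+* (plc w).1.valuationSubring :=
    (emb w).codRestrict _ fun a => val_emb_le_one w a
  let φ := (IsLocalRing.residue (plc w).1.valuationSubring).comp e
  have hs : Function.Surjective φ := by
    intro y
    obtain ⟨x, rfl⟩ := IsLocalRing.residue_surjective y
    obtain ⟨a, ha⟩ := exists_emb_approx w (x := x.1) x.2 1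
    refine ⟨a, (sub_eq_zero.1 ?_).symm⟩
    rw [RingHom.comp_apply, ← map_sub, IsLocalRing.residue_eq_zero_iff,
      Valuation.mem_maximalIdeal_iff]
    exact places_lt_one_iff.2 ha
  have hk : RingHom.ker φ = Ideal.span {pol w} := by
    ext a
    rw [RingHom.mem_ker, RingHom.comp_apply, IsLocalRing.residue_eq_zero_iff,
      Valuation.mem_maximalIdeal_iff, Ideal.mem_span_singleton, places_lt_one_iff]
    exact (val_emb_le_iff w a 1).trans (by rw [pow_one])
  rw [← card_adjoinRoot (pol_monic w)]
  exact Nat.card_congr ((RingHom.quotientKerEquivOfSurjective hs).symm.trans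
    (Ideal.quotEquivOfEq hk)).toEquiv

theorem infinite_irr : Infinite (Irr k) := by
  refine ⟨fun h => ?_⟩
  have := Fintype.ofFinite (Irr k)
  obtain ⟨P, hm, hP⟩ : ∃ P : k[X], P.Monic ∧ ∀ g : k[X], g.Monic → Irreducible g → g ∣ P :=
    ⟨∏ p : Irr k, p.1, monic_prod_of_monic _ _ fun p _ => p.2.1, fun g h1 h2 =>
      Finset.dvd_prod_of_mem (fun p : Irr k => p.1) (Finset.mem_univ (α := Irr k) ⟨g, h1, h2⟩)⟩
  have hd : (1 : k[X]).degree < P.degree := by
    refine lt_of_lt_of_le ?_ (degree_le_of_dvd (hP X monic_X irreducible_X) hm.ne_zero)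
    rw [degree_one, degree_X]
    exact zero_lt_one
  obtain ⟨g, hg, hi, hdv⟩ := exists_monic_irreducible_factor (P + 1)
    (not_isUnit_of_degree_pos _ (by
      rwa [degree_add_eq_left_of_degree_lt hd, ← degree_one (R := k)]))
  exact hi.not_isUnit (isUnit_of_dvd_one ((dvd_add_right (hP g hg hi)).1 hdv))

/-- the set of monic irreducible polynomials of degree at most `N` -/
lemma finite_irr_le [Finite k] (N : ℕ) : {p : Irr k | p.1.natDegree ≤ N}.Finite := by
  have : Finite (degreeLT k (N + 1)) := Finite.of_equiv _ (degreeLTEquiv k (N + 1)).toEquiv.symm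
  refine ((Set.toFinite (degreeLT k (N + 1) : Set k[X])).preimage
    (f := fun p : Irr k => p.1) Subtype.val_injective.injOn).subset fun p hp => ?_
  exact mem_degreeLT.2 (degree_le_natDegree.trans_lt (by exact_mod_cast Nat.lt_succ_of_le hp))

noncomputable def irrLE (k : Type u) [Field k] [Finite k] (N : ℕ) : Finset (Irr k) :=
  (finite_irr_le (k := k) N).toFinset

lemma mem_irrLE [Finite k] {N : ℕ} {p : Irr k} : p ∈ irrLE k N ↔ p.1.natDegree ≤ N := by
  simp [irrLE]

end SelAvg

/-!
Reduction maps at the places of the rational function field.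
-/

namespace SelAvg

open WithZero Polynomial
open scoped Classical

universe u

variable {k : Type u} [Field k]

/-- the completion at `w` -/
abbrev Kw (w : Option (Irr k)) : Type u := (plc w).Compl

/-- the local field at `w` -/
noncomputable abbrev Vw (w : Option (Irr k)) : LocalField (Kw w) := (plc w).loc

/-- the map to the completion -/
noncomputable abbrev toKw (w : Option (Irr k)) : RatFunc k →+* Kw w := algebraMap (RatFunc k) (Kw w)

/-- the embedding of `k[X]` into the valuation ring at `w` -/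
noncomputable def embO (w : Option (Irr k)) : k[X] →+* (Vw w).O :=
  ((toKw w).comp (emb w)).codRestrict (Vw w).v.valuationSubring fun a => by
    rw [Valuation.mem_valuationSubring_iff, RingHom.comp_apply, Place.loc_v]
    exact val_emb_le_one w a

lemma incl_embO (w : Option (Irr k)) (a : k[X]) : (Vw w).incl (embO w a) = toKw w (emb w a) := rfl

lemma incl_comp_embO (w : Option (Irr k)) :
    (Vw w).incl.comp (embO w) = (toKw w).comp (emb w) := rfl

lemma embO_injective (w : Option (Irr k)) : Function.Injective (embO w) := by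
  intro a b h
  apply emb_injective w
  apply (toKw w).injective
  rw [← incl_embO, ← incl_embO, h]

lemma v_embO_le_iff (w : Option (Irr k)) (a : k[X]) (M : ℕ) :
    (Vw w).v (embO w a : Kw w) ≤ exp (-(M : ℤ)) ↔ pol w ^ M ∣ a := by
  rw [← val_emb_le_iff, ← Place.loc_v]
  exact Iff.rfl

lemma unif_pow_dvd_embO_iff (w : Option (Irr k)) (a : k[X]) (M : ℕ) :
    (Vw w).unif ^ M ∣ embO w a ↔ pol w ^ M ∣ a := by
  rw [← LocalField.le_exp_iff_dvd, v_embO_le_iff]

theorem exists_embO_approx (w : Option (Irr k)) (x : (Vw w).O) (M : ℕ) :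
    ∃ a : k[X], (Vw w).v ((x : Kw w) - embO w a) ≤ exp (-(M : ℤ)) := by
  obtain ⟨y, hy⟩ := (plc w).dense (x : Kw w) M
  have hy' : (Vw w).v ((x : Kw w) - toKw w y) ≤ exp (-(M : ℤ)) := hy
  have hM : exp (-(M : ℤ)) ≤ (1 : ℤᵐ⁰) := by
    rw [← exp_zero, exp_le_exp]
    omega
  have hy1 : (plc w).1 y ≤ 1 := by
    rw [← Place.loc_v]
    have e : algebraMap (RatFunc k) (plc w).Compl y = (x : Kw w) - ((x : Kw w) - toKw w y) := by
      rw [sub_sub_cancel]
    rw [e]
    exact (Vw w).v.map_sub_le ((Vw w).v_le_one x) (hy'.trans hM)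
  obtain ⟨a, ha⟩ := exists_emb_approx w hy1 M
  refine ⟨a, ?_⟩
  rw [← Place.loc_v, map_sub] at ha
  have e : (x : Kw w) - embO w a =
      ((x : Kw w) - toKw w y) + (toKw w y - toKw w (emb w a)) := by
    rw [sub_add_sub_cancel]
    rfl
  rw [e]
  exact (Vw w).v.map_add_le hy' ha

/-- `k[X] / (P) → O / 𝔪^M` is bijective; compose its inverse with the quotient map -/
theorem exists_isRed_adjoinRoot (w : Option (Irr k)) (M : ℕ) {P : k[X]} (hP : P = pol w ^ M) :
    ∃ ρ : (Vw w).O →+* AdjoinRoot P, (Vw w).IsRed ρ M ∧ ρ.comp (embO w) = AdjoinRoot.mk P := by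
  subst hP
  choose c hc using fun x => exists_embO_approx w x M
  have hdvd : ∀ (x : (Vw w).O) (a : k[X]), (Vw w).unif ^ M ∣ x - embO w a →
      AdjoinRoot.mk (pol w ^ M) (c x) = AdjoinRoot.mk (pol w ^ M) a := by
    intro x a h
    have h' : (Vw w).unif ^ M ∣ x - embO w (c x) :=
      ((Vw w).le_exp_iff_dvd _ M).mp (hc x)
    rw [AdjoinRoot.mk_eq_mk, ← unif_pow_dvd_embO_iff, map_sub]
    have e : embO w (c x) - embO w a = (x - embO w a) - (x - embO w (c x)) := by ring
    rw [e]
    exact dvd_sub h h'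
  have hc' : ∀ x : (Vw w).O, (Vw w).unif ^ M ∣ x - embO w (c x) := fun x =>
    ((Vw w).le_exp_iff_dvd _ M).mp (hc x)
  let ρ : (Vw w).O →+* AdjoinRoot (pol w ^ M) :=
    { toFun := fun x => AdjoinRoot.mk (pol w ^ M) (c x)
      map_one' := by
        rw [hdvd 1 1 (by rw [map_one, sub_self]; exact dvd_zero _), map_one]
      map_mul' := fun x y => by
        rw [← map_mul]
        apply hdvd
        have e : x * y - embO w (c x * c y) =
            (x - embO w (c x)) * y + (y - embO w (c y)) * embO w (c x) := by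
          rw [map_mul]
          ring
        rw [e]
        exact dvd_add ((hc' x).mul_right _) ((hc' y).mul_right _)
      map_zero' := by
        rw [hdvd 0 0 (by rw [map_zero, sub_self]; exact dvd_zero _), map_zero]
      map_add' := fun x y => by
        rw [← map_add]
        apply hdvd
        have e : x + y - embO w (c x + c y) = (x - embO w (c x)) + (y - embO w (c y)) := by
          rw [map_add]
          ring
        rw [e]
        exact dvd_add (hc' x) (hc' y) }
  have hρ : ∀ x, ρ x = AdjoinRoot.mk (pol w ^ M) (c x) := fun _ => rfl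
  have hemb : ∀ a, ρ (embO w a) = AdjoinRoot.mk (pol w ^ M) a := fun a => by
    rw [hρ]
    exact hdvd _ a (by rw [sub_self]; exact dvd_zero _)
  refine ⟨ρ, ⟨fun z => ?_, fun x => ?_⟩, RingHom.ext hemb⟩
  · obtain ⟨a, rfl⟩ := AdjoinRoot.mk_surjective z
    exact ⟨embO w a, hemb a⟩
  · rw [LocalField.le_exp_iff_dvd, hρ, AdjoinRoot.mk_eq_zero, ← unif_pow_dvd_embO_iff]
    constructor
    · intro h
      have := dvd_add (hc' x) h
      rwa [sub_add_cancel] at this
    · intro h
      have := dvd_sub h (hc' x)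
      rwa [sub_sub_cancel] at this

/-- reduction modulo the `M`-th power -/
noncomputable def redM (w : Option (Irr k)) (M : ℕ) : (Vw w).O →+* AdjoinRoot (pol w ^ M) :=
  (exists_isRed_adjoinRoot w M rfl).choose

lemma redM_isRed (w : Option (Irr k)) (M : ℕ) : (Vw w).IsRed (redM w M) M :=
  (exists_isRed_adjoinRoot w M rfl).choose_spec.1

lemma redM_comp (w : Option (Irr k)) (M : ℕ) :
    (redM w M).comp (embO w) = AdjoinRoot.mk (pol w ^ M) :=
  (exists_isRed_adjoinRoot w M rfl).choose_spec.2

/-- the residue map -/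
noncomputable def res (w : Option (Irr k)) : (Vw w).O →+* AdjoinRoot (pol w) :=
  (exists_isRed_adjoinRoot w 1 (pow_one _).symm).choose

lemma res_isRed (w : Option (Irr k)) : (Vw w).IsRed (res w) 1 :=
  (exists_isRed_adjoinRoot w 1 (pow_one _).symm).choose_spec.1

lemma res_comp (w : Option (Irr k)) : (res w).comp (embO w) = AdjoinRoot.mk (pol w) :=
  (exists_isRed_adjoinRoot w 1 (pow_one _).symm).choose_spec.2

/-- the residue map of `k[X] / (p^(2 (j + 1)))` -/
noncomputable def theta (w : Option (Irr k)) (j : ℕ) :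
    AdjoinRoot (pol w ^ (2 * (j + 1))) →+* AdjoinRoot (pol w) :=
  (AdjoinRoot.algHomOfDvd k _ _ (dvd_pow_self (pol w) (by omega))).toRingHom

lemma theta_mk (w : Option (Irr k)) (j : ℕ) (a : k[X]) :
    theta w j (AdjoinRoot.mk _ a) = AdjoinRoot.mk _ a := by
  rw [← AdjoinRoot.aeval_eq, ← AdjoinRoot.aeval_eq]
  change AdjoinRoot.algHomOfDvd k _ _ (dvd_pow_self (pol w) (by omega)) _ = _
  rw [← aeval_algHom_apply, AdjoinRoot.algHomOfDvd_root]

lemma theta_comp_redM (w : Option (Irr k)) (j : ℕ) :
    (theta w j).comp (redM w (2 * (j + 1))) = res w := by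
  ext1 x
  obtain ⟨a, ha⟩ := exists_embO_approx w x (2 * (j + 1))
  have h1 : redM w (2 * (j + 1)) x = redM w (2 * (j + 1)) (embO w a) :=
    ((redM_isRed w _).eq_iff _ _).mpr ha
  have h2 : res w x = res w (embO w a) := by
    refine ((res_isRed w).eq_iff _ _).mpr (ha.trans ?_)
    rw [exp_le_exp]
    push_cast
    omega
  have h3 : redM w (2 * (j + 1)) (embO w a) = AdjoinRoot.mk _ a :=
    RingHom.congr_fun (redM_comp w _) a
  have h4 : res w (embO w a) = AdjoinRoot.mk _ a := RingHom.congr_fun (res_comp w) a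
  rw [RingHom.comp_apply, h1, h2, h3, h4, theta_mk]

lemma theta_isResidue (w : Option (Irr k)) (j : ℕ) : IsResidue (theta w j) := by
  refine ⟨fun z => ?_, fun x => ?_⟩
  · obtain ⟨a, rfl⟩ := AdjoinRoot.mk_surjective z
    exact ⟨AdjoinRoot.mk _ a, theta_mk w j a⟩
  · constructor
    · intro h
      exact (h.map (theta w j)).ne_zero
    · intro h
      obtain ⟨y, rfl⟩ := (redM_isRed w (2 * (j + 1))).surj x
      have h' : res w y ≠ 0 := by
        rw [← theta_comp_redM w j]
        exact h
      exact (((res_isRed w).isUnit_iff y).mpr h').map _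

lemma id_isResidue {κ : Type*} [Field κ] : IsResidue (RingHom.id κ) := by
  exact ⟨Function.surjective_id, fun x => isUnit_iff_ne_zero⟩

end SelAvg

/-!
The Birkhoff decomposition.
-/

namespace SelAvg

open WithZero Polynomial Matrix
open scoped Classical

universe u

variable {k : Type u} [Field k] {n : Type} [Fintype n] [DecidableEq n]

lemma patch_v_zpow {L : Type*} [Field L] (V : LocalField L) {t : L} (ht : V.v t = exp 1) (m : ℤ) :
    V.v (t ^ m) = exp m := by
  rw [map_zpow₀, ht, ← WithZero.exp_zsmul]; simp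

lemma patch_start {L : Type*} [Field L] (V : LocalField L) {t : L} (ht : V.v t = exp 1)
    (M : Matrix n n L) : ∃ (a : n → ℤ) (U : Matrix n n V.O),
      M = U.map V.incl * diagonal (fun i => t ^ a i) := by
  have ht0 : t ≠ 0 := by
    intro h; rw [h, map_zero] at ht; exact exp_ne_zero ht.symm
  have h1 : ∀ x : L, ∃ N : ℤ, V.v x ≤ exp N := by
    intro x
    by_cases hx : V.v x = 0
    · exact ⟨0, by rw [hx]; exact zero_le⟩
    · exact ⟨log (V.v x), by rw [exp_log hx]⟩
  choose N hN using h1
  obtain ⟨B, hB⟩ := (Set.finite_range (fun p : n × n => N (M p.1 p.2))).bddAbove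
  have hle : ∀ i j, V.v (M i j * t ^ (-B)) ≤ 1 := by
    intro i j
    rw [map_mul, patch_v_zpow V ht]
    have h2 : N (M i j) ≤ B := hB ⟨(i, j), rfl⟩
    calc V.v (M i j) * exp (-B) ≤ exp (N (M i j)) * exp (-B) := mul_le_mul_left (hN _) _
      _ = exp (N (M i j) + -B) := (exp_add _ _).symm
      _ ≤ exp 0 := exp_le_exp.2 (by omega)
      _ = 1 := exp_zero
  refine ⟨fun _ => B, Matrix.of fun i j => ⟨M i j * t ^ (-B), hle i j⟩, ?_⟩
  ext i j
  rw [mul_diagonal]
  change M i j = M i j * t ^ (-B) * t ^ B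
  rw [mul_assoc, ← zpow_add₀ ht0]; simp

lemma patch_bound {L : Type*} [Field L] (V : LocalField L) (φ : k[X] →+* L) (e : k →+* V.O)
    (he : ∀ c, V.incl (e c) = φ (C c)) {t : L} (ht : V.v t = exp 1) (M : Matrix n n L)
    (G : GL n k[X]) (a : n → ℤ) (U : Matrix n n V.O)
    (h : M * (G : Matrix n n k[X]).map φ = U.map V.incl * diagonal (fun i => t ^ a i)) :
    V.v M.det ≤ exp (∑ i, a i) := by
  have hd := congrArg (fun A => V.v (Matrix.det A)) h
  simp only [det_mul, det_diagonal, map_mul] at hd
  have hG : V.v ((G : Matrix n n k[X]).map φ).det = 1 := by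
    have hu : IsUnit (G : Matrix n n k[X]).det := (Matrix.isUnit_iff_isUnit_det _).1 G.isUnit
    obtain ⟨c, hc, hc'⟩ := Polynomial.isUnit_iff.1 hu
    rw [← RingHom.mapMatrix_apply, ← RingHom.map_det, ← hc', ← he]
    exact (V.isUnit_iff _).1 (hc.map e)
  have hU : V.v (U.map V.incl).det ≤ 1 := by
    rw [← RingHom.mapMatrix_apply, ← RingHom.map_det]
    exact V.v_le_one _
  have hp : V.v (∏ i, t ^ a i) = exp (∑ i, a i) := by
    have ht0 : t ≠ 0 := by
      intro h; rw [h, map_zero] at ht; exact exp_ne_zero ht.symm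
    rw [← patch_v_zpow V ht]
    congr 1
    induction (Finset.univ : Finset n) using Finset.induction_on with
    | empty => simp
    | insert i s hi ih => rw [Finset.prod_insert hi, Finset.sum_insert hi, zpow_add₀ ht0, ih]
  rw [hG, mul_one, hp] at hd
  rw [hd]
  exact mul_le_of_le_one_left' hU

lemma patch_step {L : Type*} [Field L] (V : LocalField L) {κ : Type*} [Field κ]
    {red : V.O →+* κ} (hred : V.IsRed red 1) (φ : k[X] →+* L) (e : k →+* V.O)
    (he : ∀ c, V.incl (e c) = φ (C c)) (hsurj : ∀ y : κ, ∃ c, red (e c) = y)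
    (ht : V.v (φ X) = exp 1) (a : n → ℤ) (U : Matrix n n V.O) (hU : ¬IsUnit U.det) :
    ∃ (E : GL n k[X]) (a' : n → ℤ) (U' : Matrix n n V.O), ∑ i, a' i < ∑ i, a i ∧
      U.map V.incl * diagonal (fun i => φ X ^ a i) * (E : Matrix n n k[X]).map φ =
        U'.map V.incl * diagonal (fun i => φ X ^ a' i) := by
  have ht0 : φ X ≠ 0 := by
    intro h; rw [h, map_zero] at ht; exact exp_ne_zero ht.symm
  have hdet : (U.map red).det = 0 := by
    rw [← RingHom.mapMatrix_apply, ← RingHom.map_det]
    by_contra h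
    exact hU ((hred.isUnit_iff _).2 h)
  obtain ⟨y, hy0, hy⟩ := Matrix.exists_mulVec_eq_zero_iff.2 hdet
  choose s hs using hsurj
  set c : n → k := fun j => s (y j) with hc
  have hne : (Finset.univ.filter fun j => c j ≠ 0).Nonempty := by
    obtain ⟨j, hj⟩ := Function.ne_iff.1 hy0
    refine ⟨j, Finset.mem_filter.2 ⟨Finset.mem_univ _, fun h => hj ?_⟩⟩
    rw [← hs (y j)]
    change red (e (c j)) = 0
    rw [h, map_zero, map_zero]
  obtain ⟨j₀, hj₀, hmax⟩ := Finset.exists_max_image _ a hne
  have hc₀ : c j₀ ≠ 0 := (Finset.mem_filter.1 hj₀).2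
  have hsm : ∀ i, V.v (φ X * V.incl (∑ j, U i j * e (c j))) ≤ 1 := by
    intro i
    have h1 : red (∑ j, U i j * e (c j)) = 0 := by
      have := congrFun hy i
      simp only [mulVec, dotProduct, map_apply, Pi.zero_apply] at this
      rw [map_sum, ← this]
      exact Finset.sum_congr rfl fun j _ => by rw [map_mul, hc, hs]
    have h2 := (hred.ker _).1 h1
    rw [map_mul, ht]
    calc exp 1 * V.v (V.incl (∑ j, U i j * e (c j))) ≤ exp 1 * exp (-((1 : ℕ) : ℤ)) :=
          mul_le_mul_right h2 _
      _ = 1 := by rw [← exp_add]; simp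
  set col : n → k[X] := fun j => C (c j) * X ^ (a j₀ - a j).toNat with hcol
  have hE : IsUnit ((1 : Matrix n n k[X]).updateCol j₀ col).det := by
    rw [← cramer_apply, cramer_one]
    simp only [hcol, Module.End.one_apply, sub_self, Int.toNat_zero, pow_zero, mul_one]
    exact Polynomial.isUnit_C.2 hc₀.isUnit
  obtain ⟨E, hE'⟩ := (Matrix.isUnit_iff_isUnit_det _).2 hE
  refine ⟨E, Function.update a j₀ (a j₀ - 1),
    U.updateCol j₀ fun i => ⟨φ X * V.incl (∑ j, U i j * e (c j)), hsm i⟩, ?_, ?_⟩
  · refine Finset.sum_lt_sum (fun i _ => ?_) ⟨j₀, Finset.mem_univ _, by simp⟩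
    by_cases h : i = j₀
    · subst h; simp
    · simp [h]
  · rw [hE']
    ext i j
    rw [mul_diagonal, mul_apply]
    simp only [mul_diagonal, map_apply]
    by_cases h : j = j₀
    · subst h
      simp only [updateCol_self, Function.update_self]
      change _ = φ X * V.incl (∑ l, U i l * e (c l)) * φ X ^ (a j - 1)
      rw [map_sum, Finset.mul_sum, Finset.sum_mul]
      refine Finset.sum_congr rfl fun l _ => ?_
      simp only [hcol, map_mul, map_pow, he]
      by_cases hl : c l = 0
      · simp [hl]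
      · have h1 : a l ≤ a j := hmax l (Finset.mem_filter.2 ⟨Finset.mem_univ _, hl⟩)
        have h2 : φ X ^ a l * φ X ^ (a j - a l).toNat = φ X * φ X ^ (a j - 1) := by
          rw [← zpow_natCast, ← zpow_add₀ ht0, ← zpow_one_add₀ ht0]
          congr 1
          omega
        linear_combination V.incl (U i l) * φ (C (c l)) * h2
    · simp only [updateCol_ne h, Function.update_of_ne h]
      rw [Finset.sum_eq_single j]
      · simp
      · intro l _ hl
        simp [one_apply_ne hl]
      · simp

lemma patch_birk {L : Type*} [Field L] (V : LocalField L) {κ : Type*} [Field κ]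
    {red : V.O →+* κ} (hred : V.IsRed red 1) (φ : k[X] →+* L) (e : k →+* V.O)
    (he : ∀ c, V.incl (e c) = φ (C c)) (hsurj : ∀ y : κ, ∃ c, red (e c) = y)
    (ht : V.v (φ X) = exp 1) (M : GL n L) :
    ∃ (U : GL n V.O) (a : n → ℤ) (H : GL n k[X]),
      (M : Matrix n n L) = (U : Matrix n n _).map V.incl * diagonal (fun i => φ X ^ a i) *
        (H : Matrix n n k[X]).map φ := by
  have hM : V.v (M : Matrix n n L).det ≠ 0 := by
    rw [Valuation.ne_zero_iff]
    exact ((Matrix.isUnit_iff_isUnit_det _).1 M.isUnit).ne_zero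
  obtain ⟨s, ⟨G, a, U, hs, h⟩, hmin⟩ := Int.exists_least_of_bdd
    (P := fun s => ∃ (G : GL n k[X]) (a : n → ℤ) (U : Matrix n n V.O), ∑ i, a i = s ∧
      (M : Matrix n n L) * (G : Matrix n n k[X]).map φ =
        U.map V.incl * diagonal (fun i => φ X ^ a i))
    ⟨log (V.v (M : Matrix n n L).det), by
      rintro s ⟨G, a, U, rfl, h⟩
      have := patch_bound V φ e he ht _ G a U h
      rwa [← exp_log hM, exp_le_exp] at this⟩
    (by
      obtain ⟨a, U, h⟩ := patch_start V ht (M : Matrix n n L)
      exact ⟨_, 1, a, U, rfl, by simpa using h⟩)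
  by_cases hU : IsUnit U.det
  · obtain ⟨U', hU'⟩ := (Matrix.isUnit_iff_isUnit_det _).2 hU
    refine ⟨U', a, G⁻¹, ?_⟩
    rw [hU', ← h, Matrix.mul_assoc, ← Matrix.map_mul, ← Units.val_mul, mul_inv_cancel]
    simp
  · obtain ⟨E, a', U', hlt, h'⟩ := patch_step V hred φ e he hsurj ht a U hU
    have := hmin _ ⟨G * E, a', U', rfl, by
      rw [Units.val_mul, Matrix.map_mul, ← Matrix.mul_assoc, h, h']⟩
    omega

/-- Birkhoff decomposition.  For `H ∈ GL n k[X]` let `a j` be the degree (`exp (a j)` is the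
largest valuation) of column `j` of `M H⁻¹`.  The sum of the `a j` is bounded below by the degree
of `det M`; choose `H` minimising it.  The matrix `U = M H⁻¹ diag (t^(-a j))` is integral; if its
reduction modulo the maximal ideal (a matrix over `k`, as the residue field is `k`) were singular,
a relation `∑ κ j • column j = 0` and a column operation on the column with `κ j ≠ 0` and
largest `a j` would decrease the sum. -/
theorem birkhoff (M : GL n (Kw (none : Option (Irr k)))) :
    ∃ (U : GL n (Vw (none : Option (Irr k))).O) (a : n → ℤ) (H : GL n k[X]),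
      (M : Matrix n n (Kw none)) = (U : Matrix n n _).map (Vw none).incl *
        diagonal (fun i => toKw none (RatFunc.X ^ a i)) *
        (H : Matrix n n k[X]).map ((toKw none).comp (toK k)) := by
  have hX : ((toKw (none : Option (Irr k))).comp (toK k)) X = toKw none RatFunc.X := by
    rw [RingHom.comp_apply, RatFunc.algebraMap_X]
  obtain ⟨U, a, H, h⟩ := patch_birk (Vw (none : Option (Irr k))) (res_isRed none)
    ((toKw none).comp (toK k)) ((embO none).comp C)
    (fun c => by
      rw [RingHom.comp_apply, incl_embO, RingHom.comp_apply, RatFunc.algebraMap_C]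
      congr 1
      exact eval₂_C _ _)
    (fun y => by
      obtain ⟨p, rfl⟩ := AdjoinRoot.mk_surjective y
      refine ⟨p.coeff 0, ?_⟩
      rw [RingHom.comp_apply, ← RingHom.comp_apply (res none), res_comp, eq_comm,
        AdjoinRoot.mk_eq_mk]
      exact X_dvd_sub_C)
    (by rw [hX, Place.loc_v]; exact val_infty_X) M
  refine ⟨U, a, H, ?_⟩
  rw [h, hX]
  simp only [map_zpow₀]

end SelAvg

/-!
Patching of local lattices, the Birkhoff decomposition, additive approximation.
-/

namespace SelAvg

open WithZero Polynomial Matrix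
open scoped Classical

universe u

variable {k : Type u} [Field k]

lemma patch0_exp (γ : ℤᵐ⁰) : ∃ N : ℕ, γ ≤ exp (N : ℤ) := by
  rcases eq_or_ne γ 0 with rfl | h
  · exact ⟨0, zero_le⟩
  · exact ⟨(log γ).toNat, by rw [← exp_log h, exp_le_exp, log_exp]; exact Int.self_le_toNat _⟩

lemma patch0_zpow (w : Option (Irr k)) (m : ℤ) : (plc w).1 (emb w (pol w) ^ m) = exp (-m) := by
  rw [map_zpow₀, val_emb_pol, ← WithZero.exp_zsmul, smul_eq_mul, mul_neg_one]

lemma patch0_ne (w : Option (Irr k)) : emb w (pol w) ≠ 0 := fun h => by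
  have := val_emb_pol w
  rw [h, map_zero] at this
  exact exp_ne_zero this.symm

lemma patch0_other {p p' : Irr k} (h : p' ≠ p) (m : ℤ) :
    (plc (some p')).1 (emb (some p) (pol (some p)) ^ m) = 1 := by
  have h1 : (plc (some p')).1 (emb (some p') p.1) = 1 := (val_emb_eq_one_iff _ _).2 fun c =>
    h (Subtype.ext (eq_of_monic_of_associated p'.2.1 p.2.1 (p'.2.2.associated_of_dvd p.2.2 c)))
  rw [map_zpow₀]
  exact (congrArg (· ^ m) h1).trans (_root_.one_zpow m)

lemma patch0_approx (w : Option (Irr k)) (y : Kw w) (M : ℕ) : ∃ (N : ℕ) (a : k[X]), ∀ b : k[X],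
    pol w ^ (M + N) ∣ a - b →
      (Vw w).v (y - toKw w (emb w b * emb w (pol w) ^ (-(N : ℤ)))) ≤ exp (-(M : ℤ)) := by
  obtain ⟨N, hN⟩ := patch0_exp ((Vw w).v y)
  have h1 : (Vw w).v (y * toKw w (emb w (pol w) ^ (N : ℤ))) ≤ 1 := by
    rw [map_mul, Place.loc_v, patch0_zpow]
    refine (mul_le_mul_left hN _).trans_eq ?_
    rw [← exp_add, add_neg_cancel, exp_zero]
  obtain ⟨a, ha⟩ := exists_embO_approx w ⟨_, h1⟩ (M + N)
  refine ⟨N, a, fun b hb => ?_⟩
  have h2 : (Vw w).v (toKw w (emb w (a - b))) ≤ exp (-((M + N : ℕ) : ℤ)) := by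
    rw [Place.loc_v]; exact (val_emb_le_iff w _ _).2 hb
  have h3 : y - toKw w (emb w b * emb w (pol w) ^ (-(N : ℤ))) =
      (y * toKw w (emb w (pol w) ^ (N : ℤ)) - toKw w (emb w a) + toKw w (emb w (a - b))) *
        toKw w (emb w (pol w) ^ (-(N : ℤ))) := by
    have h4 : toKw w (emb w (pol w) ^ (N : ℤ)) * toKw w (emb w (pol w) ^ (-(N : ℤ))) = 1 := by
      rw [← map_mul, ← zpow_add₀ (patch0_ne w), add_neg_cancel, zpow_zero, map_one]
    rw [map_sub, map_sub, map_mul]
    linear_combination (-y) * h4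
  rw [h3, map_mul, Place.loc_v, patch0_zpow]
  refine (mul_le_mul_left (Valuation.map_add_le _ ha h2) _).trans_eq ?_
  rw [← exp_add]
  congr 1
  push_cast
  ring

/-- `y - a / p^N` is small; `a / p^N` is integral at the other finite places -/
theorem approx_one (p : Irr k) (y : Kw (some p)) (M : ℕ) :
    ∃ x : RatFunc k, (Vw (some p)).v (y - toKw _ x) ≤ exp (-(M : ℤ)) ∧
      ∀ p' : Irr k, p' ≠ p → (plc (some p')).1 x ≤ 1 := by
  obtain ⟨N, a, h⟩ := patch0_approx (some p) y M
  refine ⟨_, h a (by simp), fun p' hp => ?_⟩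
  rw [map_mul, patch0_other hp, mul_one]
  exact val_emb_le_one (some p') a

/-- the polynomial part at infinity: `y = t^N o` with `o` integral, approximate `o` by a polynomial
of degree at most `N` in `1 / t` and use `emb_reflect` -/
theorem approx_infty (y : Kw (none : Option (Irr k))) :
    ∃ a : k[X], (Vw none).v (y - toKw _ (toK k a)) ≤ exp (-1) := by
  obtain ⟨N, a, h⟩ := patch0_approx none y 1
  have hm : (X ^ (1 + N) : k[X]).Monic := monic_X_pow _
  have h1 := h (a %ₘ X ^ (1 + N)) (by
    rw [modByMonic_eq_sub_mul_div, sub_sub_cancel]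
    exact dvd_mul_right _ _)
  have h2 : (a %ₘ X ^ (1 + N)).natDegree ≤ N := by
    have := natDegree_modByMonic_lt a hm (fun e => by simpa using congrArg natDegree e)
    rw [natDegree_X_pow] at this
    omega
  refine ⟨reflect N (a %ₘ X ^ (1 + N)), ?_⟩
  have h3 := emb_reflect (natDegree_reflect_le.trans (max_le le_rfl h2) :
    (reflect N (a %ₘ X ^ (1 + N))).natDegree ≤ N)
  have h4 : emb (none : Option (Irr k)) (pol none) = RatFunc.X⁻¹ := eval₂_X _ _
  rw [reflect_reflect] at h3
  rwa [h3, ← h4, mul_assoc, ← zpow_natCast, ← zpow_add₀ (patch0_ne _), add_neg_cancel, zpow_zero,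
    mul_one] at h1

theorem additive_patch (T : Finset (Irr k)) (r : ∀ p : Irr k, Kw (some p))
    (r' : Kw (none : Option (Irr k))) :
    ∃ x : RatFunc k, (∀ p ∈ T, (Vw (some p)).v (toKw _ x - r p) ≤ 1) ∧
      (∀ p ∉ T, (plc (some p)).1 x ≤ 1) ∧ (Vw none).v (toKw _ x - r') ≤ exp (-1) := by
  choose x x1 x2 using fun p => approx_one p (r p) 0
  obtain ⟨a, ha⟩ := approx_infty (r' - toKw _ (∑ p ∈ T, x p))
  have h : ∀ (p : Irr k) (S : Finset (Irr k)), p ∉ S →
      (plc (some p)).1 (∑ q ∈ S, x q + toK k a) ≤ 1 := fun p S hp =>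
    Valuation.map_add_le _ (Valuation.map_sum_le _ fun q hq => x2 q p fun e => hp (e ▸ hq))
      (val_emb_le_one (some p) a)
  refine ⟨∑ p ∈ T, x p + toK k a, fun p hp => ?_, fun p hp => h p T hp, ?_⟩
  · rw [← Finset.add_sum_erase T x hp, add_assoc, map_add, add_sub_right_comm]
    refine Valuation.map_add_le _ ?_ ?_
    · rw [Valuation.map_sub_swap]
      simpa using x1 p
    · rw [Place.loc_v]
      exact h p _ (Finset.notMem_erase p T)
  · rwa [Valuation.map_sub_swap, map_add, ← sub_sub]

variable {n : Type} [Fintype n] [DecidableEq n]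

/-- `N` is integral with integral inverse at `w` -/
def IntAt (w : Option (Irr k)) (N : GL n (RatFunc k)) : Prop :=
  ∃ H : GL n (Vw w).O, GeneralLinearGroup.map (toKw w) N = GeneralLinearGroup.map (Vw w).incl H

/-- integral matrices -/
def patch0_Int {L : Type*} [Field L] (v : Valuation L ℤᵐ⁰) (A : Matrix n n L) : Prop :=
  ∀ i j, v (A i j) ≤ 1

section
variable {L : Type*} [Field L] {v : Valuation L ℤᵐ⁰} {A B : Matrix n n L}

omit [DecidableEq n] in
lemma patch0_Int.mul (hA : patch0_Int v A) (hB : patch0_Int v B) : patch0_Int v (A * B) :=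
  fun i j => Valuation.map_sum_le _ fun l _ => by
    rw [map_mul]; exact mul_le_one' (hA i l) (hB l j)

omit [Fintype n] in
lemma patch0_diag {d : n → L} (h : ∀ i, v (d i) ≤ 1) : patch0_Int v (diagonal d) := fun i j => by
  rw [diagonal_apply]
  split_ifs
  exacts [h i, by simp]

omit [Fintype n] in
lemma patch0_one_add (h : patch0_Int v A) : patch0_Int v (1 + A) := fun i j =>
  Valuation.map_add_le _ (patch0_diag (d := fun _ => 1) (fun _ => v.map_one.le) i j) (h i j)

omit [Fintype n] in
lemma patch0_tv (i j : n) {c : L} (h : v c ≤ 1) : patch0_Int v (transvection i j c) :=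
  patch0_one_add fun a b => by
    rw [single_apply]
    split_ifs
    exacts [h, by simp]

/-- conjugates of transvections close to the identity are integral -/
lemma patch0_conj (v : Valuation L ℤᵐ⁰) (h : A * B = 1) (i j : n) :
    ∃ M : ℕ, ∀ c, v c ≤ exp (-(M : ℤ)) → patch0_Int v (A * transvection i j c * B) := by
  obtain ⟨γ, hγ⟩ := Finite.exists_le fun x : n × n => v ((A * Matrix.single i j (1 : L) * B) x.1 x.2)
  obtain ⟨M, hM⟩ := patch0_exp γ
  refine ⟨M, fun c hc => ?_⟩
  have e : A * transvection i j c * B = 1 + c • (A * Matrix.single i j (1 : L) * B) := by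
    rw [transvection, Matrix.mul_add, Matrix.add_mul, Matrix.mul_one, h, ← Matrix.smul_mul,
      ← Matrix.mul_smul, smul_single, smul_eq_mul, mul_one]
  rw [e]
  refine patch0_one_add fun a b => ?_
  rw [Matrix.smul_apply, smul_eq_mul, map_mul]
  refine (mul_le_mul' hc ((hγ (a, b)).trans hM)).trans_eq ?_
  rw [← exp_add, neg_add_cancel, exp_zero]

lemma patch0_gl (V : LocalField L) (h : A * B = 1) (hA : patch0_Int V.v A)
    (hB : patch0_Int V.v B) : ∃ H : GL n V.O, (GeneralLinearGroup.map V.incl H).val = A := by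
  have e : (Matrix.of fun i j => (⟨A i j, hA i j⟩ : V.O)) *
      (Matrix.of fun i j => (⟨B i j, hB i j⟩ : V.O)) = 1 := by
    apply Matrix.map_injective V.incl_injective
    change Matrix.map _ V.incl = Matrix.map _ V.incl
    rw [Matrix.map_mul, Matrix.map_one _ V.incl.map_zero V.incl.map_one]
    exact h
  exact ⟨⟨_, _, e, mul_eq_one_comm.1 e⟩, rfl⟩

omit [Fintype n] in
lemma patch0_map_tv {L' : Type*} [Field L'] (φ : L →+* L') (i j : n) (c : L) :
    (transvection i j c).map φ = transvection i j (φ c) := by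
  ext a b
  simp only [transvection, Matrix.map_apply, Matrix.add_apply, Matrix.one_apply, single_apply,
    map_add]
  split_ifs <;> simp

lemma patch0_tv_diag (i j : n) (c : L) {e : n → L} (he : ∀ i, e i ≠ 0) :
    transvection i j c * diagonal e = diagonal e * transvection i j (c * e j / e i) := by
  ext a b
  rw [mul_diagonal, diagonal_mul]
  simp only [transvection, Matrix.add_apply, Matrix.one_apply, single_apply]
  by_cases h : i = a ∧ j = b
  · obtain ⟨rfl, rfl⟩ := h
    have := he i
    split_ifs with h1 h2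
    · subst h1; field_simp
    · simp at h2
    · field_simp; ring
    · simp_all
  · rw [if_neg h, if_neg h]
    split_ifs with h1
    · subst h1; ring
    · simp

end

/-- the matrices that can be patched -/
def patch0_S (p : Irr k) (A : Matrix n n (Kw (some p))) : Prop :=
  ∃ (N N' : Matrix n n (RatFunc k)) (H H' : Matrix n n (Kw (some p))), N * N' = 1 ∧ H * H' = 1 ∧
    (∀ p' : Irr k, p' ≠ p → patch0_Int (plc (some p')).1 N ∧ patch0_Int (plc (some p')).1 N') ∧
    patch0_Int (Vw (some p)).v H ∧ patch0_Int (Vw (some p)).v H' ∧ N.map (toKw _) = H * A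

lemma patch0_S_tv {p : Irr k} {A : Matrix n n (Kw (some p))} (h : patch0_S p A) {i j : n}
    (hij : i ≠ j) (c : Kw (some p)) : patch0_S p (A * transvection i j c) := by
  obtain ⟨N, N', H, H', h1, h2, h3, h4, h5, h6⟩ := h
  have e1 : N.map (toKw (some p)) * N'.map (toKw (some p)) = 1 := by
    rw [← Matrix.map_mul, h1, Matrix.map_one _ (map_zero _) (map_one _)]
  have e2 := mul_eq_one_comm.1 e1
  obtain ⟨M, hM⟩ := patch0_conj (Vw (some p)).v e1 i j
  obtain ⟨x, x1, x2⟩ := approx_one p c M
  refine ⟨N * transvection i j x, transvection i j (-x) * N',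
    N.map (toKw _) * transvection i j (toKw _ x - c) * N'.map (toKw _) * H,
    H' * (N.map (toKw _) * transvection i j (c - toKw _ x) * N'.map (toKw _)), ?_, ?_,
    fun p' hp => ⟨(h3 p' hp).1.mul (patch0_tv i j (x2 p' hp)),
      (patch0_tv i j (by rw [Valuation.map_neg]; exact x2 p' hp)).mul (h3 p' hp).2⟩,
    (hM _ (by rw [Valuation.map_sub_swap]; exact x1)).mul h4, h5.mul (hM _ x1), ?_⟩
  · rw [mul_assoc, ← mul_assoc _ _ N', transvection_mul_transvection_same _ _ hij, add_neg_cancel,
      transvection_zero, one_mul, h1]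
  · rw [mul_assoc _ H, ← mul_assoc H, h2, one_mul]
    simp only [mul_assoc]
    rw [← mul_assoc (N'.map _), e2, one_mul, ← mul_assoc (transvection _ _ _),
      transvection_mul_transvection_same _ _ hij, sub_add_sub_cancel, sub_self,
      transvection_zero, one_mul, e1]
  · rw [mul_assoc _ H, ← mul_assoc H, ← h6, Matrix.map_mul, patch0_map_tv]
    simp only [mul_assoc]
    rw [← mul_assoc (N'.map _), e2, one_mul, transvection_mul_transvection_same _ _ hij,
      sub_add_cancel]

lemma patch0_S_diag (p : Irr k) {d : n → Kw (some p)} (hd : ∀ i, d i ≠ 0) :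
    patch0_S p (diagonal d) := by
  obtain ⟨m, hm⟩ : ∃ m : n → ℤ, ∀ i, (Vw (some p)).v (d i) = exp (-m i) :=
    ⟨fun i => -log ((Vw (some p)).v (d i)), fun i => by
      rw [neg_neg, exp_log ((Valuation.ne_zero_iff _).2 (hd i))]⟩
  have h0 : ∀ i, toKw (some p) (emb (some p) (pol (some p)) ^ m i) ≠ 0 := fun i =>
    (_root_.map_ne_zero _).2 (zpow_ne_zero _ (patch0_ne _))
  refine ⟨diagonal fun i => emb (some p) (pol (some p)) ^ m i,
    diagonal fun i => emb (some p) (pol (some p)) ^ (-m i),
    diagonal fun i => toKw _ (emb (some p) (pol (some p)) ^ m i) / d i,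
    diagonal fun i => d i / toKw _ (emb (some p) (pol (some p)) ^ m i), ?_, ?_,
    fun p' hp => ⟨patch0_diag fun i => (patch0_other hp _).le,
      patch0_diag fun i => (patch0_other hp _).le⟩, patch0_diag fun i => ?_,
    patch0_diag fun i => ?_, ?_⟩
  · rw [diagonal_mul_diagonal, ← diagonal_one]
    congr 1
    funext i
    rw [← zpow_add₀ (patch0_ne _), add_neg_cancel, zpow_zero]
  · rw [diagonal_mul_diagonal, ← diagonal_one]
    congr 1
    funext i
    rw [div_mul_div_cancel₀ (hd i), div_self (h0 i)]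
  · rw [map_div₀, Place.loc_v, patch0_zpow, hm, div_self exp_ne_zero]
  · rw [map_div₀, Place.loc_v, patch0_zpow, hm, div_self exp_ne_zero]
  · rw [diagonal_mul_diagonal, diagonal_map (map_zero _)]
    congr 1
    funext i
    rw [div_mul_cancel₀ _ (hd i)]

lemma patch0_S_all (p : Irr k) {A : Matrix n n (Kw (some p))} (hA : A.det ≠ 0) : patch0_S p A := by
  have key : ∃ d : n → Kw (some p), (∀ i, d i ≠ 0) ∧ ∀ e : n → Kw (some p), (∀ i, e i ≠ 0) →
      ∀ B, patch0_S p (B * diagonal d * diagonal e) → patch0_S p (B * A * diagonal e) := by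
    refine diagonal_transvection_induction_of_det_ne_zero (fun A => ∃ d : n → Kw (some p),
      (∀ i, d i ≠ 0) ∧ ∀ e : n → Kw (some p), (∀ i, e i ≠ 0) →
        ∀ B, patch0_S p (B * diagonal d * diagonal e) → patch0_S p (B * A * diagonal e)) A hA
      (fun D hD => ⟨D, fun i => ?_, fun _ _ _ h => h⟩)
      (fun t => ⟨fun _ => 1, fun _ => one_ne_zero, fun e he B h => ?_⟩) ?_
    · rw [det_diagonal] at hD
      exact Finset.prod_ne_zero_iff.1 hD i (Finset.mem_univ i)
    · rw [diagonal_one, mul_one] at h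
      rw [mul_assoc, TransvectionStruct.toMatrix, patch0_tv_diag _ _ _ he, ← mul_assoc]
      exact patch0_S_tv h t.hij _
    · rintro A A' - - ⟨d, d1, d2⟩ ⟨d', d3, d4⟩
      refine ⟨fun i => d i * d' i, fun i => mul_ne_zero (d1 i) (d3 i), fun e he B h => ?_⟩
      rw [← mul_assoc]
      refine d4 e he _ ?_
      rw [mul_assoc, diagonal_mul_diagonal]
      refine d2 _ (fun i => mul_ne_zero (d3 i) (he i)) _ ?_
      rwa [← diagonal_mul_diagonal, ← mul_assoc, mul_assoc B, diagonal_mul_diagonal]
  obtain ⟨d, d1, d2⟩ := key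
  have := d2 (fun _ => 1) (fun _ => one_ne_zero) 1
  simp only [diagonal_one, mul_one, one_mul] at this
  exact this (patch0_S_diag p d1)

/-- Let `U` be the image of `GL n O` and `Λ` the group of rational matrices that are `IntAt` all
other finite places.  The set `U Λ` is stable under right multiplication by transvections:
`u h E(c) = u (h E(c - c') h⁻¹) h E(c')` with `c'` from `approx_one`.  Write
`M = L D L'` (`Matrix.Pivot.exists_list_transvec_mul_diagonal_mul_list_transvec`), `D = D₁ D₂`
with `D₁` a diagonal matrix of units and `D₂` of powers of `p`; conjugating a transvection by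
`D₁` gives a transvection, so `M = D₁ (D₁⁻¹ L D₁) D₂ L'` lies in `U Λ`. -/
theorem patch_one (p : Irr k) (M : GL n (Kw (some p))) :
    ∃ (N : GL n (RatFunc k)) (H : GL n (Vw (some p)).O),
      GeneralLinearGroup.map (toKw _) N = GeneralLinearGroup.map (Vw (some p)).incl H * M ∧
      ∀ p' : Irr k, p' ≠ p → IntAt (some p') N := by
  obtain ⟨N, N', H, H', h1, h2, h3, h4, h5, h6⟩ := patch0_S_all p M.det_ne_zero
  obtain ⟨G, hG⟩ := patch0_gl _ h2 h4 h5
  refine ⟨⟨N, N', h1, mul_eq_one_comm.1 h1⟩, G, Units.ext ?_, fun p' hp => ?_⟩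
  · rw [Units.val_mul, hG]
    exact h6
  · have e : N.map (toKw (some p')) * N'.map (toKw (some p')) = 1 := by
      rw [← Matrix.map_mul, h1, Matrix.map_one _ (map_zero _) (map_one _)]
    obtain ⟨G', hG'⟩ := patch0_gl (Vw (some p')) e
      (fun i j => (Place.loc_v _ _).trans_le ((h3 p' hp).1 i j))
      fun i j => (Place.loc_v _ _).trans_le ((h3 p' hp).2 i j)
    exact ⟨G', Units.ext hG'.symm⟩

end SelAvg

/-!
Patching at finitely many places.
-/

namespace SelAvg

open WithZero Polynomial Matrix
open scoped Classical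

universe u

variable {k : Type u} [Field k] {n : Type} [Fintype n] [DecidableEq n]

lemma patch1_lift {R S : Type*} [CommRing R] [CommRing S] (f : R →+* S)
    (hf : Function.Injective f) (N : GL n S) (h1 : ∀ i j, ∃ a, f a = (N : Matrix n n S) i j)
    (h2 : ∀ i j, ∃ a, f a = ((N⁻¹ : GL n S) : Matrix n n S) i j) :
    ∃ H : GL n R, GeneralLinearGroup.map f H = N := by
  choose A hA using h1
  choose B hB using h2
  have eA : f.mapMatrix (Matrix.of A) = (N : Matrix n n S) := by
    ext i j
    exact hA i j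
  have eB : f.mapMatrix (Matrix.of B) = ((N⁻¹ : GL n S) : Matrix n n S) := by
    ext i j
    exact hB i j
  have hinj : Function.Injective (f.mapMatrix : Matrix n n R → Matrix n n S) :=
    Matrix.map_injective hf
  refine ⟨⟨Matrix.of A, Matrix.of B, hinj ?_, hinj ?_⟩, ?_⟩
  · rw [map_mul, map_one, eA, eB, Units.mul_inv]
  · rw [map_mul, map_one, eA, eB, Units.inv_mul]
  · exact Units.ext eA

lemma patch1_intAt_iff (w : Option (Irr k)) (N : GL n (RatFunc k)) :
    IntAt w N ↔ (∀ i j, (plc w).1 ((N : Matrix n n (RatFunc k)) i j) ≤ 1) ∧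
      ∀ i j, (plc w).1 (((N⁻¹ : GL n (RatFunc k)) : Matrix n n (RatFunc k)) i j) ≤ 1 := by
  have key : ∀ (N : GL n (RatFunc k)) (H : GL n (Vw w).O),
      GeneralLinearGroup.map (toKw w) N = GeneralLinearGroup.map (Vw w).incl H →
      ∀ i j, (plc w).1 ((N : Matrix n n (RatFunc k)) i j) ≤ 1 := by
    intro N H e i j
    have e' : toKw w ((N : Matrix n n (RatFunc k)) i j) =
        (Vw w).incl ((H : Matrix n n (Vw w).O) i j) :=
      congrArg (fun g : GL n (Kw w) => (g : Matrix n n (Kw w)) i j) e
    rw [← Place.loc_v, e']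
    exact (Vw w).v_le_one _
  constructor
  · rintro ⟨H, e⟩
    exact ⟨key N H e, key N⁻¹ H⁻¹ (by rw [map_inv, map_inv, e])⟩
  · rintro ⟨h1, h2⟩
    obtain ⟨H, e⟩ := patch1_lift (Vw w).incl (Vw w).incl_injective
      (GeneralLinearGroup.map (toKw w) N)
      (fun i j => ⟨⟨toKw w ((N : Matrix n n (RatFunc k)) i j), by
        rw [Valuation.mem_valuationSubring_iff, Place.loc_v]
        exact h1 i j⟩, rfl⟩)
      (fun i j => ⟨⟨toKw w (((N⁻¹ : GL n (RatFunc k)) : Matrix n n (RatFunc k)) i j), by
        rw [Valuation.mem_valuationSubring_iff, Place.loc_v]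
        exact h2 i j⟩, rfl⟩)
    exact ⟨H, e.symm⟩

/-- induction on `T`: apply `patch_one` to `M p * N⁻¹` -/
theorem patch (T : Finset (Irr k)) (M : ∀ p : Irr k, GL n (Kw (some p))) :
    ∃ N : GL n (RatFunc k),
      (∀ p ∈ T, ∃ H : GL n (Vw (some p)).O,
        GeneralLinearGroup.map (toKw _) N = GeneralLinearGroup.map (Vw (some p)).incl H * M p) ∧
      ∀ p ∉ T, IntAt (some p) N := by
  induction T using Finset.induction_on with
  | empty => exact ⟨1, by simp, fun p _ => ⟨1, by rw [map_one, map_one]⟩⟩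
  | insert p T hp ih =>
    obtain ⟨N, h1, h2⟩ := ih
    obtain ⟨N', H, e, h3⟩ := patch_one p (M p * (GeneralLinearGroup.map (toKw _) N)⁻¹)
    refine ⟨N' * N, fun q hq => ?_, fun q hq => ?_⟩
    · rcases Finset.mem_insert.1 hq with rfl | hq'
      · exact ⟨H, by rw [map_mul, e, mul_assoc, inv_mul_cancel_right]⟩
      · obtain ⟨H1, e1⟩ := h1 q hq'
        obtain ⟨H2, e2⟩ := h3 q (fun h => hp (h ▸ hq'))
        exact ⟨H2 * H1, by rw [map_mul, map_mul, e1, e2, mul_assoc]⟩
    · rw [Finset.mem_insert, not_or] at hq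
      obtain ⟨H1, e1⟩ := h2 q hq.2
      obtain ⟨H2, e2⟩ := h3 q hq.1
      exact ⟨H2 * H1, by rw [map_mul, map_mul, e1, e2]⟩

/-- a rational matrix is integral at almost all places -/
theorem finite_not_intAt (N : GL n (RatFunc k)) : {p : Irr k | ¬IntAt (some p) N}.Finite := by
  have hx : ∀ x : RatFunc k, {p : Irr k | ¬(plc (some p)).1 x ≤ 1}.Finite := by
    intro x
    by_cases h0 : x = 0
    · subst h0
      simp
    · exact (finite_val_ne_one h0).subset fun p hp h => hp h.le
  refine ((Set.finite_iUnion fun i : n => Set.finite_iUnion fun j : n =>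
    hx ((N : Matrix n n (RatFunc k)) i j)).union (Set.finite_iUnion fun i : n =>
    Set.finite_iUnion fun j : n =>
      hx (((N⁻¹ : GL n (RatFunc k)) : Matrix n n (RatFunc k)) i j))).subset fun p hp => ?_
  rw [Set.mem_ofPred_eq, patch1_intAt_iff, not_and_or] at hp
  simp only [Set.mem_union, Set.mem_iUnion, Set.mem_ofPred_eq]
  rcases hp with hp | hp
  · left
    simpa only [not_forall] using hp
  · right
    simpa only [not_forall] using hp

theorem exists_map_of_forall_intAt {N : GL n (RatFunc k)} (h : ∀ p : Irr k, IntAt (some p) N) :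
    ∃ H : GL n k[X], GeneralLinearGroup.map (toK k) H = N :=
  patch1_lift (toK k) (IsFractionRing.injective k[X] (RatFunc k)) N
    (fun i j => exists_toK_of_forall_le fun p => ((patch1_intAt_iff _ N).1 (h p)).1 i j)
    (fun i j => exists_toK_of_forall_le fun p => ((patch1_intAt_iff _ N).1 (h p)).2 i j)

end SelAvg

/-!
The Hasse principle for conics over the rational function field.
-/

namespace SelAvg

open WithZero Polynomial Matrix
open scoped Classical

universe u

variable {k : Type u} [Field k]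

lemma hasse_tstd_map {R S : Type*} [CommRing R] [CommRing S] (φ : R →+* S) :
    (fun i => φ (tstd i)) = (tstd : Fin 6 → S) := by
  funext i
  fin_cases i <;> simp [tstd]

lemma hasse_det_unit {R : Type*} [CommRing R] (H : GL (Fin 3) R) :
    IsUnit (H : Matrix (Fin 3) (Fin 3) R).det := (Matrix.isUnit_iff_isUnit_det _).1 H.isUnit

lemma hasse_local {a : Fin 6 → RatFunc k} {δ : RatFunc k} (hδ : δ ≠ 0) (h : hd a = δ ^ 2)
    (w : Option (Irr k)) (hi : Isotropic fun i => toKw w (a i)) :
    ∃ T : GL (Fin 3) (Kw w), tcomp (fun i => toKw w (a i)) T = tstd := by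
  obtain ⟨T, hT, hT'⟩ := exists_tcomp_eq_tstd (δ := toKw w δ) ((_root_.map_ne_zero _).2 hδ)
    (by rw [hd_map, h, map_pow]) hi
  exact ⟨GeneralLinearGroup.mkOfDetNeZero T hT, hT'⟩

/-- a model with polynomial coefficients and unit half discriminant -/
lemma hasse_poly {a : Fin 6 → RatFunc k} {δ : RatFunc k} (hδ : δ ≠ 0) (h : hd a = δ ^ 2)
    (hi : ∀ p : Irr k, Isotropic fun i => toKw (some p) (a i)) :
    ∃ (N : GL (Fin 3) (RatFunc k)) (β : Fin 6 → k[X]), IsUnit (hd β) ∧
      tcomp a N = fun i => toK k (β i) := by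
  choose T hT using fun p : Irr k => hasse_local hδ h (some p) (hi p)
  have hfin : ({p : Irr k | (plc (some p)).1 δ ≠ 1} ∪
      ⋃ i, {p : Irr k | ¬(plc (some p)).1 (a i) ≤ 1}).Finite := by
    refine (finite_val_ne_one hδ).union (Set.finite_iUnion fun i => ?_)
    by_cases hi : a i = 0
    · simp [hi]
    · exact (finite_val_ne_one hi).subset fun p hp h => hp h.le
  obtain ⟨N, hN, hN'⟩ := patch hfin.toFinset T
  have key : ∀ p : Irr k, ∃ b : Fin 6 → (Vw (some p)).O, IsUnit (hd b) ∧
      (fun i => toKw (some p) (tcomp a N i)) = fun i => (Vw (some p)).incl (b i) := by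
    intro p
    by_cases hp : p ∈ hfin.toFinset
    · obtain ⟨H, hH⟩ := hN p hp
      have hH' : (N : Matrix (Fin 3) (Fin 3) (RatFunc k)).map (toKw (some p)) =
          (H : Matrix (Fin 3) (Fin 3) _).map (Vw (some p)).incl * T p := congrArg Units.val hH
      refine ⟨tcomp tstd H, ?_, ?_⟩
      · rw [hd_tcomp, hd_tstd, mul_one]
        exact (hasse_det_unit H).pow 2
      · rw [← tcomp_map, hH', tcomp_mul, hT, ← tcomp_map, hasse_tstd_map]
    · obtain ⟨H, hH⟩ := hN' p hp
      have hH' : (N : Matrix (Fin 3) (Fin 3) (RatFunc k)).map (toKw (some p)) =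
          (H : Matrix (Fin 3) (Fin 3) _).map (Vw (some p)).incl := congrArg Units.val hH
      simp only [Set.Finite.mem_toFinset, Set.mem_union, Set.mem_ofPred_eq, Set.mem_iUnion,
        not_or, not_exists, not_not] at hp
      have hle : ∀ i, (Vw (some p)).v (toKw (some p) (a i)) ≤ 1 := fun i => by
        rw [Place.loc_v]; exact hp.2 i
      let a' : Fin 6 → (Vw (some p)).O := fun i => ⟨toKw (some p) (a i), hle i⟩
      have ha' : (fun i => toKw (some p) (a i)) = fun i => (Vw (some p)).incl (a' i) := rfl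
      refine ⟨tcomp a' H, ?_, ?_⟩
      · rw [hd_tcomp]
        refine ((hasse_det_unit H).pow 2).mul (((Vw (some p)).isUnit_iff _).2 ?_)
        change (Vw (some p)).v ((Vw (some p)).incl (hd a')) = 1
        rw [← hd_map, ← ha', hd_map, Place.loc_v, h, map_pow, hp.1, one_pow]
      · rw [← tcomp_map, hH', ha', tcomp_map]
  have hint : ∀ i, ∃ b : k[X], toK k b = tcomp a N i := by
    intro i
    refine exists_toK_of_forall_le fun p => ?_
    obtain ⟨b, -, hb⟩ := key p
    rw [← Place.loc_v, congrFun hb i]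
    exact (Vw (some p)).v_le_one _
  choose β hβ using hint
  have hβ' : tcomp a N = fun i => toK k (β i) := funext fun i => (hβ i).symm
  refine ⟨N, β, isUnit_of_forall_val fun p => ?_, hβ'⟩
  obtain ⟨b, hb, hb'⟩ := key p
  rw [← hd_map, ← hβ', ← Place.loc_v, ← hd_map, hb', hd_map]
  exact ((Vw (some p)).isUnit_iff _).1 hb

lemma hasse_v_pow (m : ℤ) :
    (Vw (none : Option (Irr k))).v (toKw none (RatFunc.X ^ m)) = exp m := by
  rw [Place.loc_v, map_zpow₀, val_infty_X, ← WithZero.exp_zsmul]; simp

lemma hasse_deg {b : k[X]} (hb : b ≠ 0) (m m' : ℤ)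
    (h : (Vw (none : Option (Irr k))).v (toKw none (toK k b) * toKw none (RatFunc.X ^ m) *
      toKw none (RatFunc.X ^ m')) ≤ 1) : (b.natDegree : ℤ) + m + m' ≤ 0 := by
  rwa [map_mul, map_mul, hasse_v_pow, hasse_v_pow, Place.loc_v, val_infty_toK hb, ← exp_add,
    ← exp_add, ← exp_zero, exp_le_exp] at h

lemma hasse_basis {R : Type*} [CommRing R] [Nontrivial R] {a : Fin 6 → R}
    (h : a 0 = 0 ∨ a 1 = 0 ∨ a 2 = 0) : Isotropic a := by
  rcases h with h | h | h
  · exact ⟨![1, 0, 0], fun e => by simpa using congrFun e 0, by simp [tern, h]⟩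
  · exact ⟨![0, 1, 0], fun e => by simpa using congrFun e 1, by simp [tern, h]⟩
  · exact ⟨![0, 0, 1], fun e => by simpa using congrFun e 2, by simp [tern, h]⟩

lemma hasse_final [Finite k] {β : Fin 6 → k[X]} (hβ : IsUnit (hd β)) (α : Fin 3 → ℤ)
    (b : Fin 6 → (Vw (none : Option (Irr k))).O) (hb : IsUnit (hd b))
    (h : tcomp (fun i => toKw none (toK k (β i))) (diagonal fun i => toKw none (RatFunc.X ^ α i)) =
      fun i => (Vw none).incl (b i)) : Isotropic fun i => toK k (β i) := by
  have hsum : α 0 + α 1 + α 2 = 0 := by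
    have h1 := congrArg (fun c => (Vw (none : Option (Irr k))).v (hd c)) h
    simp only
      [hd_tcomp, det_diagonal, Fin.prod_univ_three, map_mul, map_pow, hasse_v_pow] at h1
    rw [hd_map (toKw none) (fun i => toK k (β i)), hd_map, hd_map, Place.loc_v,
      val_infty_toK hβ.ne_zero, natDegree_eq_zero_of_isUnit hβ] at h1
    have h2 : (Vw (none : Option (Irr k))).v ((Vw none).incl (hd b)) = 1 :=
      ((Vw none).isUnit_iff _).1 hb
    rw [h2, sq, ← exp_add, ← exp_add, ← exp_add, ← exp_add, ← exp_zero, exp_inj] at h1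
    omega
  have hle : ∀ i, (Vw (none : Option (Irr k))).v (tcomp (fun i => toKw none (toK k (β i)))
      (diagonal fun i => toKw none (RatFunc.X ^ α i)) i) ≤ 1 := fun i => by
    rw [h]; exact (Vw none).v_le_one _
  rw [tcomp_diagonal] at hle
  by_cases h0 : β 0 = 0 ∨ β 1 = 0 ∨ β 2 = 0
  · refine hasse_basis ?_
    simpa using h0
  simp only [not_or] at h0
  have e0 := hasse_deg h0.1 (α 0) (α 0) (by rw [mul_assoc, ← sq]; exact hle 0)
  have e1 := hasse_deg h0.2.1 (α 1) (α 1) (by rw [mul_assoc, ← sq]; exact hle 1)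
  have e2 := hasse_deg h0.2.2 (α 2) (α 2) (by rw [mul_assoc, ← sq]; exact hle 2)
  have hdeg : ∀ i, (β i).natDegree = 0 := by
    intro i
    by_cases hi : β i = 0
    · rw [hi, natDegree_zero]
    fin_cases i
    · change (β 0).natDegree = 0
      omega
    · change (β 1).natDegree = 0
      omega
    · change (β 2).natDegree = 0
      omega
    · have := hasse_deg hi (α 0) (α 1) (hle 3)
      omega
    · have := hasse_deg hi (α 0) (α 2) (hle 4)
      omega
    · have := hasse_deg hi (α 1) (α 2) (hle 5)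
      omega
  obtain ⟨c, hc, hc'⟩ := isotropic_of_finite fun i => (β i).coeff 0
  have hβ' : (fun i => toK k (β i)) = fun i => ((toK k).comp C) ((β i).coeff 0) := by
    funext i
    rw [RingHom.comp_apply, ← eq_C_of_natDegree_eq_zero (hdeg i)]
  refine ⟨fun i => ((toK k).comp C) (c i), fun e => hc ?_, ?_⟩
  · funext i
    exact (map_eq_zero _).1 (congrFun e i)
  · rw [hβ', tern_map, hc', map_zero]

/-- For every place take `T w` with `tcomp a (T w) = tstd` (`exists_tcomp_eq_tstd`).  Let `S` be
the finite set of finite places where some `a i` is not integral or `δ` is not a unit.  By `patch`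
there is `N` such that `tcomp a N` is integral with unit half discriminant at all finite places.
By `birkhoff`, `T∞ N⁻¹ = U diag(t^(α i)) H`.  Then `a' = tcomp a (H N)` has polynomial
coefficients and constant nonzero half discriminant, and `tcomp a' (diag (t^(α i)))` is integral
with unit half discriminant at infinity, so `∑ α i = 0`.  If some `α i > 0` the diagonal
coefficient `a' i` has negative degree, so it vanishes and the basis vector is isotropic.
Otherwise all `α i = 0`, the form `a'` is constant and `isotropic_of_finite` applies. -/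
theorem hasseConic [Finite k] : HasseConic (RatFunc k) := by
  intro a δ hδ h hi
  obtain ⟨N, β, hβ, hN⟩ := hasse_poly hδ h fun p => hi (plc (some p))
  obtain ⟨T, hT⟩ := hasse_local hδ h none (hi (plc none))
  obtain ⟨U, α, H, hU⟩ := birkhoff (T * (GeneralLinearGroup.map (toKw none) N)⁻¹)
  have hT' : (T : Matrix (Fin 3) (Fin 3) (Kw none)) =
      (U : Matrix (Fin 3) (Fin 3) _).map (Vw none).incl *
        (diagonal (fun i => toKw none (RatFunc.X ^ α i)) *
        ((H : Matrix (Fin 3) (Fin 3) k[X]).map ((toKw none).comp (toK k)) *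
          (N : Matrix (Fin 3) (Fin 3) (RatFunc k)).map (toKw none))) := by
    rw [← Matrix.mul_assoc, ← Matrix.mul_assoc, ← hU]
    exact congrArg Units.val
      (inv_mul_cancel_right T (GeneralLinearGroup.map (toKw none) N)).symm
  rw [hT', tcomp_mul, tcomp_mul, tcomp_mul, tcomp_map, hN] at hT
  have hT2 := congrArg (fun c => tcomp c (((U⁻¹ : GL (Fin 3) _) : Matrix (Fin 3) (Fin 3) _).map
    (Vw none).incl)) hT
  simp only at hT2
  rw [← tcomp_mul, ← Matrix.map_mul, ← Units.val_mul, inv_mul_cancel, Units.val_one,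
    Matrix.map_one _ (map_zero _) (map_one _), tcomp_one, ← hasse_tstd_map (Vw none).incl,
    tcomp_map] at hT2
  have hH := tcomp_map ((toKw none).comp (toK k)) β H
  simp only [RingHom.comp_apply] at hH
  rw [hH] at hT2
  have hiso := hasse_final (β := tcomp β H) (by
    rw [hd_tcomp]; exact ((hasse_det_unit H).pow 2).mul hβ) α _ (by
    rw [hd_tcomp, hd_tstd, mul_one]; exact (hasse_det_unit _).pow 2) hT2
  rw [← tcomp_map, ← hN, isotropic_tcomp, isotropic_tcomp] at hiso
  · exact hiso
  · exact (hasse_det_unit N).ne_zero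
  · rw [← RingHom.mapMatrix_apply, ← RingHom.map_det]
    exact ((hasse_det_unit H).map _).ne_zero

end SelAvg

/-!
The nontrivial elements of the Selmer group correspond to orbits of objects.
-/

namespace SelAvg

open WeierstrassCurve Polynomial
open scoped Classical

universe u

variable {k : Type u} [Field k]

/-- everywhere locally soluble -/
def ELS (f : Model (RatFunc k)) : Prop := ∀ w : Option (Irr k), (f.map (toKw w)).Soluble

/-- the isomorphism classes of objects -/
abbrev Orb (K : Type u) [Field K] : Type u := MulAction.orbitRel.Quotient (G K) (Obj K)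

/-- the class of an object -/
def orb {K : Type u} [Field K] (z : Obj K) : Orb K := Quotient.mk _ z

lemma orb_eq_iff {K : Type u} [Field K] {z z' : Obj K} :
    orb z = orb z' ↔ ∃ g : G K, g • z' = z := by
  unfold orb
  rw [Quotient.eq]
  exact MulAction.orbitRel_apply.trans MulAction.mem_orbit_iff

/-- the classes of everywhere locally soluble nontrivial objects over `W` -/
def SelOrb (W : WeierstrassCurve (RatFunc k)) : Set (Orb (RatFunc k)) :=
  {x | ∃ z, orb z = x ∧ z.Over W ∧ ELS z.f ∧ ¬z.f.Triv}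

/-- change of the base curve on classes -/
def selOrb_rmul {K : Type u} [Field K] (C : VariableChange K) : Orb K → Orb K :=
  Quotient.lift (fun z => orb (z.rmul C)) fun z z' h => by
    obtain ⟨g, hg⟩ := orb_eq_iff.1 (Quotient.sound h)
    exact orb_eq_iff.2 ⟨g, by rw [Obj.smul_rmul, hg]⟩

lemma selOrb_rmul_orb {K : Type u} [Field K] (C : VariableChange K) (z : Obj K) :
    selOrb_rmul C (orb z) = orb (z.rmul C) := rfl

lemma selOrb_rmul_inj {K : Type u} [Field K] (C : VariableChange K) :
    Function.Injective (selOrb_rmul C) := by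
  refine Function.LeftInverse.injective (g := selOrb_rmul C⁻¹) fun x => ?_
  obtain ⟨z, rfl⟩ : ∃ z, orb z = x := Quotient.exists_rep x
  rw [selOrb_rmul_orb, selOrb_rmul_orb, Obj.rmul_rmul, mul_inv_cancel, Obj.rmul_one]

lemma selOrb_image (W : WeierstrassCurve (RatFunc k)) (C : VariableChange (RatFunc k)) :
    selOrb_rmul C '' SelOrb (C • W) = SelOrb W := by
  ext x
  constructor
  · rintro ⟨_, ⟨z, rfl, h1, h2, h3⟩, rfl⟩
    exact ⟨z.rmul C, rfl, h1.rmul, h2, h3⟩
  · rintro ⟨z, rfl, h1, h2, h3⟩
    refine ⟨orb (z.rmul C⁻¹), ⟨_, rfl, Obj.Over.rmul ?_, h2, h3⟩, ?_⟩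
    · rwa [inv_smul_smul]
    · rw [selOrb_rmul_orb, Obj.rmul_rmul, inv_mul_cancel, Obj.rmul_one]

lemma selOrb_encard_smul (W : WeierstrassCurve (RatFunc k)) (C : VariableChange (RatFunc k)) :
    (SelOrb (C • W)).encard = (SelOrb W).encard := by
  rw [← selOrb_image W C, (selOrb_rmul_inj C).encard_image]

lemma selOrb_cl_out {K : Type u} [Field K] {W : WeierstrassCurve K} (hW : W.Δ ≠ 0) {z : Obj K}
    (hz : z.Over W) : cl W (orb z).out = cl W z := by
  obtain ⟨g, hg⟩ : ∃ g : G K, g • z = (orb z).out := orb_eq_iff.1 (Quotient.out_eq (orb z))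
  rw [← hg, cl_smul hW hz]

lemma selOrb_els_iff [Finite k] {W : WeierstrassCurve (RatFunc k)} (hW : W.Δ ≠ 0)
    {z : Obj (RatFunc k)} (hz : z.Over W) : cl W z ∈ Sel W 2 ↔ ELS z.f := by
  rw [cl_mem_Sel_iff hW hz]
  exact plc_surjective.forall

lemma selOrb_bij [Finite k] {W : WeierstrassCurve (RatFunc k)} (hW : W.Δ ≠ 0) :
    Set.BijOn (fun x : Orb (RatFunc k) => cl W x.out) (SelOrb W) (Sel W 2 \ {trivClass W 2}) := by
  refine ⟨?_, ?_, ?_⟩
  · rintro _ ⟨z, rfl, h1, h2, h3⟩
    simp only [selOrb_cl_out hW h1]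
    exact ⟨(selOrb_els_iff hW h1).2 h2, fun h => h3 ((cl_eq_triv_iff hW h1).1 h)⟩
  · rintro _ ⟨z, rfl, h1, -, -⟩ _ ⟨z', rfl, h1', -, -⟩ h
    simp only [selOrb_cl_out hW h1, selOrb_cl_out hW h1'] at h
    exact orb_eq_iff.2 (exists_smul_of_cl_eq hW h1 h1' h)
  · rintro x ⟨hx, hx'⟩
    obtain ⟨z, hz, rfl⟩ := exists_obj_of_mem_Sel hasseConic hW hx
    exact ⟨orb z, ⟨z, rfl, hz, (selOrb_els_iff hW hz).1 hx,
      fun h => hx' ((cl_eq_triv_iff hW hz).2 h)⟩, selOrb_cl_out hW hz⟩

/-- The map `orb z ↦ cl W (z.rmul C)` is a bijection from `SelOrb (C • W)` onto the complement of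
`trivClass W 2` in `Sel W 2`: `cl_smul`, `exists_smul_of_cl_eq`, `cl_mem_Sel_iff`,
`plc_surjective`, `cl_eq_triv_iff`, `exists_obj_of_mem_Sel hasseConic`, `trivClass_mem_Sel`,
`Obj.smul_rmul`, `Obj.rmul_rmul`. -/
theorem encard_Sel [Finite k] {W : WeierstrassCurve (RatFunc k)} (hW : W.Δ ≠ 0)
    (C : VariableChange (RatFunc k)) : (Sel W 2).encard = (SelOrb (C • W)).encard + 1 := by
  rw [selOrb_encard_smul, ← (selOrb_bij hW).injOn.encard_image, (selOrb_bij hW).image_eq,
    Set.encard_sdiff_singleton_add_one trivClass_mem_Sel]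

theorem finite_Sel [Finite k] {W : WeierstrassCurve (RatFunc k)} (hW : W.Δ ≠ 0)
    (C : VariableChange (RatFunc k)) (h : (SelOrb (C • W)).Finite) :
    (Sel W 2).Finite ∧ (Sel W 2).ncard = (SelOrb (C • W)).ncard + 1 := by
  have h1 := encard_Sel hW C
  rw [← h.cast_ncard_eq] at h1
  have h2 : (Sel W 2).Finite := Set.finite_of_encard_eq_coe (k := (SelOrb (C • W)).ncard + 1)
    (by rw [h1]; norm_cast)
  refine ⟨h2, ?_⟩
  rw [← h2.cast_ncard_eq] at h1
  exact_mod_cast h1

/-- the number of classes does not depend on the model (`orb z ↦ orb (z.rmul C)`) -/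
theorem ncard_SelOrb_smul (W : WeierstrassCurve (RatFunc k)) (C : VariableChange (RatFunc k)) :
    (SelOrb (C • W)).ncard = (SelOrb W).ncard := by
  rw [Set.ncard_def, Set.ncard_def, selOrb_encard_smul]

/-- a bound for the number of automorphisms modulo scalars -/
def AutLE (W : WeierstrassCurve (RatFunc k)) (A : ℕ) : Prop :=
  ∀ z : Obj (RatFunc k), z.Over W → ∀ s : Finset (G (RatFunc k)), (∀ g ∈ s, g • z = z) →
    (∀ g ∈ s, ∀ g' ∈ s, ∀ t, g' = G.scalar t * g → g = g') → s.card ≤ A

/-- the bound is `1` without rational 2-torsion and `4` in general -/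
noncomputable def autB (W : WeierstrassCurve (RatFunc k)) : ℕ := if NoTwoTorsion W then 1 else 4

/-- `aut_eq_scalar`, `aut_card_le` -/
theorem autLE_autB {W : WeierstrassCurve (RatFunc k)} (hW : W.Δ ≠ 0) : AutLE W (autB W) := by
  intro z hz s hs hs'
  unfold autB
  split_ifs with h2
  · refine Finset.card_le_one.2 fun g hg g' hg' => ?_
    obtain ⟨t, ht⟩ := aut_eq_scalar hW h2 hz (g := g' * g⁻¹) (by
      rw [mul_smul, inv_smul_eq_iff.2 (hs g hg).symm, hs g' hg'])
    exact hs' g hg g' hg' t (by rw [← ht, inv_mul_cancel_right])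
  · exact aut_card_le hW hz s hs hs'

end SelAvg
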