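import Pool.Agent.H38Sel.AlgC
import Pool.Agent.H38Sel.RatA

/-!
Boxes of polynomials of bounded degree and averaging lemmas.
-/

namespace SelAvg

open Polynomial
open scoped Classical

universe u

section Avg

variable {α β : Type*}

/-- Fubini in one coordinate (`Fintype.piFinset`; if some `S j` is empty both sides are `0`).  The
map `(x, a) ↦ (update x i a, x i)` is an involution of `piFinset S ×ˢ S i`. -/
theorem avg_pi_update {m : ℕ} (S : Fin m → Finset α) (i : Fin m) (F : (Fin m → α) → ℝ) :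
    avg (Fintype.piFinset S) F =
      avg (Fintype.piFinset S) (fun x => avg (S i) (fun a => F (Function.update x i a))) := by
  rcases (Fintype.piFinset S).eq_empty_or_nonempty with h | ⟨x₀, h⟩
  · simp [h, avg]
  have hi : (S i).Nonempty := ⟨_, Fintype.mem_piFinset.1 h i⟩
  have key : ∀ p ∈ Fintype.piFinset S ×ˢ S i,
      (Function.update p.1 i p.2, p.1 i) ∈ Fintype.piFinset S ×ˢ S i := fun p hp => by
    rw [Finset.mem_product, Fintype.mem_piFinset] at hp ⊢
    refine ⟨fun j => ?_, hp.1 i⟩
    rcases eq_or_ne j i with rfl | hj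
    · simpa using hp.2
    · simpa [hj] using hp.1 j
  rw [← avg_product _ _ fun p => F (Function.update p.1 i p.2),
    avg_congr fun x _ => (avg_const hi (F x)).symm, ← avg_product _ _ fun p => F p.1]
  unfold avg
  congr 1
  exact Finset.sum_nbij' (fun p => (Function.update p.1 i p.2, p.1 i))
    (fun p => (Function.update p.1 i p.2, p.1 i)) key key (by simp) (by simp) (by simp)

/-- averaging over translates -/
theorem avg_shift [AddCommGroup α] {s : Finset α} (hs : ∀ x ∈ s, ∀ y ∈ s, x + y ∈ s)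
    {t : Finset β} (ht : t.Nonempty) (φ : β → α) (hφ : ∀ w ∈ t, φ w ∈ s) (F : α → ℝ) :
    avg s F = avg s (fun x => avg t (fun w => F (x + φ w))) := by
  have key : ∀ w ∈ t, avg s (fun x => F (x + φ w)) = avg s F := fun w hw => by
    have h1 : s.map (addRightEmbedding (φ w)) = s :=
      Finset.eq_of_subset_of_card_le (fun y hy => by
        obtain ⟨x, hx, rfl⟩ := Finset.mem_map.1 hy
        exact hs x hx _ (hφ w hw)) (by simp)
    conv_rhs => rw [← h1, avg_map]
    rfl
  rw [← avg_const ht (avg s F), ← avg_congr key]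
  simp only [avg, ← Finset.sum_div]
  rw [Finset.sum_comm, div_right_comm]

/-- all fibres of a surjective additive map on a finite subgroup have the same size -/
theorem avg_comp_hom [AddCommGroup α] [AddCommGroup β] [Fintype β] {s : Finset α}
    (h0 : (0 : α) ∈ s) (hs : ∀ x ∈ s, ∀ y ∈ s, x - y ∈ s) (φ : α →+ β)
    (hφ : ∀ b, ∃ x ∈ s, φ x = b) (F : β → ℝ) :
    avg s (fun x => F (φ x)) = avg Finset.univ F := by
  choose σ h1 h2 using hφ
  rw [avg_shift (fun x hx y hy => by simpa using hs x hx _ (hs 0 h0 y hy)) Finset.univ_nonempty σ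
    fun b _ => h1 b, ← avg_const ⟨0, h0⟩ (avg Finset.univ F)]
  refine avg_congr fun x _ => ?_
  simp only [map_add, h2, avg]
  rw [← Equiv.sum_comp (Equiv.addLeft (φ x)) F]
  rfl

/-- the mean of a product of functions of independent coordinates (`Finset.prod_univ_sum`) -/
theorem avg_univ_prod {ι : Type*} [Fintype ι] [DecidableEq ι] {γ : ι → Type*}
    [∀ i, Fintype (γ i)] (F : ∀ i, γ i → ℝ) :
    avg (Finset.univ : Finset (∀ i, γ i)) (fun x => ∏ i, F i (x i)) =
      ∏ i, avg Finset.univ (F i) := by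
  simp only [avg, Finset.prod_div_distrib, Finset.prod_univ_sum, Fintype.piFinset_univ,
    Finset.card_univ, Fintype.card_pi, Nat.cast_prod]

lemma avg_equiv [Fintype α] [Fintype β] (e : α ≃ β) (F : β → ℝ) :
    avg Finset.univ (fun x => F (e x)) = avg Finset.univ F := by
  simp only [avg, Equiv.sum_comp e F, Finset.card_univ, Fintype.card_congr e]

lemma dens_le_of_card_le {s : Finset α} {P : α → Prop} {c : ℝ}
    (h : ((s.filter P).card : ℝ) ≤ c * s.card) (hc : 0 ≤ c) : dens s P ≤ c := by
  exact div_le_of_le_mul₀ (Nat.cast_nonneg _) hc h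

/-- a density is bounded by a bad density plus a uniform bound for the fibres -/
theorem dens_pi_le {m : ℕ} (S : Fin m → Finset α) (i : Fin m) (P B : (Fin m → α) → Prop)
    {c : ℝ} (hc : 0 ≤ c) (h : ∀ x ∈ Fintype.piFinset S, ¬B x →
      dens (S i) (fun a => P (Function.update x i a)) ≤ c) :
    dens (Fintype.piFinset S) P ≤ dens (Fintype.piFinset S) B + c := by
  rw [dens_eq_avg, dens_eq_avg, avg_pi_update S i]
  refine (avg_mono (G := fun x => ind (B x) + c) fun x hx => ?_).trans ?_
  · rw [← dens_eq_avg]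
    by_cases hB : B x
    · rw [ind_pos hB]
      exact (dens_le_one _ _).trans (le_add_of_nonneg_right hc)
    · rw [ind_neg hB, zero_add]
      exact h x hx hB
  · rw [avg_add]
    exact add_le_add le_rfl (avg_le_of_le hc fun _ _ => le_rfl)

end Avg

variable {k : Type u} [Field k] [Finite k]

lemma box_finite_lt (k : Type u) [Field k] [Finite k] (n : ℕ) :
    {a : k[X] | a.degree < n}.Finite := by
  have : Finite (degreeLT k n) := Finite.of_equiv _ (degreeLTEquiv k n).toEquiv.symm
  exact (Set.toFinite (degreeLT k n : Set k[X])).subset fun a ha => mem_degreeLT.2 ha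

lemma box_card_lt (n : ℕ) : (box_finite_lt k n).toFinset.card = Nat.card k ^ n := by
  have h := Nat.card_congr (degreeLTEquiv k n).toEquiv
  rw [Nat.card_fun, Nat.card_eq_fintype_card (α := Fin n), Fintype.card_fin] at h
  rw [← h, ← Nat.card_eq_card_finite_toFinset]
  exact Nat.card_congr (Equiv.subtypeEquivRight fun a => mem_degreeLT.symm)

omit [Finite k] in
lemma box_iff {a : k[X]} {D : ℕ} : a.natDegree ≤ D ↔ a.degree < (D + 1 : ℕ) := by
  rcases eq_or_ne a 0 with rfl | h
  · simp
  · rw [← natDegree_lt_iff_degree_lt h, Nat.lt_succ_iff]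

lemma finite_natDegree_le (k : Type u) [Field k] [Finite k] (D : ℕ) :
    {a : k[X] | a.natDegree ≤ D}.Finite := by
  exact (box_finite_lt k (D + 1)).subset fun a ha => box_iff.1 ha

/-- the polynomials of degree at most `D` -/
noncomputable def dBox (k : Type u) [Field k] [Finite k] (D : ℕ) : Finset k[X] :=
  (finite_natDegree_le k D).toFinset

lemma mem_dBox {D : ℕ} {a : k[X]} : a ∈ dBox k D ↔ a.natDegree ≤ D := by simp [dBox]

lemma zero_mem_dBox (D : ℕ) : (0 : k[X]) ∈ dBox k D := by simp [mem_dBox]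

/-- `Polynomial.degreeLTEquiv` -/
lemma card_dBox (D : ℕ) : (dBox k D).card = Nat.card k ^ (D + 1) := by
  rw [← box_card_lt]
  congr 1
  ext a
  rw [mem_dBox, Set.Finite.mem_toFinset, box_iff]
  rfl

lemma two_le_card (k : Type u) [Field k] [Finite k] : 2 ≤ Nat.card k :=
  Finite.one_lt_card

/-- vectors of polynomials with degree bounds -/
noncomputable def piBox (k : Type u) [Field k] [Finite k] {m : ℕ} (D : Fin m → ℕ) :
    Finset (Fin m → k[X]) := Fintype.piFinset fun i => dBox k (D i)

lemma mem_piBox {m : ℕ} {D : Fin m → ℕ} {x : Fin m → k[X]} :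
    x ∈ piBox k D ↔ ∀ i, (x i).natDegree ≤ D i := by
  simp [piBox, mem_dBox]

lemma piBox_nonempty {m : ℕ} (D : Fin m → ℕ) : (piBox k D).Nonempty :=
  ⟨0, by simp [mem_piBox]⟩

lemma card_piBox {m : ℕ} (D : Fin m → ℕ) :
    (piBox k D).card = Nat.card k ^ ∑ i, (D i + 1) := by
  simp [piBox, card_dBox, Finset.prod_pow_eq_pow_sum]

/-- the units of `k[X]` are the nonzero constants -/
lemma card_units_poly : Nat.card k[X]ˣ = Nat.card k - 1 := by
  rw [← Nat.card_units]
  refine (Nat.card_eq_of_bijective (Units.map (C : k →+* k[X]).toMonoidHom)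
    ⟨Units.map_injective C_injective, fun u => ?_⟩).symm
  obtain ⟨r, hr, e⟩ := Polynomial.isUnit_iff.1 u.isUnit
  exact ⟨hr.unit, Units.ext e⟩

instance instFiniteUnitsPoly : Finite k[X]ˣ := by
  apply Nat.finite_of_card_ne_zero
  rw [card_units_poly]
  have := two_le_card k
  omega

/-- A residue class modulo a monic `P` contains at most `q^(D + 1 - deg P)` elements of the box
(truncated subtraction): differences are multiples `P * c` with `c = 0` or
`deg c ≤ D - deg P`. -/
lemma card_dBox_congr_le {P : k[X]} (hP : P.Monic) (D : ℕ) (r : k[X]) :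
    ((dBox k D).filter fun a => P ∣ a - r).card ≤ Nat.card k ^ (D + 1 - P.natDegree) := by
  rw [← box_card_lt]
  refine Finset.card_le_card_of_injOn (· /ₘ P) (fun a ha => ?_) fun a ha b hb e => ?_
  · rw [Finset.mem_coe, Finset.mem_filter, mem_dBox] at ha
    rw [Finset.mem_coe, Set.Finite.mem_toFinset]
    show (a /ₘ P).degree < _
    rcases eq_or_ne (a /ₘ P) 0 with h | h
    · rw [h, degree_zero]
      exact WithBot.bot_lt_coe _
    · have h1 := natDegree_le_natDegree (not_lt.1 fun k => h ((divByMonic_eq_zero_iff hP).2 k))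
      rw [← natDegree_lt_iff_degree_lt h, natDegree_divByMonic _ hP]
      omega
  · rw [Finset.mem_coe, Finset.mem_filter] at ha hb
    have h1 : a %ₘ P = b %ₘ P :=
      modByMonic_eq_of_dvd_sub hP (by simpa using dvd_sub ha.2 hb.2)
    rw [← modByMonic_add_div a P, ← modByMonic_add_div b P, h1, show a /ₘ P = b /ₘ P from e]

lemma box_pow {a b c : ℕ} (h : a + b ≤ c) :
    ((Nat.card k ^ a : ℕ) : ℝ) ≤ (1 / 2 : ℝ) ^ b * (Nat.card k ^ c : ℕ) := by
  have h1 : Nat.card k ^ a * 2 ^ b ≤ Nat.card k ^ c :=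
    (Nat.mul_le_mul_left _ (Nat.pow_le_pow_left (two_le_card k) b)).trans
      ((pow_add _ a b).ge.trans (Nat.pow_le_pow_right Nat.card_pos h))
  rw [one_div, inv_pow, le_inv_mul_iff₀ (by positivity), mul_comm]
  exact_mod_cast h1

/-- At most `r` residue classes modulo the irreducible `P` are roots (the quotient is a field),
each has density at most `q^(-min (deg P) (D + 1))`. -/
theorem dens_root_le {P : k[X]} (hP : P.Monic) (hP' : Irreducible P) {Q : k[X][X]} {r : ℕ}
    (hQ : Q.map (AdjoinRoot.mk P) ≠ 0) (hr : Q.natDegree ≤ r) (D : ℕ) :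
    dens (dBox k D) (fun y => P ∣ Q.eval y) ≤ r * (1 / 2 : ℝ) ^ min P.natDegree D := by
  have := Fact.mk hP'
  refine (dens_mono (Q := fun y => ∃ b ∈ (Q.map (AdjoinRoot.mk P)).roots.toFinset,
    AdjoinRoot.mk P y = b) fun y _ hy => ⟨_, ?_, rfl⟩).trans
    ((dens_exists_le _ _ _).trans ((Finset.sum_le_card_nsmul _ _
      ((1 / 2 : ℝ) ^ min P.natDegree D) fun b _ => ?_).trans ?_))
  · rw [Multiset.mem_toFinset, mem_roots hQ, IsRoot, eval_map, eval₂_hom, AdjoinRoot.mk_eq_zero]
    exact hy
  · obtain ⟨ρ, rfl⟩ := AdjoinRoot.mk_surjective b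
    rw [dens_congr (Q := fun y => P ∣ y - ρ) fun y _ => AdjoinRoot.mk_eq_mk]
    refine dens_le_of_card_le (le_trans ?_ (card_dBox (k := k) D ▸ box_pow
      (a := D + 1 - P.natDegree) (by omega))) (by positivity)
    rw [Nat.cast_le]
    convert card_dBox_congr_le hP D ρ
  · rw [nsmul_eq_mul]
    refine mul_le_mul_of_nonneg_right (Nat.cast_le.2 ?_) (by positivity)
    exact (Multiset.toFinset_card_le _).trans
      ((card_roots' _).trans (natDegree_map_le.trans hr))

/-- a nonzero polynomial has at most `r` roots in the box -/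
theorem dens_root_zero_le {Q : k[X][X]} {r : ℕ} (hQ : Q ≠ 0) (hr : Q.natDegree ≤ r) (D : ℕ) :
    dens (dBox k D) (fun y => Q.eval y = 0) ≤ r * (1 / 2 : ℝ) ^ D := by
  refine dens_le_of_card_le ?_ (by positivity)
  have h1 := box_pow (k := k) (a := 0) (b := D) (c := D + 1) (by omega)
  rw [pow_zero, Nat.cast_one, ← card_dBox] at h1
  rw [mul_assoc]
  refine le_trans (Nat.cast_le.2 ?_) (le_mul_of_one_le_right (Nat.cast_nonneg r) h1)
  refine le_trans (Finset.card_le_card fun y hy => ?_)
    ((Multiset.toFinset_card_le _).trans ((card_roots' Q).trans hr))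
  simp only [Finset.mem_filter] at hy
  exact Multiset.mem_toFinset.2 ((mem_roots hQ).2 hy.2)

/-- degree of the value of a multivariate polynomial -/
lemma natDegree_aeval_le {m : ℕ} (p : MvPolynomial (Fin m) k) {x : Fin m → k[X]} {B : ℕ}
    (hx : ∀ i, (x i).natDegree ≤ B) :
    (MvPolynomial.aeval x p).natDegree ≤ p.totalDegree * B := by
  exact MvPolynomial.aeval_natDegree_le p le_rfl x hx

end SelAvg

/-!
Equidistribution of boxes modulo powers of primes (including the place at infinity).
-/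

namespace SelAvg

open Polynomial
open scoped Classical

universe u

variable {k : Type u} [Field k]

/-- the local coordinate of a polynomial of degree at most `D` -/
noncomputable def locp : Option (Irr k) → ℕ → k[X] → k[X]
  | none, D, a => reflect D a
  | some _, _, a => a

@[simp] lemma locp_none (D : ℕ) (a : k[X]) : locp none D a = reflect D a := rfl
@[simp] lemma locp_some (p : Irr k) (D : ℕ) (a : k[X]) : locp (some p) D a = a := rfl

lemma locp_add (w : Option (Irr k)) (D : ℕ) (a b : k[X]) :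
    locp w D (a + b) = locp w D a + locp w D b := by
  cases w <;> simp

lemma locp_zero (w : Option (Irr k)) (D : ℕ) : locp w D (0 : k[X]) = 0 := by
  cases w <;> simp

lemma equi_mod {Q : k[X]} (hQ : Q.Monic) {D : ℕ} (h : Q.natDegree ≤ D + 1) (a : k[X]) :
    ∃ b : k[X], b.natDegree ≤ D ∧ Q ∣ b - a := by
  refine ⟨a %ₘ Q, ?_, -(a /ₘ Q), by linear_combination modByMonic_add_div a Q⟩
  by_cases h0 : a %ₘ Q = 0
  · rw [h0, natDegree_zero]
    exact Nat.zero_le D
  · exact Nat.lt_succ_iff.1 ((natDegree_lt_natDegree h0 (degree_modByMonic_lt a hQ)).trans_le h)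

lemma equi_coprime {p q : Irr k} (h : p ≠ q) : IsCoprime p.1 q.1 :=
  p.2.2.coprime_iff_not_dvd.2 fun hd =>
    h (Subtype.ext (eq_of_monic_of_associated p.2.1 q.2.1 (p.2.2.associated_of_dvd q.2.2 hd)))

lemma equi_crt (S : Finset (Irr k)) (Q : Irr k → k[X]) (hQ : ∀ p, ∃ M, Q p = p.1 ^ M)
    (r : Irr k → k[X]) : ∃ a : k[X], ∀ p ∈ S, Q p ∣ a - r p := by
  obtain ⟨a, ha⟩ := Ideal.exists_forall_sub_mem_ideal (ι := S)
    (I := fun p => Ideal.span {Q p.1}) (fun p q hpq => by
      obtain ⟨M, hM⟩ := hQ p.1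
      obtain ⟨N, hN⟩ := hQ q.1
      refine (Ideal.isCoprime_span_singleton_iff _ _).2 ?_
      rw [hM, hN]
      exact (equi_coprime fun e => hpq (Subtype.ext e)).pow) fun p => r p.1
  exact ⟨a, fun p hp => Ideal.mem_span_singleton.1 (ha ⟨p, hp⟩)⟩

/-- Let `N` be the product of the `P w` over the finite places in `T`, of degree `n₁`.  By the
Chinese remainder theorem (`Ideal.quotientInfRingEquivPiQuotient`, or
`IsCoprime.exists_sum_eq_one`-style induction on `T`) and reduction modulo the monic `N` there is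
`a₀` with `degree a₀ < n₁` and the right finite residues.  If `none ∈ T`, `P none = X ^ M`, put
`a = a₀ + N * reflect (D - n₁) b`; `reflect D (N * c) = reflect n₁ N * reflect (D - n₁) c`
(`reflect_mul`), and `reflect n₁ N` has constant coefficient `1`, so it is coprime to `X ^ M`;
choose `b` of degree less than `M` (if `M = 0` take `b = 0`). -/
theorem exists_residues (T : Finset (Option (Irr k))) (P : Option (Irr k) → k[X])
    (hP : ∀ w, ∃ M, P w = pol w ^ M) {D : ℕ} (hD : ∑ w ∈ T, (P w).natDegree ≤ D + 1)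
    (r : ∀ w, AdjoinRoot (P w)) :
    ∃ a : k[X], a.natDegree ≤ D ∧ ∀ w ∈ T, AdjoinRoot.mk (P w) (locp w D a) = r w := by
  choose s hs using fun w => AdjoinRoot.mk_surjective (r w)
  have hm : ∀ w, (P w).Monic := fun w => by
    obtain ⟨M, h⟩ := hP w
    rw [h]
    exact (pol_monic w).pow M
  obtain ⟨a₁, h₁⟩ := equi_crt T.eraseNone (fun p => P (some p)) (fun p => hP (some p))
    fun p => s (some p)
  set N := ∏ p ∈ T.eraseNone, P (some p) with hN
  have hNm : N.Monic := monic_prod_of_monic _ _ fun p _ => hm _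
  have hNd : N.natDegree = ∑ w ∈ T, w.elim 0 fun p => (P (some p)).natDegree := by
    rw [hN, natDegree_prod_of_monic _ _ fun p _ => hm _, Finset.sum_eraseNone]
    exact Finset.sum_congr rfl fun w _ => by cases w <;> rfl
  have key : ∀ a : k[X], N ∣ a - a₁ → ∀ p, some p ∈ T →
      AdjoinRoot.mk (P (some p)) (locp (some p) D a) = r (some p) := fun a ha p hp => by
    have hp' := Finset.mem_eraseNone.2 hp
    rw [← hs, AdjoinRoot.mk_eq_mk, locp_some, ← sub_add_sub_cancel _ a₁]
    exact dvd_add ((Finset.dvd_prod_of_mem _ hp').trans ha) (h₁ p hp')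
  obtain ⟨a₀, d₀, e₀⟩ := equi_mod hNm (D := D) (by
    refine hNd.le.trans ((Finset.sum_le_sum fun w _ => ?_).trans hD)
    cases w
    exacts [Nat.zero_le _, le_rfl]) a₁
  by_cases h0 : none ∈ T ∧ 0 < (P none).natDegree
  · have hlt : N.natDegree + (P none).natDegree ≤ D + 1 := by
      refine le_of_eq_of_le ?_ hD
      rw [hNd, ← Finset.add_sum_erase _ _ h0.1, ← Finset.add_sum_erase _ _ h0.1, add_comm,
        Option.elim_none, zero_add]
      congr 1
      refine Finset.sum_congr rfl fun w hw => ?_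
      cases w
      exacts [absurd rfl (Finset.ne_of_mem_erase hw), rfl]
    obtain ⟨E, rfl⟩ : ∃ E, D = N.natDegree + E := ⟨D - N.natDegree, by omega⟩
    obtain ⟨u, v, huv⟩ : IsCoprime (P none) (reflect N.natDegree N) := by
      obtain ⟨M, h⟩ := hP none
      rw [h]
      refine IsCoprime.pow_left (irreducible_X.coprime_iff_not_dvd.2 fun h => ?_)
      have h3 := X_dvd_iff.1 h
      rw [coeff_reflect, revAt_zero, coeff_natDegree, hNm.leadingCoeff] at h3
      exact one_ne_zero h3
    obtain ⟨b, db, c, eb⟩ := equi_mod (hm none) (D := E) (by omega)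
      (v * (s none - reflect (N.natDegree + E) a₀))
    have db' : (reflect E b).natDegree ≤ E := natDegree_reflect_le.trans (max_le le_rfl db)
    refine ⟨a₀ + N * reflect E b, (natDegree_add_le _ _).trans (max_le d₀
      (natDegree_mul_le.trans (Nat.add_le_add_left db' _))), fun w hw => ?_⟩
    cases w with
    | none =>
      rw [← hs, AdjoinRoot.mk_eq_mk, locp_none, reflect_add, reflect_mul _ _ le_rfl db',
        reflect_reflect]
      exact ⟨reflect N.natDegree N * c - u * (s none - reflect (N.natDegree + E) a₀), by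
        linear_combination reflect N.natDegree N * eb
          + (s none - reflect (N.natDegree + E) a₀) * huv⟩
    | some p =>
      refine key _ ?_ p hw
      rw [add_sub_right_comm]
      exact dvd_add e₀ (dvd_mul_right _ _)
  · refine ⟨a₀, d₀, fun w hw => ?_⟩
    cases w with
    | none =>
      rw [← hs, AdjoinRoot.mk_eq_mk, (hm none).natDegree_eq_zero.1 (by
        by_contra h
        exact h0 ⟨hw, Nat.pos_of_ne_zero h⟩)]
      exact one_dvd _
    | some p => exact key _ e₀ p hw

/-- Apply `avg_comp_hom` to the additive map from vectors of polynomials to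
`∀ w : T, Fin m → AdjoinRoot (P w)` (surjective on the box by `exists_residues`), then
`avg_univ_prod` and `Finset.prod_coe_sort`. -/
theorem equidist [Finite k] {m : ℕ} (D : Fin m → ℕ) (T : Finset (Option (Irr k)))
    (P : Option (Irr k) → k[X]) (hP : ∀ w, ∃ M, P w = pol w ^ M)
    [∀ w, Fintype (AdjoinRoot (P w))] (hD : ∀ i, ∑ w ∈ T, (P w).natDegree ≤ D i + 1)
    (F : ∀ w, (Fin m → AdjoinRoot (P w)) → ℝ) :
    avg (piBox k D) (fun x => ∏ w ∈ T, F w fun i => AdjoinRoot.mk (P w) (locp w (D i) (x i))) =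
      ∏ w ∈ T, avg Finset.univ (F w) := by
  let φ : (Fin m → k[X]) →+ ∀ w : T, Fin m → AdjoinRoot (P w) := AddMonoidHom.mk'
    (fun x w i => AdjoinRoot.mk (P w) (locp w (D i) (x i))) fun x y => by
      funext w i
      simp only [Pi.add_apply, locp_add, map_add]
  have h1 := avg_comp_hom (s := piBox k D) (by simp [mem_piBox])
    (fun x hx y hy => mem_piBox.2 fun i =>
      (natDegree_sub_le _ _).trans (max_le (mem_piBox.1 hx i) (mem_piBox.1 hy i))) φ
    (fun b => by
      choose x h1 h2 using fun i => exists_residues T P hP (hD i)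
        fun w => if h : w ∈ T then b ⟨w, h⟩ i else 0
      refine ⟨x, mem_piBox.2 h1, funext fun w => funext fun i => ?_⟩
      exact (h2 i w.1 w.2).trans (dif_pos w.2))
    fun y => ∏ w : T, F w (y w)
  rw [avg_univ_prod fun w : T => F w,
    Finset.prod_coe_sort T fun w => avg Finset.univ (F w)] at h1
  rw [← h1]
  exact avg_congr fun x _ => (Finset.prod_coe_sort T
    fun w => F w fun i => AdjoinRoot.mk (P w) (locp w (D i) (x i))).symm

/-- one place -/
theorem equidist_one [Finite k] {m : ℕ} (D : Fin m → ℕ) (w : Option (Irr k)) (M : ℕ)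
    (hD : ∀ i, M * (pol w).natDegree ≤ D i + 1) (F : (Fin m → AdjoinRoot (pol w ^ M)) → Prop) :
    dens (piBox k D) (fun x => F fun i => AdjoinRoot.mk (pol w ^ M) (locp w (D i) (x i))) =
      dens Finset.univ F := by
  let φ : (Fin m → k[X]) →+ Fin m → AdjoinRoot (pol w ^ M) := AddMonoidHom.mk'
    (fun x i => AdjoinRoot.mk (pol w ^ M) (locp w (D i) (x i))) fun x y => by
      funext i
      simp only [Pi.add_apply, locp_add, map_add]
  rw [dens_eq_avg, dens_eq_avg]
  refine avg_comp_hom (s := piBox k D) (by simp [mem_piBox])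
    (fun x hx y hy => mem_piBox.2 fun i =>
      (natDegree_sub_le _ _).trans (max_le (mem_piBox.1 hx i) (mem_piBox.1 hy i))) φ
    (fun b => ?_) fun y => ind (F y)
  choose s hs using fun i => AdjoinRoot.mk_surjective (b i)
  choose x h1 h2 using fun i => exists_residues {w} (fun w => pol w ^ M) (fun _ => ⟨M, rfl⟩)
    (D := D i) (by rw [Finset.sum_singleton, natDegree_pow]; exact hD i)
    fun w => AdjoinRoot.mk _ (s i)
  exact ⟨x, mem_piBox.2 h1, funext fun i => (h2 i w (Finset.mem_singleton_self w)).trans (hs i)⟩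

lemma equi_card [Finite k] (T : Finset (Irr k)) (j : ℕ) :
    (T.filter fun p => p.1.natDegree = j).card ≤ Nat.card k ^ j := by
  have e : Nat.card (degreeLT k j) = Nat.card k ^ j := by
    rw [Nat.card_congr (degreeLTEquiv k j).toEquiv, Nat.card_fun, Nat.card_fin]
  have : Finite (degreeLT k j) := Finite.of_equiv _ (degreeLTEquiv k j).toEquiv.symm
  rw [← e, ← Nat.card_eq_finsetCard]
  refine Nat.card_le_card_of_injective (fun p => ⟨p.1.1 - X ^ j, mem_degreeLT.2 ?_⟩) ?_
  · have h1 : p.1.1.degree = j :=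
      (degree_eq_natDegree p.1.2.1.ne_zero).trans (congrArg _ (Finset.mem_filter.1 p.2).2)
    rw [← h1]
    exact degree_sub_lt_left (h1.trans (degree_X_pow j).symm) p.1.2.1.ne_zero
      (p.1.2.1.leadingCoeff.trans (monic_X_pow j).leadingCoeff.symm)
  · intro p q h
    exact Subtype.ext (Subtype.ext (sub_left_inj.1 (congrArg Subtype.val h)))

/-- there are at most `q^j` monic polynomials of degree `j`; sum the geometric series -/
theorem sum_irr_le [Finite k] (T : Finset (Irr k)) {N : ℕ} (hT : ∀ p ∈ T, N < p.1.natDegree) :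
    ∑ p ∈ T, 1 / ((Nat.card k : ℝ) ^ p.1.natDegree) ^ 2 ≤ (1 / 2 : ℝ) ^ N := by
  have h2 : (2 : ℝ) ≤ Nat.card k := by exact_mod_cast two_le_card k
  rw [← Finset.sum_fiberwise_of_maps_to (t := Finset.Ico (N + 1) (T.sup (·.1.natDegree) + 1))
    (g := fun p => p.1.natDegree) fun p hp => Finset.mem_Ico.2
      ⟨hT p hp, Nat.lt_succ_of_le (Finset.le_sup (f := fun p : Irr k => p.1.natDegree) hp)⟩]
  refine (Finset.sum_le_sum fun j _ => ?_).trans
    ((geom_sum_Ico_le_of_lt_one (x := (1 / 2 : ℝ)) (by norm_num) (by norm_num)).trans_eq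
      (by rw [pow_succ]; ring))
  rw [Finset.sum_congr rfl fun p hp => by rw [(Finset.mem_filter.1 hp).2], Finset.sum_const,
    nsmul_eq_mul]
  have h3 : ((T.filter fun p => p.1.natDegree = j).card : ℝ) ≤ (Nat.card k : ℝ) ^ j := by
    exact_mod_cast equi_card T j
  have h4 : (0 : ℝ) < (Nat.card k : ℝ) ^ j := by positivity
  calc _ ≤ (Nat.card k : ℝ) ^ j * (1 / ((Nat.card k : ℝ) ^ j) ^ 2) := by gcongr
    _ = 1 / (Nat.card k : ℝ) ^ j := by field_simp
    _ ≤ (1 / 2) ^ j := by
      rw [one_div_pow]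
      gcongr

/-- a nonzero polynomial has at most `natDegree` monic irreducible divisors -/
theorem card_irr_dvd_le {R : k[X]} (hR : R ≠ 0) (T : Finset (Irr k)) (hT : ∀ p ∈ T, p.1 ∣ R) :
    T.card ≤ R.natDegree := by
  have h1 : ∏ p ∈ T, p.1 ∣ R := Finset.prod_dvd_of_coprime
    (fun p _ q _ h => equi_coprime h) hT
  refine le_trans ?_ (natDegree_le_of_dvd h1 hR)
  rw [natDegree_prod_of_monic _ _ fun p _ => p.2.1, Finset.card_eq_sum_ones]
  exact Finset.sum_le_sum fun p _ => p.2.2.natDegree_pos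

lemma finite_irr_dvd {R : k[X]} (hR : R ≠ 0) : {p : Irr k | p.1 ∣ R}.Finite := by
  by_contra h
  obtain ⟨T, h1, h2⟩ := Set.Infinite.exists_subset_card_eq h (R.natDegree + 1)
  have := card_irr_dvd_le hR T fun p hp => h1 hp
  omega

end SelAvg

/-!
The Euler product for the zeta function of the affine line at 2.
-/

namespace SelAvg

open Polynomial Filter Topology
open scoped Classical

universe u

variable {k : Type u} [Field k] [Finite k]

/-- the weight `q^(-2 deg a)` of a monic polynomial not divisible by any prime in `S` -/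
noncomputable def eulerTerm (S : Finset (Irr k)) (a : k[X]) : ℝ :=
  if a.Monic ∧ ∀ p ∈ S, ¬p.1 ∣ a then 1 / ((Nat.card k : ℝ) ^ a.natDegree) ^ 2 else 0

/-- there are `q^j` monic polynomials of degree `j` -/
lemma card_monic (j : ℕ) :
    ((dBox k j).filter fun a => a.Monic ∧ a.natDegree = j).card = Nat.card k ^ j := by
  rcases j with _ | i
  · rw [pow_zero, Finset.card_eq_one]
    refine ⟨1, ?_⟩
    ext a
    simp only [Finset.mem_filter, mem_dBox, Finset.mem_singleton]
    constructor
    · rintro ⟨-, h1, h2⟩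
      exact h1.natDegree_eq_zero.1 h2
    · rintro rfl
      simp
  · rw [← card_dBox (k := k) i]
    refine Finset.card_nbij' (fun a => a - X ^ (i + 1)) (fun b => X ^ (i + 1) + b) ?_ ?_ ?_ ?_
    · intro a ha
      simp only [Finset.coe_filter, mem_dBox, Set.mem_ofPred_eq] at ha
      obtain ⟨-, h1, h2⟩ := ha
      simp only [Finset.mem_coe, mem_dBox]
      have hd : a.degree = ((i + 1 : ℕ) : WithBot ℕ) := by
        rw [degree_eq_natDegree h1.ne_zero, h2]
      have h3 : (a - X ^ (i + 1)).degree < a.degree :=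
        degree_sub_lt_left (by rw [hd, degree_X_pow]) h1.ne_zero
          (by rw [h1.leadingCoeff, (monic_X_pow (i + 1)).leadingCoeff])
      rw [hd] at h3
      by_cases h0 : a - X ^ (i + 1) = 0
      · rw [h0]
        simp
      · have := (natDegree_lt_iff_degree_lt h0).2 h3
        omega
    · intro b hb
      simp only [Finset.mem_coe, mem_dBox] at hb
      have h1 : b.degree < ((i + 1 : ℕ) : WithBot ℕ) :=
        degree_le_natDegree.trans_lt (by exact_mod_cast Nat.lt_succ_of_le hb)
      have h2 : (X ^ (i + 1) + b).natDegree = i + 1 := by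
        rw [natDegree_add_eq_left_of_natDegree_lt, natDegree_X_pow]
        rw [natDegree_X_pow]
        omega
      simp only [Finset.coe_filter, mem_dBox, Set.mem_ofPred_eq]
      exact ⟨h2.le, monic_X_pow_add h1, h2⟩
    · intro a _
      simp
    · intro b _
      simp

lemma euler_nonneg (S : Finset (Irr k)) (a : k[X]) : 0 ≤ eulerTerm S a := by
  unfold eulerTerm
  split_ifs
  · positivity
  · exact le_rfl

lemma euler_le_empty (S : Finset (Irr k)) (a : k[X]) :
    eulerTerm S a ≤ eulerTerm (∅ : Finset (Irr k)) a := by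
  by_cases h : a.Monic ∧ ∀ p ∈ S, ¬p.1 ∣ a
  · have h' : a.Monic ∧ ∀ p ∈ (∅ : Finset (Irr k)), ¬p.1 ∣ a := ⟨h.1, by simp⟩
    unfold eulerTerm
    rw [if_pos h, if_pos h']
  · have : eulerTerm S a = 0 := if_neg h
    rw [this]
    exact euler_nonneg _ _

lemma euler_two_le : (2 : ℝ) ≤ (Nat.card k : ℝ) := by exact_mod_cast two_le_card k

lemma euler_sum_dBox (N : ℕ) :
    ∑ a ∈ dBox k N, eulerTerm (∅ : Finset (Irr k)) a =
      ∑ j ∈ Finset.range (N + 1), (1 / (Nat.card k : ℝ)) ^ j := by
  have hq : (0 : ℝ) < (Nat.card k : ℝ) := by linarith [euler_two_le (k := k)]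
  rw [← Finset.sum_fiberwise_of_maps_to (g := fun a : k[X] => a.natDegree)
    (t := Finset.range (N + 1))
    (fun a ha => Finset.mem_range.2 (Nat.lt_succ_of_le (mem_dBox.1 ha)))]
  refine Finset.sum_congr rfl fun j hj => ?_
  have hjN : j ≤ N := Nat.le_of_lt_succ (Finset.mem_range.1 hj)
  have h1 : ∑ a ∈ (dBox k N).filter (fun a => a.natDegree = j), eulerTerm (∅ : Finset (Irr k)) a =
      ∑ a ∈ (dBox k j).filter (fun a => a.Monic ∧ a.natDegree = j),
        1 / ((Nat.card k : ℝ) ^ j) ^ 2 := by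
    symm
    refine Finset.sum_subset_zero_on_sdiff ?_ ?_ ?_
    · intro a ha
      simp only [Finset.mem_filter, mem_dBox] at ha ⊢
      exact ⟨ha.1.trans hjN, ha.2.2⟩
    · intro a ha
      simp only [Finset.mem_sdiff, Finset.mem_filter, mem_dBox] at ha
      exact if_neg fun h => ha.2 ⟨ha.1.2.le, h.1, ha.1.2⟩
    · intro a ha
      simp only [Finset.mem_filter, mem_dBox] at ha
      have h' : a.Monic ∧ ∀ p ∈ (∅ : Finset (Irr k)), ¬p.1 ∣ a := ⟨ha.2.1, by simp⟩
      unfold eulerTerm
      rw [if_pos h', ha.2.2]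
  rw [h1, Finset.sum_const, card_monic, nsmul_eq_mul]
  push_cast
  rw [one_div_pow]
  field_simp

lemma euler_dBox_tendsto : Tendsto (dBox k) atTop atTop :=
  tendsto_atTop_finset_of_monotone
    (fun _ _ h _ ha => mem_dBox.2 ((mem_dBox.1 ha).trans h))
    (fun a => ⟨a.natDegree, mem_dBox.2 le_rfl⟩)

/-- Sum over the fibres of `natDegree` (`HasSum.sigma`, `Equiv.sigmaFiberEquiv`, or
`summable_of_sum_le` and the exhaustion by `dBox k j`). -/
theorem hasSum_eulerTerm_empty :
    HasSum (eulerTerm (∅ : Finset (Irr k))) (1 / (1 - 1 / (Nat.card k : ℝ))) := by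
  have hq := euler_two_le (k := k)
  have h0 : (0 : ℝ) ≤ 1 / (Nat.card k : ℝ) := by positivity
  have h1 : 1 / (Nat.card k : ℝ) < 1 := by
    rw [div_lt_one (by linarith)]
    linarith
  have hg := hasSum_geometric_of_lt_one h0 h1
  have hs : Summable (eulerTerm (∅ : Finset (Irr k))) := by
    refine summable_of_sum_le (c := (1 - 1 / (Nat.card k : ℝ))⁻¹) (fun a => euler_nonneg _ a)
      fun u => ?_
    obtain ⟨N, hN⟩ := (euler_dBox_tendsto.eventually (eventually_ge_atTop u)).exists
    calc ∑ a ∈ u, eulerTerm (∅ : Finset (Irr k)) a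
        ≤ ∑ a ∈ dBox k N, eulerTerm (∅ : Finset (Irr k)) a :=
          Finset.sum_le_sum_of_subset_of_nonneg hN fun a _ _ => euler_nonneg _ a
      _ = ∑ j ∈ Finset.range (N + 1), (1 / (Nat.card k : ℝ)) ^ j := euler_sum_dBox N
      _ ≤ _ := sum_le_hasSum _ (fun j _ => pow_nonneg h0 j) hg
  have t1 : Tendsto (fun N => ∑ a ∈ dBox k N, eulerTerm (∅ : Finset (Irr k)) a) atTop
      (𝓝 (∑' a, eulerTerm (∅ : Finset (Irr k)) a)) :=
    Tendsto.comp (g := fun u : Finset k[X] => ∑ a ∈ u, eulerTerm (∅ : Finset (Irr k)) a)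
      hs.hasSum euler_dBox_tendsto
  have t2 : Tendsto (fun N => ∑ a ∈ dBox k N, eulerTerm (∅ : Finset (Irr k)) a) atTop
      (𝓝 (1 - 1 / (Nat.card k : ℝ))⁻¹) := by
    simp only [euler_sum_dBox]
    exact hg.tendsto_sum_nat.comp (tendsto_add_atTop_nat 1)
  rw [one_div (1 - 1 / (Nat.card k : ℝ)), ← tendsto_nhds_unique t1 t2]
  exact hs.hasSum

lemma summable_eulerTerm (S : Finset (Irr k)) : Summable (eulerTerm S) := by
  exact Summable.of_nonneg_of_le (euler_nonneg S) (euler_le_empty S) hasSum_eulerTerm_empty.summable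

lemma euler_mul (S : Finset (Irr k)) {p : Irr k} (hp : p ∉ S) (b : k[X]) :
    eulerTerm S (p.1 * b) = 1 / ((Nat.card k : ℝ) ^ p.1.natDegree) ^ 2 * eulerTerm S b := by
  have hiff : ((p.1 * b).Monic ∧ ∀ r ∈ S, ¬r.1 ∣ p.1 * b) ↔ (b.Monic ∧ ∀ r ∈ S, ¬r.1 ∣ b) := by
    constructor
    · rintro ⟨h1, h2⟩
      exact ⟨p.2.1.of_mul_monic_left h1, fun r hr hb => h2 r hr (hb.mul_left _)⟩
    · rintro ⟨h1, h2⟩
      refine ⟨p.2.1.mul h1, fun r hr hb => ?_⟩
      rcases r.2.2.prime.dvd_or_dvd hb with h | h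
      · have h3 : r.1 = p.1 :=
          eq_of_monic_of_associated r.2.1 p.2.1 ((r.2.2.dvd_irreducible_iff_associated p.2.2).1 h)
        exact hp ((Subtype.ext h3 : r = p) ▸ hr)
      · exact h2 r hr h
  by_cases h : b.Monic ∧ ∀ r ∈ S, ¬r.1 ∣ b
  · unfold eulerTerm
    rw [if_pos h, if_pos (hiff.2 h), p.2.1.natDegree_mul h.1, pow_add, mul_pow, div_mul_div_comm,
      one_mul]
  · unfold eulerTerm
    rw [if_neg h, if_neg (fun h' => h (hiff.1 h')), mul_zero]

lemma euler_split (S : Finset (Irr k)) (p : Irr k) (a : k[X]) :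
    eulerTerm S a = eulerTerm (insert p S) a + if p.1 ∣ a then eulerTerm S a else 0 := by
  by_cases h : p.1 ∣ a
  · have : eulerTerm (insert p S) a = 0 :=
      if_neg fun h' => h'.2 p (Finset.mem_insert_self p S) h
    rw [if_pos h, this, zero_add]
  · rw [if_neg h, add_zero]
    unfold eulerTerm
    simp only [Finset.forall_mem_insert, h, not_false_eq_true, true_and]

/-- `eulerTerm S a = eulerTerm (insert p S) a + [p ∣ a] eulerTerm S a`, and `b ↦ p b` is a
bijection onto the multiples of `p` (`Function.Injective.tsum_eq`) -/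
theorem tsum_eulerTerm_insert (S : Finset (Irr k)) {p : Irr k} (hp : p ∉ S) :
    ∑' a, eulerTerm (insert p S) a =
      (1 - 1 / ((Nat.card k : ℝ) ^ p.1.natDegree) ^ 2) * ∑' a, eulerTerm S a := by
  have hs : Summable fun a : k[X] => if p.1 ∣ a then eulerTerm S a else 0 := by
    refine Summable.of_nonneg_of_le (fun a => ?_) (fun a => ?_) (summable_eulerTerm S)
    · split_ifs
      · exact euler_nonneg S a
      · exact le_rfl
    · split_ifs
      · exact le_rfl
      · exact euler_nonneg S a
  have h1 : ∑' a, eulerTerm S a =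
      ∑' a, eulerTerm (insert p S) a + ∑' a : k[X], if p.1 ∣ a then eulerTerm S a else 0 := by
    rw [← (summable_eulerTerm (insert p S)).tsum_add hs]
    exact tsum_congr fun a => euler_split S p a
  have hinj : Function.Injective fun b : k[X] => p.1 * b :=
    mul_right_injective₀ p.2.1.ne_zero
  have h2 : (∑' a : k[X], if p.1 ∣ a then eulerTerm S a else 0) =
      1 / ((Nat.card k : ℝ) ^ p.1.natDegree) ^ 2 * ∑' a, eulerTerm S a := by
    rw [← hinj.tsum_eq (f := fun a : k[X] => if p.1 ∣ a then eulerTerm S a else 0), ← tsum_mul_left]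
    · refine tsum_congr fun b => ?_
      rw [if_pos (dvd_mul_right _ _), euler_mul S hp]
    · intro a ha
      by_cases h : p.1 ∣ a
      · obtain ⟨b, rfl⟩ := h
        exact ⟨b, rfl⟩
      · exact absurd (if_neg h) ha
  rw [h2] at h1
  linarith

lemma euler_tsum_eq (S : Finset (Irr k)) :
    ∑' a, eulerTerm S a = (∏ p ∈ S, (1 - 1 / ((Nat.card k : ℝ) ^ p.1.natDegree) ^ 2)) *
      (1 / (1 - 1 / (Nat.card k : ℝ))) := by
  induction S using Finset.induction_on with
  | empty => rw [Finset.prod_empty, one_mul, hasSum_eulerTerm_empty.tsum_eq]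
  | insert p S hp ih => rw [tsum_eulerTerm_insert S hp, ih, Finset.prod_insert hp, mul_assoc]

lemma euler_pointwise (a : k[X]) :
    Tendsto (fun N => eulerTerm (irrLE k N) a) atTop (𝓝 (if a = 1 then (1 : ℝ) else 0)) := by
  by_cases h : a = 1
  · subst h
    rw [if_pos rfl]
    have : ∀ N, eulerTerm (irrLE k N) (1 : k[X]) = 1 := by
      intro N
      have h' : (1 : k[X]).Monic ∧ ∀ p ∈ irrLE k N, ¬p.1 ∣ 1 :=
        ⟨monic_one, fun p _ hp => p.2.2.not_isUnit (isUnit_of_dvd_one hp)⟩
      unfold eulerTerm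
      rw [if_pos h']
      simp
    simp only [this]
    exact tendsto_const_nhds
  · rw [if_neg h]
    by_cases hm : a.Monic
    · obtain ⟨g, g1, g2, g3⟩ :=
        exists_monic_irreducible_factor a fun hu => h (hm.isUnit_iff.1 hu)
      refine tendsto_const_nhds.congr' ?_
      filter_upwards [eventually_ge_atTop g.natDegree] with N hN
      exact (if_neg fun h' => h'.2 ⟨g, g1, g2⟩ (mem_irrLE.2 hN) g3).symm
    · have : ∀ N, eulerTerm (irrLE k N) a = 0 := fun N => if_neg fun h' => hm h'.1
      simp only [this]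
      exact tendsto_const_nhds

/-- A monic `a ≠ 1` with no prime factor of degree at most `N` has degree greater than `N`, so the
sum for `S = irrLE k N` lies between `1` and `1 +` a tail of the convergent sum for `∅`. -/
theorem euler_tendsto :
    Tendsto (fun N => ∏ p ∈ irrLE k N, (1 - 1 / ((Nat.card k : ℝ) ^ p.1.natDegree) ^ 2)) atTop
      (𝓝 (1 - 1 / (Nat.card k : ℝ))) := by
  have hq := euler_two_le (k := k)
  have h1 : 1 - 1 / (Nat.card k : ℝ) ≠ 0 := by
    have : 1 / (Nat.card k : ℝ) < 1 := by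
      rw [div_lt_one (by linarith)]
      linarith
    linarith
  have t1 := tendsto_tsum_of_dominated_convergence (𝓕 := atTop)
    (f := fun N a => eulerTerm (irrLE k N) a) (summable_eulerTerm (∅ : Finset (Irr k)))
    euler_pointwise (Eventually.of_forall fun N a => by
      rw [Real.norm_of_nonneg (euler_nonneg _ a)]
      exact euler_le_empty _ a)
  rw [tsum_ite_eq (1 : k[X]) (fun _ => (1 : ℝ))] at t1
  have t2 := t1.mul_const (1 - 1 / (Nat.card k : ℝ))
  rw [one_mul] at t2
  refine t2.congr fun N => ?_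
  rw [euler_tsum_eq, mul_assoc, one_div_mul_cancel h1, mul_one]

end SelAvg

/-!
The zeros of a nonzero polynomial modulo high powers of a prime have small density.
-/

namespace SelAvg

open Polynomial Filter Topology
open scoped Classical

universe u

variable {k : Type u} [Field k]

lemma pz_cancel {R : Type*} [CommRing R] [IsDomain R] {π : R} (hπ : Prime π) (n t : ℕ) {u v : R}
    (h : π ^ (n + t) ∣ u * v) (hu : ¬π ^ t ∣ u) : π ^ n ∣ v := by
  induction t generalizing u with
  | zero => exact absurd (by simp) hu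
  | succ t ih =>
    by_cases h1 : π ∣ u
    · obtain ⟨c, rfl⟩ := h1
      rw [← add_assoc, pow_succ', mul_assoc, mul_dvd_mul_iff_left hπ.ne_zero] at h
      exact ih h fun h2 => hu (by rw [pow_succ']; exact mul_dvd_mul_left _ h2)
    · exact (pow_dvd_pow π (Nat.le_add_right _ _)).trans (hπ.pow_dvd_of_dvd_mul_left _ h1 h)

/-- Induction on `r`.  If `x₀ ∈ s`, write `g = (X - C x₀) * g₁ + C (g.eval x₀)` with
`g₁ = g /ₘ (X - C x₀)`, whose coefficient of degree `r` is the coefficient of degree `r + 1` of `g`.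
For `x ≠ x₀` in `s`, `π^(a + (r+1) t)` divides `(x - x₀) * g₁.eval x` and `π^t` does not divide
`x - x₀`, so `π^(a + r t)` divides `g₁.eval x` (write `x - x₀ = π^j c` with `π ∤ c`, `j < t`). -/
theorem card_roots_mod_le {π : k[X]} (hπ : Irreducible π) (a t r : ℕ) (g : k[X][X])
    (hg : g.natDegree ≤ r) (ha : ¬π ^ a ∣ g.coeff r) (s : Finset k[X])
    (hs : ∀ x ∈ s, π ^ (a + r * t) ∣ g.eval x)
    (hs' : ∀ x ∈ s, ∀ y ∈ s, π ^ t ∣ x - y → x = y) : s.card ≤ r := by
  induction r generalizing g s with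
  | zero =>
    refine Nat.le_zero.2 (Finset.card_eq_zero.2 (Finset.eq_empty_of_forall_notMem fun x hx => ?_))
    have h := hs x hx
    rw [eq_C_of_natDegree_le_zero hg, eval_C, zero_mul, add_zero] at h
    exact ha h
  | succ r ih =>
    rcases s.eq_empty_or_nonempty with rfl | ⟨x₀, h₀⟩
    · simp
    have h1 : (g /ₘ (X - C x₀)).natDegree ≤ r := by
      rw [natDegree_divByMonic _ (monic_X_sub_C x₀), natDegree_X_sub_C]
      omega
    have h2 := modByMonic_add_div g (X - C x₀)
    rw [modByMonic_X_sub_C_eq_C_eval] at h2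
    generalize g /ₘ (X - C x₀) = g₁ at h1 h2
    have h3 : g₁.coeff r = g.coeff (r + 1) := by
      rw [← h2, coeff_add, coeff_C_succ, sub_mul, coeff_sub, coeff_X_mul, coeff_C_mul,
        coeff_eq_zero_of_natDegree_lt (Nat.lt_succ_of_le h1), mul_zero, sub_zero, zero_add]
    have h4 := ih g₁ h1 (h3 ▸ ha) (s.erase x₀) (fun x hx => ?_) fun x hx y hy =>
      hs' x (Finset.mem_of_mem_erase hx) y (Finset.mem_of_mem_erase hy)
    · rw [Finset.card_erase_of_mem h₀] at h4
      omega
    · obtain ⟨hne, hx⟩ := Finset.mem_erase.1 hx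
      refine pz_cancel hπ.prime _ t (u := x - x₀) ?_ fun h => hne (hs' x hx x₀ h₀ h)
      have h5 := congrArg (eval x) h2
      rw [eval_add, eval_C, eval_mul, eval_sub, eval_X, eval_C] at h5
      rw [eq_sub_of_add_eq' h5, add_assoc, ← Nat.succ_mul]
      exact dvd_sub (hs x hx) (hs x₀ h₀)

lemma pz_class [Finite k] (w : Option (Irr k)) (t D : ℕ) (hD : t * (pol w).natDegree ≤ D + 1)
    (y : k[X]) : dens (dBox k D) (fun x => pol w ^ t ∣ x - y) ≤ (1 / 2 : ℝ) ^ t := by
  refine dens_le_of_card_le ?_ (by positivity)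
  have h1 := card_dBox_congr_le ((pol_monic w).pow t) D y
  rw [(pol_monic w).natDegree_pow] at h1
  have h2 : t ≤ t * (pol w).natDegree :=
    Nat.le_mul_of_pos_right t (pol_irreducible w).natDegree_pos
  have h3 : 2 ^ t * Nat.card k ^ (D + 1 - t * (pol w).natDegree) ≤ Nat.card k ^ (D + 1) := by
    conv_rhs => rw [← Nat.add_sub_cancel' hD, pow_add]
    exact Nat.mul_le_mul_right _ ((Nat.pow_le_pow_left (two_le_card k) t).trans
      (Nat.pow_le_pow_right Nat.card_pos h2))
  rw [card_dBox, one_div, inv_pow, le_inv_mul_iff₀ (by positivity)]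
  exact_mod_cast (Nat.mul_le_mul_left _ h1).trans h3

/-- The box version.  The roots lie in at most `r` classes modulo `π^t` (choose a maximal set of
pairwise incongruent roots), each has density at most `2^(-t)` (`card_dBox_congr_le`). -/
theorem dens_roots_mod_le [Finite k] (w : Option (Irr k)) (a t r D : ℕ) (g : k[X][X])
    (hg : g.natDegree ≤ r) (ha : ¬pol w ^ a ∣ g.coeff r) (hD : t * (pol w).natDegree ≤ D + 1) :
    dens (dBox k D) (fun x => pol w ^ (a + r * t) ∣ g.eval x) ≤ r * (1 / 2 : ℝ) ^ t := by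
  let S := (dBox k D).filter fun x => pol w ^ (a + r * t) ∣ g.eval x
  obtain ⟨s, h1, h2, h3⟩ := Finset.exists_subset_injOn_image_eq_of_surjOn (S : Set k[X])
    (S.image (AdjoinRoot.mk (pol w ^ t))) (f := AdjoinRoot.mk (pol w ^ t))
    (by rw [Finset.coe_image]; exact Set.surjOn_image _ _)
  have h4 : s.card ≤ r := card_roots_mod_le (pol_irreducible w) a t r g hg ha s
    (fun x hx => (Finset.mem_filter.1 (h1 hx)).2) fun x hx y hy h =>
      h2 hx hy (AdjoinRoot.mk_eq_mk.2 h)
  refine (dens_mono (Q := fun x => ∃ y ∈ s, pol w ^ t ∣ x - y) fun x hx h => ?_).trans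
    ((dens_exists_le _ s fun y x => pol w ^ t ∣ x - y).trans ?_)
  · have h5 := Finset.mem_image_of_mem (AdjoinRoot.mk (pol w ^ t))
      (Finset.mem_filter.2 ⟨hx, h⟩ : x ∈ S)
    rw [← h3] at h5
    obtain ⟨y, hy, e⟩ := Finset.mem_image.1 h5
    exact ⟨y, hy, AdjoinRoot.mk_eq_mk.1 e.symm⟩
  · refine (Finset.sum_le_card_nsmul _ _ _ fun y _ => pz_class w t D hD y).trans ?_
    rw [nsmul_eq_mul]
    gcongr

lemma pz_cons {α : Type*} {m : ℕ} (s : Finset α) (F : (Fin (m + 1) → α) → ℝ) :
    avg (Fintype.piFinset fun _ : Fin (m + 1) => s) F =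
      avg (Fintype.piFinset fun _ : Fin m => s) fun y => avg s fun a => F (Fin.cons a y) := by
  have e : (Fintype.piFinset fun _ : Fin (m + 1) => s) =
      ((Fintype.piFinset fun _ : Fin m => s) ×ˢ s).map
        ((Equiv.prodComm _ _).trans (Fin.consEquiv fun _ => α)).toEmbedding := by
    ext x
    rw [Finset.mem_map_equiv, Finset.mem_product, Fin.mem_piFinset_iff_zero_tail, and_comm]
    rfl
  rw [e, avg_map, avg_product]
  rfl

lemma pz_aeval {R : Type*} [CommRing R] [Algebra k R] {m : ℕ} (a : R) (y : Fin m → R)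
    (p : MvPolynomial (Fin (m + 1)) k) :
    MvPolynomial.aeval (Fin.cons a y : Fin (m + 1) → R) p =
      ((MvPolynomial.finSuccEquiv k m p).map (MvPolynomial.aeval y).toRingHom).eval a := by
  induction p using MvPolynomial.induction_on with
  | C c => simp [MvPolynomial.finSuccEquiv_apply]
  | add p q hp hq => simp only [map_add, Polynomial.map_add, eval_add, hp, hq]
  | mul_X p i hp =>
    rw [map_mul, map_mul, Polynomial.map_mul, eval_mul, hp]
    congr 1
    refine Fin.cases ?_ (fun j => ?_) i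
    · simp [MvPolynomial.finSuccEquiv_X_zero]
    · simp [MvPolynomial.finSuccEquiv_X_succ]

/-- Induction on `m` with `MvPolynomial.finSuccEquiv`: let `p₀ ≠ 0` be the leading coefficient of
`p` as a polynomial in the variable `0`, of degree `r`; choose `a` for `p₀` and `ε / 2`, then `t`,
and `M₀ = a + r t`.  Use `avg_product` (via `Fin.consEquiv` or `Fin.insertNthEquiv`) or
`dens_pi_le`. -/
theorem dens_box_dvd_le [Finite k] (w : Option (Irr k)) {m : ℕ} {p : MvPolynomial (Fin m) k}
    (hp : p ≠ 0) {ε : ℝ} (hε : 0 < ε) :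
    ∃ M₀ D₀ : ℕ, ∀ D, D₀ ≤ D →
      dens (piBox k fun _ : Fin m => D) (fun x => pol w ^ M₀ ∣ MvPolynomial.aeval x p) ≤ ε := by
  induction m generalizing ε with
  | zero =>
    refine ⟨1, 0, fun D _ => ?_⟩
    rw [dens_eq_avg]
    refine avg_le_of_le hε.le fun x _ => (ind_neg fun h => ?_).trans_le hε.le
    obtain ⟨c, rfl⟩ := MvPolynomial.C_surjective (Fin 0) p
    rw [pow_one, MvPolynomial.aeval_C, algebraMap_eq] at h
    exact (pol_irreducible w).not_isUnit (isUnit_of_dvd_unit h
      (isUnit_C.2 (Ne.isUnit fun e => hp (by rw [e, map_zero]))))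
  | succ m ih =>
    have hg : MvPolynomial.finSuccEquiv k m p ≠ 0 := by simpa using hp
    obtain ⟨a, D₁, h1⟩ := ih (leadingCoeff_ne_zero.2 hg) (half_pos hε)
    set r := (MvPolynomial.finSuccEquiv k m p).natDegree
    obtain ⟨t, ht⟩ := (((tendsto_pow_atTop_nhds_zero_of_lt_one (r := (1 / 2 : ℝ)) (by norm_num)
      (by norm_num)).const_mul (r : ℝ)).eventually_le_const
        (by simpa using half_pos hε : (r : ℝ) * 0 < ε / 2)).exists
    refine ⟨a + r * t, max D₁ (t * (pol w).natDegree), fun D hD => ?_⟩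
    have h2 := h1 D (le_of_max_le_left hD)
    rw [dens_eq_avg] at h2 ⊢
    rw [piBox, pz_cons, ← add_halves ε]
    refine (avg_mono (G := fun y => ind (pol w ^ a ∣ MvPolynomial.aeval y
      (MvPolynomial.finSuccEquiv k m p).leadingCoeff) + ε / 2) fun y _ => ?_).trans ?_
    · rw [← dens_eq_avg]
      by_cases hy : pol w ^ a ∣ MvPolynomial.aeval y (MvPolynomial.finSuccEquiv k m p).leadingCoeff
      · rw [ind_pos hy]
        exact (dens_le_one _ _).trans (le_add_of_nonneg_right (half_pos hε).le)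
      · rw [ind_neg hy, zero_add]
        simp only [pz_aeval]
        exact (dens_roots_mod_le w a t r D _ natDegree_map_le (by rwa [coeff_map])
          ((le_of_max_le_right hD).trans (Nat.le_succ D))).trans ht
    · rw [avg_add]
      exact add_le_add h2 (avg_le_of_le (half_pos hε).le fun _ _ => le_rfl)

/-- Transfer to the quotient ring: the box of degree `D ≥ M deg` surjects additively onto
`Fin m → AdjoinRoot (pol w ^ M)` (`avg_comp_hom`, reduce modulo the monic `pol w ^ M`). -/
theorem dens_zero_mod_tendsto [Finite k] (w : Option (Irr k)) {m : ℕ}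
    {p : MvPolynomial (Fin m) k} (hp : p ≠ 0) :
    Tendsto (fun M => dens Finset.univ fun x : Fin m → AdjoinRoot (pol w ^ M) =>
      MvPolynomial.aeval x p = 0) atTop (𝓝 0) := by
  refine tendsto_order.2 ⟨fun ε hε => Eventually.of_forall fun M => hε.trans_le (dens_nonneg _ _),
    fun ε hε => ?_⟩
  obtain ⟨M₀, D₀, h⟩ := dens_box_dvd_le w hp (half_pos hε)
  refine (eventually_ge_atTop M₀).mono fun M hM => lt_of_le_of_lt ?_ (half_lt_self hε)
  have hP := (pol_monic w).pow M
  refine le_trans ?_ (h (max D₀ (pol w ^ M).natDegree) (le_max_left _ _))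
  rw [dens_eq_avg, ← avg_comp_hom (s := piBox k fun _ : Fin m => max D₀ (pol w ^ M).natDegree)
    (by simp [mem_piBox]) (fun x hx y hy => mem_piBox.2 fun i => (natDegree_sub_le _ _).trans
      (max_le (mem_piBox.1 hx i) (mem_piBox.1 hy i)))
    ((AdjoinRoot.mk (pol w ^ M)).toAddMonoidHom.compLeft (Fin m)) fun b => ?_, ← dens_eq_avg]
  · refine dens_mono fun x _ hx => (pow_dvd_pow _ hM).trans (AdjoinRoot.mk_eq_zero.1 ?_)
    rw [← hx]
    exact MvPolynomial.comp_aeval_apply x (AdjoinRoot.mkₐ (pol w ^ M)) p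
  · choose c hc using fun i => AdjoinRoot.mk_surjective (b i)
    refine ⟨fun i => c i %ₘ pol w ^ M, mem_piBox.2 fun i =>
      (natDegree_modByMonic_le _ hP).trans (le_max_right _ _), funext fun i => ?_⟩
    rw [← hc i]
    refine AdjoinRoot.mk_eq_mk.2 ?_
    change _ ∣ c i %ₘ pol w ^ M - c i
    rw [modByMonic_eq_sub_mul_div, sub_sub_cancel_left, dvd_neg]
    exact dvd_mul_right _ _

end SelAvg

/-!
The sieve, the Schwartz-Zippel lemma for boxes, and a one-variable form of the Ekedahl sieve.
-/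

namespace SelAvg

open Polynomial Filter Topology
open scoped Classical

universe u

variable {k : Type u} [Field k] [Finite k]

/-- For every `r` choose a set `T` of `r` primes of degree at least `N₀` (`infinite_irr`,
`finite_irr_le`); by `equidist` with `P = pol` the density is at most `(1 - c)^r` for large `d`. -/
theorem sieve {m : ℕ} (D : ℕ → Fin m → ℕ) (hD : ∀ i, Tendsto (fun d => D d i) atTop atTop)
    (Bad : (Fin m → k[X]) → Prop) {c : ℝ} (hc : 0 < c) (N₀ : ℕ)
    (L : ∀ p : Irr k, (Fin m → AdjoinRoot (pol (some p))) → Prop)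
    (hL : ∀ p : Irr k, N₀ ≤ p.1.natDegree → dens Finset.univ (L p) ≤ 1 - c)
    (hB : ∀ (p : Irr k) x, N₀ ≤ p.1.natDegree → Bad x →
      L p fun i => AdjoinRoot.mk (pol (some p)) (x i)) :
    Tendsto (fun d => dens (piBox k (D d)) Bad) atTop (𝓝 0) := by
  have hinf : {p : Irr k | p.1.natDegree ≤ N₀}ᶜ.Infinite :=
    haveI := infinite_irr (k := k)
    (finite_irr_le N₀).infinite_compl
  obtain ⟨p₀, hp₀⟩ := hinf.nonempty
  have h0 : 0 ≤ 1 - c := (dens_nonneg _ _).trans (hL p₀ (le_of_not_ge hp₀))
  refine tendsto_order.2 ⟨fun a ha => Eventually.of_forall fun d =>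
    ha.trans_le (dens_nonneg _ _), fun ε hε => ?_⟩
  obtain ⟨r, hr⟩ := exists_pow_lt_of_lt_one hε (show 1 - c < 1 by linarith)
  obtain ⟨T, hT, rfl⟩ := hinf.exists_subset_card_eq r
  have hT' : ∀ p ∈ T, N₀ ≤ p.1.natDegree := fun p hp => le_of_not_ge (hT hp)
  filter_upwards [eventually_all.2 fun i => (hD i).eventually_ge_atTop
    (∑ w ∈ T.map Function.Embedding.some, (pol w).natDegree)] with d hd
  have e := equidist (D d) (T.map Function.Embedding.some) pol (fun w => ⟨1, (pow_one _).symm⟩)
    (fun i => (hd i).trans (Nat.le_succ _)) fun w => match w with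
      | none => fun _ => 1
      | some p => fun y => ind (L p y)
  simp only [Finset.prod_map] at e
  replace e : avg (piBox k (D d)) (fun x => ∏ p ∈ T,
      ind (L p fun i => AdjoinRoot.mk (pol (some p)) (x i))) =
      ∏ p ∈ T, avg Finset.univ fun y => ind (L p y) := e
  simp only [← dens_eq_avg] at e
  refine lt_of_le_of_lt ?_ hr
  rw [dens_eq_avg]
  refine (avg_mono fun x _ => ?_).trans (e.trans_le ?_)
  · by_cases h : Bad x
    · rw [ind_pos h, Finset.prod_eq_one fun p hp => ind_pos (hB p x (hT' p hp) h)]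
    · rw [ind_neg h]
      exact Finset.prod_nonneg fun _ _ => ind_nonneg _
  · rw [← Finset.prod_const]
    exact Finset.prod_le_prod (fun _ _ => dens_nonneg _ _) fun p hp => hL p (hT' p hp)

omit [Finite k] in
lemma sieve_map {m : ℕ} {p : MvPolynomial (Fin m) k} (hp : p ≠ 0) (R : Type u) [CommRing R]
    [IsDomain R] [Algebra k R] : ∃ p' : MvPolynomial (Fin m) R, p' ≠ 0 ∧
      p'.totalDegree ≤ p.totalDegree ∧ ∀ x, MvPolynomial.eval x p' = MvPolynomial.aeval x p := by
  refine ⟨MvPolynomial.map (algebraMap k R) p, fun h => hp ?_, ?_, fun x => ?_⟩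
  · apply MvPolynomial.map_injective _ (algebraMap k R).injective
    rw [h, map_zero]
  · exact Finset.sup_mono (MvPolynomial.support_map_subset (algebraMap k R) p)
  · rw [MvPolynomial.eval_map, MvPolynomial.aeval_def]

/-- `MvPolynomial.schwartz_zippel_sum_degreeOf` for `p.map C` over `k[X]` -/
theorem dens_aeval_tendsto {m : ℕ} (D : ℕ → Fin m → ℕ)
    (hD : ∀ i, Tendsto (fun d => D d i) atTop atTop) {p : MvPolynomial (Fin m) k} (hp : p ≠ 0) :
    Tendsto (fun d => dens (piBox k (D d)) fun x => MvPolynomial.aeval x p = 0) atTop (𝓝 0) := by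
  obtain ⟨p', h1, h2, h3⟩ := sieve_map hp k[X]
  have h4 : ∀ i, Tendsto (fun d => (p'.degreeOf i : ℝ) / ((dBox k (D d i)).card : ℝ)) atTop
      (𝓝 0) := fun i => by
    refine Tendsto.const_div_atTop (tendsto_natCast_atTop_atTop.comp
      (tendsto_atTop_mono (fun d => ?_) (hD i))) _
    rw [card_dBox]
    exact (Nat.le_succ _).trans (Nat.lt_pow_self (two_le_card k)).le
  have h5 := tendsto_finsetSum Finset.univ fun i _ => h4 i
  rw [Finset.sum_const_zero] at h5
  refine squeeze_zero (fun d => dens_nonneg _ _) (fun d => ?_) h5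
  have h6 := (NNRat.cast_le (K := ℝ)).2
    (MvPolynomial.schwartz_zippel_sum_degreeOf h1 fun i => dBox k (D d i))
  push_cast at h6
  simp only [h3] at h6
  rw [dens, piBox, Fintype.card_piFinset]
  push_cast
  refine le_trans (le_of_eq ?_) h6
  congr

omit [Finite k] in
/-- `MvPolynomial.schwartz_zippel_totalDegree` -/
theorem dens_aeval_field {m : ℕ} {p : MvPolynomial (Fin m) k} (hp : p ≠ 0) (κ : Type u) [Field κ]
    [Algebra k κ] [Fintype κ] :
    dens Finset.univ (fun x : Fin m → κ => MvPolynomial.aeval x p = 0) ≤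
      p.totalDegree / Fintype.card κ := by
  obtain ⟨p', h1, h2, h3⟩ := sieve_map hp κ
  have h6 := (NNRat.cast_le (K := ℝ)).2
    (MvPolynomial.schwartz_zippel_totalDegree h1 Finset.univ)
  push_cast at h6
  simp only [h3, Fintype.piFinset_univ, Finset.card_univ] at h6
  rw [dens, Finset.card_univ, Fintype.card_fun, Fintype.card_fin]
  push_cast
  exact h6.trans (div_le_div_of_nonneg_right (Nat.cast_le.2 h2) (Nat.cast_nonneg _))

/-- `card_irr_dvd_le`, `dens_root_le`, `dens_exists_le` -/
theorem ek_one {R : k[X]} (hR : R ≠ 0) {B : ℕ} (hB : R.natDegree ≤ B) {Q : k[X][X]} {r : ℕ}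
    (hr : Q.natDegree ≤ r) (D D₀ : ℕ) :
    dens (dBox k D) (fun y => ∃ p : Irr k, D₀ < p.1.natDegree ∧ p.1 ∣ R ∧
      Q.map (AdjoinRoot.mk p.1) ≠ 0 ∧ p.1 ∣ Q.eval y) ≤ B * r * (1 / 2 : ℝ) ^ min D₀ D := by
  set T := (finite_irr_dvd hR).toFinset.filter fun p =>
    D₀ < p.1.natDegree ∧ Q.map (AdjoinRoot.mk p.1) ≠ 0 with hT
  have h1 : T.card ≤ B := (card_irr_dvd_le hR T fun p hp =>
    (finite_irr_dvd hR).mem_toFinset.1 (Finset.mem_filter.1 hp).1).trans hB
  refine (dens_mono (Q := fun y => ∃ p ∈ T, p.1 ∣ Q.eval y) fun y _ ⟨p, a1, a2, a3, a4⟩ =>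
    ⟨p, Finset.mem_filter.2 ⟨(finite_irr_dvd hR).mem_toFinset.2 a2, a1, a3⟩, a4⟩).trans ?_
  refine (dens_exists_le _ _ _).trans ?_
  refine (Finset.sum_le_card_nsmul _ _ (r * (1 / 2 : ℝ) ^ min D₀ D) fun p hp => ?_).trans ?_
  · obtain ⟨-, a1, a2⟩ := Finset.mem_filter.1 hp
    refine (dens_root_le p.2.1 p.2.2 a2 hr D).trans (mul_le_mul_of_nonneg_left
      (pow_le_pow_of_le_one (by norm_num) (by norm_num) (min_le_min_right _ a1.le))
      (Nat.cast_nonneg _))
  · rw [nsmul_eq_mul, mul_assoc]
    exact mul_le_mul_of_nonneg_right (Nat.cast_le.2 h1) (by positivity)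

/-- `(a d + b) / 2^(g d)` tends to zero if `g d ≥ (d - c) / e` -/
theorem tendsto_lin_mul_pow (a b : ℝ) (g : ℕ → ℕ) (c e : ℕ) (he : 0 < e)
    (hg : ∀ d, (d - c) / e ≤ g d) :
    Tendsto (fun d : ℕ => (a * d + b) * (1 / 2 : ℝ) ^ g d) atTop (𝓝 0) := by
  have h1 : Tendsto g atTop atTop := tendsto_atTop_mono hg
    ((Nat.tendsto_div_const_atTop he.ne').comp (tendsto_sub_atTop_nat c))
  have h2 := ((tendsto_self_mul_const_pow_of_lt_one (r := 1 / 2) (by norm_num)
    (by norm_num)).const_mul (|a| * e)).add ((tendsto_pow_atTop_nhds_zero_of_lt_one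
      (r := (1 / 2 : ℝ)) (by norm_num) (by norm_num)).const_mul (|a| * (e + c) + |b|))
  rw [mul_zero, mul_zero, add_zero] at h2
  refine squeeze_zero_norm (fun d => ?_) (h2.comp h1)
  have h3 : d ≤ e * g d + (e + c) := by
    have h4 := Nat.lt_mul_div_succ (d - c) he
    have h5 := Nat.mul_le_mul_left e (hg d)
    rw [mul_add, mul_one] at h4
    omega
  have h4 : (d : ℝ) ≤ e * g d + (e + c) := by exact_mod_cast h3
  have h5 : |a * d + b| ≤ |a| * (e * g d + (e + c)) + |b| := by
    refine (abs_add_le _ _).trans (add_le_add ?_ le_rfl)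
    rw [abs_mul, Nat.abs_cast]
    exact mul_le_mul_of_nonneg_left h4 (abs_nonneg _)
  rw [Real.norm_eq_abs, abs_mul, abs_of_pos (by positivity : (0 : ℝ) < (1 / 2) ^ g d)]
  refine (mul_le_mul_of_nonneg_right h5 (by positivity)).trans_eq ?_
  simp only [Function.comp]
  ring

/-- The Ekedahl sieve in the form needed.  `F₁` and the polynomial `Q x` do not depend on the
coordinate `i`.  Use `dens_pi_le` with the bad set `aeval x F₁ = 0`, `dens_aeval_tendsto`,
`natDegree_aeval_le`, `ek_one`, `tendsto_lin_mul_pow`. -/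
theorem ek_tendsto {m : ℕ} (D : ℕ → Fin m → ℕ) (c : ℕ) (hD : ∀ d i, d - c ≤ D d i)
    (hD' : ∀ d i, D d i ≤ 2 * d + c) (D₀ : ℕ → ℕ) (hD₀ : ∀ d, (d - c) / 2 ≤ D₀ d) (i : Fin m)
    {F₁ : MvPolynomial (Fin m) k} (hF₁ : F₁ ≠ 0)
    (hi : ∀ (x : Fin m → k[X]) a, MvPolynomial.aeval (Function.update x i a) F₁ =
      MvPolynomial.aeval x F₁)
    (Q : (Fin m → k[X]) → k[X][X]) (hQ : ∀ x a, Q (Function.update x i a) = Q x) {r : ℕ}
    (hr : ∀ x, (Q x).natDegree ≤ r) :
    Tendsto (fun d => dens (piBox k (D d)) fun x => ∃ p : Irr k, D₀ d < p.1.natDegree ∧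
      p.1 ∣ MvPolynomial.aeval x F₁ ∧ (Q x).map (AdjoinRoot.mk p.1) ≠ 0 ∧ p.1 ∣ (Q x).eval (x i))
      atTop (𝓝 0) := by
  have h1 := dens_aeval_tendsto D
    (fun i => tendsto_atTop_mono (fun d => hD d i) (tendsto_sub_atTop_nat c)) hF₁
  have h2 := tendsto_lin_mul_pow (F₁.totalDegree * 2 * r) (F₁.totalDegree * c * r)
    (fun d => min (D₀ d) (D d i)) c 2 two_pos fun d =>
      le_min (hD₀ d) ((Nat.div_le_self _ _).trans (hD d i))
  have h3 := h1.add h2
  rw [add_zero] at h3
  refine squeeze_zero (fun d => dens_nonneg _ _) (fun d => ?_) h3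
  refine dens_pi_le _ i _ _ (by positivity) fun x hx h => ?_
  simp only [hi, hQ, Function.update_self]
  refine (ek_one h (natDegree_aeval_le F₁ fun j => (mem_piBox.1 hx j).trans (hD' d j)) (hr x)
    (D d i) (D₀ d)).trans_eq ?_
  push_cast
  ring

end SelAvg

/-!
Squares of large primes dividing the values of a separable polynomial.
-/

namespace SelAvg

open Polynomial
open scoped Classical

universe u

variable {k : Type u} [Field k]

/-- differentiate the coefficients -/
noncomputable def dco (P : k[X][X]) : k[X][X] := P.sum fun i a => monomial i (derivative a)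

lemma coeff_dco (P : k[X][X]) (i : ℕ) : (dco P).coeff i = derivative (P.coeff i) := by
  unfold dco
  rw [Polynomial.sum, finsetSum_coeff]
  simp only [coeff_monomial]
  rw [Finset.sum_ite_eq']
  split_ifs with h
  · rfl
  · rw [notMem_support_iff.1 h, derivative_zero]

lemma natDegree_dco_le (P : k[X][X]) : (dco P).natDegree ≤ P.natDegree := by
  refine natDegree_le_iff_coeff_eq_zero.2 fun i hi => ?_
  rw [coeff_dco, coeff_eq_zero_of_natDegree_lt hi, derivative_zero]

/-- the chain rule -/
lemma derivative_eval (P : k[X][X]) (e : k[X]) :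
    derivative (P.eval e) = (dco P + C (derivative e) * derivative P).eval e := by
  induction P using Polynomial.induction_on' with
  | add p q hp hq =>
    have e1 : dco (p + q) = dco p + dco q := by
      ext1 i
      rw [coeff_add, coeff_dco, coeff_dco, coeff_dco, coeff_add, derivative_add]
    rw [eval_add, derivative_add, hp, hq, e1, derivative_add]
    simp only [eval_add, eval_mul]
    ring
  | monomial n a =>
    have e1 : dco (monomial n a) = monomial n (derivative a) := by
      ext1 i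
      rw [coeff_dco, coeff_monomial, coeff_monomial]
      split_ifs
      · rfl
      · exact derivative_zero
    rw [e1, derivative_monomial, eval_add, eval_mul, eval_C, eval_monomial, eval_monomial,
      eval_monomial, derivative_mul, derivative_pow, map_natCast]
    ring

/-- the resultant is the determinant of a matrix of size `m + n` whose entries are coefficients
(`Matrix.det_apply`, `natDegree_sum_le_of_forall_le`, `natDegree_prod_le`) -/
lemma natDegree_resultant_le (P Q : k[X][X]) (m n : ℕ) {B : ℕ}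
    (hP : ∀ i, (P.coeff i).natDegree ≤ B) (hQ : ∀ i, (Q.coeff i).natDegree ≤ B) :
    (P.resultant Q m n).natDegree ≤ (m + n) * B := by
  rw [resultant, Matrix.det_apply]
  refine natDegree_sum_le_of_forall_le _ _ fun σ _ => ?_
  refine (natDegree_smul_le _ _).trans ((natDegree_prod_le _ _).trans ?_)
  refine (Finset.sum_le_card_nsmul _ _ B fun j _ => ?_).trans (by simp)
  unfold sylvester
  rw [Matrix.of_apply]
  refine Fin.addCases (fun j => ?_) (fun j => ?_) j
  · rw [Fin.addCases_left]
    split_ifs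
    · exact hQ _
    · simp
  · rw [Fin.addCases_right]
    split_ifs
    · exact hP _
    · simp

lemma tailCore_deg {P : k[X][X]} (h3 : P.natDegree ≤ 3) (u : k[X]) :
    (dco P + C u * derivative P).natDegree ≤ 3 :=
  natDegree_add_le_of_degree_le ((natDegree_dco_le P).trans h3) ((natDegree_C_mul_le _ _).trans
    ((natDegree_derivative_le P).trans ((Nat.sub_le _ _).trans h3)))

lemma tailCore_comp {P : k[X][X]} (h3 : P.natDegree ≤ 3) {p : ℕ} (c : k[X]) :
    (P.comp (X ^ p + C c)).natDegree ≤ 3 * p := by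
  refine natDegree_comp_le.trans (Nat.mul_le_mul h3 ?_)
  rw [natDegree_X_pow_add_C]

lemma tailCore_ne {R : Type*} [CommRing R] [IsDomain R] {P : R[X]} (h : P ≠ 0) {p : ℕ}
    (hp : p ≠ 0) (c : R) : P.comp (X ^ p + C c) ≠ 0 := by
  intro e
  rcases comp_eq_zero_iff.1 e with e | ⟨-, e⟩
  · exact h e
  · have := congrArg natDegree e
    rw [natDegree_X_pow_add_C, natDegree_C] at this
    exact hp this

/-- For at most three values of `u` the resultant vanishes.  Map to an algebraic closure `Ω` of
`RatFunc k` (`resultant_map_map`; the degree of `P` is preserved; `resultant_add_right_deg`,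
`resultant_eq_zero_iff`): then `P` and `dco P + u P'` have a common root `ρ`, `P'(ρ) ≠ 0` by
separability, so `u` is determined by `ρ`. -/
theorem card_resultant_eq_zero {P : k[X][X]} (h3 : P.natDegree ≤ 3)
    (hsep : (P.map (toK k)).Separable) (s : Finset k[X])
    (hs : ∀ u ∈ s, P.resultant (dco P + C u * derivative P) P.natDegree 3 = 0) : s.card ≤ 3 := by
  let ψ : RatFunc k →+* AlgebraicClosure (RatFunc k) := algebraMap _ _
  let φ : k[X] →+* AlgebraicClosure (RatFunc k) := ψ.comp (toK k)
  have hφ : Function.Injective φ := ψ.injective.comp (IsFractionRing.injective _ _)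
  have h1 : (P.map φ).Separable := by
    have := hsep.map (f := ψ)
    rwa [map_map] at this
  have h2 : (P.map φ).natDegree = P.natDegree := natDegree_map_eq_of_injective hφ P
  refine le_trans (Finset.card_le_card_of_injOn φ
    (t := (P.map φ).roots.toFinset.image fun ρ =>
      -((dco P).map φ).eval ρ / (derivative (P.map φ)).eval ρ) (fun u hu => ?_) hφ.injOn)
    (Finset.card_image_le.trans ((Multiset.toFinset_card_le _).trans
      ((card_roots' _).trans (h2.le.trans h3))))
  have h4 := resultant_map_map P (dco P + C u * derivative P) P.natDegree 3 φ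
  rw [hs u hu, map_zero, ← h2, resultant_eq_prod_eval _ _ _
    (natDegree_map_le.trans (tailCore_deg h3 u)) (IsAlgClosed.splits _), mul_eq_zero,
    Multiset.prod_eq_zero_iff, Multiset.mem_map] at h4
  rcases h4 with h4 | ⟨ρ, h5, h6⟩
  · exact absurd (leadingCoeff_eq_zero.1 (pow_eq_zero_iff (by norm_num) |>.1 h4)) h1.ne_zero
  · have h7 : (derivative (P.map φ)).eval ρ ≠ 0 := by
      have := h1.aeval_derivative_ne_zero (x := ρ) (by
        rw [coe_aeval_eq_eval]
        exact (mem_roots h1.ne_zero).1 h5)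
      rwa [coe_aeval_eq_eval] at this
    refine Finset.mem_coe.2 (Finset.mem_image.2 ⟨ρ, Multiset.mem_toFinset.2 h5, ?_⟩)
    rw [Polynomial.map_add, Polynomial.map_mul, map_C, ← derivative_map, eval_add, eval_mul,
      eval_C] at h6
    rw [div_eq_iff h7]
    linear_combination -h6

/-- if `π^2` divides `P(e)` then `π` divides `P(e)` and its derivative
(`exists_mul_add_mul_eq_C_resultant`) -/
lemma dvd_resultant {P : k[X][X]} (h3 : P.natDegree ≤ 3) {π e : k[X]} (h : π ^ 2 ∣ P.eval e) :
    π ∣ P.resultant (dco P + C (derivative e) * derivative P) P.natDegree 3 := by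
  obtain ⟨a, b, -, -, hab⟩ := exists_mul_add_mul_eq_C_resultant (m := P.natDegree) (n := 3) P
    (dco P + C (derivative e) * derivative P) le_rfl (tailCore_deg h3 _) (Or.inr (by norm_num))
  have h1 := congrArg (eval e) hab
  rw [eval_C, eval_add, eval_mul, eval_mul, ← derivative_eval] at h1
  rw [← h1]
  have h2 : π ∣ derivative (P.eval e) := by
    have := pow_sub_one_dvd_derivative_of_pow_dvd h
    simpa using this
  exact dvd_add ((dvd_of_mul_left_dvd (pow_two π ▸ h)).mul_right _) (h2.mul_right _)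

variable [Finite k]

lemma tailCore_prime (k : Type u) [Field k] [Finite k] : (ringChar k).Prime :=
  CharP.char_is_prime k _

/-- a bad value of the derivative is rare -/
lemma tailCore_few (Bad : k[X] → Prop) {r : ℕ}
    (h : ∀ s : Finset k[X], (∀ u ∈ s, Bad u) → s.card ≤ r) (a : k[X]) (D : ℕ) :
    dens (dBox k D) (fun w => Bad (a + w ^ ringChar k)) ≤ r * (1 / 2 : ℝ) ^ D := by
  have := Fact.mk (tailCore_prime k)
  refine dens_le_of_card_le ?_ (by positivity)
  have h1 := box_pow (k := k) (a := 0) (b := D) (c := D + 1) (by omega)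
  rw [pow_zero, Nat.cast_one, ← card_dBox] at h1
  rw [mul_assoc]
  refine le_trans (Nat.cast_le.2 ?_) (le_mul_of_one_le_right (Nat.cast_nonneg r) h1)
  have hi : Function.Injective fun w : k[X] => a + w ^ ringChar k := fun x y e =>
    frobenius_inj k[X] (ringChar k) (add_left_cancel e)
  rw [← Finset.card_image_of_injective _ hi]
  refine h _ fun u hu => ?_
  obtain ⟨w, hw, rfl⟩ := Finset.mem_image.1 hu
  exact (Finset.mem_filter.1 hw).2

/-- decoupling a polynomial from its derivative -/
lemma tailCore_main {D : ℕ} (hD : 0 < D) (Bad : k[X] → Prop) {r : ℕ}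
    (h : ∀ s : Finset k[X], (∀ u ∈ s, Bad u) → s.card ≤ r) {F : k[X] → Prop} {c : ℝ} (hc : 0 ≤ c)
    (hF : ∀ a u : k[X], u.natDegree ≤ D → ¬ Bad u →
      (∀ w : k[X], derivative (a + w ^ ringChar k) = u) →
      dens (dBox k ((D - 1) / ringChar k)) (fun w => F (a + w ^ ringChar k)) ≤ c) :
    dens (dBox k D) F ≤ r * (1 / 2 : ℝ) ^ ((D - 1) / ringChar k) + c := by
  have hadd : ∀ x ∈ dBox k D, ∀ y ∈ dBox k D, x + y ∈ dBox k D := fun x hx y hy =>
    mem_dBox.2 (natDegree_add_le_of_degree_le (mem_dBox.1 hx) (mem_dBox.1 hy))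
  have hpow : ∀ w ∈ dBox k ((D - 1) / ringChar k), (w ^ ringChar k).natDegree ≤ D - 1 :=
    fun w hw => natDegree_pow_le.trans
      ((Nat.mul_le_mul_left _ (mem_dBox.1 hw)).trans (Nat.mul_div_le _ _))
  have hder : ∀ w : k[X], derivative (w ^ ringChar k) = 0 := fun w => by
    rw [derivative_pow, ringChar.Nat.cast_ringChar, C_0, zero_mul, zero_mul]
  have hne : (dBox k ((D - 1) / ringChar k)).Nonempty := ⟨0, zero_mem_dBox _⟩
  rw [dens_eq_avg, avg_shift hadd hne (fun w => w ^ ringChar k)
    (fun w hw => mem_dBox.2 ((hpow w hw).trans (Nat.sub_le _ _))),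
    avg_shift hadd hne (fun w => X * w ^ ringChar k) (fun w hw => mem_dBox.2 ?_)]
  · refine avg_le_of_le (by positivity) fun e he => ?_
    refine (avg_mono (G := fun w => ind (Bad (derivative e + w ^ ringChar k)) + c)
      fun w hw => ?_).trans ?_
    · rw [← dens_eq_avg _ fun v => F (e + X * w ^ ringChar k + v ^ ringChar k)]
      by_cases hb : Bad (derivative e + w ^ ringChar k)
      · rw [ind_pos hb]
        exact (dens_le_one _ _).trans (le_add_of_nonneg_right hc)
      · rw [ind_neg hb, zero_add]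
        refine hF _ _ (natDegree_add_le_of_degree_le ((natDegree_derivative_le e).trans
          ((Nat.sub_le _ _).trans (mem_dBox.1 he))) ((hpow w hw).trans (Nat.sub_le _ _))) hb
          fun v => ?_
        rw [derivative_add, derivative_add, derivative_mul, hder, hder, derivative_X, one_mul,
          mul_zero, add_zero, add_zero]
    · rw [avg_add, avg_const hne, ← dens_eq_avg]
      exact add_le_add (tailCore_few Bad h _ _) le_rfl
  · have h1 := hpow w hw
    have h2 : (X * w ^ ringChar k).natDegree ≤ _ := natDegree_mul_le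
    rw [natDegree_X] at h2
    omega

/-- Let `p = ringChar k` (a prime), `D₁ = (D - 1) / p`.  If `D = 0` the bound is trivial.  Apply
`avg_shift` twice: `e = e₁ + X * w₁^p + w₀^p` with `w₀, w₁ ∈ dBox k D₁`; the derivative of `e` is
`u = e₁' + w₁^p`.  The map `w₁ ↦ u` is injective (Frobenius), so the resultant `R` vanishes for at
most three `w₁`.  Otherwise apply `ek_one` to `R` (degree at most `6 (B + D)`) and the polynomial
`P.comp (X^p + C (e₁ + X * w₁^p))` of degree at most `3 p`, whose reduction is nonzero. -/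
theorem tail_core {P : k[X][X]} (h3 : P.natDegree ≤ 3) (hsep : (P.map (toK k)).Separable)
    {B : ℕ} (hB : ∀ i, (P.coeff i).natDegree ≤ B) (D D₀ : ℕ) :
    dens (dBox k D) (fun e => ∃ π : Irr k, D₀ < π.1.natDegree ∧
      P.map (AdjoinRoot.mk π.1) ≠ 0 ∧ π.1 ^ 2 ∣ P.eval e) ≤
      21 * ringChar k * (B + D + 1) * (1 / 2 : ℝ) ^ min D₀ ((D - 1) / ringChar k) := by
  have hp := tailCore_prime k
  have hp1 : (1 : ℝ) ≤ ringChar k := Nat.one_le_cast.2 hp.one_le
  rcases Nat.eq_zero_or_pos D with rfl | hD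
  · refine (dens_le_one _ _).trans ?_
    simp only [Nat.zero_sub, Nat.zero_div, Nat.min_zero, pow_zero, mul_one, Nat.cast_zero]
    have : (0 : ℝ) ≤ B := Nat.cast_nonneg B
    nlinarith
  refine (tailCore_main hD
    (fun u => P.resultant (dco P + C u * derivative P) P.natDegree 3 = 0)
    (card_resultant_eq_zero h3 hsep)
    (c := ((6 * (B + D) : ℕ) : ℝ) * ((3 * ringChar k : ℕ) : ℝ) *
      (1 / 2 : ℝ) ^ min D₀ ((D - 1) / ringChar k)) (by positivity)
    fun c u hu hR hd => ?_).trans ?_
  · refine le_trans (dens_mono fun w _ => ?_) (ek_one hR (B := 6 * (B + D))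
      (Q := P.comp (X ^ ringChar k + C c)) ?_ (tailCore_comp h3 c) _ D₀)
    · rintro ⟨π, h1, h2, h4⟩
      have := Fact.mk π.2.2
      refine ⟨π, h1, hd w ▸ dvd_resultant h3 h4, ?_, ?_⟩
      · rw [map_comp, Polynomial.map_add, Polynomial.map_pow, map_X, map_C]
        exact tailCore_ne h2 hp.ne_zero _
      · rw [eval_comp, eval_add, eval_pow, eval_X, eval_C, add_comm]
        exact dvd_of_mul_left_dvd (pow_two π.1 ▸ h4)
    · refine (natDegree_resultant_le _ _ _ _ (B := B + D)
        (fun i => (hB i).trans (Nat.le_add_right _ _)) fun i => ?_).trans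
        (Nat.mul_le_mul_right _ (by omega))
      rw [coeff_add, coeff_dco, coeff_C_mul, coeff_derivative]
      refine natDegree_add_le_of_degree_le ((natDegree_derivative_le _).trans ?_)
        (natDegree_mul_le.trans ?_)
      · have := hB i
        omega
      · have h1 : (P.coeff (i + 1) * ((i : k[X]) + 1)).natDegree ≤ B := by
          rw [← Nat.cast_succ, ← map_natCast C]
          exact (natDegree_mul_C_le _ _).trans (hB _)
        omega
  · have h1 : (1 / 2 : ℝ) ^ ((D - 1) / ringChar k) ≤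
        (1 / 2 : ℝ) ^ min D₀ ((D - 1) / ringChar k) :=
      pow_le_pow_of_le_one (by norm_num) (by norm_num) (min_le_right _ _)
    have h2 : (0 : ℝ) ≤ (1 / 2 : ℝ) ^ min D₀ ((D - 1) / ringChar k) := by positivity
    have h4 : (3 : ℝ) + 6 * (B + D) * (3 * ringChar k) ≤ 21 * ringChar k * (B + D + 1) := by
      have : (0 : ℝ) ≤ B + D := by positivity
      nlinarith
    push_cast
    nlinarith [mul_le_mul_of_nonneg_right h4 h2]

/-- As above: `dco P + u P'` vanishes for at most one `u`; otherwise use `dens_root_zero_le`. -/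
theorem dens_derivative_eq_zero {P : k[X][X]} (h3 : P.natDegree ≤ 3) (h : derivative P ≠ 0)
    (D : ℕ) : dens (dBox k D) (fun e => derivative (P.eval e) = 0) ≤
      4 * ringChar k * (1 / 2 : ℝ) ^ ((D - 1) / ringChar k) := by
  have hp := tailCore_prime k
  have hp1 : (1 : ℝ) ≤ ringChar k := Nat.one_le_cast.2 hp.one_le
  rcases Nat.eq_zero_or_pos D with rfl | hD
  · refine (dens_le_one _ _).trans ?_
    simp only [Nat.zero_sub, Nat.zero_div, pow_zero, mul_one]
    linarith
  refine (tailCore_main hD (fun u => dco P + C u * derivative P = 0) (r := 1)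
    (fun s hs => Finset.card_le_one.2 fun a ha b hb => ?_)
    (c := ((3 * ringChar k : ℕ) : ℝ) * (1 / 2 : ℝ) ^ ((D - 1) / ringChar k)) (by positivity)
    fun c u _ hR hd => ?_).trans ?_
  · exact C_injective (mul_right_cancel₀ h (add_left_cancel ((hs a ha).trans (hs b hb).symm)))
  · refine le_trans (dens_mono fun w _ hw => ?_) (dens_root_zero_le
      (tailCore_ne hR hp.ne_zero c) (tailCore_comp (tailCore_deg h3 u) c) _)
    have e : (X ^ ringChar k + C c).eval w = c + w ^ ringChar k := by
      rw [eval_add, eval_pow, eval_X, eval_C, add_comm]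
    rw [eval_comp, e, ← hd w, ← derivative_eval]
    exact hw
  · have h2 : (0 : ℝ) ≤ (1 / 2 : ℝ) ^ ((D - 1) / ringChar k) := by positivity
    push_cast
    nlinarith

end SelAvg
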