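import Pool.Agent.H38Sel.RatC

/-!
The height of a Weierstrass model over the rational function field.
-/

namespace SelAvg

open WeierstrassCurve WithZero Polynomial
open scoped Classical

universe u

section Gen

variable {F : Type u} [Field F]

lemma height1_down {x : ℤᵐ⁰} {i e e' : ℤ} (hi : 0 < i) (h : e' ≤ e) (hx : x ≤ exp (-(i * e))) :
    x ≤ exp (-(i * e')) :=
  hx.trans (exp_le_exp.2 (by nlinarith))

lemma height1_ex (x : ℤᵐ⁰) {i : ℤ} (hi : 0 < i) : ∃ e, x ≤ exp (-(i * e)) := by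
  by_cases hx : x = 0
  · exact ⟨0, by simp [hx]⟩
  · refine ⟨-|log x|, ?_⟩
    rw [← exp_log hx, exp_le_exp, log_exp]
    nlinarith [le_abs_self (log x), abs_nonneg (log x)]

lemma height1_bdd {x : ℤᵐ⁰} (hx : x ≠ 0) {i e : ℤ} (hi : 0 < i) (h : x ≤ exp (-(i * e))) :
    e ≤ |log x| := by
  rw [← exp_log hx, exp_le_exp] at h
  by_contra hc
  nlinarith [neg_abs_le (log x), abs_nonneg (log x)]

lemma height1_ne {R : Type*} [CommRing R] {W : WeierstrassCurve R} (hW : W.Δ ≠ 0) :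
    W.a₁ ≠ 0 ∨ W.a₂ ≠ 0 ∨ W.a₃ ≠ 0 ∨ W.a₄ ≠ 0 ∨ W.a₆ ≠ 0 := by
  by_contra h
  simp only [not_or, not_not] at h
  obtain ⟨h1, h2, h3, h4, h6⟩ := h
  exact hW (by simp [Δ, b₂, b₄, b₆, b₈, h1, h2, h3, h4, h6])

/-- The defining set is nonempty, closed downwards and (as some `a_i` is nonzero) bounded above;
use `Int.csSup_mem` and `le_csSup`. -/
lemma Place.le_e_iff (v : Place F) {W : WeierstrassCurve F} (hW : W.Δ ≠ 0) (e : ℤ) :
    e ≤ v.e W ↔ v.1 W.a₁ ≤ exp (-(1 * e)) ∧ v.1 W.a₂ ≤ exp (-(2 * e)) ∧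
      v.1 W.a₃ ≤ exp (-(3 * e)) ∧ v.1 W.a₄ ≤ exp (-(4 * e)) ∧ v.1 W.a₆ ≤ exp (-(6 * e)) := by
  let S : Set ℤ := {e : ℤ | v.1 W.a₁ ≤ exp (-(1 * e)) ∧ v.1 W.a₂ ≤ exp (-(2 * e)) ∧
    v.1 W.a₃ ≤ exp (-(3 * e)) ∧ v.1 W.a₄ ≤ exp (-(4 * e)) ∧ v.1 W.a₆ ≤ exp (-(6 * e))}
  have hd : ∀ e ∈ S, ∀ e' ≤ e, e' ∈ S := fun e ⟨h1, h2, h3, h4, h6⟩ e' h =>
    ⟨height1_down (by norm_num) h h1, height1_down (by norm_num) h h2,
      height1_down (by norm_num) h h3, height1_down (by norm_num) h h4,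
      height1_down (by norm_num) h h6⟩
  have hn : S.Nonempty := by
    obtain ⟨e1, h1⟩ := height1_ex (v.1 W.a₁) (i := 1) (by norm_num)
    obtain ⟨e2, h2⟩ := height1_ex (v.1 W.a₂) (i := 2) (by norm_num)
    obtain ⟨e3, h3⟩ := height1_ex (v.1 W.a₃) (i := 3) (by norm_num)
    obtain ⟨e4, h4⟩ := height1_ex (v.1 W.a₄) (i := 4) (by norm_num)
    obtain ⟨e6, h6⟩ := height1_ex (v.1 W.a₆) (i := 6) (by norm_num)
    exact ⟨min (min (min e1 e2) (min e3 e4)) e6, height1_down (by norm_num) (by omega) h1,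
      height1_down (by norm_num) (by omega) h2, height1_down (by norm_num) (by omega) h3,
      height1_down (by norm_num) (by omega) h4, height1_down (by norm_num) (by omega) h6⟩
  have hb : BddAbove S := by
    rcases height1_ne hW with h | h | h | h | h
    · exact ⟨_, fun e he => height1_bdd ((map_ne_zero v.1).2 h) (by norm_num) he.1⟩
    · exact ⟨_, fun e he => height1_bdd ((map_ne_zero v.1).2 h) (by norm_num) he.2.1⟩
    · exact ⟨_, fun e he => height1_bdd ((map_ne_zero v.1).2 h) (by norm_num) he.2.2.1⟩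
    · exact ⟨_, fun e he => height1_bdd ((map_ne_zero v.1).2 h) (by norm_num) he.2.2.2.1⟩
    · exact ⟨_, fun e he => height1_bdd ((map_ne_zero v.1).2 h) (by norm_num) he.2.2.2.2⟩
  exact ⟨fun h => hd _ (Int.csSup_mem hn hb) e h, fun h => le_csSup hb h⟩

lemma height1_shift (v : Place F) (u : Fˣ) {c : ℤ} (hu : v.1 (u : F) = exp (-c)) (i : ℕ) (a : F)
    (e : ℤ) : v.1 (((u⁻¹ : Fˣ) : F) ^ i * a) ≤ exp (-(i * e)) ↔ v.1 a ≤ exp (-(i * (e + c))) := by
  rw [map_mul, map_pow, Units.val_inv_eq_inv_val, map_inv₀, hu, ← exp_neg, ← exp_nsmul]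
  by_cases ha : v.1 a = 0
  · simp [ha]
  · rw [← exp_log ha, ← exp_add, exp_le_exp, exp_le_exp, nsmul_eq_mul]
    constructor <;> intro h <;> linarith

lemma height1_Delta {W : WeierstrassCurve F} (hW : W.Δ ≠ 0) (C : VariableChange F) :
    (C • W).Δ ≠ 0 := by
  rw [variableChange_Δ]
  exact mul_ne_zero (pow_ne_zero _ (Units.ne_zero _)) hW

lemma Place.e_wdiag (v : Place F) {W : WeierstrassCurve F} (hW : W.Δ ≠ 0) (u : Fˣ) {c : ℤ}
    (hu : v.1 (u : F) = exp (-c)) : v.e (wdiag u • W) = v.e W - c := by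
  refine eq_of_forall_le_iff fun e => ?_
  rw [le_sub_iff_add_le, v.le_e_iff hW, v.le_e_iff (height1_Delta hW _)]
  have h1 := height1_shift v u hu 1 W.a₁ e
  have h2 := height1_shift v u hu 2 W.a₂ e
  have h3 := height1_shift v u hu 3 W.a₃ e
  have h4 := height1_shift v u hu 4 W.a₄ e
  have h6 := height1_shift v u hu 6 W.a₆ e
  push_cast at h1 h2 h3 h4 h6
  rw [← h1, ← h2, ← h3, ← h4, ← h6]
  simp [wdiag, variableChange_def]

end Gen

variable {k : Type u} [Field k]

lemma height1_fin (x : RatFunc k) : {p : Irr k | x ≠ 0 ∧ (plc (some p)).1 x ≠ 1}.Finite := by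
  by_cases hx : x = 0
  · simp [hx]
  · exact (finite_val_ne_one hx).subset fun p hp => hp.2

lemma height1_le_one {x : RatFunc k} {v : Place (RatFunc k)} (h : ¬(x ≠ 0 ∧ v.1 x ≠ 1)) (i : ℤ) :
    v.1 x ≤ exp (-(i * 0)) := by
  by_cases hx : x = 0
  · simp [hx]
  · simp [not_not.1 (not_and.1 h hx)]

lemma height1_le_zero {x : RatFunc k} {v : Place (RatFunc k)} (h : ¬(x ≠ 0 ∧ v.1 x ≠ 1))
    (hx : x ≠ 0) {i e : ℤ} (hi : 0 < i) (he : v.1 x ≤ exp (-(i * e))) : e ≤ 0 := by
  rw [not_not.1 (not_and.1 h hx), ← exp_zero, exp_le_exp] at he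
  by_contra hc
  nlinarith

/-- `finite_val_ne_one` for the nonzero coefficients -/
lemma finite_e_ne_zero {W : WeierstrassCurve (RatFunc k)} (hW : W.Δ ≠ 0) :
    {p : Irr k | (plc (some p)).e W ≠ 0}.Finite := by
  refine ((height1_fin W.a₁).union ((height1_fin W.a₂).union ((height1_fin W.a₃).union
    ((height1_fin W.a₄).union (height1_fin W.a₆))))).subset fun p hp => ?_
  by_contra hc
  simp only [Set.mem_union, Set.mem_ofPred_eq, not_or] at hc
  obtain ⟨h1, h2, h3, h4, h6⟩ := hc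
  refine hp (le_antisymm ?_ (((plc (some p)).le_e_iff hW 0).2 ⟨height1_le_one h1 _,
    height1_le_one h2 _, height1_le_one h3 _, height1_le_one h4 _, height1_le_one h6 _⟩))
  obtain ⟨g1, g2, g3, g4, g6⟩ := ((plc (some p)).le_e_iff hW _).1 le_rfl
  rcases height1_ne hW with h | h | h | h | h
  · exact height1_le_zero h1 h (by norm_num) g1
  · exact height1_le_zero h2 h (by norm_num) g2
  · exact height1_le_zero h3 h (by norm_num) g3
  · exact height1_le_zero h4 h (by norm_num) g4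
  · exact height1_le_zero h6 h (by norm_num) g6

lemma height1_infty_iff (a : k[X]) (i m : ℕ) :
    (plc none).1 (toK k a) ≤ exp (-((i : ℤ) * -(m : ℤ))) ↔ a.natDegree ≤ i * m := by
  by_cases ha : a = 0
  · simp [ha]
  · rw [val_infty_toK ha, exp_le_exp, mul_neg, neg_neg]
    norm_cast

lemma height1_Delta_map {W : WeierstrassCurve k[X]} (hΔ : W.Δ ≠ 0) : (W.map (toK k)).Δ ≠ 0 := by
  rw [map_Δ]
  exact (map_ne_zero_iff _ (IsFractionRing.injective _ _)).2 hΔ

lemma height1_val_irr (p p' : Irr k) :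
    (plc (some p')).1 (toK k p.1) = if p = p' then exp (-1) else 1 := by
  split_ifs with h
  · subst h
    exact val_emb_pol (some p)
  · refine (val_emb_eq_one_iff (some p') p.1).2 fun h2 => h (Subtype.ext ?_)
    exact eq_of_monic_of_associated p.2.1 p'.2.1 (p'.2.2.associated_of_dvd p.2.2 h2).symm

lemma height1_unit (T : Finset (Irr k)) (e : Irr k → ℤ) (he : ∀ p ∉ T, e p = 0) :
    ∃ u : (RatFunc k)ˣ, (∀ p, (plc (some p)).1 (u : RatFunc k) = exp (-e p)) ∧
      (plc none).1 (u : RatFunc k) = exp (- -∑ p ∈ T, (p.1.natDegree : ℤ) * e p) := by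
  have h0 : ∀ p : Irr k, toK k p.1 ≠ 0 := fun p =>
    (map_ne_zero_iff _ (IsFractionRing.injective _ _)).2 p.2.2.ne_zero
  refine ⟨Units.mk0 (∏ p ∈ T, toK k p.1 ^ e p)
    (Finset.prod_ne_zero_iff.2 fun p _ => zpow_ne_zero _ (h0 p)), fun p' => ?_, ?_⟩
  · rw [Units.val_mk0, map_prod, Finset.prod_eq_single p']
    · rw [map_zpow₀, height1_val_irr, if_pos rfl, ← exp_zsmul]
      simp
    · intro p _ hp
      rw [map_zpow₀, height1_val_irr, if_neg hp, one_zpow]
    · intro hp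
      rw [he p' hp, zpow_zero, map_one]
  · rw [Units.val_mk0, map_prod, neg_neg]
    clear he
    induction T using Finset.induction_on with
    | empty => simp
    | insert p T hp ih =>
      rw [Finset.prod_insert hp, Finset.sum_insert hp, ih, exp_add, map_zpow₀,
        val_infty_toK p.2.2.ne_zero, ← exp_zsmul, smul_eq_mul, mul_comm (e p)]

variable [Finite k]

/-- Reindex the `finprod` along the bijection `plc` (`finprod_comp_equiv`, `Equiv.ofBijective`),
then `finprod_eq_prod_of_mulSupport_subset` with `T.insertNone`, `q_plc`. -/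
theorem modelHeight_eq {W : WeierstrassCurve (RatFunc k)} (T : Finset (Irr k))
    (hT : ∀ p ∉ T, (plc (some p)).e W = 0) :
    modelHeight W = (Nat.card k : ℝ) ^
      (-12 * ((plc none).e W + ∑ p ∈ T, (p.1.natDegree : ℤ) * (plc (some p)).e W)) := by
  have hq : (Nat.card k : ℝ) ≠ 0 := by exact_mod_cast Nat.card_pos.ne'
  rw [modelHeight, ← finprod_comp_equiv (Equiv.ofBijective _ ⟨plc_injective, plc_surjective⟩),
    finprod_eq_prod_of_mulSupport_subset (s := T.insertNone), Finset.prod_insertNone, mul_add,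
    zpow_add₀ hq, Finset.mul_sum]
  · simp only [Equiv.ofBijective_apply, q_plc, pol, natDegree_X, pow_one]
    congr 1
    clear hT
    induction T using Finset.induction_on with
    | empty => simp
    | insert p T hp ih =>
      rw [Finset.prod_insert hp, Finset.sum_insert hp, ih, zpow_add₀ hq, Nat.cast_pow,
        ← zpow_natCast, ← zpow_mul]
      congr 2
      ring
  · rintro (_ | p) hp
    · simp
    · by_contra hc
      have h1 : p ∉ T := by simpa using hc
      exact hp (by simp [hT p h1])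

/-- `e ≥ 0` at finite places and `e ≥ -d` at infinity -/
theorem modelHeight_le {d : ℕ} {W : WeierstrassCurve k[X]} (hW : W ∈ WBox k d) (hΔ : W.Δ ≠ 0) :
    modelHeight (W.map (toK k)) ≤ (Nat.card k : ℝ) ^ (12 * d) := by
  have hΔ' := height1_Delta_map hΔ
  obtain ⟨h1, h2, h3, h4, h6⟩ := mem_WBox'.1 hW
  have hq : (1 : ℝ) ≤ Nat.card k := by exact_mod_cast Nat.card_pos
  rw [modelHeight_eq (finite_e_ne_zero hΔ').toFinset (fun p hp => by simpa using hp),
    ← zpow_natCast]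
  refine zpow_le_zpow_right₀ hq ?_
  have hi : -(d : ℤ) ≤ (plc none).e (W.map (toK k)) := ((plc none).le_e_iff hΔ' _).2
    ⟨(height1_infty_iff _ 1 d).2 (by omega), (height1_infty_iff _ 2 d).2 h2,
      (height1_infty_iff _ 3 d).2 h3, (height1_infty_iff _ 4 d).2 h4,
      (height1_infty_iff _ 6 d).2 h6⟩
  have hv : ∀ (p : Irr k) (a : k[X]) (i : ℤ), (plc (some p)).1 (toK k a) ≤ exp (-(i * 0)) :=
    fun p a i => by simpa [emb_some] using val_emb_le_one (some p) a
  have hs : 0 ≤ ∑ p ∈ (finite_e_ne_zero hΔ').toFinset,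
      (p.1.natDegree : ℤ) * (plc (some p)).e (W.map (toK k)) :=
    Finset.sum_nonneg fun p _ => mul_nonneg (Int.natCast_nonneg _)
      (((plc (some p)).le_e_iff hΔ' 0).2 ⟨hv p _ _, hv p _ _, hv p _ _, hv p _ _, hv p _ _⟩)
  push_cast
  linarith

/-- Take `u = ∏ p ∈ T, p^(e p)`.  Its valuation is `exp (-e p)` at `p`, and `exp (∑ deg p * e p)` at
infinity.  So `wdiag u • W₀` has `e = 0` at all finite places, hence is polynomial
(`exists_toK_of_forall_le`), and `-m` is its `e` at infinity; `m ≥ 0` because a nonzero polynomial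
has valuation at least `1` at infinity. -/
theorem exists_box_of_model {W₀ : WeierstrassCurve (RatFunc k)} (hΔ : W₀.Δ ≠ 0) :
    ∃ (m : ℕ) (u : (RatFunc k)ˣ), ∃ W ∈ WBox k m, wdiag u • W₀ = W.map (toK k) ∧
      modelHeight W₀ = (Nat.card k : ℝ) ^ (12 * m) := by
  have hT : ∀ p ∉ (finite_e_ne_zero hΔ).toFinset, (plc (some p)).e W₀ = 0 := fun p hp => by
    simpa using hp
  obtain ⟨u, hu, hu'⟩ := height1_unit _ _ hT
  have hΔ' := height1_Delta hΔ (wdiag u)
  have h0 : ∀ p : Irr k, _ := fun p => ((plc (some p)).le_e_iff hΔ' 0).1 (by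
    rw [(plc (some p)).e_wdiag hΔ u (hu p), sub_self])
  simp only [mul_zero, neg_zero, exp_zero] at h0
  obtain ⟨b1, hb1⟩ := exists_toK_of_forall_le fun p => (h0 p).1
  obtain ⟨b2, hb2⟩ := exists_toK_of_forall_le fun p => (h0 p).2.1
  obtain ⟨b3, hb3⟩ := exists_toK_of_forall_le fun p => (h0 p).2.2.1
  obtain ⟨b4, hb4⟩ := exists_toK_of_forall_le fun p => (h0 p).2.2.2.1
  obtain ⟨b6, hb6⟩ := exists_toK_of_forall_le fun p => (h0 p).2.2.2.2
  have hE := (plc none).e_wdiag hΔ u hu'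
  obtain ⟨g1, g2, g3, g4, g6⟩ := ((plc none).le_e_iff hΔ' _).1 le_rfl
  rw [← hb1] at g1
  rw [← hb2] at g2
  rw [← hb3] at g3
  rw [← hb4] at g4
  rw [← hb6] at g6
  have hn : ∀ (b : k[X]) (i : ℤ), 0 < i → toK k b ≠ 0 →
      (plc none).1 (toK k b) ≤ exp (-(i * (plc none).e (wdiag u • W₀))) →
      (plc none).e (wdiag u • W₀) ≤ 0 := fun b i hi hb h => by
    rw [val_infty_toK (fun e => hb (by rw [e, map_zero])), exp_le_exp] at h
    by_contra hc
    nlinarith [Int.natCast_nonneg b.natDegree]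
  have hm : (plc none).e (wdiag u • W₀) ≤ 0 := by
    rcases height1_ne hΔ' with h | h | h | h | h
    · exact hn b1 _ (by norm_num) (hb1 ▸ h) g1
    · exact hn b2 _ (by norm_num) (hb2 ▸ h) g2
    · exact hn b3 _ (by norm_num) (hb3 ▸ h) g3
    · exact hn b4 _ (by norm_num) (hb4 ▸ h) g4
    · exact hn b6 _ (by norm_num) (hb6 ▸ h) g6
  obtain ⟨m, hm'⟩ : ∃ m : ℕ, (plc none).e (wdiag u • W₀) = -(m : ℤ) :=
    ⟨(-(plc none).e (wdiag u • W₀)).toNat, by omega⟩
  rw [hm'] at g1 g2 g3 g4 g6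
  refine ⟨m, u, ⟨b1, b2, b3, b4, b6⟩, mem_WBox'.2 ⟨?_, (height1_infty_iff _ 2 m).1 g2,
    (height1_infty_iff _ 3 m).1 g3, (height1_infty_iff _ 4 m).1 g4,
    (height1_infty_iff _ 6 m).1 g6⟩, ?_, ?_⟩
  · simpa using (height1_infty_iff _ 1 m).1 g1
  · exact WeierstrassCurve.ext hb1.symm hb2.symm hb3.symm hb4.symm hb6.symm
  · rw [modelHeight_eq _ hT, ← zpow_natCast]
    congr 1
    push_cast
    linarith

end SelAvg

/-!
The height of an elliptic curve over the rational function field.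
-/

namespace SelAvg

open WeierstrassCurve Polynomial
open scoped Classical

universe u

variable {k : Type u} [Field k] [Finite k]

omit [Finite k] in
lemma height2_inv {p : ℕ} (hp : p.Prime) (h : ringChar (RatFunc k) ≠ p) :
    ∃ c : k[X], c.natDegree ≤ 0 ∧ (p : k[X]) * c = 1 := by
  have h0 : (p : k) ≠ 0 := fun h0 => h (CharP.ringChar_of_prime_eq_zero hp (by
    rw [← map_natCast (algebraMap k (RatFunc k)), h0, map_zero]))
  refine ⟨Polynomial.C (p : k)⁻¹, (natDegree_C _).le, ?_⟩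
  rw [← map_natCast (Polynomial.C : k →+* k[X]), ← map_mul, mul_inv_cancel₀ h0, map_one]

/-- If the characteristic is not 2 or 3, take `s = -a₁ / 2`, `r = -b₂ / 12`,
`t = -(a₃ + r a₁) / 2` (the inverses of 2 and 12 are constants). -/
lemma exists_short {d : ℕ} {W : WeierstrassCurve k[X]} (hW : W ∈ WBox k d)
    (h2 : ringChar (RatFunc k) ≠ 2) (h3 : ringChar (RatFunc k) ≠ 3) :
    ∃ C ∈ GBox k d, (C • W).a₁ = 0 ∧ (C • W).a₂ = 0 ∧ (C • W).a₃ = 0 := by
  obtain ⟨i, hi, ei⟩ := height2_inv Nat.prime_two h2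
  obtain ⟨j, hj, ej⟩ := height2_inv Nat.prime_three h3
  obtain ⟨d1, d2, d3, -, -⟩ := mem_WBox'.1 hW
  rw [Nat.cast_ofNat] at ei ej
  have hs : (-(i * W.a₁)).natDegree ≤ d := by
    rw [natDegree_neg]
    exact boxes_mul hi d1 (by omega)
  obtain ⟨s, es⟩ : ∃ s, s = -(i * W.a₁) := ⟨_, rfl⟩
  rw [← es] at hs
  have hr : (-(j * (W.a₂ - s * W.a₁ - s ^ 2))).natDegree ≤ 2 * d := by
    rw [natDegree_neg]
    exact boxes_mul hj (boxes_sub (boxes_sub d2 (boxes_mul hs d1 (by omega)))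
      (boxes_pow 2 hs le_rfl)) (by omega)
  obtain ⟨r, er⟩ : ∃ r, r = -(j * (W.a₂ - s * W.a₁ - s ^ 2)) := ⟨_, rfl⟩
  rw [← er] at hr
  have ht : (-(i * (W.a₃ + r * W.a₁))).natDegree ≤ 3 * d := by
    rw [natDegree_neg]
    exact boxes_mul hi (boxes_add d3 (boxes_mul hr d1 (by omega))) (by omega)
  refine ⟨⟨1, r, s, -(i * (W.a₃ + r * W.a₁))⟩, mem_GBox.2 ⟨hr, hs, ht⟩, ?_, ?_, ?_⟩
  · rw [variableChange_a₁]
    refine mul_eq_zero_of_right _ ?_
    dsimp only
    linear_combination 2 * es - W.a₁ * ei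
  · rw [variableChange_a₂]
    refine mul_eq_zero_of_right _ ?_
    dsimp only
    linear_combination 3 * er - (W.a₂ - s * W.a₁ - s ^ 2) * ej
  · rw [variableChange_a₃]
    refine mul_eq_zero_of_right _ ?_
    dsimp only
    linear_combination (-(W.a₃ + r * W.a₁)) * ei

lemma height2_Delta {F : Type u} [Field F] {W : WeierstrassCurve F} (h : W.Δ ≠ 0)
    (C : VariableChange F) : (C • W).Δ ≠ 0 := by
  rw [variableChange_Δ]
  exact mul_ne_zero (pow_ne_zero _ (Units.ne_zero _)) h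

lemma height2_mem {W₀ : WeierstrassCurve (RatFunc k)} (hΔ : W₀.Δ ≠ 0) {d : ℕ}
    {W : WeierstrassCurve k[X]} (hW : W ∈ WBox k d) {C : VariableChange (RatFunc k)}
    (h : C • W₀ = W.map (toK k)) : ∃ C' : VariableChange (RatFunc k),
      (ringChar (RatFunc k) = 2 ∨ ringChar (RatFunc k) = 3 ∨
        ((C' • W₀).a₁ = 0 ∧ (C' • W₀).a₂ = 0 ∧ (C' • W₀).a₃ = 0)) ∧
      modelHeight (C' • W₀) ≤ (Nat.card k : ℝ) ^ (12 * d) := by
  have key : ∀ (W : WeierstrassCurve k[X]) (C : VariableChange (RatFunc k)), W ∈ WBox k d →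
      C • W₀ = W.map (toK k) → modelHeight (C • W₀) ≤ (Nat.card k : ℝ) ^ (12 * d) := by
    intro W C hW h
    have h1 := height2_Delta hΔ C
    rw [h] at h1 ⊢
    refine modelHeight_le hW fun h0 => h1 ?_
    rw [map_Δ, h0, map_zero]
  by_cases h2 : ringChar (RatFunc k) = 2
  · exact ⟨C, Or.inl h2, key W C hW h⟩
  by_cases h3 : ringChar (RatFunc k) = 3
  · exact ⟨C, Or.inr (Or.inl h3), key W C hW h⟩
  obtain ⟨C', hC', e1, e2, e3⟩ := exists_short hW h2 h3
  have e : (C'.map (toK k) * C) • W₀ = (C' • W).map (toK k) := by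
    rw [mul_smul, h, map_variableChange]
  refine ⟨C'.map (toK k) * C, Or.inr (Or.inr ?_), key _ _ (smul_mem_WBox hC' hW) e⟩
  rw [e, map_a₁, map_a₂, map_a₃, e1, e2, e3, map_zero]
  exact ⟨rfl, rfl, rfl⟩

/-- The set in the definition of `height` consists of numbers `q^(12 m)` (`exists_box_of_model`),
so it is bounded below by `0`.  If `C • W₀ = W.map toK` with `W` in the box, it contains a number
at most `q^(12 d)` (`exists_short`, `modelHeight_le`); in particular it is always nonempty.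
Conversely use `exists_lt_of_csInf_lt` and `WBox_mono`. -/
theorem height_le_iff {W₀ : WeierstrassCurve (RatFunc k)} (hΔ : W₀.Δ ≠ 0) {d : ℕ} {X : ℝ}
    (h1 : (Nat.card k : ℝ) ^ (12 * d) ≤ X) (h2 : X < (Nat.card k : ℝ) ^ (12 * (d + 1))) :
    height W₀ ≤ X ↔
      ∃ W ∈ WBox k d, ∃ C : VariableChange (RatFunc k), C • W₀ = W.map (toK k) := by
  have hq : (1 : ℝ) < Nat.card k := by exact_mod_cast Finite.one_lt_card
  unfold height
  constructor
  · intro h
    obtain ⟨m₀, u₀, W₁, hW₁, e₁, -⟩ := exists_box_of_model hΔ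
    obtain ⟨C₁, hC₁, -⟩ := height2_mem hΔ hW₁ e₁
    obtain ⟨_, ⟨C, -, rfl⟩, hlt⟩ :=
      exists_lt_of_csInf_lt (by exact ⟨_, C₁, hC₁, rfl⟩) (h.trans_lt h2)
    obtain ⟨m, u, W, hW, e, hm⟩ := exists_box_of_model (height2_Delta hΔ C)
    rw [hm, pow_lt_pow_iff_right₀ hq] at hlt
    exact ⟨W, WBox_mono (by omega) hW, wdiag u * C, by rw [mul_smul, e]⟩
  · rintro ⟨W, hW, C, e⟩
    obtain ⟨C', hC', hle⟩ := height2_mem hΔ hW e
    refine le_trans (csInf_le ⟨0, ?_⟩ ⟨C', hC', rfl⟩) (hle.trans h1)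
    rintro _ ⟨C, -, rfl⟩
    obtain ⟨m, u, W, -, -, hm⟩ := exists_box_of_model (height2_Delta hΔ C)
    rw [hm]
    positivity

/-- the parameter `d` attached to `X` -/
noncomputable def dOf (q : ℕ) (X : ℝ) : ℕ := Nat.log (q ^ 12) ⌊X⌋₊

lemma dOf_spec {q : ℕ} (hq : 2 ≤ q) {X : ℝ} (hX : 1 ≤ X) :
    (q : ℝ) ^ (12 * dOf q X) ≤ X ∧ X < (q : ℝ) ^ (12 * (dOf q X + 1)) := by
  have h1 : 1 < q ^ 12 := Nat.one_lt_pow (by norm_num) hq
  have h0 : ⌊X⌋₊ ≠ 0 := (Nat.floor_pos.2 hX).ne'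
  constructor
  · have h2 := Nat.pow_log_le_self (q ^ 12) h0
    rw [← pow_mul] at h2
    have h3 : ((q ^ (12 * dOf q X) : ℕ) : ℝ) ≤ X :=
      (Nat.le_floor_iff (by linarith)).1 h2
    exact_mod_cast h3
  · have h2 := Nat.lt_pow_succ_log_self h1 ⌊X⌋₊
    rw [← pow_mul] at h2
    have h3 : X < ((q ^ (12 * (dOf q X + 1)) : ℕ) : ℝ) :=
      (Nat.floor_lt (by linarith)).1 h2
    exact_mod_cast h3

lemma tendsto_dOf {q : ℕ} (hq : 2 ≤ q) : Filter.Tendsto (dOf q) Filter.atTop Filter.atTop := by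
  have h1 : 1 < q ^ 12 := Nat.one_lt_pow (by norm_num) hq
  refine Filter.tendsto_atTop.2 fun n => ?_
  filter_upwards [Filter.eventually_ge_atTop ((((q ^ 12) ^ n : ℕ) : ℝ))] with X hX
  exact Nat.le_log_of_pow_le h1 (Nat.le_floor hX)

end SelAvg

/-!
Minimal equations in the box and their stabilisers.
-/

namespace SelAvg

open WeierstrassCurve Polynomial
open scoped Classical

universe u

variable {k : Type u} [Field k] [Finite k]

/-- induction on `d` (or on the degree of `Δ`) with `NonMin.exists_small`, `wsc_unit`,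
`WBox_mono` -/
theorem exists_min {d : ℕ} {W : WeierstrassCurve k[X]} (hW : W ∈ WBox k d) (hΔ : W.Δ ≠ 0) :
    ∃ W' ∈ WBox k d, IsMin W' ∧
      ∃ C : VariableChange (RatFunc k), C • W.map (toK k) = W'.map (toK k) := by
  induction d using Nat.strong_induction_on generalizing W with
  | _ d ih =>
  by_cases h : ∃ p : Irr k, NonMin p.1 W
  · obtain ⟨p, hp⟩ := h
    obtain ⟨h1, r, -, s, -, t, -, W', hW', h2⟩ := hp.exists_small hW hΔ
    have h3 := p.2.2.natDegree_pos
    have h4 : W'.Δ ≠ 0 := fun h0 => (Delta_smul_ne_zero (wsh r s t)).2 hΔ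
      (by rw [h2, wsc_Delta, h0, mul_zero])
    obtain ⟨W'', h5, h6, C, h7⟩ := ih _ (by omega) hW' h4
    have h8 : toK k p.1 ≠ 0 := (map_ne_zero_iff _ (emb_injective (some p))).2 p.2.2.ne_zero
    refine ⟨W'', WBox_mono (Nat.sub_le _ _) h5, h6,
      C * (wdiag (Units.mk0 _ h8)⁻¹)⁻¹ * (wsh r s t).map (toK k), ?_⟩
    rw [mul_smul, mul_smul, map_variableChange, h2, wsc_map, ← h7]
    congr 1
    rw [inv_smul_eq_iff, ← wsc_unit]
    rfl
  · exact ⟨W, hW, ⟨hΔ, not_exists.1 h⟩, 1, one_smul _ _⟩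

omit [Finite k] in
lemma minOrb_unit {W W' : WeierstrassCurve k[X]} (h : IsMin W) {C : VariableChange (RatFunc k)}
    (hC : C • W.map (toK k) = W'.map (toK k)) {n e : k[X]} (hc : IsCoprime n e)
    (hu : toK k e * C.u = toK k n) : IsUnit n := by
  have h1 := congrArg (wsc (toK k e)) (vcint_wsh_smul hC)
  rw [wsc_wsh, ← wsc_unit, wsc_wsc, hu, ← wsc_map, ← wsc_map] at h1
  obtain ⟨C₀, -, h2⟩ := vc_integral 1 (by simp [wsh]) h1
  by_contra hn
  obtain ⟨p, hp, hp', m, rfl⟩ := exists_monic_irreducible_factor n hn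
  refine h.2 ⟨p, hp, hp'⟩ (NonMin.of_wsc hc.of_mul_left_left ((nonMin_smul C₀ _).1 ⟨0, 0, 0, ?_⟩))
  rw [h2, ← wsc_wsc]
  exact (dvdW_iff.2 ⟨_, rfl⟩).wsh (dvd_zero _) (dvd_zero _) (dvd_zero _)

/-- Write `C.u = u₁ / u₂` with coprime polynomials (`RatFunc.num`, `RatFunc.denom`).  Then
`wsc u₁ W' = wsh r s t • wsc u₂ W` over `K`, and `vc_integral` (with `u = 1`) shows that this holds
over `k[X]`.  An irreducible factor of `u₁` (resp. `u₂`) would make `W` (resp. `W'`) non-minimal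
(`NonMin.of_wsc`, `nonMin_smul`).  So `C.u` is a constant; use `vc_integral` again and
`mem_GBox_of_smul`. -/
theorem exists_GBox_of_min {d : ℕ} {W W' : WeierstrassCurve k[X]} (hW : W ∈ WBox k d)
    (hW' : W' ∈ WBox k d) (h : IsMin W) (h' : IsMin W') {C : VariableChange (RatFunc k)}
    (hC : C • W.map (toK k) = W'.map (toK k)) : ∃ C₀ ∈ GBox k d, C₀ • W = W' := by
  have h1 : toK k (C.u : RatFunc k).denom * C.u = toK k (C.u : RatFunc k).num := by
    rw [mul_comm]
    exact ((div_eq_iff (RatFunc.algebraMap_ne_zero (RatFunc.denom_ne_zero _))).1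
      (RatFunc.num_div_denom _)).symm
  obtain ⟨n, hn⟩ := minOrb_unit h hC (RatFunc.isCoprime_num_denom _) h1
  obtain ⟨e, he⟩ := minOrb_unit h' (inv_smul_eq_iff.2 hC.symm)
    (RatFunc.isCoprime_num_denom (C.u : RatFunc k)).symm
    (by rw [← h1, mul_assoc, VariableChange.inv_def, Units.mul_inv, mul_one])
  obtain ⟨C₀, -, h2⟩ := vc_integral (e⁻¹ * n) (by
    rw [Units.val_mul, map_mul, hn, ← h1, ← he, ← mul_assoc, ← map_mul, Units.inv_mul, map_one,
      one_mul]) hC
  exact ⟨C₀, mem_GBox_of_smul hW (h2 ▸ hW'), h2⟩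

/-- the order of the stabiliser -/
noncomputable def stab (d : ℕ) (W : WeierstrassCurve k[X]) : ℕ :=
  ((GBox k d).filter fun C => C • W = W).card

lemma minOrb_left {d : ℕ} {C : VariableChange k[X]} (hC : C ∈ GBox k d)
    (W : WeierstrassCurve k[X]) :
    ((GBox k d).filter fun C' => C' • W = C • W).card = stab d W := by
  refine Finset.card_nbij' (fun C' => C⁻¹ * C') (fun C' => C * C') (fun C' h => ?_) (fun C' h => ?_)
    (fun C' _ => mul_inv_cancel_left _ _) fun C' _ => inv_mul_cancel_left _ _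
  · rw [Finset.mem_coe, Finset.mem_filter] at h ⊢
    exact ⟨mul_mem_GBox (inv_mem_GBox hC) h.1, by rw [mul_smul, h.2, inv_smul_smul]⟩
  · rw [Finset.mem_coe, Finset.mem_filter] at h ⊢
    exact ⟨mul_mem_GBox hC h.1, by rw [mul_smul, h.2]⟩

lemma minOrb_right {d : ℕ} {C : VariableChange k[X]} (hC : C ∈ GBox k d)
    (W : WeierstrassCurve k[X]) :
    ((GBox k d).filter fun C' => C' • W = C • W).card = stab d (C • W) := by
  refine Finset.card_nbij' (fun C' => C' * C⁻¹) (fun C' => C' * C) (fun C' h => ?_) (fun C' h => ?_)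
    (fun C' _ => inv_mul_cancel_right _ _) fun C' _ => mul_inv_cancel_right _ _
  · rw [Finset.mem_coe, Finset.mem_filter] at h ⊢
    exact ⟨mul_mem_GBox h.1 (inv_mem_GBox hC), by rw [mul_smul, inv_smul_smul, h.2]⟩
  · rw [Finset.mem_coe, Finset.mem_filter] at h ⊢
    exact ⟨mul_mem_GBox h.1 hC, by rw [mul_smul, h.2]⟩

/-- conjugation -/
lemma stab_smul {d : ℕ} {C : VariableChange k[X]} (hC : C ∈ GBox k d)
    (W : WeierstrassCurve k[X]) : stab d (C • W) = stab d W := by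
  rw [← minOrb_right hC, minOrb_left hC]

lemma two_le_stab {d : ℕ} {W : WeierstrassCurve k[X]} (hW : W ∈ WBox k d) (hΔ : W.Δ ≠ 0) :
    2 ≤ stab d W := by
  exact Finset.one_lt_card.2 ⟨_, Finset.mem_filter.2 ⟨negC_mem_GBox hW, negC_smul W⟩, 1,
    Finset.mem_filter.2 ⟨one_mem_GBox d, one_smul _ _⟩, negC_ne_one hΔ⟩

lemma stab_le_two {d : ℕ} {W : WeierstrassCurve k[X]} (h4 : W.c₄ ≠ 0) (h6 : W.c₆ ≠ 0) :
    stab d W ≤ 2 := by
  refine (Finset.card_le_card fun C hC => ?_).trans (Finset.card_le_two (a := 1) (b := negC W))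
  simpa using stab_generic h4 h6 (Finset.mem_filter.1 hC).2

/-- `stab_card_le`, `card_units_poly`, `Finset.card_le_mul_card_image` -/
lemma stab_le (d : ℕ) (W : WeierstrassCurve k[X]) : stab d W ≤ 16 * Nat.card k := by
  have h := card_units_poly (k := k)
  have hU : Finite k[X]ˣ := Nat.finite_of_card_ne_zero (by have := two_le_card k; omega)
  refine (Finset.card_le_mul_card_image (f := VariableChange.u) _ 16 fun u _ =>
    stab_card_le W u _ fun C hC => ?_).trans (Nat.mul_le_mul_left _ ?_)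
  · rw [Finset.mem_filter, Finset.mem_filter] at hC
    exact ⟨hC.2, hC.1.2⟩
  · let := Fintype.ofFinite k[X]ˣ
    refine (Finset.card_le_univ _).trans ?_
    rw [← Nat.card_eq_fintype_card, h]
    exact Nat.sub_le _ _

/-- orbit-stabiliser: `stab d (C • W)` is the number of `C'` with `C' • W = C • W` -/
theorem sum_stab_orbit {d : ℕ} (W : WeierstrassCurve k[X]) :
    ∑ W' ∈ (GBox k d).image (fun C => C • W), stab d W' = (GBox k d).card := by
  rw [Finset.card_eq_sum_card_image (fun C => C • W)]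
  refine Finset.sum_congr rfl fun W' h => ?_
  obtain ⟨C, hC, rfl⟩ := Finset.mem_image.1 h
  exact (minOrb_right hC W).symm

end SelAvg

/-!
Sums over isomorphism classes of bounded height as sums over minimal equations.
-/

namespace SelAvg

open WeierstrassCurve Polynomial
open scoped Classical

universe u

/-- the relation is an equivalence relation (`Equivalence.quot_mk_eq_iff`, or `Quot.eqvGen_exact`) -/
lemma isoClass_mk_eq_iff {F : Type u} [Field F] (W W' : {W : WeierstrassCurve F // W.IsElliptic}) :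
    (Quot.mk _ W : IsoClass F) = Quot.mk _ W' ↔ ∃ C : VariableChange F, C • W.1 = W'.1 :=
  Equivalence.quot_mk_eq_iff ⟨fun _ => ⟨1, one_smul _ _⟩,
    fun ⟨C, h⟩ => ⟨C⁻¹, inv_smul_eq_iff.2 h.symm⟩,
    fun ⟨C, h⟩ ⟨C', h'⟩ => ⟨C' * C, by rw [mul_smul, h, h']⟩⟩ W W'

lemma out_Delta_ne_zero {F : Type u} [Field F] (c : IsoClass F) : (Quot.out c).1.Δ ≠ 0 :=
  (Quot.out c).2.isUnit.ne_zero

variable {k : Type u} [Field k]

/-- `W` is a model of the class `c` -/
def Models (c : IsoClass (RatFunc k)) (W : WeierstrassCurve k[X]) : Prop :=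
  ∃ C : VariableChange (RatFunc k), C • (Quot.out c).1 = W.map (toK k)

lemma exists_models {W : WeierstrassCurve k[X]} (hΔ : W.Δ ≠ 0) : ∃! c, Models c W := by
  have hE : (W.map (toK k)).IsElliptic := ⟨by
    rw [map_Δ]
    exact ((map_ne_zero_iff _ (IsFractionRing.injective k[X] (RatFunc k))).2 hΔ).isUnit⟩
  have h : ∀ c, Models c W ↔ c = Quot.mk _ ⟨_, hE⟩ := fun c =>
    (isoClass_mk_eq_iff (Quot.out c) ⟨_, hE⟩).symm.trans (by rw [Quot.out_eq]; rfl)
  simp only [h, existsUnique_eq]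

variable [Finite k]

lemma mem_classesLE_iff {d : ℕ} {X : ℝ} (h1 : (Nat.card k : ℝ) ^ (12 * d) ≤ X)
    (h2 : X < (Nat.card k : ℝ) ^ (12 * (d + 1))) (c : IsoClass (RatFunc k)) :
    c ∈ classesLE (RatFunc k) X ↔ ∃ W ∈ WBox k d, IsMin W ∧ Models c W := by
  refine (height_le_iff (out_Delta_ne_zero c) h1 h2).trans
    ⟨fun ⟨W, hW, C, hC⟩ => ?_, fun ⟨W, hW, _, hC⟩ => ⟨W, hW, hC⟩⟩
  obtain ⟨W', a, b, C', e⟩ := exists_min hW fun h0 =>
    Delta_smul_ne_zero C |>.2 (out_Delta_ne_zero c) (by rw [hC, map_Δ, h0, map_zero])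
  exact ⟨W', a, b, C' * C, by rw [mul_smul, hC, e]⟩

/-- `classesLE` is monotone in `X`; use `dOf_spec` for `max X 1` -/
theorem finite_classesLE (X : ℝ) : (classesLE (RatFunc k) X).Finite := by
  obtain ⟨h1, h2⟩ := dOf_spec (two_le_card k) (le_max_right X 1)
  generalize dOf _ _ = d at h1 h2
  refine (((WBox k d).filter IsMin).finite_toSet.biUnion (t := fun W => {c | Models c W})
    fun W hW => Set.Subsingleton.finite fun _ a _ b =>
      (exists_models (Finset.mem_filter.1 hW).2.1).unique a b).subset fun c hc => ?_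
  obtain ⟨W, a, b, e⟩ := (mem_classesLE_iff h1 h2 c).1 (le_trans (b := X) hc (le_max_left X 1) : height _ ≤ _)
  exact Set.mem_biUnion (Finset.mem_filter.2 ⟨a, b⟩) e

/-- Group the minimal equations by their class.  The models of a class `c` in the box that are
minimal form one orbit of `GBox` (`exists_GBox_of_min`, `smul_mem_WBox`, `isMin_smul`); use
`sum_stab_orbit`. -/
theorem classes_sum {d : ℕ} {X : ℝ} (h1 : (Nat.card k : ℝ) ^ (12 * d) ≤ X)
    (h2 : X < (Nat.card k : ℝ) ^ (12 * (d + 1))) (F : IsoClass (RatFunc k) → ℝ)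
    (F' : WeierstrassCurve k[X] → ℝ)
    (hF : ∀ c, ∀ W ∈ WBox k d, IsMin W → Models c W → F c = F' W) :
    (∑ᶠ c ∈ classesLE (RatFunc k) X, F c) * (GBox k d).card =
      ∑ W ∈ WBox k d with IsMin W, F' W * stab d W := by
  have hS := fun c => (finite_classesLE (k := k) X).mem_toFinset.trans (mem_classesLE_iff h1 h2 c)
  rw [finsum_mem_eq_finite_toFinset_sum _ (finite_classesLE X), Finset.sum_mul]
  generalize (finite_classesLE (k := k) X).toFinset = S at hS
  calc _ = ∑ c ∈ S, ∑ W ∈ WBox k d with IsMin W, if Models c W then F c * stab d W else 0 := by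
        refine Finset.sum_congr rfl fun c hc => ?_
        obtain ⟨W, a, b, C, e⟩ := (hS c).1 hc
        rw [← Finset.sum_filter, ← Finset.mul_sum, ← sum_stab_orbit W, Nat.cast_sum]
        congr 2
        ext W'
        simp only [Finset.mem_image, Finset.mem_filter]
        constructor
        · rintro ⟨C₀, h0, rfl⟩
          exact ⟨⟨smul_mem_WBox h0 a, (isMin_smul _ _).2 b⟩, C₀.map (toK k) * C, by
            rw [mul_smul, e, map_variableChange]⟩
        · rintro ⟨⟨a', b'⟩, C', e'⟩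
          exact exists_GBox_of_min a a' b b' (C := C' * C⁻¹)
            (by rw [mul_smul, ← e, inv_smul_smul, e'])
    _ = _ := by
        rw [Finset.sum_comm]
        refine Finset.sum_congr rfl fun W hW => ?_
        obtain ⟨a, b⟩ := Finset.mem_filter.1 hW
        obtain ⟨c, e, u⟩ := exists_models b.1
        rw [Finset.sum_eq_single_of_mem c ((hS c).2 ⟨W, a, b, e⟩) fun c' _ hc =>
          if_neg fun m => hc (u c' m), if_pos e, hF c W a b e]

end SelAvg
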