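import Pool.Agent.H38Sel.RatC
import Pool.Agent.H38Sel.LocB
import Pool.Agent.H38Sel.RatA

/-!
Global matrices with prescribed local classes; integrality of objects.
-/

namespace SelAvg

open WeierstrassCurve WithZero Polynomial Matrix
open scoped Classical

universe u

variable {k : Type u} [Field k]

/-- the image of a rational matrix in the completion -/
noncomputable abbrev glK (w : Option (Irr k)) (N : GL (Fin 2) (RatFunc k)) : GL (Fin 2) (Kw w) :=
  GeneralLinearGroup.map (toKw w) N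

lemma glob0_twM (n : ℕ) : ((twM (k := k) none n : GL (Fin 2) (RatFunc k)) :
    Matrix (Fin 2) (Fin 2) (RatFunc k)) = diagonal ![1, (RatFunc.X ^ n)⁻¹] := by
  ext i j
  fin_cases i <;> fin_cases j <;> rfl

lemma glob0_scM {R : Type*} [CommRing R] (t : Rˣ) (A : GL (Fin 2) R) :
    ((G.scM t * A : GL (Fin 2) R) : Matrix (Fin 2) (Fin 2) R) =
      (t : R) • (A : Matrix (Fin 2) (Fin 2) R) := by
  ext i j
  simp [G.scM]

lemma glob0_tw {M : GL (Fin 2) (Kw (none : Option (Irr k)))} {U : GL (Fin 2) (Vw none).O}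
    {a : Fin 2 → ℤ} {H : GL (Fin 2) k[X]} (h : a 1 ≤ a 0)
    (e : (M : Matrix (Fin 2) (Fin 2) (Kw none)) =
      U.1.map (Vw none).incl *
        diagonal (fun i => toKw none (RatFunc.X ^ a i)) *
        (H : Matrix (Fin 2) (Fin 2) k[X]).map ((toKw none).comp (toK k))) :
    (Vw none).MEq (glK none (twM none (a 0 - a 1).toNat * GeneralLinearGroup.map (toK k) H)) M := by
  have hX : (RatFunc.X : RatFunc k) ≠ 0 := RatFunc.X_ne_zero
  refine ⟨Units.map (toKw (k := k) none).toMonoidHom (tU k ^ a 0), U, Units.ext ?_⟩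
  have h1 : diagonal (fun i => (RatFunc.X : RatFunc k) ^ a i) =
      (RatFunc.X : RatFunc k) ^ a 0 • (twM (k := k) none (a 0 - a 1).toNat).1 := by
    rw [glob0_twM, ← diagonal_smul]
    congr 1
    funext i
    fin_cases i
    · simp
    · have h2 : a 0 = a 1 + ((a 0 - a 1).toNat : ℕ) := by omega
      have h3 : (RatFunc.X : RatFunc k) ^ a 0 =
          RatFunc.X ^ a 1 * RatFunc.X ^ (a 0 - a 1).toNat := by
        rw [← zpow_natCast, ← zpow_add₀ hX, ← h2]
      change RatFunc.X ^ a 1 = RatFunc.X ^ a 0 * (RatFunc.X ^ (a 0 - a 1).toNat)⁻¹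
      rw [h3, mul_inv_cancel_right₀ (pow_ne_zero _ hX)]
  have h4 : diagonal (fun i => toKw (k := k) none (RatFunc.X ^ a i)) =
      toKw (k := k) none (RatFunc.X ^ a 0) •
        (twM (k := k) none (a 0 - a 1).toNat).1.map (toKw (k := k) none) := by
    rw [← diagonal_map (f := toKw (k := k) none) (map_zero _), h1]
    ext i j
    simp only [map_apply, Matrix.smul_apply, smul_eq_mul, map_mul]
  rw [e, mul_assoc (G.scM _), glob0_scM, h4, Matrix.mul_smul, Matrix.smul_mul, glK, map_mul,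
    Units.val_mul, Units.val_mul, mul_assoc]
  congr 1
  simp [tU]

lemma glob0_swap {R : Type*} [CommRing R] (φ : ℤ → R) (a : Fin 2 → ℤ) :
    diagonal (fun i => φ (a i)) =
      swap R 0 1 * diagonal (fun i => φ (![a 1, a 0] i)) * swap R 0 1 := by
  have h : swap R (0 : Fin 2) 1 = !![0, 1; 1, 0] := by
    ext i j
    fin_cases i <;> fin_cases j <;> simp [swap]
  rw [h]
  ext i j
  fin_cases i <;> fin_cases j <;> simp [mul_apply, Fin.sum_univ_two, vecMul_diagonal]

lemma glob0_birk (M : GL (Fin 2) (Kw (none : Option (Irr k)))) :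
    ∃ (n : ℕ) (H : GL (Fin 2) k[X]),
      (Vw none).MEq (glK none (twM none n * GeneralLinearGroup.map (toK k) H)) M := by
  obtain ⟨U, a, H, e⟩ := birkhoff M
  rcases le_total (a 1) (a 0) with h | h
  · exact ⟨_, H, glob0_tw h e⟩
  · refine ⟨_, GeneralLinearGroup.swap _ 0 1 * H,
      glob0_tw (U := U * GeneralLinearGroup.swap _ 0 1) (a := ![a 1, a 0]) h ?_⟩
    rw [e, glob0_swap (fun m => toKw (k := k) none (RatFunc.X ^ m)) a, Units.val_mul, Units.val_mul, Matrix.map_mul, Matrix.map_mul]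
    simp only [GeneralLinearGroup.val_swap, Matrix.map_swap, mul_assoc]

lemma glob0_map (p : Irr k) (H : GL (Fin 2) k[X]) :
    glK (some p) (GeneralLinearGroup.map (toK k) H) =
      GeneralLinearGroup.map (Vw (some p)).incl (GeneralLinearGroup.map (embO (some p)) H) := rfl

/-- Take `N₀` from `patch`, write `M none * N₀⁻¹ = U diag (t^a₀, t^a₁) H` (`birkhoff`).  If
`a₀ < a₁` conjugate the diagonal matrix by the swap matrix (absorb it in `U` and `H`).  Then
`n = a₀ - a₁`, `N = H N₀`, and `diag (t^a₀, t^a₁) = scM (t^a₀) * twM none n`. -/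
theorem exists_matrix (T : Finset (Irr k)) (M : ∀ w : Option (Irr k), GL (Fin 2) (Kw w)) :
    ∃ (n : ℕ) (N : GL (Fin 2) (RatFunc k)),
      (Vw none).MEq (M none) (glK none (twM none n * N)) ∧
      (∀ p ∈ T, (Vw (some p)).MEq (M (some p)) (glK (some p) N)) ∧
      ∀ p ∉ T, IntAt (some p) N := by
  obtain ⟨N, h1, h2⟩ := patch T fun p => M (some p)
  obtain ⟨n, H, h3⟩ := glob0_birk (M none * (glK none N)⁻¹)
  refine ⟨n, GeneralLinearGroup.map (toK k) H * N, ?_, fun p hp => ?_, fun p hp => ?_⟩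
  · have h4 := h3.symm.mul_right (glK none N)
    rwa [inv_mul_cancel_right, glK, glK, ← map_mul, mul_assoc] at h4
  · obtain ⟨H', e⟩ := h1 p hp
    refine ⟨1, GeneralLinearGroup.map (embO (some p)) H * H', ?_⟩
    rw [G.scM_one, one_mul, glK, map_mul, map_mul, e, ← glob0_map, mul_assoc]
  · obtain ⟨H', e⟩ := h2 p hp
    exact ⟨GeneralLinearGroup.map (embO (some p)) H * H', by
      rw [map_mul, map_mul, e, ← glob0_map]⟩

lemma glob0_val {w : Option (Irr k)} {A : GL (Fin 2) (RatFunc k)}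
    (h : (Vw w).MEq 1 (glK w A)) : ∃ σ : ℤ, (∀ i j, (plc w).1 (A.1 i j) ≤ exp σ) ∧
      (plc w).1 A.1.det = exp (2 * σ) := by
  obtain ⟨s, H, e⟩ := h
  have h0 : (Vw w).v s ≠ 0 := (Valuation.ne_zero_iff _).2 s.ne_zero
  have e1 : A.1.map (toKw w) = (s : Kw w) • H.1.map (Vw w).incl := by
    rw [mul_one] at e
    exact (congrArg Units.val e).trans (glob0_scM _ _)
  refine ⟨log ((Vw w).v s), fun i j => ?_, ?_⟩
  · have e2 : toKw w (A.1 i j) = s * (H.1 i j : Kw w) := congrFun (congrFun e1 i) j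
    rw [← Place.loc_v, e2, map_mul, exp_log h0]
    exact mul_le_of_le_one_right' ((Vw w).v_le_one _)
  · have e2 : toKw w A.1.det = (s : Kw w) ^ 2 * (H.1.det : (Vw w).O) := by
      rw [RingHom.map_det, RingHom.mapMatrix_apply, e1, det_smul, Fintype.card_fin]
      exact congrArg _ ((Vw w).incl.map_det H.1).symm
    rw [← Place.loc_v, e2, map_mul, ((Vw w).isUnit_iff _).1 (isUnits_det_units H), mul_one,
      map_pow, two_mul, exp_add, exp_log h0, sq]

/-- Clear denominators and divide by the gcd of the entries: `A = t B` with `B` a polynomial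
matrix whose entries have no common irreducible factor.  At `p`, `A = s H` with `H` invertible over
the valuation ring, so the largest valuation of the entries of `H` and of `B` is `1`; hence
`s / t` is a unit at `p` and so is `det B`.  Use `isUnit_of_forall_val`. -/
theorem exists_poly_matrix {A : GL (Fin 2) (RatFunc k)}
    (h : ∀ p : Irr k, (Vw (some p)).MEq 1 (glK (some p) A)) :
    ∃ (t : (RatFunc k)ˣ) (B : GL (Fin 2) k[X]),
      A = G.scM t * GeneralLinearGroup.map (toK k) B := by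
  obtain ⟨b, hb⟩ := IsLocalization.exist_integer_multiples_of_finite (nonZeroDivisors k[X])
    fun x : Fin 2 × Fin 2 => A.1 x.1 x.2
  choose B₀ hB₀ using hb
  obtain ⟨B, h1, h2⟩ := Finset.extract_gcd B₀ Finset.univ_nonempty
  have hb0 : toK k b ≠ 0 := IsFractionRing.to_map_ne_zero_of_mem_nonZeroDivisors b.2
  set t := toK k (Finset.univ.gcd B₀) / toK k b with ht
  set B' : Matrix (Fin 2) (Fin 2) k[X] := Matrix.of fun i j => B (i, j) with hB'
  have e : A.1 = t • B'.map (toK k) := by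
    ext i j
    have h3 := hB₀ (i, j)
    rw [h1 _ (Finset.mem_univ _), map_mul, Algebra.smul_def] at h3
    change A.1 i j = t * toK k (B (i, j))
    rw [ht, div_mul_eq_mul_div, h3, mul_div_cancel_left₀ _ hb0]
  have e' : A.1.det = t ^ 2 * toK k B'.det := by
    rw [e, det_smul, Fintype.card_fin, RingHom.map_det, RingHom.mapMatrix_apply]
  have ht0 : t ≠ 0 := fun h0 => A.det_ne_zero (by rw [e', h0]; simp)
  have hu : IsUnit B'.det := by
    refine isUnit_of_forall_val fun p => le_antisymm (val_emb_le_one (some p) _) ?_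
    obtain ⟨σ, h3, h4⟩ := glob0_val (h p)
    obtain ⟨x, hx⟩ : ∃ x, ¬p.1 ∣ B x := by
      by_contra hc
      refine p.2.2.not_isUnit (isUnit_of_dvd_one ?_)
      rw [← h2]
      exact Finset.dvd_gcd fun x _ => not_not.1 fun h5 => hc ⟨x, h5⟩
    have h5 : (plc (some p)).1 (toK k (B x)) = 1 := (val_emb_eq_one_iff (some p) _).2 hx
    have h6 := h3 x.1 x.2
    rw [e] at h6
    change (plc (some p)).1 (t * toK k (B x)) ≤ _ at h6
    rw [map_mul, h5, mul_one] at h6
    rw [e', map_mul, map_pow, two_mul, exp_add, ← sq] at h4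
    refine le_of_mul_le_mul_left (a := exp σ ^ 2) ?_ (pow_pos exp_pos 2)
    rw [mul_one]
    exact h4.symm.trans_le (mul_le_mul_left (pow_le_pow_left' h6 2) _)
  refine ⟨Units.mk0 t ht0, GeneralLinearGroup.mk'' B' hu, Units.ext ?_⟩
  rw [glob0_scM]
  exact e

lemma glob0_deg {a : k[X]} {m σ : ℤ}
    (h : (plc none).1 (toK k a * RatFunc.X ^ m) ≤ exp σ) : a = 0 ∨ (a.natDegree : ℤ) + m ≤ σ := by
  refine or_iff_not_imp_left.2 fun ha => ?_
  rwa [map_mul, map_zpow₀, val_infty_toK ha, val_infty_X, ← WithZero.exp_zsmul, ← exp_add,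
    exp_le_exp, smul_eq_mul, mul_one] at h

/-- `twM n' * B * (twM n)⁻¹ = s U` has entries `B₁₁`, `B₁₂ t^n`, `B₂₁ t^(-n')`, `B₂₂ t^(n - n')`,
all of valuation at most `v s`, and `(v s)^2 = exp (n - n')` (determinants; `det B` is a nonzero
constant).  If `n < n'` the first row of `B` vanishes, if `n' < n` the second column vanishes. -/
theorem glCond_of_mEq {n n' : ℕ} {B : GL (Fin 2) k[X]}
    (h : (Vw none).MEq (glK none (twM none n))
      (glK none (twM none n' * GeneralLinearGroup.map (toK k) B))) : n = n' ∧ GLCond n B := by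
  have hX : (RatFunc.X : RatFunc k) ≠ 0 := RatFunc.X_ne_zero
  have h1 := h.mul_right (glK none (twM none n))⁻¹
  rw [mul_inv_cancel, glK, glK, ← map_inv, ← map_mul] at h1
  obtain ⟨σ, h2, h3⟩ := glob0_val h1
  have hi : ((twM (k := k) none n)⁻¹).1 = diagonal ![1, RatFunc.X ^ n] := by
    refine Units.inv_eq_of_mul_eq_one_right ?_
    rw [glob0_twM, diagonal_mul_diagonal, ← diagonal_one]
    congr 1
    funext i
    fin_cases i
    · simp
    · exact inv_mul_cancel₀ (pow_ne_zero _ hX)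
  have e : (twM none n' * GeneralLinearGroup.map (toK k) B * (twM none n)⁻¹).1 =
      !![toK k (B.1 0 0) * RatFunc.X ^ (0 : ℤ), toK k (B.1 0 1) * RatFunc.X ^ (n : ℤ);
        toK k (B.1 1 0) * RatFunc.X ^ (-(n' : ℤ)), toK k (B.1 1 1) * RatFunc.X ^ ((n : ℤ) - n')] := by
    rw [Units.val_mul, Units.val_mul, hi, glob0_twM]
    ext i j
    rw [mul_diagonal, diagonal_mul]
    fin_cases i <;> fin_cases j <;> simp [zpow_sub₀ hX, div_eq_mul_inv] <;> ring
  rw [e] at h2 h3
  have e' : (!![toK k (B.1 0 0) * RatFunc.X ^ (0 : ℤ), toK k (B.1 0 1) * RatFunc.X ^ (n : ℤ);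
      toK k (B.1 1 0) * RatFunc.X ^ (-(n' : ℤ)),
        toK k (B.1 1 1) * RatFunc.X ^ ((n : ℤ) - n')] : Matrix (Fin 2) (Fin 2) (RatFunc k)).det =
      toK k B.1.det * RatFunc.X ^ ((n : ℤ) - n') := by
    rw [det_fin_two_of, det_fin_two, sub_eq_add_neg (n : ℤ), zpow_add₀ hX, zpow_zero, map_sub,
      map_mul, map_mul]
    ring
  rw [e', map_mul, map_zpow₀, val_infty_toK B.det_ne_zero, val_infty_X, ← WithZero.exp_zsmul,
    ← exp_add, exp_inj, natDegree_eq_zero_of_isUnit (isUnits_det_units B), smul_eq_mul] at h3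
  have h00 := glob0_deg (h2 0 0)
  have h01 := glob0_deg (h2 0 1)
  have h10 := glob0_deg (h2 1 0)
  have h11 := glob0_deg (h2 1 1)
  have hd := B.det_ne_zero
  rw [det_fin_two] at hd
  have hσ : σ = 0 := by
    by_contra hc
    have h4 : B.1 0 1 = 0 := h01.resolve_right (by omega)
    rw [h4, zero_mul, sub_zero, mul_ne_zero_iff] at hd
    have h5 := h00.resolve_left hd.1
    have h6 := h11.resolve_left hd.2
    omega
  have key : ∀ {a : k[X]} {m : ℤ} {D : ℕ}, a = 0 ∨ (a.natDegree : ℤ) + m ≤ σ → -m ≤ D →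
      a.natDegree ≤ D := by
    rintro a m D (rfl | h4) h5
    · simp
    · omega
  exact ⟨by omega, Nat.le_zero.1 (key h00 (by omega)), Nat.le_zero.1 (key h11 (by omega)),
    key h10 (by omega), Nat.le_zero.1 (key h01 (by omega)),
    fun h4 => h01.resolve_right (by omega)⟩

/-- the object is integral at `w` -/
def ObjIntAt (w : Option (Irr k)) (z : Obj (RatFunc k)) : Prop :=
  ∃ z' : Obj (Vw w).O, z.map (toKw w) = z'.map (Vw w).incl

lemma glob0_lift {R S : Type*} [CommRing R] [CommRing S] (φ : R →+* S) {z : Obj S}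
    (h1 : ∀ i, ∃ a, φ a = Model.equivVec z.f i) (hu : ∃ a : Rˣ, φ a = z.γ.u)
    (hr : ∃ a, φ a = z.γ.r) (hs : ∃ a, φ a = z.γ.s) (ht : ∃ a, φ a = z.γ.t) :
    ∃ z' : Obj R, z'.map φ = z := by
  choose a ha using h1
  obtain ⟨u, hu⟩ := hu
  obtain ⟨r, hr⟩ := hr
  obtain ⟨s, hs⟩ := hs
  obtain ⟨t, ht⟩ := ht
  refine ⟨⟨Model.equivVec.symm a, ⟨u, r, s, t⟩⟩, Obj.ext ?_
    (VariableChange.ext (Units.ext hu) hr hs ht)⟩
  rw [Obj.map_f, Model.equivVec_symm_map, Equiv.symm_apply_eq]
  exact funext ha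

lemma glob0_vec {R S : Type*} [CommRing R] [CommRing S] (φ : R →+* S) (f : Model R)
    (i : Fin 8) : Model.equivVec (f.map φ) i = φ (Model.equivVec f i) := by
  fin_cases i <;> rfl

lemma glob0_int (w : Option (Irr k)) (x : RatFunc k) :
    (∃ a, (Vw w).incl a = toKw w x) ↔ (plc w).1 x ≤ 1 := by
  rw [← Place.loc_v]
  exact ⟨fun ⟨a, ha⟩ => ha ▸ (Vw w).v_le_one a, fun h => ⟨⟨_, h⟩, rfl⟩⟩

/-- integrality means that the twelve coefficients are integral and `γ.u` is a unit -/
lemma objIntAt_iff (w : Option (Irr k)) (z : Obj (RatFunc k)) :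
    ObjIntAt w z ↔ (∀ i, (plc w).1 (Model.equivVec z.f i) ≤ 1) ∧ (plc w).1 (z.γ.u : RatFunc k) = 1 ∧
      (plc w).1 z.γ.r ≤ 1 ∧ (plc w).1 z.γ.s ≤ 1 ∧ (plc w).1 z.γ.t ≤ 1 := by
  constructor
  · rintro ⟨z', e⟩
    refine ⟨fun i => (glob0_int w _).1 ⟨Model.equivVec z'.f i, ?_⟩, ?_,
      (glob0_int w _).1 ⟨_, congrArg (·.γ.r) e.symm⟩,
      (glob0_int w _).1 ⟨_, congrArg (·.γ.s) e.symm⟩,
      (glob0_int w _).1 ⟨_, congrArg (·.γ.t) e.symm⟩⟩
    · rw [← glob0_vec, ← glob0_vec, ← Obj.map_f, ← Obj.map_f, e]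
    · have e1 : toKw w z.γ.u = ((z'.γ.u : (Vw w).O) : Kw w) :=
        congrArg (fun y : Obj (Kw w) => (y.γ.u : Kw w)) e
      rw [← Place.loc_v, e1]
      exact ((Vw w).isUnit_iff _).1 z'.γ.u.isUnit
  · rintro ⟨h1, hu, hr, hs, ht⟩
    obtain ⟨a, ha⟩ := (glob0_int w _).2 hu.le
    have h2 : IsUnit a := ((Vw w).isUnit_iff a).2 (by
      rw [← hu, ← Place.loc_v]
      exact congrArg _ ha)
    obtain ⟨z', e⟩ := glob0_lift (Vw w).incl (z := z.map (toKw w))
      (fun i => by rw [Obj.map_f, glob0_vec]; exact (glob0_int w _).2 (h1 i)) ⟨h2.unit, ha⟩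
      ((glob0_int w _).2 hr) ((glob0_int w _).2 hs) ((glob0_int w _).2 ht)
    exact ⟨z', e.symm⟩

/-- `finite_val_ne_one` -/
lemma finite_not_objIntAt (z : Obj (RatFunc k)) : {p : Irr k | ¬ObjIntAt (some p) z}.Finite := by
  have hx : ∀ x : RatFunc k, ∀ᶠ p : Irr k in Filter.cofinite, (plc (some p)).1 x ≤ 1 := by
    intro x
    by_cases h0 : x = 0
    · subst h0
      simp
    · exact (finite_val_ne_one h0).subset fun p hp h => hp h.le
  have hu : ∀ᶠ p : Irr k in Filter.cofinite, (plc (some p)).1 (z.γ.u : RatFunc k) = 1 :=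
    finite_val_ne_one z.γ.u.ne_zero
  rw [← Filter.eventually_cofinite]
  filter_upwards [Filter.eventually_all.2 fun i => hx (Model.equivVec z.f i), hu, hx z.γ.r,
    hx z.γ.s, hx z.γ.t] with p h1 h2 h3 h4 h5
  exact (objIntAt_iff _ z).2 ⟨h1, h2, h3, h4, h5⟩

/-- `exists_toK_of_forall_le`, `isUnit_of_forall_val` -/
lemma exists_obj_of_intAt {z : Obj (RatFunc k)} (h : ∀ p : Irr k, ObjIntAt (some p) z) :
    ∃ z' : Obj k[X], z'.map (toK k) = z := by
  have h' := fun p => (objIntAt_iff _ z).1 (h p)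
  obtain ⟨a, ha⟩ := exists_toK_of_forall_le fun p => (h' p).2.1.le
  have hu : IsUnit a := isUnit_of_forall_val fun p => ha ▸ (h' p).2.1
  exact glob0_lift (toK k) (fun i => exists_toK_of_forall_le fun p => (h' p).1 i) ⟨hu.unit, ha⟩
    (exists_toK_of_forall_le fun p => (h' p).2.2.1)
    (exists_toK_of_forall_le fun p => (h' p).2.2.2.1)
    (exists_toK_of_forall_le fun p => (h' p).2.2.2.2)

/-- `tW_smul`, `tW_Gam`, `cW_conj`, `natDegree_le_iff_val` -/
lemma mem_ObjBox_of_intAt [Finite k] {d n : ℕ} (hn : n ≤ d) {z : Obj k[X]}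
    (h : ObjIntAt none ((tW (k := k) none d n • z.map (toK k)).rmul (cW (k := k) none d)⁻¹)) :
    z ∈ ObjBox k d n := by
  rw [objIntAt_iff, Obj.rmul_f, Obj.rmul_γ, Obj.smul_f, Obj.smul_γ, tW_smul hn, tW_Gam none hn,
    cW_conj, Equiv.apply_symm_apply] at h
  obtain ⟨h1, -, h2, h3, h4⟩ := h
  refine mem_ObjBox.2 ⟨mem_VBox.2 fun i => (natDegree_le_iff_val _ _).2 ?_, mem_GBox.2
    ⟨(natDegree_le_iff_val _ _).2 h2, (natDegree_le_iff_val _ _).2 h3,
      (natDegree_le_iff_val _ _).2 h4⟩⟩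
  rw [← glob0_vec]
  exact h1 i

end SelAvg

/-!
Existence and uniqueness of global models with prescribed local classes.
-/

namespace SelAvg

open WeierstrassCurve WithZero Polynomial Matrix
open scoped Classical

universe u

variable {k : Type u} [Field k]

/-- the object over the completion, with the twisted base curve -/
noncomputable def zW (w : Option (Irr k)) (d : ℕ) (z₀ : Obj (RatFunc k)) : Obj (Kw w) :=
  (z₀.rmul (cW w d)⁻¹).map (toKw w)

lemma zW_f (w : Option (Irr k)) (d : ℕ) (z₀ : Obj (RatFunc k)) :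
    (zW w d z₀).f = z₀.f.map (toKw w) := rfl

variable [Finite k]

/-- `locW_map`, `incl_comp_embO` -/
lemma zW_over (w : Option (Irr k)) {d : ℕ} {W : WeierstrassCurve k[X]} (hW : W ∈ WBox k d)
    {z₀ : Obj (RatFunc k)} (hz : z₀.Over (W.map (toK k))) :
    (zW w d z₀).Over (((locW w d W).map (embO w)).map (Vw w).incl) := by
  rw [WeierstrassCurve.map_map, incl_comp_embO, ← WeierstrassCurve.map_map, locW_map w hW]
  refine Obj.Over.map (Obj.Over.rmul ?_) _
  rwa [inv_smul_smul]

lemma locW_embO_Delta (w : Option (Irr k)) {d : ℕ} {W : WeierstrassCurve k[X]}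
    (hW : W ∈ WBox k d) (hΔ : W.Δ ≠ 0) : ((locW w d W).map (embO w)).Δ ≠ 0 := by
  rw [map_Δ, map_ne_zero_iff _ (embO_injective w)]
  exact locW_Delta_ne_zero w hW hΔ

/-- `locObj_map` -/
lemma globRep_eq (w : Option (Irr k)) {d n : ℕ} (hn : n ≤ d) {z₀ : Obj (RatFunc k)}
    {g : G (RatFunc k)} {z : Obj k[X]} (hz : z ∈ ObjBox k d n) (hg : g • z₀ = z.map (toK k)) :
    G.map (toKw w) (tW w d n * g) • zW w d z₀ =
      ((locObj w d n z).map (embO w)).map (Vw w).incl := by
  rw [Obj.map_map, incl_comp_embO, ← Obj.map_map, locObj_map w hn hz, zW, ← Obj.map_smul,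
    Obj.smul_rmul, mul_smul, hg]

/-- the local representative given by a global model -/
noncomputable def globRep (w : Option (Irr k)) {d n : ℕ} (hn : n ≤ d) {z₀ : Obj (RatFunc k)}
    {g : G (RatFunc k)} {z : Obj k[X]} (hz : z ∈ ObjBox k d n) (hg : g • z₀ = z.map (toK k)) :
    (Vw w).LocRep (zW w d z₀) :=
  ⟨G.map (toKw w) (tW w d n * g), (locObj w d n z).map (embO w), globRep_eq w hn hz hg⟩

lemma globRep_M (w : Option (Irr k)) {d n : ℕ} (hn : n ≤ d) {z₀ : Obj (RatFunc k)}
    {g : G (RatFunc k)} {z : Obj k[X]} (hz : z ∈ ObjBox k d n) (hg : g • z₀ = z.map (toK k)) :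
    (globRep w hn hz hg).g.M = glK w (tW w d n * g).M := rfl

lemma globRep_f (w : Option (Irr k)) {d n : ℕ} (hn : n ≤ d) {z₀ : Obj (RatFunc k)}
    {g : G (RatFunc k)} {z : Obj k[X]} (hz : z ∈ ObjBox k d n) (hg : g • z₀ = z.map (toK k)) :
    (globRep w hn hz hg).z.f = (locV w d n z.f).map (embO w) := rfl

omit [Finite k] in
lemma glob_zW_some (q : Irr k) (d : ℕ) (z₀ : Obj (RatFunc k)) :
    zW (some q) d z₀ = z₀.map (toKw (some q)) := by
  rw [zW, cW_some, inv_one, Obj.rmul_one]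

omit [Finite k] in
lemma glob_det_map {R S : Type*} [CommRing R] [CommRing S] (φ : R →+* S) (N : GL (Fin 2) R) :
    GeneralLinearGroup.det (GeneralLinearGroup.map φ N) =
      Units.map (φ : R →* S) (GeneralLinearGroup.det N) :=
  G.map_det φ (G.ofM N)

/-- the scaling factor attached to a matrix -/
noncomputable def glob_mu (z₀ : Obj (RatFunc k)) (N : GL (Fin 2) (RatFunc k)) : (RatFunc k)ˣ :=
  GeneralLinearGroup.det N * z₀.γ.u⁻¹

/-- the twisting element for arbitrary `n` -/
noncomputable def glob_tw (k : Type u) [Field k] (d n : ℕ) : G (RatFunc k) :=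
  ⟨twM none n, tU k ^ d * (tU k ^ n)⁻¹, 0, 0, 0⟩

omit [Finite k] in
lemma glob_tw_eq {d n : ℕ} (hn : n ≤ d) : glob_tw k d n = tW none d n := by
  refine G.ext rfl ?_ rfl rfl rfl
  change tU k ^ d * (tU k ^ n)⁻¹ = tU k ^ (d - n)
  rw [pow_sub _ hn]

omit [Finite k] in
lemma glob_det_twM (n : ℕ) :
    GeneralLinearGroup.det (twM (none : Option (Irr k)) n) = (tU k ^ n)⁻¹ := by
  ext
  rw [boxes_inv]
  simp [twM, Matrix.det_fin_two]

omit [Finite k] in
lemma glob_fin (T : Finset (Irr k)) {d : ℕ} {z₀ : Obj (RatFunc k)} {N : GL (Fin 2) (RatFunc k)}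
    (q : Irr k) (hint : q ∉ T → ObjIntAt (some q) z₀) (p : (Vw (some q)).LocRep (zW (some q) d z₀))
    (hT : q ∈ T → (Vw (some q)).MEq p.g.M (glK (some q) N)) (hT' : q ∉ T → IntAt (some q) N) :
    ∃ P : (Vw (some q)).LocRep (zW (some q) d z₀), P.g.M = glK (some q) N ∧
      P.g.μ = Units.map (toKw (some q) : RatFunc k →* Kw (some q)) (glob_mu z₀ N) ∧
      (q ∉ T → P.g.r0 = 0 ∧ P.g.r1 = 0 ∧ P.g.r2 = 0) := by
  by_cases hq : q ∈ T
  · obtain ⟨P, h1, h2⟩ := p.exists_norm (hT hq)
      (μ := Units.map (toKw (some q) : RatFunc k →* Kw (some q)) (glob_mu z₀ N)) (by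
        have e : (zW (some q) d z₀).γ.u =
            Units.map (toKw (some q) : RatFunc k →* Kw (some q)) z₀.γ.u := by
          rw [glob_zW_some]; rfl
        rw [e, glob_det_map, ← map_inv, ← map_mul, ← map_mul, glob_mu,
          mul_right_comm (GeneralLinearGroup.det N), mul_inv_cancel, one_mul, inv_mul_cancel,
          map_one, Units.val_one, map_one])
    exact ⟨P, h1, h2, fun h => absurd hq h⟩
  · obtain ⟨z', hz'⟩ := hint hq
    obtain ⟨H, hH⟩ := hT' hq
    let h : G (Vw (some q)).O := ⟨H, GeneralLinearGroup.det H * z'.γ.u⁻¹, 0, 0, 0⟩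
    refine ⟨⟨G.map (Vw (some q)).incl h, h • z', ?_⟩, hH.symm, ?_, fun _ => ⟨map_zero _, map_zero _,
      map_zero _⟩⟩
    · rw [glob_zW_some, hz', Obj.map_smul]
    · have e : Units.map (toKw (some q) : RatFunc k →* Kw (some q)) z₀.γ.u =
          Units.map ((Vw (some q)).incl : (Vw (some q)).O →* Kw (some q)) z'.γ.u :=
        congrArg (fun z : Obj (Kw (some q)) => z.γ.u) hz'
      change Units.map ((Vw (some q)).incl : (Vw (some q)).O →* Kw (some q))
        (GeneralLinearGroup.det H * z'.γ.u⁻¹) = _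
      rw [glob_mu, map_mul, map_mul, map_inv, map_inv, e, ← glob_det_map, ← glob_det_map, hH]

omit [Finite k] in
lemma glob_inf {d n : ℕ} {z₀ : Obj (RatFunc k)} {N : GL (Fin 2) (RatFunc k)}
    (p : (Vw none).LocRep (zW none d z₀))
    (h : (Vw none).MEq p.g.M (glK none (twM none n * N))) :
    ∃ P : (Vw none).LocRep (zW none d z₀), P.g.M = glK none (twM none n * N) ∧
      P.g.μ = Units.map (toKw (k := k) none : RatFunc k →* Kw none)
        (tU k ^ d * (tU k ^ n)⁻¹ * glob_mu z₀ N) := by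
  refine p.exists_norm h ?_
  have e : (zW none d z₀).γ.u =
      Units.map (toKw (k := k) none : RatFunc k →* Kw none) (z₀.γ.u * (tU k ^ d)⁻¹) := rfl
  have e' : tU k ^ d * (tU k ^ n)⁻¹ * glob_mu z₀ N *
      (GeneralLinearGroup.det (twM none n * N))⁻¹ * (z₀.γ.u * (tU k ^ d)⁻¹) = 1 := by
    rw [map_mul, glob_det_twM, glob_mu]
    generalize tU k ^ d = a
    generalize tU k ^ n = b
    generalize GeneralLinearGroup.det N = c
    generalize z₀.γ.u = u
    ext
    simp only [Units.val_mul, Units.val_inv_eq_inv_val, Units.val_one]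
    have := a.ne_zero
    have := b.ne_zero
    have := c.ne_zero
    have := u.ne_zero
    field_simp
  rw [e, glob_det_map, ← map_inv, ← map_mul, ← map_mul, e', map_one, Units.val_one, map_one]

omit [Finite k] in
lemma glob_vX (m : ℕ) : (Vw (none : Option (Irr k))).v (toKw none RatFunc.X ^ m) = exp (m : ℤ) := by
  rw [map_pow, Place.loc_v, val_infty_X, ← WithZero.exp_nsmul]
  simp

omit [Finite k] in
lemma glob_est {L : Type*} [Field L] (v : Valuation L ℤᵐ⁰) {t μ x ρ : L} (hμ : μ ≠ 0)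
    (ht : ∀ m : ℕ, v (t ^ m) = exp (m : ℤ)) (d n j : ℕ) (h : v (x - t ^ j * ρ / μ) ≤ exp (-1)) :
    v ((μ * x * (t ^ j)⁻¹ - ρ) / (t ^ d * (t ^ n)⁻¹ * μ)) ≤ exp ((n : ℤ) - d - j - 1) := by
  have ht0 : t ≠ 0 := by
    intro h0
    have := ht 1
    rw [h0, pow_one, map_zero] at this
    exact exp_ne_zero this.symm
  have e : (μ * x * (t ^ j)⁻¹ - ρ) / (t ^ d * (t ^ n)⁻¹ * μ) =
      t ^ n * (t ^ d)⁻¹ * (t ^ j)⁻¹ * (x - t ^ j * ρ / μ) := by
    field_simp
  rw [e, map_mul, map_mul, map_mul, map_inv₀, map_inv₀, ht, ht, ht, ← WithZero.exp_neg,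
    ← WithZero.exp_neg,
    ← exp_add, ← exp_add]
  refine (mul_le_mul_right h _).trans ?_
  rw [← exp_add, exp_le_exp]
  omega

omit [Finite k] in
lemma glob_zero {a : k[X]} {m : ℤ}
    (h : (Vw (none : Option (Irr k))).v (toKw none (toK k a)) * exp m ≤ exp (m - 1)) : a = 0 := by
  by_contra ha
  rw [Place.loc_v, val_infty_toK ha, ← exp_add, exp_le_exp] at h
  omega

omit [Finite k] in
lemma glob_big {d n : ℕ} (hn : d < n) {f : Model k[X]}
    {f' : Model (Vw (none : Option (Irr k))).O} {s0 s1 s2 : Kw (none : Option (Irr k))}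
    (h0 : (Vw none).v s0 ≤ exp ((n : ℤ) - d - 1))
    (h : (glob_tw k d n • f.map (toK k)).map (toKw none) =
      G.ofShift s0 s1 s2 • f'.map (Vw none).incl) : (f.map (toK k)).Triv := by
  have hX : (RatFunc.X : RatFunc k) ≠ 0 := RatFunc.X_ne_zero
  have hμ : (((glob_tw k d n).μ⁻¹ : (RatFunc k)ˣ) : RatFunc k) = RatFunc.X ^ (n - d) := by
    change (((tU k ^ d * (tU k ^ n)⁻¹)⁻¹ : (RatFunc k)ˣ) : RatFunc k) = _
    rw [_root_.mul_inv_rev, inv_inv, ← pow_sub _ hn.le, boxes_val]
  have e11 : (glob_tw k d n).m11 = 1 := rfl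
  have e12 : (glob_tw k d n).m12 = 0 := rfl
  have er : (glob_tw k d n).r0 = 0 := rfl
  have hl : toKw none (toK k f.l) * toKw none RatFunc.X ^ (n - d) =
      (Vw none).incl f'.l + 2 * s0 := by
    have := congrArg Model.l h
    simp only [G.smul_def, Model.map_l, Model.scale, Model.shift, Model.subst, hμ, e11, e12, er,
      G.ofShift_m11, G.ofShift_m12, G.ofShift_μ, G.ofShift_r0, Model.map_m, Model.map_n, map_mul,
      map_add, map_pow, map_one, map_zero, inv_one, Units.val_one] at this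
    linear_combination this
  have ha : toKw none (toK k f.a) * (toKw none RatFunc.X ^ (n - d)) ^ 2 =
      -((Vw none).incl f'.l * s0) + (Vw none).incl f'.a - s0 ^ 2 := by
    have := congrArg Model.a h
    simp only [G.smul_def, Model.map_l, Model.scale, Model.shift, Model.subst, hμ, e11, e12, er,
      G.ofShift_m11, G.ofShift_m12, G.ofShift_μ, G.ofShift_r0, Model.map_m, Model.map_n,
      Model.map_a, Model.map_b, Model.map_c, Model.map_d, Model.map_e, map_mul, map_sub, map_neg,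
      map_add, map_pow, map_one, map_zero, inv_one, Units.val_one] at this
    linear_combination this
  set E : ℤᵐ⁰ := exp ((n : ℤ) - d - 1) with hE
  have hE1 : 1 ≤ E := by
    rw [hE, ← exp_zero, exp_le_exp]
    omega
  have hO : ∀ x : (Vw (none : Option (Irr k))).O, (Vw none).v ((Vw none).incl x) ≤ E :=
    fun x => ((Vw none).v_le_one x).trans hE1
  have hc : ((n - d : ℕ) : ℤ) = (n : ℤ) - d := by omega
  have hl0 : f.l = 0 := by
    apply glob_zero (m := (n : ℤ) - d)
    rw [← hc, ← glob_vX (k := k), ← map_mul, hl, hc, two_mul]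
    exact Valuation.map_add_le _ (hO _) (Valuation.map_add_le _ h0 h0)
  have ha0 : f.a = 0 := by
    apply glob_zero (m := 2 * ((n : ℤ) - d))
    have e2 : exp (2 * ((n : ℤ) - d)) = (Vw (none : Option (Irr k))).v
        ((toKw none RatFunc.X ^ (n - d)) ^ 2) := by
      rw [← pow_mul, glob_vX]
      congr 1
      push_cast [hc]
      ring
    have e3 : E * E ≤ exp (2 * ((n : ℤ) - d) - 1) := by
      rw [hE, ← exp_add, exp_le_exp]
      omega
    rw [e2, ← map_mul, ha]
    refine le_trans ?_ e3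
    refine Valuation.map_sub_le _ (Valuation.map_add_le _ ?_ ?_) ?_
    · rw [Valuation.map_neg, map_mul]
      exact mul_le_mul' (hO _) h0
    · exact ((Vw none).v_le_one _).trans (one_le_mul hE1 hE1)
    · rw [sq, map_mul]
      exact mul_le_mul' h0 h0
  exact ⟨Pt.std, ⟨Pt.prim_std, by simp [ha0]⟩, by simp [hl0]⟩

/-- Existence.  Take `n`, `N` from `exists_matrix`, `μ = det N / z₀.γ.u`.  For `p ∉ T` replace
`p (some p)` by the representative `⟨1, z', _⟩` given by `hint`.  Normalise with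
`LocRep.exists_norm`: at finite places to `(N, μ)`; for `p ∉ T` directly: if `N = H` is integral
then `μ` is a unit and `⟨N, μ, 0, 0, 0⟩` is integral, so the shift part is `0`; at infinity to
`(twM none n * N, t^d t^(-n) μ)` with shift part `ρ`.  By `additive_patch` (three times) there are
`x i` in `K` with `x i - r_p i / μ` integral for `p ∈ T`, `x i` integral for `p ∉ T` and
`x i - t^(i n) ρ i / μ` of valuation at most `exp (-1)` at infinity.  Put
`g = ⟨N, μ, μ x 0, μ x 1, μ x 2⟩`; `g • z₀` is integral at all finite places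
(`LocRep.exists_integral`), so it is `z.map toK` (`exists_obj_of_intAt`).  If `n ≤ d` it is also
integral at infinity after twisting (`mem_ObjBox_of_intAt`).  If `d < n` let
`g₁ = ⟨twM none n, t^d t^(-n), 0, 0, 0⟩ * g`; by `eq_ofShift_mul`, `g₁ • z₀` is a shift of an
integral model by `(s₀, s₁, s₂)` with `v s₀ ≤ exp (n - d - 1)`.  Its coefficients
`l t^(n - d) = l' + 2 s₀` and `a t^(2n - 2d) = a' - l' s₀ - s₀^2` show that the polynomials `l`,
`a` have negative degree; so `l = a = 0` and the standard point shows `Triv` (`triv_smul`). -/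
theorem exists_global {d : ℕ} {z₀ : Obj (RatFunc k)} (htriv : ¬z₀.f.Triv) (T : Finset (Irr k))
    (hint : ∀ p ∉ T, ObjIntAt (some p) z₀) (p : ∀ w, (Vw w).LocRep (zW w d z₀)) :
    ∃ n ≤ d, ∃ z ∈ ObjBox k d n, ∃ g : G (RatFunc k), g • z₀ = z.map (toK k) ∧
      ∀ w ∈ T.insertNone, (Vw w).MEq (p w).g.M (glK w (tW w d n * g).M) := by
  obtain ⟨n, N, hinf, hT, hT'⟩ := exists_matrix T fun w => (p w).g.M
  choose P hPM hPμ hPr using fun q : Irr k =>
    glob_fin T q (hint q) (p (some q)) (hT q) (hT' q)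
  obtain ⟨Q, hQM, hQμ⟩ := glob_inf (p none) hinf
  set μ := glob_mu z₀ N with hμ
  obtain ⟨x0, a0, b0, c0⟩ := additive_patch T (fun q => (P q).g.r0 / toKw _ (μ : RatFunc k))
    (toKw none RatFunc.X ^ 0 * Q.g.r0 / toKw none (μ : RatFunc k))
  obtain ⟨x1, a1, b1, c1⟩ := additive_patch T (fun q => (P q).g.r1 / toKw _ (μ : RatFunc k))
    (toKw none RatFunc.X ^ n * Q.g.r1 / toKw none (μ : RatFunc k))
  obtain ⟨x2, a2, b2, c2⟩ := additive_patch T (fun q => (P q).g.r2 / toKw _ (μ : RatFunc k))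
    (toKw none RatFunc.X ^ (2 * n) * Q.g.r2 / toKw none (μ : RatFunc k))
  let g : G (RatFunc k) := ⟨N, μ, μ * x0, μ * x1, μ * x2⟩
  have hμ0 : ∀ w : Option (Irr k), toKw w (μ : RatFunc k) ≠ 0 := fun w =>
    (_root_.map_ne_zero _).2 μ.ne_zero
  have hfin : ∀ q : Irr k, ObjIntAt (some q) (g • z₀) := by
    intro q
    have key : ∀ (x : RatFunc k) (r : Kw (some q)),
        (q ∈ T → (Vw (some q)).v (toKw _ x - r / toKw _ (μ : RatFunc k)) ≤ 1) →
        (q ∉ T → (plc (some q)).1 x ≤ 1) → (q ∉ T → r = 0) →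
        (Vw (some q)).v ((toKw _ ((μ : RatFunc k) * x) - r) / ((P q).g.μ : Kw (some q))) ≤ 1 := by
      intro x r h1 h2 h3
      have e : (toKw _ ((μ : RatFunc k) * x) - r) / ((P q).g.μ : Kw (some q)) =
          toKw _ x - r / toKw _ (μ : RatFunc k) := by
        rw [hPμ, map_mul]
        change (_ - r) / toKw _ (μ : RatFunc k) = _
        have := hμ0 (some q)
        field_simp
      rw [e]
      by_cases hq : q ∈ T
      · exact h1 hq
      · rw [h3 hq, zero_div, sub_zero, Place.loc_v]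
        exact h2 hq
    have k0 := key x0 _ (a0 q) (b0 q) fun h => (hPr q h).1
    have k1 := key x1 _ (a1 q) (b1 q) fun h => (hPr q h).2.1
    have k2 := key x2 _ (a2 q) (b2 q) fun h => (hPr q h).2.2
    obtain ⟨z', hz'⟩ := (P q).exists_integral (g := G.map (toKw _) g) (hPM q).symm (hPμ q).symm
      k0 k1 k2
    exact ⟨z', by rw [← hz', glob_zW_some, Obj.map_smul]⟩
  obtain ⟨z, hz⟩ := exists_obj_of_intAt hfin
  let g₁ : G (Kw (none : Option (Irr k))) := G.map (toKw none) (glob_tw k d n * g)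
  have hM : g₁.M = Q.g.M := hQM.symm
  have hmu : g₁.μ = Q.g.μ := hQμ.symm
  have hQv : (Q.g.μ : Kw (none : Option (Irr k))) = toKw none RatFunc.X ^ d *
      (toKw none RatFunc.X ^ n)⁻¹ * toKw none (μ : RatFunc k) := by
    rw [hQμ]
    change toKw none ((tU k ^ d * (tU k ^ n)⁻¹ * μ : (RatFunc k)ˣ) : RatFunc k) = _
    rw [Units.val_mul, Units.val_mul, boxes_inv, boxes_val, map_mul, map_mul, map_pow, map_pow,
      map_inv₀, inv_pow]
  have e11 : (glob_tw k d n).m11 = 1 := rfl
  have e12 : (glob_tw k d n).m12 = 0 := rfl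
  have e21 : (glob_tw k d n).m21 = 0 := rfl
  have e22 : (glob_tw k d n).m22 = (RatFunc.X ^ n)⁻¹ := rfl
  have r0 : g₁.r0 = toKw none (μ : RatFunc k) * toKw none x0 * (toKw none RatFunc.X ^ 0)⁻¹ := by
    change toKw none (glob_tw k d n * g).r0 = _
    rw [G.mul_r0, e11, e12]
    simp [g, glob_tw]
  have r1 : g₁.r1 = toKw none (μ : RatFunc k) * toKw none x1 * (toKw none RatFunc.X ^ n)⁻¹ := by
    change toKw none (glob_tw k d n * g).r1 = _
    rw [G.mul_r1, e11, e12, e21, e22]
    simp [g, glob_tw]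
  have r2 : g₁.r2 =
      toKw none (μ : RatFunc k) * toKw none x2 * (toKw none RatFunc.X ^ (2 * n))⁻¹ := by
    change toKw none (glob_tw k d n * g).r2 = _
    rw [G.mul_r2, e21, e22, pow_mul']
    simp [g, glob_tw]
  have s0 := glob_est (Vw none).v (hμ0 none) glob_vX d n 0 c0
  have s1 := glob_est (Vw none).v (hμ0 none) glob_vX d n n c1
  have s2 := glob_est (Vw none).v (hμ0 none) glob_vX d n (2 * n) c2
  rw [← r0, ← hQv] at s0
  rw [← r1, ← hQv] at s1
  rw [← r2, ← hQv] at s2
  have hact : g₁ • zW none d z₀ =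
      ((glob_tw k d n • z.map (toK k)).rmul (cW none d)⁻¹).map (toKw none) := by
    rw [zW, ← Obj.map_smul, Obj.smul_rmul, mul_smul, hz]
  by_cases hn : n ≤ d
  · have hle : ∀ m : ℤ, m ≤ 0 → exp m ≤ (1 : ℤᵐ⁰) := fun m hm => by
      rw [← exp_zero, exp_le_exp]
      exact hm
    obtain ⟨z', hz'⟩ := Q.exists_integral hM hmu (s0.trans (hle _ (by omega)))
      (s1.trans (hle _ (by omega))) (s2.trans (hle _ (by omega)))
    refine ⟨n, hn, z, mem_ObjBox_of_intAt hn ⟨z', ?_⟩, g, hz.symm, ?_⟩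
    · rw [← hz', hact, glob_tw_eq hn]
    · rintro (_ | q) hw
      · exact hinf
      · rw [tW_some, one_mul]
        exact hT q (Finset.some_mem_insertNone.1 hw)
  · exfalso
    apply htriv
    rw [← Model.triv_smul g, ← Obj.smul_f, ← hz, Obj.map_f]
    rw [LocalField.eq_ofShift_mul hM hmu, mul_smul, Q.eq] at hact
    refine glob_big (not_le.1 hn) (by simpa using s0) (congrArg Obj.f hact).symm

end SelAvg

/-!
Uniqueness of global models with prescribed local classes.
-/

namespace SelAvg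

open WeierstrassCurve WithZero Polynomial Matrix
open scoped Classical

universe u

variable {k : Type u} [Field k] [Finite k]

omit [Finite k] in
lemma glob2_scM (w : Option (Irr k)) (t : (RatFunc k)ˣ) :
    glK w (G.scM t) = G.scM (Units.map (toKw w) t) :=
  congrArg G.M (G.map_scalar (toKw w) t)

omit [Finite k] in
lemma glob2_mul (w : Option (Irr k)) (A B : GL (Fin 2) (RatFunc k)) :
    glK w (A * B) = glK w A * glK w B := map_mul _ _ _

/-- an element with integral matrix between integral objects is integral -/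
lemma glob2_lift {R L : Type*} [CommRing R] [Field L] [IsDomain R] [IsIntegrallyClosed R]
    [Algebra R L] [IsFractionRing R L] {z z' : Obj R} {g : G L} (H : GL (Fin 2) R)
    (hM : g.M = GeneralLinearGroup.map (algebraMap R L) H)
    (hz : g • z.map (algebraMap R L) = z'.map (algebraMap R L)) :
    ∃ g₀ : G R, g₀.M = H ∧ z' = g₀ • z := by
  have hinj : Function.Injective (algebraMap R L) := IsFractionRing.injective R L
  have hu : g.μ * g.det⁻¹ * Units.map (algebraMap R L) z.γ.u =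
      Units.map (algebraMap R L) z'.γ.u := by
    have h1 := congrArg (fun z : Obj L => z.γ.u) hz
    simpa [VariableChange.mul_def, G.Gam_u, VariableChange.map] using h1
  have hdet : g.det = Units.map (algebraMap R L) (GeneralLinearGroup.det H) := by
    rw [G.det, hM]
    ext
    simp [Matrix.det_fin_two]
  have hμ : g.μ = Units.map (algebraMap R L) (z'.γ.u * z.γ.u⁻¹ * GeneralLinearGroup.det H) := by
    rw [map_mul, map_mul, map_inv, ← hu, ← hdet]
    group
  obtain ⟨g₀, hg₀, -⟩ := G_integral (f := z.f) (f' := z'.f) (g := g) H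
    (z'.γ.u * z.γ.u⁻¹ * GeneralLinearGroup.det H) hM (by rw [hμ]; rfl) (congrArg Obj.f hz)
  refine ⟨g₀, ?_, Obj.map_injective hinj (by rw [Obj.map_smul, hg₀, hz])⟩
  have h2 : G.map (algebraMap R L) (G.ofM g₀.M) = G.map (algebraMap R L) (G.ofM H) := by
    refine G.ext ?_ rfl rfl rfl rfl
    rw [G.map_M, G.map_M, G.ofM_M, G.ofM_M, ← hM, ← hg₀, G.map_M]
  exact congrArg G.M (G.map_injective hinj h2)

/-- the degrees of the shift part are bounded automatically -/
lemma glob2_mem {d n : ℕ} (hn : n ≤ d) {h : G k[X]} (hc : GLCond n h.M) {z : Obj k[X]}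
    (hz : z ∈ ObjBox k d n) (hz' : h • z ∈ ObjBox k d n) : h ∈ GamBox k d n := by
  have a1 : G.ofM h.M ∈ GamBox k d n := mem_GamBox.2 ⟨hc, by simp, by simp, by simp⟩
  have a2 : G.ofMu h.μ ∈ GamBox k d n :=
    mem_GamBox.2 ⟨(mem_GamBox.1 (one_mem_GamBox d n)).1, by simp, by simp, by simp⟩
  have b1 := (mem_ObjBox.1 (smul_mem_ObjBox hn a1 hz)).1
  have b2 := (mem_ObjBox.1 (smul_mem_ObjBox hn (inv_mem_GamBox hn a2) hz')).1
  have e : ((G.ofMu h.μ)⁻¹ • h • z).f = (G.ofM h.M • z).f.shift h.r0 h.r1 h.r2 := by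
    have e1 : (G.ofMu h.μ)⁻¹ • h • z = G.ofShift h.r0 h.r1 h.r2 • G.ofM h.M • z := by
      rw [inv_smul_eq_iff, ← mul_smul, ← mul_smul, mul_assoc, ← G.decomp]
    rw [e1, Obj.smul_f, G.smul_def]
    simp
  generalize ((G.ofMu h.μ)⁻¹ • h • z).f = f₂ at b2 e
  generalize (G.ofM h.M • z).f = f₁ at b1 e
  obtain ⟨l1, m1, n1, c1, -, c2, -, c3⟩ := mem_VBox'.1 b1
  obtain ⟨-, -, -, c4, -, c5, -, c6⟩ := mem_VBox'.1 b2
  have ha := congrArg Model.a e
  have hc' := congrArg Model.c e
  have he := congrArg Model.e e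
  simp only [Model.shift] at ha hc' he
  have h0 : h.r0.natDegree ≤ d - n :=
    boxes2_quad (b := f₂.a - f₁.a) (by linear_combination ha) l1 (boxes_sub c4 c1)
  have h2 : h.r2.natDegree ≤ d + n :=
    boxes2_quad (b := f₂.e - f₁.e) (by linear_combination he) n1
      (boxes_sub (by omega) (by omega))
  have h1 : h.r1.natDegree ≤ d :=
    boxes2_quad (b := f₂.c - f₁.c + f₁.l * h.r2 + f₁.n * h.r0 + 2 * h.r0 * h.r2)
      (by linear_combination hc') m1
      (boxes_add (boxes_add (boxes_add (boxes_sub c5 c2) (boxes_mul l1 h2 (by omega)))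
        (boxes_mul n1 h0 (by omega)))
        (boxes_mul (boxes_mul (boxes_nat 2) h0 le_rfl) h2 (by omega)))
  exact mem_GamBox.2 ⟨hc, h0, h1, h2⟩

/-- Let `A = g'.M * g.M⁻¹ = t B` (`exists_poly_matrix`, `MEq.mul_right`); `glCond_of_mEq` gives
`n = n'` and the conditions on `B`.  The element `h = (scalar t)⁻¹ * g' * g⁻¹` has matrix `B` and
maps `z.map toK` to `z'.map toK`; by `G.Gam_u` its `μ` is a constant; `G_integral` over `k[X]`
gives `h₀`.  For the degrees of the shift part: with `f₁ = z.f.subst ..` (degrees as in the box,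
by `GLCond`), `G.scale_smul` gives `r0^2 + f₁.l r0 + .. = 0`, `r2^2 + f₁.n r2 + .. = 0`,
`r1^2 + f₁.m r1 + .. = 0`; or apply `G_integral` over `k[X]` a second time to the conjugate
`tW * h * tW⁻¹` with the algebra structure given by `emb none`; or use `equiv_lift` at infinity
with `globRep`, `tW_conj` and `natDegree_le_iff_val`. -/
theorem global_unique {d n n' : ℕ} (hn : n ≤ d) (hn' : n' ≤ d) {z₀ : Obj (RatFunc k)}
    {g g' : G (RatFunc k)} {z z' : Obj k[X]} (hz : z ∈ ObjBox k d n) (hz' : z' ∈ ObjBox k d n')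
    (hg : g • z₀ = z.map (toK k)) (hg' : g' • z₀ = z'.map (toK k))
    (h : ∀ w, (Vw w).MEq (glK w (tW w d n * g).M) (glK w (tW w d n' * g').M)) :
    n = n' ∧ ∃ h ∈ GamBox k d n, z' = h • z := by
  have h1 : ∀ w, (Vw w).MEq (glK w (twM w n)) (glK w (twM w n' * (g'.M * g.M⁻¹))) := fun w => by
    have h2 := (h w).mul_right (glK w g.M⁻¹)
    rwa [← map_mul, ← map_mul, G.mul_M, G.mul_M, tW_M, tW_M, mul_inv_cancel_right,
      mul_assoc] at h2
  obtain ⟨t, B, hB⟩ := exists_poly_matrix (A := g'.M * g.M⁻¹) fun p => by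
    simpa only [twM_some, map_one, one_mul] using h1 (some p)
  obtain ⟨rfl, hc⟩ : n = n' ∧ GLCond n B := by
    refine glCond_of_mEq ((h1 none).trans ⟨Units.map (toKw (k := k) none) t⁻¹, 1, ?_⟩)
    rw [map_one, mul_one, ← glob2_scM, ← glob2_mul, hB, ← mul_assoc (twM none n'),
      ← G.scM_comm, mul_assoc (G.scM t), ← mul_assoc, ← G.scM_mul, inv_mul_cancel, G.scM_one,
      one_mul]
  obtain ⟨h₀, e1, e2⟩ := glob2_lift (z := z) (z' := z') (g := (G.scalar t)⁻¹ * g' * g⁻¹) B
    (by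
      rw [G.mul_M, G.mul_M, G.inv_M, G.inv_M, G.scalar_M, mul_assoc, hB, inv_mul_cancel_left])
    (by
      rw [← hg, ← hg', ← mul_smul, inv_mul_cancel_right, mul_smul, inv_smul_eq_iff,
        Obj.scalar_smul])
  exact ⟨rfl, h₀, glob2_mem hn (e1 ▸ hc) hz (e2 ▸ hz'), e2⟩

/-- the converse: `gamCond_iff` at infinity, `incl_comp_embO` -/
theorem mEq_of_mem_GamBox (w : Option (Irr k)) {d n : ℕ} (hn : n ≤ d) {h : G k[X]}
    (hh : h ∈ GamBox k d n) (t : (RatFunc k)ˣ) (g : G (RatFunc k)) :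
    (Vw w).MEq (glK w (tW w d n * g).M)
      (glK w (tW w d n * (G.scalar t * G.map (toK k) h * g)).M) := by
  obtain ⟨g', hg'⟩ : ∃ g' : G k[X],
      G.map (emb w) g' = tW w d n * G.map (toK k) h * (tW w d n)⁻¹ := by
    cases w with
    | none => exact (gamCond_iff hn h).1 (mem_GamBox.1 hh)
    | some p => exact ⟨h, by rw [tW_some, inv_one, one_mul, mul_one, emb_some]⟩
  have e : tW w d n * (G.scalar t * G.map (toK k) h * g) =
      G.scalar t * G.map (emb w) g' * (tW w d n * g) := by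
    rw [hg', ← mul_assoc, ← mul_assoc, ← G.scalar_comm]
    group
  refine ⟨Units.map (toKw w) t, (G.map (embO w) g').M, ?_⟩
  have e2 : G.map (toKw w) (G.map (emb w) g') = G.map (Vw w).incl (G.map (embO w) g') := by
    rw [G.map_map, G.map_map, incl_comp_embO]
  have e3 : glK w (G.map (emb w) g').M =
      GeneralLinearGroup.map (Vw w).incl (G.map (embO w) g').M := congrArg G.M e2
  rw [e, G.mul_M, G.mul_M, glob2_mul, glob2_mul, G.scalar_M, glob2_scM, e3]

/-- if `map h' = scalar t * map h` then `t` is a constant: compare `μ` (`t^2` is a unit of `k[X]`)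
or a nonzero matrix entry -/
lemma exists_unit_of_scalar {h h' : G k[X]} {t : (RatFunc k)ˣ}
    (e : G.map (toK k) h' = G.scalar t * G.map (toK k) h) :
    ∃ c : k[X]ˣ, h' = G.scalar c * h := by
  have hinj : Function.Injective (toK k) := IsFractionRing.injective k[X] (RatFunc k)
  have e1 : (t : RatFunc k) ^ 2 = toK k (h'.μ * h.μ⁻¹ : k[X]ˣ) := by
    have e2 : t ^ 2 = Units.map (toK k) (h'.μ * h.μ⁻¹) := by
      rw [map_mul, map_inv, eq_mul_inv_iff_mul_eq]
      exact (congrArg G.μ e).symm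
    exact congrArg Units.val e2
  obtain ⟨y, hy⟩ := vcint_quad (R := k[X]) (a := 0) (b := -(h'.μ * h.μ⁻¹ : k[X]ˣ))
    (x := (t : RatFunc k)) (by rw [e1, map_zero, map_neg]; ring)
  have hu : IsUnit y := by
    have e3 : y ^ 2 = (h'.μ * h.μ⁻¹ : k[X]ˣ) := hinj (by rw [map_pow, hy, e1])
    exact (isUnit_pow_iff two_ne_zero).1 (e3 ▸ Units.isUnit _)
  refine ⟨hu.unit, G.map_injective hinj ?_⟩
  rw [e, map_mul, G.map_scalar]
  congr 2
  exact Units.ext hy.symm

/-- an orbit has at most `card GamBox / (q - 1)` elements, as the scalars act trivially -/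
theorem card_orbit_le {d n : ℕ} (hn : n ≤ d) (z : Obj k[X]) (s : Finset (Obj k[X]))
    (hs : ∀ z' ∈ s, ∃ h ∈ GamBox k d n, z' = h • z) : wt k d n * s.card ≤ 1 := by
  choose! σ h1 h2 using hs
  have := Fintype.ofFinite k[X]ˣ
  have h3 : ((Finset.univ : Finset k[X]ˣ) ×ˢ s).card ≤ (GamBox k d n).card := by
    refine Finset.card_le_card_of_injOn (fun p => G.scalar p.1 * σ p.2) (fun p hp => ?_)
      fun p hp p' hp' e => ?_
    · exact mul_mem_GamBox hn (scalar_mem_GamBox d n _) (h1 _ (Finset.mem_product.1 hp).2)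
    · have e1 : p.2 = p'.2 := by
        have e2 := congrArg (· • z) e
        simp only [mul_smul, Obj.scalar_smul] at e2
        rwa [← h2 _ (Finset.mem_product.1 hp).2, ← h2 _ (Finset.mem_product.1 hp').2] at e2
      simp only [e1, mul_left_inj] at e
      exact Prod.ext (G.scalar_injective e) e1
  rw [Finset.card_product, Finset.card_univ, ← Nat.card_eq_fintype_card, card_units_poly] at h3
  rw [wt, div_mul_eq_mul_div]
  refine div_le_one_of_le₀ ?_ (Nat.cast_nonneg _)
  have h4 := two_le_card k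
  rw [← Nat.cast_pred (by omega)]
  exact_mod_cast h3

end SelAvg

/-!
Counting inequivalent global models of one object.
-/

namespace SelAvg

open WeierstrassCurve Polynomial
open scoped Classical

universe u

variable {k : Type u} [Field k] [Finite k]

omit [Finite k] in
lemma up0_scalar_inv (t : (RatFunc k)ˣ) : G.scalar t⁻¹ * G.scalar t = (1 : G (RatFunc k)) := by
  rw [← G.scalar_mul, inv_mul_cancel, G.scalar_one]

/-- equivalence modulo scalars -/
def up0_setoid (k : Type u) [Field k] : Setoid (G (RatFunc k)) where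
  r g g' := ∃ t, g' = G.scalar t * g
  iseqv :=
    { refl := fun g => ⟨1, by rw [G.scalar_one, one_mul]⟩
      symm := by
        rintro g g' ⟨t, rfl⟩
        exact ⟨t⁻¹, by rw [← mul_assoc, up0_scalar_inv, one_mul]⟩
      trans := by
        rintro g g' g'' ⟨t, rfl⟩ ⟨t', rfl⟩
        exact ⟨t' * t, by rw [G.scalar_mul, mul_assoc]⟩ }

omit [Finite k] in
/-- a family of automorphisms meets at most `A` classes -/
lemma up0_card_image {z₀ : Obj (RatFunc k)} {A : ℕ}
    (hA : ∀ s : Finset (G (RatFunc k)), (∀ g ∈ s, g • z₀ = z₀) →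
      (∀ g ∈ s, ∀ g' ∈ s, ∀ t, g' = G.scalar t * g → g = g') → s.card ≤ A)
    {α : Type*} (F : Finset α) (a : α → G (RatFunc k)) (ha : ∀ p ∈ F, a p • z₀ = z₀) :
    (F.image fun p => Quotient.mk (up0_setoid k) (a p)).card ≤ A := by
  rw [← Finset.card_image_of_injective _ (Quotient.out_injective (s := up0_setoid k))]
  apply hA
  · intro x hx
    obtain ⟨c, hc, rfl⟩ := Finset.mem_image.1 hx
    obtain ⟨p, hp, rfl⟩ := Finset.mem_image.1 hc
    obtain ⟨t, ht⟩ := (up0_setoid k).symm (Quotient.mk_out (s := up0_setoid k) (a p))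
    rw [ht, mul_smul, ha p hp, Obj.scalar_smul]
  · intro x hx x' hx' t e
    obtain ⟨c, -, rfl⟩ := Finset.mem_image.1 hx
    obtain ⟨c', -, rfl⟩ := Finset.mem_image.1 hx'
    have : c = c' := Quotient.out_equiv_out.1 ⟨t, e⟩
    rw [this]

/-- the fibres of `(i, h) ↦ h • z i` -/
lemma up0_card_fibre {d n : ℕ} (hn : n ≤ d) {z₀ : Obj (RatFunc k)} {A : ℕ}
    (hA : ∀ s : Finset (G (RatFunc k)), (∀ g ∈ s, g • z₀ = z₀) →
      (∀ g ∈ s, ∀ g' ∈ s, ∀ t, g' = G.scalar t * g → g = g') → s.card ≤ A)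
    {ι : Type*} (I : Finset ι) (z : ι → Obj k[X]) (g : ι → G (RatFunc k))
    (hg : ∀ i ∈ I, g i • z₀ = (z i).map (toK k))
    (hI : ∀ i ∈ I, ∀ j ∈ I, ∀ h ∈ GamBox k d n, ∀ t,
      g j = G.scalar t * G.map (toK k) h * g i → i = j) (y : Obj k[X]) :
    ((I ×ˢ GamBox k d n).filter fun p => p.2 • z p.1 = y).card ≤ (Nat.card k - 1) * A := by
  set F := (I ×ˢ GamBox k d n).filter fun p => p.2 • z p.1 = y with hF
  rcases F.eq_empty_or_nonempty with h0 | ⟨p₀, hp₀⟩
  · rw [h0]; simp
  let e : ι × G k[X] → G (RatFunc k) := fun p => G.map (toK k) p.2 * g p.1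
  have hmem : ∀ p ∈ F, p.1 ∈ I ∧ p.2 ∈ GamBox k d n ∧ p.2 • z p.1 = y := by
    intro p hp
    obtain ⟨h1, h2⟩ := Finset.mem_filter.1 hp
    exact ⟨(Finset.mem_product.1 h1).1, (Finset.mem_product.1 h1).2, h2⟩
  have he : ∀ p ∈ F, e p • z₀ = y.map (toK k) := by
    intro p hp
    obtain ⟨h1, -, h3⟩ := hmem p hp
    simp only [e]
    rw [mul_smul, hg _ h1, ← Obj.map_smul, h3]
  have ha : ∀ p ∈ F, ((e p₀)⁻¹ * e p) • z₀ = z₀ := by
    intro p hp
    rw [mul_smul, he p hp, ← he p₀ hp₀, inv_smul_smul]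
  have := Fintype.ofFinite k[X]ˣ
  refine (Finset.card_le_mul_card_image
    (f := fun p => Quotient.mk (up0_setoid k) ((e p₀)⁻¹ * e p)) F (Nat.card k - 1) ?_).trans
    (Nat.mul_le_mul_left _ (up0_card_image hA F _ ha))
  intro c hc
  obtain ⟨p, hp, rfl⟩ := Finset.mem_image.1 hc
  rw [← card_units_poly, Nat.card_eq_fintype_card, ← Finset.card_univ]
  refine le_trans (Finset.card_le_card ?_)
    (Finset.card_image_le (f := fun c : k[X]ˣ => (p.1, G.scalar c * p.2)))
  intro p' hp'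
  obtain ⟨hp', hq⟩ := Finset.mem_filter.1 hp'
  obtain ⟨t, ht⟩ := (up0_setoid k).symm (Quotient.exact hq)
  obtain ⟨h1, h2, -⟩ := hmem p hp
  obtain ⟨h1', h2', -⟩ := hmem p' hp'
  have h3 : e p' = G.scalar t * e p := by
    have ht' : (e p₀)⁻¹ * e p' = (e p₀)⁻¹ * (G.scalar t * e p) := by
      rw [ht, ← mul_assoc (G.scalar t), G.scalar_comm t (e p₀)⁻¹, mul_assoc]
    exact mul_left_cancel ht'
  have h4 : g p'.1 = G.scalar t * G.map (toK k) (p'.2⁻¹ * p.2) * g p.1 := by
    simp only [e] at h3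
    rw [map_mul, map_inv, ← mul_assoc, G.scalar_comm, mul_assoc, mul_assoc, ← h3,
      inv_mul_cancel_left]
  have h5 : p.1 = p'.1 :=
    hI _ h1 _ h1' _ (mul_mem_GamBox hn (inv_mem_GamBox hn h2') h2) t h4
  have h6 : G.map (toK k) p'.2 = G.scalar t * G.map (toK k) p.2 := by
    simp only [e] at h3
    rw [← h5, ← mul_assoc] at h3
    exact mul_right_cancel h3
  obtain ⟨c, hc⟩ := exists_unit_of_scalar h6
  exact Finset.mem_image.2 ⟨c, Finset.mem_univ _, Prod.ext h5 hc.symm⟩

/-- Consider the map `(i, h) ↦ h • z i` from `I ×ˢ GamBox` to the filtered box.  The sum of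
`Φ (h • z i)` is `card GamBox * ∑ Φ (z i)`.  Each fibre has at most `A * (q - 1)` elements: the
elements `map h * g i` all send `z₀` to the same object, so after multiplying by the inverse of one
of them they are automorphisms of `z₀`; a maximal subfamily of pairwise inequivalent (modulo
scalars) elements has at most `A` members, and each class has at most `q - 1` members (`hI`,
`exists_unit_of_scalar`, `card_units_poly`). -/
theorem sum_le_of_inequiv {d n : ℕ} (hn : n ≤ d) {z₀ : Obj (RatFunc k)} {A : ℕ}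
    (hA : ∀ s : Finset (G (RatFunc k)), (∀ g ∈ s, g • z₀ = z₀) →
      (∀ g ∈ s, ∀ g' ∈ s, ∀ t, g' = G.scalar t * g → g = g') → s.card ≤ A)
    {ι : Type*} (I : Finset ι) (z : ι → Obj k[X]) (g : ι → G (RatFunc k))
    (hz : ∀ i ∈ I, z i ∈ ObjBox k d n) (hg : ∀ i ∈ I, g i • z₀ = (z i).map (toK k))
    (hI : ∀ i ∈ I, ∀ j ∈ I, ∀ h ∈ GamBox k d n, ∀ t,
      g j = G.scalar t * G.map (toK k) h * g i → i = j)
    (Φ : Obj k[X] → ℝ) (hΦ0 : ∀ y, 0 ≤ Φ y)
    (hΦ : ∀ h ∈ GamBox k d n, ∀ i ∈ I, Φ (h • z i) = Φ (z i)) :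
    ∑ i ∈ I, Φ (z i) ≤ A * (wt k d n *
      ∑ y ∈ ObjBox k d n with ∃ γ : G (RatFunc k), γ • z₀ = y.map (toK k), Φ y) := by
  set T := (ObjBox k d n).filter fun y => ∃ γ : G (RatFunc k), γ • z₀ = y.map (toK k) with hT
  have hmaps : ∀ p ∈ I ×ˢ GamBox k d n, p.2 • z p.1 ∈ T := by
    intro p hp
    obtain ⟨h1, h2⟩ := Finset.mem_product.1 hp
    refine Finset.mem_filter.2 ⟨smul_mem_ObjBox hn h2 (hz _ h1), G.map (toK k) p.2 * g p.1, ?_⟩
    rw [mul_smul, hg _ h1, Obj.map_smul]
  have h1 : ∑ p ∈ I ×ˢ GamBox k d n, Φ (p.2 • z p.1) =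
      (GamBox k d n).card * ∑ i ∈ I, Φ (z i) := by
    rw [Finset.sum_product, Finset.mul_sum]
    refine Finset.sum_congr rfl fun i hi => ?_
    rw [Finset.sum_congr rfl fun h hh => hΦ h hh i hi, Finset.sum_const, nsmul_eq_mul]
  have hq : ((Nat.card k - 1 : ℕ) : ℝ) = Nat.card k - 1 := by
    have := two_le_card k
    rw [Nat.cast_sub (by omega), Nat.cast_one]
  have h2 : ∑ p ∈ I ×ˢ GamBox k d n, Φ (p.2 • z p.1) ≤
      ((Nat.card k : ℝ) - 1) * A * ∑ y ∈ T, Φ y := by
    rw [← Finset.sum_fiberwise_of_maps_to hmaps, Finset.mul_sum]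
    refine Finset.sum_le_sum fun y _ => ?_
    rw [Finset.sum_congr rfl (g := fun _ => Φ y)
      (fun p hp => by rw [(Finset.mem_filter.1 hp).2]), Finset.sum_const, nsmul_eq_mul]
    refine mul_le_mul_of_nonneg_right ?_ (hΦ0 y)
    rw [← hq]
    exact_mod_cast up0_card_fibre hn hA I z g hg hI y
  have hpos : (0 : ℝ) < (GamBox k d n).card := by
    exact_mod_cast Finset.card_pos.2 ⟨1, one_mem_GamBox d n⟩
  rw [h1] at h2
  rw [wt, div_mul_eq_mul_div, ← mul_div_assoc, le_div_iff₀ hpos]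
  linarith

omit [Finite k] in
/-- An abstract form of the lower bound.  Group the elements of `s` by the tuple of their classes;
the sum is at most the sum over all tuples (in the product of the sets of classes that occur) of
the products of the `φ w`, which is the product of the sums (`Finset.prod_sum` or
`Finset.prod_univ_sum`). -/
theorem sum_prod_le_one {Y ι : Type*} {κ : ι → Type*} (S : Finset ι) (s : Finset Y)
    (c : ∀ w, Y → κ w) (φ : ∀ w, κ w → ℝ) (hφ0 : ∀ w x, 0 ≤ φ w x)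
    (hφ : ∀ w ∈ S, ∑ x ∈ s.image (c w), φ w x ≤ 1) (a : Y → ℝ)
    (ha : ∀ y ∈ s, ∑ y' ∈ s with ∀ w ∈ S, c w y' = c w y, a y' ≤ 1) :
    ∑ y ∈ s, a y * ∏ w ∈ S, φ w (c w y) ≤ 1 := by
  let C : Y → (∀ w : S, κ w) := fun y w => c w y
  let P := Fintype.piFinset fun w : S => s.image (c w)
  have hmaps : ∀ y ∈ s, C y ∈ P := fun y hy =>
    Fintype.mem_piFinset.2 fun w => Finset.mem_image_of_mem _ hy
  have h1 : ∑ y ∈ s, a y * ∏ w ∈ S, φ w (c w y) ≤ ∑ x ∈ P, ∏ w : S, φ w (x w) := by
    rw [← Finset.sum_fiberwise_of_maps_to hmaps]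
    refine Finset.sum_le_sum fun x _ => ?_
    have hx : 0 ≤ ∏ w : S, φ w (x w) := Finset.prod_nonneg fun w _ => hφ0 _ _
    have e : ∀ y ∈ s.filter fun y => C y = x,
        a y * ∏ w ∈ S, φ w (c w y) = a y * ∏ w : S, φ w (x w) := by
      intro y hy
      rw [← (Finset.mem_filter.1 hy).2, ← Finset.prod_coe_sort S]
    rw [Finset.sum_congr rfl e, ← Finset.sum_mul]
    refine mul_le_of_le_one_left hx ?_
    rcases (s.filter fun y => C y = x).eq_empty_or_nonempty with h0 | ⟨y, hy⟩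
    · rw [h0]; simp
    obtain ⟨hy', rfl⟩ := Finset.mem_filter.1 hy
    refine le_of_eq_of_le (Finset.sum_congr (Finset.filter_congr fun y' _ => ?_) fun _ _ => rfl)
      (ha y hy')
    exact ⟨fun h w hw => congrFun h ⟨w, hw⟩, fun h => funext fun w => h w w.2⟩
  refine h1.trans ?_
  rw [← Finset.prod_univ_sum]
  exact Finset.prod_le_one (fun w _ => Finset.sum_nonneg fun x _ => hφ0 _ _)
    fun w _ => hφ w w.2

end SelAvg

/-!
The upper bound for the number of Selmer classes of one curve.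
-/

namespace SelAvg

open WeierstrassCurve Polynomial
open scoped Classical

universe u

variable {k : Type u} [Field k] [Finite k]

omit [Finite k] in
lemma up_over {W : WeierstrassCurve k[X]} {y : Obj k[X]}
    (h : (y.map (toK k)).Over (W.map (toK k))) : y.Over W := by
  unfold Obj.Over at h ⊢
  rw [Obj.map_f, Obj.map_γ, Model.jac_map, map_variableChange] at h
  exact WeierstrassCurve.map_injective (IsFractionRing.injective _ _) h

omit [Finite k] in
lemma up_Delta {W : WeierstrassCurve k[X]} (hΔ : W.Δ ≠ 0) {y : Obj k[X]} (h : y.Over W) :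
    y.f.jac.Δ ≠ 0 := by
  unfold Obj.Over at h
  rw [h, variableChange_Δ, ne_eq, (y.γ.u⁻¹.isUnit.pow 12).mul_right_eq_zero]
  exact hΔ

/-- Choose a finite set `T` of finite places containing those in `S` and those where `z₀` is not
integral (`finite_not_objIntAt`).  For every `w` take `R w` from `exists_sum_phiL_ge_one`
(`zW_over`, `locW_embO_Delta`; it is nonempty).  Then `1 ≤ ∏ w ∈ T.insertNone, ∑ p ∈ R w, φ p`,
which is a sum over choices (`Finset.prod_sum`).  For each choice `exists_global` gives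
`(n, z, g)` with `φ (p w) = phiW w d n z.f` (`LocRep.phiL_eq_of_mEq` with `globRep`); the product
over `T.insertNone` is at most the product over `S` (`phiW_le_one`).  Group the choices by `n` and
apply `sum_le_of_inequiv` (different choices are inequivalent by `mEq_of_mem_GamBox`;
invariance by `phiW_smul`). -/
theorem up_one {d : ℕ} {W : WeierstrassCurve k[X]} (hW : W ∈ WBox k d) (hΔ : W.Δ ≠ 0) {A : ℕ}
    (hA : AutLE (W.map (toK k)) A) (S : Finset (Option (Irr k))) {z₀ : Obj (RatFunc k)}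
    (hz : z₀.Over (W.map (toK k))) (hs : ELS z₀.f) (ht : ¬z₀.f.Triv) :
    (1 : ℝ) ≤ A * ∑ n ∈ Finset.range (d + 1), wt k d n *
      ∑ y ∈ ObjBox k d n with ∃ γ : G (RatFunc k), γ • z₀ = y.map (toK k),
        ∏ w ∈ S, phiW w d n y.f := by
  let T : Finset (Irr k) := (finite_not_objIntAt z₀).toFinset ∪ S.eraseNone
  have hint : ∀ p ∉ T, ObjIntAt (some p) z₀ := by
    intro p hp
    by_contra h
    exact hp (Finset.mem_union_left _ ((Set.Finite.mem_toFinset _).2 h))
  have hSU : S ⊆ T.insertNone := by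
    intro w hw
    rw [Finset.mem_insertNone]
    intro a ha
    rw [Option.mem_def] at ha
    subst ha
    exact Finset.mem_union_right _ (Finset.mem_eraseNone.2 hw)
  choose R hR1 hR2 using fun w => LocalField.exists_sum_phiL_ge_one (res_isRed w)
    (locW_embO_Delta w hW hΔ) (zW_over w hW hz) (hs w)
  have hne : ∀ w, ∃ p, p ∈ R w := by
    intro w
    by_contra h
    have h1 := hR2 w
    rw [Finset.eq_empty_of_forall_notMem (s := R w) fun p hp => h ⟨p, hp⟩,
      Finset.sum_empty] at h1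
    norm_num at h1
  choose p₀ hp₀ using hne
  let P : (∀ w ∈ T.insertNone, (Vw w).LocRep (zW w d z₀)) → ∀ w, (Vw w).LocRep (zW w d z₀) :=
    fun c w => if h : w ∈ T.insertNone then c w h else p₀ w
  have hP : ∀ c w (h : w ∈ T.insertNone), P c w = c w h := fun c w h => dif_pos h
  choose n hn z hzB g hg hM using fun c => exists_global ht T hint (P c)
  have hov : ∀ c, (z c).f.jac.Δ ≠ 0 := fun c =>
    up_Delta hΔ (up_over (hg c ▸ hz.smul (g c)))
  have hφ : ∀ c w (h : w ∈ T.insertNone),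
      (Vw w).phiL (res w) (c w h).z.f = phiW w d (n c) (z c).f := by
    intro c w h
    rw [← hP c w h]
    exact LocalField.LocRep.phiL_eq_of_mEq (locW_embO_Delta w hW hΔ) (zW_over w hW hz) (P c w)
      (globRep w (hn c) (hzB c) (hg c)) (hM c w h)
  have h1 : (1 : ℝ) ≤ ∏ w ∈ T.insertNone, ∑ p ∈ R w, (Vw w).phiL (res w) p.z.f :=
    Finset.one_le_prod fun w _ => hR2 w
  rw [Finset.prod_sum] at h1
  have h2 : ∀ c ∈ T.insertNone.pi R,
      ∏ x ∈ T.insertNone.attach, (Vw x.1).phiL (res x.1) (c x.1 x.2).z.f ≤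
        ∏ w ∈ S, phiW w d (n c) (z c).f := by
    intro c _
    rw [Finset.prod_congr rfl fun x _ => hφ c x.1 x.2,
      Finset.prod_attach T.insertNone fun w => phiW w d (n c) (z c).f]
    exact Finset.prod_le_prod_of_subset_of_le_one hSU (fun w _ => phiW_nonneg _ _ _ _)
      fun w _ _ => phiW_le_one w (hn c) (mem_ObjBox.1 (hzB c)).1 (hov c)
  refine h1.trans ((Finset.sum_le_sum h2).trans ?_)
  rw [← Finset.sum_fiberwise_of_maps_to (g := n) (t := Finset.range (d + 1))
    fun c _ => Finset.mem_range.2 (Nat.lt_succ_of_le (hn c)), Finset.mul_sum]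
  refine Finset.sum_le_sum fun m hm => ?_
  have hm' : m ≤ d := Nat.lt_succ_iff.1 (Finset.mem_range.1 hm)
  have e : ∑ c ∈ T.insertNone.pi R with n c = m, ∏ w ∈ S, phiW w d (n c) (z c).f =
      ∑ c ∈ T.insertNone.pi R with n c = m, ∏ w ∈ S, phiW w d m (z c).f :=
    Finset.sum_congr rfl fun c hc => by rw [(Finset.mem_filter.1 hc).2]
  rw [e]
  have hzm : ∀ c ∈ (T.insertNone.pi R).filter fun c => n c = m, z c ∈ ObjBox k d m :=
    fun c hc => (Finset.mem_filter.1 hc).2 ▸ hzB c
  refine sum_le_of_inequiv hm' (hA z₀ hz) _ z g hzm (fun c _ => hg c) ?_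
    (fun y => ∏ w ∈ S, phiW w d m y.f)
    (fun y => Finset.prod_nonneg fun w _ => phiW_nonneg _ _ _ _)
    fun h hh c hc => Finset.prod_congr rfl fun w _ => phiW_smul w hm' hh (hzm c hc) (hov c)
  intro i hi j hj h hh t hij
  obtain ⟨hi1, hi2⟩ := Finset.mem_filter.1 hi
  obtain ⟨hj1, hj2⟩ := Finset.mem_filter.1 hj
  funext w hw
  have a1 := hM i w hw
  have a2 := hM j w hw
  rw [hP _ _ hw] at a1 a2
  rw [hi2] at a1
  rw [hj2, hij] at a2
  exact hR1 w _ (Finset.mem_pi.1 hi1 w hw) _ (Finset.mem_pi.1 hj1 w hw)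
    ((a1.trans (mEq_of_mem_GamBox w hm' hh t (g i))).trans a2.symm)

/-- sum `up_one` over the classes; different classes have disjoint sets of models, all over `W` -/
theorem up_card {d : ℕ} {W : WeierstrassCurve k[X]} (hW : W ∈ WBox k d) (hΔ : W.Δ ≠ 0) {A : ℕ}
    (hA : AutLE (W.map (toK k)) A) (S : Finset (Option (Irr k))) (s : Finset (Orb (RatFunc k)))
    (hs : ↑s ⊆ SelOrb (W.map (toK k))) :
    (s.card : ℝ) ≤ A * ∑ n ∈ Finset.range (d + 1), wt k d n *
      ∑ y ∈ ObjBox k d n with y.Over W, ∏ w ∈ S, phiW w d n y.f := by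
  have h0 : ∀ x : Orb (RatFunc k), ∃ z : Obj (RatFunc k), x ∈ s →
      orb z = x ∧ z.Over (W.map (toK k)) ∧ ELS z.f ∧ ¬z.f.Triv := by
    intro x
    by_cases hx : x ∈ s
    · obtain ⟨z, hz⟩ := hs hx
      exact ⟨z, fun _ => hz⟩
    · exact ⟨Quotient.out x, fun h => (hx h).elim⟩
  choose z hz using h0
  have h1 := Finset.sum_le_sum fun x (hx : x ∈ s) =>
    up_one hW hΔ hA S (hz x hx).2.1 (hz x hx).2.2.1 (hz x hx).2.2.2
  rw [Finset.sum_const, nsmul_eq_mul, mul_one, ← Finset.mul_sum, Finset.sum_comm] at h1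
  refine h1.trans (mul_le_mul_of_nonneg_left (Finset.sum_le_sum fun n _ => ?_) (Nat.cast_nonneg _))
  rw [← Finset.mul_sum]
  refine mul_le_mul_of_nonneg_left ?_ (wt_nonneg d n)
  rw [← Finset.sum_biUnion]
  · refine Finset.sum_le_sum_of_subset_of_nonneg (Finset.biUnion_subset.2 fun x hx y hy => ?_)
      fun y _ _ => Finset.prod_nonneg fun w _ => phiW_nonneg _ _ _ _
    obtain ⟨hy1, γ, hγ⟩ := Finset.mem_filter.1 hy
    exact Finset.mem_filter.2 ⟨hy1, up_over (hγ ▸ (hz x hx).2.1.smul γ)⟩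
  · intro x hx x' hx' hne
    refine Finset.disjoint_left.2 fun y hy hy' => hne ?_
    rw [← (hz x hx).1, ← (hz x' hx').1, ← orb_eq_iff.2 (Finset.mem_filter.1 hy).2,
      ← orb_eq_iff.2 (Finset.mem_filter.1 hy').2]

theorem finite_SelOrb {d : ℕ} {W : WeierstrassCurve k[X]} (hW : W ∈ WBox k d) (hΔ : W.Δ ≠ 0) :
    (SelOrb (W.map (toK k))).Finite := by
  have hΔ' : (W.map (toK k)).Δ ≠ 0 := by
    rw [map_Δ]
    exact (map_ne_zero_iff _ (IsFractionRing.injective _ _)).2 hΔ
  by_contra h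
  obtain ⟨N, hN⟩ := exists_nat_gt ((autB (W.map (toK k)) : ℝ) *
    ∑ n ∈ Finset.range (d + 1), wt k d n *
      ∑ y ∈ ObjBox k d n with y.Over W, ∏ w ∈ (∅ : Finset (Option (Irr k))), phiW w d n y.f)
  obtain ⟨s, hs, hc⟩ := Set.Infinite.exists_subset_card_eq h N
  have h1 := up_card hW hΔ (autLE_autB hΔ') ∅ s hs
  rw [hc] at h1
  exact absurd h1 (not_le.2 hN)

theorem ncard_SelOrb_le {d : ℕ} {W : WeierstrassCurve k[X]} (hW : W ∈ WBox k d) (hΔ : W.Δ ≠ 0)
    (S : Finset (Option (Irr k))) :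
    ((SelOrb (W.map (toK k))).ncard : ℝ) ≤ autB (W.map (toK k)) *
      ∑ n ∈ Finset.range (d + 1), wt k d n *
        ∑ y ∈ ObjBox k d n with y.Over W, ∏ w ∈ S, phiW w d n y.f := by
  have hΔ' : (W.map (toK k)).Δ ≠ 0 := by
    rw [map_Δ]
    exact (map_ne_zero_iff _ (IsFractionRing.injective _ _)).2 hΔ
  rw [Set.ncard_eq_toFinset_card _ (finite_SelOrb hW hΔ)]
  exact up_card hW hΔ (autLE_autB hΔ') S _ (by simp)

end SelAvg

/-!
The lower bound for the number of Selmer classes of one curve.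
-/

namespace SelAvg

open WeierstrassCurve Polynomial
open scoped Classical

universe u

variable {k : Type u} [Field k]

/-- the discriminant is squarefree outside `S` -/
def SqfOff (S : Finset (Irr k)) (W : WeierstrassCurve k[X]) : Prop := ∀ p ∉ S, ¬p.1 ^ 2 ∣ W.Δ

variable [Finite k]

/-- Let `s` be the finite set of pairs `(n, y)` (`Finset.sigma`).  Choose `γ` for each pair, let
`c w (n, y)` be the class of the matrix of `globRep w` in the quotient of `GL (Fin 2) (Kw w)` by
`MEq`, and `φ w x` the weight of a chosen pair with class `x` (zero if there is none); use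
`LocRep.phiL_eq_of_mEq`, `sum_phiL_le_one` and `sum_prod_le_one`.  Two pairs with the same classes
on `S.insertNone` have the same classes everywhere (`phiW_eq_one`, `mEq_of_phiL_eq_one`), so
`global_unique` and `card_orbit_le` bound the total weight of such pairs by one. -/
theorem low_one {d : ℕ} {W : WeierstrassCurve k[X]} (hW : W ∈ WBox k d) (hΔ : W.Δ ≠ 0)
    (S : Finset (Irr k)) {z₀ : Obj (RatFunc k)} (hz : z₀.Over (W.map (toK k))) :
    ∑ n ∈ Finset.range (d + 1), wt k d n *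
      ∑ y ∈ ObjBox k d n with (∃ γ : G (RatFunc k), γ • z₀ = y.map (toK k)) ∧ SqfOff S y.f.jac,
        ∏ w ∈ S.insertNone, phiW w d n y.f ≤ 1 := by
  set s : Finset (Σ _ : ℕ, Obj k[X]) := (Finset.range (d + 1)).sigma fun n =>
    (ObjBox k d n).filter fun y =>
      (∃ γ : G (RatFunc k), γ • z₀ = y.map (toK k)) ∧ SqfOff S y.f.jac with hs
  have hmem : ∀ x : s, x.1.1 ≤ d ∧ x.1.2 ∈ ObjBox k d x.1.1 ∧
      (∃ γ : G (RatFunc k), γ • z₀ = x.1.2.map (toK k)) ∧ SqfOff S x.1.2.f.jac := by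
    intro x
    have h := Finset.mem_sigma.1 x.2
    have h2 := Finset.mem_filter.1 h.2
    exact ⟨Nat.lt_succ_iff.1 (Finset.mem_range.1 h.1), h2.1, h2.2⟩
  choose hn hb hg hq using hmem
  choose g hg using hg
  let rep : ∀ w, s → (Vw w).LocRep (zW w d z₀) := fun w x => globRep w (hn x) (hb x) (hg x)
  have hrep : ∀ w (x : s), (Vw w).phiL (res w) (rep w x).z.f = phiW w d x.1.1 x.1.2.f :=
    fun _ _ => rfl
  let r : Option (Irr k) → Setoid s := fun w =>
    ⟨fun x y => (Vw w).MEq (rep w x).g.M (rep w y).g.M,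
      ⟨fun _ => LocalField.MEq.refl _, LocalField.MEq.symm, LocalField.MEq.trans⟩⟩
  have key := sum_prod_le_one (κ := fun w => Quotient (r w)) S.insertNone
    (Finset.univ : Finset s) (fun w x => Quotient.mk (r w) x)
    (fun w q => (Vw w).phiL (res w) (rep w q.out).z.f)
    (fun w q => LocalField.phiL_nonneg _ _)
    (fun w _ => LocalField.sum_phiL_le_one (res_isRed w) (locW_embO_Delta w hW hΔ)
      (zW_over w hW hz) _ (fun q : Quotient (r w) => rep w q.out)
      fun q _ q' _ h => by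
        rw [← q.out_eq, ← q'.out_eq]
        exact Quotient.sound h)
    (fun x => wt k d x.1.1) (by
      intro y _
      suffices H : ∀ t : Finset s, (∀ y' ∈ t, ∀ w ∈ S.insertNone,
          Quotient.mk (r w) y' = Quotient.mk (r w) y) → ∑ y' ∈ t, wt k d y'.1.1 ≤ 1 from
        H _ fun y' hy' => ((@Finset.mem_filter _ _ (_) _ _).1 hy').2
      intro t ht
      have hall : ∀ y' ∈ t, y.1.1 = y'.1.1 ∧ ∃ h ∈ GamBox k d y.1.1, y'.1.2 = h • y.1.2 := by
        intro y' hy'
        have h1 := ht y' hy'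
        refine global_unique (hn y) (hn y') (hb y) (hb y') (hg y) (hg y') fun w => ?_
        change (Vw w).MEq (rep w y).g.M (rep w y').g.M
        by_cases hw : w ∈ S.insertNone
        · exact Quotient.exact (h1 w hw).symm
        · cases w with
          | none => exact absurd Finset.none_mem_insertNone hw
          | some p =>
            have hp : p ∉ S := fun h => hw (Finset.some_mem_insertNone.2 h)
            refine LocalField.mEq_of_phiL_eq_one (res_isRed _) (locW_embO_Delta _ hW hΔ)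
              (zW_over _ hW hz) _ _ ?_ ?_
            · rw [hrep]; exact phiW_eq_one p _ _ (hq y p hp)
            · rw [hrep]; exact phiW_eq_one p _ _ (hq y' p hp)
      have hsum : ∑ y' ∈ t, wt k d y'.1.1 = wt k d y.1.1 * t.card := by
        rw [Finset.sum_congr rfl fun y' hy' => congrArg (wt k d) (hall y' hy').1.symm,
          Finset.sum_const, nsmul_eq_mul, mul_comm]
      have hinj : Set.InjOn (fun y' : s => y'.1.2) (t : Set s) := by
        intro a ha b hb' hab
        have h1 : a.1.1 = b.1.1 := (hall a ha).1.symm.trans (hall b hb').1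
        exact Subtype.ext (Sigma.ext h1 (heq_of_eq hab))
      have hc := card_orbit_le (hn y) y.1.2 (t.image fun y' : s => y'.1.2) (by
        intro z' hz'
        obtain ⟨y', hy', rfl⟩ := Finset.mem_image.1 hz'
        exact (hall y' hy').2)
      rw [Finset.card_image_of_injOn hinj] at hc
      exact hsum.le.trans hc)
  refine le_trans (le_of_eq ?_) key
  have h2 : ∀ x : s, ∏ w ∈ S.insertNone,
      (Vw w).phiL (res w) (rep w (Quotient.mk (r w) x).out).z.f =
        ∏ w ∈ S.insertNone, phiW w d x.1.1 x.1.2.f := by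
    intro x
    refine Finset.prod_congr rfl fun w _ => ?_
    rw [← hrep]
    exact LocalField.LocRep.phiL_eq_of_mEq (locW_embO_Delta w hW hΔ) (zW_over w hW hz) _ _
      (Quotient.mk_out (s := r w) x)
  rw [Finset.sum_congr rfl fun x _ => congrArg (wt k d x.1.1 * ·) (h2 x),
    Finset.sum_coe_sort s fun x => wt k d x.1 * ∏ w ∈ S.insertNone, phiW w d x.1 x.2.f,
    hs, Finset.sum_sigma]
  exact Finset.sum_congr rfl fun n _ => Finset.mul_sum _ _ _

/-- If the product is nonzero then `y` is everywhere locally soluble (`soluble_of_phiW_ne_zero`,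
`phiW_eq_one`), so its class lies in `SelOrb`.  Sum `low_one` over the finite set of classes
(`finite_SelOrb`). -/
theorem le_ncard_SelOrb {d : ℕ} {W : WeierstrassCurve k[X]} (hW : W ∈ WBox k d) (hΔ : W.Δ ≠ 0)
    (S : Finset (Irr k)) :
    ∑ n ∈ Finset.range (d + 1), wt k d n *
      ∑ y ∈ ObjBox k d n with y.Over W, (ind (¬(y.f.map (toK k)).Triv ∧ SqfOff S y.f.jac) *
        ∏ w ∈ S.insertNone, phiW w d n y.f) ≤ ((SelOrb (W.map (toK k))).ncard : ℝ) := by
  have hfin := finite_SelOrb hW hΔ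
  set T := hfin.toFinset with hT
  have hout : ∀ x ∈ T, (Quotient.out x).Over (W.map (toK k)) := by
    intro x hx
    obtain ⟨z, hzx, hz, -⟩ := hfin.mem_toFinset.1 hx
    have h1 : orb (Quotient.out x) = orb z := (Quotient.out_eq x).trans hzx.symm
    obtain ⟨g, hg⟩ := orb_eq_iff.1 h1
    rw [← hg]
    exact hz.smul g
  have hP : ∀ n (y : Obj k[X]), 0 ≤ ∏ w ∈ S.insertNone, phiW w d n y.f :=
    fun n y => Finset.prod_nonneg fun w _ => phiW_nonneg _ _ _ _
  calc _ ≤ ∑ n ∈ Finset.range (d + 1), wt k d n * ∑ x ∈ T, ∑ y ∈ ObjBox k d n with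
          (∃ γ : G (RatFunc k), γ • Quotient.out x = y.map (toK k)) ∧ SqfOff S y.f.jac,
          ∏ w ∈ S.insertNone, phiW w d n y.f := by
        refine Finset.sum_le_sum fun n hn => mul_le_mul_of_nonneg_left ?_ (wt_nonneg d n)
        have hn' : n ≤ d := Nat.lt_succ_iff.1 (Finset.mem_range.1 hn)
        simp only [Finset.sum_filter]
        rw [Finset.sum_comm]
        refine Finset.sum_le_sum fun y hy => ?_
        have h0 : ∀ x ∈ T, (0 : ℝ) ≤ if (∃ γ : G (RatFunc k),
            γ • Quotient.out x = y.map (toK k)) ∧ SqfOff S y.f.jac then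
            ∏ w ∈ S.insertNone, phiW w d n y.f else 0 := by
          intro x _
          split_ifs
          · exact hP n y
          · exact le_rfl
        by_cases ho : y.Over W
        swap
        · rw [if_neg ho]; exact Finset.sum_nonneg h0
        rw [if_pos ho]
        by_cases hc : ¬(y.f.map (toK k)).Triv ∧ SqfOff S y.f.jac
        swap
        · rw [ind_neg hc, zero_mul]; exact Finset.sum_nonneg h0
        rw [ind_pos hc, one_mul]
        by_cases hp : ∏ w ∈ S.insertNone, phiW w d n y.f = 0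
        · refine hp.le.trans (Finset.sum_nonneg h0)
        have hels : ELS (y.f.map (toK k)) := by
          intro w
          refine soluble_of_phiW_ne_zero w hn' (mem_ObjBox.1 hy).1 ?_
          by_cases hw : w ∈ S.insertNone
          · exact Finset.prod_ne_zero_iff.1 hp w hw
          · cases w with
            | none => exact absurd Finset.none_mem_insertNone hw
            | some p =>
              have hpS : p ∉ S := fun h => hw (Finset.some_mem_insertNone.2 h)
              rw [phiW_eq_one p _ _ (hc.2 p hpS)]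
              exact one_ne_zero
        have hx : orb (y.map (toK k)) ∈ T :=
          hfin.mem_toFinset.2 ⟨y.map (toK k), rfl, ho.map _, hels, hc.1⟩
        refine le_trans (le_of_eq ?_) (Finset.single_le_sum h0 hx)
        rw [if_pos ⟨orb_eq_iff.1 (Quotient.out_eq (orb (y.map (toK k)))).symm, hc.2⟩]
    _ = ∑ x ∈ T, ∑ n ∈ Finset.range (d + 1), wt k d n * ∑ y ∈ ObjBox k d n with
          (∃ γ : G (RatFunc k), γ • Quotient.out x = y.map (toK k)) ∧ SqfOff S y.f.jac,
          ∏ w ∈ S.insertNone, phiW w d n y.f := by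
        rw [Finset.sum_comm]
        exact Finset.sum_congr rfl fun n _ => Finset.mul_sum _ _ _
    _ ≤ ∑ _x ∈ T, (1 : ℝ) := Finset.sum_le_sum fun x hx => low_one hW hΔ S (hout x hx)
    _ = _ := by
        rw [Finset.sum_const, nsmul_eq_mul, mul_one, Set.ncard_eq_toFinset_card _ hfin]

end SelAvg
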