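import Pool.Agent.H38Sel.RatC
import Pool.Agent.H38Sel.AlgC
import Pool.Agent.H38Sel.LocC
import Pool.Agent.H38Sel.RatB
import Pool.Agent.H38Sel.Desc
import Pool.Agent.H38Sel.LocB
import Pool.Agent.H38Sel.RatA

/-!
The discriminant as a cubic polynomial in the coefficient `e`; generic polynomials.
-/

namespace SelAvg

open WeierstrassCurve Polynomial
open scoped Classical

universe u

section Ring

variable {R S : Type*} [CommRing R] [CommRing S]

namespace Model

/-- the Jacobian of the model with `e` replaced by `0` -/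
def W0 (f : Model R) : WeierstrassCurve R := (⟨f.l, f.m, f.n, f.a, f.b, f.c, f.d, 0⟩ : Model R).jac

/-- minus the coefficient of `e` in `a₄` -/
def cA (f : Model R) : R := f.l ^ 2 + 4 * f.a

/-- the coefficient of `e` in `a₆` -/
def cB (f : Model R) : R :=
  f.b ^ 2 + f.l * f.m * f.b - (f.l ^ 2 * f.c + f.m ^ 2 * f.a + 4 * f.a * f.c)

/-- the discriminant as a cubic in `e` -/
def cub (f : Model R) : Cubic R where
  a := 64 * f.cA ^ 3
  b := f.W0.b₂ ^ 2 * f.cA ^ 2 - 96 * f.cA ^ 2 * f.W0.b₄ - 432 * f.cB ^ 2 - 72 * f.W0.b₂ * f.cA * f.cB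
  c := -f.W0.b₂ ^ 3 * f.cB - f.W0.b₂ ^ 2 * f.cA * f.W0.b₄ + 48 * f.cA * f.W0.b₄ ^ 2
    - 216 * f.W0.b₆ * f.cB + 36 * f.W0.b₂ * f.W0.b₄ * f.cB - 18 * f.cA * f.W0.b₂ * f.W0.b₆
  d := f.W0.Δ

lemma jac_eq_W0 (f : Model R) : f.jac =
    ⟨f.W0.a₁, f.W0.a₂, f.W0.a₃, f.W0.a₄ - f.cA * f.e, f.W0.a₆ + f.cB * f.e⟩ := by
  ext <;> simp only [jac, W0, cA, cB] <;> ring

lemma Delta_eq_cub (f : Model R) :
    f.jac.Δ = f.cub.a * f.e ^ 3 + f.cub.b * f.e ^ 2 + f.cub.c * f.e + f.cub.d := by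
  rw [jac_eq_W0]
  simp only [cub, Δ, b₂, b₄, b₆, b₈]
  ring

lemma eval_cub (f : Model R) : f.cub.toPoly.eval f.e = f.jac.Δ := by
  rw [Delta_eq_cub]; simp [Cubic.toPoly]

lemma W0_map (φ : R →+* S) (f : Model R) : (f.map φ).W0 = f.W0.map φ := by
  unfold W0
  rw [← jac_map]
  congr 1
  ext <;> simp

lemma cA_map (φ : R →+* S) (f : Model R) : (f.map φ).cA = φ f.cA := by
  simp [cA, map_ofNat]

lemma cB_map (φ : R →+* S) (f : Model R) : (f.map φ).cB = φ f.cB := by
  simp [cB, map_ofNat]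

lemma cub_map (φ : R →+* S) (f : Model R) : (f.map φ).cub = f.cub.map φ := by
  simp only [cub, Cubic.map, W0_map, cA_map, cB_map, map_b₂, map_b₄, map_b₆, map_Δ, map_mul,
    map_sub, map_add, map_pow, map_neg, map_ofNat]

lemma cub_update (x : Fin 8 → R) (a : R) :
    (Model.equivVec.symm (Function.update x 7 a)).cub = (Model.equivVec.symm x).cub := rfl

end Model

lemma cubic_discr_map (φ : R →+* S) (P : Cubic R) : (P.map φ).discr = φ P.discr := by
  simp only [Cubic.discr, Cubic.map, map_mul, map_sub, map_add, map_pow, map_ofNat]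

/-- With `P = l3 X^3 + l2 X^2 + l1 X + l0` one has `A P + B P' = -discr` for
`A = 27 l0 l3^2 - 15 l1 l2 l3 + 4 l2^3 + (6 l2^2 l3 - 18 l1 l3^2) X` and
`B = 4 l1^2 l3 - 3 l0 l2 l3 - l1 l2^2 + (7 l1 l2 l3 - 9 l0 l3^2 - 2 l2^3) X
  + (6 l1 l3^2 - 2 l2^2 l3) X^2`. -/
lemma cubic_separable {K : Type*} [Field K] {P : Cubic K} (h : P.discr ≠ 0) :
    P.toPoly.Separable ∧ P.toPoly.natDegree ≠ 0 := by
  constructor
  · have hd : derivative P.toPoly = 3 * C P.a * X ^ 2 + 2 * C P.b * X + C P.c := by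
      simp only [Cubic.toPoly, derivative_add, derivative_mul, derivative_C, derivative_X_pow,
        derivative_X, Nat.cast_ofNat, map_ofNat]
      ring
    have key : (27 * C P.d * C P.a ^ 2 - 15 * C P.c * C P.b * C P.a + 4 * C P.b ^ 3
          + (6 * C P.b ^ 2 * C P.a - 18 * C P.c * C P.a ^ 2) * X) * P.toPoly +
        (4 * C P.c ^ 2 * C P.a - 3 * C P.d * C P.b * C P.a - C P.c * C P.b ^ 2
          + (7 * C P.c * C P.b * C P.a - 9 * C P.d * C P.a ^ 2 - 2 * C P.b ^ 3) * X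
          + (6 * C P.c * C P.a ^ 2 - 2 * C P.b ^ 2 * C P.a) * X ^ 2) * derivative P.toPoly =
        -C P.discr := by
      rw [hd]
      simp only [Cubic.toPoly, Cubic.discr, map_mul, map_sub, map_add, map_pow, map_ofNat]
      ring
    obtain ⟨u, v, huv⟩ : ∃ u v : K[X], u * P.toPoly + v * derivative P.toPoly = -C P.discr :=
      ⟨_, _, key⟩
    refine ⟨-C P.discr⁻¹ * u, -C P.discr⁻¹ * v, ?_⟩
    rw [mul_assoc, mul_assoc, ← mul_add, huv, neg_mul_neg, ← map_mul, inv_mul_cancel₀ h, map_one]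
  · intro h0
    have ha : P.a = 0 := by rw [← Cubic.coeff_eq_a]; exact coeff_eq_zero_of_natDegree_lt (by omega)
    have hb : P.b = 0 := by rw [← Cubic.coeff_eq_b]; exact coeff_eq_zero_of_natDegree_lt (by omega)
    exact h (by simp [Cubic.discr, ha, hb])

lemma cubic_natDegree_le (P : Cubic R) : P.toPoly.natDegree ≤ 3 := by
  exact natDegree_cubic_le

/-- If `cA = 0` and `cB ≠ 0` then `432 = 0`, so `2 = 0` or `3 = 0`, and `cub.c = -b₂^3 cB`.
If `cA ≠ 0` then `2 = 0`, `cub.b = b₂^2 cA^2`, `b₂ = m^2`, `cA = l^2`, and `cub.d = a₃^4` when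
`m = 0`. -/
theorem cases_of_cub_eq_zero {κ : Type*} [Field κ] {f : Model κ} (h : f.cub.toPoly = 0) :
    (f.cA = 0 ∧ f.cB = 0) ∨ (f.cA = 0 ∧ f.m ^ 2 + 4 * (f.c - f.l * f.n) = 0) ∨
      (f.m = 0 ∧ f.l ≠ 0 ∧ f.l * f.d + f.n * f.b = 0) := by
  rw [Cubic.toPoly_eq_zero_iff] at h
  have ha : 64 * f.cA ^ 3 = 0 := congrArg Cubic.a h
  have hb : f.W0.b₂ ^ 2 * f.cA ^ 2 - 96 * f.cA ^ 2 * f.W0.b₄ - 432 * f.cB ^ 2
      - 72 * f.W0.b₂ * f.cA * f.cB = 0 := congrArg Cubic.b h
  have hc : -f.W0.b₂ ^ 3 * f.cB - f.W0.b₂ ^ 2 * f.cA * f.W0.b₄ + 48 * f.cA * f.W0.b₄ ^ 2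
      - 216 * f.W0.b₆ * f.cB + 36 * f.W0.b₂ * f.W0.b₄ * f.cB
      - 18 * f.cA * f.W0.b₂ * f.W0.b₆ = 0 := congrArg Cubic.c h
  have hd : -f.W0.b₂ ^ 2 * f.W0.b₈ - 8 * f.W0.b₄ ^ 3 - 27 * f.W0.b₆ ^ 2
      + 9 * f.W0.b₂ * f.W0.b₄ * f.W0.b₆ = 0 := congrArg Cubic.d h
  have e2 : f.W0.b₂ = f.m ^ 2 + 4 * (f.c - f.l * f.n) := rfl
  have e6 : f.W0.b₆ = (f.l * f.d + f.n * f.b) ^ 2 + 4 * f.W0.a₆ := rfl
  by_cases hA : f.cA = 0
  · by_cases hB : f.cB = 0
    · exact Or.inl ⟨hA, hB⟩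
    · refine Or.inr (Or.inl ⟨hA, ?_⟩)
      rw [hA] at hb hc
      have h1 : (432 : κ) * f.cB ^ 2 = 0 := by linear_combination -hb
      have h2 : (432 : κ) = 0 := (mul_eq_zero.1 h1).resolve_right (pow_ne_zero 2 hB)
      have h3 : (6 : κ) = 0 := pow_eq_zero_iff (n := 4) (by norm_num) |>.1
        (by linear_combination 3 * h2)
      have h4 : f.W0.b₂ ^ 3 * f.cB = 0 := by
        linear_combination -hc + (6 * f.W0.b₂ * f.W0.b₄ * f.cB - 36 * f.W0.b₆ * f.cB) * h3
      rw [← e2]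
      exact pow_eq_zero_iff (n := 3) (by norm_num) |>.1 ((mul_eq_zero.1 h4).resolve_right hB)
  · have h1 : (64 : κ) = 0 := (mul_eq_zero.1 ha).resolve_right (pow_ne_zero 3 hA)
    have h2 : (2 : κ) = 0 := pow_eq_zero_iff (n := 6) (by norm_num) |>.1
      (by linear_combination h1)
    have h3 : f.W0.b₂ ^ 2 * f.cA ^ 2 = 0 := by
      linear_combination hb + (48 * f.cA ^ 2 * f.W0.b₄ + 216 * f.cB ^ 2
        + 36 * f.W0.b₂ * f.cA * f.cB) * h2
    have h4 : f.W0.b₂ = 0 := pow_eq_zero_iff (n := 2) (by norm_num) |>.1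
      ((mul_eq_zero.1 h3).resolve_right (pow_ne_zero 2 hA))
    have h5 : f.W0.b₆ = 0 := pow_eq_zero_iff (n := 2) (by norm_num) |>.1 (by
      rw [h4] at hd
      linear_combination hd + (4 * f.W0.b₄ ^ 3 + 14 * f.W0.b₆ ^ 2) * h2)
    refine Or.inr (Or.inr ⟨pow_eq_zero_iff (n := 2) (by norm_num) |>.1 ?_, fun hl => hA ?_,
      pow_eq_zero_iff (n := 2) (by norm_num) |>.1 ?_⟩)
    · linear_combination h4 - e2 - 2 * (f.c - f.l * f.n) * h2
    · rw [Model.cA, hl]
      linear_combination 2 * f.a * h2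
    · linear_combination h5 - e6 - 2 * f.W0.a₆ * h2

end Ring

variable (k : Type u) [Field k]

/-- the generic model -/
noncomputable def genV : Model (MvPolynomial (Fin 8) k) := Model.equivVec.symm MvPolynomial.X

/-- the generic Weierstrass equation -/
noncomputable def genW : WeierstrassCurve (MvPolynomial (Fin 5) k) := wEquivVec.symm MvPolynomial.X

variable {k}
variable {A : Type*} [CommRing A] [Algebra k A]

lemma genV_map (x : Fin 8 → A) :
    (genV k).map (MvPolynomial.aeval x : MvPolynomial (Fin 8) k →ₐ[k] A).toRingHom =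
      Model.equivVec.symm x := by
  rw [genV, Model.equivVec_symm_map]
  simp

lemma genW_map (x : Fin 5 → A) :
    (genW k).map (MvPolynomial.aeval x : MvPolynomial (Fin 5) k →ₐ[k] A).toRingHom =
      wEquivVec.symm x := by
  rw [genW, wEquivVec_symm_map]
  simp

lemma aeval_genV_Delta (x : Fin 8 → A) :
    MvPolynomial.aeval x (genV k).jac.Δ = (Model.equivVec.symm x).jac.Δ := by
  rw [← genV_map (k := k) x, Model.jac_map, map_Δ]
  rfl

lemma aeval_genV_c46 (x : Fin 8 → A) :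
    MvPolynomial.aeval x ((genV k).jac.c₄ * (genV k).jac.c₆) =
      (Model.equivVec.symm x).jac.c₄ * (Model.equivVec.symm x).jac.c₆ := by
  rw [← genV_map (k := k) x, Model.jac_map, map_c₄, map_c₆, map_mul]
  rfl

lemma aeval_genV_discr (x : Fin 8 → A) :
    MvPolynomial.aeval x (genV k).cub.discr = (Model.equivVec.symm x).cub.discr := by
  rw [← genV_map (k := k) x, Model.cub_map, cubic_discr_map]
  rfl

lemma aeval_genV_cA (x : Fin 8 → A) :
    MvPolynomial.aeval x (genV k).cA = (Model.equivVec.symm x).cA := by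
  rw [← genV_map (k := k) x, Model.cA_map]
  rfl

lemma aeval_genW_Delta (x : Fin 5 → A) :
    MvPolynomial.aeval x (genW k).Δ = (wEquivVec.symm x).Δ := by
  rw [← genW_map (k := k) x, map_Δ]
  rfl

lemma aeval_genW_c46 (x : Fin 5 → A) :
    MvPolynomial.aeval x ((genW k).c₄ * (genW k).c₆) =
      (wEquivVec.symm x).c₄ * (wEquivVec.symm x).c₆ := by
  rw [← genW_map (k := k) x, map_c₄, map_c₆, map_mul]
  rfl

variable (k)

/-- evaluate at the coefficients of `WeierstrassCurve.ofJ 0` -/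
lemma genW_Delta_ne_zero : (genW k).Δ ≠ 0 := by
  intro h
  have h1 := aeval_genW_Delta (k := k) (wEquivVec (ofJ (0 : k)))
  rw [h, map_zero, Equiv.symm_apply_apply] at h1
  exact (ofJ (0 : k)).isUnit_Δ.ne_zero h1.symm

lemma tailAlg_c46 : (⟨1, 0, 0, 0, 0⟩ : WeierstrassCurve k).c₄ *
    (⟨1, 0, 0, 0, 0⟩ : WeierstrassCurve k).c₆ ≠ 0 := by
  simp [c₄, c₆, b₂, b₄, b₆]

lemma tailAlg_jac (W : WeierstrassCurve k) : (zO W).f.jac = W := by
  have h := zO_over W
  rwa [Obj.Over, show (zO W).γ = 1 from rfl, one_smul] at h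

/-- evaluate at `(1, 0, 0, 0, 0)` -/
lemma genW_c46_ne_zero : (genW k).c₄ * (genW k).c₆ ≠ 0 := by
  intro h
  have h1 := aeval_genW_c46 (k := k) (wEquivVec (⟨1, 0, 0, 0, 0⟩ : WeierstrassCurve k))
  rw [h, map_zero, Equiv.symm_apply_apply] at h1
  exact tailAlg_c46 k h1.symm

/-- evaluate at `(zO W).f` (`zO_over`) -/
lemma genV_Delta_ne_zero : (genV k).jac.Δ ≠ 0 := by
  intro h
  have h1 := aeval_genV_Delta (k := k) (Model.equivVec (zO (ofJ (0 : k))).f)
  rw [h, map_zero, Equiv.symm_apply_apply, tailAlg_jac] at h1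
  exact (ofJ (0 : k)).isUnit_Δ.ne_zero h1.symm

lemma genV_c46_ne_zero : (genV k).jac.c₄ * (genV k).jac.c₆ ≠ 0 := by
  intro h
  have h1 := aeval_genV_c46 (k := k)
    (Model.equivVec (zO (⟨1, 0, 0, 0, 0⟩ : WeierstrassCurve k)).f)
  rw [h, map_zero, Equiv.symm_apply_apply, tailAlg_jac] at h1
  exact tailAlg_c46 k h1.symm

/-- the value at `(l, m, n, a, b, c, d) = (1, 1, 0, 1, 0, 0, 0)` is `-31^3` (the cubic is
`(8000, -47, 1, 0)`) and the value at `(1, 1, 0, -1, 0, 0, 0)` is `33^3` (the cubic is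
`(-1728, -207, -1, 0)`); `31` and `33` are coprime -/
lemma genV_discr_ne_zero : (genV k).cub.discr ≠ 0 := by
  intro h
  have h1 := aeval_genV_discr (k := k) (Model.equivVec (⟨1, 1, 0, 1, 0, 0, 0, 0⟩ : Model k))
  have h2 := aeval_genV_discr (k := k) (Model.equivVec (⟨1, 1, 0, -1, 0, 0, 0, 0⟩ : Model k))
  rw [h, map_zero, Equiv.symm_apply_apply] at h1 h2
  have h3 : (⟨1, 1, 0, 1, 0, 0, 0, 0⟩ : Model k).cub.discr = -31 ^ 3 := by
    simp only [Cubic.discr, Model.cub, Model.cA, Model.cB, Model.W0, Model.jac, Δ, b₂, b₄, b₆, b₈]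
    ring
  have h4 : (⟨1, 1, 0, -1, 0, 0, 0, 0⟩ : Model k).cub.discr = 33 ^ 3 := by
    simp only [Cubic.discr, Model.cub, Model.cA, Model.cB, Model.W0, Model.jac, Δ, b₂, b₄, b₆, b₈]
    ring
  have h5 : (31 : k) = 0 := pow_eq_zero_iff (n := 3) (by norm_num) |>.1
    (neg_eq_zero.1 (h3 ▸ h1.symm))
  have h6 : (33 : k) = 0 := pow_eq_zero_iff (n := 3) (by norm_num) |>.1 (h4 ▸ h2.symm)
  exact one_ne_zero (α := k) (by linear_combination 16 * h5 - 15 * h6)

lemma genV_cA_ne_zero : (genV k).cA ≠ 0 := by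
  intro h
  have h1 := aeval_genV_cA (k := k) (Model.equivVec (⟨1, 0, 0, 0, 0, 0, 0, 0⟩ : Model k))
  rw [h, map_zero, Equiv.symm_apply_apply] at h1
  simp [Model.cA] at h1

/-- `natDegree_aeval_le` for the four coefficients -/
lemma exists_natDegree_cub_le [Finite k] : ∃ c : ℕ, ∀ (x : Fin 8 → k[X]) (B : ℕ),
    (∀ i, (x i).natDegree ≤ B) →
      ∀ j, ((Model.equivVec.symm x).cub.toPoly.coeff j).natDegree ≤ c * B := by
  refine ⟨(Finset.range 4).sup fun j => ((genV k).cub.toPoly.coeff j).totalDegree,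
    fun x B hx j => ?_⟩
  rcases lt_or_ge j 4 with hj | hj
  · rw [← genV_map (k := k) x, Model.cub_map, Cubic.map_toPoly, coeff_map]
    refine (natDegree_aeval_le _ hx).trans (Nat.mul_le_mul_right _ ?_)
    exact Finset.le_sup (f := fun j => ((genV k).cub.toPoly.coeff j).totalDegree)
      (Finset.mem_range.2 hj)
  · rw [Cubic.coeff_eq_zero hj, natDegree_zero]
    exact Nat.zero_le _

end SelAvg

/-!
The density of models whose discriminant is divisible by the square of a given prime.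
-/

namespace SelAvg

open WeierstrassCurve Polynomial
open scoped Classical

universe u

lemma tailMed_sqrt {κ : Type*} [Field κ] [Finite κ] (h2 : (2 : κ) = 0) (a : κ) :
    ∃ x, x ^ 2 = a :=
  Finite.surjective_of_injective (f := fun x : κ => x ^ 2) (fun x y (h : x ^ 2 = y ^ 2) =>
    sub_eq_zero.1 (pow_eq_zero_iff two_ne_zero |>.1 (by
      linear_combination h + (y ^ 2 - x * y) * h2))) a

lemma tailMed_cbrt {κ : Type*} [Field κ] [Finite κ] (h3 : (3 : κ) = 0) (a : κ) :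
    ∃ x, x ^ 3 = a :=
  Finite.surjective_of_injective (f := fun x : κ => x ^ 3) (fun x y (h : x ^ 3 = y ^ 3) =>
    sub_eq_zero.1 (pow_eq_zero_iff three_ne_zero |>.1 (by
      linear_combination h - x * y * (x - y) * h3))) a

/-- a cubic with vanishing discriminant has a rational double root -/
lemma tailMed_cubic {κ : Type*} [Field κ] [Finite κ] (h2 : (2 : κ) ≠ 0) (a b c : κ)
    (h : -a ^ 2 * (a * c - b ^ 2) - 32 * b ^ 3 - 108 * c ^ 2 + 36 * a * b * c = 0) :
    ∃ x, 4 * x ^ 3 + a * x ^ 2 + 2 * b * x + c = 0 ∧ 6 * x ^ 2 + a * x + b = 0 := by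
  by_cases hc : a ^ 2 - 24 * b = 0
  · by_cases h3 : (3 : κ) = 0
    · have ha : a = 0 := pow_eq_zero_iff two_ne_zero |>.1 (by linear_combination hc + 8 * b * h3)
      subst ha
      have hb : b = 0 := pow_eq_zero_iff three_ne_zero |>.1 (by
        linear_combination h + (11 * b ^ 3 + 36 * c ^ 2) * h3)
      subst hb
      obtain ⟨x, hx⟩ := tailMed_cbrt h3 (-c)
      exact ⟨x, by linear_combination hx + x ^ 3 * h3, by linear_combination 2 * x ^ 2 * h3⟩
    · have h6 : -a ^ 3 + 36 * a * b - 216 * c = 0 := pow_eq_zero_iff two_ne_zero |>.1 (by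
        linear_combination (a ^ 2 - 24 * b) ^ 2 * hc - 432 * h)
      have h12 : (2 : κ) ^ 2 * 3 ≠ 0 := mul_ne_zero (pow_ne_zero 2 h2) h3
      obtain ⟨x, hx⟩ : ∃ x, 2 ^ 2 * 3 * x = -a := ⟨_ / _, mul_div_cancel₀ _ h12⟩
      obtain rfl : a = -(12 * x) := by linear_combination hx
      refine ⟨x, mul_left_cancel₀ (pow_ne_zero 3 (mul_ne_zero h2 h3)) ?_,
        mul_left_cancel₀ (mul_ne_zero h2 h12) ?_⟩
      · linear_combination -h6
      · linear_combination -hc
  · obtain ⟨x, hx⟩ : ∃ x, (a ^ 2 - 24 * b) * x = 18 * c - a * b := ⟨_ / _, mul_div_cancel₀ _ hc⟩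
    refine ⟨x, mul_left_cancel₀ (pow_ne_zero 3 hc) ?_, mul_left_cancel₀ (pow_ne_zero 2 hc) ?_⟩
    · have e : ∀ u : κ, u ^ 3 * (4 * x ^ 3 + a * x ^ 2 + 2 * b * x + c) =
          4 * (u * x) ^ 3 + a * u * (u * x) ^ 2 + 2 * b * u ^ 2 * (u * x) + c * u ^ 3 :=
        fun u => by ring
      rw [e, hx]
      linear_combination (-a ^ 3 + 36 * a * b - 216 * c) * h
    · have e : ∀ u : κ, u ^ 2 * (6 * x ^ 2 + a * x + b) =
          6 * (u * x) ^ 2 + a * u * (u * x) + b * u ^ 2 := fun u => by ring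
      rw [e, hx]
      linear_combination -18 * h

lemma tailMed_wsh_Delta {R : Type*} [CommRing R] (W : WeierstrassCurve R) (x y : R) :
    (wsh x 0 y • W).Δ = W.Δ := by
  rw [variableChange_Δ]
  simp [wsh]

lemma tailMed_Delta_zero {R : Type*} [CommRing R] {W : WeierstrassCurve R} (h3 : W.a₃ = 0)
    (h4 : W.a₄ = 0) : W.Δ = -W.b₂ ^ 3 * W.a₆ - 432 * W.a₆ ^ 2 := by
  rw [Δ, b₂, b₄, b₆, b₈, h3, h4]
  ring

/-- A singular equation over a finite field has a rational singular point.  If `2 = 0`: for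
`a₁ ≠ 0` take `x = a₃ / a₁`, `y = (x^2 + a₄) / a₁`; then after translation `a₃ = a₄ = 0` and
`Δ = -b₂^3 a₆ - 432 a₆^2 = a₁^6 a₆`; for `a₁ = 0`, `Δ = a₃^4`, take square roots (Frobenius is
surjective).  If `2 ≠ 0` it suffices to find `x` with `h(x) = h'(x) = 0` for
`h = 4x^3 + b₂x^2 + 2b₄x + b₆` (then `y = -(a₁x + a₃) / 2`): if `c₄ ≠ 0` take
`x = (18 b₆ - b₂ b₄) / c₄`; if `c₄ = 0` and `3 = 0` then `b₂ = 0`, `b₄ = 0`, take a cube root of
`-b₆ / 4`; otherwise `c₆ = 0` (`c_relation`) and `x = -b₂ / 12`. -/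
theorem exists_sing {κ : Type*} [Field κ] [Finite κ] {W : WeierstrassCurve κ} (h : W.Δ = 0) :
    ∃ x y, wF W x y = 0 ∧ dX W x y = 0 ∧ dY W x y = 0 := by
  by_cases h2 : (2 : κ) = 0
  · by_cases h1 : W.a₁ = 0
    · have e2 : W.b₂ = 0 := by
        rw [b₂, h1]
        linear_combination 2 * W.a₂ * h2
      have e4 : W.b₄ = 0 := by
        rw [b₄, h1]
        linear_combination W.a₄ * h2
      have e6 : W.b₆ = W.a₃ ^ 2 := by
        rw [b₆]
        linear_combination 2 * W.a₆ * h2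
      rw [Δ, e2, e4, e6] at h
      have h3 : W.a₃ = 0 := pow_eq_zero_iff (four_ne_zero) |>.1 (by
        linear_combination -h - 13 * W.a₃ ^ 4 * h2)
      obtain ⟨x, hx⟩ := tailMed_sqrt h2 W.a₄
      obtain ⟨y, hy⟩ := tailMed_sqrt h2 (x ^ 3 + W.a₂ * x ^ 2 + W.a₄ * x + W.a₆)
      refine ⟨x, y, ?_, ?_, ?_⟩
      · rw [wF, h1, h3]
        linear_combination hy
      · rw [dX, h1]
        linear_combination -3 * hx - (W.a₂ * x + 2 * W.a₄) * h2
      · rw [dY, h1, h3]
        linear_combination y * h2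
    · obtain ⟨x, hx⟩ : ∃ x, W.a₁ * x = W.a₃ := ⟨W.a₃ / W.a₁, mul_div_cancel₀ _ h1⟩
      obtain ⟨y, hy⟩ : ∃ y, W.a₁ * y = x ^ 2 + W.a₄ := ⟨_ / W.a₁, mul_div_cancel₀ _ h1⟩
      have hX : dX W x y = 0 := by
        rw [dX]
        linear_combination hy - (x ^ 2 + W.a₂ * x) * h2
      have hY : dY W x y = 0 := by
        rw [dY]
        linear_combination hx + (y + W.a₃) * h2
      refine ⟨x, y, ?_, hX, hY⟩
      have e := tailMed_Delta_zero (W := wsh x 0 y • W) (by rw [wsh_a₃, hY])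
        (by rw [wsh_a₄, hX, neg_zero])
      have e1 : (wsh x 0 y • W).a₁ = W.a₁ := by simp [wsh, variableChange_def]
      have e2 : (wsh x 0 y • W).b₂ = W.a₁ ^ 2 := by
        rw [b₂, e1]
        linear_combination 2 * (wsh x 0 y • W).a₂ * h2
      rw [tailMed_wsh_Delta, h, wsh_a₆, e2] at e
      refine (mul_eq_zero.1 (?_ : W.a₁ ^ 6 * wF W x y = 0)).resolve_left (pow_ne_zero 6 h1)
      linear_combination -e + 216 * wF W x y ^ 2 * h2
  · obtain ⟨x, h3, h4⟩ := tailMed_cubic h2 W.b₂ W.b₄ W.b₆ (by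
      rw [Δ] at h
      linear_combination 4 * h + W.b₂ ^ 2 * W.b_relation)
    obtain ⟨y, hy⟩ : ∃ y, 2 * y = -(W.a₁ * x + W.a₃) := ⟨_ / 2, mul_div_cancel₀ _ h2⟩
    rw [b₂, b₄] at h3 h4
    rw [b₆] at h3
    refine ⟨x, y, mul_left_cancel₀ (pow_ne_zero 2 h2) ?_, mul_left_cancel₀ h2 ?_, ?_⟩
    · rw [wF]
      linear_combination (2 * y + W.a₁ * x + W.a₃) * hy - h3
    · rw [dX]
      linear_combination W.a₁ * hy - h4
    · rw [dY]
      linear_combination hy

section Ring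

variable {R κ : Type*} [CommRing R] [Field κ] [Fintype R] [Fintype κ] {θ : R →+* κ}

/-- if `a₃, a₄, a₆` lie in the maximal ideal, whose square is zero, then `Δ = -b₂^3 a₆` -/
lemma Delta_eq_of_sq_zero (h2 : ∀ x y : R, θ x = 0 → θ y = 0 → x * y = 0)
    {W : WeierstrassCurve R} (h3 : θ W.a₃ = 0) (h4 : θ W.a₄ = 0) (h6 : θ W.a₆ = 0) :
    W.Δ = -W.b₂ ^ 3 * W.a₆ := by
  have hb4 : θ W.b₄ = 0 := by simp [b₄, h3, h4]
  have hb6 : θ W.b₆ = 0 := by simp [b₆, h3, h6]
  have hb : W.b₂ = W.a₁ ^ 2 + 4 * W.a₂ := rfl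
  rw [Δ, b₈]
  linear_combination W.b₂ ^ 2 * W.a₁ * h2 _ _ h3 h4 - W.b₂ ^ 2 * W.a₂ * h2 _ _ h3 h3 +
    W.b₂ ^ 2 * h2 _ _ h4 h4 - 8 * W.b₄ * h2 _ _ hb4 hb4 - 27 * h2 _ _ hb6 hb6 +
    9 * W.b₂ * h2 _ _ hb4 hb6 + W.b₂ ^ 2 * W.a₆ * hb

lemma tailMed_count (S : R → Finset R) (T₃ T₄ T₆ : Finset R) {m : ℕ} (hS : ∀ a, (S a).card ≤ m) :
    (Finset.univ.filter fun W : WeierstrassCurve R =>
      W.a₁ ∈ S W.a₂ ∧ W.a₃ ∈ T₃ ∧ W.a₄ ∈ T₄ ∧ W.a₆ ∈ T₆).card ≤
      m * (Fintype.card R * (T₃.card * (T₄.card * T₆.card))) := by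
  rw [← Finset.card_univ, ← Finset.card_product, ← Finset.card_product, ← Finset.card_product]
  refine Finset.card_le_mul_card_image_of_maps_to (f := fun W => (W.a₂, W.a₃, W.a₄, W.a₆))
    (fun W hW => ?_) m fun b _ => ?_
  · simpa using (Finset.mem_filter.1 hW).2.2
  · refine le_trans (Finset.card_le_card_of_injOn (fun W => W.a₁) (fun W hW => ?_)
      fun W hW W' hW' e => ?_) (hS b.1)
    · rw [Finset.mem_coe, Finset.mem_filter, Finset.mem_filter] at hW
      rw [← hW.2]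
      exact hW.1.2.1
    · have e' := (Finset.mem_filter.1 hW).2.trans (Finset.mem_filter.1 hW').2.symm
      simp only [Prod.mk.injEq] at e'
      exact WeierstrassCurve.ext e e'.1 e'.2.1 e'.2.2.1 e'.2.2.2

lemma tailMed_quad (h : IsResidue θ) (a : R) :
    (Finset.univ.filter fun x => θ (x ^ 2 + 4 * a) = 0).card ≤
      (Finset.univ.filter fun x : R => θ x = 0).card * 2 := by
  refine (Finset.card_le_mul_card_image_of_maps_to (f := θ)
    (t := Finset.univ.filter fun y : κ => y ^ 2 + 0 * y + θ (4 * a) = 0) (fun x hx => ?_) _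
    fun y _ => ?_).trans (Nat.mul_le_mul_left _
      (count_quad 0 (θ (4 * a)) _ fun y hy => (Finset.mem_filter.1 hy).2))
  · refine Finset.mem_filter.2 ⟨Finset.mem_univ _, ?_⟩
    rw [zero_mul, add_zero, ← map_pow, ← map_add]
    exact (Finset.mem_filter.1 hx).2
  · obtain ⟨b, rfl⟩ := h.surj y
    refine Finset.card_le_card_of_injOn (fun x => x - b) (fun x hx => ?_)
      fun x _ x' _ e => sub_left_inj.1 e
    refine Finset.mem_coe.2 (Finset.mem_filter.2 ⟨Finset.mem_univ _, ?_⟩)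
    rw [map_sub, (Finset.mem_filter.1 hx).2, sub_self]

/-- Fix a section `σ` of `θ`.  Every `W` with `Δ = 0` is `(wsh (σ x) 0 (σ y))⁻¹ • W'` with
`θ a₃ = θ a₄ = 0` and either `a₆ = 0`, or `θ a₆ = 0` and `θ b₂ = 0` (`exists_sing`, `wsh_a₃`,
`wsh_a₄`, `wsh_a₆`).  With `q = card κ`, `card R = q^2`, the kernel of `θ` has `q` elements
(`IsResidue.card_ker`); there are at most `q^4 q^2 + (2 q^3) q^3` such `W'` (for each `a₂` the
residue of `a₁` is a root of a quadratic). -/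
theorem dens_W_Delta_le (h : IsResidue θ) (h2 : ∀ x y : R, θ x = 0 → θ y = 0 → x * y = 0)
    (hR : Fintype.card R = Fintype.card κ ^ 2) :
    dens Finset.univ (fun W : WeierstrassCurve R => W.Δ = 0) ≤ 3 / (Fintype.card κ : ℝ) ^ 2 := by
  have hq : 0 < Fintype.card κ := Fintype.card_pos
  set K : Finset R := Finset.univ.filter fun x => θ x = 0 with hK
  have hKc : K.card = Fintype.card κ := by
    have h1 := h.card_ker
    rw [hR, sq] at h1
    exact Nat.eq_of_mul_eq_mul_right hq h1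
  have hA := tailMed_count (fun _ : R => Finset.univ) K K {0} (m := Fintype.card R)
    fun _ => le_rfl
  have hB := tailMed_count (fun a : R => Finset.univ.filter fun x => θ (x ^ 2 + 4 * a) = 0) K K K
    (m := K.card * 2) fun a => tailMed_quad h a
  set A := Finset.univ.filter fun W : WeierstrassCurve R =>
    W.a₁ ∈ Finset.univ ∧ W.a₃ ∈ K ∧ W.a₄ ∈ K ∧ W.a₆ ∈ ({0} : Finset R) with hAd
  set B := Finset.univ.filter fun W : WeierstrassCurve R =>
    W.a₁ ∈ (Finset.univ.filter fun x => θ (x ^ 2 + 4 * W.a₂) = 0) ∧ W.a₃ ∈ K ∧ W.a₄ ∈ K ∧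
      W.a₆ ∈ K with hBd
  have h1 : (Finset.univ.filter fun W : WeierstrassCurve R => W.Δ = 0).card ≤
      ((Finset.univ : Finset (κ × κ)) ×ˢ (A ∪ B)).card := by
    refine Finset.card_le_card_of_surjOn (fun z => (wsh (Function.surjInv h.surj z.1.1) 0
      (Function.surjInv h.surj z.1.2))⁻¹ • z.2) fun W hW => ?_
    have hW0 : W.Δ = 0 := (Finset.mem_filter.1 hW).2
    obtain ⟨x, y, e6, e4, e3⟩ := exists_sing (W := W.map θ) (by rw [map_Δ, hW0, map_zero])
    have ex := Function.surjInv_eq h.surj x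
    have ey := Function.surjInv_eq h.surj y
    refine ⟨((x, y), wsh (Function.surjInv h.surj x) 0 (Function.surjInv h.surj y) • W), ?_,
      inv_smul_smul _ _⟩
    generalize Function.surjInv h.surj x = u at ex ⊢
    generalize Function.surjInv h.surj y = v at ey ⊢
    subst ex ey
    have f3 : θ (wsh u 0 v • W).a₃ = 0 := by
      rw [wsh_a₃, ← e3]
      simp [dY, map_ofNat]
    have f4 : θ (wsh u 0 v • W).a₄ = 0 := by
      rw [wsh_a₄, map_neg, neg_eq_zero, ← e4]
      simp [dX, map_ofNat]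
    have f6 : θ (wsh u 0 v • W).a₆ = 0 := by
      rw [wsh_a₆, map_neg, neg_eq_zero, ← e6]
      simp [wF]
    have f := Delta_eq_of_sq_zero h2 f3 f4 f6
    rw [tailMed_wsh_Delta, hW0, neg_mul, eq_comm, neg_eq_zero] at f
    generalize wsh u 0 v • W = W' at f3 f4 f6 f ⊢
    rw [Finset.mem_coe, Finset.mem_product, Finset.mem_union]
    refine ⟨Finset.mem_univ _, ?_⟩
    simp only [hAd, hBd, hK, Finset.mem_filter, Finset.mem_univ, true_and, Finset.mem_singleton]
    by_cases hb : θ W'.b₂ = 0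
    · exact Or.inr ⟨hb, f3, f4, f6⟩
    · exact Or.inl ⟨f3, f4, (((h.unit _).2 hb).pow 3).mul_right_eq_zero.1 f⟩
  rw [Finset.card_product, Finset.card_univ, Fintype.card_prod] at h1
  rw [hKc, hR] at hA hB
  rw [Finset.card_singleton] at hA
  have h3 := h1.trans (Nat.mul_le_mul_left _ ((Finset.card_union_le A B).trans (add_le_add hA hB)))
  refine dens_le_of_card_le ((Nat.cast_le.2 h3).trans_eq ?_) (by positivity)
  rw [Finset.card_univ, card_W, hR]
  have hq' : (Fintype.card κ : ℝ) ≠ 0 := Nat.cast_ne_zero.2 hq.ne'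
  push_cast
  field_simp
  ring

end Ring

variable {k : Type u} [Field k] [Finite k]

/-- Apply `mass` to `ψ W = ind (W.Δ ≠ 0)`, with `phiR_theta_le_one` and `dens_W_Delta_le`:
the density of `Δ ≠ 0` is at least `(1 - 1 / Q^2) (1 - 3 / Q^2)`. -/
theorem dens_V_Delta_le (w : Option (Irr k)) :
    dens Finset.univ (fun f : Model (AdjoinRoot (pol w ^ (2 * (0 + 1)))) => f.jac.Δ = 0) ≤
      4 / ((Nat.card k : ℝ) ^ (pol w).natDegree) ^ 2 := by
  have h1 := dens_W_Delta_le (theta_isResidue w 0) (fun x y hx hy => by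
    obtain ⟨a, rfl⟩ := AdjoinRoot.mk_surjective x
    obtain ⟨b, rfl⟩ := AdjoinRoot.mk_surjective y
    rw [theta_mk, AdjoinRoot.mk_eq_zero] at hx hy
    rw [← map_mul, AdjoinRoot.mk_eq_zero]
    exact (sq (pol w)).dvd.trans (mul_dvd_mul hx hy)) (by
    rw [card_adjoinRoot_pol, ← Nat.card_eq_fintype_card, card_adjoinRoot ((pol_monic w).pow _),
      natDegree_pow, ← pow_mul, mul_comm])
  have h2 := mass (theta_isResidue w 0) (fun W => ind (¬W.Δ = 0)) fun C W => by
    rw [variableChange_Δ, ((C.u⁻¹).isUnit.pow 12).mul_right_eq_zero]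
  rw [← dens_eq_avg, dens_not Finset.univ_nonempty] at h2
  have h3 : avg Finset.univ (fun f : Model (AdjoinRoot (pol w ^ (2 * (0 + 1)))) =>
      phiR (theta w 0) f * ind (¬f.jac.Δ = 0)) ≤
      dens Finset.univ fun f : Model (AdjoinRoot (pol w ^ (2 * (0 + 1)))) => ¬f.jac.Δ = 0 := by
    rw [dens_eq_avg]
    refine avg_mono fun f _ => ?_
    by_cases hf : f.jac.Δ = 0
    · rw [ind_neg (not_not.2 hf), mul_zero]
    · rw [ind_pos hf, mul_one]
      exact phiR_theta_le_one w 0 hf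
  rw [h2, dens_not ⟨Model.equivVec.symm 0, Finset.mem_univ _⟩] at h3
  have h4 : (1 : ℝ) ≤ (Fintype.card (AdjoinRoot (pol w)) : ℝ) ^ 2 :=
    one_le_pow₀ (Nat.one_le_cast.2 Fintype.card_pos)
  rw [card_adjoinRoot_pol, Nat.cast_pow] at h1 h3 h4
  have h5 := (div_le_one (zero_lt_one.trans_le h4)).2 h4
  have h6 := one_div_pos.2 (zero_lt_one.trans_le h4)
  rw [div_eq_mul_one_div] at h1 ⊢
  nlinarith [mul_le_mul_of_nonneg_left h1 (sub_nonneg.2 h5)]

/-- `equidist_one`, `avg_equiv` with `Model.equivVec` -/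
theorem dens_VBox_sq_dvd_le {d n : ℕ} (hn : n ≤ d) (p : Irr k)
    (hp : 2 * p.1.natDegree ≤ d - n + 1) :
    dens (VBox k d n) (fun f => p.1 ^ 2 ∣ f.jac.Δ) ≤
      4 / ((Nat.card k : ℝ) ^ p.1.natDegree) ^ 2 := by
  have h1 := equidist_one (DV d n) (some p) (2 * (0 + 1)) (fun i => by
    change 2 * p.1.natDegree ≤ _
    fin_cases i <;> simp [DV] <;> omega) fun y => (Model.equivVec.symm y).jac.Δ = 0
  have h2 := avg_equiv Model.equivVec.symm
    fun f : Model (AdjoinRoot (pol (some p) ^ (2 * (0 + 1)))) => ind (f.jac.Δ = 0)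
  rw [← dens_eq_avg, ← dens_eq_avg, ← h1] at h2
  refine le_of_eq_of_le ?_ (h2.trans_le (dens_V_Delta_le (some p)))
  rw [dens_VBox]
  refine dens_congr fun x _ => ?_
  simp only [locp_some]
  rw [← Model.equivVec_symm_map, Model.jac_map, map_Δ, AdjoinRoot.mk_eq_zero]
  rfl

/-- `dens_exists_le`, `sum_irr_le` -/
theorem dens_medium_le {d n : ℕ} (hn : n ≤ d) (N : ℕ) :
    dens (VBox k d n) (fun f => ∃ p : Irr k, N < p.1.natDegree ∧
      p.1.natDegree ≤ (d - n + 1) / 2 ∧ p.1 ^ 2 ∣ f.jac.Δ) ≤ 4 * (1 / 2 : ℝ) ^ N := by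
  have hfin : {p : Irr k | p.1.natDegree ≤ (d - n + 1) / 2}.Finite :=
    (finite_natDegree_le k ((d - n + 1) / 2)).preimage Subtype.val_injective.injOn
  refine (dens_mono (Q := fun f => ∃ p ∈ hfin.toFinset.filter fun p => N < p.1.natDegree,
    p.1 ^ 2 ∣ f.jac.Δ) fun f _ ⟨p, h1, h2, h3⟩ =>
      ⟨p, Finset.mem_filter.2 ⟨hfin.mem_toFinset.2 h2, h1⟩, h3⟩).trans ?_
  refine (dens_exists_le _ _ _).trans ((Finset.sum_le_sum fun p hp => ?_).trans
    ((Finset.mul_sum _ _ _).ge.trans (mul_le_mul_of_nonneg_left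
      (sum_irr_le _ fun p hp => (Finset.mem_filter.1 hp).2) (by norm_num))))
  have h1 : p.1.natDegree ≤ (d - n + 1) / 2 := hfin.mem_toFinset.1 (Finset.mem_filter.1 hp).1
  rw [mul_one_div]
  exact dens_VBox_sq_dvd_le hn p (by omega)

end SelAvg

/-!
The tail estimate for the square-free sieve.
-/

namespace SelAvg

open WeierstrassCurve Polynomial Filter Topology
open scoped Classical

universe u

variable {k : Type u} [Field k] [Finite k]

lemma tail_bounds (d n : ℕ) (i : Fin 8) : d - 2 * n ≤ DV d n i ∧ DV d n i ≤ 2 * d + 2 * n := by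
  fin_cases i <;> simp [DV] <;> omega

lemma tendsto_DV (n : ℕ) (i : Fin 8) : Tendsto (fun d => DV d n i) atTop atTop := by
  exact tendsto_atTop_mono (fun d => (tail_bounds d n i).1) (tendsto_sub_atTop_nat (2 * n))

lemma tendsto_DW (i : Fin 5) : Tendsto (fun d => DW d i) atTop atTop := by
  refine tendsto_atTop_mono (fun d => ?_) tendsto_id
  fin_cases i <;> simp [DW] <;> omega

lemma DV_bounds (d n : ℕ) (i : Fin 8) : d - 2 * n ≤ DV d n i ∧ DV d n i ≤ 2 * d + 2 * n := by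
  exact tail_bounds d n i

lemma tail_quad_ne {R S : Type*} [CommRing R] [CommRing S] [Nontrivial S] (φ : R →+* S)
    (u v : R) : (X ^ 2 + C u * X + C v : R[X]).map φ ≠ 0 := fun h => by
  have h1 := congrArg (fun P => coeff P 2) h
  simp at h1

lemma tail_quad_le {R : Type*} [CommRing R] (u v : R) :
    (X ^ 2 + C u * X + C v : R[X]).natDegree ≤ 2 := by
  compute_degree

lemma tail_lin_ne {R S : Type*} [CommRing R] [CommRing S] (φ : R →+* S) {u : R} (v : R)
    (hu : φ u ≠ 0) : (C u * X + C v : R[X]).map φ ≠ 0 := fun h => by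
  have h1 := congrArg (fun P => coeff P 1) h
  simp [coeff_C] at h1
  exact hu h1

lemma tail_lin_le {R : Type*} [CommRing R] (u v : R) : (C u * X + C v : R[X]).natDegree ≤ 1 := by
  compute_degree

/-- By `cases_of_cub_eq_zero` (for `f.map (AdjoinRoot.mk p)`, `cub_map`) the event is contained in
three events of the form of `ek_tendsto` (with `c = 2 n`): (`F₁ = cA`, coordinate `4`, `Q` monic
quadratic with `Q(b) = cB`), (`F₁ = cA`, coordinate `1`, `Q = X^2 + C (4 (c - l n))`),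
(`F₁ = X 1`, coordinate `6`, `Q = C l * X + C (n b)`). -/
theorem tendsto_cub_zero (n : ℕ) :
    Tendsto (fun d => dens (VBox k d n) fun f => ∃ p : Irr k, (d - n + 1) / 2 < p.1.natDegree ∧
      f.cub.toPoly.map (AdjoinRoot.mk p.1) = 0) atTop (𝓝 0) := by
  have hD₀ : ∀ d, (d - 2 * n) / 2 ≤ (d - n + 1) / 2 := fun d => by omega
  have h1 := ek_tendsto (k := k) (fun d => DV d n) (2 * n) (fun d i => (tail_bounds d n i).1)
    (fun d i => (tail_bounds d n i).2) (fun d => (d - n + 1) / 2) hD₀ 4 (genV_cA_ne_zero k)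
    (fun x a => by rw [aeval_genV_cA, aeval_genV_cA]; rfl)
    (fun x => X ^ 2 + C (x 0 * x 1) * X + C (-(x 0 ^ 2 * x 5 + x 1 ^ 2 * x 3 + 4 * x 3 * x 5)))
    (fun _ _ => rfl) (fun _ => tail_quad_le _ _)
  have h2 := ek_tendsto (k := k) (fun d => DV d n) (2 * n) (fun d i => (tail_bounds d n i).1)
    (fun d i => (tail_bounds d n i).2) (fun d => (d - n + 1) / 2) hD₀ 1 (genV_cA_ne_zero k)
    (fun x a => by rw [aeval_genV_cA, aeval_genV_cA]; rfl)
    (fun x => X ^ 2 + C 0 * X + C (4 * (x 5 - x 0 * x 2)))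
    (fun _ _ => rfl) (fun _ => tail_quad_le _ _)
  have h3 := ek_tendsto (k := k) (fun d => DV d n) (2 * n) (fun d i => (tail_bounds d n i).1)
    (fun d i => (tail_bounds d n i).2) (fun d => (d - n + 1) / 2) hD₀ 6
    (MvPolynomial.X_ne_zero (1 : Fin 8))
    (fun x a => by rw [MvPolynomial.aeval_X, MvPolynomial.aeval_X]; rfl)
    (fun x => C (x 0) * X + C (x 2 * x 4)) (fun _ _ => rfl) (fun _ => tail_lin_le _ _)
  have h4 := h1.add (h2.add h3)
  rw [add_zero, add_zero] at h4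
  refine squeeze_zero (fun d => dens_nonneg _ _) (fun d => ?_) h4
  rw [dens_VBox]
  refine le_trans (dens_mono fun x _ hx => ?_)
    ((dens_or_le _ _ _).trans (add_le_add le_rfl (dens_or_le _ _ _)))
  obtain ⟨p, hp, h0⟩ := hx
  have : Fact (Irreducible p.1) := ⟨p.2.2⟩
  rw [← Cubic.map_toPoly, ← Model.cub_map] at h0
  rcases cases_of_cub_eq_zero h0 with ⟨a1, a2⟩ | ⟨a1, a2⟩ | ⟨a1, a2, a3⟩
  · rw [Model.cA_map, AdjoinRoot.mk_eq_zero] at a1
    rw [Model.cB_map, AdjoinRoot.mk_eq_zero] at a2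
    refine Or.inl ⟨p, hp, by rwa [aeval_genV_cA], tail_quad_ne _ _ _, ?_⟩
    refine a2.trans (dvd_of_eq ?_)
    simp only [Model.cB, Model.equivVec, Equiv.coe_fn_symm_mk, eval_add, eval_mul, eval_pow,
      eval_X, eval_C]
    ring
  · rw [Model.cA_map, AdjoinRoot.mk_eq_zero] at a1
    refine Or.inr (Or.inl ⟨p, hp, by rwa [aeval_genV_cA], tail_quad_ne _ _ _, ?_⟩)
    rw [← AdjoinRoot.mk_eq_zero, ← a2, Model.equivVec_symm_map, eval_add, eval_add, eval_mul,
      eval_pow, eval_X, eval_C, eval_C]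
    simp only [Model.equivVec, Equiv.coe_fn_symm_mk, map_add, map_mul, map_pow, map_sub, map_ofNat,
      zero_mul, add_zero]
  · refine Or.inr (Or.inr ⟨p, hp, ?_, tail_lin_ne _ _ a2, ?_⟩)
    · rw [MvPolynomial.aeval_X, ← AdjoinRoot.mk_eq_zero]
      exact a1
    · rw [← AdjoinRoot.mk_eq_zero, ← a3, Model.equivVec_symm_map]
      simp only [Model.equivVec, Equiv.coe_fn_symm_mk, eval_add, eval_mul, eval_X, eval_C,
        map_add, map_mul]

omit [Finite k] in
lemma tail_sep {x : Fin 8 → k[X]} (h : ¬MvPolynomial.aeval x (genV k).cub.discr = 0) :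
    ((Model.equivVec.symm x).cub.toPoly.map (toK k)).Separable ∧
      ((Model.equivVec.symm x).cub.toPoly.map (toK k)).natDegree ≠ 0 := by
  rw [aeval_genV_discr] at h
  rw [← Cubic.map_toPoly]
  refine cubic_separable ?_
  rw [cubic_discr_map]
  exact fun h0 => h ((map_eq_zero_iff _ (IsFractionRing.injective k[X] (RatFunc k))).1 h0)

omit [Finite k] in
lemma tail_eval (x : Fin 8 → k[X]) (a : k[X]) :
    (Model.equivVec.symm (Function.update x 7 a)).jac.Δ =
      (Model.equivVec.symm x).cub.toPoly.eval a := by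
  rw [← Model.eval_cub, Model.cub_update]
  rfl

lemma tail_char_pos : 0 < ringChar k := Nat.pos_of_ne_zero (CharP.ringChar_ne_zero_of_finite k)

/-- `dens_pi_le` in the coordinate `7` with the bad set `discr = 0` (`dens_aeval_tendsto`,
`genV_discr_ne_zero`), `tail_core`, `cubic_separable`, `exists_natDegree_cub_le`,
`tendsto_lin_mul_pow`. -/
theorem tendsto_large_core (n : ℕ) :
    Tendsto (fun d => dens (VBox k d n) fun f => ∃ p : Irr k, (d - n + 1) / 2 < p.1.natDegree ∧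
      f.cub.toPoly.map (AdjoinRoot.mk p.1) ≠ 0 ∧ p.1 ^ 2 ∣ f.jac.Δ) atTop (𝓝 0) := by
  obtain ⟨c, hc⟩ := exists_natDegree_cub_le k
  have hp := tail_char_pos (k := k)
  have h1 := dens_aeval_tendsto (fun d => DV d n) (tendsto_DV n) (genV_discr_ne_zero k)
  have h2 := tendsto_lin_mul_pow (21 * ringChar k * (2 * c + 2))
    (21 * ringChar k * (2 * c * n + 2 * n + 1))
    (fun d => min ((d - n + 1) / 2) ((DV d n 7 - 1) / ringChar k)) n (2 * ringChar k) (by omega)
    fun d => le_min (Nat.div_le_div (by omega) (by omega) (by omega))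
      (Nat.div_le_div (by change _ ≤ 2 * d + 2 * n - 1; omega) (by omega) hp.ne')
  have h3 := h1.add h2
  rw [add_zero] at h3
  refine squeeze_zero (fun d => dens_nonneg _ _) (fun d => ?_) h3
  rw [dens_VBox]
  refine dens_pi_le _ 7 _ _ (by positivity) fun x hx h => ?_
  simp only [tail_eval, Model.cub_update]
  refine (tail_core (cubic_natDegree_le _) (tail_sep h).1
    (hc x (2 * d + 2 * n) fun i => (mem_piBox.1 hx i).trans (tail_bounds d n i).2) (DV d n 7)
    ((d - n + 1) / 2)).trans_eq ?_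
  have e : ((DV d n 7 : ℕ) : ℝ) = 2 * d + 2 * n := by
    change ((2 * d + 2 * n : ℕ) : ℝ) = _
    push_cast
    ring
  rw [e]
  push_cast
  ring

/-- the tail estimate -/
theorem tail_le (n N : ℕ) {ε : ℝ} (hε : 0 < ε) :
    ∀ᶠ d in atTop, dens (VBox k d n) (fun f => ∃ p : Irr k, N < p.1.natDegree ∧
      p.1 ^ 2 ∣ f.jac.Δ) ≤ 4 * (1 / 2 : ℝ) ^ N + ε := by
  have h1 := (tendsto_cub_zero (k := k) n).add (tendsto_large_core (k := k) n)
  rw [add_zero] at h1
  filter_upwards [h1.eventually (ge_mem_nhds hε), eventually_ge_atTop n] with d hd hn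
  refine le_trans (dens_mono fun f _ hf => ?_) ((dens_or_le _ _ _).trans
    (add_le_add (dens_medium_le hn N) ((dens_or_le _ _ _).trans hd)))
  obtain ⟨p, hp, h2⟩ := hf
  rcases le_or_gt p.1.natDegree ((d - n + 1) / 2) with h3 | h3
  · exact Or.inl ⟨p, hp, h3, h2⟩
  · by_cases h4 : f.cub.toPoly.map (AdjoinRoot.mk p.1) = 0
    · exact Or.inr (Or.inl ⟨p, h3, h4⟩)
    · exact Or.inr (Or.inr ⟨p, h3, h4, h2⟩)

/-- `dens_pi_le` in the coordinate `7`, `dens_derivative_eq_zero`; a separable polynomial of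
positive degree has nonzero derivative -/
theorem tendsto_derivative_Delta (n : ℕ) :
    Tendsto (fun d => dens (VBox k d n) fun f => derivative f.jac.Δ = 0) atTop (𝓝 0) := by
  have hp := tail_char_pos (k := k)
  have h1 := dens_aeval_tendsto (fun d => DV d n) (tendsto_DV n) (genV_discr_ne_zero k)
  have h2 := tendsto_lin_mul_pow 0 (4 * ringChar k)
    (fun d => (DV d n 7 - 1) / ringChar k) 0 (ringChar k) hp
    fun d => Nat.div_le_div_right (by change _ ≤ 2 * d + 2 * n - 1; omega)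
  have h3 := h1.add h2
  rw [add_zero] at h3
  refine squeeze_zero (fun d => dens_nonneg _ _) (fun d => ?_) h3
  rw [dens_VBox]
  refine dens_pi_le _ 7 _ _ (by positivity) fun x _ h => ?_
  simp only [tail_eval]
  refine (dens_derivative_eq_zero (cubic_natDegree_le _) (fun h0 => ?_) (DV d n 7)).trans_eq
    (by ring)
  obtain ⟨a1, a2⟩ := tail_sep h
  rw [Polynomial.separable_def, derivative_map, h0, Polynomial.map_zero,
    isCoprime_zero_right] at a1
  exact a2 (natDegree_eq_zero_of_isUnit a1)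

end SelAvg

/-!
Local densities over a finite field: polynomials without roots.
-/

namespace SelAvg

open WeierstrassCurve Polynomial
open scoped Classical

universe u

variable {κ : Type u} [Field κ] [Fintype κ]

lemma neglLoc_transfer {α β γ : Type*} [Fintype α] [Fintype β] [Fintype γ] [AddCommGroup β]
    [AddCommGroup γ] {T : α → β} (hT : Function.Bijective T) (φ : β →+ γ)
    (hφ : Function.Surjective φ) (P : γ → Prop) :
    dens Finset.univ (fun x => P (φ (T x))) = dens Finset.univ P := by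
  rw [dens_eq_avg, dens_eq_avg, ← avg_comp_hom (Finset.mem_univ 0)
    (fun _ _ _ _ => Finset.mem_univ _) φ fun b => (hφ b).imp fun _ h => ⟨Finset.mem_univ _, h⟩]
  exact avg_equiv (Equiv.ofBijective T hT) fun x => ind (P (φ x))

lemma neglLoc_fibre {β γ : Type*} [Fintype β] [Fintype γ] [AddCommGroup β] [AddCommGroup γ]
    (φ : β →+ γ) (hφ : Function.Surjective φ) (b : γ) :
    avg Finset.univ (fun x => ind (φ x = b)) = 1 / Fintype.card γ := by
  rw [← dens_eq_avg]
  refine (neglLoc_transfer Function.bijective_id φ hφ (· = b)).trans ?_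
  rw [dens_eq_avg, avg]
  simp [ind]

lemma neglLoc_two : (2 : ℝ) ≤ Fintype.card κ := by
  exact_mod_cast Fintype.one_lt_card (α := κ)

/-- evaluation of the lower terms -/
def neglLoc_ev (m : ℕ) (x : κ) : (Fin m → κ) →+ κ :=
  AddMonoidHom.mk' (fun c => ∑ i, c i * x ^ (i : ℕ)) fun a b => by
    simp [add_mul, Finset.sum_add_distrib]

lemma neglLoc_pair (n : ℕ) (x y : κ) :
    avg Finset.univ (fun c : Fin (n + 2) → κ => ind (neglLoc_ev _ x c = -x ^ (n + 2)) *
      ind (neglLoc_ev _ y c = -y ^ (n + 2))) = 1 / (Fintype.card κ : ℝ) ^ 2 +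
      if x = y then 1 / (Fintype.card κ : ℝ) - 1 / (Fintype.card κ : ℝ) ^ 2 else 0 := by
  split_ifs with h
  · subst h
    rw [add_sub_cancel, ← neglLoc_fibre (neglLoc_ev (n + 2) x)
      (fun t => ⟨Fin.cons t 0, by simp [neglLoc_ev, Fin.sum_univ_succ]⟩) (-x ^ (n + 2))]
    exact avg_congr fun c _ => by unfold ind; split_ifs <;> simp
  · have h1 := neglLoc_fibre ((neglLoc_ev (n + 2) x).prod (neglLoc_ev (n + 2) y)) (fun t =>
      ⟨Fin.cons (t.1 - (t.1 - t.2) / (x - y) * x) (Fin.cons ((t.1 - t.2) / (x - y)) 0), by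
        have := sub_ne_zero.2 h
        ext
        · simp [neglLoc_ev, Fin.sum_univ_succ]
        · simp [neglLoc_ev, Fin.sum_univ_succ]
          field_simp
          ring⟩) (-x ^ (n + 2), -y ^ (n + 2))
    rw [Fintype.card_prod, Nat.cast_mul, ← sq] at h1
    rw [add_zero, ← h1]
    refine avg_congr fun c _ => ?_
    simp only [ind, AddMonoidHom.prod_apply, Prod.mk.injEq, ite_and]
    split_ifs <;> simp

lemma neglLoc_roots (m : ℕ) (c : Fin m → κ) :
    (Finset.univ.filter fun x : κ => neglLoc_ev m x c = -x ^ m).card ≤ m := by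
  have h1 := degree_sum_fin_lt c
  have h2 := monic_X_pow_add h1
  have h3 : (X ^ m + ∑ i, C (c i) * X ^ (i : ℕ)).natDegree ≤ m :=
    natDegree_le_of_degree_le (degree_add_le_of_degree_le (degree_X_pow_le m) h1.le)
  refine le_trans (card_le_degree_of_subset_roots fun x hx => (mem_roots h2.ne_zero).2 ?_) h3
  have h4 : ∑ i, c i * x ^ (i : ℕ) = -x ^ m := (Finset.mem_filter.1 hx).2
  simp [eval_finset_sum, h4]

/-- Let `Z c ≤ m` be the number of roots.  Then `ind (Z ≠ 0) ≤ Z - Z (Z - 1) / m`.  The mean of `Z`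
is `1` and the mean of `Z (Z - 1)` (pairs of distinct roots) is `1 - 1 / Q ≥ 1 / 2`: the additive
maps `c ↦ ∑ c i x^i` and `c ↦ (∑ c i x^i, ∑ c i y^i)` are surjective (`avg_comp_hom`). -/
theorem dens_no_root {m : ℕ} (hm : 2 ≤ m) :
    1 / (2 * (m : ℝ)) ≤ dens Finset.univ
      (fun c : Fin m → κ => ∀ x : κ, x ^ m + ∑ i, c i * x ^ (i : ℕ) ≠ 0) := by
  obtain ⟨n, rfl⟩ := Nat.exists_eq_add_of_le' hm
  have hQ := neglLoc_two (κ := κ)
  have hm' : (0 : ℝ) < (n + 2 : ℕ) := by positivity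
  let Z : (Fin (n + 2) → κ) → ℝ := fun c => ∑ x : κ, ind (neglLoc_ev _ x c = -x ^ (n + 2))
  have h1 : avg Finset.univ Z = 1 := by
    rw [avg_sum, Finset.sum_congr rfl fun x _ => neglLoc_fibre (neglLoc_ev (n + 2) x)
      (fun t => ⟨Fin.cons t 0, by simp [neglLoc_ev, Fin.sum_univ_succ]⟩) _]
    simp
  have h2 : avg Finset.univ (fun c => Z c * Z c) = 2 - 1 / Fintype.card κ := by
    simp only [Z, Finset.sum_mul_sum, avg_sum, neglLoc_pair, Finset.sum_add_distrib,
      Finset.sum_ite_eq, Finset.mem_univ, if_true, Finset.sum_const, Finset.card_univ, nsmul_eq_mul]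
    field_simp
    ring
  have h3 : avg Finset.univ (fun c => 1 - Z c + (1 / (n + 2 : ℕ) : ℝ) * (Z c * Z c - Z c)) =
      (1 / (n + 2 : ℕ) : ℝ) * (1 - 1 / Fintype.card κ) := by
    rw [avg_add, avg_sub, avg_const_mul, avg_sub, avg_const Finset.univ_nonempty, h1, h2]
    ring
  have h4 : 1 / (Fintype.card κ : ℝ) ≤ 1 / 2 := one_div_le_one_div_of_le two_pos hQ
  rw [dens_eq_avg]
  refine le_trans ?_ (h3.symm.le.trans (avg_mono fun c _ => ?_))
  · rw [mul_comm (2 : ℝ), ← div_div, div_eq_mul_one_div _ (2 : ℝ)]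
    gcongr
    linarith
  · have h5 : Z c = (Finset.univ.filter fun x : κ => neglLoc_ev _ x c = -x ^ (n + 2)).card := by
      simp [Z, ind, Finset.sum_boole]
    by_cases h6 : ∀ x : κ, x ^ (n + 2) + ∑ i, c i * x ^ (i : ℕ) ≠ 0
    · have h7 : Z c = 0 := Finset.sum_eq_zero fun x _ => ind_neg fun h => h6 x
        (add_eq_zero_iff_eq_neg'.2 h)
      rw [ind_pos h6, h7]
      simp
    · obtain ⟨x, hx⟩ := not_forall.1 h6
      have h7 : 1 ≤ Z c := by
        rw [h5]
        exact_mod_cast Finset.card_pos.2 ⟨x, Finset.mem_filter.2 ⟨Finset.mem_univ _,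
          add_eq_zero_iff_eq_neg'.1 (not_not.1 hx)⟩⟩
      have h8 : Z c ≤ (n + 2 : ℕ) := by
        rw [h5]
        exact_mod_cast neglLoc_roots (n + 2) c
      have h9 : (1 / (n + 2 : ℕ) : ℝ) * (Z c * Z c - Z c) ≤ Z c - 1 := by
        rw [one_div, inv_mul_le_iff₀ hm']
        nlinarith
      rw [ind_neg h6]
      linarith

/-- the same with an arbitrary nonzero leading coefficient (`c 0` is the leading coefficient):
for fixed `c 0 ≠ 0` rescale the other coefficients; `1 - 1 / Q ≥ 1 / 2` -/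
theorem dens_no_root' {m : ℕ} (hm : 2 ≤ m) :
    1 / (4 * (m : ℝ)) ≤ dens Finset.univ
      (fun c : κ × (Fin m → κ) => c.1 ≠ 0 ∧ ∀ x : κ, c.1 * x ^ m + ∑ i, c.2 i * x ^ (i : ℕ) ≠ 0) := by
  have hQ := neglLoc_two (κ := κ)
  have hm' : (0 : ℝ) < m := by positivity
  have h1 : 1 / 2 ≤ avg Finset.univ fun a : κ => ind (a ≠ 0) := by
    rw [← dens_eq_avg, dens_not Finset.univ_nonempty, dens_eq_avg]
    have h2 := neglLoc_fibre (AddMonoidHom.id κ) Function.surjective_id 0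
    have h3 : 1 / (Fintype.card κ : ℝ) ≤ 1 / 2 := one_div_le_one_div_of_le two_pos hQ
    simp only [AddMonoidHom.id_apply] at h2
    linarith
  rw [dens_eq_avg, ← Finset.univ_product_univ, avg_product]
  refine le_trans ?_ (avg_mono (F := fun a => 1 / (2 * (m : ℝ)) * ind (a ≠ 0)) fun a _ => ?_)
  · rw [avg_const_mul]
    refine le_trans (le_of_eq ?_) (mul_le_mul_of_nonneg_left h1 (by positivity))
    field_simp
    norm_num
  · by_cases ha : a = 0
    · rw [ind_neg (not_not.2 ha), mul_zero]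
      exact avg_nonneg fun _ _ => ind_nonneg _
    · rw [ind_pos ha, mul_one, ← dens_eq_avg, ← neglLoc_transfer
        (MulAction.bijective (Units.mk0 a ha)) (AddMonoidHom.id _) Function.surjective_id]
      refine (dens_no_root hm).trans (dens_mono fun c _ h => ⟨ha, fun x hx => h x ?_⟩)
      refine (mul_eq_zero.1 (Eq.trans ?_ hx)).resolve_left ha
      simp [mul_add, Finset.mul_sum, mul_assoc, Units.smul_def]

/-- If `2 = 0` the form is `q^2`; use `dens_no_root'` for `m = 2` and the additive surjection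
`f ↦ (l, ![n, m])` (`avg_comp_hom`, or Fubini).  If `2 ≠ 0`, for fixed `l, m, n` the map from
`(a, b, c, d, e)` to the coefficients of the quartic `q^2 + 4 g` is a bijection; use `m = 4`. -/
theorem dens_branch_le :
    dens Finset.univ (fun f : Model κ => ∃ x z : κ, (x ≠ 0 ∨ z ≠ 0) ∧
      f.q x z ^ 2 + 4 * f.g x z = 0) ≤ 1 - 1 / 16 := by
  have key : ∀ (c : ℝ) (P : Model κ → Prop), 1 / 16 ≤ c → c ≤ dens Finset.univ P →
      (∀ f x z, P f → (x ≠ 0 ∨ z ≠ 0) → f.q x z ^ 2 + 4 * f.g x z ≠ 0) →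
      dens Finset.univ (fun f : Model κ => ∃ x z : κ, (x ≠ 0 ∨ z ≠ 0) ∧
        f.q x z ^ 2 + 4 * f.g x z = 0) ≤ 1 - 1 / 16 := fun c P h1 h2 h3 => by
    refine (dens_mono (Q := fun f => ¬P f) fun f _ ⟨x, z, h4, h5⟩ h => h3 f x z h h4 h5).trans ?_
    rw [dens_not ⟨Model.equivVec.symm 0, Finset.mem_univ _⟩]
    linarith
  by_cases h2 : (2 : κ) = 0
  · refine key _ _ (by norm_num) ((dens_no_root' le_rfl).trans (neglLoc_transfer
      Model.equivVec.bijective (AddMonoidHom.mk' (fun v : Fin 8 → κ => (v 0, ![v 2, v 1]))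
      fun a b => by ext i; simp; fin_cases i <;> simp)
      (fun t => ⟨![t.1, t.2 1, t.2 0, 0, 0, 0, 0, 0], by ext i; simp; fin_cases i <;> simp⟩)
      _).symm.le) fun f x z h hxz e => ?_
    obtain ⟨h3, h4⟩ : f.l ≠ 0 ∧ ∀ x : κ, f.l * x ^ 2 + ∑ i : Fin 2, ![f.n, f.m] i * x ^ (i : ℕ) ≠ 0 := h
    have h5 : f.q x z = 0 := pow_eq_zero_iff two_ne_zero |>.1
      (by linear_combination e - 2 * f.g x z * h2)
    unfold Model.q at h5
    by_cases hz : z = 0
    · simp [hz, h3] at h5 hxz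
      exact hxz h5
    · refine h4 (x / z) ?_
      simp [Fin.sum_univ_succ]
      field_simp
      linear_combination h5
  · have h4 : (4 : κ) ≠ 0 := by
      rw [show (4 : κ) = 2 * 2 by norm_num]
      exact mul_ne_zero h2 h2
    let T : Model κ → Model κ := fun f => ⟨f.l, f.m, f.n, f.l ^ 2 + 4 * f.a, 2 * f.l * f.m + 4 * f.b,
      f.m ^ 2 + 2 * f.l * f.n + 4 * f.c, 2 * f.m * f.n + 4 * f.d, f.n ^ 2 + 4 * f.e⟩
    have hT : Function.Injective T := by
      rintro ⟨l, m, n, a, b, c, d, e⟩ ⟨l', m', n', a', b', c', d', e'⟩ h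
      simp only [T, Model.mk.injEq] at h
      obtain ⟨rfl, rfl, rfl, h⟩ := h
      simpa [h4] using h
    refine key _ _ (by norm_num) ((dens_no_root' (m := 4) (by norm_num)).trans (neglLoc_transfer
      (Model.equivVec.bijective.comp (Finite.injective_iff_bijective.1 hT))
      (AddMonoidHom.mk' (fun v : Fin 8 → κ => (v 3, ![v 7, v 6, v 5, v 4]))
      fun a b => by ext i; simp; fin_cases i <;> simp)
      (fun t => ⟨![0, 0, 0, t.1, t.2 3, t.2 2, t.2 1, t.2 0], by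
        ext i; simp; fin_cases i <;> simp⟩) _).symm.le) fun f x z h hxz e => ?_
    obtain ⟨h5, h6⟩ : (T f).a ≠ 0 ∧ ∀ x : κ, (T f).a * x ^ 4 +
      ∑ i : Fin 4, ![(T f).e, (T f).d, (T f).c, (T f).b] i * x ^ (i : ℕ) ≠ 0 := h
    have h7 : (T f).g x z = 0 := by
      simp only [T, Model.g, Model.q] at e ⊢
      linear_combination e
    generalize T f = f' at h5 h6 h7
    unfold Model.g at h7
    by_cases hz : z = 0
    · simp [hz, h5] at h7 hxz
      exact hxz h7
    · refine h6 (x / z) ?_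
      simp [Fin.sum_univ_succ]
      field_simp
      linear_combination h7

/-- For fixed `a₁, a₃` the map `(a₂, a₄, a₆) ↦ (b₆ / 4, b₄ / 2, b₂ / 4)` is a bijection, and a
2-torsion point gives a root of `x^3 + b₂ / 4 x^2 + b₄ / 2 x + b₆ / 4`. -/
theorem dens_noTwoTorsion_ge (h2 : (2 : κ) ≠ 0) :
    1 / 6 ≤ dens Finset.univ (fun W : WeierstrassCurve κ => NoTwoTorsion W) := by
  have h4 : (4 : κ) ≠ 0 := by
    rw [show (4 : κ) = 2 * 2 by norm_num]
    exact mul_ne_zero h2 h2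
  let T : WeierstrassCurve κ → WeierstrassCurve κ := fun W =>
    ⟨W.a₁, W.a₂ + W.a₁ ^ 2 / 4, W.a₃, W.a₄ + W.a₁ * W.a₃ / 2, W.a₆ + W.a₃ ^ 2 / 4⟩
  have hT : Function.Injective T := by
    rintro ⟨a, b, c, d, e⟩ ⟨a', b', c', d', e'⟩ h
    simp only [T, WeierstrassCurve.mk.injEq] at h
    obtain ⟨rfl, h1, rfl, h⟩ := h
    simpa using And.intro h1 h
  refine le_trans (by norm_num) (((dens_no_root (m := 3) (by norm_num)).trans (neglLoc_transfer
    (wEquivVec.bijective.comp (Finite.injective_iff_bijective.1 hT))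
    (AddMonoidHom.mk' (fun v : Fin 5 → κ => ![v 4, v 3, v 1])
    fun a b => by ext i; fin_cases i <;> simp)
    (fun t => ⟨![0, t 2, 0, t 1, t 0], by ext i; fin_cases i <;> simp⟩) _).symm.le).trans
    (dens_mono fun W _ h x y e1 e2 => ?_))
  have h5 : x ^ 3 + ∑ i : Fin 3, ![(T W).a₆, (T W).a₄, (T W).a₂] i * x ^ (i : ℕ) ≠ 0 := h x
  rw [Affine.equation_iff] at e1
  refine h5 ?_
  simp [T, Fin.sum_univ_succ]
  field_simp
  linear_combination (-8 : κ) * e1 + 2 * (2 * y + W.a₁ * x + W.a₃) * e2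

/-- `nSm_le_card_point`, `card_point_eq` -/
lemma phiR_id_le_one {f : Model κ} (h : f.jac.Δ ≠ 0) : phiR (RingHom.id κ) f ≤ 1 := by
  have h1 : (nSm f : ℝ) ≤ 1 + nAff f.jac := by
    exact_mod_cast (nSm_le_card_point h).trans_eq (card_point_eq h)
  have h2 : (Nat.card κ : ℝ) ≠ 0 := by exact_mod_cast Nat.card_pos.ne'
  rw [phiR, mul_div_assoc, div_self h2, mul_one]
  exact div_le_one_of_le₀ h1 (by positivity)

/-- `mass` for `θ = id` and `ψ W = ind (NoTwoTorsion W ∧ W.Δ ≠ 0)` (`noTwoTorsion_smul`):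
the density is at least `(3 / 4) (1 / 6 - 1 / 12)`. -/
theorem dens_V_noTwoTorsion_ge (h2 : (2 : κ) ≠ 0)
    (hΔ : dens Finset.univ (fun W : WeierstrassCurve κ => W.Δ = 0) ≤ 1 / 12) :
    1 / 16 ≤ dens Finset.univ (fun f : Model κ => NoTwoTorsion f.jac ∧ f.jac.Δ ≠ 0) := by
  have h1 := mass (id_isResidue (κ := κ))
    (fun W => ind (NoTwoTorsion W ∧ W.Δ ≠ 0)) fun C W => by
      simp [noTwoTorsion_smul, variableChange_Δ]
  have h3 := (dens_noTwoTorsion_ge h2).trans ((dens_mono fun W _ h => (em (W.Δ = 0)).symm.imp_left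
    fun k => And.intro h k).trans (dens_or_le _ _ _))
  have hQ := neglLoc_two (κ := κ)
  have h4 : 1 / (Fintype.card κ : ℝ) ^ 2 ≤ 1 / 4 := one_div_le_one_div_of_le four_pos (by nlinarith)
  rw [← dens_eq_avg] at h1
  rw [dens_eq_avg]
  refine le_trans ?_ (h1.symm.le.trans (avg_mono fun f _ => ?_))
  · nlinarith
  · by_cases h : NoTwoTorsion f.jac ∧ f.jac.Δ ≠ 0
    · rw [ind_pos h, mul_one]
      exact phiR_id_le_one h.2
    · rw [ind_neg h, mul_zero]

end SelAvg

/-!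
Negligible sets.
-/

namespace SelAvg

open WeierstrassCurve Polynomial Filter Topology
open scoped Classical

universe u

variable {k : Type u} [Field k]

lemma negl_dens_equiv {α β : Type*} [Fintype α] [Fintype β] (e : α ≃ β) (P : β → Prop) :
    dens Finset.univ (fun a => P (e a)) = dens Finset.univ P := by
  rw [← Finset.map_univ_equiv e, dens_map]
  rfl

lemma negl_hom {R : Type*} [CommRing R] (f : Model R) (t x z : R) :
    f.q (t * x) (t * z) ^ 2 + 4 * f.g (t * x) (t * z) = t ^ 4 * (f.q x z ^ 2 + 4 * f.g x z) := by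
  simp only [Model.q, Model.g]
  ring

lemma negl_scale {x z : RatFunc k} (h : x ≠ 0 ∨ z ≠ 0) :
    ∃ (t : RatFunc k) (a b : k[X]), IsCoprime a b ∧ toK k a = t * x ∧ toK k b = t * z := by
  by_cases hz : z = 0
  · have hx : x ≠ 0 := h.resolve_right (not_not.2 hz)
    exact ⟨x⁻¹, 1, 0, isCoprime_one_left, by rw [map_one, inv_mul_cancel₀ hx],
      by rw [map_zero, hz, mul_zero]⟩
  · refine ⟨toK k (x / z).denom / z, (x / z).num, (x / z).denom, RatFunc.isCoprime_num_denom _,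
      ?_, (div_mul_cancel₀ _ hz).symm⟩
    have h1 := RatFunc.num_div_denom (x / z)
    have h2 : toK k (x / z).denom ≠ 0 := RatFunc.algebraMap_ne_zero (RatFunc.denom_ne_zero _)
    rw [div_eq_iff h2] at h1
    rw [h1]
    ring

/-- `Model.psi_sq`; the form `q^2 + 4 g` is homogeneous of degree 4, so `(x, z)` can be scaled to
coprime polynomials (`(1, 0)` if `z = 0`, else numerator and denominator of `x / z`) -/
lemma exists_coprime_of_triv {f : Model k[X]} (h : (f.map (toK k)).Triv) :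
    ∃ x z : k[X], IsCoprime x z ∧ f.q x z ^ 2 + 4 * f.g x z = 0 := by
  obtain ⟨Q, hQ, h0⟩ := h
  obtain ⟨t, a, b, hab, ha, hb⟩ := negl_scale hQ.prim
  refine ⟨a, b, hab, IsFractionRing.injective k[X] (RatFunc k) ?_⟩
  have h1 := (f.map (toK k)).psi_sq Q
  rw [h0, hQ.eq] at h1
  have h2 := negl_hom (f.map (toK k)) t Q.x Q.z
  rw [← ha, ← hb, Model.map_q, Model.map_g] at h2
  rw [map_add, map_mul, map_pow, map_ofNat, map_zero]
  linear_combination h2 - t ^ 4 * h1

/-- `x` is a root of the monic cubic with polynomial coefficients, hence a polynomial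
(`IsIntegrallyClosed`), and `y = -(a₁ x + a₃) / 2` -/
lemma not_noTwoTorsion_map (h2 : (2 : k) ≠ 0) {W : WeierstrassCurve k[X]}
    (h : ¬NoTwoTorsion (W.map (toK k))) {κ : Type u} [Field κ] (φ : k[X] →+* κ) :
    ¬NoTwoTorsion (W.map φ) := by
  simp only [NoTwoTorsion, not_forall, not_not] at h ⊢
  obtain ⟨x, y, hxy, h0⟩ := h
  have hu : (2 : k[X]) * C (2⁻¹ : k) = 1 := by
    rw [← map_ofNat C 2, ← map_mul, mul_inv_cancel₀ h2, map_one]
  generalize C (2⁻¹ : k) = u at hu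
  have hu' : 2 * toK k u = 1 := by
    rw [← map_ofNat (toK k) 2, ← map_mul, hu, map_one]
  rw [Affine.equation_iff] at hxy
  simp only [map_a₁, map_a₂, map_a₃, map_a₄, map_a₆] at hxy h0
  have hy : y = -(toK k u * (toK k W.a₁ * x + toK k W.a₃)) := by
    linear_combination toK k u * h0 - y * hu'
  obtain ⟨x₀, rfl⟩ : ∃ x₀, toK k x₀ = x := by
    refine IsIntegrallyClosed.isIntegral_iff.1 ⟨X ^ 3 + (C (W.a₂ + (u * W.a₁) ^ 2) * X ^ 2 +
      C (W.a₄ + u * W.a₁ * W.a₃) * X + C (W.a₆ + (u * W.a₃) ^ 2)), ?_, ?_⟩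
    · monicity!
    · simp only [eval₂_add, eval₂_mul, eval₂_pow, eval₂_X, eval₂_C, map_add, map_mul, map_pow]
      change x ^ 3 + ((toK k W.a₂ + (toK k u * toK k W.a₁) ^ 2) * x ^ 2 +
        (toK k W.a₄ + toK k u * toK k W.a₁ * toK k W.a₃) * x +
        (toK k W.a₆ + (toK k u * toK k W.a₃) ^ 2)) = 0
      rw [hy] at hxy
      linear_combination -hxy + toK k u * ((toK k W.a₁ * x) ^ 2 + toK k W.a₁ * toK k W.a₃ * x +
        toK k W.a₃ ^ 2) * hu'
  have he : W.toAffine.Equation x₀ (-(u * (W.a₁ * x₀ + W.a₃))) := by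
    rw [Affine.equation_iff]
    apply IsFractionRing.injective k[X] (RatFunc k)
    rw [hy] at hxy
    simpa only [map_add, map_mul, map_pow, map_neg] using hxy
  refine ⟨φ x₀, φ (-(u * (W.a₁ * x₀ + W.a₃))), he.map φ, ?_⟩
  have h3 : 2 * -(u * (W.a₁ * x₀ + W.a₃)) + W.a₁ * x₀ + W.a₃ = 0 := by
    linear_combination -(W.a₁ * x₀ + W.a₃) * hu
  simpa only [map_add, map_mul, map_ofNat, map_zero, map_a₁, map_a₃] using congrArg φ h3

/-- Translate the 2-torsion point to the origin: `a₃ = a₆ = 0`, so `Δ = a₁^4 a₄^2` is a square in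
`K`; if `Δ h^2 = g^2` then `Δ' h^2 = 0`. -/
lemma derivative_Delta_eq_zero (h2 : (2 : k) = 0) {W : WeierstrassCurve k[X]}
    (h : ¬NoTwoTorsion (W.map (toK k))) : derivative W.Δ = 0 := by
  simp only [NoTwoTorsion, not_forall, not_not] at h
  obtain ⟨x, y, hxy, h0⟩ := h
  have h3 : (2 : k[X]) = 0 := by rw [← map_ofNat C 2, h2, map_zero]
  have h4 : (2 : RatFunc k) = 0 := by rw [← map_ofNat (toK k) 2, h3, map_zero]
  rw [Affine.equation_iff] at hxy
  have hΔ : (wsh x 0 y • W.map (toK k)).Δ = toK k W.Δ := by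
    rw [variableChange_Δ, map_Δ]
    simp [wsh]
  have a3 : (wsh x 0 y • W.map (toK k)).a₃ = 0 := by
    rw [variableChange_a₃]
    simp only [wsh, inv_one, Units.val_one]
    linear_combination h0
  have a6 : (wsh x 0 y • W.map (toK k)).a₆ = 0 := by
    rw [variableChange_a₆]
    simp only [wsh, inv_one, Units.val_one]
    linear_combination -hxy
  generalize wsh x 0 y • W.map (toK k) = V at hΔ a3 a6
  have hs : (V.a₁ ^ 2 * V.a₄) ^ 2 = toK k W.Δ := by
    rw [← hΔ]
    simp only [WeierstrassCurve.Δ, b₂, b₄, b₆, b₈, a3, a6]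
    linear_combination (32 * V.a₄ ^ 3 - 4 * V.a₁ ^ 2 * V.a₂ * V.a₄ ^ 2 -
      8 * V.a₂ ^ 2 * V.a₄ ^ 2) * h4
  obtain ⟨s, hs'⟩ := IsIntegrallyClosed.exists_algebraMap_eq_of_isIntegral_pow (R := k[X])
    (x := V.a₁ ^ 2 * V.a₄) two_pos (hs ▸ isIntegral_algebraMap)
  have h5 : s ^ 2 = W.Δ := by
    apply IsFractionRing.injective k[X] (RatFunc k)
    rw [map_pow, hs', hs]
  rw [← h5, derivative_sq, map_ofNat, h3, zero_mul, zero_mul]

variable [Finite k]

/-- `sieve` with `dens_branch_le` -/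
theorem tendsto_triv (n : ℕ) :
    Tendsto (fun d => dens (VBox k d n) fun f => (f.map (toK k)).Triv) atTop (𝓝 0) := by
  simp only [dens_VBox]
  refine sieve (fun d => DV d n) (tendsto_DV n) _ (c := 1 / 16) (by norm_num) 0
    (fun p y => ∃ x z, (x ≠ 0 ∨ z ≠ 0) ∧ (Model.equivVec.symm y).q x z ^ 2 +
      4 * (Model.equivVec.symm y).g x z = 0) (fun p _ => ?_) fun p x _ h => ?_
  · exact (negl_dens_equiv Model.equivVec.symm fun f : Model (AdjoinRoot (pol (some p))) =>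
      ∃ x z, (x ≠ 0 ∨ z ≠ 0) ∧ f.q x z ^ 2 + 4 * f.g x z = 0).trans_le dens_branch_le
  · obtain ⟨a, b, hab, h1⟩ := exists_coprime_of_triv h
    refine ⟨_, _, (hab.map (AdjoinRoot.mk (pol (some p)))).ne_zero_or_ne_zero, ?_⟩
    rw [← Model.equivVec_symm_map, Model.map_q, Model.map_g, ← map_pow,
      ← map_ofNat (AdjoinRoot.mk (pol (some p))) 4, ← map_mul, ← map_add, h1, map_zero]

/-- In characteristic 2 use `tendsto_derivative_Delta`.  Otherwise `sieve` with
`dens_V_noTwoTorsion_ge`, `dens_aeval_field` for `(genW k).Δ` and primes of large degree. -/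
theorem tendsto_twoTorsion (n : ℕ) :
    Tendsto (fun d => dens (VBox k d n) fun f => ¬NoTwoTorsion (f.jac.map (toK k))) atTop
      (𝓝 0) := by
  by_cases h2 : (2 : k) = 0
  · exact squeeze_zero (fun _ => dens_nonneg _ _)
      (fun d => dens_mono fun f _ h => derivative_Delta_eq_zero h2 h) (tendsto_derivative_Delta n)
  simp only [dens_VBox]
  refine sieve (fun d => DV d n) (tendsto_DV n) _ (c := 1 / 16) (by norm_num)
    (12 * (genW k).Δ.totalDegree)
    (fun p y => ¬(NoTwoTorsion (Model.equivVec.symm y).jac ∧ (Model.equivVec.symm y).jac.Δ ≠ 0))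
    (fun p hp => ?_) fun p x _ h => ?_
  · rw [dens_not Finset.univ_nonempty, negl_dens_equiv Model.equivVec.symm
      fun f : Model (AdjoinRoot (pol (some p))) => NoTwoTorsion f.jac ∧ f.jac.Δ ≠ 0]
    refine sub_le_sub_left (dens_V_noTwoTorsion_ge ?_ ?_) _
    · rw [← map_ofNat (algebraMap k (AdjoinRoot (pol (some p)))) 2]
      exact (_root_.map_ne_zero _).2 h2
    · rw [← negl_dens_equiv wEquivVec.symm]
      simp only [← aeval_genW_Delta (k := k)]
      refine (dens_aeval_field (genW_Delta_ne_zero k) _).trans ?_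
      have h3 : p.1.natDegree ≤ Fintype.card (AdjoinRoot (pol (some p))) := by
        rw [← Nat.card_eq_fintype_card, card_adjoinRoot (pol_monic _)]
        exact (Nat.lt_pow_self (two_le_card k)).le
      have h4 : (12 : ℝ) * (genW k).Δ.totalDegree ≤ Fintype.card (AdjoinRoot (pol (some p))) := by
        exact_mod_cast hp.trans h3
      rw [div_le_iff₀ (Nat.cast_pos.2 Fintype.card_pos)]
      linarith
  · rw [← Model.equivVec_symm_map, Model.jac_map]
    exact fun h1 => not_noTwoTorsion_map h2 h _ h1.1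

theorem tendsto_c46_V (n : ℕ) :
    Tendsto (fun d => dens (VBox k d n) fun f => f.jac.c₄ = 0 ∨ f.jac.c₆ = 0) atTop (𝓝 0) := by
  simp only [dens_VBox, ← mul_eq_zero, ← aeval_genV_c46 (k := k)]
  exact dens_aeval_tendsto (fun d => DV d n) (tendsto_DV n) (genV_c46_ne_zero k)

theorem tendsto_c46_W :
    Tendsto (fun d => dens (WBox k d) fun W => W.c₄ = 0 ∨ W.c₆ = 0) atTop (𝓝 0) := by
  simp only [dens_WBox, ← mul_eq_zero, ← aeval_genW_c46 (k := k)]
  exact dens_aeval_tendsto DW tendsto_DW (genW_c46_ne_zero k)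

theorem tendsto_Delta_W : Tendsto (fun d => dens (WBox k d) fun W => W.Δ = 0) atTop (𝓝 0) := by
  simp only [dens_WBox, ← aeval_genW_Delta (k := k)]
  exact dens_aeval_tendsto DW tendsto_DW (genW_Delta_ne_zero k)

end SelAvg
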