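import Pool.Agent.H38Sel.RatC
import Pool.Agent.H38Sel.RatB
import Pool.Agent.H38Sel.RatF
import Pool.Agent.H38Sel.RatE
import Pool.Agent.H38Sel.RatD

/-!
The main terms: products of local densities.
-/

namespace SelAvg

open WeierstrassCurve Polynomial Filter Topology
open scoped Classical

universe u

variable {k : Type u} [Field k]

/-- minimal at the primes in `S` -/
def MinOn (S : Finset (Irr k)) (W : WeierstrassCurve k[X]) : Prop := ∀ p ∈ S, ¬NonMin p.1 W

/-- the discriminant vanishes to high order at some place of `S` or at infinity -/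
def BadM (S : Finset (Irr k)) (j d n : ℕ) (f : Model k[X]) : Prop :=
  ∃ w ∈ S.insertNone, pol w ^ (2 * (j + 1)) ∣ (locV w d n f).jac.Δ

variable [Finite k]

/-- the local density of minimal equations -/
noncomputable def nuLoc (p : Irr k) (j : ℕ) : ℝ :=
  dens Finset.univ fun W : WeierstrassCurve (AdjoinRoot (pol (some p) ^ (2 * (j + 1)))) =>
    ¬NonMin (AdjoinRoot.mk _ p.1) W

noncomputable def delta (S : Finset (Irr k)) (j : ℕ) : ℝ := ∏ p ∈ S, nuLoc p j

lemma delta_nonneg (S : Finset (Irr k)) (j : ℕ) : 0 ≤ delta S j :=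
  Finset.prod_nonneg fun _ _ => dens_nonneg _ _

lemma delta_le_one (S : Finset (Irr k)) (j : ℕ) : delta S j ≤ 1 :=
  Finset.prod_le_one (fun _ _ => dens_nonneg _ _) fun _ _ => dens_le_one _ _

/-- the product of the local masses -/
noncomputable def cS (S : Finset (Irr k)) : ℝ :=
  (1 - 1 / (Nat.card k : ℝ) ^ 2) * ∏ p ∈ S, (1 - 1 / ((Nat.card k : ℝ) ^ p.1.natDegree) ^ 2)

lemma nonMin_mk_iff (p : Irr k) {j : ℕ} (hj : 2 ≤ j) (W : WeierstrassCurve k[X]) :
    NonMin (AdjoinRoot.mk (pol (some p) ^ (2 * (j + 1))) p.1)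
      (W.map (AdjoinRoot.mk (pol (some p) ^ (2 * (j + 1))))) ↔ NonMin p.1 W := by
  refine nonMin_map_iff (AdjoinRoot.mk _) AdjoinRoot.mk_surjective (fun x hx => ?_) W
  exact (pow_dvd_pow p.1 (by omega)).trans (AdjoinRoot.mk_eq_zero.1 hx)

omit [Finite k] in
lemma final1_ind_forall {α : Type*} (S : Finset α) (P : α → Prop) :
    ind (∀ p ∈ S, P p) = ∏ p ∈ S, ind (P p) := by
  by_cases h : ∀ p ∈ S, P p
  · rw [ind_pos h]
    exact (Finset.prod_eq_one fun p hp => ind_pos (h p hp)).symm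
  · rw [ind_neg h]
    push Not at h
    obtain ⟨p, hp, hn⟩ := h
    exact (Finset.prod_eq_zero hp (ind_neg hn)).symm

/-- the local condition: none at infinity, minimality at a finite place -/
noncomputable def final1_psi (j : ℕ) : ∀ w : Option (Irr k),
    WeierstrassCurve (AdjoinRoot (pol w ^ (2 * (j + 1)))) → ℝ
  | none => fun _ => 1
  | some p => fun W => ind (¬NonMin (AdjoinRoot.mk _ p.1) W)

omit [Finite k] in
lemma final1_psi_smul (j : ℕ) (w : Option (Irr k))
    (C : VariableChange (AdjoinRoot (pol w ^ (2 * (j + 1)))))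
    (W : WeierstrassCurve (AdjoinRoot (pol w ^ (2 * (j + 1))))) :
    final1_psi j w (C • W) = final1_psi j w W := by
  cases w with
  | none => rfl
  | some p => exact congrArg ind (propext (not_congr (nonMin_smul C W)))

lemma final1_avg_psi (S : Finset (Irr k)) (j : ℕ) :
    ∏ w ∈ S.insertNone, avg Finset.univ (final1_psi j w) = delta S j := by
  rw [Finset.prod_insertNone, show avg Finset.univ (final1_psi (k := k) j none) = 1 from
    avg_const Finset.univ_nonempty 1, one_mul]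
  exact Finset.prod_congr rfl fun p _ => (dens_eq_avg _ _).symm

lemma final1_ind (S : Finset (Irr k)) {j : ℕ} (hj : 2 ≤ j) (W : WeierstrassCurve k[X])
    (V : ∀ w : Option (Irr k), WeierstrassCurve (AdjoinRoot (pol w ^ (2 * (j + 1)))))
    (hV : ∀ p, V (some p) = W.map (AdjoinRoot.mk _)) :
    ind (MinOn S W) = ∏ w ∈ S.insertNone, final1_psi j w (V w) := by
  rw [Finset.prod_insertNone, show final1_psi j none (V none) = 1 from rfl, one_mul, MinOn,
    final1_ind_forall]
  refine Finset.prod_congr rfl fun p _ => ?_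
  rw [hV]
  exact congrArg ind (propext (not_congr (nonMin_mk_iff p hj W).symm))

/-- `equidist` with `T = S.map Function.Embedding.some` (or `S.insertNone` and the constant
function `1` at infinity), `nonMin_mk_iff`, `avg_equiv`, `tendsto_DW` -/
theorem dens_minOn (S : Finset (Irr k)) {j : ℕ} (hj : 2 ≤ j) :
    ∀ᶠ d in atTop, dens (WBox k d) (MinOn S) = delta S j := by
  filter_upwards [eventually_all.2 fun i => (tendsto_DW i).eventually_ge_atTop
    (∑ w ∈ S.insertNone, (pol w ^ (2 * (j + 1))).natDegree)] with d hd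
  have h := equidist (DW d) S.insertNone (fun w => pol w ^ (2 * (j + 1))) (fun _ => ⟨_, rfl⟩)
    (fun i => (hd i).trans (Nat.le_succ _)) fun w x => final1_psi j w (wEquivVec.symm x)
  rw [Finset.prod_congr rfl fun w _ => avg_equiv wEquivVec.symm (final1_psi j w),
    final1_avg_psi] at h
  rw [dens_eq_avg, avg_WBox, ← h]
  exact avg_congr fun x _ => final1_ind S hj _ _ fun _ => rfl

/-- `equidist` with `T = S.insertNone` and `F w x = phiR (theta w j) f * ψ w f.jac`
(`f = Model.equivVec.symm x`, `ψ none = 1`, `ψ (some p) = ind (¬NonMin ..)`), then `mass`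
(`theta_isResidue`, `nonMin_smul`, `card_adjoinRoot_pol`) and `Finset.prod_insertNone` -/
theorem avg_phiM (S : Finset (Irr k)) {j : ℕ} (hj : 2 ≤ j) (n : ℕ) :
    ∀ᶠ d in atTop, avg (VBox k d n) (fun f => ind (MinOn S f.jac) *
      ∏ w ∈ S.insertNone, phiM w j d n f) = cS S * delta S j := by
  filter_upwards [eventually_all.2 fun i => (tendsto_DV n i).eventually_ge_atTop
    (∑ w ∈ S.insertNone, (pol w ^ (2 * (j + 1))).natDegree)] with d hd
  have h := equidist (DV d n) S.insertNone (fun w => pol w ^ (2 * (j + 1))) (fun _ => ⟨_, rfl⟩)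
    (fun i => (hd i).trans (Nat.le_succ _)) fun w x =>
      phiR (theta w j) (Model.equivVec.symm x) * final1_psi j w (Model.equivVec.symm x).jac
  have h2 : ∀ w : Option (Irr k), avg Finset.univ (fun x =>
      phiR (theta w j) (Model.equivVec.symm x) * final1_psi j w (Model.equivVec.symm x).jac) =
      (1 - 1 / ((Nat.card k : ℝ) ^ (pol w).natDegree) ^ 2) * avg Finset.univ (final1_psi j w) :=
    fun w => by
      rw [avg_equiv Model.equivVec.symm fun f => phiR (theta w j) f * final1_psi j w f.jac,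
        mass (theta_isResidue w j) _ (final1_psi_smul j w), card_adjoinRoot_pol, Nat.cast_pow]
  rw [Finset.prod_congr rfl fun w _ => h2 w, Finset.prod_mul_distrib, final1_avg_psi,
    Finset.prod_insertNone, show (pol (none : Option (Irr k))).natDegree = 1 from natDegree_X,
    pow_one] at h
  rw [avg_VBox]
  refine Eq.trans (avg_congr fun x _ => ?_) h
  rw [Finset.prod_mul_distrib, mul_comm, final1_ind S hj _ (fun w => (Model.equivVec.symm
    fun i => AdjoinRoot.mk (pol w ^ (2 * (j + 1))) (locp w (DV d n i) (x i))).jac)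
    fun p => Model.jac_map _ (Model.equivVec.symm x)]
  rfl

/-- `dens_zero_mod_tendsto` for `(genV k).jac.Δ`, `equidist_one`, `dens_exists_le` -/
theorem exists_level (S : Finset (Irr k)) {ε : ℝ} (hε : 0 < ε) :
    ∃ j, 2 ≤ j ∧ ∀ n, ∀ᶠ d in atTop, dens (VBox k d n) (BadM S j d n) ≤ ε := by
  have hc : (0 : ℝ) < S.insertNone.card := by
    exact_mod_cast Finset.card_pos.2 ⟨none, Finset.none_mem_insertNone⟩
  obtain ⟨M, hM⟩ := eventually_atTop.1 ((eventually_all_finset S.insertNone).2 fun w _ =>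
    (dens_zero_mod_tendsto w (genV_Delta_ne_zero k)).eventually_le_const (div_pos hε hc))
  refine ⟨M + 2, by omega, fun n => ?_⟩
  filter_upwards [eventually_all.2 fun i => (tendsto_DV n i).eventually_ge_atTop
    (∑ w ∈ S.insertNone, 2 * (M + 2 + 1) * (pol w).natDegree)] with d hd
  refine (dens_exists_le _ _
    fun w f => pol w ^ (2 * (M + 2 + 1)) ∣ (locV w d n f).jac.Δ).trans ?_
  refine (Finset.sum_le_card_nsmul _ _ (ε / S.insertNone.card) fun w hw => ?_).trans ?_
  · refine le_trans (le_of_eq ?_) (hM (2 * (M + 2 + 1)) (by omega) w hw)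
    rw [dens_VBox, ← equidist_one (DV d n) w _ fun i => ((Finset.single_le_sum
      (f := fun w => 2 * (M + 2 + 1) * (pol w).natDegree) (fun _ _ => Nat.zero_le _) hw).trans
        (hd i)).trans (Nat.le_succ _)]
    refine dens_congr fun x _ => ?_
    rw [aeval_genV_Delta, ← AdjoinRoot.mk_eq_zero, ← map_Δ, ← Model.jac_map]
    rfl
  · rw [nsmul_eq_mul, mul_div_cancel₀ _ hc.ne']

end SelAvg

/-!
The sums over curves in terms of averages over boxes of models.
-/

namespace SelAvg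

open WeierstrassCurve Polynomial
open scoped Classical

universe u

variable (k : Type u) [Field k] [Finite k]

/-- the normalised number of curves -/
noncomputable def Td (d : ℕ) : ℝ := avg (WBox k d) fun W => ind (IsMin W) * stab d W

/-- the normalised number of nontrivial Selmer elements -/
noncomputable def Sd (d : ℕ) : ℝ :=
  avg (WBox k d) fun W => ind (IsMin W) * stab d W * (SelOrb (W.map (toK k))).ncard

variable {k}

noncomputable def Uup (S : Finset (Irr k)) (d n : ℕ) : ℝ :=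
  avg (VBox k d n) fun f => ind (IsMin f.jac) * stab d f.jac * autB (f.jac.map (toK k)) *
    ∏ w ∈ S.insertNone, phiW w d n f

noncomputable def Ulow (S : Finset (Irr k)) (d n : ℕ) : ℝ :=
  avg (VBox k d n) fun f => ind (IsMin f.jac) * stab d f.jac *
    (ind (¬(f.map (toK k)).Triv ∧ SqfOff S f.jac) * ∏ w ∈ S.insertNone, phiW w d n f)

lemma final2_avg {d : ℕ} (ψ : WeierstrassCurve k[X] → ℝ)
    (hψ : ∀ C ∈ GBox k d, ∀ W ∈ WBox k d, ψ (C • W) = ψ W) (Φ : ℕ → Model k[X] → ℝ) :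
    avg (WBox k d) (fun W => ψ W * ∑ n ∈ Finset.range (d + 1), wt k d n *
      ∑ y ∈ ObjBox k d n with y.Over W, Φ n y.f) =
      ∑ n ∈ Finset.range (d + 1), wn (Nat.card k) n *
        avg (VBox k d n) fun f => ψ f.jac * Φ n f := by
  have h1 : (fun W => ψ W * ∑ n ∈ Finset.range (d + 1), wt k d n *
      ∑ y ∈ ObjBox k d n with y.Over W, Φ n y.f) = fun W => ∑ n ∈ Finset.range (d + 1),
      wt k d n * (ψ W * ∑ y ∈ ObjBox k d n with y.Over W, Φ n y.f) := by
    funext W
    rw [Finset.mul_sum]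
    exact Finset.sum_congr rfl fun n _ => by ring
  rw [h1, avg_sum]
  refine Finset.sum_congr rfl fun n hn => ?_
  have hn' : n ≤ d := Nat.lt_succ_iff.1 (Finset.mem_range.1 hn)
  have hW : ((WBox k d).card : ℝ) ≠ 0 := by exact_mod_cast (WBox_nonempty d).card_pos.ne'
  have hV : ((VBox k d n).card : ℝ) ≠ 0 := by exact_mod_cast (VBox_nonempty d n).card_pos.ne'
  rw [avg_const_mul, avg, avg, sum_transfer hn' ψ hψ (Φ n), ← mul_div_assoc, ← mul_div_assoc,
    div_eq_div_iff hW hV]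
  linear_combination (∑ f ∈ VBox k d n, ψ f.jac * Φ n f) * wt_mul_card (k := k) hn'

lemma final2_nonneg (d : ℕ) (W : WeierstrassCurve k[X]) : 0 ≤ ind (IsMin W) * (stab d W : ℝ) :=
  mul_nonneg (ind_nonneg _) (Nat.cast_nonneg _)

/-- `ncard_SelOrb_le`, `sum_transfer` (invariance: `isMin_smul`, `stab_smul`,
`noTwoTorsion_smul`, `map_variableChange`), `wt_mul_card` -/
theorem Sd_le (S : Finset (Irr k)) (d : ℕ) :
    Sd k d ≤ ∑ n ∈ Finset.range (d + 1), wn (Nat.card k) n * Uup S d n := by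
  have h := final2_avg (d := d)
    (fun W => ind (IsMin W) * stab d W * autB (W.map (toK k))) (fun C hC W _ => by
      simp only [isMin_smul, stab_smul hC, autB, ← map_variableChange, noTwoTorsion_smul])
    fun n f => ∏ w ∈ S.insertNone, phiW w d n f
  refine le_of_le_of_eq (avg_mono fun W hW => ?_) h
  by_cases hm : IsMin W
  · rw [mul_assoc _ (autB _ : ℝ)]
    exact mul_le_mul_of_nonneg_left (ncard_SelOrb_le hW hm.1 _) (final2_nonneg d W)
  · simp [ind_neg hm]

/-- `le_ncard_SelOrb`, `sum_transfer`, `wt_mul_card` -/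
theorem le_Sd (S : Finset (Irr k)) (d : ℕ) :
    ∑ n ∈ Finset.range (d + 1), wn (Nat.card k) n * Ulow S d n ≤ Sd k d := by
  have h := final2_avg (d := d) (fun W => ind (IsMin W) * stab d W) (fun C hC W _ => by
      simp only [isMin_smul, stab_smul hC])
    fun n f => ind (¬(f.map (toK k)).Triv ∧ SqfOff S f.jac) * ∏ w ∈ S.insertNone, phiW w d n f
  refine le_of_eq_of_le h.symm (avg_mono fun W hW => ?_)
  by_cases hm : IsMin W
  · exact mul_le_mul_of_nonneg_left (le_ncard_SelOrb hW hm.1 _) (final2_nonneg d W)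
  · simp [ind_neg hm]

/-- `stab_le`, `autB ≤ 4`, `phiW_le_one` -/
lemma Uup_le_const (S : Finset (Irr k)) {d n : ℕ} (hn : n ≤ d) :
    Uup S d n ≤ 64 * Nat.card k := by
  refine le_of_le_of_eq (avg_mono fun f hf => ?_) (avg_const (VBox_nonempty d n) _)
  by_cases hm : IsMin f.jac
  · have h1 : (stab d f.jac : ℝ) ≤ 16 * Nat.card k := by exact_mod_cast stab_le d f.jac
    have h2 : (autB (f.jac.map (toK k)) : ℝ) ≤ 4 := by
      unfold autB
      split_ifs <;> norm_num
    have h3 : ∏ w ∈ S.insertNone, phiW w d n f ≤ 1 :=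
      Finset.prod_le_one (fun w _ => phiW_nonneg _ _ _ _) fun w _ => phiW_le_one w hn hf hm.1
    rw [ind_pos hm, one_mul]
    calc _ ≤ 16 * (Nat.card k : ℝ) * 4 * 1 :=
          mul_le_mul (mul_le_mul h1 h2 (Nat.cast_nonneg _) (by positivity)) h3
            (Finset.prod_nonneg fun w _ => phiW_nonneg _ _ _ _) (by positivity)
      _ = _ := by ring
  · simp [ind_neg hm]

lemma Ulow_nonneg (S : Finset (Irr k)) (d n : ℕ) : 0 ≤ Ulow S d n := by
  exact avg_nonneg fun f _ => mul_nonneg (final2_nonneg d _)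
    (mul_nonneg (ind_nonneg _) (Finset.prod_nonneg fun w _ => phiW_nonneg _ _ _ _))

end SelAvg

/-!
Asymptotic bounds for the averages.
-/

namespace SelAvg

open WeierstrassCurve Polynomial Filter Topology
open scoped Classical

universe u

variable {k : Type u} [Field k] [Finite k]

lemma final3_small {a : ℕ → ℝ} (h : Tendsto a atTop (𝓝 0)) (c : ℝ) {η : ℝ} (hη : 0 < η) :
    ∀ᶠ d in atTop, c * a d ≤ η := by
  have h1 := h.const_mul c
  rw [mul_zero] at h1
  exact h1.eventually_le_const hη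

lemma final3_up (S : Finset (Irr k)) (j : ℕ) {d n : ℕ} (hn : n ≤ d) {f : Model k[X]}
    (hf : f ∈ VBox k d n) :
    ind (IsMin f.jac) * stab d f.jac * autB (f.jac.map (toK k)) *
      ∏ w ∈ S.insertNone, phiW w d n f ≤
    2 * (ind (MinOn S f.jac) * ∏ w ∈ S.insertNone, phiM w j d n f) + 2 * ind (BadM S j d n f) +
      64 * Nat.card k * ind (f.jac.c₄ = 0 ∨ f.jac.c₆ = 0) +
      64 * Nat.card k * ind (¬NoTwoTorsion (f.jac.map (toK k))) := by
  have p0 : 0 ≤ ind (MinOn S f.jac) * ∏ w ∈ S.insertNone, phiM w j d n f :=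
    mul_nonneg (ind_nonneg _) (Finset.prod_nonneg fun w _ => phiM_nonneg w j d n f)
  have p1 := ind_nonneg (BadM S j d n f)
  have p2 : 0 ≤ 64 * (Nat.card k : ℝ) * ind (f.jac.c₄ = 0 ∨ f.jac.c₆ = 0) :=
    mul_nonneg (by positivity) (ind_nonneg _)
  have p3 : 0 ≤ 64 * (Nat.card k : ℝ) * ind (¬NoTwoTorsion (f.jac.map (toK k))) :=
    mul_nonneg (by positivity) (ind_nonneg _)
  by_cases hm : IsMin f.jac
  swap
  · rw [ind_neg hm, zero_mul, zero_mul, zero_mul]
    linarith
  have q0 : 0 ≤ ∏ w ∈ S.insertNone, phiW w d n f :=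
    Finset.prod_nonneg fun w _ => phiW_nonneg w d n f
  have q1 : ∏ w ∈ S.insertNone, phiW w d n f ≤ 1 :=
    Finset.prod_le_one (fun w _ => phiW_nonneg w d n f) fun w _ => phiW_le_one w hn hf hm.1
  have q2 : (stab d f.jac : ℝ) ≤ 16 * Nat.card k := by exact_mod_cast stab_le d f.jac
  have q3 : (autB (f.jac.map (toK k)) : ℝ) ≤ 4 := by
    unfold autB
    split_ifs <;> norm_num
  have q4 : (stab d f.jac : ℝ) * autB (f.jac.map (toK k)) * ∏ w ∈ S.insertNone, phiW w d n f ≤
      16 * Nat.card k * 4 * 1 := by gcongr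
  rw [ind_pos hm, one_mul]
  by_cases h1 : f.jac.c₄ = 0 ∨ f.jac.c₆ = 0
  · rw [ind_pos h1]
    linarith
  by_cases h2 : NoTwoTorsion (f.jac.map (toK k))
  swap
  · rw [ind_pos h2]
    linarith
  have q5 : (stab d f.jac : ℝ) ≤ 2 := by
    exact_mod_cast stab_le_two (fun h => h1 (Or.inl h)) fun h => h1 (Or.inr h)
  have q6 : (stab d f.jac : ℝ) * ∏ w ∈ S.insertNone, phiW w d n f ≤
      2 * ∏ w ∈ S.insertNone, phiW w d n f := mul_le_mul_of_nonneg_right q5 q0
  rw [autB, if_pos h2, Nat.cast_one, mul_one]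
  by_cases h3 : BadM S j d n f
  · rw [ind_pos h3]
    linarith
  · rw [ind_pos (show MinOn S f.jac from fun p _ => hm.2 p), one_mul,
      ← Finset.prod_congr rfl fun w hw => phiW_eq_phiM w j d n fun h => h3 ⟨w, hw, h⟩]
    linarith

/-- Pointwise, for `f` in the box (`n ≤ d`), the integrand of `Uup` is at most
`2 * (ind (MinOn ..) * ∏ phiM) + 2 * ind BadM + 64 q * ind (c₄ = 0 ∨ c₆ = 0)
  + 64 q * ind (¬NoTwoTorsion ..)` (`stab_le_two`, `stab_le`, `phiW_eq_phiM`, `phiW_le_one`).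
Use `avg_phiM`, `tendsto_c46_V`, `tendsto_twoTorsion`. -/
theorem Uup_le (S : Finset (Irr k)) {j : ℕ} (hj : 2 ≤ j) (n : ℕ) {ε η : ℝ} (hη : 0 < η)
    (h : ∀ᶠ d in atTop, dens (VBox k d n) (BadM S j d n) ≤ ε) :
    ∀ᶠ d in atTop, Uup S d n ≤ 2 * (cS S * delta S j) + 2 * ε + η := by
  filter_upwards [h, avg_phiM S hj n, eventually_ge_atTop n,
    final3_small (tendsto_c46_V (k := k) n) (64 * Nat.card k) (half_pos hη),
    final3_small (tendsto_twoTorsion (k := k) n) (64 * Nat.card k) (half_pos hη)]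
    with d h1 h2 h3 h4 h5
  have h6 := avg_mono fun f hf => final3_up S j h3 hf
  rw [avg_add, avg_add, avg_add, avg_const_mul, avg_const_mul, avg_const_mul, avg_const_mul, h2,
    ← dens_eq_avg, ← dens_eq_avg, ← dens_eq_avg] at h6
  unfold Uup
  linarith

/-- the trivial bound for the product of the weights -/
noncomputable def CS (S : Finset (Irr k)) : ℝ :=
  ∏ w ∈ S.insertNone, (2 * ((Nat.card (AdjoinRoot (pol w)) : ℝ) + 1))

lemma CS_pos (S : Finset (Irr k)) : 0 < CS S := Finset.prod_pos fun _ _ => by positivity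

lemma final3_low (N j : ℕ) {d n : ℕ} (hn : n ≤ d) {f : Model k[X]} (hf : f ∈ VBox k d n) :
    2 * (ind (MinOn (irrLE k N) f.jac) * ∏ w ∈ (irrLE k N).insertNone, phiM w j d n f) -
      2 * CS (irrLE k N) * ind (BadM (irrLE k N) j d n f) - 2 * ind (f.map (toK k)).Triv -
      2 * ind (∃ p : Irr k, N < p.1.natDegree ∧ p.1 ^ 2 ∣ f.jac.Δ) ≤
    ind (IsMin f.jac) * stab d f.jac * (ind (¬(f.map (toK k)).Triv ∧ SqfOff (irrLE k N) f.jac) *
      ∏ w ∈ (irrLE k N).insertNone, phiW w d n f) := by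
  have q0 : 0 ≤ ∏ w ∈ (irrLE k N).insertNone, phiW w d n f :=
    Finset.prod_nonneg fun w _ => phiW_nonneg w d n f
  have p0 : 0 ≤ ind (IsMin f.jac) * stab d f.jac *
      (ind (¬(f.map (toK k)).Triv ∧ SqfOff (irrLE k N) f.jac) *
        ∏ w ∈ (irrLE k N).insertNone, phiW w d n f) :=
    mul_nonneg (mul_nonneg (ind_nonneg _) (Nat.cast_nonneg _)) (mul_nonneg (ind_nonneg _) q0)
  have p1 := ind_nonneg (f.map (toK k)).Triv
  have p2 := ind_nonneg (∃ p : Irr k, N < p.1.natDegree ∧ p.1 ^ 2 ∣ f.jac.Δ)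
  have p3 : ind (MinOn (irrLE k N) f.jac) * ∏ w ∈ (irrLE k N).insertNone, phiM w j d n f ≤
      ∏ w ∈ (irrLE k N).insertNone, phiM w j d n f :=
    mul_le_of_le_one_left (Finset.prod_nonneg fun w _ => phiM_nonneg w j d n f) (ind_le_one _)
  by_cases h1 : BadM (irrLE k N) j d n f
  · have p4 : ∏ w ∈ (irrLE k N).insertNone, phiM w j d n f ≤ CS (irrLE k N) :=
      Finset.prod_le_prod (fun w _ => phiM_nonneg w j d n f) fun w _ => phiM_le w j d n f
    rw [ind_pos h1]
    linarith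
  have hΔ : f.jac.Δ ≠ 0 := fun h0 => h1 ⟨none, Finset.none_mem_insertNone, by
    rw [jac_locV none hn hf, locW_Delta_eq_zero none (jac_mem_WBox hn hf) h0]
    exact dvd_zero _⟩
  have q1 : ∏ w ∈ (irrLE k N).insertNone, phiW w d n f ≤ 1 :=
    Finset.prod_le_one (fun w _ => phiW_nonneg w d n f) fun w _ => phiW_le_one w hn hf hΔ
  rw [← Finset.prod_congr rfl fun w hw => phiW_eq_phiM w j d n fun h => h1 ⟨w, hw, h⟩] at p3 ⊢
  rw [ind_neg h1]
  by_cases h2 : (f.map (toK k)).Triv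
  · rw [ind_pos h2]
    linarith
  by_cases h3 : ∃ p : Irr k, N < p.1.natDegree ∧ p.1 ^ 2 ∣ f.jac.Δ
  · rw [ind_pos h3]
    linarith
  by_cases h4 : MinOn (irrLE k N) f.jac
  swap
  · rw [ind_neg h4]
    linarith
  have h5 : SqfOff (irrLE k N) f.jac := fun p hp h => h3 ⟨p, not_le.1 (mem_irrLE.not.1 hp), h⟩
  have h6 : IsMin f.jac := ⟨hΔ, fun p hp => by
    by_cases h : p ∈ irrLE k N
    · exact h4 p h hp
    · exact h5 p h ((pow_dvd_pow _ (by norm_num)).trans hp.dvd_Delta)⟩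
  have q2 : (2 : ℝ) ≤ stab d f.jac := by exact_mod_cast two_le_stab (jac_mem_WBox hn hf) hΔ
  have q3 := mul_le_mul_of_nonneg_right q2 q0
  rw [ind_pos h6, ind_pos (And.intro h2 h5), ind_pos h4, ind_neg h2, ind_neg h3]
  linarith

/-- Pointwise, the integrand of `Ulow` is at least `2 * (ind (MinOn ..) * ∏ phiM)
  - 2 * CS * ind BadM - 2 * ind Triv - 2 * ind (∃ p, N < deg p ∧ p^2 ∣ Δ)`.  If `BadM` fails then
`Δ ≠ 0` (`jac_locV`, `locW_Delta_eq_zero`) and the products agree and are at most `1`;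
`NonMin.dvd_Delta` gives minimality outside `irrLE k N`; `two_le_stab`.  Use `avg_phiM`,
`tendsto_triv`, `tail_le`. -/
theorem le_Ulow (N : ℕ) {j : ℕ} (hj : 2 ≤ j) (n : ℕ) {ε η : ℝ} (hη : 0 < η)
    (h : ∀ᶠ d in atTop, dens (VBox k d n) (BadM (irrLE k N) j d n) ≤ ε) :
    ∀ᶠ d in atTop, 2 * (cS (irrLE k N) * delta (irrLE k N) j) - 2 * CS (irrLE k N) * ε
      - 8 * (1 / 2 : ℝ) ^ N - η ≤ Ulow (irrLE k N) d n := by
  filter_upwards [h, avg_phiM (irrLE k N) hj n, eventually_ge_atTop n,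
    final3_small (tendsto_triv (k := k) n) 2 (half_pos hη),
    tail_le (k := k) n N (half_pos (half_pos hη))] with d h1 h2 h3 h4 h5
  have h6 := avg_mono fun f hf => final3_low (k := k) N j h3 hf
  rw [avg_sub, avg_sub, avg_sub, avg_const_mul, avg_const_mul, avg_const_mul, avg_const_mul, h2,
    ← dens_eq_avg, ← dens_eq_avg, ← dens_eq_avg] at h6
  have h7 := mul_le_mul_of_nonneg_left h1 (CS_pos (irrLE k N)).le
  unfold Ulow
  linarith

lemma final3_Td_up (S : Finset (Irr k)) (d : ℕ) (W : WeierstrassCurve k[X]) :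
    ind (IsMin W) * stab d W ≤
      2 * ind (MinOn S W) + 16 * Nat.card k * ind (W.c₄ = 0 ∨ W.c₆ = 0) := by
  have p1 := ind_nonneg (MinOn S W)
  have p2 : 0 ≤ 16 * (Nat.card k : ℝ) * ind (W.c₄ = 0 ∨ W.c₆ = 0) :=
    mul_nonneg (by positivity) (ind_nonneg _)
  by_cases hm : IsMin W
  swap
  · rw [ind_neg hm, zero_mul]
    linarith
  rw [ind_pos hm, one_mul, ind_pos (show MinOn S W from fun p _ => hm.2 p)]
  by_cases h1 : W.c₄ = 0 ∨ W.c₆ = 0
  · have q2 : (stab d W : ℝ) ≤ 16 * Nat.card k := by exact_mod_cast stab_le d W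
    rw [ind_pos h1]
    linarith
  · have q5 : (stab d W : ℝ) ≤ 2 := by
      exact_mod_cast stab_le_two (fun h => h1 (Or.inl h)) fun h => h1 (Or.inr h)
    linarith

/-- `dens_minOn`, `stab_le_two`, `stab_le`, `tendsto_c46_W` -/
theorem Td_le (S : Finset (Irr k)) {j : ℕ} (hj : 2 ≤ j) {η : ℝ} (hη : 0 < η) :
    ∀ᶠ d in atTop, Td k d ≤ 2 * delta S j + η := by
  filter_upwards [dens_minOn S hj, final3_small (tendsto_c46_W (k := k)) (16 * Nat.card k) hη]
    with d h1 h2
  have h3 := avg_mono (s := WBox k d) fun W _ => final3_Td_up S d W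
  rw [avg_add, avg_const_mul, avg_const_mul, ← dens_eq_avg, ← dens_eq_avg, h1] at h3
  unfold Td
  linarith

lemma final3_Td_low (N : ℕ) {d : ℕ} {W : WeierstrassCurve k[X]} (hW : W ∈ WBox k d) :
    2 * ind (MinOn (irrLE k N) W) - 2 * ind (W.Δ = 0) -
      2 * ind (W.Δ ≠ 0 ∧ ∃ p : Irr k, N < p.1.natDegree ∧ NonMin p.1 W) ≤
    ind (IsMin W) * stab d W := by
  have p0 : 0 ≤ ind (IsMin W) * stab d W := mul_nonneg (ind_nonneg _) (Nat.cast_nonneg _)
  have p1 := ind_le_one (MinOn (irrLE k N) W)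
  have p2 := ind_nonneg (W.Δ = 0)
  have p3 := ind_nonneg (W.Δ ≠ 0 ∧ ∃ p : Irr k, N < p.1.natDegree ∧ NonMin p.1 W)
  by_cases h1 : W.Δ = 0
  · rw [ind_pos h1]
    linarith
  by_cases h2 : W.Δ ≠ 0 ∧ ∃ p : Irr k, N < p.1.natDegree ∧ NonMin p.1 W
  · rw [ind_pos h2]
    linarith
  by_cases h3 : MinOn (irrLE k N) W
  swap
  · rw [ind_neg h3]
    linarith
  have h4 : IsMin W := ⟨h1, fun p hp => by
    by_cases h : p ∈ irrLE k N
    · exact h3 p h hp
    · exact h2 ⟨h1, p, not_le.1 (mem_irrLE.not.1 h), hp⟩⟩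
  have q2 : (2 : ℝ) ≤ stab d W := by exact_mod_cast two_le_stab hW h1
  rw [ind_pos h4]
  linarith

/-- `dens_minOn`, `two_le_stab`, `tendsto_Delta_W`, `dens_exists_nonMin_le` -/
theorem le_Td (N : ℕ) {j : ℕ} (hj : 2 ≤ j) {η : ℝ} (hη : 0 < η) :
    ∀ᶠ d in atTop, 2 * delta (irrLE k N) j - 1 / 2 * (1 / 2 : ℝ) ^ N - η ≤ Td k d := by
  filter_upwards [dens_minOn (irrLE k N) hj, final3_small (tendsto_Delta_W (k := k)) 2 hη]
    with d h1 h2
  have h3 := avg_mono (s := WBox k d) fun W hW => final3_Td_low N hW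
  have h4 := dens_exists_nonMin_le (k := k) d N
  rw [avg_sub, avg_sub, avg_const_mul, avg_const_mul, avg_const_mul, ← dens_eq_avg, ← dens_eq_avg,
    ← dens_eq_avg, h1] at h3
  unfold Td
  linarith

/-- `irrLE k 0` is empty -/
theorem one_le_Td : ∀ᶠ d in atTop, 1 ≤ Td k d := by
  have h0 : irrLE k 0 = ∅ := Finset.eq_empty_of_forall_notMem fun p hp =>
    p.2.2.natDegree_pos.not_ge (mem_irrLE.1 hp)
  filter_upwards [le_Td (k := k) 0 (le_refl 2) one_half_pos] with d h1
  rw [h0, delta, Finset.prod_empty] at h1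
  linarith

end SelAvg

/-!
The limit of the ratio.
-/

namespace SelAvg

open WeierstrassCurve Polynomial Filter Topology
open scoped Classical

universe u

variable {k : Type u} [Field k] [Finite k]

lemma tendsto_cS : Tendsto (fun N => cS (irrLE k N)) atTop
    (𝓝 ((1 - 1 / (Nat.card k : ℝ)) * (1 - 1 / (Nat.card k : ℝ) ^ 2))) := by
  rw [mul_comm]
  exact euler_tendsto.const_mul _

lemma final4_const : ∃ c σ : ℝ, 0 < c ∧ c ≤ 1 ∧ 0 < σ ∧ σ * c = 2 ∧ HasSum (wn (Nat.card k)) σ ∧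
    Tendsto (fun N => cS (irrLE k N)) atTop (𝓝 c) := by
  have hq := euler_two_le (k := k)
  have h1 : 1 / (Nat.card k : ℝ) < 1 := (div_lt_one (by linarith)).2 (by linarith)
  have h2 : 1 / (Nat.card k : ℝ) ^ 2 < 1 := (div_lt_one (by positivity)).2 (by nlinarith)
  have h3 : 0 < 1 / (Nat.card k : ℝ) := by positivity
  have h4 : 0 < 1 / (Nat.card k : ℝ) ^ 2 := by positivity
  have h5 : 0 < (1 - 1 / (Nat.card k : ℝ)) * (1 - 1 / (Nat.card k : ℝ) ^ 2) :=
    mul_pos (by linarith) (by linarith)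
  exact ⟨_, _, h5, mul_le_one₀ (by linarith) (by linarith) (by linarith), div_pos two_pos h5,
    div_mul_cancel₀ _ h5.ne', hasSum_wn (by linarith), tendsto_cS⟩

lemma final4_tail {w : ℕ → ℝ} {σ e : ℝ} (hs : HasSum w σ) (he : 0 < e) :
    ∃ n₀, σ - ∑ n ∈ Finset.range n₀, w n ≤ e := by
  obtain ⟨n₀, h⟩ := (hs.tendsto_sum_nat.eventually (lt_mem_nhds (sub_lt_self σ he))).exists
  exact ⟨n₀, by linarith⟩

lemma final4_N {f : ℕ → ℝ} {c e : ℝ} (h : Tendsto f atTop (𝓝 c)) (he : 0 < e) :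
    ∃ N, f N ≤ c + e ∧ c - e ≤ f N ∧ (1 / 2 : ℝ) ^ N ≤ e := by
  have h1 := h.eventually (gt_mem_nhds (lt_add_of_pos_right c he))
  have h2 := h.eventually (lt_mem_nhds (sub_lt_self c he))
  have h3 := (tendsto_pow_atTop_nhds_zero_of_lt_one (r := (1 / 2 : ℝ)) (by norm_num)
    (by norm_num)).eventually (gt_mem_nhds he)
  obtain ⟨N, a, b, d⟩ := (h1.and (h2.and h3)).exists
  exact ⟨N, a.le, b.le, d.le⟩

lemma final4_up {w U : ℕ → ℝ} {σ A B t : ℝ} {n₀ m : ℕ} (hw : ∀ n, 0 ≤ w n) (hs : HasSum w σ)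
    (hA : 0 ≤ A) (hB : 0 ≤ B) (h1 : ∀ n < n₀, U n ≤ A) (h2 : ∀ n < m, U n ≤ B)
    (ht : σ - ∑ n ∈ Finset.range n₀, w n ≤ t) (hm : n₀ ≤ m) :
    ∑ n ∈ Finset.range m, w n * U n ≤ σ * A + t * B := by
  have a1 : ∑ n ∈ Finset.range n₀, w n * U n ≤ σ * A := by
    refine le_trans ?_ (mul_le_mul_of_nonneg_right
      (sum_le_hasSum (Finset.range n₀) (fun n _ => hw n) hs) hA)
    rw [Finset.sum_mul]
    exact Finset.sum_le_sum fun n hn =>
      mul_le_mul_of_nonneg_left (h1 n (Finset.mem_range.1 hn)) (hw n)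
  have a2 : ∑ n ∈ Finset.Ico n₀ m, w n ≤ t := by
    have := sum_le_hasSum (Finset.range m) (fun n _ => hw n) hs
    rw [← Finset.sum_range_add_sum_Ico _ hm] at this
    linarith
  have a3 : ∑ n ∈ Finset.Ico n₀ m, w n * U n ≤ t * B := by
    refine le_trans ?_ (mul_le_mul_of_nonneg_right a2 hB)
    rw [Finset.sum_mul]
    exact Finset.sum_le_sum fun n hn =>
      mul_le_mul_of_nonneg_left (h2 n (Finset.mem_Ico.1 hn).2) (hw n)
  rw [← Finset.sum_range_add_sum_Ico _ hm]
  linarith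

lemma final4_low {w U : ℕ → ℝ} {A : ℝ} {n₀ m : ℕ} (hw : ∀ n, 0 ≤ w n) (hU : ∀ n, 0 ≤ U n)
    (h1 : ∀ n < n₀, A ≤ U n) (hm : n₀ ≤ m) :
    (∑ n ∈ Finset.range n₀, w n) * A ≤ ∑ n ∈ Finset.range m, w n * U n := by
  rw [Finset.sum_mul]
  refine le_trans (Finset.sum_le_sum fun n hn =>
    mul_le_mul_of_nonneg_left (h1 n (Finset.mem_range.1 hn)) (hw n)) ?_
  exact Finset.sum_le_sum_of_subset_of_nonneg (Finset.range_mono hm)
    fun n _ _ => mul_nonneg (hw n) (hU n)

/-- Let `c = (1 - 1 / q) (1 - 1 / q^2)`, `σ = 2 / c` the sum of the `wn q n`.  Choose `n₀` such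
that the tail of the sum after `n₀` is small, `N` such that `cS (irrLE k N) - c` and `2^(-N)` are
small, and `j` from `exists_level`.  For large `d` (`Filter.eventually_all_finset`) split the sum
in `Sd_le` at `n₀`: `Sd ≤ σ (2 (c + ε₂) δ + 2 ε₃ + η) + 64 q ε₁` with `0 ≤ δ ≤ 1`, and
`2 Td ≥ 4 δ - 2^(-N) - 2 η` (`le_Td`). -/
theorem Sd_sub_le {ε : ℝ} (hε : 0 < ε) : ∀ᶠ d in atTop, Sd k d - 2 * Td k d ≤ ε := by
  obtain ⟨c, σ, c0, -, s0, hc, hs, ht⟩ := final4_const (k := k)
  have hq := euler_two_le (k := k)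
  obtain ⟨e, he, hE⟩ : ∃ e : ℝ, 0 < e ∧ (5 * σ + 64 * Nat.card k + 3) * e = ε :=
    ⟨ε / (5 * σ + 64 * Nat.card k + 3), by positivity, by field_simp⟩
  obtain ⟨n₀, h1⟩ := final4_tail hs he
  obtain ⟨N, h2, -, h3⟩ := final4_N ht he
  obtain ⟨j, hj, h4⟩ := exists_level (irrLE k N) he
  have d0 := delta_nonneg (irrLE k N) j
  have d1 := delta_le_one (irrLE k N) j
  have h5 := (eventually_all_finset (Finset.range n₀)).2 fun n _ =>
    Uup_le (irrLE k N) hj n he (h4 n)
  filter_upwards [h5, le_Td (k := k) N hj he, eventually_ge_atTop n₀] with d h6 h7 h8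
  have h9 := (Sd_le (irrLE k N) d).trans (final4_up (wn_nonneg (by linarith)) hs
    (A := 2 * ((c + e) * delta (irrLE k N) j) + 3 * e) (B := 64 * Nat.card k) (by positivity)
    (by positivity) (fun n hn => by
      have a1 := h6 n (Finset.mem_range.2 hn)
      have a2 := mul_le_mul_of_nonneg_right h2 d0
      linarith) (fun n hn => Uup_le_const _ (Nat.le_of_lt_succ hn)) h1 (Nat.le_succ_of_le h8))
  have a1 : σ * e * delta (irrLE k N) j ≤ σ * e * 1 :=
    mul_le_mul_of_nonneg_left d1 (by positivity)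
  have a2 : σ * c * delta (irrLE k N) j = 2 * delta (irrLE k N) j := by rw [hc]
  linarith

/-- Similarly with `le_Sd`, `Ulow_nonneg`, `le_Ulow`, `Td_le`; the partial sum of the `wn q n` up
to `n₀` lies between `σ - ε₁` and `σ`. -/
theorem le_Sd_sub {ε : ℝ} (hε : 0 < ε) : ∀ᶠ d in atTop, -ε ≤ Sd k d - 2 * Td k d := by
  obtain ⟨c, σ, c0, c1, s0, hc, hs, ht⟩ := final4_const (k := k)
  have hq := euler_two_le (k := k)
  obtain ⟨e, he, hE⟩ : ∃ e : ℝ, 0 < e ∧ (13 * σ + 4) * e = ε :=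
    ⟨ε / (13 * σ + 4), by positivity, by field_simp⟩
  obtain ⟨n₀, h1⟩ := final4_tail hs he
  obtain ⟨N, -, h2, h3⟩ := final4_N ht he
  have hC := CS_pos (irrLE k N)
  obtain ⟨j, hj, h4⟩ := exists_level (irrLE k N) (div_pos he hC)
  have d0 := delta_nonneg (irrLE k N) j
  have d1 := delta_le_one (irrLE k N) j
  have h5 := (eventually_all_finset (Finset.range n₀)).2 fun n _ => le_Ulow N hj n he (h4 n)
  have hw := wn_nonneg (q := Nat.card k) (by linarith)
  filter_upwards [h5, Td_le (irrLE k N) hj he, eventually_ge_atTop n₀] with d h6 h7 h8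
  have h9 := (final4_low hw (Ulow_nonneg (irrLE k N) d)
    (A := 2 * ((c - e) * delta (irrLE k N) j) - 11 * e) (fun n hn => by
      have a1 := h6 n (Finset.mem_range.2 hn)
      have a2 := mul_le_mul_of_nonneg_right h2 d0
      have a3 : CS (irrLE k N) * (e / CS (irrLE k N)) = e := mul_div_cancel₀ _ hC.ne'
      linarith) (Nat.le_succ_of_le h8)).trans (le_Sd (irrLE k N) d)
  have p1 := sum_le_hasSum (Finset.range n₀) (fun n _ => hw n) hs
  generalize ∑ n ∈ Finset.range n₀, wn (Nat.card k) n = P at h1 h9 p1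
  generalize delta (irrLE k N) j = δ at *
  have a1 : (σ - e) * (c * δ) ≤ P * (c * δ) :=
    mul_le_mul_of_nonneg_right (by linarith) (by positivity)
  have a2 : σ * c * δ = 2 * δ := by rw [hc]
  have a3 : e * (c * δ) ≤ e * 1 :=
    mul_le_mul_of_nonneg_left (mul_le_one₀ c1 d0 d1) he.le
  have a4 : P * (e * δ) ≤ σ * (e * δ) := mul_le_mul_of_nonneg_right p1 (by positivity)
  have a5 : σ * e * δ ≤ σ * e * 1 := mul_le_mul_of_nonneg_left d1 (by positivity)
  have a6 : P * e ≤ σ * e := mul_le_mul_of_nonneg_right p1 he.le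
  linarith

theorem tendsto_ratio : Tendsto (fun d => Sd k d / Td k d) atTop (𝓝 2) := by
  refine Metric.tendsto_nhds.2 fun ε hε => ?_
  filter_upwards [Sd_sub_le (k := k) (half_pos hε), le_Sd_sub (k := k) (half_pos hε),
    one_le_Td (k := k)] with d h1 h2 h3
  have h4 : 0 < Td k d := by linarith
  have h5 : Sd k d / Td k d - 2 = (Sd k d - 2 * Td k d) / Td k d := by field_simp
  rw [Real.dist_eq, h5, abs_div, abs_of_pos h4]
  exact ((div_le_self (abs_nonneg _) h3).trans (abs_le.2 ⟨h2, h1⟩)).trans_lt (half_lt_self hε)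

end SelAvg

/-!
The average size of the 2-Selmer group over the rational function field.
-/

namespace SelAvg

open WeierstrassCurve Polynomial Filter Topology
open scoped Classical

universe u

variable {k : Type u} [Field k] [Finite k]

/-- `exists_box_of_model`, `finite_SelOrb`, `finite_Sel` -/
theorem finite_Sel_two {W : WeierstrassCurve (RatFunc k)} (hW : W.Δ ≠ 0) : (Sel W 2).Finite := by
  obtain ⟨m, u, W', hW', e, -⟩ := exists_box_of_model hW
  have hΔ : W'.Δ ≠ 0 := by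
    have h1 : (W'.map (toK k)).Δ ≠ 0 := e ▸ (Delta_smul_ne_zero _).2 hW
    rw [map_Δ] at h1
    exact fun h => h1 (by rw [h, map_zero])
  exact (finite_Sel hW (wdiag u) (e ▸ finite_SelOrb hW' hΔ)).1

/-- `classes_sum` with `F = 1` and with `F c = ncard (Sel (out c) 2)`,
`F' W = ncard (SelOrb (W.map toK)) + 1`; `finsum_mem_eq_finite_toFinset_sum` or `finsum_one`;
`card_GBox`, `Finset.sum_filter`. -/
theorem ratio_eq {d : ℕ} {X : ℝ} (h1 : (Nat.card k : ℝ) ^ (12 * d) ≤ X)
    (h2 : X < (Nat.card k : ℝ) ^ (12 * (d + 1))) (hT : Td k d ≠ 0) :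
    (∑ᶠ c ∈ classesLE (RatFunc k) X, ((Sel (Quot.out c).1 2).ncard : ℝ)) /
      ((classesLE (RatFunc k) X).ncard : ℝ) = 1 + Sd k d / Td k d := by
  have hfin := finite_classesLE (k := k) X
  have e1 := classes_sum (k := k) h1 h2 (fun _ => 1) (fun _ => 1) fun _ _ _ _ _ => rfl
  have e2 := classes_sum (k := k) h1 h2 (fun c => ((Sel (Quot.out c).1 2).ncard : ℝ))
    (fun W => ((SelOrb (W.map (toK k))).ncard : ℝ) + 1) fun c W hW _ hc => by
      obtain ⟨C, hC⟩ := hc
      have hΔ : W.Δ ≠ 0 := by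
        have h3 : (W.map (toK k)).Δ ≠ 0 := hC ▸ (Delta_smul_ne_zero _).2 (out_Delta_ne_zero c)
        rw [map_Δ] at h3
        exact fun h => h3 (by rw [h, map_zero])
      have h4 := (finite_Sel (out_Delta_ne_zero c) C (hC ▸ finite_SelOrb hW hΔ)).2
      rw [hC] at h4
      simp only [h4]
      push_cast
      rfl
  have e3 : (∑ᶠ _c ∈ classesLE (RatFunc k) X, (1 : ℝ)) = ((classesLE (RatFunc k) X).ncard : ℝ) := by
    rw [finsum_mem_eq_finite_toFinset_sum _ hfin, Set.ncard_eq_toFinset_card _ hfin]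
    simp
  rw [e3] at e1
  have hG : ((GBox k d).card : ℝ) ≠ 0 := by
    have h3 := two_le_card k
    have h4 : 0 < (GBox k d).card := by
      rw [card_GBox]
      exact Nat.mul_pos (by omega) (Nat.pow_pos (by omega))
    exact_mod_cast h4.ne'
  have hN : ((WBox k d).card : ℝ) ≠ 0 := by
    exact_mod_cast (WBox_nonempty (k := k) d).card_pos.ne'
  have e4 : ∑ W ∈ WBox k d with IsMin W, (1 : ℝ) * stab d W = Td k d * (WBox k d).card := by
    rw [Td, avg, div_mul_cancel₀ _ hN, Finset.sum_filter]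
    refine Finset.sum_congr rfl fun W _ => ?_
    unfold ind
    split_ifs <;> simp
  have e5 : ∑ W ∈ WBox k d with IsMin W, (((SelOrb (W.map (toK k))).ncard : ℝ) + 1) * stab d W =
      (Td k d + Sd k d) * (WBox k d).card := by
    rw [Td, Sd, avg, avg, ← add_div, div_mul_cancel₀ _ hN, Finset.sum_filter,
      ← Finset.sum_add_distrib]
    refine Finset.sum_congr rfl fun W _ => ?_
    unfold ind
    split_ifs <;> ring
  rw [e4] at e1
  rw [e5] at e2
  rw [eq_div_of_mul_eq hG e1, eq_div_of_mul_eq hG e2]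
  field_simp

theorem selmerAverage_two : SelmerAverage (RatFunc k) 2 3 := by
  refine ⟨fun W hW => finite_Sel_two hW.isUnit.ne_zero, finite_classesLE, ?_⟩
  have hq := two_le_card k
  have h1 : Tendsto (fun X : ℝ => 1 + Sd k (dOf (Nat.card k) X) / Td k (dOf (Nat.card k) X))
      atTop (𝓝 3) := by
    have := (tendsto_ratio (k := k)).comp (tendsto_dOf hq)
    have h3 : (3 : ℝ) = 1 + 2 := by norm_num
    rw [h3]
    exact this.const_add 1
  refine h1.congr' ?_
  filter_upwards [eventually_ge_atTop 1, (tendsto_dOf hq).eventually (one_le_Td (k := k))]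
    with X hX hT
  exact (ratio_eq (dOf_spec hq hX).1 (dOf_spec hq hX).2 (by linarith)).symm

end SelAvg
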