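import Pool.Agent.H38Sel.RatB
import Pool.Agent.H38Sel.AlgB
import Pool.Agent.H38Sel.LocB
import Pool.Agent.H38Sel.RatA

/-!
Boxes of models, Weierstrass equations, changes of variables and objects; local coordinates.
-/

namespace SelAvg

open WeierstrassCurve Polynomial
open scoped Classical

universe u

variable {k : Type u} [Field k]

/-- degree bounds for the coefficients of models -/
def DV (d n : ℕ) : Fin 8 → ℕ := ![d - n, d, d + n, 2 * (d - n), d + (d - n), 2 * d, 2 * d + n,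
  2 * d + 2 * n]

/-- degree bounds for Weierstrass coefficients -/
def DW (d : ℕ) : Fin 5 → ℕ := ![d, 2 * d, 3 * d, 4 * d, 6 * d]

/-- the unit `t` of the rational function field -/
noncomputable def tU (k : Type u) [Field k] : (RatFunc k)ˣ := Units.mk0 RatFunc.X RatFunc.X_ne_zero

/-- the matrix `diag (1, t^(-n))` at infinity, the identity at finite places -/
noncomputable def twM : Option (Irr k) → ℕ → GL (Fin 2) (RatFunc k)
  | none, n => Matrix.GeneralLinearGroup.mkOfDetNeZero !![1, 0; 0, (RatFunc.X ^ n)⁻¹]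
      (by simp [Matrix.det_fin_two, RatFunc.X_ne_zero])
  | some _, _ => 1

/-- the twist of models at `w` -/
noncomputable def tW : Option (Irr k) → ℕ → ℕ → G (RatFunc k)
  | none, d, n => ⟨twM none n, tU k ^ (d - n), 0, 0, 0⟩
  | some _, _, _ => 1

/-- the twist of Weierstrass equations at `w` -/
noncomputable def cW : Option (Irr k) → ℕ → VariableChange (RatFunc k)
  | none, d => wdiag (tU k ^ d)
  | some _, _ => 1

lemma tW_M (w : Option (Irr k)) (d n : ℕ) : (tW w d n).M = twM w n := by cases w <;> rfl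
@[simp] lemma tW_some (p : Irr k) (d n : ℕ) : tW (some p) d n = 1 := rfl
@[simp] lemma twM_some (p : Irr k) (n : ℕ) : twM (some p) n = 1 := rfl
@[simp] lemma cW_some (p : Irr k) (d : ℕ) : cW (some p) d = 1 := rfl

/-- local coordinates of a model -/
noncomputable def locV (w : Option (Irr k)) (d n : ℕ) (f : Model k[X]) : Model k[X] :=
  Model.equivVec.symm fun i => locp w (DV d n i) (Model.equivVec f i)

/-- local coordinates of a Weierstrass equation -/
noncomputable def locW (w : Option (Irr k)) (d : ℕ) (W : WeierstrassCurve k[X]) :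
    WeierstrassCurve k[X] :=
  wEquivVec.symm fun i => locp w (DW d i) (wEquivVec W i)

/-- local coordinates of a change of variables -/
noncomputable def locC (w : Option (Irr k)) (d : ℕ) (C : VariableChange k[X]) :
    VariableChange k[X] :=
  ⟨C.u, locp w (2 * d) C.r, locp w d C.s, locp w (3 * d) C.t⟩

/-- local coordinates of an object -/
noncomputable def locObj (w : Option (Irr k)) (d n : ℕ) (z : Obj k[X]) : Obj k[X] :=
  ⟨locV w d n z.f, locC w d z.γ⟩

@[simp] lemma locV_some (p : Irr k) (d n : ℕ) (f : Model k[X]) : locV (some p) d n f = f := rfl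
@[simp] lemma locW_some (p : Irr k) (d : ℕ) (W : WeierstrassCurve k[X]) :
    locW (some p) d W = W := rfl
@[simp] lemma locC_some (p : Irr k) (d : ℕ) (C : VariableChange k[X]) :
    locC (some p) d C = C := rfl
@[simp] lemma locObj_some (p : Irr k) (d n : ℕ) (z : Obj k[X]) : locObj (some p) d n z = z := rfl
@[simp] lemma locObj_f (w : Option (Irr k)) (d n : ℕ) (z : Obj k[X]) :
    (locObj w d n z).f = locV w d n z.f := rfl

lemma boxes_iff_val (a : k[X]) (D : ℕ) :
    a.natDegree ≤ D ↔ (plc none).1 (toK k a * (RatFunc.X⁻¹) ^ D) ≤ 1 := by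
  by_cases ha : a = 0
  · subst ha
    simp
  · rw [map_mul, map_pow, map_inv₀, val_infty_toK ha, val_infty_X, ← WithZero.exp_neg,
      ← WithZero.exp_nsmul, ← WithZero.exp_add, ← WithZero.exp_zero, WithZero.exp_le_exp]
    simp only [smul_neg, nsmul_eq_mul, mul_one]
    omega

/-- if `a t^(-D)` is a polynomial in `1 / t` then `deg a ≤ D` (`val_infty_toK_le_iff`,
`val_emb_le_one`, `emb_reflect`, `emb_injective`) -/
lemma natDegree_le_of_emb {a b : k[X]} {D : ℕ}
    (h : emb none b = toK k a * (RatFunc.X⁻¹) ^ D) : a.natDegree ≤ D ∧ b = reflect D a := by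
  have h1 : a.natDegree ≤ D := by
    rw [boxes_iff_val, ← h]
    exact val_emb_le_one none b
  exact ⟨h1, emb_injective none (h.trans (emb_reflect h1).symm)⟩

/-- integrality of `a t^(-D)` at infinity -/
lemma natDegree_le_iff_val (a : k[X]) (D : ℕ) :
    a.natDegree ≤ D ↔ (plc none).1 (toK k a * (RatFunc.X⁻¹) ^ D) ≤ 1 := by
  exact boxes_iff_val a D

/-- units of `k[X]` are constants, on which all the embeddings agree -/
lemma emb_unit (w : Option (Irr k)) (c : k[X]ˣ) : emb w (c : k[X]) = toK k c := by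
  cases w with
  | none =>
    obtain ⟨r, -, hr⟩ := Polynomial.isUnit_iff.1 c.isUnit
    rw [← hr]
    simp [emb]
  | some p => rfl

lemma boxes_m11 (d n : ℕ) : (tW (none : Option (Irr k)) d n).m11 = 1 := rfl
lemma boxes_m12 (d n : ℕ) : (tW (none : Option (Irr k)) d n).m12 = 0 := rfl
lemma boxes_m21 (d n : ℕ) : (tW (none : Option (Irr k)) d n).m21 = 0 := rfl
lemma boxes_m22 (d n : ℕ) : (tW (none : Option (Irr k)) d n).m22 = (RatFunc.X⁻¹) ^ n :=
  (inv_pow _ _).symm
lemma boxes_r0 (d n : ℕ) : (tW (none : Option (Irr k)) d n).r0 = 0 := rfl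
lemma boxes_r1 (d n : ℕ) : (tW (none : Option (Irr k)) d n).r1 = 0 := rfl
lemma boxes_r2 (d n : ℕ) : (tW (none : Option (Irr k)) d n).r2 = 0 := rfl
lemma boxes_mu (d n : ℕ) : (tW (none : Option (Irr k)) d n).μ = tU k ^ (d - n) := rfl
lemma boxes_inv (m : ℕ) : (((tU k ^ m)⁻¹ : (RatFunc k)ˣ) : RatFunc k) = (RatFunc.X⁻¹) ^ m := by
  simp [tU]
lemma boxes_val (m : ℕ) : ((tU k ^ m : (RatFunc k)ˣ) : RatFunc k) = RatFunc.X ^ m := by
  simp [tU]

/-- the coefficients of the twisted model -/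
lemma tW_smul {d n : ℕ} (hn : n ≤ d) (f : Model (RatFunc k)) :
    tW (none : Option (Irr k)) d n • f =
      Model.equivVec.symm fun i => Model.equivVec f i * (RatFunc.X⁻¹) ^ DV d n i := by
  obtain ⟨e, rfl⟩ := Nat.exists_eq_add_of_le hn
  rw [G.smul_def, boxes_m11, boxes_m12, boxes_m21, boxes_m22, boxes_r0, boxes_r1, boxes_r2,
    boxes_mu, boxes_inv, Model.shift_zero]
  generalize (RatFunc.X⁻¹ : RatFunc k) = y
  ext <;> simp [Model.scale, Model.subst, Model.equivVec, DV] <;> ring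

lemma tW_Gam (w : Option (Irr k)) {d n : ℕ} (hn : n ≤ d) (f : Model (RatFunc k)) :
    (tW w d n).Gam f = cW w d := by
  cases w with
  | some p => exact G.Gam_one f
  | none =>
    obtain ⟨e, rfl⟩ := Nat.exists_eq_add_of_le hn
    have hdet : (tW (none : Option (Irr k)) (n + e) n).det = (tU k ^ n)⁻¹ := by
      ext
      rw [G.det_val, boxes_m11, boxes_m12, boxes_m21, boxes_m22, boxes_inv]
      ring
    refine VariableChange.ext ?_ ?_ ?_ ?_
    · rw [G.Gam_u, hdet, boxes_mu, inv_inv, Nat.add_sub_cancel_left, ← pow_add, add_comm]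
      rfl
    · rw [G.Gam_r, boxes_m11, boxes_m12, boxes_m21, boxes_r0, boxes_r2]
      simp [Model.shR, Model.subR, cW, wdiag]
    · rw [G.Gam_s, boxes_m11, boxes_m12, boxes_m21, boxes_r1]
      simp [Model.subS, cW, wdiag]
    · rw [G.Gam_t, boxes_m11, boxes_m12, boxes_m21, boxes_r0, boxes_r1, boxes_r2]
      simp [Model.shR, Model.shT, Model.subT, cW, wdiag]

lemma cW_smul (d : ℕ) (W : WeierstrassCurve (RatFunc k)) :
    cW (none : Option (Irr k)) d • W =
      wEquivVec.symm fun i => wEquivVec W i * (RatFunc.X⁻¹) ^ DW d i := by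
  have h : cW (none : Option (Irr k)) d • W = wsc ((RatFunc.X⁻¹) ^ d) W := by
    rw [← boxes_inv, wsc_unit, inv_inv]
    rfl
  rw [h]
  generalize (RatFunc.X⁻¹ : RatFunc k) = y
  ext <;> simp [wsc, wEquivVec, DW] <;> ring

lemma cW_conj (d : ℕ) (C : VariableChange (RatFunc k)) :
    cW (none : Option (Irr k)) d * C * (cW none d)⁻¹ = ⟨C.u, C.r * (RatFunc.X⁻¹) ^ (2 * d),
      C.s * (RatFunc.X⁻¹) ^ d, C.t * (RatFunc.X⁻¹) ^ (3 * d)⟩ := by
  have hX : (RatFunc.X : RatFunc k) ≠ 0 := RatFunc.X_ne_zero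
  rw [mul_inv_eq_iff_eq_mul]
  refine VariableChange.ext ?_ ?_ ?_ ?_ <;>
    simp only [cW, wdiag, VariableChange.mul_def, boxes_val, inv_pow]
  · exact mul_comm _ _
  · field_simp
    ring
  · field_simp
    ring
  · field_simp
    ring

variable [Finite k]

noncomputable def VBox (k : Type u) [Field k] [Finite k] (d n : ℕ) : Finset (Model k[X]) :=
  (piBox k (DV d n)).map Model.equivVec.symm.toEmbedding

noncomputable def WBox (k : Type u) [Field k] [Finite k] (d : ℕ) :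
    Finset (WeierstrassCurve k[X]) :=
  (piBox k (DW d)).map wEquivVec.symm.toEmbedding

lemma finite_GBox (k : Type u) [Field k] [Finite k] (d : ℕ) :
    {C : VariableChange k[X] | C.r.natDegree ≤ 2 * d ∧ C.s.natDegree ≤ d ∧
      C.t.natDegree ≤ 3 * d}.Finite := by
  have hU : Finite k[X]ˣ := by
    apply Nat.finite_of_card_ne_zero
    rw [card_units_poly]
    have := two_le_card k
    omega
  refine Set.Finite.of_finite_image (f := fun C => (C.u, C.r, C.s, C.t))
    ((Set.finite_univ.prod ((finite_natDegree_le k (2 * d)).prod ((finite_natDegree_le k d).prod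
      (finite_natDegree_le k (3 * d))))).subset ?_) ?_
  · rintro _ ⟨C, hC, rfl⟩
    exact ⟨Set.mem_univ _, hC⟩
  · intro C _ C' _ h
    simp only [Prod.mk.injEq] at h
    exact VariableChange.ext h.1 h.2.1 h.2.2.1 h.2.2.2

noncomputable def GBox (k : Type u) [Field k] [Finite k] (d : ℕ) : Finset (VariableChange k[X]) :=
  (finite_GBox k d).toFinset

noncomputable def ObjBox (k : Type u) [Field k] [Finite k] (d n : ℕ) : Finset (Obj k[X]) :=
  (VBox k d n ×ˢ GBox k d).map ⟨fun p => ⟨p.1, p.2⟩, fun p p' h => by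
    ext1
    · exact congrArg Obj.f h
    · exact congrArg Obj.γ h⟩

lemma mem_VBox {d n : ℕ} {f : Model k[X]} :
    f ∈ VBox k d n ↔ ∀ i, (Model.equivVec f i).natDegree ≤ DV d n i := by
  simp [VBox, Finset.mem_map_equiv, mem_piBox]

lemma mem_VBox' {d n : ℕ} {f : Model k[X]} :
    f ∈ VBox k d n ↔ f.l.natDegree ≤ d - n ∧ f.m.natDegree ≤ d ∧ f.n.natDegree ≤ d + n ∧
      f.a.natDegree ≤ 2 * (d - n) ∧ f.b.natDegree ≤ d + (d - n) ∧ f.c.natDegree ≤ 2 * d ∧
      f.d.natDegree ≤ 2 * d + n ∧ f.e.natDegree ≤ 2 * d + 2 * n := by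
  simp [mem_VBox, Fin.forall_fin_succ, DV, Model.equivVec]

lemma mem_WBox {d : ℕ} {W : WeierstrassCurve k[X]} :
    W ∈ WBox k d ↔ ∀ i, (wEquivVec W i).natDegree ≤ DW d i := by
  simp [WBox, Finset.mem_map_equiv, mem_piBox]

lemma mem_WBox' {d : ℕ} {W : WeierstrassCurve k[X]} :
    W ∈ WBox k d ↔ W.a₁.natDegree ≤ d ∧ W.a₂.natDegree ≤ 2 * d ∧ W.a₃.natDegree ≤ 3 * d ∧
      W.a₄.natDegree ≤ 4 * d ∧ W.a₆.natDegree ≤ 6 * d := by
  simp [mem_WBox, Fin.forall_fin_succ, DW, wEquivVec]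

lemma mem_GBox {d : ℕ} {C : VariableChange k[X]} :
    C ∈ GBox k d ↔ C.r.natDegree ≤ 2 * d ∧ C.s.natDegree ≤ d ∧ C.t.natDegree ≤ 3 * d := by
  simp [GBox]

lemma mem_ObjBox {d n : ℕ} {z : Obj k[X]} :
    z ∈ ObjBox k d n ↔ z.f ∈ VBox k d n ∧ z.γ ∈ GBox k d := by
  constructor
  · intro h
    obtain ⟨p, hp, rfl⟩ := Finset.mem_map.1 h
    exact Finset.mem_product.1 hp
  · intro h
    exact Finset.mem_map.2 ⟨(z.f, z.γ), Finset.mem_product.2 h, rfl⟩

lemma VBox_nonempty (d n : ℕ) : (VBox k d n).Nonempty :=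
  (piBox_nonempty _).map

lemma WBox_nonempty (d : ℕ) : (WBox k d).Nonempty :=
  (piBox_nonempty _).map

lemma avg_VBox (d n : ℕ) (F : Model k[X] → ℝ) :
    avg (VBox k d n) F = avg (piBox k (DV d n)) fun x => F (Model.equivVec.symm x) :=
  avg_map _ _ _

lemma dens_VBox (d n : ℕ) (P : Model k[X] → Prop) :
    dens (VBox k d n) P = dens (piBox k (DV d n)) fun x => P (Model.equivVec.symm x) :=
  dens_map _ _ _

lemma avg_WBox (d : ℕ) (F : WeierstrassCurve k[X] → ℝ) :
    avg (WBox k d) F = avg (piBox k (DW d)) fun x => F (wEquivVec.symm x) :=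
  avg_map _ _ _

lemma dens_WBox (d : ℕ) (P : WeierstrassCurve k[X] → Prop) :
    dens (WBox k d) P = dens (piBox k (DW d)) fun x => P (wEquivVec.symm x) :=
  dens_map _ _ _

lemma card_VBox {d n : ℕ} (hn : n ≤ d) : (VBox k d n).card = Nat.card k ^ (13 * d + 8) := by
  obtain ⟨e, rfl⟩ := Nat.exists_eq_add_of_le hn
  rw [VBox, Finset.card_map, card_piBox]
  congr 1
  simp [Fin.sum_univ_succ, DV]
  omega

lemma card_WBox (d : ℕ) : (WBox k d).card = Nat.card k ^ (16 * d + 5) := by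
  rw [WBox, Finset.card_map, card_piBox]
  congr 1
  simp [Fin.sum_univ_succ, DW]
  omega

lemma card_GBox (d : ℕ) : (GBox k d).card = (Nat.card k - 1) * Nat.card k ^ (6 * d + 3) := by
  have hU : Finite k[X]ˣ := by
    apply Nat.finite_of_card_ne_zero
    rw [card_units_poly]
    have := two_le_card k
    omega
  let := Fintype.ofFinite k[X]ˣ
  have h : (GBox k d).card = ((Finset.univ : Finset k[X]ˣ) ×ˢ (dBox k (2 * d) ×ˢ (dBox k d ×ˢ
      dBox k (3 * d)))).card := by
    refine Finset.card_bij' (fun C _ => (C.u, C.r, C.s, C.t))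
      (fun p _ => ⟨p.1, p.2.1, p.2.2.1, p.2.2.2⟩) ?_ ?_ (fun _ _ => rfl) (fun _ _ => rfl)
    · intro C hC
      simpa [mem_dBox, mem_GBox] using hC
    · intro p hp
      simpa [mem_dBox, mem_GBox] using hp
  rw [h]
  simp only [Finset.card_product, card_dBox, Finset.card_univ, ← pow_add]
  rw [← Nat.card_eq_fintype_card, card_units_poly]
  congr 2
  omega

lemma WBox_mono {d d' : ℕ} (h : d ≤ d') : WBox k d ⊆ WBox k d' := by
  intro W hW
  rw [mem_WBox'] at hW ⊢
  omega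

omit [Finite k] in
lemma boxes_add {a b : k[X]} {D : ℕ} (ha : a.natDegree ≤ D) (hb : b.natDegree ≤ D) :
    (a + b).natDegree ≤ D := natDegree_add_le_of_degree_le ha hb

omit [Finite k] in
lemma boxes_sub {a b : k[X]} {D : ℕ} (ha : a.natDegree ≤ D) (hb : b.natDegree ≤ D) :
    (a - b).natDegree ≤ D := (natDegree_sub_le a b).trans (max_le ha hb)

omit [Finite k] in
lemma boxes_mul {a b : k[X]} {m n D : ℕ} (ha : a.natDegree ≤ m) (hb : b.natDegree ≤ n)
    (h : m + n ≤ D) : (a * b).natDegree ≤ D := (natDegree_mul_le_of_le ha hb).trans h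

omit [Finite k] in
lemma boxes_pow {a : k[X]} {m D : ℕ} (n : ℕ) (ha : a.natDegree ≤ m) (h : n * m ≤ D) :
    (a ^ n).natDegree ≤ D := (natDegree_pow_le_of_le n ha).trans h

omit [Finite k] in
lemma boxes_nat (n : ℕ) [n.AtLeastTwo] : (OfNat.ofNat n : k[X]).natDegree ≤ 0 :=
  (natDegree_ofNat n).le

lemma natDegree_Delta_le {d : ℕ} {W : WeierstrassCurve k[X]} (hW : W ∈ WBox k d) :
    W.Δ.natDegree ≤ 12 * d := by
  obtain ⟨h1, h2, h3, h4, h6⟩ := mem_WBox'.1 hW
  have b2 : W.b₂.natDegree ≤ 2 * d := by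
    rw [WeierstrassCurve.b₂]
    refine boxes_add (boxes_pow 2 h1 (by omega)) (boxes_mul (boxes_nat 4) h2 (by omega))
  have b4 : W.b₄.natDegree ≤ 4 * d := by
    rw [WeierstrassCurve.b₄]
    exact boxes_add (boxes_mul (boxes_nat 2) h4 (by omega)) (boxes_mul h1 h3 (by omega))
  have b6 : W.b₆.natDegree ≤ 6 * d := by
    rw [WeierstrassCurve.b₆]
    exact boxes_add (boxes_pow 2 h3 (by omega)) (boxes_mul (boxes_nat 4) h6 (by omega))
  have b8 : W.b₈.natDegree ≤ 8 * d := by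
    rw [WeierstrassCurve.b₈]
    refine boxes_sub (boxes_add (boxes_sub (boxes_add ?_ ?_) ?_) ?_) ?_
    · exact boxes_mul (boxes_pow 2 h1 le_rfl) h6 (by omega)
    · exact boxes_mul (boxes_mul (boxes_nat 4) h2 le_rfl) h6 (by omega)
    · exact boxes_mul (boxes_mul h1 h3 le_rfl) h4 (by omega)
    · exact boxes_mul h2 (boxes_pow 2 h3 le_rfl) (by omega)
    · exact boxes_pow 2 h4 (by omega)
  rw [WeierstrassCurve.Δ]
  refine boxes_add (boxes_sub (boxes_sub ?_ ?_) ?_) ?_
  · exact boxes_mul ((natDegree_neg _).trans_le (boxes_pow 2 b2 le_rfl)) b8 (by omega)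
  · exact boxes_mul (boxes_nat 8) (boxes_pow 3 b4 le_rfl) (by omega)
  · exact boxes_mul (boxes_nat 27) (boxes_pow 2 b6 le_rfl) (by omega)
  · exact boxes_mul (boxes_mul (boxes_mul (boxes_nat 9) b2 le_rfl) b4 le_rfl) b6 (by omega)

end SelAvg

/-!
The boxes are the sets of objects that are integral at infinity after twisting.
-/

namespace SelAvg

open WeierstrassCurve Polynomial
open scoped Classical

universe u

variable {k : Type u} [Field k] [Finite k]

lemma boxes2_vec_map {R S : Type*} [CommRing R] [CommRing S] (φ : R →+* S) (f : Model R)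
    (i : Fin 8) : Model.equivVec (f.map φ) i = φ (Model.equivVec f i) := by
  fin_cases i <;> rfl

lemma boxes2_wvec_map {R S : Type*} [CommRing R] [CommRing S] (φ : R →+* S)
    (W : WeierstrassCurve R) (i : Fin 5) : wEquivVec (W.map φ) i = φ (wEquivVec W i) := by
  fin_cases i <;> rfl

lemma boxes2_map_inv {R S : Type*} [CommRing R] [CommRing S] (φ : R →+* S)
    (C : VariableChange R) : (C⁻¹).map φ = (C.map φ)⁻¹ :=
  (VariableChange.mapHom φ).map_inv C

/-- `tW_smul`, `emb_reflect` -/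
lemma locV_map (w : Option (Irr k)) {d n : ℕ} (hn : n ≤ d) {f : Model k[X]}
    (hf : f ∈ VBox k d n) : (locV w d n f).map (emb w) = tW w d n • f.map (toK k) := by
  cases w with
  | none =>
    rw [tW_smul hn]
    apply Model.equivVec.injective
    funext i
    rw [boxes2_vec_map, Equiv.apply_symm_apply, boxes2_vec_map, locV, Equiv.apply_symm_apply,
      locp_none, emb_reflect (mem_VBox.1 hf i)]
  | some p => rw [locV_some, tW_some, one_smul, emb_some]

lemma locW_map (w : Option (Irr k)) {d : ℕ} {W : WeierstrassCurve k[X]} (hW : W ∈ WBox k d) :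
    (locW w d W).map (emb w) = cW w d • W.map (toK k) := by
  cases w with
  | none =>
    rw [cW_smul]
    apply wEquivVec.injective
    funext i
    rw [boxes2_wvec_map, Equiv.apply_symm_apply, boxes2_wvec_map, locW, Equiv.apply_symm_apply,
      locp_none, emb_reflect (mem_WBox.1 hW i)]
  | some p => rw [locW_some, cW_some, one_smul, emb_some]

lemma locC_map (w : Option (Irr k)) {d : ℕ} {C : VariableChange k[X]} (hC : C ∈ GBox k d) :
    (locC w d C).map (emb w) = cW w d * C.map (toK k) * (cW w d)⁻¹ := by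
  cases w with
  | none =>
    obtain ⟨hr, hs, ht⟩ := mem_GBox.1 hC
    rw [cW_conj]
    exact VariableChange.ext (Units.ext (emb_unit none C.u)) (emb_reflect hr) (emb_reflect hs)
      (emb_reflect ht)
  | some p => rw [locC_some, cW_some, one_mul, inv_one, mul_one, emb_some]

lemma locObj_map (w : Option (Irr k)) {d n : ℕ} (hn : n ≤ d) {z : Obj k[X]}
    (hz : z ∈ ObjBox k d n) :
    (locObj w d n z).map (emb w) = (tW w d n • z.map (toK k)).rmul (cW w d)⁻¹ := by
  obtain ⟨hf, hγ⟩ := mem_ObjBox.1 hz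
  ext1
  · exact locV_map w hn hf
  · rw [Obj.rmul_γ, Obj.smul_γ, tW_Gam w hn]
    exact locC_map w hγ

/-- `natDegree_le_of_emb` -/
lemma mem_VBox_of_map {d n : ℕ} (hn : n ≤ d) {f f' : Model k[X]}
    (h : f'.map (emb (k := k) none) = tW (k := k) none d n • f.map (toK k)) :
    f ∈ VBox k d n ∧ f' = locV none d n f := by
  rw [tW_smul hn] at h
  have h1 : ∀ i, (Model.equivVec f i).natDegree ≤ DV d n i ∧
      Model.equivVec f' i = reflect (DV d n i) (Model.equivVec f i) := fun i => by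
    apply natDegree_le_of_emb
    have h2 := congrFun (congrArg Model.equivVec h) i
    rwa [boxes2_vec_map, Equiv.apply_symm_apply, boxes2_vec_map] at h2
  refine ⟨mem_VBox.2 fun i => (h1 i).1, Model.equivVec.injective (funext fun i => ?_)⟩
  rw [locV, Equiv.apply_symm_apply]
  exact (h1 i).2

lemma mem_WBox_of_map {d : ℕ} {W W' : WeierstrassCurve k[X]}
    (h : W'.map (emb (k := k) none) = cW (k := k) none d • W.map (toK k)) :
    W ∈ WBox k d ∧ W' = locW (k := k) none d W := by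
  rw [cW_smul] at h
  have h1 : ∀ i, (wEquivVec W i).natDegree ≤ DW d i ∧
      wEquivVec W' i = reflect (DW d i) (wEquivVec W i) := fun i => by
    apply natDegree_le_of_emb
    have h2 := congrFun (congrArg wEquivVec h) i
    rwa [boxes2_wvec_map, Equiv.apply_symm_apply, boxes2_wvec_map] at h2
  refine ⟨mem_WBox.2 fun i => (h1 i).1, wEquivVec.injective (funext fun i => ?_)⟩
  rw [locW, Equiv.apply_symm_apply]
  exact (h1 i).2

lemma mem_GBox_of_map {d : ℕ} {C C' : VariableChange k[X]}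
    (h : C'.map (emb (k := k) none) =
      cW (k := k) none d * C.map (toK k) * (cW (k := k) none d)⁻¹) :
    C ∈ GBox k d ∧ C' = locC none d C := by
  rw [cW_conj] at h
  have hu : emb (k := k) none (C'.u : k[X]) = toK k C.u :=
    congrArg (fun C : VariableChange (RatFunc k) => (C.u : RatFunc k)) h
  have hr := natDegree_le_of_emb (a := C.r) (b := C'.r) (congrArg VariableChange.r h)
  have hs := natDegree_le_of_emb (a := C.s) (b := C'.s) (congrArg VariableChange.s h)
  have ht := natDegree_le_of_emb (a := C.t) (b := C'.t) (congrArg VariableChange.t h)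
  refine ⟨mem_GBox.2 ⟨hr.1, hs.1, ht.1⟩, VariableChange.ext (Units.ext ?_) hr.2 hs.2 ht.2⟩
  apply emb_injective (k := k) none
  rw [hu]
  exact (emb_unit none C.u).symm

lemma mem_ObjBox_of_map {d n : ℕ} (hn : n ≤ d) {z z' : Obj k[X]}
    (h : z'.map (emb (k := k) none) =
      (tW (k := k) none d n • z.map (toK k)).rmul (cW (k := k) none d)⁻¹) :
    z ∈ ObjBox k d n ∧ z' = locObj none d n z := by
  have hf := mem_VBox_of_map (f := z.f) (f' := z'.f) hn (congrArg Obj.f h)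
  have hγ := congrArg Obj.γ h
  rw [Obj.rmul_γ, Obj.smul_γ, tW_Gam none hn] at hγ
  have hγ' := mem_GBox_of_map (C := z.γ) (C' := z'.γ) hγ
  exact ⟨mem_ObjBox.2 ⟨hf.1, hγ'.1⟩, Obj.ext hf.2 hγ'.2⟩

lemma one_mem_GBox (d : ℕ) : (1 : VariableChange k[X]) ∈ GBox k d := by
  simp [mem_GBox, VariableChange.one_def]

lemma mul_mem_GBox {d : ℕ} {C C' : VariableChange k[X]} (h : C ∈ GBox k d) (h' : C' ∈ GBox k d) :
    C * C' ∈ GBox k d := by
  refine (mem_GBox_of_map (C' := locC none d C * locC none d C') ?_).1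
  rw [Obj.vc_map_mul, Obj.vc_map_mul, locC_map none h, locC_map none h']
  group

lemma inv_mem_GBox {d : ℕ} {C : VariableChange k[X]} (h : C ∈ GBox k d) : C⁻¹ ∈ GBox k d := by
  refine (mem_GBox_of_map (C' := (locC none d C)⁻¹) ?_).1
  rw [boxes2_map_inv, boxes2_map_inv, locC_map none h]
  group

lemma boxes2_loc_smul (w : Option (Irr k)) {d : ℕ} {C : VariableChange k[X]}
    {W : WeierstrassCurve k[X]} (hC : C ∈ GBox k d) (hW : W ∈ WBox k d) :
    (locC w d C • locW w d W).map (emb w) = cW w d • (C • W).map (toK k) := by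
  rw [← map_variableChange, ← map_variableChange, locC_map w hC, locW_map w hW, mul_smul, mul_smul,
    inv_smul_smul]

lemma smul_mem_WBox {d : ℕ} {C : VariableChange k[X]} {W : WeierstrassCurve k[X]}
    (hC : C ∈ GBox k d) (hW : W ∈ WBox k d) : C • W ∈ WBox k d := by
  exact (mem_WBox_of_map (boxes2_loc_smul none hC hW)).1

lemma negC_mem_GBox {d : ℕ} {W : WeierstrassCurve k[X]} (hW : W ∈ WBox k d) :
    negC W ∈ GBox k d := by
  obtain ⟨h1, -, h3, -, -⟩ := mem_WBox'.1 hW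
  simp [mem_GBox, negC, h1, h3]

lemma boxes2_jac_map (w : Option (Irr k)) {d n : ℕ} (hn : n ≤ d) {f : Model k[X]}
    (hf : f ∈ VBox k d n) :
    (locV w d n f).jac.map (emb w) = cW w d • f.jac.map (toK k) := by
  rw [← Model.jac_map, locV_map w hn hf, G.jac_smul, tW_Gam w hn, Model.jac_map]

/-- `G.jac_smul`, `tW_Gam`, `mem_WBox_of_map` -/
lemma jac_mem_WBox {d n : ℕ} (hn : n ≤ d) {f : Model k[X]} (hf : f ∈ VBox k d n) :
    f.jac ∈ WBox k d := by
  exact (mem_WBox_of_map (boxes2_jac_map none hn hf)).1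

lemma jac_locV (w : Option (Irr k)) {d n : ℕ} (hn : n ≤ d) {f : Model k[X]}
    (hf : f ∈ VBox k d n) : (locV w d n f).jac = locW w d f.jac := by
  apply WeierstrassCurve.map_injective (emb_injective w)
  change (locV w d n f).jac.map (emb w) = (locW w d f.jac).map (emb w)
  rw [boxes2_jac_map w hn hf, locW_map w (jac_mem_WBox hn hf)]

lemma boxes2_Delta_iff (w : Option (Irr k)) {d : ℕ} {W : WeierstrassCurve k[X]}
    (hW : W ∈ WBox k d) : (locW w d W).Δ ≠ 0 ↔ W.Δ ≠ 0 := by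
  have h := Delta_smul_ne_zero (W := W.map (toK k)) (cW w d)
  rwa [← locW_map w hW, map_Δ, map_Δ, map_ne_zero_iff _ (emb_injective w),
    map_ne_zero_iff _ (IsFractionRing.injective k[X] (RatFunc k))] at h

lemma locW_Delta_ne_zero (w : Option (Irr k)) {d : ℕ} {W : WeierstrassCurve k[X]}
    (hW : W ∈ WBox k d) (hΔ : W.Δ ≠ 0) : (locW w d W).Δ ≠ 0 := by
  exact (boxes2_Delta_iff w hW).2 hΔ

lemma locW_Delta_eq_zero (w : Option (Irr k)) {d : ℕ} {W : WeierstrassCurve k[X]}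
    (hW : W ∈ WBox k d) (hΔ : W.Δ = 0) : (locW w d W).Δ = 0 := by
  by_contra h
  exact (boxes2_Delta_iff w hW).1 h hΔ

lemma locObj_over (w : Option (Irr k)) {d n : ℕ} (hn : n ≤ d) {z : Obj k[X]}
    (hz : z ∈ ObjBox k d n) {W : WeierstrassCurve k[X]} (hW : W ∈ WBox k d) (h : z.Over W) :
    (locObj w d n z).Over (locW w d W) := by
  obtain ⟨hf, hγ⟩ := mem_ObjBox.1 hz
  apply WeierstrassCurve.map_injective (emb_injective w)
  change (locV w d n z.f).jac.map (emb w) = (locC w d z.γ • locW w d W).map (emb w)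
  rw [boxes2_jac_map w hn hf, boxes2_loc_smul w hγ hW, show z.f.jac = z.γ • W from h]

omit [Finite k] in
lemma over_map_toK_iff {z : Obj k[X]} {W : WeierstrassCurve k[X]} :
    (z.map (toK k)).Over (W.map (toK k)) ↔ z.Over W := by
  refine ⟨fun h => ?_, fun h => h.map _⟩
  apply WeierstrassCurve.map_injective (IsFractionRing.injective k[X] (RatFunc k))
  change z.f.jac.map (toK k) = (z.γ • W).map (toK k)
  rw [← Model.jac_map, ← map_variableChange]
  exact h

omit [Finite k] in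
lemma boxes2_quad {x a b : k[X]} {D : ℕ} (h : x ^ 2 + a * x + b = 0) (ha : a.natDegree ≤ D)
    (hb : b.natDegree ≤ 2 * D) : x.natDegree ≤ D := by
  have h1 : x ^ 2 = -(a * x + b) := by linear_combination h
  have h2 := congrArg natDegree h1
  rw [natDegree_pow, natDegree_neg] at h2
  have h3 := natDegree_add_le (a * x) b
  have h4 := natDegree_mul_le (p := a) (q := x)
  omega

omit [Finite k] in
lemma boxes2_quart {x a b c : k[X]} {D : ℕ} (h : x ^ 4 + a * x ^ 2 + b * x + c = 0)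
    (ha : a.natDegree ≤ 2 * D) (hb : b.natDegree ≤ 3 * D) (hc : c.natDegree ≤ 4 * D) :
    x.natDegree ≤ D := by
  have h1 : x ^ 4 = -(a * x ^ 2 + b * x + c) := by linear_combination h
  have h2 := congrArg natDegree h1
  rw [natDegree_pow, natDegree_neg] at h2
  have h3 := natDegree_add_le (a * x ^ 2 + b * x) c
  have h4 := natDegree_add_le (a * x ^ 2) (b * x)
  have h5 := natDegree_mul_le (p := a) (q := x ^ 2)
  have h6 := natDegree_mul_le (p := b) (q := x)
  rw [natDegree_pow] at h5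
  omega

lemma boxes2_deg_b {d : ℕ} {W : WeierstrassCurve k[X]} (hW : W ∈ WBox k d) :
    W.b₄.natDegree ≤ 4 * d ∧ W.b₆.natDegree ≤ 6 * d ∧ W.b₈.natDegree ≤ 8 * d := by
  obtain ⟨a1, a2, a3, a4, a6⟩ := mem_WBox'.1 hW
  refine ⟨?_, ?_, ?_⟩
  · unfold b₄
    compute_degree
    omega
  · unfold b₆
    compute_degree
    omega
  · unfold b₈
    compute_degree
    omega

/-- A polynomial change of variables between two equations of the box lies in the box.  Write
`C = wdiag u * wsh r s t` with `u` constant and use `wsh_r_eq`, `wsh_s_eq`, `wsh_t_eq`: a root of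
a monic equation `x^N + c₁ x^(N-1) + .. + c_N = 0` with `deg c_i ≤ i D` has degree at most `D`. -/
theorem mem_GBox_of_smul {d : ℕ} {C : VariableChange k[X]} {W : WeierstrassCurve k[X]}
    (hW : W ∈ WBox k d) (hW' : C • W ∈ WBox k d) : C ∈ GBox k d := by
  have hd : wdiag C.u⁻¹ ∈ GBox k d := by simp [mem_GBox, wdiag]
  have h1 := vcint_wsh_smul (W := W) (C := C) rfl
  have h2 := smul_mem_WBox hd hW'
  generalize wdiag C.u⁻¹ • C • W = W' at h1 h2
  obtain ⟨b4, b6, b8⟩ := boxes2_deg_b hW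
  obtain ⟨-, b6', b8'⟩ := boxes2_deg_b h2
  obtain ⟨a1, a2, a3, a4, a6⟩ := mem_WBox'.1 hW
  obtain ⟨-, a2', -, -, a6'⟩ := mem_WBox'.1 h2
  have hr : C.r.natDegree ≤ 2 * d := by
    refine boxes2_quart (a := -W.b₄) (b := -(2 * W.b₆ + W'.b₆)) (c := W'.b₈ - W.b₈) ?_ ?_ ?_ ?_
    · linear_combination wsh_r_eq h1
    · rw [natDegree_neg]
      omega
    · compute_degree
      omega
    · compute_degree
      omega
  have hs : C.s.natDegree ≤ d := by
    refine boxes2_quad (wsh_s_eq h1) a1 ?_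
    compute_degree
    omega
  have ht : C.t.natDegree ≤ 3 * d := by
    refine boxes2_quad (wsh_t_eq h1) ?_ ?_
    · compute_degree
      omega
    · compute_degree
      omega
  exact mem_GBox.2 ⟨hr, hs, ht⟩

/-- For each `(f, γ)` the only `W` is `γ⁻¹ • jac f`. -/
theorem sum_transfer {d n : ℕ} (hn : n ≤ d) (ψ : WeierstrassCurve k[X] → ℝ)
    (hψ : ∀ C ∈ GBox k d, ∀ W ∈ WBox k d, ψ (C • W) = ψ W) (Φ : Model k[X] → ℝ) :
    ∑ W ∈ WBox k d, ψ W * ∑ z ∈ ObjBox k d n with z.Over W, Φ z.f =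
      (GBox k d).card * ∑ f ∈ VBox k d n, ψ f.jac * Φ f := by
  have h1 : ∀ z ∈ ObjBox k d n,
      ∑ W ∈ WBox k d, (if z.Over W then ψ W * Φ z.f else 0) = ψ z.f.jac * Φ z.f := by
    intro z hz
    obtain ⟨hf, hγ⟩ := mem_ObjBox.1 hz
    have hj := jac_mem_WBox hn hf
    have hi := inv_mem_GBox hγ
    rw [Finset.sum_eq_single_of_mem (z.γ⁻¹ • z.f.jac) (smul_mem_WBox hi hj), if_pos, hψ _ hi _ hj]
    · exact (smul_inv_smul _ _).symm
    · intro W _ hne
      rw [if_neg]
      intro h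
      exact hne (by rw [show z.f.jac = z.γ • W from h, inv_smul_smul])
  calc ∑ W ∈ WBox k d, ψ W * ∑ z ∈ ObjBox k d n with z.Over W, Φ z.f
      = ∑ W ∈ WBox k d, ∑ z ∈ ObjBox k d n, (if z.Over W then ψ W * Φ z.f else 0) := by
        refine Finset.sum_congr rfl fun W _ => ?_
        rw [Finset.mul_sum, Finset.sum_filter]
    _ = ∑ z ∈ ObjBox k d n, ψ z.f.jac * Φ z.f := by
        rw [Finset.sum_comm]
        exact Finset.sum_congr rfl h1
    _ = ∑ f ∈ VBox k d n, ∑ _C ∈ GBox k d, ψ f.jac * Φ f := by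
        rw [ObjBox, Finset.sum_map, Finset.sum_product]
        rfl
    _ = (GBox k d).card * ∑ f ∈ VBox k d n, ψ f.jac * Φ f := by
        simp only [Finset.sum_const, nsmul_eq_mul, Finset.mul_sum]

end SelAvg

/-!
The finite group acting on the box of objects, its order, and the weights.
-/

namespace SelAvg

open WeierstrassCurve Polynomial
open scoped Classical

universe u

variable {k : Type u} [Field k]

/-- the degree conditions on the matrix -/
def GLCond (n : ℕ) (M : GL (Fin 2) k[X]) : Prop :=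
  (M.1 0 0).natDegree = 0 ∧ (M.1 1 1).natDegree = 0 ∧ (M.1 1 0).natDegree ≤ n ∧
    (M.1 0 1).natDegree = 0 ∧ (n ≠ 0 → M.1 0 1 = 0)

/-- the degree conditions on a group element -/
def GamCond (d n : ℕ) (g : G k[X]) : Prop :=
  GLCond n g.M ∧ g.r0.natDegree ≤ d - n ∧ g.r1.natDegree ≤ d ∧ g.r2.natDegree ≤ d + n

lemma gamBox_ext {R : Type*} [CommRing R] {g h : G R} (h11 : g.m11 = h.m11) (h12 : g.m12 = h.m12)
    (h21 : g.m21 = h.m21) (h22 : g.m22 = h.m22) (hμ : g.μ = h.μ) (h0 : g.r0 = h.r0)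
    (h1 : g.r1 = h.r1) (h2 : g.r2 = h.r2) : g = h := by
  refine G.ext ?_ hμ h0 h1 h2
  ext i j
  fin_cases i <;> fin_cases j
  exacts [h11, h12, h21, h22]

lemma gamBox_cond {n : ℕ} {g : G k[X]} : GLCond n g.M ↔
    g.m11.natDegree = 0 ∧ g.m22.natDegree = 0 ∧ g.m21.natDegree ≤ n ∧ g.m12.natDegree = 0 ∧
      (n ≠ 0 → g.m12 = 0) := Iff.rfl

lemma gamBox_reflect {a : k[X]} (h : a.natDegree = 0) : reflect 0 a = a := by
  rw [eq_C_of_natDegree_eq_zero h, reflect_C, pow_zero, mul_one]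

lemma gamBox_emb {a : k[X]} (h : a.natDegree = 0) : emb none a = toK k a := by
  have := emb_reflect (k := k) h.le
  rwa [gamBox_reflect h, pow_zero, mul_one] at this

lemma gamBox_deg {a b : k[X]} (h : emb none b = toK k a) : a.natDegree = 0 :=
  Nat.le_zero.1 (natDegree_le_of_emb (D := 0) (by rw [h, pow_zero, mul_one])).1

/-- the coordinates of a group element -/
def gamBox_equiv (R : Type*) [CommRing R] : G R ≃ GL (Fin 2) R × Rˣ × R × R × R where
  toFun g := (g.M, g.μ, g.r0, g.r1, g.r2)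
  invFun p := ⟨p.1, p.2.1, p.2.2.1, p.2.2.2.1, p.2.2.2.2⟩
  left_inv _ := rfl
  right_inv _ := rfl

/-- the entries of the conjugated element -/
lemma tW_conj {d n : ℕ} (hn : n ≤ d) (g : G (RatFunc k)) :
    (tW (k := k) none d n * g * (tW (k := k) none d n)⁻¹).m11 = g.m11 ∧
    (tW (k := k) none d n * g * (tW (k := k) none d n)⁻¹).m12 = g.m12 * RatFunc.X ^ n ∧
    (tW (k := k) none d n * g * (tW (k := k) none d n)⁻¹).m21 = g.m21 * (RatFunc.X⁻¹) ^ n ∧
    (tW (k := k) none d n * g * (tW (k := k) none d n)⁻¹).m22 = g.m22 ∧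
    (tW (k := k) none d n * g * (tW (k := k) none d n)⁻¹).μ = g.μ ∧
    (tW (k := k) none d n * g * (tW (k := k) none d n)⁻¹).r0 = g.r0 * (RatFunc.X⁻¹) ^ (d - n) ∧
    (tW (k := k) none d n * g * (tW (k := k) none d n)⁻¹).r1 = g.r1 * (RatFunc.X⁻¹) ^ d ∧
    (tW (k := k) none d n * g * (tW (k := k) none d n)⁻¹).r2 = g.r2 * (RatFunc.X⁻¹) ^ (d + n) := by
  have hX : (RatFunc.X : RatFunc k) ≠ 0 := RatFunc.X_ne_zero
  have e : tW (k := k) none d n * g * (tW (k := k) none d n)⁻¹ * tW (k := k) none d n =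
      tW (k := k) none d n * g := inv_mul_cancel_right _ _
  generalize tW (k := k) none d n * g * (tW (k := k) none d n)⁻¹ = h at e ⊢
  have t11 : (tW (k := k) none d n).m11 = 1 := rfl
  have t12 : (tW (k := k) none d n).m12 = 0 := rfl
  have t21 : (tW (k := k) none d n).m21 = 0 := rfl
  have t22 : (tW (k := k) none d n).m22 = (RatFunc.X ^ n)⁻¹ := rfl
  have tμ : ((tW (k := k) none d n).μ : RatFunc k) = RatFunc.X ^ (d - n) := rfl
  have t0 : (tW (k := k) none d n).r0 = 0 := rfl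
  have t1 : (tW (k := k) none d n).r1 = 0 := rfl
  have t2 : (tW (k := k) none d n).r2 = 0 := rfl
  have e11 := congrArg G.m11 e
  have e12 := congrArg G.m12 e
  have e21 := congrArg G.m21 e
  have e22 := congrArg G.m22 e
  have eμ := congrArg G.μ e
  have e0 := congrArg G.r0 e
  have e1 := congrArg G.r1 e
  have e2 := congrArg G.r2 e
  obtain ⟨m, rfl⟩ := Nat.exists_eq_add_of_le hn
  simp only [G.mul_m11, G.mul_m12, G.mul_m21, G.mul_m22, G.mul_r0, G.mul_r1, G.mul_r2, G.mul_μ,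
    t11, t12, t21, t22, tμ, t0, t1, t2, Nat.add_sub_cancel_left] at e11 e12 e21 e22 eμ e0 e1 e2
  simp only [Nat.add_sub_cancel_left, inv_pow, pow_add]
  have hn' : (RatFunc.X : RatFunc k) ^ n * (RatFunc.X ^ n)⁻¹ = 1 :=
    mul_inv_cancel₀ (pow_ne_zero _ hX)
  have hm' : (RatFunc.X : RatFunc k) ^ m * (RatFunc.X ^ m)⁻¹ = 1 :=
    mul_inv_cancel₀ (pow_ne_zero _ hX)
  generalize ((RatFunc.X : RatFunc k) ^ n)⁻¹ = a at *
  generalize ((RatFunc.X : RatFunc k) ^ m)⁻¹ = b at *
  refine ⟨by linear_combination e11, ?_, by linear_combination e21, ?_, ?_, ?_, ?_, ?_⟩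
  · linear_combination RatFunc.X ^ n * e12 - h.m12 * hn'
  · linear_combination RatFunc.X ^ n * e22 - (h.m22 - g.m22) * hn'
  · rw [mul_comm] at eμ
    exact mul_left_cancel eμ
  · linear_combination b * e0 - h.r0 * hm'
  · linear_combination b * e1 - h.r1 * hm'
  · linear_combination b * e2 - h.r2 * hm'

/-- The degree conditions say that the conjugate is polynomial in `1 / t`.  The matrix of `g'` is
`!![m11, m12; reflect n m21, m22]`; its determinant is the constant `det g`. -/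
theorem gamCond_iff {d n : ℕ} (hn : n ≤ d) (g : G k[X]) :
    GamCond d n g ↔ ∃ g' : G k[X],
      G.map (emb (k := k) none) g' =
        tW (k := k) none d n * G.map (toK k) g * (tW (k := k) none d n)⁻¹ := by
  obtain ⟨c11, c12, c21, c22, cμ, c0, c1, c2⟩ := tW_conj hn (G.map (toK k) g)
  constructor
  · rintro ⟨hM, h0, h1, h2⟩
    obtain ⟨h11, h22, h21, h12, h12'⟩ := gamBox_cond.1 hM
    have hdet : IsUnit (!![g.m11, g.m12; reflect n g.m21, g.m22] :
        Matrix (Fin 2) (Fin 2) k[X]).det := by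
      have : g.m12 * reflect n g.m21 = g.m12 * g.m21 := by
        by_cases h : n = 0
        · subst h
          rw [gamBox_reflect (Nat.le_zero.1 h21)]
        · rw [h12' h, zero_mul, zero_mul]
      rw [Matrix.det_fin_two_of, this, ← G.det_val]
      exact g.det.isUnit
    refine ⟨⟨Matrix.GeneralLinearGroup.mk'' _ hdet, g.μ, reflect (d - n) g.r0, reflect d g.r1,
      reflect (d + n) g.r2⟩, gamBox_ext ?_ ?_ ?_ ?_ ?_ ?_ ?_ ?_⟩
    · rw [c11, G.map_m11, G.map_m11]
      exact gamBox_emb h11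
    · rw [c12, G.map_m12, G.map_m12]
      change emb none g.m12 = _
      by_cases h : n = 0
      · rw [h, pow_zero, mul_one]
        exact gamBox_emb h12
      · rw [h12' h, map_zero, map_zero, zero_mul]
    · rw [c21, G.map_m21, G.map_m21]
      exact emb_reflect h21
    · rw [c22, G.map_m22, G.map_m22]
      exact gamBox_emb h22
    · rw [cμ]
      exact Units.ext (emb_unit none g.μ)
    · rw [c0]
      exact emb_reflect h0
    · rw [c1]
      exact emb_reflect h1
    · rw [c2]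
      exact emb_reflect h2
  · rintro ⟨g', hg⟩
    rw [← hg] at c11 c12 c21 c22 c0 c1 c2
    rw [G.map_m11, G.map_m11] at c11
    rw [G.map_m12, G.map_m12] at c12
    rw [G.map_m21, G.map_m21] at c21
    rw [G.map_m22, G.map_m22] at c22
    have h12 : (g.m12 * X ^ n).natDegree = 0 :=
      gamBox_deg (b := g'.m12) (by rw [c12, map_mul, map_pow, RatFunc.algebraMap_X])
    have h12' : g.m12.natDegree = 0 ∧ (n ≠ 0 → g.m12 = 0) := by
      by_cases h : g.m12 = 0
      · exact ⟨by rw [h, natDegree_zero], fun _ => h⟩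
      · rw [natDegree_mul_X_pow _ h] at h12
        exact ⟨by omega, fun h' => by omega⟩
    exact ⟨gamBox_cond.2 ⟨gamBox_deg c11, gamBox_deg c22, (natDegree_le_of_emb c21).1, h12'⟩,
      (natDegree_le_of_emb c0).1, (natDegree_le_of_emb c1).1, (natDegree_le_of_emb c2).1⟩

variable [Finite k]

lemma finite_GLCond (k : Type u) [Field k] [Finite k] (n : ℕ) :
    {M : GL (Fin 2) k[X] | GLCond n M}.Finite := by
  have h : {A : Matrix (Fin 2) (Fin 2) k[X] | ∀ i, A i ∈ {v : Fin 2 → k[X] |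
      ∀ j, v j ∈ {a : k[X] | a.natDegree ≤ n}}}.Finite :=
    Set.Finite.pi' fun _ => Set.Finite.pi' fun _ => finite_natDegree_le k n
  refine (h.preimage (f := fun M : GL (Fin 2) k[X] => M.1) Units.val_injective.injOn).subset ?_
  rintro M ⟨h11, h22, h21, h12, -⟩ i j
  fin_cases i <;> fin_cases j
  · exact h11.le.trans (Nat.zero_le _)
  · exact h12.le.trans (Nat.zero_le _)
  · exact h21
  · exact h22.le.trans (Nat.zero_le _)

lemma finite_GamCond (k : Type u) [Field k] [Finite k] (d n : ℕ) :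
    {g : G k[X] | GamCond d n g}.Finite := by
  refine (((finite_GLCond k n).prod ((Set.finite_univ (α := k[X]ˣ)).prod
    ((finite_natDegree_le k (d - n)).prod ((finite_natDegree_le k d).prod
      (finite_natDegree_le k (d + n)))))).preimage (gamBox_equiv k[X]).injective.injOn).subset ?_
  rintro g ⟨hM, h0, h1, h2⟩
  exact ⟨hM, trivial, h0, h1, h2⟩

noncomputable def GamBox (k : Type u) [Field k] [Finite k] (d n : ℕ) : Finset (G k[X]) :=
  (finite_GamCond k d n).toFinset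

lemma mem_GamBox {d n : ℕ} {g : G k[X]} : g ∈ GamBox k d n ↔ GamCond d n g := by simp [GamBox]

lemma scalar_mem_GamBox (d n : ℕ) (t : k[X]ˣ) : G.scalar t ∈ GamBox k d n := by
  have h : (t : k[X]).natDegree = 0 := natDegree_eq_zero_of_isUnit t.isUnit
  refine mem_GamBox.2 ⟨gamBox_cond.2 ?_, ?_, ?_, ?_⟩ <;> simp [h]

lemma one_mem_GamBox (d n : ℕ) : (1 : G k[X]) ∈ GamBox k d n := by
  simpa using scalar_mem_GamBox (k := k) d n 1

lemma mul_mem_GamBox {d n : ℕ} (hn : n ≤ d) {g h : G k[X]} (hg : g ∈ GamBox k d n)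
    (hh : h ∈ GamBox k d n) : g * h ∈ GamBox k d n := by
  rw [mem_GamBox, gamCond_iff hn] at hg hh ⊢
  obtain ⟨g', hg⟩ := hg
  obtain ⟨h', hh⟩ := hh
  refine ⟨g' * h', ?_⟩
  rw [map_mul, map_mul, hg, hh]
  group

lemma inv_mem_GamBox {d n : ℕ} (hn : n ≤ d) {g : G k[X]} (hg : g ∈ GamBox k d n) :
    g⁻¹ ∈ GamBox k d n := by
  rw [mem_GamBox, gamCond_iff hn] at hg ⊢
  obtain ⟨g', hg⟩ := hg
  refine ⟨g'⁻¹, ?_⟩
  rw [map_inv, map_inv, hg]
  group

lemma gamBox_smul {d n : ℕ} (hn : n ≤ d) {g g' : G k[X]}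
    (hg : G.map (emb (k := k) none) g' =
      tW (k := k) none d n * G.map (toK k) g * (tW (k := k) none d n)⁻¹)
    {z : Obj k[X]} (hz : z ∈ ObjBox k d n) :
    g • z ∈ ObjBox k d n ∧ g' • locObj none d n z = locObj none d n (g • z) := by
  apply mem_ObjBox_of_map hn
  rw [Obj.map_smul, locObj_map none hn hz, hg, Obj.smul_rmul, Obj.map_smul, ← mul_smul,
    ← mul_smul, inv_mul_cancel_right]

/-- `locObj_map`, `mem_ObjBox_of_map`, `Obj.map_smul`, `Obj.smul_rmul` -/
theorem smul_mem_ObjBox {d n : ℕ} (hn : n ≤ d) {g : G k[X]} (hg : g ∈ GamBox k d n)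
    {z : Obj k[X]} (hz : z ∈ ObjBox k d n) : g • z ∈ ObjBox k d n := by
  obtain ⟨g', hg'⟩ := (gamCond_iff hn g).1 (mem_GamBox.1 hg)
  exact (gamBox_smul hn hg' hz).1

theorem locObj_smul (w : Option (Irr k)) {d n : ℕ} (hn : n ≤ d) {g : G k[X]}
    (hg : g ∈ GamBox k d n) {z : Obj k[X]} (hz : z ∈ ObjBox k d n) :
    ∃ g' : G k[X], G.map (emb w) g' = tW w d n * G.map (toK k) g * (tW w d n)⁻¹ ∧
      locObj w d n (g • z) = g' • locObj w d n z := by
  cases w with
  | none =>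
    obtain ⟨g', hg'⟩ := (gamCond_iff hn g).1 (mem_GamBox.1 hg)
    exact ⟨g', hg', (gamBox_smul hn hg' hz).2.symm⟩
  | some p => exact ⟨g, by rw [tW_some, inv_one, one_mul, mul_one, emb_some], rfl⟩

/-- for `n = 0` the matrices are the constant ones (`Matrix.card_GL_field`) -/
lemma card_GLCond_zero : (finite_GLCond k 0).toFinset.card =
    (Nat.card k ^ 2 - 1) * (Nat.card k ^ 2 - Nat.card k) := by
  have hinj : Function.Injective
      (Matrix.GeneralLinearGroup.map (n := Fin 2) (C : k →+* k[X])) := by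
    intro M N h
    ext i j
    apply C_injective
    have := congrArg (fun A : GL (Fin 2) k[X] => A.1 i j) h
    simpa using this
  have hset : {M : GL (Fin 2) k[X] | GLCond 0 M} =
      Set.range (Matrix.GeneralLinearGroup.map (n := Fin 2) (C : k →+* k[X])) := by
    ext M
    constructor
    · rintro ⟨h11, h22, h21, h12, -⟩
      refine ⟨Matrix.GeneralLinearGroup.map constantCoeff M, ?_⟩
      apply Units.ext
      apply Matrix.ext
      intro i j
      have h : (M.1 i j).natDegree = 0 := by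
        fin_cases i <;> fin_cases j
        exacts [h11, h12, Nat.le_zero.1 h21, h22]
      exact (eq_C_of_natDegree_eq_zero h).symm
    · rintro ⟨N, rfl⟩
      exact ⟨natDegree_C _, natDegree_C _, (natDegree_C _).le, natDegree_C _,
        fun h => absurd rfl h⟩
  have := Fintype.ofFinite k
  rw [← Set.ncard_eq_toFinset_card _ (finite_GLCond k 0), hset, ← Nat.card_coe_set_eq,
    Nat.card_range_of_injective hinj, Matrix.card_GL_field, Fin.prod_univ_two,
    Nat.card_eq_fintype_card]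
  simp

/-- for `n ≠ 0`: two nonzero constants on the diagonal and a polynomial of degree at most `n` -/
lemma card_GLCond_pos {n : ℕ} (hn : n ≠ 0) : (finite_GLCond k n).toFinset.card =
    (Nat.card k - 1) ^ 2 * Nat.card k ^ (n + 1) := by
  have := Fintype.ofFinite k[X]ˣ
  have hdet : ∀ p : k[X]ˣ × k[X]ˣ × k[X],
      IsUnit (!![(p.1 : k[X]), 0; p.2.2, p.2.1] : Matrix (Fin 2) (Fin 2) k[X]).det := by
    intro p
    rw [Matrix.det_fin_two_of, zero_mul, sub_zero]
    exact p.1.isUnit.mul p.2.1.isUnit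
  have h : (Finset.univ ×ˢ Finset.univ ×ˢ dBox k n : Finset (k[X]ˣ × k[X]ˣ × k[X])).card =
      (finite_GLCond k n).toFinset.card := by
    refine Finset.card_bij (fun p _ => Matrix.GeneralLinearGroup.mk'' _ (hdet p)) ?_ ?_ ?_
    · intro p hp
      rw [Set.Finite.mem_toFinset]
      exact ⟨natDegree_eq_zero_of_isUnit p.1.isUnit, natDegree_eq_zero_of_isUnit p.2.1.isUnit,
        mem_dBox.1 (Finset.mem_product.1 (Finset.mem_product.1 hp).2).2, natDegree_zero,
        fun _ => rfl⟩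
    · intro p _ p' _ h
      exact Prod.ext (Units.ext (congrArg (fun A : GL (Fin 2) k[X] => A.1 0 0) h))
        (Prod.ext (Units.ext (congrArg (fun A : GL (Fin 2) k[X] => A.1 1 1) h))
          (congrArg (fun A : GL (Fin 2) k[X] => A.1 1 0) h))
    · intro M hM
      rw [Set.Finite.mem_toFinset] at hM
      obtain ⟨-, -, h21, -, h12⟩ := hM
      have hu : IsUnit (M.1 0 0 * M.1 1 1) := by
        have := (G.ofM M).det.isUnit
        rw [G.det_val] at this
        change IsUnit (M.1 0 0 * M.1 1 1 - M.1 0 1 * M.1 1 0) at this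
        rwa [h12 hn, zero_mul, sub_zero] at this
      refine ⟨((isUnit_of_mul_isUnit_left hu).unit, (isUnit_of_mul_isUnit_right hu).unit, M.1 1 0),
        Finset.mem_product.2 ⟨Finset.mem_univ _, Finset.mem_product.2
          ⟨Finset.mem_univ _, mem_dBox.2 h21⟩⟩, ?_⟩
      apply Units.ext
      apply Matrix.ext
      intro i j
      fin_cases i <;> fin_cases j
      exacts [rfl, (h12 hn).symm, rfl, rfl]
  rw [← h, Finset.card_product, Finset.card_product, Finset.card_univ, ← Nat.card_eq_fintype_card,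
    card_units_poly, card_dBox, sq, mul_assoc]

lemma card_GamBox {d n : ℕ} (hn : n ≤ d) : (GamBox k d n).card =
    (finite_GLCond k n).toFinset.card * (Nat.card k - 1) * Nat.card k ^ (3 * d + 3) := by
  have := Fintype.ofFinite k[X]ˣ
  have h : GamBox k d n = ((finite_GLCond k n).toFinset ×ˢ (Finset.univ : Finset k[X]ˣ) ×ˢ
      dBox k (d - n) ×ˢ dBox k d ×ˢ dBox k (d + n)).map (gamBox_equiv k[X]).symm.toEmbedding := by
    ext g
    simp only [Finset.mem_map_equiv, Equiv.symm_symm, Finset.mem_product, Finset.mem_univ,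
      true_and, mem_dBox, Set.Finite.mem_toFinset, mem_GamBox]
    exact Iff.rfl
  rw [h, Finset.card_map, Finset.card_product, Finset.card_product, Finset.card_product,
    Finset.card_product, Finset.card_univ, ← Nat.card_eq_fintype_card, card_units_poly, card_dBox,
    card_dBox, card_dBox, ← pow_add, ← pow_add, ← mul_assoc]
  congr 2
  omega

/-- the weight of an object of the box -/
noncomputable def wt (k : Type u) [Field k] [Finite k] (d n : ℕ) : ℝ :=
  ((Nat.card k : ℝ) - 1) / (GamBox k d n).card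

lemma wt_nonneg (d n : ℕ) : 0 ≤ wt k d n := by
  have : (2 : ℝ) ≤ Nat.card k := by exact_mod_cast two_le_card k
  exact div_nonneg (by linarith) (Nat.cast_nonneg _)

/-- the normalised weight -/
noncomputable def wn (q : ℝ) (n : ℕ) : ℝ :=
  if n = 0 then q ^ 2 / (q ^ 2 - 1) else q ^ 2 / (q ^ n * (q - 1))

lemma wn_nonneg {q : ℝ} (hq : 1 < q) (n : ℕ) : 0 ≤ wn q n := by
  have h1 : 0 < q - 1 := by linarith
  have h2 : 0 < q ^ 2 - 1 := by nlinarith
  have h3 : 0 < q := by linarith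
  unfold wn
  split_ifs <;> positivity

theorem wt_mul_card {d n : ℕ} (hn : n ≤ d) :
    wt k d n * (GBox k d).card * (VBox k d n).card = wn (Nat.card k) n * (WBox k d).card := by
  have h2 := two_le_card k
  have hq : (2 : ℝ) ≤ Nat.card k := by exact_mod_cast h2
  have c1 : ((Nat.card k - 1 : ℕ) : ℝ) = Nat.card k - 1 := by
    rw [Nat.cast_sub (by omega), Nat.cast_one]
  have c2 : ((Nat.card k ^ 2 - 1 : ℕ) : ℝ) = (Nat.card k : ℝ) ^ 2 - 1 := by
    rw [Nat.cast_sub (by nlinarith), Nat.cast_one, Nat.cast_pow]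
  have c3 : ((Nat.card k ^ 2 - Nat.card k : ℕ) : ℝ) = Nat.card k * ((Nat.card k : ℝ) - 1) := by
    rw [Nat.cast_sub (by nlinarith), Nat.cast_pow]
    ring
  rw [wt, card_GamBox hn, card_GBox, card_VBox hn, card_WBox, wn]
  split_ifs with h
  · subst h
    rw [card_GLCond_zero]
    simp only [Nat.cast_mul, c1, c2, c3, Nat.cast_pow]
    generalize (Nat.card k : ℝ) = q at hq
    have h1 : q - 1 ≠ 0 := by linarith
    have h3 : q ^ 2 - 1 ≠ 0 := by nlinarith
    have h4 : q ≠ 0 := by linarith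
    field_simp
    ring
  · rw [card_GLCond_pos h]
    simp only [Nat.cast_mul, c1, Nat.cast_pow]
    generalize (Nat.card k : ℝ) = q at hq
    have h1 : q - 1 ≠ 0 := by linarith
    have h4 : q ≠ 0 := by linarith
    field_simp
    ring

theorem hasSum_wn {q : ℝ} (hq : 1 < q) :
    HasSum (wn q) (2 / ((1 - 1 / q) * (1 - 1 / q ^ 2))) := by
  have h0 : 0 < q := by linarith
  have h1 : q - 1 ≠ 0 := by linarith
  have h2 : q + 1 ≠ 0 := by linarith
  have h3 : q ^ 2 - 1 ≠ 0 := by nlinarith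
  have hg := (hasSum_geometric_of_lt_one (r := q⁻¹) (by positivity)
    (inv_lt_one_of_one_lt₀ hq)).mul_left (q / (q - 1))
  have ef : (fun n => wn q (n + 1)) = fun n => q / (q - 1) * q⁻¹ ^ n := by
    ext n
    rw [wn, if_neg (Nat.succ_ne_zero n), inv_pow]
    field_simp
    ring
  have es : 2 / ((1 - 1 / q) * (1 - 1 / q ^ 2)) - ∑ i ∈ Finset.range 1, wn q i =
      q / (q - 1) * (1 - q⁻¹)⁻¹ := by
    have e1 : 1 - 1 / q = (q - 1) / q := by field_simp
    have e2 : 1 - 1 / q ^ 2 = (q - 1) * (q + 1) / q ^ 2 := by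
      field_simp
      ring
    have e3 : q ^ 2 - 1 = (q - 1) * (q + 1) := by ring
    rw [Finset.sum_range_one, wn, if_pos rfl, ← one_div q, e1, e2, e3]
    field_simp
    ring
  rw [← hasSum_nat_add_iff' 1, ef, es]
  exact hg

end SelAvg

/-!
Non-minimal Weierstrass equations.
-/

namespace SelAvg

open WeierstrassCurve Polynomial
open scoped Classical

universe u

section Ring

variable {R S : Type*} [CommRing R] [CommRing S]

/-- `ϖ^i` divides `a_i` for all `i` -/
def DvdW (ϖ : R) (W : WeierstrassCurve R) : Prop :=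
  ϖ ∣ W.a₁ ∧ ϖ ^ 2 ∣ W.a₂ ∧ ϖ ^ 3 ∣ W.a₃ ∧ ϖ ^ 4 ∣ W.a₄ ∧ ϖ ^ 6 ∣ W.a₆

/-- the equation is not minimal at `ϖ` -/
def NonMin (ϖ : R) (W : WeierstrassCurve R) : Prop := ∃ r s t : R, DvdW ϖ (wsh r s t • W)

lemma dvdW_iff {ϖ : R} {W : WeierstrassCurve R} : DvdW ϖ W ↔ ∃ W', W = wsc ϖ W' := by
  constructor
  · rintro ⟨⟨a, ha⟩, ⟨b, hb⟩, ⟨c, hc⟩, ⟨d, hd⟩, ⟨e, he⟩⟩
    exact ⟨⟨a, b, c, d, e⟩, WeierstrassCurve.ext ha hb hc hd he⟩
  · rintro ⟨W', rfl⟩
    exact ⟨dvd_mul_right _ _, dvd_mul_right _ _, dvd_mul_right _ _, dvd_mul_right _ _,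
      dvd_mul_right _ _⟩

lemma wsc_Delta (u : R) (W : WeierstrassCurve R) : (wsc u W).Δ = u ^ 12 * W.Δ := by
  simp only [WeierstrassCurve.Δ, WeierstrassCurve.b₂, WeierstrassCurve.b₄, WeierstrassCurve.b₆,
    WeierstrassCurve.b₈, wsc]
  ring

lemma wsc_wsh (u r s t : R) (W : WeierstrassCurve R) :
    wsc u (wsh r s t • W) = wsh (u ^ 2 * r) (u * s) (u ^ 3 * t) • wsc u W := by
  ext <;> simp only [wsc, wsh, variableChange_def, inv_one, Units.val_one] <;> ring

lemma wsc_wsc (u u' : R) (W : WeierstrassCurve R) : wsc u (wsc u' W) = wsc (u * u') W := by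
  ext <;> simp only [wsc] <;> ring

lemma wsc_map (φ : R →+* S) (u : R) (W : WeierstrassCurve R) :
    (wsc u W).map φ = wsc (φ u) (W.map φ) := by
  ext <;> simp [wsc]

lemma DvdW.wsh {ϖ : R} {W : WeierstrassCurve R} (h : DvdW ϖ W) {r s t : R} (hr : ϖ ^ 2 ∣ r)
    (hs : ϖ ∣ s) (ht : ϖ ^ 3 ∣ t) : DvdW ϖ (wsh r s t • W) := by
  obtain ⟨W', rfl⟩ := dvdW_iff.1 h
  obtain ⟨r', rfl⟩ := hr
  obtain ⟨s', rfl⟩ := hs
  obtain ⟨t', rfl⟩ := ht
  exact dvdW_iff.2 ⟨_, (wsc_wsh ϖ r' s' t' W').symm⟩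

lemma nonMin_dvdW_wsc {ϖ : R} (u : R) {W : WeierstrassCurve R} (h : DvdW ϖ W) :
    DvdW ϖ (wsc u W) := by
  obtain ⟨W', rfl⟩ := dvdW_iff.1 h
  exact dvdW_iff.2 ⟨wsc u W', by rw [wsc_wsc, wsc_wsc, mul_comm]⟩

lemma nonMin_smul_of {ϖ : R} (C : VariableChange R) (W : WeierstrassCurve R) (h : NonMin ϖ W) :
    NonMin ϖ (C • W) := by
  obtain ⟨r, s, t, h⟩ := h
  have h1 : (wsh r s t * C⁻¹) • (C • W) = wsh r s t • W := by rw [mul_smul, inv_smul_smul]
  refine ⟨(wsh r s t * C⁻¹).r, (wsh r s t * C⁻¹).s, (wsh r s t * C⁻¹).t, ?_⟩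
  rw [vcint_wsh_smul h1, ← wsc_unit]
  exact nonMin_dvdW_wsc _ h

/-- `C = wdiag u * wsh r s t`, `wsh_mul_wdiag`, `wsh_mul` -/
lemma nonMin_smul {ϖ : R} (C : VariableChange R) (W : WeierstrassCurve R) :
    NonMin ϖ (C • W) ↔ NonMin ϖ W := by
  refine ⟨fun h => ?_, nonMin_smul_of C W⟩
  have := nonMin_smul_of C⁻¹ _ h
  rwa [inv_smul_smul] at this

lemma NonMin.dvd_Delta {ϖ : R} {W : WeierstrassCurve R} (h : NonMin ϖ W) : ϖ ^ 12 ∣ W.Δ := by
  obtain ⟨r, s, t, h⟩ := h
  obtain ⟨W', h'⟩ := dvdW_iff.1 h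
  have h1 : (wsh r s t • W).Δ = W.Δ := by simp [variableChange_Δ, wsh]
  exact ⟨W'.Δ, by rw [← h1, h', wsc_Delta]⟩

lemma nonMin_map_iff {ϖ : R} (φ : R →+* S) (hφ : Function.Surjective φ)
    (hker : ∀ x, φ x = 0 → ϖ ^ 6 ∣ x) (W : WeierstrassCurve R) :
    NonMin (φ ϖ) (W.map φ) ↔ NonMin ϖ W := by
  have hm : ∀ r s t : R, (wsh r s t • W).map φ = wsh (φ r) (φ s) (φ t) • W.map φ := by
    intro r s t
    rw [← map_variableChange]
    congr 1
    simp [wsh, VariableChange.map]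
  have hd : ∀ (i : ℕ) (a : R), i ≤ 6 → φ ϖ ^ i ∣ φ a → ϖ ^ i ∣ a := by
    rintro i a hi ⟨c, hc⟩
    obtain ⟨c, rfl⟩ := hφ c
    have h1 := (pow_dvd_pow ϖ hi).trans (hker (a - ϖ ^ i * c) (by simp [hc]))
    exact (dvd_sub_left (dvd_mul_right _ c)).1 h1
  constructor
  · rintro ⟨r, s, t, h⟩
    obtain ⟨r, rfl⟩ := hφ r
    obtain ⟨s, rfl⟩ := hφ s
    obtain ⟨t, rfl⟩ := hφ t
    rw [← hm] at h
    obtain ⟨h1, h2, h3, h4, h6⟩ := h
    refine ⟨r, s, t, ?_, hd 2 _ (by norm_num) h2, hd 3 _ (by norm_num) h3,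
      hd 4 _ (by norm_num) h4, hd 6 _ le_rfl h6⟩
    have := hd 1 (wsh r s t • W).a₁ (by norm_num) (by rw [pow_one]; exact h1)
    rwa [pow_one] at this
  · rintro ⟨r, s, t, h⟩
    obtain ⟨W', h'⟩ := dvdW_iff.1 h
    exact ⟨φ r, φ s, φ t, dvdW_iff.2 ⟨W'.map φ, by rw [← hm, h', wsc_map]⟩⟩

/-- choose `v` with `ϖ^6 ∣ v u - 1`; then `wsc v (wsh r s t • wsc u W)` is
`wsh (v^2 r) (v s) (v^3 t) • wsc (v u) W`, which is congruent to `wsh .. • W` modulo `ϖ^6` -/
lemma NonMin.of_wsc {ϖ u : R} (hc : IsCoprime ϖ u) {W : WeierstrassCurve R}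
    (h : NonMin ϖ (wsc u W)) : NonMin ϖ W := by
  obtain ⟨a, v, hv⟩ := (IsCoprime.pow_left hc : IsCoprime (ϖ ^ 6) u)
  obtain ⟨r, s, t, h⟩ := h
  have h1 : NonMin ϖ (wsc (v * u) W) :=
    ⟨v ^ 2 * r, v * s, v ^ 3 * t, by
      rw [← wsc_wsc, ← wsc_wsh]
      exact nonMin_dvdW_wsc v h⟩
  have hker : ∀ x, Ideal.Quotient.mk (Ideal.span {ϖ ^ 6}) x = 0 → ϖ ^ 6 ∣ x := fun x hx =>
    Ideal.mem_span_singleton.1 (Ideal.Quotient.eq_zero_iff_mem.1 hx)
  have h2 : Ideal.Quotient.mk (Ideal.span {ϖ ^ 6}) (v * u) = 1 := by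
    rw [← map_one (Ideal.Quotient.mk (Ideal.span {ϖ ^ 6})), Ideal.Quotient.eq,
      Ideal.mem_span_singleton]
    exact ⟨-a, by linear_combination hv⟩
  rw [← nonMin_map_iff _ Ideal.Quotient.mk_surjective hker] at h1 ⊢
  rw [wsc_map, h2] at h1
  have h3 : ∀ V : WeierstrassCurve (R ⧸ Ideal.span {ϖ ^ 6}), wsc 1 V = V := fun V => by
    ext <;> simp [wsc]
  rwa [h3] at h1

end Ring

variable {k : Type u} [Field k]

/-- nonsingular and minimal at all finite places -/
def IsMin (W : WeierstrassCurve k[X]) : Prop := W.Δ ≠ 0 ∧ ∀ p : Irr k, ¬NonMin p.1 W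

lemma isMin_smul (C : VariableChange k[X]) (W : WeierstrassCurve k[X]) :
    IsMin (C • W) ↔ IsMin W := by
  unfold IsMin
  simp only [nonMin_smul, variableChange_Δ]
  refine and_congr_left fun _ => ?_
  rw [mul_ne_zero_iff, and_iff_right (pow_ne_zero _ (Units.ne_zero _))]

variable [Finite k]

/-- With `δ = deg p ≥ 1`: `12 δ ≤ deg Δ ≤ 12 d`.  Reduce `r` modulo `p^2`, `s` modulo `p`, and
`t - r₁ s₀` modulo `p^3`, so that `wsh r s t = wsh r₁ s₁ t₁ * wsh r₀ s₀ t₀` (`wsh_mul`) with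
`p^2 ∣ r₁`, `p ∣ s₁`, `p^3 ∣ t₁`; apply `DvdW.wsh` to the inverse of `wsh r₁ s₁ t₁`.  The equation
`wsh r₀ s₀ t₀ • W` lies in the box (`smul_mem_WBox`). -/
theorem NonMin.exists_small {d : ℕ} {W : WeierstrassCurve k[X]} (hW : W ∈ WBox k d)
    (hΔ : W.Δ ≠ 0) {p : Irr k} (h : NonMin p.1 W) :
    p.1.natDegree ≤ d ∧ ∃ r ∈ dBox k (2 * p.1.natDegree - 1), ∃ s ∈ dBox k (p.1.natDegree - 1),
      ∃ t ∈ dBox k (3 * p.1.natDegree - 1), ∃ W' ∈ WBox k (d - p.1.natDegree),
        wsh r s t • W = wsc p.1 W' := by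
  have hm := p.2.1
  have hδ : 0 < p.1.natDegree := p.2.2.natDegree_pos
  have hd : p.1.natDegree ≤ d := by
    have h1 := natDegree_le_of_dvd h.dvd_Delta hΔ
    have h2 := natDegree_Delta_le hW
    rw [hm.natDegree_pow] at h1
    omega
  refine ⟨hd, ?_⟩
  obtain ⟨r, s, t, h⟩ := h
  obtain ⟨r₀, hr₀, hr⟩ := equi_mod (hm.pow (n := 2)) (D := 2 * p.1.natDegree - 1)
    (by rw [hm.natDegree_pow]; omega) r
  obtain ⟨s₀, hs₀, hs⟩ := equi_mod hm (D := p.1.natDegree - 1) (by omega) s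
  obtain ⟨t₀, ht₀, ht⟩ := equi_mod (hm.pow (n := 3)) (D := 3 * p.1.natDegree - 1)
    (by rw [hm.natDegree_pow]; omega) ((r₀ - r) * s + t)
  have h1 := h.wsh hr hs ht
  rw [← mul_smul, wsh_mul] at h1
  have e1 : r₀ - r + r = r₀ := by ring
  have e2 : s₀ - s + s = s₀ := by ring
  have e3 : t₀ - ((r₀ - r) * s + t) + (r₀ - r) * s + t = t₀ := by ring
  rw [e1, e2, e3] at h1
  obtain ⟨W', h'⟩ := dvdW_iff.1 h1
  have hB : wsh r₀ s₀ t₀ • W ∈ WBox k d :=
    smul_mem_WBox (mem_GBox.2 ⟨hr₀.trans (by omega), hs₀.trans (by omega),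
      ht₀.trans (by omega)⟩) hW
  refine ⟨r₀, mem_dBox.2 hr₀, s₀, mem_dBox.2 hs₀, t₀, mem_dBox.2 ht₀, W', ?_, h'⟩
  rw [h', mem_WBox'] at hB
  obtain ⟨b1, b2, b3, b4, b6⟩ := hB
  have key : ∀ (i : ℕ) (a : k[X]), (p.1 ^ i * a).natDegree ≤ i * d →
      a.natDegree ≤ i * (d - p.1.natDegree) := by
    intro i a ha
    by_cases h0 : a = 0
    · simp [h0]
    · rw [(hm.pow (n := i)).natDegree_mul' h0, hm.natDegree_pow] at ha
      rw [Nat.mul_sub]
      omega
  rw [mem_WBox']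
  refine ⟨?_, key 2 _ b2, key 3 _ b3, key 4 _ b4, key 6 _ b6⟩
  have := key 1 W'.a₁ (by rw [pow_one, one_mul]; exact b1)
  rwa [one_mul] at this

lemma nonMin_dens_le {α β : Type*} {s : Finset α} {P : α → Prop} (T : Finset β) (f : β → α)
    (h : ∀ x ∈ s, P x → ∃ y ∈ T, f y = x) {c : ℝ} (hc : 0 ≤ c)
    (hT : (T.card : ℝ) ≤ c * s.card) : dens s P ≤ c := by
  refine dens_le_of_card_le (le_trans (Nat.cast_le.2 ?_) hT) hc
  refine (Finset.card_le_card (t := T.image f) fun x hx => ?_).trans Finset.card_image_le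
  exact Finset.mem_image.2 (h x (Finset.mem_filter.1 hx).1 (Finset.mem_filter.1 hx).2)

/-- at most `q^(6 δ) q^(16 (d - δ) + 5)` such equations -/
theorem dens_nonMin_le (d : ℕ) (p : Irr k) :
    dens (WBox k d) (fun W => W.Δ ≠ 0 ∧ NonMin p.1 W) ≤
      1 / ((Nat.card k : ℝ) ^ p.1.natDegree) ^ 10 := by
  have hq : (0 : ℝ) < Nat.card k := by
    have := two_le_card k
    exact_mod_cast (by omega : 0 < Nat.card k)
  have hδ : 0 < p.1.natDegree := p.2.2.natDegree_pos
  by_cases hd : p.1.natDegree ≤ d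
  · refine nonMin_dens_le (dBox k (2 * p.1.natDegree - 1) ×ˢ dBox k (p.1.natDegree - 1) ×ˢ
      dBox k (3 * p.1.natDegree - 1) ×ˢ WBox k (d - p.1.natDegree))
      (fun x => (wsh x.1 x.2.1 x.2.2.1)⁻¹ • wsc p.1 x.2.2.2) ?_ (by positivity) (le_of_eq ?_)
    · rintro W hW ⟨hΔ, h⟩
      obtain ⟨-, r, hr, s, hs, t, ht, W', hW', e⟩ := h.exists_small hW hΔ
      refine ⟨(r, s, t, W'), ?_, ?_⟩
      · simp only [Finset.mem_product]
        exact ⟨hr, hs, ht, hW'⟩
      · simp only [← e, inv_smul_smul]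
    · simp only [Finset.card_product, card_dBox, card_WBox, ← pow_add]
      generalize p.1.natDegree = δ at hδ hd
      obtain ⟨e, rfl⟩ := Nat.exists_eq_add_of_le hd
      have e1 : 2 * δ - 1 + 1 + (δ - 1 + 1 + (3 * δ - 1 + 1 + (16 * (δ + e - δ) + 5))) =
          6 * δ + 16 * e + 5 := by
        omega
      rw [e1]
      push_cast
      field_simp
      ring
  · refine nonMin_dens_le (∅ : Finset (WeierstrassCurve k[X])) id
      (fun W hW h => absurd (h.2.exists_small hW h.1).1 hd) (by positivity) ?_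
    rw [Finset.card_empty, Nat.cast_zero]
    positivity

/-- only primes of degree at most `d` occur; `dens_exists_le`, `sum_irr_le` -/
theorem dens_exists_nonMin_le (d N : ℕ) :
    dens (WBox k d) (fun W => W.Δ ≠ 0 ∧ ∃ p : Irr k, N < p.1.natDegree ∧ NonMin p.1 W) ≤
      1 / 4 * (1 / 2 : ℝ) ^ N := by
  have h2 : (2 : ℝ) ≤ Nat.card k := by exact_mod_cast two_le_card k
  obtain ⟨T, hT⟩ : ∃ T : Finset (Irr k), ∀ p, p ∈ T ↔ p.1.natDegree ≤ d ∧ N < p.1.natDegree :=
    ⟨(irrLE k d).filter fun p => N < p.1.natDegree, fun p => by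
      rw [Finset.mem_filter, mem_irrLE]⟩
  have h1 : dens (WBox k d)
      (fun W => W.Δ ≠ 0 ∧ ∃ p : Irr k, N < p.1.natDegree ∧ NonMin p.1 W) ≤
      dens (WBox k d) (fun W => ∃ p ∈ T, (fun (p : Irr k) (W : WeierstrassCurve k[X]) =>
        W.Δ ≠ 0 ∧ NonMin p.1 W) p W) := by
    refine dens_mono ?_
    rintro W hW ⟨hΔ, p, hp, h⟩
    exact ⟨p, (hT p).2 ⟨(h.exists_small hW hΔ).1, hp⟩, hΔ, h⟩
  have h3 := dens_exists_le (WBox k d) T
    (fun (p : Irr k) (W : WeierstrassCurve k[X]) => W.Δ ≠ 0 ∧ NonMin p.1 W)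
  have h4 := sum_irr_le T fun p hp => ((hT p).1 hp).2
  have h5 : ∀ p : Irr k, 1 / ((Nat.card k : ℝ) ^ p.1.natDegree) ^ 10 ≤
      1 / 4 * (1 / ((Nat.card k : ℝ) ^ p.1.natDegree) ^ 2) := by
    intro p
    have hδ : 0 < p.1.natDegree := p.2.2.natDegree_pos
    have h3 : (2 : ℝ) ≤ (Nat.card k : ℝ) ^ p.1.natDegree :=
      h2.trans (le_self_pow₀ (by linarith) hδ.ne')
    generalize (Nat.card k : ℝ) ^ p.1.natDegree = x at h3
    have h4 : (4 : ℝ) ≤ x ^ 8 :=
      le_trans (by norm_num) (pow_le_pow_left₀ (by norm_num : (0 : ℝ) ≤ 2) h3 8)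
    have h5 : 0 < x := by linarith
    rw [div_mul_div_comm, one_mul]
    refine one_div_le_one_div_of_le (by positivity) ?_
    calc 4 * x ^ 2 ≤ x ^ 8 * x ^ 2 := by gcongr
      _ = x ^ 10 := by ring
  refine h1.trans (h3.trans ((Finset.sum_le_sum fun p _ =>
    (dens_nonMin_le d p).trans (h5 p)).trans ?_))
  rw [← Finset.mul_sum]
  exact mul_le_mul_of_nonneg_left h4 (by norm_num)

end SelAvg

/-!
The local weights of a global model.
-/

namespace SelAvg

open WeierstrassCurve WithZero Polynomial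
open scoped Classical

universe u

variable {k : Type u} [Field k]

/-- the local weight at `w` -/
noncomputable def phiW (w : Option (Irr k)) (d n : ℕ) (f : Model k[X]) : ℝ :=
  (Vw w).phiL (res w) ((locV w d n f).map (embO w))

/-- the weight computed modulo `pol w ^ (2 (j + 1))` -/
noncomputable def phiM (w : Option (Irr k)) (j d n : ℕ) (f : Model k[X]) : ℝ :=
  phiR (theta w j) ((locV w d n f).map (AdjoinRoot.mk (pol w ^ (2 * (j + 1)))))

lemma phiW_nonneg (w : Option (Irr k)) (d n : ℕ) (f : Model k[X]) : 0 ≤ phiW w d n f :=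
  LocalField.phiL_nonneg _ _

lemma phiM_nonneg (w : Option (Irr k)) (j d n : ℕ) (f : Model k[X]) : 0 ≤ phiM w j d n f :=
  phiR_nonneg _ _

lemma phi_Delta (w : Option (Irr k)) {f : Model k[X]} (h : f.jac.Δ ≠ 0) :
    (f.map (embO w)).jac.Δ ≠ 0 := by
  rw [Model.jac_map, map_Δ]
  exact (map_ne_zero_iff _ (embO_injective w)).2 h

variable [Finite k]

lemma phi_locV (w : Option (Irr k)) {d n : ℕ} (hn : n ≤ d) {f : Model k[X]}
    (hf : f ∈ VBox k d n) (hΔ : f.jac.Δ ≠ 0) : (locV w d n f).jac.Δ ≠ 0 := by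
  rw [jac_locV w hn hf]
  exact locW_Delta_ne_zero w (jac_mem_WBox hn hf) hΔ

lemma phiM_le (w : Option (Irr k)) (j d n : ℕ) (f : Model k[X]) :
    phiM w j d n f ≤ 2 * (Nat.card (AdjoinRoot (pol w)) + 1) :=
  phiR_le _ _

/-- `phiR_eq_phiL` with `redM`, `redM_comp`, `theta_comp_redM` -/
lemma phiR_mk_eq (w : Option (Irr k)) (j : ℕ) {f : Model k[X]}
    (h : ¬pol w ^ (2 * (j + 1)) ∣ f.jac.Δ) :
    phiR (theta w j) (f.map (AdjoinRoot.mk (pol w ^ (2 * (j + 1))))) =
      (Vw w).phiL (res w) (f.map (embO w)) := by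
  have h1 := LocalField.phiR_eq_phiL (res_isRed w) (redM_isRed w (2 * (j + 1))) (theta w j)
    (theta_comp_redM w j) (f := f.map (embO w)) (by
      rw [Model.jac_map, map_Δ, ← RingHom.comp_apply, redM_comp, Ne, AdjoinRoot.mk_eq_zero]
      exact h)
  rwa [Model.map_map, redM_comp] at h1

lemma phiW_eq_phiM (w : Option (Irr k)) (j d n : ℕ) {f : Model k[X]}
    (h : ¬pol w ^ (2 * (j + 1)) ∣ (locV w d n f).jac.Δ) : phiW w d n f = phiM w j d n f :=
  (phiR_mk_eq w j h).symm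

/-- lift `f` to `k[X]`, use `phiR_mk_eq` and `phiL_le_one` -/
lemma phiR_theta_le_one (w : Option (Irr k)) (j : ℕ)
    {f : Model (AdjoinRoot (pol w ^ (2 * (j + 1))))} (h : f.jac.Δ ≠ 0) :
    phiR (theta w j) f ≤ 1 := by
  obtain ⟨l, m, n, a, b, c, d, e⟩ := f
  obtain ⟨l, rfl⟩ := AdjoinRoot.mk_surjective l
  obtain ⟨m, rfl⟩ := AdjoinRoot.mk_surjective m
  obtain ⟨n, rfl⟩ := AdjoinRoot.mk_surjective n
  obtain ⟨a, rfl⟩ := AdjoinRoot.mk_surjective a
  obtain ⟨b, rfl⟩ := AdjoinRoot.mk_surjective b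
  obtain ⟨c, rfl⟩ := AdjoinRoot.mk_surjective c
  obtain ⟨d, rfl⟩ := AdjoinRoot.mk_surjective d
  obtain ⟨e, rfl⟩ := AdjoinRoot.mk_surjective e
  let F : Model k[X] := ⟨l, m, n, a, b, c, d, e⟩
  change (F.map (AdjoinRoot.mk (pol w ^ (2 * (j + 1))))).jac.Δ ≠ 0 at h
  change phiR (theta w j) (F.map (AdjoinRoot.mk (pol w ^ (2 * (j + 1))))) ≤ 1
  rw [Model.jac_map, map_Δ, Ne, AdjoinRoot.mk_eq_zero] at h
  rw [phiR_mk_eq w j h]
  refine LocalField.phiL_le_one (res_isRed w) (phi_Delta w fun h0 => h ?_)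
  rw [h0]
  exact dvd_zero _

lemma phiW_le_one (w : Option (Irr k)) {d n : ℕ} (hn : n ≤ d) {f : Model k[X]}
    (hf : f ∈ VBox k d n) (hΔ : f.jac.Δ ≠ 0) : phiW w d n f ≤ 1 := by
  exact LocalField.phiL_le_one (res_isRed w) (phi_Delta w (phi_locV w hn hf hΔ))

/-- `phiL_eq_one`, `unif_pow_dvd_embO_iff` -/
lemma phiW_eq_one (p : Irr k) (d n : ℕ) {f : Model k[X]} (h : ¬p.1 ^ 2 ∣ f.jac.Δ) :
    phiW (some p) d n f = 1 := by
  refine LocalField.phiL_eq_one (res_isRed (some p)) ?_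
  rw [locV_some, Model.jac_map, map_Δ, unif_pow_dvd_embO_iff]
  exact h

/-- `locObj_smul`, `phiL_smul` -/
lemma phiW_smul (w : Option (Irr k)) {d n : ℕ} (hn : n ≤ d) {g : G k[X]} (hg : g ∈ GamBox k d n)
    {z : Obj k[X]} (hz : z ∈ ObjBox k d n) (hΔ : z.f.jac.Δ ≠ 0) :
    phiW w d n (g • z).f = phiW w d n z.f := by
  obtain ⟨g', -, h⟩ := locObj_smul w hn hg hz
  have h1 : locV w d n (g • z).f = g' • locV w d n z.f := congrArg Obj.f h
  unfold phiW
  rw [h1, G.map_smul]
  exact LocalField.phiL_smul _ _ (phi_Delta w (phi_locV w hn (mem_ObjBox.1 hz).1 hΔ))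

/-- `soluble_of_nSm_pos`, `locV_map`, `Model.soluble_smul` -/
lemma soluble_of_phiW_ne_zero (w : Option (Irr k)) {d n : ℕ} (hn : n ≤ d) {f : Model k[X]}
    (hf : f ∈ VBox k d n) (h : phiW w d n f ≠ 0) :
    ((f.map (toK k)).map (toKw w)).Soluble := by
  have h1 : 0 < nSm (((locV w d n f).map (embO w)).map (res w)) := by
    refine Nat.pos_of_ne_zero fun h0 => h ?_
    unfold phiW LocalField.phiL
    rw [h0, Nat.cast_zero, zero_div]
  have h2 := LocalField.soluble_of_nSm_pos (res_isRed w) _ h1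
  rwa [Model.map_map, incl_comp_embO, ← Model.map_map, locV_map w hn hf, G.map_smul,
    Model.soluble_smul] at h2

lemma card_adjoinRoot_pol (w : Option (Irr k)) :
    Fintype.card (AdjoinRoot (pol w)) = Nat.card k ^ (pol w).natDegree := by
  rw [← Nat.card_eq_fintype_card, card_adjoinRoot (pol_monic w)]

end SelAvg
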